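import Mathlib

/-!
# DR: derivations of a field of characteristic zero

`exists_der_basis`: values on a transcendence basis can be prescribed. `alg_of_der`: an element
killed by all derivations is algebraic. `exists_alg_mem`, `span_alg`: a space of vectors which is
stable under all derivations (coefficientwise) is spanned by its vectors with algebraic
coordinates.
-/

set_option autoImplicit false

open scoped TensorProduct IntermediateField.algebraAdjoinAdjoin

namespace Pool.Agent.Lib.MP_5d4057_al.DR

/-- **Derivations with prescribed values on a transcendence basis.** -/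
theorem exists_der_basis {k L ι : Type*} [Field k] [Field L] [Algebra k L] [CharZero k]
    {v : ι → L} (hv : IsTranscendenceBasis k v) (f : ι → L) :
    ∃ D : Derivation k L L, ∀ i, D (v i) = f i := by
  let S := MvPolynomial ι k
  let _ : Algebra S L := (MvPolynomial.aeval v).toAlgebra
  have hst : IsScalarTower k S L := IsScalarTower.of_algebraMap_eq' (by
    ext x; simp [S, RingHom.algebraMap_toAlgebra])
  have het : Algebra.FormallyEtale S L := by
    let A := Algebra.adjoin k (Set.range v)
    let E := IntermediateField.adjoin k (Set.range v)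
    have h1 : Algebra.IsAlgebraic E L := hv.isAlgebraic_field
    have h2 : Algebra.FormallyEtale E L := Algebra.FormallyEtale.of_isSeparable _ L
    have h3 : Algebra.FormallyEtale A E := .of_isLocalization (nonZeroDivisors _)
    have h4 : Algebra.FormallyEtale A L := .comp _ E _
    let e : S ≃ₐ[k] A := hv.1.aevalEquiv
    let _ : Algebra S A := (e : S →+* A).toAlgebra
    let e' : S ≃ₐ[S] A := { e with commutes' := fun r => rfl }
    have h5 : Algebra.FormallyEtale S A := .of_equiv e'
    have h6 : IsScalarTower S A L := IsScalarTower.of_algebraMap_eq' (by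
      refine RingHom.ext fun x => ?_
      exact (hv.1.algebraMap_aevalEquiv x).symm)
    exact .comp _ A _
  let d0 : Derivation k S L := MvPolynomial.mkDerivation k f
  let φ : Ω[L⁄k] →ₗ[L] L :=
    (KaehlerDifferential.isBaseChange_of_formallyEtale k S L).lift d0.liftKaehlerDifferential
  refine ⟨φ.compDer (KaehlerDifferential.D k L), fun i => ?_⟩
  have h1 : algebraMap S L (MvPolynomial.X i) = v i := by
    simp [S, RingHom.algebraMap_toAlgebra]
  have h2 : φ (KaehlerDifferential.map k k S L (KaehlerDifferential.D k S (MvPolynomial.X i)))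
      = d0.liftKaehlerDifferential (KaehlerDifferential.D k S (MvPolynomial.X i)) :=
    IsBaseChange.lift_eq _ _ _
  rw [KaehlerDifferential.map_D, Derivation.liftKaehlerDifferential_comp_D, h1] at h2
  calc (φ.compDer (KaehlerDifferential.D k L)) (v i)
      = φ (KaehlerDifferential.D k L (v i)) := rfl
    _ = d0 (MvPolynomial.X i) := h2
    _ = f i := MvPolynomial.mkDerivation_X k f i

/-- A transcendental element is moved by some derivation. -/
theorem exists_der_of_transcendental {k L : Type*} [Field k] [Field L] [Algebra k L] [CharZero k]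
    {c : L} (hc : Transcendental k c) : ∃ D : Derivation k L L, D c = 1 := by
  have h1 : AlgebraicIndependent k (fun x : ({c} : Set L) => (x : L)) := by
    rw [algebraicIndependent_singleton_iff (i := ⟨c, rfl⟩)]
    simpa using hc
  obtain ⟨B, hB, hBB⟩ := exists_isTranscendenceBasis_superset h1
  obtain ⟨D, hD⟩ := exists_der_basis hBB (fun _ => 1)
  exact ⟨D, hD ⟨c, hB rfl⟩⟩

/-- Derivations vanish at algebraic elements. -/
theorem der_of_isAlgebraic {k L : Type*} [Field k] [Field L] [Algebra k L] [CharZero k]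
    (D : Derivation k L L) {c : L} (hc : IsAlgebraic k c) : D c = 0 := by
  have hi : IsIntegral k c := hc.isIntegral
  have h1 : Polynomial.aeval c (minpoly k c) = 0 := minpoly.aeval k c
  have h2 := congrArg D h1
  rw [map_zero, Derivation.map_aeval D (minpoly k c) c] at h2
  have h3 : Polynomial.aeval c (Polynomial.derivative (minpoly k c)) ≠ 0 :=
    (minpoly.irreducible hi).separable.aeval_derivative_ne_zero h1
  exact (smul_eq_zero.mp h2).resolve_left h3

/-- An element is algebraic if and only if all derivations kill it. -/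
theorem isAlgebraic_iff_der {k L : Type*} [Field k] [Field L] [Algebra k L] [CharZero k]
    {c : L} : IsAlgebraic k c ↔ ∀ D : Derivation k L L, D c = 0 := by
  refine ⟨fun h D => der_of_isAlgebraic D h, fun h => ?_⟩
  by_contra hc
  obtain ⟨D, hD⟩ := exists_der_of_transcendental (k := k) (c := c) hc
  exact one_ne_zero (hD.symm.trans (h D))

/-- The derivation over `ℚ` with the same values as one over `ℤ`. -/
private theorem der_lift (D : Derivation ℤ ℂ ℂ) :
    ∃ D' : Derivation ℚ ℂ ℂ, ∀ c, D' c = D c := by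
  refine ⟨{ toLinearMap := D.toLinearMap.toAddMonoidHom.toRatLinearMap
            map_one_eq_zero' := ?_
            leibniz' := ?_ }, fun c => rfl⟩
  · exact D.map_one_eq_zero
  · exact fun a b => D.leibniz a b

/-- A complex number which all derivations of `ℂ` kill is algebraic. -/
theorem alg_of_der {c : ℂ} (h : ∀ D : Derivation ℤ ℂ ℂ, D c = 0) : IsAlgebraic ℚ c := by
  rw [isAlgebraic_iff_der]
  intro D
  exact h (D.restrictScalars ℤ)

/-- Derivations of `ℂ` vanish at algebraic numbers. -/
theorem der_alg (D : Derivation ℤ ℂ ℂ) {c : ℂ} (h : IsAlgebraic ℚ c) : D c = 0 := by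
  obtain ⟨D', hD'⟩ := der_lift D
  rw [← hD', der_of_isAlgebraic D' h]

/-- A transcendental number is moved by some derivation of `ℂ`. -/
theorem exists_der {c : ℂ} (hc : Transcendental ℚ c) : ∃ D : Derivation ℤ ℂ ℂ, D c ≠ 0 := by
  obtain ⟨D, hD⟩ := exists_der_of_transcendental hc
  exact ⟨D.restrictScalars ℤ, by
    have : (D.restrictScalars ℤ) c = D c := rfl
    rw [this, hD]; exact one_ne_zero⟩

section Descent

variable {ι : Type*}

/-- A vector of minimal support, one coordinate `1`. -/
private theorem exists_min (W : Submodule ℂ (ι →₀ ℂ)) {w : ι →₀ ℂ} (hw : w ∈ W) (hw0 : w ≠ 0) :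
    ∃ u ∈ W, u ≠ 0 ∧ u.support ⊆ w.support ∧ (∃ i, u i = 1) ∧
      ∀ x ∈ W, x.support ⊂ u.support → x = 0 := by
  classical
  let T : Set ℕ := {m | ∃ u ∈ W, u ≠ 0 ∧ u.support ⊆ w.support ∧ u.support.card = m}
  have hT : T.Nonempty := ⟨_, w, hw, hw0, subset_rfl, rfl⟩
  obtain ⟨u, hu, hu0, hus, huc⟩ := Nat.sInf_mem hT
  obtain ⟨i, hi⟩ := Finsupp.ne_iff.mp hu0
  have hi' : u i ≠ 0 := by simpa using hi
  have hsup : ((u i)⁻¹ • u).support = u.support :=
    Finsupp.support_smul_eq (inv_ne_zero hi')
  refine ⟨(u i)⁻¹ • u, W.smul_mem _ hu, ?_, ?_, ⟨i, ?_⟩, ?_⟩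
  · exact smul_ne_zero (inv_ne_zero hi') hu0
  · rw [hsup]; exact hus
  · simp [hi']
  · intro x hx hxs
    rw [hsup] at hxs
    by_contra hx0
    have h1 : x.support.card ∈ T := ⟨x, hx, hx0, hxs.1.trans hus, rfl⟩
    have h2 := Nat.sInf_le h1
    have h3 := Finset.card_lt_card hxs
    omega

/-- **Descent, one vector**: below any vector of a space stable under all derivations there is a
nonzero vector with algebraic coordinates. -/
theorem exists_alg_mem (W : Submodule ℂ (ι →₀ ℂ))
    (hW : ∀ (D : Derivation ℤ ℂ ℂ), ∀ w ∈ W, w.mapRange D (map_zero D) ∈ W)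
    {w : ι →₀ ℂ} (hw : w ∈ W) (hw0 : w ≠ 0) :
    ∃ u ∈ W, u ≠ 0 ∧ u.support ⊆ w.support ∧ (∃ i, u i = 1) ∧ ∀ i, IsAlgebraic ℚ (u i) := by
  obtain ⟨u, hu, hu0, hus, ⟨i, hi⟩, hmin⟩ := exists_min W hw hw0
  refine ⟨u, hu, hu0, hus, ⟨i, hi⟩, fun j => alg_of_der fun D => ?_⟩
  have h1 := hmin _ (hW D u hu) ⟨?_, ?_⟩
  · have h2 := congrArg (fun f => f j) h1
    simpa using h2
  · exact Finsupp.support_mapRange
  · intro hcon
    have h2 : i ∈ u.support := by simp [hi]
    have h3 := hcon h2
    simp [hi] at h3

/-- **Descent**: a space stable under all derivations is spanned by its vectors with algebraic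
coordinates. -/
theorem span_alg (W : Submodule ℂ (ι →₀ ℂ))
    (hW : ∀ (D : Derivation ℤ ℂ ℂ), ∀ w ∈ W, w.mapRange D (map_zero D) ∈ W) :
    Submodule.span ℂ {u | u ∈ W ∧ ∀ i, IsAlgebraic ℚ (u i)} = W := by
  classical
  refine le_antisymm (Submodule.span_le.mpr fun u hu => hu.1) ?_
  suffices h : ∀ m : ℕ, ∀ w ∈ W, w.support.card = m →
      w ∈ Submodule.span ℂ {u | u ∈ W ∧ ∀ i, IsAlgebraic ℚ (u i)} from
    fun w hw => h _ w hw rfl
  intro m
  induction m using Nat.strong_induction_on with
  | _ m ih =>
    intro w hw hm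
    by_cases hw0 : w = 0
    · rw [hw0]; exact Submodule.zero_mem _
    obtain ⟨u, hu, hu0, hus, ⟨i, hi⟩, halg⟩ := exists_alg_mem W hW hw hw0
    have h1 : w - w i • u ∈ W := W.sub_mem hw (W.smul_mem _ hu)
    have hsub : (w - w i • u).support ⊂ w.support := by
      refine ⟨fun j hj => ?_, fun hcon => ?_⟩
      · by_contra hjw
        have h2 : w j = 0 := by simpa using hjw
        have h3 : u j = 0 := by
          by_contra h4
          exact hjw (hus (by simpa using h4))
        simp [h2, h3] at hj
      · have h2 : i ∈ w.support := hus (by simp [hi])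
        have h3 := hcon h2
        simp [hi] at h3
    have h2 := ih _ (by rw [← hm]; exact Finset.card_lt_card hsub) _ h1 rfl
    have h3 : w = (w - w i • u) + w i • u := by simp
    rw [h3]
    exact Submodule.add_mem _ h2 (Submodule.smul_mem _ _ (Submodule.subset_span ⟨hu, halg⟩))

/-- The same for coordinate vectors. -/
theorem exists_alg_mem_fun [Finite ι] (W : Submodule ℂ (ι → ℂ))
    (hW : ∀ (D : Derivation ℤ ℂ ℂ), ∀ w ∈ W, (fun i => D (w i)) ∈ W)
    {w : ι → ℂ} (hw : w ∈ W) (hw0 : w ≠ 0) :
    ∃ u ∈ W, u ≠ 0 ∧ (∀ i, w i = 0 → u i = 0) ∧ (∃ i, u i = 1) ∧ ∀ i, IsAlgebraic ℚ (u i) := by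
  let e : (ι →₀ ℂ) ≃ₗ[ℂ] (ι → ℂ) := Finsupp.linearEquivFunOnFinite ℂ ℂ ι
  have he : ∀ (v : ι →₀ ℂ) i, e v i = v i := fun v i => rfl
  have he' : ∀ (v : ι → ℂ) i, e.symm v i = v i := fun v i => by
    rw [← he, e.apply_symm_apply]
  obtain ⟨u, hu, hu0, hus, hi, halg⟩ := exists_alg_mem (W.comap e.toLinearMap) (fun D v hv => by
      have h1 := hW D _ hv
      have h2 : e (v.mapRange D (map_zero D)) = fun i => D (e v i) := by
        funext i
        rw [he, Finsupp.mapRange_apply, he]
      simp only [Submodule.mem_comap, LinearEquiv.coe_coe]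
      rw [h2]
      exact h1) (w := e.symm w) (by simpa using hw) (by simpa using hw0)
  refine ⟨e u, hu, by simpa using hu0, fun i h => ?_, hi, halg⟩
  rw [he]
  by_contra hc
  have h1 := hus (by simpa using hc : i ∈ u.support)
  rw [Finsupp.mem_support_iff, he'] at h1
  exact h1 h

end Descent

end Pool.Agent.Lib.MP_5d4057_al.DR
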