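import Pool.Agent.Lib.MP_5d4057_al.DR.CharF
import Pool.Agent.Lib.MP_5d4057_al.CI.Fin
import Pool.Agent.Lib.MP_5d4057_al.RG.RepN
import Pool.Agent.Lib.MP_5d4057_al.RG.FGN

/-!
# DER: the theorem for the amalgam: every lattice of Hunt's shape is arithmetic (owner: helper53)
-/

set_option autoImplicit false

namespace Pool.Agent.Lib.MP_5d4057_al.DR

open Matrix Filter Topology Pool.Agent.Lib.MP_5d4057_al Pool.Agent.Lib.MP_5d4057_al.Hyb
  Pool.Agent.Lib.MP_5d4057_al.HM Pool.Agent.Lib.MP_5d4057_al.NU Pool.Agent.Lib.MP_5d4057_al.RG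

variable {m n : ℕ}

/-- `FinCh` depends only on the range. -/
theorem finCh_of_range {G H : Type} [Group G] [Group H] {ρ : G →* SUGroup n} {τ : H →* SUGroup n}
    (h : τ.range = ρ.range) (hτ : FinCh τ) : FinCh ρ := by
  intro p hp hx
  obtain ⟨N, hN, h1⟩ := hτ p hp (fun y => by
    obtain ⟨x, hx'⟩ : τ y ∈ ρ.range := h ▸ ⟨y, rfl⟩
    rw [← hx']
    exact hx x)
  refine ⟨N, hN, fun x => ?_⟩
  obtain ⟨y, hy⟩ : ρ x ∈ τ.range := h ▸ ⟨x, rfl⟩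
  rw [← hy]
  exact h1 y

/-- `FinCh` for a normal subgroup of finite index implies `FinCh`. -/
theorem finCh_of_sub {Γ Γ' : Subgroup (SUGroup m)} (hle : Γ' ≤ Γ) (hfi : Γ'.relIndex Γ ≠ 0)
    (hN : (Γ'.subgroupOf Γ).Normal) {ρ : Γ →* SUGroup n}
    (h : FinCh (ρ.comp (Subgroup.inclusion hle))) : FinCh ρ := by
  intro p hp hx
  obtain ⟨N, hN', h1⟩ := h p hp fun y => hx _
  refine ⟨(Γ'.subgroupOf Γ).index * N, Nat.mul_pos (Nat.pos_of_ne_zero hfi) hN', fun x => ?_⟩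
  have h2 : x ^ (Γ'.subgroupOf Γ).index ∈ Γ'.subgroupOf Γ := by
    haveI := hN
    exact (Γ'.subgroupOf Γ).pow_index_mem x
  have h3 := h1 ⟨((x ^ (Γ'.subgroupOf Γ).index : Γ) : SUGroup m), h2⟩
  have h4 : (ρ.comp (Subgroup.inclusion hle)) ⟨((x ^ (Γ'.subgroupOf Γ).index : Γ) : SUGroup m), h2⟩ =
      ρ x ^ (Γ'.subgroupOf Γ).index := by
    rw [← map_pow]
    rfl
  rw [h4, ← pow_mul] at h3
  exact h3

/-- **The theorem.** Every lattice in `SU(k+2,1)` which is the image of an amalgam of two arithmetic lattices in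
`SU(k+1,1)` along an arithmetic lattice in `SU(k,1)`, injective on the factors, is arithmetic. -/
theorem amalgam_arith (k : ℕ) (hk : 3 ≤ k) (Γ₃ : Subgroup (SUGroup k))
    (Γ : Fin 2 → Subgroup (SUGroup (k + 1))) (h₃ : IsLattice Γ₃) (hA₃ : IsArith k Γ₃)
    (hL : ∀ b, IsLattice (Γ b)) (hA : ∀ b, IsArith (k + 1) (Γ b))
    (ι : ∀ b, Γ₃ →* Γ b) (hι : ∀ b, Function.Injective (ι b))
    (ρ : Monoid.PushoutI ι →* SUGroup (k + 2))
    (hinj : ∀ b, Function.Injective (ρ.comp (Monoid.PushoutI.of b)))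
    (hlat : IsLattice ρ.range) : IsArith (k + 2) ρ.range := by
  have hf : ∀ b, FGG (Γ b) := fun b => RC.fgg_of_isArith (hA b)
  have hfg : ∀ b, Group.FG (Γ b) := fun b => fg_of_lat (by omega) (hL b) (hf b)
  have hG : ∀ b, GeoV (Γ b) := fun b => geoV_of_lat (by omega) (hL b) (hf b)
  have hG₃ : GeoV Γ₃ := geoV_of_lat (by omega) h₃ (RC.fgg_of_isArith hA₃)
  have hH : ∀ b, HasHyp (Γ b) := fun b =>
    hasHyp_of (by omega) h₃ hA₃ hG₃ (hL b) (hf b) (ι b) (hι b)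
  have hfG : FGG ρ.range := CI.fgg_range hfg ρ
  refine amalgam_rig k (by omega) Γ₃ Γ h₃ hL hA hG hfg ι hι ρ hinj (fun b => ?_) hlat
  obtain ⟨Γ', hle, g, hfi, hN, hL', hA', hg⟩ := CI.piece_tw (m := k + 1) (by omega) (hL b) (hA b)
    (hG b) hlat hfG (ρ.comp (Monoid.PushoutI.of (φ := ι) b)) (hinj b) (by
      rintro _ ⟨x, rfl⟩
      exact ⟨_, rfl⟩)
  refine finCh_of_sub hle hfi hN ?_
  obtain ⟨Γ₁, ρ₁, hL₁, hA₁, hH₁, hg₁, hr⟩ := exists_twd_hyp hL' hA' ((hH b).sub hfi) hg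
  refine finCh_of_range hr (char_fin hk hlat hfG hL₁ hA₁ hH₁ ρ₁ ?_ hg₁)
  rw [hr]
  rintro _ ⟨x, rfl⟩
  exact ⟨_, rfl⟩

end Pool.Agent.Lib.MP_5d4057_al.DR
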