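import Pool.Agent.Lib.MP_5d4057_al.DR.Gm
import Pool.Agent.Lib.MP_5d4057_al.QB.FmC
import Pool.Agent.Lib.MP_5d4057_al.QB.PsB
import Pool.Agent.Lib.MP_5d4057_al.NU.CuspL
import Pool.Agent.Lib.MP_5d4057_al.NU.LatB

/-!
# DER, T1 -> T2: torsion free lattices satisfy `Dep` and `Frs` (helper30)
-/

set_option autoImplicit false

namespace Pool.Agent.Lib.MP_5d4057_al.DR

open Filter Topology Matrix Pool.Agent.Lib.MP_5d4057_al
  Pool.Agent.Lib.MP_5d4057_al.Hyb Pool.Agent.Lib.MP_5d4057_al.HM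
  Pool.Agent.Lib.MP_5d4057_al.NU Pool.Agent.Lib.MP_5d4057_al.QB

variable {n : ℕ} {Γ Δ : Subgroup (SUGroup n)}

theorem Dep.mono (h : Dep Δ) (hle : Δ ≤ Γ) : Dep Γ := fun k hk F hF =>
  h k hk F fun i => (hF i).mono hle

theorem dep_of_ht {T : ℝ} {y : Vec n → ℝ} (h : Ht Γ T y)
    (hn : 2 ≤ n ∨ ∀ v ∈ Cone n, y v ≤ T) : Dep Γ := by
  intro k hk F hF
  obtain ⟨D, P, h1, h2, h3⟩ := depW h hn (k := fun _ => k) (fun _ => hk) F hF
  exact ⟨P, h1, h3⟩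

theorem dep_of_coc (h : Coc Γ) : Dep Γ :=
  dep_of_ht (ht_of_coc h) (Or.inr fun _ _ => by norm_num)

/-- (H2) for lattices. -/
theorem dep_of_lat (hn : 2 ≤ n) (hL : IsLattice Γ) (hTor : Tor Γ) : Dep Γ := by
  obtain ⟨χ, hχ⟩ := exists_lat hL
  exact dep_of_ht (ht_hty hn hχ (tf_of_tor hχ.disc hTor) hTor) (Or.inl hn)

/-- (H1) for discrete subgroups without fixed points. -/
theorem frs_of_tf (hd : DiscreteTopology Γ) (hT : TF Γ) : Frs Γ := by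
  intro Q hQ
  obtain ⟨k₀, hk₀⟩ := frame hd hT hQ
  obtain ⟨F, hF, hdet⟩ := hk₀ (k₀ + 1) (by omega)
  exact ⟨k₀ + 1, by omega, F, hF, hdet⟩

/-- (H1) for torsion free discrete subgroups. -/
theorem frs_of_tor (hd : DiscreteTopology Γ) (hTor : Tor Γ) : Frs Γ :=
  frs_of_tf hd (tf_of_tor hd hTor)

end Pool.Agent.Lib.MP_5d4057_al.DR
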