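import Mathlib

/-!
# DR, regularity lemma, one variable

`D` a derivation of `ℂ` (wild), `φ` a holomorphic germ at `0` which is algebraic over `ℂ(z)`:
`z ↦ D (φ z) - D z * φ' z` is holomorphic at `0`, with derivative `D (φ' 0)` at `0`.
-/

set_option autoImplicit false

namespace Pool.Agent.Lib.MP_5d4057_al.DR

open Polynomial Filter Topology

/-- `D` applied to the coefficients of a polynomial. -/
noncomputable def mc {A : Type} [CommRing A] (d : Derivation ℤ A A) : Derivation ℤ A[X] A[X] :=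
  PolynomialModule.equivPolynomialSelf.compDer d.mapCoeffs

theorem coeff_mc {A : Type} [CommRing A] (d : Derivation ℤ A A) (p : A[X]) (i : ℕ) :
    (mc d p).coeff i = d (p.coeff i) := rfl

theorem mc_X {A : Type} [CommRing A] (d : Derivation ℤ A A) : mc d (X : A[X]) = 0 := by
  ext i
  rw [coeff_mc, coeff_X]
  split_ifs <;> simp

theorem mc_C {A : Type} [CommRing A] (d : Derivation ℤ A A) (a : A) : mc d (C a) = C (d a) := by
  ext i
  rw [coeff_mc, coeff_C, coeff_C]
  split_ifs <;> simp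

/-- `D (p(x)) = p^D (x) + p'(x) D x`. -/
theorem der_eval {A : Type} [CommRing A] (d : Derivation ℤ A A) (p : A[X]) (x : A) :
    d (p.eval x) = (mc d p).eval x + (derivative p).eval x * d x := by
  induction p using Polynomial.induction_on' with
  | add p q hp hq =>
    simp only [eval_add, map_add, hp, hq, add_mul]
    ring
  | monomial n a =>
    rw [← C_mul_X_pow_eq_monomial]
    simp only [Derivation.leibniz, mc_C, eval_mul, eval_pow, eval_C, eval_X, smul_eq_mul,
      Derivation.leibniz_pow, mc_X, derivative_mul, derivative_C, derivative_X_pow, eval_add,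
      eval_zero, eval_natCast, nsmul_eq_mul, mul_zero, zero_mul, zero_add, add_zero, eval_zero]
    ring

/-- The derivative in the inner variable. -/
noncomputable def dX (p : ℂ[X][X]) : ℂ[X][X] := mc ((derivative' (R := ℂ)).restrictScalars ℤ) p

/-- The derivative of all coefficients. -/
noncomputable def dD (D : Derivation ℤ ℂ ℂ) (p : ℂ[X][X]) : ℂ[X][X] := mc (mc D) p

theorem ev_monomial (n : ℕ) (a : ℂ[X]) (z t : ℂ) :
    (monomial n a : ℂ[X][X]).evalEval z t = a.eval z * t ^ n := by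
  rw [← C_mul_X_pow_eq_monomial, evalEval_mul, evalEval_C, evalEval_pow, evalEval_X]

theorem ev_eval (p : ℂ[X][X]) (q : ℂ[X]) (z : ℂ) :
    (p.eval q).eval z = p.evalEval z (q.eval z) := by
  induction p using Polynomial.induction_on' with
  | add p q hp hq => rw [eval_add, eval_add, evalEval_add, hp, hq]
  | monomial n a => rw [ev_monomial, eval_monomial, eval_mul, eval_pow]

theorem dX_monomial (n : ℕ) (a : ℂ[X]) : dX (monomial n a) = monomial n (derivative a) := by
  refine Polynomial.ext fun i => ?_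
  rw [dX, coeff_mc, coeff_monomial, coeff_monomial]
  split_ifs
  · rfl
  · exact map_zero _

theorem dX_add (p q : ℂ[X][X]) : dX (p + q) = dX p + dX q := map_add _ _ _

theorem an_ev (p : ℂ[X][X]) {φ : ℂ → ℂ} {z₀ : ℂ} (h : AnalyticAt ℂ φ z₀) :
    AnalyticAt ℂ (fun z => p.evalEval z (φ z)) z₀ := by
  induction p using Polynomial.induction_on' with
  | add p q hp hq =>
    simp only [evalEval_add]
    exact hp.add hq
  | monomial n a =>
    simp only [ev_monomial]
    exact (AnalyticOnNhd.eval_polynomial a z₀ (Set.mem_univ _)).mul (h.pow n)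

theorem der_ev (p : ℂ[X][X]) {φ : ℂ → ℂ} {z₀ φ' : ℂ} (h : HasDerivAt φ φ' z₀) :
    HasDerivAt (fun z => p.evalEval z (φ z))
      ((dX p).evalEval z₀ (φ z₀) + (derivative p).evalEval z₀ (φ z₀) * φ') z₀ := by
  induction p using Polynomial.induction_on' with
  | add p q hp hq =>
    simp only [evalEval_add, dX_add, derivative_add]
    exact (hp.add hq).congr_deriv (by ring)
  | monomial n a =>
    simp only [ev_monomial, dX_monomial, derivative_monomial]
    refine ((a.hasDerivAt z₀).mul (h.pow n)).congr_deriv ?_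
    simp only [Pi.pow_apply, eval_mul, eval_natCast]
    ring

/-- `D` of a number `p(z, t)`. -/
theorem D_ev (D : Derivation ℤ ℂ ℂ) (p : ℂ[X][X]) (z t : ℂ) :
    D (p.evalEval z t) = (dD D p).evalEval z t + (derivative p).evalEval z t * D t +
      (dX p).evalEval z t * D z := by
  induction p using Polynomial.induction_on' with
  | add p q hp hq =>
    simp only [dD, dX_add, derivative_add, map_add, evalEval_add, hp, hq]
    ring
  | monomial n a =>
    have h1 : dD D (monomial n a) = monomial n (mc D a) := by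
      refine Polynomial.ext fun i => ?_
      rw [dD, coeff_mc, coeff_monomial, coeff_monomial]
      split_ifs
      · rfl
      · exact map_zero _
    rw [h1, dX_monomial, derivative_monomial, ev_monomial, ev_monomial, ev_monomial, ev_monomial,
      Derivation.leibniz, der_eval, Derivation.leibniz_pow]
    simp only [smul_eq_mul, nsmul_eq_mul, eval_mul, eval_natCast]
    ring

/-! ### Congruences modulo `z ^ M` -/

/-- Congruence modulo `z ^ M`. -/
def Cg (M : ℕ) (f g : ℂ → ℂ) : Prop :=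
  ∃ K : ℂ → ℂ, AnalyticAt ℂ K 0 ∧ ∀ᶠ z in 𝓝 (0 : ℂ), f z = g z + z ^ M * K z

theorem Cg.refl (M : ℕ) (f : ℂ → ℂ) : Cg M f f :=
  ⟨fun _ => 0, analyticAt_const, Eventually.of_forall fun z => by ring⟩

theorem Cg.symm {M : ℕ} {f g : ℂ → ℂ} (h : Cg M f g) : Cg M g f := by
  obtain ⟨K, hK, h1⟩ := h
  refine ⟨fun z => -K z, hK.neg, h1.mono fun z hz => ?_⟩
  rw [hz]
  ring

theorem Cg.trans {M : ℕ} {f g k : ℂ → ℂ} (h : Cg M f g) (h' : Cg M g k) : Cg M f k := by
  obtain ⟨K, hK, h1⟩ := h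
  obtain ⟨L, hL, h2⟩ := h'
  refine ⟨fun z => K z + L z, hK.add hL, ?_⟩
  filter_upwards [h1, h2] with z a b
  rw [a, b]
  ring

theorem Cg.add {M : ℕ} {f g f' g' : ℂ → ℂ} (h : Cg M f g) (h' : Cg M f' g') :
    Cg M (fun z => f z + f' z) (fun z => g z + g' z) := by
  obtain ⟨K, hK, h1⟩ := h
  obtain ⟨L, hL, h2⟩ := h'
  refine ⟨fun z => K z + L z, hK.add hL, ?_⟩
  filter_upwards [h1, h2] with z a b
  rw [a, b]
  ring

theorem Cg.mul {M : ℕ} {f g f' g' : ℂ → ℂ} (h : Cg M f g) (h' : Cg M f' g')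
    (hf : AnalyticAt ℂ f 0) (hg' : AnalyticAt ℂ g' 0) :
    Cg M (fun z => f z * f' z) (fun z => g z * g' z) := by
  obtain ⟨K, hK, h1⟩ := h
  obtain ⟨L, hL, h2⟩ := h'
  refine ⟨fun z => K z * g' z + f z * L z, (hK.mul hg').add (hf.mul hL), ?_⟩
  filter_upwards [h1, h2] with z a b
  rw [b, a]
  ring

theorem Cg.pow {M : ℕ} {f g : ℂ → ℂ} (h : Cg M f g) (hf : AnalyticAt ℂ f 0)
    (hg : AnalyticAt ℂ g 0) (n : ℕ) : Cg M (fun z => f z ^ n) (fun z => g z ^ n) := by
  induction n with
  | zero => simpa using Cg.refl M fun _ => 1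
  | succ n ih =>
    simp only [pow_succ]
    exact ih.mul h (hf.pow n) hg

theorem Cg.ev {M : ℕ} {f g : ℂ → ℂ} (h : Cg M f g) (hf : AnalyticAt ℂ f 0)
    (hg : AnalyticAt ℂ g 0) (p : ℂ[X][X]) :
    Cg M (fun z => p.evalEval z (f z)) (fun z => p.evalEval z (g z)) := by
  induction p using Polynomial.induction_on' with
  | add p q hp hq =>
    simp only [evalEval_add]
    exact hp.add hq
  | monomial n a =>
    simp only [ev_monomial]
    exact (Cg.refl M _).mul (h.pow hf hg n)
      (AnalyticOnNhd.eval_polynomial a 0 (Set.mem_univ _)) (hg.pow n)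

/-- Taylor polynomials. -/
theorem exists_taylor (M : ℕ) : ∀ {φ : ℂ → ℂ}, AnalyticAt ℂ φ 0 →
    ∃ q : ℂ[X], Cg M φ fun z => q.eval z := by
  induction M with
  | zero =>
    intro φ hφ
    exact ⟨0, φ, hφ, Eventually.of_forall fun z => by simp⟩
  | succ M ih =>
    intro φ hφ
    have h1 : AnalyticAt ℂ (dslope φ 0) 0 := by
      obtain ⟨p, hp⟩ := hφ
      exact ⟨_, hp.has_fpower_series_dslope_fslope⟩
    obtain ⟨q, K, hK, hq⟩ := ih h1
    refine ⟨C (φ 0) + X * q, K, hK, hq.mono fun z hz => ?_⟩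
    have h2 : φ z = φ 0 + z * dslope φ 0 z := by
      have := sub_smul_dslope φ 0 z
      rw [sub_zero, smul_eq_mul] at this
      rw [this]
      ring
    rw [h2, hz]
    simp only [eval_add, eval_C, eval_mul, eval_X]
    ring

/-- A polynomial of order `≥ M` at `0`. -/
theorem dvd_of_cg (M : ℕ) : ∀ {f : ℂ[X]} {K : ℂ → ℂ}, ContinuousAt K 0 →
    (∀ᶠ z in 𝓝 (0 : ℂ), f.eval z = z ^ M * K z) → X ^ M ∣ f := by
  induction M with
  | zero =>
    intro f K _ _
    rw [pow_zero]
    exact one_dvd _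
  | succ M ih =>
    intro f K hK h
    have h0 : f.eval 0 = 0 := by
      rw [h.self_of_nhds]
      simp
    obtain ⟨g, rfl⟩ : X ∣ f := by
      rw [X_dvd_iff, coeff_zero_eq_eval_zero, h0]
    rw [pow_succ']
    refine mul_dvd_mul_left _ (ih hK ?_)
    have h1 : ∀ᶠ z in 𝓝[≠] (0 : ℂ), g.eval z = z ^ M * K z := by
      filter_upwards [h.filter_mono nhdsWithin_le_nhds, self_mem_nhdsWithin] with z hz hz0
      rw [eval_mul, eval_X, pow_succ', mul_assoc] at hz
      exact mul_left_cancel₀ hz0 hz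
    have h2 : ContinuousAt (fun z => g.eval z) 0 := g.continuous.continuousAt
    have h3 : ContinuousAt (fun z : ℂ => z ^ M * K z) 0 := by fun_prop
    exact (h2.eventuallyEq_nhds_iff_eventuallyEq_nhdsNE h3).1 h1

/-- The quotient `p^D / p_T` along an algebraic germ. -/
theorem exists_psi (D : Derivation ℤ ℂ ℂ) (p : ℂ[X][X]) {φ : ℂ → ℂ} (hφ : AnalyticAt ℂ φ 0)
    (hp : ∀ᶠ z in 𝓝 (0 : ℂ), p.evalEval z (φ z) = 0)
    (hT : ¬ ∀ᶠ z in 𝓝 (0 : ℂ), (derivative p).evalEval z (φ z) = 0) :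
    ∃ ψ : ℂ → ℂ, AnalyticAt ℂ ψ 0 ∧ ψ 0 = D (φ 0) ∧ deriv ψ 0 = D (deriv φ 0) ∧
      ∀ᶠ z in 𝓝 (0 : ℂ), (dD D p).evalEval z (φ z) +
        (derivative p).evalEval z (φ z) * ψ z = 0 := by
  have hG : AnalyticAt ℂ (fun z => (derivative p).evalEval z (φ z)) 0 := an_ev _ hφ
  obtain ⟨N, g, hg, hg0, hN⟩ := hG.exists_eventuallyEq_pow_smul_nonzero_iff.2 hT
  obtain ⟨q, hq⟩ := exists_taylor (N + 2) hφ
  have hqa : ∀ r : ℂ[X], AnalyticAt ℂ (fun z => r.eval z) 0 := fun r =>
    AnalyticOnNhd.eval_polynomial r 0 (Set.mem_univ _)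
  -- the polynomial `p (z, q (z))`
  have h1 : X ^ (N + 2) ∣ p.eval q := by
    obtain ⟨K, hK, h⟩ := (hq.ev hφ (hqa q) p).symm
    refine dvd_of_cg (N + 2) hK.continuousAt ?_
    filter_upwards [h, hp] with z hz hz0
    rw [ev_eval, hz, hz0, zero_add]
  have h2 : X ^ (N + 2) ∣ mc D (p.eval q) := by
    rw [X_pow_dvd_iff] at h1 ⊢
    intro d hd
    rw [coeff_mc, h1 d hd, map_zero]
  have h2' := der_eval (mc D) p q
  obtain ⟨r, hr₀⟩ := h2
  have hr := h2'.symm.trans hr₀
  have h3 : Cg (N + 2) (fun z => (dD D p).evalEval z (q.eval z) +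
      (derivative p).evalEval z (q.eval z) * (mc D q).eval z) fun _ => 0 := by
    refine ⟨fun z => r.eval z, hqa r, Eventually.of_forall fun z => ?_⟩
    have h4 := congrArg (eval z) hr
    rw [eval_add, eval_mul, eval_mul, ev_eval, ev_eval, eval_pow, eval_X] at h4
    rw [zero_add]
    exact h4
  have h4 : Cg (N + 2) (fun z => (dD D p).evalEval z (φ z) +
      (derivative p).evalEval z (φ z) * (mc D q).eval z) fun _ => 0 := by
    refine Cg.trans ?_ h3
    exact (hq.ev hφ (hqa q) _).add ((hq.ev hφ (hqa q) _).mul (Cg.refl _ _) (an_ev _ hφ) (hqa _))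
  obtain ⟨K, hK, h5⟩ := h4
  refine ⟨fun z => (mc D q).eval z - z ^ 2 * (K z / g z), ?_, ?_, ?_, ?_⟩
  · exact (hqa _).sub ((analyticAt_id.pow 2).mul (hK.div hg hg0))
  · obtain ⟨L, hL, h6⟩ := hq
    have h7 := h6.self_of_nhds
    simp only [ne_eq, Nat.add_eq_zero_iff, OfNat.ofNat_ne_zero, and_false, not_false_eq_true,
      zero_pow, zero_mul, add_zero] at h7
    show (mc D q).eval 0 - 0 ^ 2 * (K 0 / g 0) = D (φ 0)
    rw [h7, ← coeff_zero_eq_eval_zero, ← coeff_zero_eq_eval_zero, coeff_mc]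
    simp
  · have h8 : HasDerivAt (fun z => z ^ 2 * (K z / g z)) 0 0 := by
      have := (hasDerivAt_pow 2 (0 : ℂ)).mul (hK.div hg hg0).differentiableAt.hasDerivAt
      refine this.congr_deriv ?_
      simp
    have h8' : HasDerivAt (fun z => (mc D q).eval z - z ^ 2 * (K z / g z))
        ((derivative (mc D q)).eval 0 - 0) 0 := ((mc D q).hasDerivAt 0).sub h8
    rw [h8'.deriv, sub_zero]
    obtain ⟨L, hL, h6⟩ := hq
    have h9 : HasDerivAt (fun z => z ^ (N + 2) * L z) 0 0 := by
      have := (hasDerivAt_pow (N + 2) (0 : ℂ)).mul hL.differentiableAt.hasDerivAt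
      refine this.congr_deriv ?_
      simp
    have h10 : deriv φ 0 = (derivative q).eval 0 := by
      have h9' : HasDerivAt (fun z => q.eval z + z ^ (N + 2) * L z)
        ((derivative q).eval 0 + 0) 0 := (q.hasDerivAt 0).add h9
      rw [Filter.EventuallyEq.deriv_eq (f := fun z => q.eval z + z ^ (N + 2) * L z) h6,
        h9'.deriv, add_zero]
    rw [h10, ← coeff_zero_eq_eval_zero, ← coeff_zero_eq_eval_zero, coeff_derivative,
      coeff_derivative, coeff_mc]
    simp
  · filter_upwards [h5, hN, hg.continuousAt.eventually_ne hg0] with z hz hz1 hz2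
    rw [sub_zero, smul_eq_mul] at hz1
    have h11 : (dD D p).evalEval z (φ z) = z ^ (N + 2) * K z -
        (derivative p).evalEval z (φ z) * (mc D q).eval z := by
      linear_combination hz
    rw [h11, hz1]
    field_simp
    ring

/-- The regularity lemma in one variable. -/
theorem reg_one (D : Derivation ℤ ℂ ℂ) (p : ℂ[X][X]) {φ : ℂ → ℂ} (hφ : AnalyticAt ℂ φ 0)
    (hp : ∀ᶠ z in 𝓝 (0 : ℂ), p.evalEval z (φ z) = 0)
    (hT : ¬ ∀ᶠ z in 𝓝 (0 : ℂ), (derivative p).evalEval z (φ z) = 0) :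
    AnalyticAt ℂ (fun z => D (φ z) - D z * deriv φ z) 0 ∧
      deriv (fun z => D (φ z) - D z * deriv φ z) 0 = D (deriv φ 0) := by
  obtain ⟨ψ, hψ, h0, h1, h2⟩ := exists_psi D p hφ hp hT
  have hG : AnalyticAt ℂ (fun z => (derivative p).evalEval z (φ z)) 0 := an_ev _ hφ
  have hne : ∀ᶠ z in 𝓝[≠] (0 : ℂ), (derivative p).evalEval z (φ z) ≠ 0 :=
    hG.eventually_eq_zero_or_eventually_ne_zero.resolve_left hT
  have hev : ∀ᶠ z in 𝓝 (0 : ℂ), D (φ z) - D z * deriv φ z = ψ z := by
    rw [eventually_nhdsWithin_iff] at hne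
    filter_upwards [hne, h2, hp.eventually_nhds, hφ.eventually_analyticAt] with z hz hz2 hz3 hz4
    by_cases hz0 : z = 0
    · rw [hz0, map_zero, zero_mul, sub_zero, h0]
    · have hG0 := hz hz0
      have h3 := D_ev D p z (φ z)
      rw [hz3.self_of_nhds, map_zero] at h3
      have h4 := der_ev p hz4.differentiableAt.hasDerivAt
      have h5 : HasDerivAt (fun w => p.evalEval w (φ w)) 0 z :=
        (hasDerivAt_const z (0 : ℂ)).congr_of_eventuallyEq hz3
      have h6 := h4.unique h5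
      refine mul_left_cancel₀ hG0 ?_
      linear_combination -h3 - D z * h6 - hz2
  refine ⟨hψ.congr (hev.mono fun z hz => hz.symm), ?_⟩
  rw [Filter.EventuallyEq.deriv_eq hev, h1]

end Pool.Agent.Lib.MP_5d4057_al.DR
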