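import Pool.Agent.Lib.MP_5d4057_al.DR.BpG
import Pool.Agent.Lib.MP_5d4057_al.GX.FrmB

/-!
# DER: reductions for theorem (B') (owner: helper99)
-/

set_option autoImplicit false

namespace Pool.Agent.Lib.MP_5d4057_al.DR

open Matrix Filter Topology Pool.Agent.Lib.MP_5d4057_al Pool.Agent.Lib.MP_5d4057_al.Hyb
  Pool.Agent.Lib.MP_5d4057_al.HM Pool.Agent.Lib.MP_5d4057_al.NU

variable {n : ℕ}

theorem continuous_actv (γ : SUGroup n) : Continuous fun v : Vec n => act γ v := by
  unfold act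
  exact Continuous.matrix_mulVec continuous_const continuous_id

theorem bp_stU_mul {u w : Vec n} {γ δ : SUGroup n} (h : StU u w γ) (h' : StU u w δ) :
    StU u w (γ * δ) := fun x hx => by
  rw [act_mul]
  exact h _ (h' _ hx)

/-- The stabilizer of a plane. -/
def stH (G : Subgroup (SUGroup n)) (u w : Vec n) : Subgroup (SUGroup n) where
  carrier := {γ | γ ∈ G ∧ StU u w γ}
  one_mem' := ⟨G.one_mem, fun x hx => by rwa [act_one]⟩
  mul_mem' := by
    rintro γ δ ⟨h1, h2⟩ ⟨h3, h4⟩
    exact ⟨G.mul_mem h1 h3, bp_stU_mul h2 h4⟩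
  inv_mem' := by
    rintro γ ⟨h1, h2⟩
    exact ⟨G.inv_mem h1, BpG.stU_inv h2⟩

/-- Cocompactness on the plane passes to subgroups of finite index. -/
theorem CocU.sub {G G' : Subgroup (SUGroup n)} {u w : Vec n} (hfi : G'.relIndex G ≠ 0)
    (h : CocU G u w) : CocU G' u w := by
  obtain ⟨D, hD, hDC, hDU, hcoc⟩ := h
  have hle : stH G u w ≤ G := fun γ hγ => hγ.1
  have hfi' : G'.relIndex (stH G u w) ≠ 0 := fun h =>
    hfi (Subgroup.relIndex_eq_zero_of_le_right hle h)
  have hfin : (G'.subgroupOf (stH G u w)).FiniteIndex := ⟨hfi'⟩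
  have hq : Finite (stH G u w ⧸ G'.subgroupOf (stH G u w)) :=
    Subgroup.finite_quotient_of_finiteIndex
  let s : (stH G u w ⧸ G'.subgroupOf (stH G u w)) → SUGroup n := fun c => (c.out : SUGroup n)
  have hs : ∀ c, s c ∈ stH G u w := fun c => (Quotient.out c).2
  refine ⟨⋃ c, (fun v => act (s c)⁻¹ v) '' D,
    isCompact_iUnion fun c => hD.image (continuous_actv _), ?_, ?_, ?_⟩
  · intro x hx
    obtain ⟨c, d, hd, rfl⟩ := Set.mem_iUnion.1 hx
    exact act_mem _ (hDC hd)
  · intro x hx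
    obtain ⟨c, d, hd, rfl⟩ := Set.mem_iUnion.1 hx
    exact BpG.stU_inv (hs c).2 _ (hDU d hd)
  · intro v hv hvU
    obtain ⟨γ, hγ, hst, c, hc, hcD⟩ := hcoc v hv hvU
    let a : stH G u w ⧸ G'.subgroupOf (stH G u w) := QuotientGroup.mk ⟨γ, hγ, hst⟩
    have h1 : (Quotient.out a : stH G u w)⁻¹ * ⟨γ, hγ, hst⟩ ∈ G'.subgroupOf (stH G u w) := by
      rw [← QuotientGroup.eq]
      exact Quotient.out_eq a
    have h2 : (s a)⁻¹ * γ ∈ G' := by
      rw [Subgroup.mem_subgroupOf] at h1
      exact h1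
    refine ⟨(s a)⁻¹ * γ, h2, bp_stU_mul (BpG.stU_inv (hs a).2) hst, c, hc, ?_⟩
    refine Set.mem_iUnion.2 ⟨a, c • act γ v, hcD, ?_⟩
    show act (s a)⁻¹ (c • act γ v) = c • act ((s a)⁻¹ * γ) v
    rw [act_smul, act_mul]

/-- The determinant of a power. -/
theorem det_pow_pl {u w : Vec n} {γ : SUGroup n} {a b c d : ℂ} (h1 : act γ u = a • u + b • w)
    (h2 : act γ w = c • u + d • w) (m : ℕ) : ∃ a' b' c' d' : ℂ,
      act (γ ^ m) u = a' • u + b' • w ∧ act (γ ^ m) w = c' • u + d' • w ∧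
        a' * d' - b' * c' = (a * d - b * c) ^ m := by
  induction m with
  | zero =>
    refine ⟨1, 0, 0, 1, ?_, ?_, ?_⟩
    · rw [pow_zero, act_one, one_smul, zero_smul, add_zero]
    · rw [pow_zero, act_one, one_smul, zero_smul, zero_add]
    · simp
  | succ m ih =>
    obtain ⟨a', b', c', d', h3, h4, h5⟩ := ih
    refine ⟨a * a' + b * c', a * b' + b * d', c * a' + d * c', c * b' + d * d', ?_, ?_, ?_⟩
    · rw [pow_succ, act_mul, h1, act_add, act_smul, act_smul, h3, h4, smul_add, smul_add,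
        smul_smul, smul_smul, smul_smul, smul_smul]
      module
    · rw [pow_succ, act_mul, h2, act_add, act_smul, act_smul, h3, h4, smul_add, smul_add,
        smul_smul, smul_smul, smul_smul, smul_smul]
      module
    · rw [pow_succ, ← h5]
      ring

/-- The conclusion passes to overgroups of finite index. -/
theorem FinDet.of_sub {G G' : Subgroup (SUGroup n)} {u w : Vec n} (hfi : G'.relIndex G ≠ 0)
    (hN : (G'.subgroupOf G).Normal) (h : FinDet G' u w) : FinDet G u w := by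
  obtain ⟨N, hN0, h⟩ := h
  refine ⟨(G'.subgroupOf G).index * N, Nat.mul_pos (Nat.pos_of_ne_zero hfi) hN0, ?_⟩
  intro γ hγ a b c d h1 h2
  have h3 : (⟨γ, hγ⟩ : G) ^ (G'.subgroupOf G).index ∈ G'.subgroupOf G := by
    have := hN
    exact (G'.subgroupOf G).pow_index_mem _
  have h4 : γ ^ (G'.subgroupOf G).index ∈ G' := by
    rw [Subgroup.mem_subgroupOf] at h3
    exact h3
  obtain ⟨a', b', c', d', h5, h6, h7⟩ := det_pow_pl h1 h2 (G'.subgroupOf G).index
  rw [pow_mul, ← h7]
  exact h _ h4 a' b' c' d' h5 h6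

/-- Change of basis of the plane. -/
theorem det_change {u w u' w' : Vec n}
    (hsp : Submodule.span ℂ {u', w'} = Submodule.span ℂ {u, w})
    (hiu : ∀ s t : ℂ, s • u + t • w = 0 → s = 0 ∧ t = 0) {γ : SUGroup n} {a b c d : ℂ}
    (h1 : act γ u = a • u + b • w) (h2 : act γ w = c • u + d • w) : ∃ a' b' c' d' : ℂ,
      act γ u' = a' • u' + b' • w' ∧ act γ w' = c' • u' + d' • w' ∧
        a' * d' - b' * c' = a * d - b * c := by
  have hu' : u' ∈ Submodule.span ℂ {u, w} := by
    rw [← hsp]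
    exact Submodule.subset_span (by simp)
  have hw' : w' ∈ Submodule.span ℂ {u, w} := by
    rw [← hsp]
    exact Submodule.subset_span (by simp)
  have hu : u ∈ Submodule.span ℂ {u', w'} := by
    rw [hsp]
    exact Submodule.subset_span (by simp)
  have hw : w ∈ Submodule.span ℂ {u', w'} := by
    rw [hsp]
    exact Submodule.subset_span (by simp)
  obtain ⟨p, q, hpq⟩ := Submodule.mem_span_pair.1 hu'
  obtain ⟨r, s, hrs⟩ := Submodule.mem_span_pair.1 hw'
  obtain ⟨p', q', hpq'⟩ := Submodule.mem_span_pair.1 hu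
  obtain ⟨r', s', hrs'⟩ := Submodule.mem_span_pair.1 hw
  -- `P' P = 1`
  have e1 : (p' * p + q' * r - 1) • u + (p' * q + q' * s) • w = 0 := by
    have h3 : p' • (p • u + q • w) + q' • (r • u + s • w) = u := by
      rw [hpq, hrs, hpq']
    rw [← sub_eq_zero] at h3
    rw [← h3]
    module
  have e2 : (r' * p + s' * r) • u + (r' * q + s' * s - 1) • w = 0 := by
    have h3 : r' • (p • u + q • w) + s' • (r • u + s • w) = w := by
      rw [hpq, hrs, hrs']
    rw [← sub_eq_zero] at h3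
    rw [← h3]
    module
  obtain ⟨f1, f2⟩ := hiu _ _ e1
  obtain ⟨f3, f4⟩ := hiu _ _ e2
  have hdet : (p' * s' - q' * r') * (p * s - q * r) = 1 := by
    have g1 : p' * p + q' * r = 1 := by linear_combination f1
    have g4 : r' * q + s' * s = 1 := by linear_combination f4
    linear_combination (r' * q + s' * s) * f1 + f4 - (r' * p + s' * r) * f2
  refine ⟨(p * a + q * c) * p' + (p * b + q * d) * r', (p * a + q * c) * q' + (p * b + q * d) * s',
    (r * a + s * c) * p' + (r * b + s * d) * r', (r * a + s * c) * q' + (r * b + s * d) * s',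
    ?_, ?_, ?_⟩
  · conv_lhs => rw [← hpq]
    rw [act_add, act_smul, act_smul, h1, h2]
    have h3 : p • (a • u + b • w) + q • (c • u + d • w) =
        (p * a + q * c) • u + (p * b + q * d) • w := by module
    rw [h3]
    conv_lhs => rw [← hpq', ← hrs']
    module
  · conv_lhs => rw [← hrs]
    rw [act_add, act_smul, act_smul, h1, h2]
    have h3 : r • (a • u + b • w) + s • (c • u + d • w) =
        (r * a + s * c) • u + (r * b + s * d) • w := by module
    rw [h3]
    conv_lhs => rw [← hpq', ← hrs']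
    module
  · linear_combination (a * d - b * c) * hdet

/-- Orthogonal vectors of different signs are independent. -/
theorem indep_pl {u w : Vec n} (hu : q u < 0) (hw : 0 < q w) (huw : herm u w = 0) (s t : ℂ)
    (h : s • u + t • w = 0) : s = 0 ∧ t = 0 := by
  have h1 : herm u (s • u + t • w) = 0 := by
    rw [h]
    simp [herm]
  have h2 : herm w (s • u + t • w) = 0 := by
    rw [h]
    simp [herm]
  rw [herm_add_right, herm_smul_right, herm_smul_right, huw, mul_zero, add_zero, herm_self] at h1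
  rw [herm_add_right, herm_smul_right, herm_smul_right, herm_comm, huw, star_zero, mul_zero,
    zero_add, herm_self] at h2
  constructor
  · rcases mul_eq_zero.1 h1 with h3 | h3
    · exact h3
    · exact absurd (Complex.ofReal_eq_zero.1 h3) hu.ne
  · rcases mul_eq_zero.1 h2 with h3 | h3
    · exact h3
    · exact absurd (Complex.ofReal_eq_zero.1 h3) hw.ne'

theorem indep_std (i₀ : Fin n) (s t : ℂ) (h : s • base n + t • BpG.ev i₀ = 0) :
    s = 0 ∧ t = 0 := by
  have h1 := congrFun h (Fin.last n)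
  have h2 := congrFun h i₀.castSucc
  simp only [Pi.add_apply, Pi.smul_apply, smul_eq_mul, BpG.base_self, BpG.ev_last, BpG.base_cs,
    BpG.ev_self, mul_one, mul_zero, add_zero, zero_add, Pi.zero_apply] at h1 h2
  exact ⟨h1, h2⟩

/-- Conjugation. -/
theorem CocU.conj {G : Subgroup (SUGroup n)} {u w : Vec n} (x : SUGroup n) {i₀ : Fin n}
    (hsp : Submodule.span ℂ {act x (base n), act x (BpG.ev i₀)} = Submodule.span ℂ {u, w})
    (h : CocU G u w) : CocU (GX.cj x G) (base n) (BpG.ev i₀) := by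
  obtain ⟨D, hD, hDC, hDU, hcoc⟩ := h
  -- `x` maps the standard plane onto the plane
  have hto : ∀ v ∈ Submodule.span ℂ {base n, BpG.ev i₀}, act x v ∈ Submodule.span ℂ {u, w} := by
    intro v hv
    obtain ⟨a, b, rfl⟩ := Submodule.mem_span_pair.1 hv
    rw [← hsp, act_add, act_smul, act_smul]
    exact Submodule.mem_span_pair.2 ⟨a, b, rfl⟩
  have hfrom : ∀ v ∈ Submodule.span ℂ {u, w}, act x⁻¹ v ∈
      Submodule.span ℂ {base n, BpG.ev i₀} := by
    intro v hv
    rw [← hsp] at hv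
    obtain ⟨a, b, rfl⟩ := Submodule.mem_span_pair.1 hv
    rw [act_add, act_smul, act_smul, ← act_mul, ← act_mul, inv_mul_cancel, act_one, act_one]
    exact Submodule.mem_span_pair.2 ⟨a, b, rfl⟩
  refine ⟨(fun v => act x⁻¹ v) '' D, hD.image (continuous_actv _), ?_, ?_, ?_⟩
  · rintro _ ⟨d, hd, rfl⟩
    exact act_mem _ (hDC hd)
  · rintro _ ⟨d, hd, rfl⟩
    exact hfrom d (hDU d hd)
  · intro v hv hvU
    obtain ⟨γ, hγ, hst, c, hc, hcD⟩ := hcoc (act x v) (act_mem x hv) (hto v hvU)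
    refine ⟨x⁻¹ * γ * x, ?_, ?_, c, hc, c • act γ (act x v), hcD, ?_⟩
    · rw [GX.mem_cj]
      have e : x * (x⁻¹ * γ * x) * x⁻¹ = γ := by group
      rw [e]
      exact hγ
    · intro y hy
      rw [act_mul, act_mul]
      exact hfrom _ (hst _ (hto y hy))
    · show act x⁻¹ (c • act γ (act x v)) = c • act (x⁻¹ * γ * x) v
      rw [act_smul, act_mul, act_mul]

/-- Conjugation of the conclusion. -/
theorem FinDet.of_conj {G : Subgroup (SUGroup n)} {u w : Vec n} (hu : q u < 0) (hw : 0 < q w)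
    (huw : herm u w = 0) (x : SUGroup n) {i₀ : Fin n}
    (hsp : Submodule.span ℂ {act x (base n), act x (BpG.ev i₀)} = Submodule.span ℂ {u, w})
    (h : FinDet (GX.cj x G) (base n) (BpG.ev i₀)) : FinDet G u w := by
  obtain ⟨N, hN, h⟩ := h
  refine ⟨N, hN, fun γ hγ a b c d h1 h2 => ?_⟩
  have hi : ∀ s t : ℂ, s • act x (base n) + t • act x (BpG.ev i₀) = 0 → s = 0 ∧ t = 0 := by
    intro s t hst
    refine indep_std i₀ s t ?_
    have h3 := congrArg (act x⁻¹) hst
    rw [act_add, act_smul, act_smul, ← act_mul, ← act_mul, inv_mul_cancel, act_one,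
      act_one] at h3
    rw [h3]
    simp [act]
  obtain ⟨a', b', c', d', h3, h4, h5⟩ := det_change hsp (indep_pl hu hw huw) h1 h2
  rw [← h5]
  refine h (x⁻¹ * γ * x) ?_ a' b' c' d' ?_ ?_
  · rw [GX.mem_cj]
    have e : x * (x⁻¹ * γ * x) * x⁻¹ = γ := by group
    rw [e]
    exact hγ
  · rw [act_mul, act_mul, h3, act_add, act_smul, act_smul, ← act_mul, ← act_mul, inv_mul_cancel,
      act_one, act_one]
  · rw [act_mul, act_mul, h4, act_add, act_smul, act_smul, ← act_mul, ← act_mul, inv_mul_cancel,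
      act_one, act_one]

theorem tor_cj {G : Subgroup (SUGroup n)} (x : SUGroup n) (h : Tor G) : Tor (GX.cj x G) := by
  intro γ hγ k hk hk1
  have h1 : x * γ * x⁻¹ = 1 := by
    refine h _ (GX.mem_cj.1 hγ) k hk ?_
    rw [conj_pow, hk1]
    group
  have h2 : γ = x⁻¹ * (x * γ * x⁻¹) * x := by group
  rw [h2, h1]
  group

theorem fgg_cj {G : Subgroup (SUGroup n)} (x : SUGroup n) (h : FGG G) : FGG (GX.cj x G) := by
  have h1 : FGE ({x⁻¹.toMatrix} : Set (Matrix (Fin (n + 1)) (Fin (n + 1)) ℂ)) :=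
    FGE.of_finite (Set.finite_singleton _)
  have h2 : FGE ({x.toMatrix} : Set (Matrix (Fin (n + 1)) (Fin (n + 1)) ℂ)) :=
    FGE.of_finite (Set.finite_singleton _)
  refine FGE.mono ((h1.mul h).mul h2) ?_
  rintro _ ⟨γ, hγ, rfl⟩
  refine ⟨_, ⟨_, rfl, _, ⟨x * γ * x⁻¹, GX.mem_cj.1 hγ, rfl⟩, rfl⟩, _, rfl, ?_⟩
  have e : γ = x⁻¹ * (x * γ * x⁻¹) * x := by group
  conv_lhs => rw [e]
  rfl

end Pool.Agent.Lib.MP_5d4057_al.DR
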