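import Pool.Agent.Lib.MP_5d4057_al.DR.HypA

/-! # A hyperbolic element in a group acting cocompactly on a complex geodesic -/

set_option autoImplicit false

namespace Pool.Agent.Lib.MP_5d4057_al.DR.Hyp

open Matrix Filter Topology Pool.Agent.Lib.MP_5d4057_al Pool.Agent.Lib.MP_5d4057_al.Hyb
  Pool.Agent.Lib.MP_5d4057_al.HM

variable {n : ℕ}

theorem norm_herm_le (v w : Vec n) : ‖herm v w‖ ≤ (n + 1) * ‖v‖ * ‖w‖ := by
  rw [herm_eq]
  have h1 : ∀ i : Fin n, ‖star (v i.castSucc) * w i.castSucc‖ ≤ ‖v‖ * ‖w‖ := by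
    intro i
    rw [norm_mul, norm_star]
    exact mul_le_mul (norm_le_pi_norm v _) (norm_le_pi_norm w _) (norm_nonneg _) (norm_nonneg _)
  have h2 : ‖star (v (Fin.last n)) * w (Fin.last n)‖ ≤ ‖v‖ * ‖w‖ := by
    rw [norm_mul, norm_star]
    exact mul_le_mul (norm_le_pi_norm v _) (norm_le_pi_norm w _) (norm_nonneg _) (norm_nonneg _)
  refine (norm_sub_le _ _).trans ?_
  have h3 : ‖∑ i : Fin n, star (v i.castSucc) * w i.castSucc‖ ≤ n * (‖v‖ * ‖w‖) := by
    refine (norm_sum_le _ _).trans ?_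
    refine (Finset.sum_le_sum fun i _ => h1 i).trans (le_of_eq ?_)
    rw [Finset.sum_const, Finset.card_univ, Fintype.card_fin, nsmul_eq_mul]
  nlinarith

/-- Parseval. -/
theorem Fr.pars {x y : Vec n} (h : Fr x y) {w : Vec n} (hw : w ∈ Pl x y) :
    q w = ‖herm y w‖ ^ 2 - ‖herm x w‖ ^ 2 := by
  have h1 : herm w w = ((‖herm y w‖ ^ 2 - ‖herm x w‖ ^ 2 : ℝ) : ℂ) := by
    conv_lhs => rw [h.dec hw]
    rw [herm_add_left, herm_add_right, herm_add_right]
    simp only [herm_smul_left, herm_smul_right, h.xx, h.yy, h.xy, h.yx]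
    push_cast
    rw [← Complex.conj_mul', ← Complex.conj_mul', Complex.star_def, map_neg]
    ring
  rw [herm_self] at h1
  exact_mod_cast h1

/-- The boosted frame. -/
noncomputable def bx (v₀ v₁ : Vec n) (t : ℝ) : Vec n :=
  (Real.cosh t : ℂ) • v₀ + (Real.sinh t : ℂ) • v₁

theorem Fr.boost {v₀ v₁ : Vec n} (h : Fr v₀ v₁) (t : ℝ) : Fr (bx v₀ v₁ t) (bx v₁ v₀ t) := by
  have h1 : (Real.cosh t : ℂ) ^ 2 - (Real.sinh t : ℂ) ^ 2 = 1 := by
    have := Real.cosh_sq_sub_sinh_sq t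
    exact_mod_cast this
  have hc : star (Real.cosh t : ℂ) = Real.cosh t := Complex.conj_ofReal _
  have hs : star (Real.sinh t : ℂ) = Real.sinh t := Complex.conj_ofReal _
  refine ⟨?_, ?_, ?_⟩
  · unfold bx
    rw [herm_add_left, herm_add_right, herm_add_right]
    simp only [herm_smul_left, herm_smul_right, h.xx, h.yy, h.xy, h.yx, hc, hs]
    linear_combination -h1
  · unfold bx
    rw [herm_add_left, herm_add_right, herm_add_right]
    simp only [herm_smul_left, herm_smul_right, h.xx, h.yy, h.xy, h.yx, hc, hs]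
    linear_combination h1
  · unfold bx
    rw [herm_add_left, herm_add_right, herm_add_right]
    simp only [herm_smul_left, herm_smul_right, h.xx, h.yy, h.xy, h.yx, hc, hs]
    ring

theorem bx_mem (v₀ v₁ : Vec n) (t : ℝ) : bx v₀ v₁ t ∈ Pl v₀ v₁ :=
  Submodule.add_mem _ (Submodule.smul_mem _ _ (left_mem _ _))
    (Submodule.smul_mem _ _ (right_mem _ _))

theorem bx_mem' (v₀ v₁ : Vec n) (t : ℝ) : bx v₁ v₀ t ∈ Pl v₀ v₁ :=
  Submodule.add_mem _ (Submodule.smul_mem _ _ (right_mem _ _))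
    (Submodule.smul_mem _ _ (left_mem _ _))

theorem bx_shift (v₀ v₁ : Vec n) (s t : ℝ) : bx v₀ v₁ s =
    (Real.cosh (t - s) : ℂ) • bx v₀ v₁ t - (Real.sinh (t - s) : ℂ) • bx v₁ v₀ t := by
  have h1 : Real.cosh s = Real.cosh (t - s) * Real.cosh t - Real.sinh (t - s) * Real.sinh t := by
    have := Real.cosh_sub t (t - s)
    rw [sub_sub_cancel] at this
    rw [this]
    ring
  have h2 : Real.sinh s = Real.cosh (t - s) * Real.sinh t - Real.sinh (t - s) * Real.cosh t := by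
    have := Real.sinh_sub t (t - s)
    rw [sub_sub_cancel] at this
    rw [this]
    ring
  unfold bx
  rw [h1, h2]
  push_cast
  module

/-- A hyperbolic element: `Γ` any subgroup of which the elements preserving the plane of `u₀`, `u₁`
act cocompactly on the negative lines of the plane. -/
theorem exists_hyp {Γ : Subgroup (SUGroup n)} {u₀ u₁ : Vec n} (h₀ : q u₀ < 0) (h₁ : 0 < q u₁)
    (h₀₁ : herm u₀ u₁ = 0) {D : Set (Vec n)} (hD : IsCompact D) (hDC : D ⊆ Cone n)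
    (hc : ∀ v ∈ Cone n, v ∈ Submodule.span ℂ {u₀, u₁} → ∃ γ ∈ Γ,
      (∀ w ∈ Submodule.span ℂ {u₀, u₁}, HM.act γ w ∈ Submodule.span ℂ {u₀, u₁}) ∧
      ∃ c : ℂ, c ≠ 0 ∧ c • HM.act γ v ∈ D) :
    ∃ γ ∈ Γ, (∀ w ∈ Submodule.span ℂ {u₀, u₁}, HM.act γ w ∈ Submodule.span ℂ {u₀, u₁}) ∧
      ∃ p₀ p₁ : Vec n, ∃ a b : ℂ, Conc γ u₀ u₁ p₀ p₁ a b := by
  -- normalisation
  obtain ⟨v₀, v₁, hv, hspan⟩ : ∃ v₀ v₁ : Vec n, Fr v₀ v₁ ∧ Pl v₀ v₁ = Pl u₀ u₁ := by
    have hr0 : 0 < Real.sqrt (-q u₀) := Real.sqrt_pos.2 (by linarith)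
    have hr1 : 0 < Real.sqrt (q u₁) := Real.sqrt_pos.2 h₁
    have hs0 : Real.sqrt (-q u₀) ^ 2 = -q u₀ := Real.sq_sqrt (by linarith)
    have hs1 : Real.sqrt (q u₁) ^ 2 = q u₁ := Real.sq_sqrt h₁.le
    refine ⟨((Real.sqrt (-q u₀))⁻¹ : ℂ) • u₀, ((Real.sqrt (q u₁))⁻¹ : ℂ) • u₁, ⟨?_, ?_, ?_⟩, ?_⟩
    · rw [herm_self, q_smul, norm_inv, Complex.norm_real, Real.norm_eq_abs, abs_of_pos hr0,
        inv_pow, hs0]
      have : (-q u₀)⁻¹ * q u₀ = -1 := by
        rw [inv_neg, neg_mul, inv_mul_cancel₀ h₀.ne]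
      rw [this]
      norm_num
    · rw [herm_self, q_smul, norm_inv, Complex.norm_real, Real.norm_eq_abs, abs_of_pos hr1,
        inv_pow, hs1, inv_mul_cancel₀ h₁.ne']
      norm_num
    · rw [herm_smul_left, herm_smul_right, h₀₁, mul_zero, mul_zero]
    · refine le_antisymm ?_ ?_
      · rw [Submodule.span_le]
        intro z hz
        rcases hz with rfl | hz
        · exact Submodule.smul_mem _ _ (left_mem _ _)
        · rw [Set.mem_singleton_iff.1 hz]
          exact Submodule.smul_mem _ _ (right_mem _ _)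
      · rw [Submodule.span_le]
        intro z hz
        have hr0' : (Real.sqrt (-q u₀) : ℂ) ≠ 0 := by exact_mod_cast hr0.ne'
        have hr1' : (Real.sqrt (q u₁) : ℂ) ≠ 0 := by exact_mod_cast hr1.ne'
        rcases hz with rfl | hz
        · have h2 := Submodule.smul_mem _ (Real.sqrt (-q z) : ℂ)
            (left_mem (((Real.sqrt (-q z))⁻¹ : ℂ) • z) (((Real.sqrt (q u₁))⁻¹ : ℂ) • u₁))
          rw [smul_smul, mul_inv_cancel₀ hr0', one_smul] at h2
          exact h2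
        · rw [Set.mem_singleton_iff.1 hz]
          have h2 := Submodule.smul_mem _ (Real.sqrt (q u₁) : ℂ)
            (right_mem (((Real.sqrt (-q u₀))⁻¹ : ℂ) • u₀) (((Real.sqrt (q u₁))⁻¹ : ℂ) • u₁))
          rw [smul_smul, mul_inv_cancel₀ hr1', one_smul] at h2
          exact h2
  -- the sequence
  have hx : ∀ m : ℕ, ∃ γ ∈ Γ, (∀ w ∈ Pl v₀ v₁, HM.act γ w ∈ Pl v₀ v₁) ∧
      ∃ c : ℂ, c ≠ 0 ∧ c • HM.act γ (bx v₀ v₁ m) ∈ D := by
    intro m
    obtain ⟨γ, hγ, h2, h3⟩ := hc (bx v₀ v₁ m) (hv.boost m).cone (by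
      change _ ∈ Pl u₀ u₁
      rw [← hspan]
      exact bx_mem _ _ _)
    refine ⟨γ, hγ, fun w hw => ?_, h3⟩
    rw [hspan] at hw ⊢
    exact h2 w hw
  choose γ hγ hγU cc hcc hcD using hx
  obtain ⟨p, hp⟩ : ∃ p : ℕ → Vec n, p = fun m => HM.act (γ m) (bx v₀ v₁ m) := ⟨_, rfl⟩
  obtain ⟨e, he⟩ : ∃ e : ℕ → Vec n, e = fun m => HM.act (γ m) (bx v₁ v₀ m) := ⟨_, rfl⟩
  have hpe : ∀ m, Fr (p m) (e m) := by
    intro m
    rw [hp, he]
    exact (hv.boost m).act (γ m)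
  have hpU : ∀ m, p m ∈ Pl v₀ v₁ := by
    intro m
    rw [hp]
    exact hγU m _ (bx_mem _ _ _)
  have heU : ∀ m, e m ∈ Pl v₀ v₁ := by
    intro m
    rw [he]
    exact hγU m _ (bx_mem' _ _ _)
  have hPl : ∀ m, Pl (p m) (e m) = Pl v₀ v₁ := fun m =>
    span_eq hv.indep (hpU m) (heU m) (hpe m).indep
  -- bounds
  obtain ⟨R, hR0, hR⟩ : ∃ R : ℝ, 0 ≤ R ∧ ∀ m, ‖herm v₀ (p m)‖ ^ 2 ≤ R := by
    have hcont : ContinuousOn (fun d : Vec n => ‖herm v₀ d‖ ^ 2 / (-q d)) D := by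
      have h2 : Continuous fun d : Vec n => herm v₀ d := by
        unfold herm
        fun_prop
      have h3 : Continuous fun d : Vec n => q d := by
        have h4 : (fun d : Vec n => q d) = fun d =>
            ∑ i : Fin n, ‖d i.castSucc‖ ^ 2 - ‖d (Fin.last n)‖ ^ 2 := by
          funext d
          rw [q_eq]
        rw [h4]
        fun_prop
      refine ContinuousOn.div (by fun_prop) (by fun_prop) fun d hd => ?_
      have h5 : q d < 0 := hDC hd
      linarith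
    obtain ⟨C, hC⟩ := hD.exists_bound_of_continuousOn hcont
    refine ⟨max C 0, le_max_right _ _, fun m => ?_⟩
    have h2 := hC _ (hcD m)
    have h3 : HM.act (γ m) (bx v₀ v₁ m) = p m := by rw [hp]
    rw [h3, herm_smul_right, q_smul, (hpe m).qx, norm_mul] at h2
    have h4 : 0 < ‖cc m‖ := norm_pos_iff.2 (hcc m)
    have h5 : (‖cc m‖ * ‖herm v₀ (p m)‖) ^ 2 / (-(‖cc m‖ ^ 2 * -1)) = ‖herm v₀ (p m)‖ ^ 2 := by
      field_simp
    rw [h5, Real.norm_eq_abs, abs_of_nonneg (by positivity)] at h2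
    exact h2.trans (le_max_left _ _)
  have hb : ∀ m, ‖herm v₀ (p m)‖ ≤ R + 1 ∧ ‖herm v₁ (p m)‖ ≤ R + 1 ∧ ‖herm v₀ (e m)‖ ≤ R + 1 ∧
      ‖herm v₁ (e m)‖ ≤ R + 1 := by
    intro m
    have h2 := hv.pars (hpU m)
    rw [(hpe m).qx] at h2
    have h3 := (hpe m).pars (w := v₀) (by rw [hPl]; exact left_mem _ _)
    rw [hv.qx] at h3
    have h4 := (hpe m).pars (w := v₁) (by rw [hPl]; exact right_mem _ _)
    have h5 : q v₁ = 1 := by
      have h6 := hv.yy
      rw [herm_self] at h6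
      exact_mod_cast h6
    rw [h5] at h4
    have hsymm : ∀ a b : Vec n, ‖herm a b‖ = ‖herm b a‖ := by
      intro a b
      rw [herm_comm, norm_star]
    rw [hsymm (e m) v₀, hsymm (p m) v₀] at h3
    rw [hsymm (e m) v₁, hsymm (p m) v₁] at h4
    have h6 := hR m
    have key : ∀ t : ℝ, 0 ≤ t → t ^ 2 ≤ R → t ≤ R + 1 := by
      intro t ht h7
      nlinarith [sq_nonneg (t - 1)]
    have key' : ∀ t : ℝ, 0 ≤ t → t ^ 2 ≤ R → t ≤ R + 1 := key
    exact ⟨key _ (norm_nonneg _) h6, key _ (norm_nonneg _) (by linarith),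
      key _ (norm_nonneg _) (by linarith), key _ (norm_nonneg _) (by linarith)⟩
  obtain ⟨B, hB⟩ : ∃ B, B = (R + 1) * (‖v₀‖ + ‖v₁‖) := ⟨_, rfl⟩
  have hB0 : 0 ≤ B := by
    rw [hB]
    positivity
  have hnorm : ∀ w ∈ Pl v₀ v₁, ‖herm v₀ w‖ ≤ R + 1 → ‖herm v₁ w‖ ≤ R + 1 → ‖w‖ ≤ B := by
    intro w hw h2 h3
    rw [hv.dec hw]
    refine (norm_add_le _ _).trans ?_
    rw [norm_smul, norm_smul, norm_neg, hB]
    nlinarith [norm_nonneg v₀, norm_nonneg v₁]
  have hpB : ∀ m, ‖p m‖ ≤ B := fun m => hnorm _ (hpU m) (hb m).1 (hb m).2.1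
  have heB : ∀ m, ‖e m‖ ≤ B := fun m => hnorm _ (heU m) (hb m).2.2.1 (hb m).2.2.2
  -- two close indices
  obtain ⟨ε, hε⟩ : ∃ ε, ε = 1 / (8 * ((n + 1) * (B + 1))) := ⟨_, rfl⟩
  have hε0 : 0 < ε := by
    rw [hε]
    positivity
  have hεB : (n + 1) * B * ε ≤ 1 / 8 := by
    rw [hε, mul_one_div, div_le_div_iff₀ (by positivity) (by norm_num)]
    nlinarith [Nat.cast_nonneg (α := ℝ) n]
  obtain ⟨s, t, hst, hps, hes⟩ : ∃ s t : ℕ, s < t ∧ ‖p t - p s‖ ≤ ε ∧ ‖e t - e s‖ ≤ ε := by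
    have hbd : Bornology.IsBounded (Metric.closedBall (0 : Vec n × Vec n) B) :=
      Metric.isBounded_closedBall
    obtain ⟨a, -, φ, hφ, hlim⟩ := tendsto_subseq_of_bounded hbd (x := fun m => (p m, e m)) (by
      intro m
      rw [mem_closedBall_zero_iff, Prod.norm_def]
      exact max_le (hpB m) (heB m))
    rw [Metric.tendsto_atTop] at hlim
    obtain ⟨N, hN⟩ := hlim (ε / 2) (by linarith)
    have h2 := hN N le_rfl
    have h3 := hN (N + 1) (Nat.le_succ N)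
    have h4 : dist (p (φ (N + 1)), e (φ (N + 1))) (p (φ N), e (φ N)) ≤ ε := by
      refine (dist_triangle_right _ _ a).trans ?_
      simp only [Function.comp_apply] at h2 h3
      linarith
    rw [dist_eq_norm, Prod.norm_def] at h4
    exact ⟨φ N, φ (N + 1), hφ (Nat.lt_succ_self N), (le_max_left _ _).trans h4,
      (le_max_right _ _).trans h4⟩
  -- the element
  obtain ⟨g, hg⟩ : ∃ g, g = (γ s)⁻¹ * γ t := ⟨_, rfl⟩
  have hgΓ : g ∈ Γ := by
    rw [hg]
    exact Γ.mul_mem (Γ.inv_mem (hγ s)) (hγ t)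
  have hinv : ∀ v : Vec n, HM.act (γ s)⁻¹ (HM.act (γ s) v) = v := by
    intro v
    rw [← HM.act_mul, inv_mul_cancel, HM.act_one]
  obtain ⟨u, hu⟩ : ∃ u : ℝ, u = t - s := ⟨_, rfl⟩
  have hu1 : 1 ≤ u := by
    rw [hu]
    have : (s : ℝ) + 1 ≤ t := by exact_mod_cast hst
    linarith
  have hgact : ∀ (w w' : Vec n), HM.act (γ t) w = w' → w' ∈ Pl v₀ v₁ →
      HM.act g w = (-herm (p s) w' * Real.cosh u - herm (e s) w' * Real.sinh u) • bx v₀ v₁ t +
        (herm (p s) w' * Real.sinh u + herm (e s) w' * Real.cosh u) • bx v₁ v₀ t := by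
    intro w w' hw hw'
    have h2 : w' ∈ Pl (p s) (e s) := by
      rw [hPl]
      exact hw'
    have h3 := (hpe s).dec h2
    have h4 : HM.act g w = HM.act (γ s)⁻¹ w' := by
      rw [hg, HM.act_mul, hw]
    have h5 : HM.act (γ s)⁻¹ (p s) = bx v₀ v₁ s := by
      rw [hp]
      exact hinv _
    have h6 : HM.act (γ s)⁻¹ (e s) = bx v₁ v₀ s := by
      rw [he]
      exact hinv _
    rw [h4, h3, HM.act_add, HM.act_smul, HM.act_smul, h5, h6, bx_shift v₀ v₁ s t,
      bx_shift v₁ v₀ s t, ← hu, ← h3]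
    module
  have hpt : HM.act (γ t) (bx v₀ v₁ t) = p t := by rw [hp]
  have het : HM.act (γ t) (bx v₁ v₀ t) = e t := by rw [he]
  have hx1 := hgact _ _ hpt (hpU t)
  have hy1 := hgact _ _ het (heU t)
  -- estimates
  have hps' : (n + 1) * ‖p s‖ * ‖p t - p s‖ ≤ 1 / 8 := by
    refine le_trans ?_ hεB
    have := hpB s
    gcongr
  have hes' : (n + 1) * ‖p s‖ * ‖e t - e s‖ ≤ 1 / 8 := by
    refine le_trans ?_ hεB
    have := hpB s
    gcongr
  have hpe' : (n + 1) * ‖e s‖ * ‖p t - p s‖ ≤ 1 / 8 := by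
    refine le_trans ?_ hεB
    have := heB s
    gcongr
  have hee' : (n + 1) * ‖e s‖ * ‖e t - e s‖ ≤ 1 / 8 := by
    refine le_trans ?_ hεB
    have := heB s
    gcongr
  have hA : ‖-herm (p s) (p t) - 1‖ ≤ 1 / 8 := by
    have h2 : -herm (p s) (p t) - 1 = -herm (p s) (p t - p s) := by
      rw [herm_sub_right, (hpe s).xx]
      ring
    rw [h2, norm_neg]
    exact (norm_herm_le _ _).trans hps'
  have hE : ‖herm (e s) (e t) - 1‖ ≤ 1 / 8 := by
    have h2 : herm (e s) (e t) - 1 = herm (e s) (e t - e s) := by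
      rw [herm_sub_right, (hpe s).yy]
    rw [h2]
    exact (norm_herm_le _ _).trans hee'
  have hBB : ‖herm (e s) (p t)‖ ≤ 1 / 8 := by
    have h2 : herm (e s) (p t) = herm (e s) (p t - p s) := by
      rw [herm_sub_right, (hpe s).yx, sub_zero]
    rw [h2]
    exact (norm_herm_le _ _).trans hpe'
  have hCC : ‖herm (p s) (e t)‖ ≤ 1 / 8 := by
    have h2 : herm (p s) (e t) = herm (p s) (e t - e s) := by
      rw [herm_sub_right, (hpe s).xy, sub_zero]
    rw [h2]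
    exact (norm_herm_le _ _).trans hes'
  have hch : 4 / 3 < Real.cosh u := by
    have h2 : Real.cosh 1 ≤ Real.cosh u := by
      rw [Real.cosh_le_cosh, abs_of_nonneg (by norm_num : (0 : ℝ) ≤ 1), abs_of_nonneg (by linarith)]
      exact hu1
    have h3 : 4 / 3 < Real.cosh 1 := by
      rw [Real.cosh_eq]
      have h4 := Real.exp_one_gt_d9
      have h5 := Real.exp_pos (-1)
      linarith
    linarith
  have hsh0 : 0 ≤ Real.sinh u := Real.sinh_nonneg_iff.2 (by linarith)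
  have hsh : Real.sinh u ≤ Real.cosh u := (Real.sinh_lt_cosh u).le
  have htr : 2 < ‖(-herm (p s) (p t) * Real.cosh u - herm (e s) (p t) * Real.sinh u) +
      (herm (p s) (e t) * Real.sinh u + herm (e s) (e t) * Real.cosh u)‖ := by
    have h2 : (-herm (p s) (p t) * Real.cosh u - herm (e s) (p t) * Real.sinh u) +
        (herm (p s) (e t) * Real.sinh u + herm (e s) (e t) * Real.cosh u) =
        2 * Real.cosh u + ((-herm (p s) (p t) - 1) * Real.cosh u - herm (e s) (p t) * Real.sinh u +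
        (herm (p s) (e t) * Real.sinh u + (herm (e s) (e t) - 1) * Real.cosh u)) := by ring
    have h3 : ‖(2 : ℂ) * Real.cosh u‖ = 2 * Real.cosh u := by
      rw [norm_mul, Complex.norm_real, Real.norm_eq_abs, abs_of_pos (Real.cosh_pos u)]
      norm_num
    have hrc : ‖(Real.cosh u : ℂ)‖ = Real.cosh u := by
      rw [Complex.norm_real, Real.norm_eq_abs, abs_of_pos (Real.cosh_pos u)]
    have hrs : ‖(Real.sinh u : ℂ)‖ = Real.sinh u := by
      rw [Complex.norm_real, Real.norm_eq_abs, abs_of_nonneg hsh0]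
    have h4 : ‖(-herm (p s) (p t) - 1) * Real.cosh u - herm (e s) (p t) * Real.sinh u +
        (herm (p s) (e t) * Real.sinh u + (herm (e s) (e t) - 1) * Real.cosh u)‖ ≤
        1 / 2 * Real.cosh u := by
      refine (norm_add_le _ _).trans ?_
      refine (add_le_add (norm_sub_le _ _) (norm_add_le _ _)).trans ?_
      rw [norm_mul, norm_mul, norm_mul, norm_mul, hrc, hrs]
      have h5 := mul_le_mul_of_nonneg_right hA (Real.cosh_pos u).le
      have h6 := mul_le_mul_of_nonneg_right hE (Real.cosh_pos u).le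
      have h7 := mul_le_mul_of_nonneg_right hBB hsh0
      have h8 := mul_le_mul_of_nonneg_right hCC hsh0
      linarith
    rw [h2]
    have h5 := norm_sub_le_norm_add ((2 : ℂ) * Real.cosh u)
      ((-herm (p s) (p t) - 1) * Real.cosh u - herm (e s) (p t) * Real.sinh u +
        (herm (p s) (e t) * Real.sinh u + (herm (e s) (e t) - 1) * Real.cosh u))
    rw [h3] at h5
    linarith
  obtain ⟨p₀, p₁, a, b, hcon⟩ := (hv.boost t).conc hx1 hy1 htr
  have hPlt : Pl (bx v₀ v₁ t) (bx v₁ v₀ t) = Pl u₀ u₁ := by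
    rw [← hspan]
    exact span_eq hv.indep (bx_mem _ _ _) (bx_mem' _ _ _) (hv.boost t).indep
  refine ⟨g, hgΓ, ?_, p₀, p₁, a, b, ⟨hcon.e₀, hcon.e₁, hcon.a_gt, hcon.b_lt, hcon.i₀, hcon.i₁,
    hcon.ne, by rw [hcon.span, hPlt], fun l w hl hw => ?_, hcon.u₀, hcon.u₁⟩⟩
  · intro w hw
    change w ∈ Pl u₀ u₁ at hw
    change HM.act g w ∈ Pl u₀ u₁
    rw [← hPlt] at hw ⊢
    obtain ⟨α, β, rfl⟩ := Submodule.mem_span_pair.1 hw
    rw [HM.act_add, HM.act_smul, HM.act_smul, hx1, hy1]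
    exact Submodule.add_mem _
      (Submodule.smul_mem _ _ (Submodule.add_mem _ (Submodule.smul_mem _ _ (left_mem _ _))
        (Submodule.smul_mem _ _ (right_mem _ _))))
      (Submodule.smul_mem _ _ (Submodule.add_mem _ (Submodule.smul_mem _ _ (left_mem _ _))
        (Submodule.smul_mem _ _ (right_mem _ _))))
  · rw [← hPlt] at hw ⊢
    exact hcon.mem l w hl hw

end Pool.Agent.Lib.MP_5d4057_al.DR.Hyp
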