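import Pool.Agent.Lib.MP_5d4057_al.DR.QfA
import Pool.Agent.Lib.MP_5d4057_al.HM.Basic
import Pool.Agent.Lib.MP_5d4057_al.Hyb.Rk

/-!
# DER: algebraic frames, Gram - Schmidt over the algebraic numbers
-/

set_option autoImplicit false

namespace Pool.Agent.Lib.MP_5d4057_al.DR

open Matrix Pool.Agent.Lib.MP_5d4057_al Pool.Agent.Lib.MP_5d4057_al.Hyb
  Pool.Agent.Lib.MP_5d4057_al.HM

variable {n : ℕ} {P : Matrix (Fin (n + 1)) (Fin (n + 1)) ℂ}

theorem herm_mulVec (P : Matrix (Fin (n + 1)) (Fin (n + 1)) ℂ) (x y : Fin (n + 1) → ℂ) :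
    herm (P *ᵥ x) (P *ᵥ y) = star x ⬝ᵥ ((Pᴴ * J n * P) *ᵥ y) := by
  rw [herm, star_mulVec, ← dotProduct_mulVec, mulVec_mulVec, mulVec_mulVec, Matrix.mul_assoc]

theorem alg_herm (hF : AlgM (Pᴴ * J n * P)) {x y : Fin (n + 1) → ℂ}
    (hx : ∀ i, IsAlgebraic ℚ (x i)) (hy : ∀ i, IsAlgebraic ℚ (y i)) :
    IsAlgebraic ℚ (herm (P *ᵥ x) (P *ᵥ y)) := by
  rw [herm_mulVec, dotProduct]
  exact alg_sum _ fun i _ => (alg_star (hx i)).mul (hF.mulVec hy i)

theorem alg_q (hF : AlgM (Pᴴ * J n * P)) {x : Fin (n + 1) → ℂ}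
    (hx : ∀ i, IsAlgebraic ℚ (x i)) : IsAlgebraic ℚ ((q (P *ᵥ x) : ℝ) : ℂ) := by
  rw [← herm_self]
  exact alg_herm hF hx hx

theorem alg_sqrt {r : ℝ} (hr : 0 ≤ r) (h : IsAlgebraic ℚ (r : ℂ)) :
    IsAlgebraic ℚ ((Real.sqrt r : ℝ) : ℂ) := by
  have h1 : ((Real.sqrt r : ℝ) : ℂ) ^ 2 = (r : ℂ) := by
    rw [← Complex.ofReal_pow, Real.sq_sqrt hr]
  exact IsAlgebraic.of_pow two_pos (h1 ▸ h)

/-- Partial frames. -/
def GsGood (P : Matrix (Fin (n + 1)) (Fin (n + 1)) ℂ) (S : Finset (Fin (n + 1)))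
    (w : Fin (n + 1) → Vec n) : Prop :=
  (∀ i ∈ S, ∀ l, IsAlgebraic ℚ (w i l)) ∧
    ∀ i ∈ S, ∀ j ∈ S, herm (P *ᵥ w i) (P *ᵥ w j) = J n i j

theorem J_last : J n (Fin.last n) (Fin.last n) = -1 := by
  rw [J, diagonal_apply_eq, if_pos rfl]

theorem J_of_ne {i : Fin (n + 1)} (h : i ≠ Fin.last n) : J n i i = 1 := by
  rw [J, diagonal_apply_eq, if_neg h]

theorem J_off {i j : Fin (n + 1)} (h : i ≠ j) : J n i j = 0 := by
  rw [J, diagonal_apply_ne _ h]

theorem J_sq (i : Fin (n + 1)) : J n i i * J n i i = 1 := by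
  by_cases h : i = Fin.last n
  · rw [h, J_last]; norm_num
  · rw [J_of_ne h]; norm_num

theorem alg_J (i : Fin (n + 1)) : IsAlgebraic ℚ (J n i i) := by
  by_cases h : i = Fin.last n
  · rw [h, J_last]; exact isAlgebraic_one.neg
  · rw [J_of_ne h]; exact isAlgebraic_one

theorem gs_step (hP : P.det ≠ 0) (hF : AlgM (Pᴴ * J n * P)) {S : Finset (Fin (n + 1))}
    {w : Fin (n + 1) → Vec n} (hS : GsGood P S w) (hl : Fin.last n ∈ S) {a : Fin (n + 1)}
    (ha : a ∉ S) : ∃ u : Vec n, (∀ l, IsAlgebraic ℚ (u l)) ∧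
      (∀ i ∈ S, herm (P *ᵥ w i) (P *ᵥ u) = 0) ∧ herm (P *ᵥ u) (P *ᵥ u) = 1 := by
  classical
  obtain ⟨j, hj⟩ : ∃ j : Fin (n + 1), (Pi.single j 1 : Vec n) ∉
      Submodule.span ℂ ((S.image w : Finset (Vec n)) : Set (Vec n)) := by
    by_contra hcon
    push Not at hcon
    have h1 : Submodule.span ℂ ((S.image w : Finset (Vec n)) : Set (Vec n)) = ⊤ := by
      rw [eq_top_iff]
      intro v _
      have h2 : v = ∑ j, v j • (Pi.single j 1 : Vec n) := by
        funext i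
        rw [Finset.sum_apply, Finset.sum_eq_single i]
        · simp
        · intro b _ hb
          simp [Pi.single_eq_of_ne hb.symm]
        · intro h; exact absurd (Finset.mem_univ i) h
      rw [h2]
      exact Submodule.sum_mem _ fun j _ => Submodule.smul_mem _ _ (hcon j)
    have h3 := finrank_span_finset_le_card (R := ℂ) (S.image w)
    rw [Set.finrank, h1, finrank_top, Module.finrank_fin_fun] at h3
    have h4 : (S.image w).card ≤ S.card := Finset.card_image_le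
    have h5 : S.card < n + 1 := by
      have h6 : S ⊂ Finset.univ := by
        rw [Finset.ssubset_univ_iff]
        intro h; rw [h] at ha; exact ha (Finset.mem_univ a)
      have h7 := Finset.card_lt_card h6
      rwa [Finset.card_univ, Fintype.card_fin] at h7
    omega
  have hea : ∀ l, IsAlgebraic ℚ ((Pi.single j 1 : Vec n) l) := by
    intro l
    by_cases h : l = j
    · subst h; rw [Pi.single_eq_same]; exact isAlgebraic_one
    · rw [Pi.single_eq_of_ne h]; exact isAlgebraic_zero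
  set c : Fin (n + 1) → ℂ := fun i => J n i i * herm (P *ᵥ w i) (P *ᵥ (Pi.single j 1 : Vec n))
    with hc
  have hca : ∀ i ∈ S, IsAlgebraic ℚ (c i) := fun i hi =>
    (alg_J i).mul (alg_herm hF (hS.1 i hi) hea)
  set u₀ : Vec n := Pi.single j 1 + ∑ i ∈ S, (-c i) • w i with hu₀
  have hu₀a : ∀ l, IsAlgebraic ℚ (u₀ l) := by
    intro l
    rw [hu₀, Pi.add_apply, Finset.sum_apply]
    refine (hea l).add (alg_sum _ fun i hi => ?_)
    rw [Pi.smul_apply, smul_eq_mul]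
    exact (hca i hi).neg.mul (hS.1 i hi l)
  have hPu : P *ᵥ u₀ = P *ᵥ (Pi.single j 1 : Vec n) + ∑ i ∈ S, (-c i) • (P *ᵥ w i) := by
    rw [hu₀, mulVec_add, mulVec_sum]
    congr 1
    refine Finset.sum_congr rfl fun i _ => ?_
    rw [mulVec_smul]
  have hsum : ∀ (v : Vec n) (f : Fin (n + 1) → ℂ), herm v (∑ i ∈ S, f i • (P *ᵥ w i)) =
      ∑ i ∈ S, f i * herm v (P *ᵥ w i) := by
    intro v f
    rw [herm, mulVec_sum, dotProduct_sum]
    refine Finset.sum_congr rfl fun i _ => ?_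
    rw [mulVec_smul, dotProduct_smul, smul_eq_mul, herm]
  have horth : ∀ k ∈ S, herm (P *ᵥ w k) (P *ᵥ u₀) = 0 := by
    intro k hk
    rw [hPu, herm_add_right, hsum, Finset.sum_eq_single k]
    · rw [hS.2 k hk k hk, hc]
      linear_combination (-herm (P *ᵥ w k) (P *ᵥ (Pi.single j 1 : Vec n))) * (J_sq k)
    · intro b hb hbk
      rw [hS.2 k hk b hb, J_off hbk.symm, mul_zero]
    · intro h; exact absurd hk h
  have hu0 : u₀ ≠ 0 := by
    intro h0
    apply hj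
    have h1 : (Pi.single j 1 : Vec n) = ∑ i ∈ S, c i • w i := by
      have h2 := h0
      rw [hu₀, add_eq_zero_iff_eq_neg, ← Finset.sum_neg_distrib] at h2
      rw [h2]
      refine Finset.sum_congr rfl fun i _ => ?_
      rw [neg_smul, neg_neg]
    rw [h1]
    refine Submodule.sum_mem _ fun i hi => Submodule.smul_mem _ _ (Submodule.subset_span ?_)
    exact Finset.mem_coe.2 (Finset.mem_image_of_mem w hi)
  have hPu0 : P *ᵥ u₀ ≠ 0 := by
    intro h0
    apply hu0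
    have hPu := (Matrix.isUnit_iff_isUnit_det P).2 (isUnit_iff_ne_zero.2 hP)
    have h1 := congrArg (fun v => P⁻¹ *ᵥ v) h0
    simpa [mulVec_mulVec, Matrix.nonsing_inv_mul P (isUnit_iff_ne_zero.2 hP)] using h1
  have hcone : P *ᵥ w (Fin.last n) ∈ Cone n := by
    change q (P *ᵥ w (Fin.last n)) < 0
    rw [q, hS.2 _ hl _ hl, J_last]
    norm_num
  have hpos : 0 < q (P *ᵥ u₀) := q_pos_of_orth hcone (horth _ hl) hPu0
  have hsq : Real.sqrt (q (P *ᵥ u₀)) ≠ 0 := (Real.sqrt_pos.2 hpos).ne'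
  set r : ℂ := ((Real.sqrt (q (P *ᵥ u₀)) : ℝ) : ℂ)⁻¹ with hr
  have hra : IsAlgebraic ℚ r := (alg_sqrt hpos.le (alg_q hF hu₀a)).inv
  refine ⟨r • u₀, fun l => ?_, fun i hi => ?_, ?_⟩
  · rw [Pi.smul_apply, smul_eq_mul]
    exact hra.mul (hu₀a l)
  · rw [mulVec_smul, herm_smul_right, horth i hi, mul_zero]
  · rw [mulVec_smul, herm_self, q_smul, hr, norm_inv, Complex.norm_real, Real.norm_eq_abs,
      abs_of_pos (Real.sqrt_pos.2 hpos), inv_pow, Real.sq_sqrt hpos.le, inv_mul_cancel₀ hpos.ne']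
    norm_num

theorem gs_all (hP : P.det ≠ 0) (hF : AlgM (Pᴴ * J n * P)) {S₀ : Finset (Fin (n + 1))}
    {w₀ : Fin (n + 1) → Vec n} (h₀ : GsGood P S₀ w₀) (hl : Fin.last n ∈ S₀)
    (T : Finset (Fin (n + 1))) : ∃ w : Fin (n + 1) → Vec n, GsGood P (S₀ ∪ T) w ∧
      ∀ i ∈ S₀, w i = w₀ i := by
  classical
  induction T using Finset.induction_on with
  | empty => exact ⟨w₀, by rwa [Finset.union_empty], fun i _ => rfl⟩
  | insert a T haT ih =>
    obtain ⟨w, hw, hw₀⟩ := ih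
    by_cases ha : a ∈ S₀ ∪ T
    · refine ⟨w, ?_, hw₀⟩
      rwa [Finset.union_insert, Finset.insert_eq_of_mem ha]
    obtain ⟨u, hu1, hu2, hu3⟩ := gs_step hP hF hw (Finset.mem_union_left _ hl) ha
    have hane : ∀ i ∈ S₀ ∪ T, i ≠ a := fun i hi h => ha (h ▸ hi)
    refine ⟨Function.update w a u, ⟨?_, ?_⟩, ?_⟩
    · intro i hi l
      rw [Finset.union_insert, Finset.mem_insert] at hi
      rcases hi with rfl | hi
      · rw [Function.update_self]; exact hu1 l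
      · rw [Function.update_of_ne (hane i hi)]; exact hw.1 i hi l
    · intro i hi j hj
      rw [Finset.union_insert, Finset.mem_insert] at hi hj
      rcases hi with rfl | hi
      · rcases hj with rfl | hj
        · rw [Function.update_self, hu3, J_of_ne]
          rintro rfl
          exact ha (Finset.mem_union_left _ hl)
        · rw [Function.update_self, Function.update_of_ne (hane j hj), herm_comm, hu2 j hj,
            star_zero, J_off (hane j hj).symm]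
      · rcases hj with rfl | hj
        · rw [Function.update_self, Function.update_of_ne (hane i hi), hu2 i hi,
            J_off (hane i hi)]
        · rw [Function.update_of_ne (hane i hi), Function.update_of_ne (hane j hj)]
          exact hw.2 i hi j hj
    · intro i hi
      rw [Function.update_of_ne (hane i (Finset.mem_union_left _ hi))]
      exact hw₀ i hi

/-- Gram - Schmidt over the algebraic numbers, for the form `Pᴴ J P`, starting with two given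
orthogonal vectors. -/
theorem gram {n : ℕ} {P : Matrix (Fin (n + 1)) (Fin (n + 1)) ℂ} (hP : P.det ≠ 0)
    (hF : AlgM (Pᴴ * J n * P)) {z₀ z₁ : Fin (n + 1) → ℂ} (h₀ : ∀ i, IsAlgebraic ℚ (z₀ i))
    (h₁ : ∀ i, IsAlgebraic ℚ (z₁ i)) (hq₀ : q (P *ᵥ z₀) < 0) (hq₁ : 0 < q (P *ᵥ z₁))
    (ho : herm (P *ᵥ z₀) (P *ᵥ z₁) = 0) (i₀ : Fin n) :
    ∃ R : Matrix (Fin (n + 1)) (Fin (n + 1)) ℂ, AlgM R ∧ R.det ≠ 0 ∧
      (P * R)ᴴ * J n * (P * R) = J n ∧
      (∃ c : ℂ, c ≠ 0 ∧ (P * R) *ᵥ Pi.single (Fin.last n) 1 = c • (P *ᵥ z₀)) ∧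
      ∃ c : ℂ, c ≠ 0 ∧ (P * R) *ᵥ Pi.single i₀.castSucc 1 = c • (P *ᵥ z₁) := by
  classical
  have hn0 : (0 : ℝ) < -q (P *ᵥ z₀) := by linarith
  set r₀ : ℂ := ((Real.sqrt (-q (P *ᵥ z₀)) : ℝ) : ℂ)⁻¹ with hr₀
  set r₁ : ℂ := ((Real.sqrt (q (P *ᵥ z₁)) : ℝ) : ℂ)⁻¹ with hr₁
  have hr₀a : IsAlgebraic ℚ r₀ := by
    refine (alg_sqrt hn0.le ?_).inv
    rw [Complex.ofReal_neg]
    exact (alg_q hF h₀).neg
  have hr₁a : IsAlgebraic ℚ r₁ := (alg_sqrt hq₁.le (alg_q hF h₁)).inv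
  have hr₀0 : r₀ ≠ 0 := inv_ne_zero (Complex.ofReal_ne_zero.2 (Real.sqrt_pos.2 hn0).ne')
  have hr₁0 : r₁ ≠ 0 := inv_ne_zero (Complex.ofReal_ne_zero.2 (Real.sqrt_pos.2 hq₁).ne')
  have hil : i₀.castSucc ≠ Fin.last n := (Fin.castSucc_lt_last i₀).ne
  have hn₀ : herm (P *ᵥ (r₀ • z₀)) (P *ᵥ (r₀ • z₀)) = -1 := by
    rw [mulVec_smul, herm_self, q_smul, hr₀, norm_inv, Complex.norm_real, Real.norm_eq_abs,
      abs_of_pos (Real.sqrt_pos.2 hn0), inv_pow, Real.sq_sqrt hn0.le]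
    have : (-q (P *ᵥ z₀))⁻¹ * q (P *ᵥ z₀) = -1 := by
      rw [inv_neg, neg_mul, inv_mul_cancel₀ hq₀.ne]
    rw [this]
    norm_num
  have hn₁ : herm (P *ᵥ (r₁ • z₁)) (P *ᵥ (r₁ • z₁)) = 1 := by
    rw [mulVec_smul, herm_self, q_smul, hr₁, norm_inv, Complex.norm_real, Real.norm_eq_abs,
      abs_of_pos (Real.sqrt_pos.2 hq₁), inv_pow, Real.sq_sqrt hq₁.le, inv_mul_cancel₀ hq₁.ne']
    norm_num
  have hn₂ : herm (P *ᵥ (r₀ • z₀)) (P *ᵥ (r₁ • z₁)) = 0 := by
    rw [mulVec_smul, mulVec_smul, herm_smul_left, herm_smul_right, ho, mul_zero, mul_zero]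
  set w₀ : Fin (n + 1) → Vec n := fun i => if i = Fin.last n then r₀ • z₀ else r₁ • z₁ with hw₀
  have hwl : w₀ (Fin.last n) = r₀ • z₀ := by rw [hw₀]; exact if_pos rfl
  have hwi : w₀ i₀.castSucc = r₁ • z₁ := by rw [hw₀]; exact if_neg hil
  have hgood : GsGood P {Fin.last n, i₀.castSucc} w₀ := by
    refine ⟨?_, ?_⟩
    · intro i hi l
      rw [Finset.mem_insert, Finset.mem_singleton] at hi
      rcases hi with rfl | rfl
      · rw [hwl, Pi.smul_apply, smul_eq_mul]; exact hr₀a.mul (h₀ l)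
      · rw [hwi, Pi.smul_apply, smul_eq_mul]; exact hr₁a.mul (h₁ l)
    · intro i hi j hj
      rw [Finset.mem_insert, Finset.mem_singleton] at hi hj
      rcases hi with rfl | rfl <;> rcases hj with rfl | rfl
      · rw [hwl, hn₀, J_last]
      · rw [hwl, hwi, hn₂, J_off hil.symm]
      · rw [hwl, hwi, herm_comm, hn₂, star_zero, J_off hil]
      · rw [hwi, hn₁, J_of_ne hil]
  obtain ⟨w, hw, hw0⟩ := gs_all hP hF hgood (Finset.mem_insert_self _ _) Finset.univ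
  rw [Finset.union_eq_right.2 (Finset.subset_univ _)] at hw
  have hcol : ∀ j, (Matrix.of fun i j => w j i) *ᵥ (Pi.single j 1 : Vec n) = w j := by
    intro j
    funext i
    rw [mulVec_single_one]
    rfl
  have hform : (P * Matrix.of fun i j => w j i)ᴴ * J n * (P * Matrix.of fun i j => w j i) =
      J n := by
    ext i j
    have h1 : ((P * Matrix.of fun i j => w j i)ᴴ * J n * (P * Matrix.of fun i j => w j i)) i j =
        herm ((P * Matrix.of fun i j => w j i) *ᵥ (Pi.single i 1 : Vec n))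
          ((P * Matrix.of fun i j => w j i) *ᵥ (Pi.single j 1 : Vec n)) := by
      rw [herm_mulVec, mulVec_single_one, Pi.star_single, star_one, single_one_dotProduct]
      rfl
    rw [h1, ← mulVec_mulVec, ← mulVec_mulVec, hcol, hcol]
    exact hw.2 i (Finset.mem_univ i) j (Finset.mem_univ j)
  refine ⟨Matrix.of fun i j => w j i, fun i j => hw.1 j (Finset.mem_univ j) i, ?_, hform, ?_, ?_⟩
  · intro h0
    have h1 := congrArg Matrix.det hform
    rw [det_mul, det_mul P, h0, mul_zero, mul_zero] at h1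
    exact det_J_ne n h1.symm
  · refine ⟨r₀, hr₀0, ?_⟩
    rw [← mulVec_mulVec, hcol, hw0 _ (Finset.mem_insert_self _ _), hwl, mulVec_smul]
  · refine ⟨r₁, hr₁0, ?_⟩
    rw [← mulVec_mulVec, hcol,
      hw0 _ (Finset.mem_insert_of_mem (Finset.mem_singleton_self _)), hwi, mulVec_smul]

end Pool.Agent.Lib.MP_5d4057_al.DR
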