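import Pool.Agent.Lib.MP_5d4057_al.DR.QfB
import Pool.Agent.Lib.MP_5d4057_al.DR.QfGs
import Pool.Agent.Lib.MP_5d4057_al.HM.AppStd
import Pool.Agent.Lib.MP_5d4057_al.HM.Grp

/-!
# DER: algebraic frames, part C

A lattice (any group which spans all matrices) of `SU(n,1)` with algebraic traces is conjugate in `SU(n,1)` to a group of
matrices with algebraic entries, such that the plane of two isotropic eigenlines of one of its elements becomes a
coordinate plane.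
-/

set_option autoImplicit false

namespace Pool.Agent.Lib.MP_5d4057_al.DR

open Matrix Pool.Agent.Lib.MP_5d4057_al Pool.Agent.Lib.MP_5d4057_al.Hyb
  Pool.Agent.Lib.MP_5d4057_al.HM

variable {n : ℕ}

/-- The value of the form on vectors with algebraic coordinates. -/
private theorem qc_herm {P : Matrix (Fin (n + 1)) (Fin (n + 1)) ℂ} (z w : Fin (n + 1) → ℂ) :
    herm (P *ᵥ z) (P *ᵥ w) = star z ⬝ᵥ ((Pᴴ * J n * P) *ᵥ w) := by
  rw [herm, star_mulVec, ← dotProduct_mulVec, mulVec_mulVec, mulVec_mulVec, Matrix.mul_assoc]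

private theorem qc_J_det : (J n).det ≠ 0 := by
  intro h
  have h1 := congrArg det (J_J (n := n))
  rw [det_mul, h, mul_zero, det_one] at h1
  exact zero_ne_one h1

private theorem qc_span {c c₀ c₁ d e : ℂ} (hc : c ≠ 0) (hc₀ : c₀ ≠ 0) (hc₁ : c₁ ≠ 0) (hd : d ≠ 0)
    (he : e ≠ 0) (p₀ p₁ : Vec n) {e' : ℂ} (he' : e' = -e) :
    Submodule.span ℂ {c • c₀ • (d • p₀ + e' • p₁), c • c₁ • (d • p₀ + e • p₁)} =
      Submodule.span ℂ {p₀, p₁} := by
  subst he'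
  obtain ⟨v, hv⟩ : ∃ v, v = c • c₀ • (d • p₀ + (-e) • p₁) := ⟨_, rfl⟩
  obtain ⟨w, hw⟩ : ∃ w, w = c • c₁ • (d • p₀ + e • p₁) := ⟨_, rfl⟩
  rw [← hv, ← hw]
  have hp₀ : p₀ = (2 * d * (c * c₀))⁻¹ • v + (2 * d * (c * c₁))⁻¹ • w := by
    rw [hv, hw]
    simp only [smul_add, smul_smul]
    have e1 : (2 * d * (c * c₀))⁻¹ * (c * (c₀ * d)) = 2⁻¹ := by field_simp
    have e2 : (2 * d * (c * c₁))⁻¹ * (c * (c₁ * d)) = 2⁻¹ := by field_simp
    have e3 : (2 * d * (c * c₀))⁻¹ * (c * (c₀ * (-e))) = -((2 * d)⁻¹ * e) := by field_simp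
    have e4 : (2 * d * (c * c₁))⁻¹ * (c * (c₁ * e)) = (2 * d)⁻¹ * e := by field_simp
    rw [e1, e2, e3, e4, neg_smul]
    have e5 : (2 : ℂ)⁻¹ + 2⁻¹ = 1 := by norm_num
    calc p₀ = ((2 : ℂ)⁻¹ + 2⁻¹) • p₀ := by rw [e5, one_smul]
      _ = _ := by rw [add_smul]; abel
  have hp₁ : p₁ = (-(2 * e * (c * c₀))⁻¹) • v + (2 * e * (c * c₁))⁻¹ • w := by
    rw [hv, hw]
    simp only [smul_add, smul_smul]
    have e1 : -(2 * e * (c * c₀))⁻¹ * (c * (c₀ * (-e))) = 2⁻¹ := by field_simp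
    have e2 : (2 * e * (c * c₁))⁻¹ * (c * (c₁ * e)) = 2⁻¹ := by field_simp
    have e3 : -(2 * e * (c * c₀))⁻¹ * (c * (c₀ * d)) = -((2 * e)⁻¹ * d) := by field_simp
    have e4 : (2 * e * (c * c₁))⁻¹ * (c * (c₁ * d)) = (2 * e)⁻¹ * d := by field_simp
    rw [e1, e2, e3, e4, neg_smul]
    have e5 : (2 : ℂ)⁻¹ + 2⁻¹ = 1 := by norm_num
    calc p₁ = ((2 : ℂ)⁻¹ + 2⁻¹) • p₁ := by rw [e5, one_smul]
      _ = _ := by rw [add_smul]; abel
  have hv' : v ∈ Submodule.span ℂ {v, w} := Submodule.subset_span (Set.mem_insert _ _)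
  have hw' : w ∈ Submodule.span ℂ {v, w} :=
    Submodule.subset_span (Set.mem_insert_of_mem _ rfl)
  have h0 : p₀ ∈ Submodule.span ℂ {p₀, p₁} := Submodule.subset_span (Set.mem_insert _ _)
  have h1 : p₁ ∈ Submodule.span ℂ {p₀, p₁} :=
    Submodule.subset_span (Set.mem_insert_of_mem _ rfl)
  refine le_antisymm (Submodule.span_le.2 ?_) (Submodule.span_le.2 ?_)
  · rintro x (rfl | rfl)
    · rw [hv]
      exact Submodule.smul_mem _ _ (Submodule.smul_mem _ _ (Submodule.add_mem _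
        (Submodule.smul_mem _ _ h0) (Submodule.smul_mem _ _ h1)))
    · rw [hw]
      exact Submodule.smul_mem _ _ (Submodule.smul_mem _ _ (Submodule.add_mem _
        (Submodule.smul_mem _ _ h0) (Submodule.smul_mem _ _ h1)))
  · rintro x (rfl | rfl)
    · have h2 := Submodule.add_mem _ (Submodule.smul_mem _ (2 * d * (c * c₀))⁻¹ hv')
        (Submodule.smul_mem _ (2 * d * (c * c₁))⁻¹ hw')
      rw [← hp₀] at h2
      exact h2
    · have h2 := Submodule.add_mem _ (Submodule.smul_mem _ (-(2 * e * (c * c₀))⁻¹) hv')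
        (Submodule.smul_mem _ (2 * e * (c * c₁))⁻¹ hw')
      rw [← hp₁] at h2
      exact h2

/-- The frame. -/
theorem exists_frame {G : Subgroup (SUGroup n)}
    (hs : Submodule.span ℂ (SUGroup.toMatrix '' (G : Set (SUGroup n))) = ⊤)
    (htr : ∀ g ∈ G, IsAlgebraic ℚ g.toMatrix.trace) {g₀ : SUGroup n} (hg₀ : g₀ ∈ G)
    {p₀ p₁ : Vec n} {a b : ℂ} (ha : act g₀ p₀ = a • p₀) (hb : act g₀ p₁ = b • p₁)
    (h₀₀ : herm p₀ p₀ = 0) (h₁₁ : herm p₁ p₁ = 0) (h₀₁ : herm p₀ p₁ ≠ 0)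
    (hea : ∀ w, act g₀ w = a • w → ∃ c : ℂ, w = c • p₀)
    (heb : ∀ w, act g₀ w = b • w → ∃ c : ℂ, w = c • p₁) (i₀ : Fin n) :
    ∃ x : SUGroup n, (∀ g ∈ G, AlgM (x⁻¹ * g * x).toMatrix) ∧
      Submodule.span ℂ {act x (base n), act x (Pi.single i₀.castSucc 1)} =
        Submodule.span ℂ {p₀, p₁} := by
  classical
  have hp₀ : p₀ ≠ 0 := by
    rintro rfl
    exact h₀₁ (by rw [herm, star_zero, zero_dotProduct])
  have hp₁ : p₁ ≠ 0 := by
    rintro rfl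
    exact h₀₁ (by rw [herm, mulVec_zero, dotProduct_zero])
  let σ : G →* Matrix (Fin (n + 1)) (Fin (n + 1)) ℂ :=
    { toFun := fun g => (g : SUGroup n).toMatrix
      map_one' := rfl
      map_mul' := fun _ _ => rfl }
  have hσs : Submodule.span ℂ (Set.range σ) = ⊤ := by
    rw [← hs]
    congr 1
    ext M
    constructor
    · rintro ⟨g, rfl⟩
      exact ⟨g, g.2, rfl⟩
    · rintro ⟨g, hg, rfl⟩
      exact ⟨⟨g, hg⟩, rfl⟩
  obtain ⟨P, hP, hPg, hF⟩ := exists_conj_form σ hσs (fun g => htr g g.2) qc_J_det J_herm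
    (fun g => pres (g : SUGroup n))
  have hPu : IsUnit P.det := hP.isUnit
  -- algebraic vectors in the eigenlines
  have key : ∀ {p : Vec n} {c : ℂ}, p ≠ 0 → act g₀ p = c • p →
      (∀ w, act g₀ w = c • w → ∃ d : ℂ, w = d • p) →
      ∃ (z : Fin (n + 1) → ℂ) (d : ℂ), (∀ i, IsAlgebraic ℚ (z i)) ∧ d ≠ 0 ∧ P *ᵥ z = d • p := by
    intro p c hp hc he
    set R : Matrix (Fin (n + 1)) (Fin (n + 1)) ℂ := P⁻¹ * g₀.toMatrix * P with hR
    have hRA : AlgM R := hPg ⟨g₀, hg₀⟩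
    have hv0 : P⁻¹ *ᵥ p ≠ 0 := by
      intro h0
      refine hp ?_
      calc p = P *ᵥ (P⁻¹ *ᵥ p) := by
            rw [mulVec_mulVec, Matrix.mul_nonsing_inv P hPu, one_mulVec]
        _ = 0 := by rw [h0, mulVec_zero]
    have hv1 : R *ᵥ (P⁻¹ *ᵥ p) = c • (P⁻¹ *ᵥ p) := by
      rw [hR, mulVec_mulVec, Matrix.mul_assoc, Matrix.mul_nonsing_inv P hPu, Matrix.mul_one,
        ← mulVec_mulVec]
      have h1 : g₀.toMatrix *ᵥ p = c • p := hc
      rw [h1, mulVec_smul]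
    have hcal : IsAlgebraic ℚ c := alg_eig hRA hv0 hv1
    have hM : AlgM (R + (-c) • (1 : Matrix (Fin (n + 1)) (Fin (n + 1)) ℂ)) :=
      hRA.add (AlgM.one.smul hcal.neg)
    obtain ⟨z, hz, hz0, hz1⟩ := exists_alg_ker hM hv0 (by
      rw [add_mulVec, smul_mulVec, one_mulVec, hv1, ← add_smul, add_neg_cancel, zero_smul])
    have hz2 : R *ᵥ z = c • z := by
      rw [add_mulVec, smul_mulVec, one_mulVec, neg_smul] at hz1
      exact add_neg_eq_zero.1 hz1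
    have hz3 : act g₀ (P *ᵥ z) = c • (P *ᵥ z) := by
      have h1 : P *ᵥ (R *ᵥ z) = g₀.toMatrix *ᵥ (P *ᵥ z) := by
        rw [mulVec_mulVec, mulVec_mulVec, hR]
        congr 1
        calc P * (P⁻¹ * g₀.toMatrix * P) = (P * P⁻¹) * (g₀.toMatrix * P) := by
              simp only [Matrix.mul_assoc]
          _ = _ := by rw [Matrix.mul_nonsing_inv P hPu, Matrix.one_mul]
      rw [act, ← h1, hz2, mulVec_smul]
    obtain ⟨d, hd⟩ := he _ hz3
    refine ⟨z, d, hz, ?_, hd⟩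
    rintro rfl
    rw [zero_smul] at hd
    refine hz0 ?_
    calc z = P⁻¹ *ᵥ (P *ᵥ z) := by
          rw [mulVec_mulVec, Matrix.nonsing_inv_mul P hPu, one_mulVec]
      _ = 0 := by rw [hd, mulVec_zero]
  obtain ⟨z₀, d₀, hz₀, hd₀, hz₀p⟩ := key hp₀ ha hea
  obtain ⟨z₁, d₁, hz₁, hd₁, hz₁p⟩ := key hp₁ hb heb
  -- the two orthogonal vectors
  set h : ℂ := herm (P *ᵥ z₀) (P *ᵥ z₁) with hh
  have hh0 : h ≠ 0 := by
    rw [hh, hz₀p, hz₁p, herm_smul_left, herm_smul_right]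
    exact mul_ne_zero (star_ne_zero.2 hd₀) (mul_ne_zero hd₁ h₀₁)
  have hhal : IsAlgebraic ℚ h := by
    rw [hh, qc_herm, dotProduct]
    exact alg_sum _ fun i _ => (alg_star (hz₀ i)).mul (hF.mulVec hz₁ i)
  have hz00 : herm (P *ᵥ z₀) (P *ᵥ z₀) = 0 := by
    rw [hz₀p, herm_smul_left, herm_smul_right, h₀₀, mul_zero, mul_zero]
  have hz11 : herm (P *ᵥ z₁) (P *ᵥ z₁) = 0 := by
    rw [hz₁p, herm_smul_left, herm_smul_right, h₁₁, mul_zero, mul_zero]
  have hz10 : herm (P *ᵥ z₁) (P *ᵥ z₀) = star h := by rw [herm_comm, ← hh]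
  have hform : ∀ s t : ℂ, herm (P *ᵥ (z₀ + s • z₁)) (P *ᵥ (z₀ + t • z₁)) =
      t * h + star s * star h := by
    intro s t
    rw [mulVec_add, mulVec_add, mulVec_smul, mulVec_smul, herm_add_left, herm_add_right,
      herm_add_right, herm_smul_left, herm_smul_left, herm_smul_right, herm_smul_right, hz00, hz11,
      hz10, ← hh]
    ring
  have hsh : star h ≠ 0 := star_ne_zero.2 hh0
  have hstar : star (h⁻¹) = (star h)⁻¹ := star_inv₀ h
  have hq : ∀ v : Vec n, (q v : ℂ) = herm v v := fun v => (herm_self v).symm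
  obtain ⟨R, hRA, hRd, hRJ, ⟨c₀, hc₀, hR₀⟩, c₁, hc₁, hR₁⟩ := gram hP hF (z₀ := z₀ + (-h⁻¹) • z₁)
    (z₁ := z₀ + h⁻¹ • z₁) (fun i => (hz₀ i).add (hhal.inv.neg.mul (hz₁ i)))
    (fun i => (hz₀ i).add (hhal.inv.mul (hz₁ i))) (by
      rw [q, hform, star_neg, hstar, neg_mul, neg_mul, inv_mul_cancel₀ hh0, inv_mul_cancel₀ hsh]
      norm_num) (by
      rw [q, hform, hstar, inv_mul_cancel₀ hh0, inv_mul_cancel₀ hsh]
      norm_num) (by
      rw [hform, star_neg, hstar, neg_mul, inv_mul_cancel₀ hh0, inv_mul_cancel₀ hsh, add_neg_cancel])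
    i₀
  -- determinant one
  set A : Matrix (Fin (n + 1)) (Fin (n + 1)) ℂ := P * R with hA
  have hdet : star A.det * A.det = 1 := by
    have h1 := congrArg Matrix.det hRJ
    rw [det_mul, det_mul, det_conjTranspose] at h1
    have h2 : (J n).det * (star A.det * A.det) = (J n).det * 1 := by
      rw [mul_one]
      linear_combination h1
    exact mul_left_cancel₀ qc_J_det h2
  have hAd : A.det ≠ 0 := by
    intro h0
    rw [h0, mul_zero] at hdet
    exact zero_ne_one hdet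
  have hnd : ‖A.det‖ = 1 := by
    have h1 := congrArg norm hdet
    rw [norm_mul, norm_star, norm_one] at h1
    nlinarith [norm_nonneg A.det]
  obtain ⟨c, hc⟩ := IsAlgClosed.exists_pow_nat_eq (A.det)⁻¹ (Nat.succ_pos n)
  have hcn : ‖c‖ = 1 := by
    have h1 := congrArg norm hc
    rw [norm_pow, norm_inv, hnd, inv_one] at h1
    exact (pow_eq_one_iff_of_nonneg (norm_nonneg c) (Nat.succ_ne_zero n)).1 h1
  have hcc : star c * c = 1 := by
    have h1 : star c * c = ((‖c‖ ^ 2 : ℝ) : ℂ) := by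
      rw [mul_comm]
      have h2 := Complex.mul_conj' c
      rw [Complex.ofReal_pow]
      exact h2
    rw [h1, hcn]
    norm_num
  have hc0 : c ≠ 0 := by
    rintro rfl
    rw [norm_zero] at hcn
    exact zero_ne_one hcn
  have h1 : (c • A).det = 1 := by
    rw [det_smul, Fintype.card_fin, hc, inv_mul_cancel₀ hAd]
  have h2 : (c • A)ᴴ * J n * (c • A) = J n := by
    rw [conjTranspose_smul, Matrix.smul_mul, Matrix.mul_smul, Matrix.smul_mul, smul_smul, hRJ,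
      mul_comm, hcc, one_smul]
  refine ⟨ofMatrix (c • A) h1 h2, fun g hg => ?_, ?_⟩
  · -- the entries
    set x : SUGroup n := ofMatrix (c • A) h1 h2 with hx
    have hxm : x.toMatrix = c • A := toMatrix_ofMatrix _ _ _
    have hxi : (x⁻¹).toMatrix = c⁻¹ • A⁻¹ := by
      have h3 : x.toMatrix * (x⁻¹).toMatrix = 1 := toMatrix_mul_inv x
      have h4 : (c⁻¹ • A⁻¹) * x.toMatrix = 1 := by
        rw [hxm, Matrix.smul_mul, Matrix.mul_smul, smul_smul, inv_mul_cancel₀ hc0, one_smul,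
          Matrix.nonsing_inv_mul A hAd.isUnit]
      calc (x⁻¹).toMatrix = ((c⁻¹ • A⁻¹) * x.toMatrix) * (x⁻¹).toMatrix := by
            rw [h4, Matrix.one_mul]
        _ = _ := by rw [Matrix.mul_assoc, h3, Matrix.mul_one]
    have h3 : (x⁻¹ * g * x).toMatrix = R⁻¹ * (P⁻¹ * g.toMatrix * P) * R := by
      have h4 : (x⁻¹ * g * x).toMatrix = (x⁻¹).toMatrix * g.toMatrix * x.toMatrix := rfl
      rw [h4, hxi, hxm, Matrix.smul_mul, Matrix.mul_smul, Matrix.smul_mul, smul_smul,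
        mul_inv_cancel₀ hc0, one_smul, hA, Matrix.mul_inv_rev]
      simp only [Matrix.mul_assoc]
    rw [h3]
    exact (hRA.inv.mul (hPg ⟨g, hg⟩)).mul hRA
  · -- the plane
    have hact : ∀ v : Vec n, act (ofMatrix (c • A) h1 h2) v = c • (A *ᵥ v) := by
      intro v
      rw [act, toMatrix_ofMatrix, smul_mulVec]
    rw [hact, hact, base, hR₀, hR₁]
    have e₀ : P *ᵥ (z₀ + (-h⁻¹) • z₁) = d₀ • p₀ + (-h⁻¹ * d₁) • p₁ := by
      rw [mulVec_add, mulVec_smul, hz₀p, hz₁p, smul_smul]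
    have e₁ : P *ᵥ (z₀ + h⁻¹ • z₁) = d₀ • p₀ + (h⁻¹ * d₁) • p₁ := by
      rw [mulVec_add, mulVec_smul, hz₀p, hz₁p, smul_smul]
    rw [e₀, e₁]
    have hi : h⁻¹ ≠ 0 := inv_ne_zero hh0
    exact qc_span hc0 hc₀ hc₁ hd₀ (mul_ne_zero hi hd₁) _ _ (by rw [neg_mul])

end Pool.Agent.Lib.MP_5d4057_al.DR
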