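import Pool.Agent.Lib.MP_5d4057_al.DR.Der
import Pool.Agent.Lib.MP_5d4057_al.Hyb.Top

/-!
# DER, QF (a): the traces are algebraic

If every cocycle of `G` with values in the matrices of trace zero is a coboundary, then `D (tr x) = 0` for `x` in `G`
and every derivation `D` of `ℂ`, so the traces are algebraic numbers.
-/

set_option autoImplicit false

namespace Pool.Agent.Lib.MP_5d4057_al.DR

open Matrix Pool.Agent.Lib.MP_5d4057_al Pool.Agent.Lib.MP_5d4057_al.Hyb

section Jac

variable {ι R : Type} [Fintype ι] [DecidableEq ι] [CommRing R]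

omit [DecidableEq ι] in
/-- The product rule for matrices. -/
theorem map_der_mul (D : Derivation ℤ R R) (A B : Matrix ι ι R) :
    (A * B).map D = A.map D * B + A * B.map D := by
  ext i j
  simp only [map_apply, mul_apply, Matrix.add_apply, map_sum, Derivation.leibniz, smul_eq_mul]
  rw [← Finset.sum_add_distrib]
  exact Finset.sum_congr rfl fun k _ => by ring

omit [Fintype ι] in
/-- A derivation kills the identity matrix. -/
theorem map_der_one (D : Derivation ℤ R R) : (1 : Matrix ι ι R).map D = 0 := by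
  ext i j
  rw [map_apply, one_apply]
  split_ifs <;> simp

/-- The product rule for a finite product. -/
private theorem der_prod (D : Derivation ℤ R R) {κ : Type} [DecidableEq κ] (s : Finset κ) (f : κ → R) :
    D (∏ i ∈ s, f i) = ∑ j ∈ s, (∏ i ∈ s.erase j, f i) * D (f j) := by
  induction s using Finset.induction_on with
  | empty => simp
  | insert a s ha ih =>
    rw [Finset.prod_insert ha, Derivation.leibniz, smul_eq_mul, smul_eq_mul, ih,
      Finset.sum_insert ha, Finset.erase_insert ha, Finset.mul_sum, add_comm]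
    congr 1
    refine Finset.sum_congr rfl fun j hj => ?_
    have hja : a ≠ j := fun h => ha (h ▸ hj)
    rw [Finset.erase_insert_of_ne hja, Finset.prod_insert (by
      rw [Finset.mem_erase]; exact fun h => ha h.2)]
    ring

/-- Jacobi's formula for a derivation. -/
private theorem der_det (D : Derivation ℤ R R) (M : Matrix ι ι R) :
    D M.det = (M.adjugate * M.map D).trace := by
  have h1 : ∀ j, (M.adjugate * M.map D) j j = (M.updateCol j (fun i => D (M i j))).det := by
    intro j
    have h2 : (M.adjugate * M.map D) j j = (M.adjugate *ᵥ (fun i => D (M i j))) j := rfl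
    rw [h2, ← cramer_eq_adjugate_mulVec, cramer_apply]
  have h3 : (M.adjugate * M.map D).trace = ∑ j, (M.updateCol j (fun i => D (M i j))).det :=
    Finset.sum_congr rfl fun j _ => h1 j
  rw [h3, det_apply', map_sum]
  simp only [det_apply']
  rw [Finset.sum_comm]
  refine Finset.sum_congr rfl fun σ _ => ?_
  rw [Derivation.leibniz, smul_eq_mul, smul_eq_mul, der_prod, Finset.mul_sum]
  have h4 : D (((σ.sign : ℤ) : R)) = 0 := Derivation.map_intCast D _
  rw [h4, mul_zero, add_zero]
  refine Finset.sum_congr rfl fun j _ => ?_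
  congr 1
  rw [← Finset.mul_prod_erase Finset.univ _ (Finset.mem_univ j), updateCol_self, mul_comm]
  congr 1
  refine Finset.prod_congr rfl fun i hi => ?_
  rw [updateCol_ne (Finset.ne_of_mem_erase hi)]

/-- `D(M) M⁻¹` has trace zero if `det M = 1`. -/
theorem trace_der (D : Derivation ℤ R R) {M : Matrix ι ι R} (hM : M.det = 1) :
    (M.map D * M⁻¹).trace = 0 := by
  have h1 : M⁻¹ = M.adjugate := by
    rw [inv_def, hM]
    simp
  rw [h1, trace_mul_comm, ← der_det, hM, Derivation.map_one_eq_zero]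

end Jac

variable {n : ℕ}

/-- The cocycle of a derivation. -/
theorem der_cocycle (D : Derivation ℤ ℂ ℂ) (x y : SUGroup n) :
    (x * y).toMatrix.map D * (x * y)⁻¹.toMatrix = x.toMatrix.map D * x⁻¹.toMatrix +
      x.toMatrix * (y.toMatrix.map D * y⁻¹.toMatrix) * x⁻¹.toMatrix := by
  have h1 : (x * y)⁻¹.toMatrix = y⁻¹.toMatrix * x⁻¹.toMatrix := by
    rw [_root_.mul_inv_rev, toMatrix_mul]
  have h2 : y.toMatrix * y⁻¹.toMatrix = 1 := by
    rw [← toMatrix_mul, mul_inv_cancel, toMatrix_one]
  rw [h1, toMatrix_mul, map_der_mul, Matrix.add_mul]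
  congr 1
  · calc x.toMatrix.map D * y.toMatrix * (y⁻¹.toMatrix * x⁻¹.toMatrix)
        = x.toMatrix.map D * (y.toMatrix * y⁻¹.toMatrix) * x⁻¹.toMatrix := by
          simp only [Matrix.mul_assoc]
      _ = _ := by rw [h2, Matrix.mul_one]
  · simp only [Matrix.mul_assoc]

/-- The cocycle of a derivation has trace zero. -/
theorem trace_der_su (D : Derivation ℤ ℂ ℂ) (x : SUGroup n) :
    (x.toMatrix.map D * x⁻¹.toMatrix).trace = 0 := by
  rw [toMatrix_inv]
  exact trace_der D (det_toMatrix x)

/-- A derivation of `ℂ` acts on the entries of `G` by a commutator, if the cocycles of `G` with values in the matrices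
of trace zero are coboundaries. -/
theorem der_comm {G : Subgroup (SUGroup n)}
    (h1 : ∀ κ : G → Matrix (Fin (n + 1)) (Fin (n + 1)) ℂ,
      (∀ x y, κ (x * y) = κ x + (x : SUGroup n).toMatrix * κ y * (x : SUGroup n)⁻¹.toMatrix) →
      (∀ x, (κ x).trace = 0) → ∃ B : Matrix (Fin (n + 1)) (Fin (n + 1)) ℂ,
        ∀ x : G, κ x = B - (x : SUGroup n).toMatrix * B * (x : SUGroup n)⁻¹.toMatrix)
    (D : Derivation ℤ ℂ ℂ) :
    ∃ B : Matrix (Fin (n + 1)) (Fin (n + 1)) ℂ, ∀ x ∈ G,
      x.toMatrix.map D = B * x.toMatrix - x.toMatrix * B := by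
  obtain ⟨B, hB⟩ := h1 (fun x => (x : SUGroup n).toMatrix.map D * (x : SUGroup n)⁻¹.toMatrix)
    (fun x y => by
      rw [Subgroup.coe_mul]
      exact der_cocycle D _ _) (fun x => by
      exact trace_der_su D _)
  refine ⟨B, fun x hx => ?_⟩
  have h2 : x⁻¹.toMatrix * x.toMatrix = 1 := by
    rw [← toMatrix_mul, inv_mul_cancel, toMatrix_one]
  have h3 : x.toMatrix.map D * x⁻¹.toMatrix = B - x.toMatrix * B * x⁻¹.toMatrix := hB ⟨x, hx⟩
  calc x.toMatrix.map D = x.toMatrix.map D * x⁻¹.toMatrix * x.toMatrix := by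
        rw [Matrix.mul_assoc, h2, Matrix.mul_one]
    _ = (B - x.toMatrix * B * x⁻¹.toMatrix) * x.toMatrix := by rw [h3]
    _ = B * x.toMatrix - x.toMatrix * B := by
        rw [Matrix.sub_mul, Matrix.mul_assoc (x.toMatrix * B), h2, Matrix.mul_one]

/-- **QF (a).** The traces of `G` are algebraic numbers. -/
theorem trace_alg {G : Subgroup (SUGroup n)}
    (h1 : ∀ κ : G → Matrix (Fin (n + 1)) (Fin (n + 1)) ℂ,
      (∀ x y, κ (x * y) = κ x + (x : SUGroup n).toMatrix * κ y * (x : SUGroup n)⁻¹.toMatrix) →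
      (∀ x, (κ x).trace = 0) → ∃ B : Matrix (Fin (n + 1)) (Fin (n + 1)) ℂ,
        ∀ x : G, κ x = B - (x : SUGroup n).toMatrix * B * (x : SUGroup n)⁻¹.toMatrix)
    {x : SUGroup n} (hx : x ∈ G) : IsAlgebraic ℚ x.toMatrix.trace := by
  refine alg_of_der fun D => ?_
  obtain ⟨B, hB⟩ := der_comm h1 D
  have h2 : D x.toMatrix.trace = (x.toMatrix.map D).trace := by
    simp only [trace, map_sum, diag_apply, map_apply]
  rw [h2, hB x hx, trace_sub, trace_mul_comm, sub_self]

end Pool.Agent.Lib.MP_5d4057_al.DR
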