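import Pool.Agent.Lib.MP_5d4057_al.DR.BpStd
import Pool.Agent.Lib.MP_5d4057_al.DR.BpR
import Pool.Agent.Lib.MP_5d4057_al.DR.QfC
import Pool.Agent.Lib.MP_5d4057_al.DR.QfTr
import Pool.Agent.Lib.MP_5d4057_al.DR.Hyp
import Pool.Agent.Lib.MP_5d4057_al.WR.H1
import Pool.Agent.Lib.MP_5d4057_al.RC.WideD

/-!
# DER: theorem (B') (owner: helper99)
-/

set_option autoImplicit false

namespace Pool.Agent.Lib.MP_5d4057_al.DR

open Matrix Filter Topology Pool.Agent.Lib.MP_5d4057_al Pool.Agent.Lib.MP_5d4057_al.Hyb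
  Pool.Agent.Lib.MP_5d4057_al.HM Pool.Agent.Lib.MP_5d4057_al.NU

variable {n : ℕ}

theorem h1z_of (hn : 5 ≤ n) {Γ : Subgroup (SUGroup n)} (hL : IsLattice Γ) (hf : FGG Γ) :
    H1Z Γ := by
  intro κ hκ htr
  obtain ⟨B, -, hB⟩ := WR.h1_sl hn hL hf κ (fun x y => hκ x y) htr
  exact ⟨B, fun x => hB x⟩

/-- **Theorem (B').** `G` is a lattice of `SU(n,1)`, `U = span {u, w}` a complex plane of signature `(1,1)` whose
stabilizer in `G` acts cocompactly on the disc of `U`. Then `γ ↦ det (γ | U)` has finite order. -/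
theorem det_fin (hn : 5 ≤ n) {G : Subgroup (SUGroup n)} (hG : IsLattice G) (hf : FGG G)
    {u w : Vec n} (hu : q u < 0) (hw : 0 < q w) (huw : herm u w = 0) (hc : CocU G u w) :
    FinDet G u w := by
  obtain ⟨Γ, hle, hfi, hN, hTor⟩ := exists_tor hf
  refine FinDet.of_sub hfi hN ?_
  have hL : IsLattice Γ := RC.isLattice_of_relIndex hG hle hfi
  have hfΓ : FGG Γ := hf.mono hle
  have hcΓ : CocU Γ u w := hc.sub hfi
  have hH := h1z_of hn hL hfΓ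
  have htr : ∀ g ∈ Γ, IsAlgebraic ℚ g.toMatrix.trace := fun g hg =>
    trace_alg (G := Γ) (fun κ hκ h0 => by
      obtain ⟨B, hB⟩ := hH κ (fun x y => hκ x y) h0
      exact ⟨B, fun x => hB x⟩) hg
  have hs := Hyb.span_top (m := n) (by omega) Γ hL
  obtain ⟨D, hD, hDC, hDU, hcoc⟩ := id hcΓ
  obtain ⟨g₀, hg₀, -, p₀, p₁, a, b, hC⟩ := Hyp.exists_hyp hu hw huw hD hDC
    (fun v hv hvU => hcoc v hv hvU)
  obtain ⟨x, hxA, hxs⟩ := exists_frame hs htr hg₀ hC.e₀ hC.e₁ hC.i₀ hC.i₁ hC.ne hC.u₀ hC.u₁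
    (⟨0, by omega⟩ : Fin n)
  rw [hC.span] at hxs
  refine FinDet.of_conj hu hw huw x (i₀ := ⟨0, by omega⟩) hxs ?_
  refine det_std (by omega) (GX.isLattice_cj x hL) (tor_cj x hTor)
    (h1z_of hn (GX.isLattice_cj x hL) (fgg_cj x hfΓ)) ?_ _ (hcΓ.conj x hxs)
  intro γ hγ
  have h1 := hxA _ (GX.mem_cj.1 hγ)
  have e : x⁻¹ * (x * γ * x⁻¹) * x = γ := by group
  rwa [e] at h1

/-- **Theorem (B')**, in coordinates. -/
theorem det_fin' (hn : 5 ≤ n) {G : Subgroup (SUGroup n)} (hG : IsLattice G) (hf : FGG G)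
    {u w : Vec n} (hu : u ∈ Cone n) (hw : 0 < q w) (huw : herm u w = 0)
    (hD : ∃ D : Set (Vec n), IsCompact D ∧ D ⊆ Cone n ∧
      (∀ x ∈ D, ∃ a b : ℂ, x = a • u + b • w) ∧
      ∀ x ∈ Cone n, (∃ a b : ℂ, x = a • u + b • w) → ∃ γ ∈ G,
        (∃ a b : ℂ, act γ u = a • u + b • w) ∧ (∃ a b : ℂ, act γ w = a • u + b • w) ∧
        ∃ c : ℂ, c ≠ 0 ∧ c • act γ x ∈ D) :
    ∀ γ ∈ G, ∀ a b c d : ℂ, act γ u = a • u + b • w → act γ w = c • u + d • w →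
      ∃ N : ℕ, 0 < N ∧ (a * d - b * c) ^ N = 1 := by
  have hmem : ∀ x : Vec n, x ∈ Submodule.span ℂ {u, w} ↔ ∃ a b : ℂ, x = a • u + b • w := by
    intro x
    rw [Submodule.mem_span_pair]
    constructor
    · rintro ⟨a, b, h⟩
      exact ⟨a, b, h.symm⟩
    · rintro ⟨a, b, h⟩
      exact ⟨a, b, h.symm⟩
  have hc : CocU G u w := by
    obtain ⟨D, h1, h2, h3, h4⟩ := hD
    refine ⟨D, h1, h2, fun x hx => (hmem x).2 (h3 x hx), fun v hv hvU => ?_⟩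
    obtain ⟨γ, hγ, hγu, hγw, c, hc, hcD⟩ := h4 v hv ((hmem v).1 hvU)
    refine ⟨γ, hγ, ?_, c, hc, hcD⟩
    intro x hx
    obtain ⟨a, b, rfl⟩ := (hmem x).1 hx
    rw [act_add, act_smul, act_smul]
    exact Submodule.add_mem _ (Submodule.smul_mem _ _ ((hmem _).2 hγu))
      (Submodule.smul_mem _ _ ((hmem _).2 hγw))
  obtain ⟨N, hN, h⟩ := det_fin hn hG hf hu hw huw hc
  exact fun γ hγ a b c d h1 h2 => ⟨N, hN, h γ hγ a b c d h1 h2⟩

end Pool.Agent.Lib.MP_5d4057_al.DR
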