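import Pool.Agent.Lib.MP_5d4057_al.NU.ThmL

/-!
# DER: theorem (B'), definitions (owner: helper99)
-/

set_option autoImplicit false

namespace Pool.Agent.Lib.MP_5d4057_al.DR

open Matrix Filter Topology Pool.Agent.Lib.MP_5d4057_al Pool.Agent.Lib.MP_5d4057_al.Hyb
  Pool.Agent.Lib.MP_5d4057_al.HM Pool.Agent.Lib.MP_5d4057_al.NU

variable {n : ℕ}

/-- `γ` maps the plane spanned by `u` and `w` to itself. -/
def StU (u w : Vec n) (γ : SUGroup n) : Prop :=
  ∀ x ∈ Submodule.span ℂ {u, w}, act γ x ∈ Submodule.span ℂ {u, w}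

/-- The stabilizer in `G` of the plane `U` spanned by `u` and `w` acts cocompactly on the disc of
`U`. -/
def CocU (G : Subgroup (SUGroup n)) (u w : Vec n) : Prop :=
  ∃ D : Set (Vec n), IsCompact D ∧ D ⊆ Cone n ∧ (∀ x ∈ D, x ∈ Submodule.span ℂ {u, w}) ∧
    ∀ v ∈ Cone n, v ∈ Submodule.span ℂ {u, w} →
      ∃ γ ∈ G, StU u w γ ∧ ∃ c : ℂ, c ≠ 0 ∧ c • act γ v ∈ D

/-- The determinants of the elements of `G` on the invariant plane `span {u, w}` are roots of
unity, of bounded order. -/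
def FinDet (G : Subgroup (SUGroup n)) (u w : Vec n) : Prop :=
  ∃ N : ℕ, 0 < N ∧ ∀ γ ∈ G, ∀ a b c d : ℂ, act γ u = a • u + b • w → act γ w = c • u + d • w →
    (a * d - b * c) ^ N = 1

end Pool.Agent.Lib.MP_5d4057_al.DR
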