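import Pool.Agent.Lib.MP_5d4057_al.DR.BpDefs
import Pool.Agent.Lib.MP_5d4057_al.TR.Defs

/-!
# DER: the stabilizer of the plane `span {e_n, e_i}` as a group of two by two matrices
(owner: helper99)
-/

set_option autoImplicit false

namespace Pool.Agent.Lib.MP_5d4057_al.DR.BpG

open Matrix Filter Topology Metric Pool.Agent.Lib.MP_5d4057_al Pool.Agent.Lib.MP_5d4057_al.Hyb
  Pool.Agent.Lib.MP_5d4057_al.HM Pool.Agent.Lib.MP_5d4057_al.NU

variable {n : ℕ}

/-- The second basis vector of the plane. -/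
def ev (i₀ : Fin n) : Vec n := Pi.single i₀.castSucc 1

theorem ev_def (i₀ : Fin n) : ev i₀ = Pi.single i₀.castSucc 1 := rfl

theorem ev_self (i₀ : Fin n) : ev i₀ i₀.castSucc = 1 := by simp [ev]

theorem ev_ne {i₀ : Fin n} {i : Fin (n + 1)} (h : i ≠ i₀.castSucc) : ev i₀ i = 0 := by
  simp [ev, h]

theorem ev_last (i₀ : Fin n) : ev i₀ (Fin.last n) = 0 := ev_ne (Fin.castSucc_lt_last i₀).ne'

theorem base_self : base n (Fin.last n) = 1 := by simp [base]

theorem base_ne {i : Fin (n + 1)} (h : i ≠ Fin.last n) : base n i = 0 := by simp [base, h]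

theorem base_cs (i₀ : Fin n) : base n i₀.castSucc = 0 := base_ne (Fin.castSucc_lt_last i₀).ne

theorem pl_apply (i₀ : Fin n) (a b : ℂ) (i : Fin (n + 1)) :
    (a • ev i₀ + b • base n) i =
      if i = i₀.castSucc then a else if i = Fin.last n then b else 0 := by
  rw [Pi.add_apply, Pi.smul_apply, Pi.smul_apply, smul_eq_mul, smul_eq_mul]
  split_ifs with h1 h2
  · rw [h1, ev_self, base_cs]
    ring
  · rw [h2, ev_last, base_self]
    ring
  · rw [ev_ne h1, base_ne h2]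
    ring

/-- A vector of the plane. -/
theorem mem_pl {i₀ : Fin n} {x : Vec n} : x ∈ Submodule.span ℂ {base n, ev i₀} ↔
    x = x i₀.castSucc • ev i₀ + x (Fin.last n) • base n := by
  rw [Submodule.mem_span_pair]
  constructor
  · rintro ⟨a, b, rfl⟩
    rw [show a • base n + b • ev i₀ = b • ev i₀ + a • base n from add_comm _ _, pl_apply,
      pl_apply, if_pos rfl, if_neg (Fin.castSucc_lt_last i₀).ne', if_pos rfl]
  · intro h
    exact ⟨x (Fin.last n), x i₀.castSucc, by rw [add_comm]; exact h.symm⟩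

theorem mem_pl_iff {i₀ : Fin n} {x : Vec n} : x ∈ Submodule.span ℂ {base n, ev i₀} ↔
    ∀ i, i ≠ i₀.castSucc → i ≠ Fin.last n → x i = 0 := by
  rw [mem_pl]
  constructor
  · intro h i h1 h2
    rw [h, pl_apply, if_neg h1, if_neg h2]
  · intro h
    funext i
    rw [pl_apply]
    split_ifs with h1 h2
    · rw [h1]
    · rw [h2]
    · exact h i h1 h2

theorem act_single (γ : SUGroup n) (j i : Fin (n + 1)) :
    act γ (Pi.single j 1) i = γ.toMatrix i j := by
  rw [act, Matrix.mulVec_single_one]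
  rfl

theorem act_ev (γ : SUGroup n) (i₀ : Fin n) (i : Fin (n + 1)) :
    act γ (ev i₀) i = γ.toMatrix i i₀.castSucc := act_single γ _ i

theorem act_base (γ : SUGroup n) (i : Fin (n + 1)) :
    act γ (base n) i = γ.toMatrix i (Fin.last n) := act_single γ _ i

/-- `γ` preserves the plane iff the two columns vanish outside. -/
theorem stU_iff {i₀ : Fin n} {γ : SUGroup n} : StU (base n) (ev i₀) γ ↔
    ∀ i, i ≠ i₀.castSucc → i ≠ Fin.last n →
      γ.toMatrix i i₀.castSucc = 0 ∧ γ.toMatrix i (Fin.last n) = 0 := by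
  constructor
  · intro h i h1 h2
    constructor
    · rw [← act_ev]
      exact mem_pl_iff.1 (h _ (Submodule.subset_span (by simp))) i h1 h2
    · rw [← act_base]
      exact mem_pl_iff.1 (h _ (Submodule.subset_span (by simp))) i h1 h2
  · intro h x hx
    rw [mem_pl_iff]
    intro i h1 h2
    rw [mem_pl.1 hx, act_add, act_smul, act_smul, Pi.add_apply, Pi.smul_apply, Pi.smul_apply,
      act_ev, act_base, (h i h1 h2).1, (h i h1 h2).2]
    simp

/-- The matrix of `γ` on the plane, in the basis `e_i, e_n`. -/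
def rm (i₀ : Fin n) (γ : SUGroup n) : TR.M2 :=
  γ.toMatrix.submatrix ![i₀.castSucc, Fin.last n] ![i₀.castSucc, Fin.last n]

theorem rm00 (i₀ : Fin n) (γ : SUGroup n) :
    rm i₀ γ 0 0 = γ.toMatrix i₀.castSucc i₀.castSucc := rfl
theorem rm01 (i₀ : Fin n) (γ : SUGroup n) :
    rm i₀ γ 0 1 = γ.toMatrix i₀.castSucc (Fin.last n) := rfl
theorem rm10 (i₀ : Fin n) (γ : SUGroup n) :
    rm i₀ γ 1 0 = γ.toMatrix (Fin.last n) i₀.castSucc := rfl
theorem rm11 (i₀ : Fin n) (γ : SUGroup n) :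
    rm i₀ γ 1 1 = γ.toMatrix (Fin.last n) (Fin.last n) := rfl

theorem act_ev_eq {i₀ : Fin n} {γ : SUGroup n} (h : StU (base n) (ev i₀) γ) :
    act γ (ev i₀) = rm i₀ γ 0 0 • ev i₀ + rm i₀ γ 1 0 • base n := by
  have h1 := mem_pl.1 (h _ (Submodule.subset_span (s := {base n, ev i₀}) (by simp) :
    ev i₀ ∈ Submodule.span ℂ {base n, ev i₀}))
  rw [act_ev, act_ev] at h1
  exact h1

theorem act_base_eq {i₀ : Fin n} {γ : SUGroup n} (h : StU (base n) (ev i₀) γ) :
    act γ (base n) = rm i₀ γ 0 1 • ev i₀ + rm i₀ γ 1 1 • base n := by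
  have h1 := mem_pl.1 (h _ (Submodule.subset_span (s := {base n, ev i₀}) (by simp) :
    base n ∈ Submodule.span ℂ {base n, ev i₀}))
  rw [act_base, act_base] at h1
  exact h1

theorem rm_mul {i₀ : Fin n} (γ : SUGroup n) {δ : SUGroup n} (h : StU (base n) (ev i₀) δ) :
    rm i₀ (γ * δ) = rm i₀ γ * rm i₀ δ := by
  have key : ∀ i j : Fin (n + 1), (j = i₀.castSucc ∨ j = Fin.last n) →
      (γ * δ).toMatrix i j = γ.toMatrix i i₀.castSucc * δ.toMatrix i₀.castSucc j +
        γ.toMatrix i (Fin.last n) * δ.toMatrix (Fin.last n) j := by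
    intro i j hj
    have e1 : (γ * δ).toMatrix = γ.toMatrix * δ.toMatrix := rfl
    rw [e1, Matrix.mul_apply]
    refine Finset.sum_eq_add_of_mem _ _ (Finset.mem_univ _) (Finset.mem_univ _)
      (Fin.castSucc_lt_last i₀).ne ?_
    rintro k - ⟨hk1, hk2⟩
    have h3 : δ.toMatrix k j = 0 := by
      rcases hj with rfl | rfl
      · exact (stU_iff.1 h k hk1 hk2).1
      · exact (stU_iff.1 h k hk1 hk2).2
    rw [h3, mul_zero]
  ext a b
  rw [Matrix.mul_apply, Fin.sum_univ_two]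
  fin_cases a <;> fin_cases b <;>
    simp only [rm, Matrix.submatrix_apply, Matrix.cons_val_zero, Matrix.cons_val_one, Fin.mk_one,
      Fin.zero_eta, Fin.isValue, Matrix.cons_val_fin_one] <;>
    exact key _ _ (by simp)

theorem rm_one (i₀ : Fin n) : rm i₀ (1 : SUGroup n) = 1 := by
  have e1 : (1 : SUGroup n).toMatrix = 1 := rfl
  rw [rm, e1]
  ext a b
  have h1 : (Fin.last n) ≠ i₀.castSucc := (Fin.castSucc_lt_last i₀).ne'
  fin_cases a <;> fin_cases b <;> simp [Matrix.one_apply, h1, h1.symm]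

/-- The stabilizer of the plane. -/
def stG (Γ : Subgroup (SUGroup n)) (i₀ : Fin n) : Subgroup (SUGroup n) where
  carrier := {γ | γ ∈ Γ ∧ StU (base n) (ev i₀) γ ∧ StU (base n) (ev i₀) γ⁻¹}
  one_mem' := ⟨Γ.one_mem, fun x hx => by rwa [act_one], fun x hx => by rwa [inv_one, act_one]⟩
  mul_mem' := by
    rintro γ δ ⟨h1, h2, h3⟩ ⟨h4, h5, h6⟩
    refine ⟨Γ.mul_mem h1 h4, fun x hx => ?_, fun x hx => ?_⟩
    · rw [act_mul]
      exact h2 _ (h5 _ hx)
    · rw [_root_.mul_inv_rev, act_mul]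
      exact h6 _ (h3 _ hx)
  inv_mem' := by
    rintro γ ⟨h1, h2, h3⟩
    exact ⟨Γ.inv_mem h1, h3, by rwa [inv_inv]⟩

/-- A linear automorphism which maps a plane into itself maps it onto itself. -/
theorem stU_inv {u w : Vec n} {γ : SUGroup n} (h : StU u w γ) : StU u w γ⁻¹ := by
  set U : Submodule ℂ (Vec n) := Submodule.span ℂ {u, w} with hU
  have : FiniteDimensional ℂ U := inferInstance
  obtain ⟨f, hf⟩ : ∃ f : U →ₗ[ℂ] U, ∀ x : U, (f x : Vec n) = act γ x :=
    ⟨{ toFun := fun x => ⟨act γ x, h x x.2⟩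
       map_add' := fun x y => Subtype.ext (by simp only [Submodule.coe_add]; exact act_add γ _ _)
       map_smul' := fun c x => Subtype.ext (by
         simp only [Submodule.coe_smul, RingHom.id_apply]; exact act_smul γ _ _) },
      fun x => rfl⟩
  have hinj : Function.Injective f := by
    intro x y hxy
    have h1 : act γ (x : Vec n) = act γ y := by rw [← hf, ← hf, hxy]
    have h2 := congrArg (act γ⁻¹) h1
    rw [← act_mul, ← act_mul, inv_mul_cancel, act_one, act_one] at h2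
    exact Subtype.ext h2
  have hsurj : Function.Surjective f := LinearMap.injective_iff_surjective.1 hinj
  intro x hx
  obtain ⟨y, hy⟩ := hsurj ⟨x, hx⟩
  have h1 : act γ (y : Vec n) = x := by rw [← hf, hy]
  rw [← h1, ← act_mul, inv_mul_cancel, act_one]
  exact y.2

theorem mem_stG {Γ : Subgroup (SUGroup n)} {i₀ : Fin n} {γ : SUGroup n} :
    γ ∈ stG Γ i₀ ↔ γ ∈ Γ ∧ StU (base n) (ev i₀) γ :=
  ⟨fun h => ⟨h.1, h.2.1⟩, fun h => ⟨h.1, h.2, stU_inv h.2⟩⟩

/-- The representation on the plane. -/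
def rr (Γ : Subgroup (SUGroup n)) (i₀ : Fin n) : stG Γ i₀ →* TR.M2 where
  toFun γ := rm i₀ γ
  map_one' := rm_one i₀
  map_mul' γ δ := rm_mul _ δ.2.2.1

theorem rr_apply (Γ : Subgroup (SUGroup n)) (i₀ : Fin n) (γ : stG Γ i₀) :
    rr Γ i₀ γ = rm i₀ γ := rfl

theorem herm_pl (i₀ : Fin n) (a b c d : ℂ) :
    herm (a • ev i₀ + b • base n) (c • ev i₀ + d • base n) = star a * c - star b * d := by
  have h1 : herm (ev i₀) (ev i₀) = 1 := by
    rw [herm_eq, ev_last]
    simp only [star_zero, zero_mul, sub_zero]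
    rw [Finset.sum_eq_single i₀]
    · rw [ev_self, star_one, one_mul]
    · intro j _ hj
      rw [ev_ne (i₀ := i₀) (i := j.castSucc) (by
        intro h
        exact hj (Fin.castSucc_injective n h)), mul_zero]
    · intro h
      exact absurd (Finset.mem_univ _) h
  have h2 : herm (base n) (base n) = -1 := by
    rw [herm_self, q_base]
    simp
  have h3 : herm (ev i₀) (base n) = 0 := by
    rw [herm_eq, ev_last]
    simp only [star_zero, zero_mul, sub_zero]
    refine Finset.sum_eq_zero fun j _ => ?_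
    rw [base_cs, mul_zero]
  have h4 : herm (base n) (ev i₀) = 0 := by
    rw [herm_comm, h3, star_zero]
  simp only [herm_add_left, herm_add_right, herm_smul_left, herm_smul_right, h1, h2, h3, h4]
  ring

theorem q_pl (i₀ : Fin n) (a b : ℂ) : q (a • ev i₀ + b • base n) = ‖a‖ ^ 2 - ‖b‖ ^ 2 := by
  have h1 := herm_pl i₀ a b a b
  rw [herm_self] at h1
  have h2 : ((q (a • ev i₀ + b • base n) : ℝ) : ℂ) = ((‖a‖ ^ 2 - ‖b‖ ^ 2 : ℝ) : ℂ) := by
    rw [h1]
    push_cast
    rw [← Complex.conj_mul', ← Complex.conj_mul']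
    rfl
  exact_mod_cast h2

theorem uni_rm {i₀ : Fin n} {γ : SUGroup n} (h : StU (base n) (ev i₀) γ) : TR.Uni (rm i₀ γ) := by
  have hp := act_ev_eq h
  have hq := act_base_eq h
  have hb : base n = (0 : ℂ) • ev i₀ + (1 : ℂ) • base n := by simp
  have he : ev i₀ = (1 : ℂ) • ev i₀ + (0 : ℂ) • base n := by simp
  refine ⟨?_, ?_, ?_⟩
  · rw [← q_pl i₀, ← hp, q_act]
    have h1 := q_pl i₀ 1 0
    rw [← he] at h1
    rw [h1]
    simp
  · have h1 := q_pl i₀ (rm i₀ γ 0 1) (rm i₀ γ 1 1)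
    rw [← hq, q_act, q_base] at h1
    linarith
  · have h1 := herm_pl i₀ (rm i₀ γ 0 0) (rm i₀ γ 1 0) (rm i₀ γ 0 1) (rm i₀ γ 1 1)
    rw [← hp, ← hq, herm_act] at h1
    have h2 := herm_pl i₀ 1 0 0 1
    rw [← hb, ← he] at h2
    rw [h2] at h1
    simp only [star_one, one_mul, star_zero, zero_mul, sub_zero] at h1
    exact (sub_eq_zero.1 h1.symm)

/-- The disc. -/
theorem disc_mem {i₀ : Fin n} {x : ℂ} : x • ev i₀ + base n ∈ Cone n ↔ x ∈ ball (0 : ℂ) 1 := by
  have h1 := q_pl i₀ x 1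
  rw [one_smul, norm_one] at h1
  rw [mem_ball_zero_iff]
  show q _ < 0 ↔ _
  rw [h1]
  constructor
  · intro h
    nlinarith [norm_nonneg x]
  · intro h
    nlinarith [norm_nonneg x]

theorem cpt_rr {Γ : Subgroup (SUGroup n)} {i₀ : Fin n} (hc : CocU Γ (base n) (ev i₀)) :
    TR.Cpt (rr Γ i₀) := by
  obtain ⟨D, hD, hDC, hDU, hcoc⟩ := hc
  -- the quotient of the coordinates is bounded by `ρ < 1` on `D`
  have hlast : ∀ d ∈ D, d (Fin.last n) ≠ 0 ∧ ‖d i₀.castSucc‖ < ‖d (Fin.last n)‖ := by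
    intro d hd
    have h1 : q d < 0 := hDC hd
    rw [mem_pl.1 (hDU d hd), q_pl] at h1
    have h2 : ‖d i₀.castSucc‖ < ‖d (Fin.last n)‖ := by
      nlinarith [norm_nonneg (d i₀.castSucc), norm_nonneg (d (Fin.last n))]
    exact ⟨fun h3 => by
      rw [h3, norm_zero] at h2
      exact absurd h2 (norm_nonneg _).not_gt, h2⟩
  obtain ⟨ρ, hρ1, hρ⟩ : ∃ ρ : ℝ, ρ < 1 ∧ ∀ d ∈ D, ‖d i₀.castSucc / d (Fin.last n)‖ ≤ ρ := by
    rcases D.eq_empty_or_nonempty with h0 | hne
    · exact ⟨0, one_pos, fun d hd => by rw [h0] at hd; exact hd.elim⟩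
    · have hcont : ContinuousOn (fun d : Vec n => ‖d i₀.castSucc / d (Fin.last n)‖) D := by
        refine ContinuousOn.norm (ContinuousOn.div (by fun_prop) (by fun_prop) fun d hd =>
          (hlast d hd).1)
      obtain ⟨d₀, hd₀, hmax⟩ := hD.exists_isMaxOn hne hcont
      refine ⟨‖d₀ i₀.castSucc / d₀ (Fin.last n)‖, ?_, fun d hd => hmax hd⟩
      rw [norm_div, div_lt_one (norm_pos_iff.2 (hlast d₀ hd₀).1)]
      exact (hlast d₀ hd₀).2
  refine ⟨ρ, hρ1, fun x hx => ?_⟩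
  have hv : x • ev i₀ + base n ∈ Cone n := disc_mem.2 hx
  have hvU : x • ev i₀ + base n ∈ Submodule.span ℂ {base n, ev i₀} := by
    have h1 := Submodule.add_mem _ (Submodule.smul_mem (Submodule.span ℂ {base n, ev i₀}) x
      (Submodule.subset_span (s := {base n, ev i₀}) (by simp) : ev i₀ ∈ _))
      (Submodule.subset_span (s := {base n, ev i₀}) (by simp) : base n ∈ _)
    exact h1
  obtain ⟨γ, hγ, hst, c, hc0, hcD⟩ := hcoc _ hv hvU
  obtain ⟨d, hd⟩ : ∃ d, d = c • act γ (x • ev i₀ + base n) := ⟨_, rfl⟩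
  rw [← hd] at hcD
  have hl := (hlast d hcD).1
  refine ⟨⟨γ⁻¹, mem_stG.2 ⟨Γ.inv_mem hγ, (stU_inv hst)⟩⟩, d i₀.castSucc / d (Fin.last n), hρ d hcD, ?_⟩
  rw [rr_apply]
  have h1 : act γ⁻¹ d = c • (x • ev i₀ + base n) := by
    rw [hd, act_smul, ← act_mul, inv_mul_cancel, act_one]
  rw [mem_pl.1 (hDU d hcD), act_add, act_smul, act_smul, act_ev_eq (stU_inv hst),
    act_base_eq (stU_inv hst)] at h1
  have h2 := congrFun h1 i₀.castSucc
  have h3 := congrFun h1 (Fin.last n)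
  simp only [Pi.add_apply, Pi.smul_apply, smul_eq_mul, ev_self, ev_last, base_self, base_cs,
    mul_one, mul_zero, add_zero, zero_add] at h2 h3
  have e1 : rm i₀ γ⁻¹ 0 0 * (d i₀.castSucc / d (Fin.last n)) + rm i₀ γ⁻¹ 0 1 =
      c * x / d (Fin.last n) := by
    rw [← h2]
    field_simp
  have e2 : TR.jf (rm i₀ γ⁻¹) (d i₀.castSucc / d (Fin.last n)) = c / d (Fin.last n) := by
    rw [TR.jf, ← h3]
    field_simp
  show x = TR.mo (rm i₀ γ⁻¹) _
  rw [TR.mo, e2, e1]
  field_simp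

/-- Only finitely many elements of the stabilizer are bounded. -/
theorem fin_rr' {Γ : Subgroup (SUGroup n)} (hd : DiscreteTopology Γ) (i₀ : Fin n) (R : ℝ) :
    {γ : stG Γ i₀ | ‖rr Γ i₀ γ 1 1‖ ≤ R}.Finite := by
  refine ((finite_ch hd R).preimage (f := fun γ : stG Γ i₀ => (γ : SUGroup n))
    Subtype.val_injective.injOn).subset ?_
  intro γ hγ
  exact ⟨γ.2.1, hγ⟩

theorem fin_rr {Γ : Subgroup (SUGroup n)} (hd : DiscreteTopology Γ) (i₀ : Fin n) (R : ℝ) :
    {M : TR.M2 | (∃ γ, M = rr Γ i₀ γ) ∧ ‖M 1 1‖ ≤ R}.Finite := by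
  refine ((fin_rr' hd i₀ R).image (rr Γ i₀)).subset ?_
  rintro M ⟨⟨γ, rfl⟩, h⟩
  exact ⟨γ, h, rfl⟩

end Pool.Agent.Lib.MP_5d4057_al.DR.BpG
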