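import Pool.Agent.Lib.MP_5d4057_al.TR.Dim

/-!
# DER, section 5 (g): three forms of one weight on the disc satisfy a homogeneous relation (helper4)
-/

set_option autoImplicit false

namespace Pool.Agent.Lib.MP_5d4057_al.DR.FinU

open Metric MvPolynomial Pool.Agent.Lib.MP_5d4057_al.TR

variable {G : Type} [Group G] {r : G →* M2} {k : ℕ}

theorem fo_congr {μ ν : G → ℂ} {k l : ℕ} {f h : ℂ → ℂ} (hf : Fo r μ k f) (hμ : μ = ν) (hk : k = l)
    (h1 : f = h) : Fo r ν l h := by
  subst hμ hk h1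
  exact hf

/-- The exponents. -/
noncomputable def ex (N : ℕ) (s : Fin (N + 1) × Fin (N + 1)) : Fin 3 →₀ ℕ :=
  Finsupp.equivFunOnFinite.symm ![(s.1 : ℕ), (s.2 : ℕ), 2 * N - s.1 - s.2]

theorem ex_inj (N : ℕ) : Function.Injective (ex N) := by
  intro s t h
  have h1 := DFunLike.congr_fun h 0
  have h2 := DFunLike.congr_fun h 1
  simp only [ex, Finsupp.equivFunOnFinite_symm_apply_apply] at h1 h2
  refine Prod.ext (Fin.ext ?_) (Fin.ext ?_)
  · simpa using h1
  · simpa using h2

/-- Three forms of one weight are dependent. -/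
theorem rel3 (hr : ∀ g, Uni (r g)) (hc : Cpt r) {φ : Fin 3 → ℂ → ℂ}
    (hφ : ∀ i, Fo r (fun _ => 1) k (φ i)) :
    ∃ d, ∃ P : MvPolynomial (Fin 3) ℂ, P ≠ 0 ∧ P.IsHomogeneous d ∧
      ∀ x ∈ ball (0 : ℂ) 1, eval (fun i => φ i x) P = 0 := by
  classical
  obtain ⟨C, hC⟩ := dep hr hc
  set N := C * (2 * k + 1) + 1 with hN
  have hcard : C * (2 * N * k + 1) < Fintype.card (Fin (N + 1) × Fin (N + 1)) := by
    rw [Fintype.card_prod, Fintype.card_fin]
    have h1 : 1 ≤ N := by omega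
    have h2 : C * (2 * N * k + 1) ≤ C * (2 * k + 1) * N := by
      have : 2 * N * k + 1 ≤ (2 * k + 1) * N := by nlinarith
      calc C * (2 * N * k + 1) ≤ C * ((2 * k + 1) * N) := Nat.mul_le_mul_left _ this
        _ = C * (2 * k + 1) * N := by ring
    have h3 : C * (2 * k + 1) * N < (N + 1) * (N + 1) := by
      have h4 : C * (2 * k + 1) < N := by omega
      nlinarith
    exact lt_of_le_of_lt h2 h3
  have hF : ∀ s : Fin (N + 1) × Fin (N + 1), Fo r (fun _ => 1) (2 * N * k)
      (fun x => φ 0 x ^ (s.1 : ℕ) * φ 1 x ^ (s.2 : ℕ) * φ 2 x ^ (2 * N - s.1 - s.2)) := by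
    intro s
    refine fo_congr (((hφ 0).pow (s.1 : ℕ)).mul ((hφ 1).pow (s.2 : ℕ)) |>.mul
      ((hφ 2).pow (2 * N - s.1 - s.2))) ?_ ?_ rfl
    · funext g
      simp
    · have h1 := s.1.is_lt
      have h2 := s.2.is_lt
      rw [← Nat.add_mul, ← Nat.add_mul]
      congr 1
      omega
  obtain ⟨c, hc0, hcv⟩ := hC (fun _ => 1) (fun _ => by simp) (2 * N * k) _ _ hF hcard
  refine ⟨2 * N, ∑ s, monomial (ex N s) (c s), ?_, ?_, ?_⟩
  · intro h0
    apply hc0
    funext s
    have h1 := congrArg (coeff (ex N s)) h0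
    rw [coeff_sum, Finset.sum_eq_single s] at h1
    · simpa using h1
    · intro t _ ht
      rw [coeff_monomial, if_neg]
      exact fun h => ht (ex_inj N h)
    · simp
  · refine IsHomogeneous.sum _ _ _ fun s _ => isHomogeneous_monomial _ ?_
    have h1 := s.1.is_lt
    have h2 := s.2.is_lt
    rw [Finsupp.degree_eq_sum, Fin.sum_univ_three]
    simp only [ex, Finsupp.equivFunOnFinite_symm_apply_apply, Matrix.cons_val_zero,
      Matrix.cons_val_one, Matrix.cons_val]
    omega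
  · intro x hx
    rw [map_sum, ← hcv x hx]
    refine Finset.sum_congr rfl fun s _ => ?_
    rw [eval_monomial, Finsupp.prod_fintype _ _ (fun i => pow_zero _), Fin.prod_univ_three]
    simp only [ex, Finsupp.equivFunOnFinite_symm_apply_apply, Matrix.cons_val_zero,
      Matrix.cons_val_one, Matrix.cons_val]

end Pool.Agent.Lib.MP_5d4057_al.DR.FinU
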