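import Pool.Agent.Lib.MP_5d4057_al.DR.Fps

/-!
# DER, Fin (h): from the lift `D̃` to the derivation on a disc (helper91)

`iter_tay`: the derivatives at `0` of an analytic function along a coordinate line are the Taylor
coefficients. `D_iter`: at a base point with constant coordinates the lift acts on them by `D`.
`der_disc`: the quadratic vector field on the disc `x ↦ e_(i₁) + x e_(i₀)`.
-/

set_option autoImplicit false

namespace Pool.Agent.Lib.MP_5d4057_al.DR

open MvPowerSeries Filter Topology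

/-! ### Taylor coefficients in one direction -/

theorem finh_an {N : ℕ} {Q : Fin N → ℂ} {f : (Fin N → ℂ) → ℂ} (hf : AnalyticAt ℂ f Q)
    (i : Fin N) : AnalyticAt ℂ (pd i f) Q := by
  exact ((ContinuousLinearMap.apply ℂ ℂ (Pi.single i 1 : Fin N → ℂ)).analyticAt _).comp hf.fderiv

theorem deriv_line {N : ℕ} {f : (Fin N → ℂ) → ℂ} {Q w : Fin N → ℂ} {x : ℂ}
    (hf : DifferentiableAt ℂ f (Q + x • w)) :
    HasDerivAt (fun z : ℂ => f (Q + z • w)) (fderiv ℂ f (Q + x • w) w) x := by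
  have h1 : HasDerivAt (fun z : ℂ => Q + z • w) w x := by
    simpa using ((hasDerivAt_id x).smul_const w).const_add Q
  exact hf.hasFDerivAt.comp_hasDerivAt x h1

theorem iter_tay {N : ℕ} {Q : Fin N → ℂ} (i : Fin N) (l : ℕ) :
    ∀ {f : (Fin N → ℂ) → ℂ}, AnalyticAt ℂ f Q →
      iteratedDeriv l (fun x : ℂ => f (Q + x • (Pi.single i 1 : Fin N → ℂ))) 0 =
        (l.factorial : ℂ) * coeff (Finsupp.single i l) (Tay Q f) := by
  induction l with
  | zero =>
    intro f _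
    rw [iteratedDeriv_zero, Finsupp.single_zero, coeff_zero_eq_constantCoeff_apply,
      Tay_const_coeff, zero_smul, add_zero, Nat.factorial_zero, Nat.cast_one, one_mul]
  | succ l ih =>
    intro f hf
    rw [iteratedDeriv_succ']
    have h1 : deriv (fun x : ℂ => f (Q + x • (Pi.single i 1 : Fin N → ℂ))) =ᶠ[𝓝 0]
        fun x => pd i f (Q + x • (Pi.single i 1 : Fin N → ℂ)) := by
      have h2 : ∀ᶠ y in 𝓝 Q, AnalyticAt ℂ f y := hf.eventually_analyticAt
      have h3 : Tendsto (fun x : ℂ => Q + x • (Pi.single i 1 : Fin N → ℂ)) (𝓝 0) (𝓝 Q) := by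
        have : Continuous (fun x : ℂ => Q + x • (Pi.single i 1 : Fin N → ℂ)) := by fun_prop
        have h4 := this.tendsto 0
        simpa using h4
      filter_upwards [h3.eventually h2] with x hx
      exact (deriv_line hx.differentiableAt).deriv
    rw [h1.iteratedDeriv_eq, ih (finh_an hf i), Tay_pd i hf, coeff_pderiv,
      Nat.factorial_succ]
    rw [← Finsupp.single_add]
    push_cast
    simp only [Finsupp.single_eq_same]
    ring

/-- The coefficientwise derivation at a point with constant coordinates, on a line. -/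
theorem D_iter {N : ℕ} {Q : Fin N → ℂ} {D : Derivation ℤ ℂ ℂ} (hQ : ∀ i, D (Q i) = 0)
    {f ψ : (Fin N → ℂ) → ℂ} (hf : AnalyticAt ℂ f Q) (hψ : AnalyticAt ℂ ψ Q)
    (h : Tay Q ψ = Db D Q (Tay Q f)) (i : Fin N) (l : ℕ) :
    D (iteratedDeriv l (fun x : ℂ => f (Q + x • (Pi.single i 1 : Fin N → ℂ))) 0) =
      iteratedDeriv l (fun x : ℂ => ψ (Q + x • (Pi.single i 1 : Fin N → ℂ))) 0 := by
  have h0 : Db D Q (Tay Q f) = Dc D (Tay Q f) := by
    rw [Db_apply]
    simp [hQ]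
  rw [iter_tay i l hf, iter_tay i l hψ, h, h0, coeff_Dc, Derivation.leibniz]
  have h1 : D ((l.factorial : ℂ)) = 0 := D.map_natCast _
  rw [h1]
  simp

/-- Euler's relation. -/
theorem euler_fd {N : ℕ} {CC : Set (Fin N → ℂ)} {k : ℕ} {f : (Fin N → ℂ) → ℂ}
    (hom : ∀ c : ℂ, c ≠ 0 → ∀ y ∈ CC, f (c • y) = (c ^ k)⁻¹ * f y) {y : Fin N → ℂ} (hy : y ∈ CC)
    (hf : DifferentiableAt ℂ f y) : fderiv ℂ f y y = -(k : ℂ) * f y := by
  have h1 : HasDerivAt (fun z : ℂ => f (z • y)) (fderiv ℂ f y y) 1 := by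
    have h2 : HasDerivAt (fun z : ℂ => z • y) y 1 := by
      simpa using (hasDerivAt_id (1 : ℂ)).smul_const y
    have h3 : HasFDerivAt f (fderiv ℂ f y) ((1 : ℂ) • y) := by
      rw [one_smul]
      exact hf.hasFDerivAt
    exact h3.comp_hasDerivAt (1 : ℂ) h2
  have h4 : HasDerivAt (fun z : ℂ => (z ^ k)⁻¹ * f y) (-(k : ℂ) * f y) 1 := by
    have h5 : HasDerivAt (fun z : ℂ => z ^ k) ((k : ℂ) * 1 ^ (k - 1)) 1 := hasDerivAt_pow k 1
    have h6 := (h5.inv (by simp)).mul_const (f y)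
    simpa using h6
  have h7 : (fun z : ℂ => f (z • y)) =ᶠ[𝓝 1] fun z => (z ^ k)⁻¹ * f y := by
    filter_upwards [isOpen_ne.mem_nhds (one_ne_zero : (1 : ℂ) ≠ 0)] with z hz
    exact hom z hz y hy
  exact h1.unique (h4.congr_of_eventuallyEq h7)

/-- **From the lift to a derivation on the disc.** `e₁ = Pi.single i₁ 1` is the base point, the disc
is `x ↦ e₁ + x e₀`, the plane spanned by `e₀` and `e₁` is stable under `L`. -/
theorem der_disc {N : ℕ} {CC : Set (Fin N → ℂ)} (hCC : IsOpen CC) {i₀ i₁ : Fin N} (hne : i₀ ≠ i₁)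
    (hQ : (Pi.single i₁ 1 : Fin N → ℂ) ∈ CC) {k : ℕ} {f f' : (Fin N → ℂ) → ℂ}
    (hf : AnalyticOnNhd ℂ f CC) (hf' : AnalyticOnNhd ℂ f' CC)
    (hom : ∀ c : ℂ, c ≠ 0 → ∀ y ∈ CC, f (c • y) = (c ^ k)⁻¹ * f y)
    (D : Derivation ℤ ℂ ℂ) (L : Matrix (Fin N) (Fin N) ℂ)
    (hL : ∀ i, i ≠ i₀ → i ≠ i₁ → L i i₀ = 0 ∧ L i i₁ = 0)
    (star : Tay (Pi.single i₁ 1) f' = Db D (Pi.single i₁ 1) (Tay (Pi.single i₁ 1) f) +
      ∑ i, ∑ j, C (L i j) * Tay (Pi.single i₁ 1) (fun y => y j) *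
        pderiv ℂ i (Tay (Pi.single i₁ 1) f)) (l : ℕ) :
    D (iteratedDeriv l (fun x : ℂ => f (Pi.single i₁ 1 + x • Pi.single i₀ 1)) 0) =
      iteratedDeriv l (fun x : ℂ =>
        (f' (Pi.single i₁ 1 + x • Pi.single i₀ 1) +
          (k : ℂ) / 2 * (L i₀ i₀ + L i₁ i₁) * f (Pi.single i₁ 1 + x • Pi.single i₀ 1)) +
        (-L i₀ i₁ + (L i₁ i₁ - L i₀ i₀) * x + L i₁ i₀ * x ^ 2) *
          deriv (fun x : ℂ => f (Pi.single i₁ 1 + x • Pi.single i₀ 1)) x +
        (k : ℂ) / 2 * ((L i₁ i₁ - L i₀ i₀) + 2 * L i₁ i₀ * x) *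
          f (Pi.single i₁ 1 + x • Pi.single i₀ 1)) 0 := by
  set Q : Fin N → ℂ := Pi.single i₁ 1 with hQdef
  have hD : ∀ i, D (Q i) = 0 := by
    intro i
    rw [hQdef, Pi.single_apply]
    split_ifs
    · exact D.map_one_eq_zero
    · exact map_zero D
  have ha := hf Q hQ
  have hco : ∀ j : Fin N, AnalyticAt ℂ (fun y : Fin N → ℂ => y j) Q := fun j =>
    (ContinuousLinearMap.proj (R := ℂ) (φ := fun _ : Fin N => ℂ) j).analyticAt Q
  set ψ : (Fin N → ℂ) → ℂ := fun y => f' y + ∑ i, ∑ j, (-L i j) * y j * pd i f y with hψdef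
  have hψ : AnalyticAt ℂ ψ Q := by
    refine (hf' Q hQ).add ?_
    refine Finset.analyticAt_fun_sum _ fun i _ => Finset.analyticAt_fun_sum _ fun j _ => ?_
    exact (analyticAt_const.mul (hco j)).mul (finh_an ha i)
  have hT : Tay Q ψ = Db D Q (Tay Q f) := by
    have hA : ∀ i j : Fin N, AnalyticAt ℂ (fun y : Fin N → ℂ => (-L i j) * y j * pd i f y) Q :=
      fun i j => (analyticAt_const.mul (hco j)).mul (finh_an ha i)
    have hB : ∀ i : Fin N, AnalyticAt ℂ (fun y : Fin N → ℂ => ∑ j, (-L i j) * y j * pd i f y) Q :=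
      fun i => Finset.analyticAt_fun_sum _ fun j _ => hA i j
    have hC : AnalyticAt ℂ (fun y : Fin N → ℂ => ∑ i, ∑ j, (-L i j) * y j * pd i f y) Q :=
      Finset.analyticAt_fun_sum _ fun i _ => hB i
    rw [hψdef, Tay_add (hf' Q hQ) hC, Tay_sum _ _ (fun i _ => hB i), star]
    have h1 : ∀ i : Fin N, Tay Q (fun y : Fin N → ℂ => ∑ j, (-L i j) * y j * pd i f y) =
        - ∑ j, C (L i j) * Tay Q (fun y => y j) * pderiv ℂ i (Tay Q f) := by
      intro i
      rw [Tay_sum _ _ (fun j _ => hA i j), ← Finset.sum_neg_distrib]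
      refine Finset.sum_congr rfl fun j _ => ?_
      have e1 := Tay_mul (f := fun y : Fin N → ℂ => (-L i j) * y j) (analyticAt_const.mul (hco j))
        (finh_an ha i)
      have e2 := Tay_mul (f := fun _ : Fin N → ℂ => -L i j) analyticAt_const (hco j)
      rw [e1, e2, Tay_const, Tay_pd i ha, map_neg]
      ring
    rw [Finset.sum_congr rfl fun i _ => h1 i, Finset.sum_neg_distrib]
    ring
  rw [D_iter hD ha hψ hT i₀ l]
  refine Filter.EventuallyEq.iteratedDeriv_eq l ?_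
  have h3 : Tendsto (fun x : ℂ => Q + x • (Pi.single i₀ 1 : Fin N → ℂ)) (𝓝 0) (𝓝 Q) := by
    have : Continuous (fun x : ℂ => Q + x • (Pi.single i₀ 1 : Fin N → ℂ)) := by fun_prop
    have h4 := this.tendsto 0
    simpa using h4
  filter_upwards [h3.eventually (hCC.mem_nhds hQ)] with x hx
  have hdy := (hf _ hx).differentiableAt
  have hd := (deriv_line hdy).deriv
  have hE := euler_fd hom hx hdy
  have h5 : ∀ j : Fin N, (Q + x • (Pi.single i₀ 1 : Fin N → ℂ)) j =
      (if j = i₁ then 1 else 0) + x * (if j = i₀ then 1 else 0) := by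
    intro j
    rw [Pi.add_apply, Pi.smul_apply, hQdef, Pi.single_apply, Pi.single_apply, smul_eq_mul]
  have h6 : fderiv ℂ f (Q + x • Pi.single i₀ 1) (Q + x • Pi.single i₀ 1) =
      pd i₁ f (Q + x • Pi.single i₀ 1) + x * pd i₀ f (Q + x • Pi.single i₀ 1) := by
    have := map_add (fderiv ℂ f (Q + x • Pi.single i₀ 1)) Q (x • (Pi.single i₀ 1 : Fin N → ℂ))
    rw [map_smul, smul_eq_mul] at this
    exact this
  rw [h6] at hE
  rw [hd]
  have h7 : fderiv ℂ f (Q + x • Pi.single i₀ 1) (Pi.single i₀ 1) =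
      pd i₀ f (Q + x • Pi.single i₀ 1) := rfl
  rw [h7]
  have h8 : ∑ i, ∑ j, (-L i j) * (Q + x • (Pi.single i₀ 1 : Fin N → ℂ)) j *
      pd i f (Q + x • Pi.single i₀ 1) =
      (-(L i₀ i₁ + x * L i₀ i₀)) * pd i₀ f (Q + x • Pi.single i₀ 1) +
      (-(L i₁ i₁ + x * L i₁ i₀)) * pd i₁ f (Q + x • Pi.single i₀ 1) := by
    have h9 : ∀ i, ∑ j, (-L i j) * (Q + x • (Pi.single i₀ 1 : Fin N → ℂ)) j *
        pd i f (Q + x • Pi.single i₀ 1) =
        (-(L i i₁ + x * L i i₀)) * pd i f (Q + x • Pi.single i₀ 1) := by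
      intro i
      rw [← Finset.sum_mul]
      congr 1
      have : ∀ j, (-L i j) * (Q + x • (Pi.single i₀ 1 : Fin N → ℂ)) j =
          (if j = i₁ then -L i j else 0) + (if j = i₀ then -(x * L i j) else 0) := by
        intro j
        rw [h5]
        split_ifs <;> ring
      rw [Finset.sum_congr rfl fun j _ => this j, Finset.sum_add_distrib,
        Finset.sum_ite_eq', Finset.sum_ite_eq', if_pos (Finset.mem_univ _),
        if_pos (Finset.mem_univ _)]
      ring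
    rw [Finset.sum_congr rfl fun i _ => h9 i]
    have h10 : ∀ i ∉ ({i₀, i₁} : Finset (Fin N)), (-(L i i₁ + x * L i i₀)) *
        pd i f (Q + x • Pi.single i₀ 1) = 0 := by
      intro i hi
      rw [Finset.mem_insert, Finset.mem_singleton, not_or] at hi
      rw [(hL i hi.1 hi.2).1, (hL i hi.1 hi.2).2]
      ring
    rw [← Finset.sum_subset (Finset.subset_univ ({i₀, i₁} : Finset (Fin N)))
      (fun i _ hi => h10 i hi), Finset.sum_pair hne]
  simp only [hψdef]
  rw [h8]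
  generalize pd i₀ f (Q + x • Pi.single i₀ 1) = p at *
  generalize f' (Q + x • Pi.single i₀ 1) = F' at *
  have h11 : pd i₁ f (Q + x • Pi.single i₀ 1) = -(k : ℂ) * f (Q + x • Pi.single i₀ 1) - x * p := by
    linear_combination hE
  rw [h11]
  ring

end Pool.Agent.Lib.MP_5d4057_al.DR
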