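import Pool.Agent.Lib.MP_5d4057_al.DR.FinI
import Pool.Agent.Lib.MP_5d4057_al.DR.FinH
import Pool.Agent.Lib.MP_5d4057_al.QB.FmU
import Pool.Agent.Lib.MP_5d4057_al.QB.FmD
import Pool.Agent.Lib.MP_5d4057_al.QB.Osg

/-!
# DER, Fin (h): the input of part S1 (helper91)

`AA Γ i₀ k`: the restrictions to the disc of the forms of weight `k`; `exists_inp`: they are an
input of part S1 (`TR.Inp`).
-/

set_option autoImplicit false

namespace Pool.Agent.Lib.MP_5d4057_al.DR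

open Matrix Filter Topology Metric MvPowerSeries Pool.Agent.Lib.MP_5d4057_al
  Pool.Agent.Lib.MP_5d4057_al.Hyb Pool.Agent.Lib.MP_5d4057_al.HM Pool.Agent.Lib.MP_5d4057_al.NU
  Pool.Agent.Lib.MP_5d4057_al.QB

variable {n : ℕ} {Γ : Subgroup (SUGroup n)} {i₀ : Fin n}

/-- The restrictions to the disc of the forms of weight `k`. -/
def AA (Γ : Subgroup (SUGroup n)) (i₀ : Fin n) (k : ℕ) : Submodule ℂ (ℂ → ℂ) where
  carrier := {φ | ∃ f, Fm Γ (fun _ => 1) k f ∧ φ = rst (ee i₀) (base n) f}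
  add_mem' := by
    rintro _ _ ⟨f, hf, rfl⟩ ⟨g, hg, rfl⟩
    exact ⟨_, hf.add hg, rfl⟩
  zero_mem' := ⟨_, Fm.zero, rfl⟩
  smul_mem' := by
    rintro c _ ⟨f, hf, rfl⟩
    exact ⟨_, hf.smul c, rfl⟩

theorem mem_AA {k : ℕ} {φ : ℂ → ℂ} : φ ∈ AA Γ i₀ k ↔
    ∃ f, Fm Γ (fun _ => 1) k f ∧ φ = rst (ee i₀) (base n) f := Iff.rfl

/-- The conclusion of `DR.lift` at the base point, for a matrix which maps the plane to itself. -/
def LiftU (Γ : Subgroup (SUGroup n)) (i₀ : Fin n) (D : Derivation ℤ ℂ ℂ) : Prop :=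
  ∃ (E : (Vec n → ℂ) → (Vec n → ℂ)) (L : Mat (n + 1)),
    (∀ l, 0 < l → ∀ f, Fm Γ (fun _ => 1) l f → Fm Γ (fun _ => 1) l (E f) ∧
      Tay (base n) (E f) = Dc D (Tay (base n) f) +
        ∑ i, ∑ j, C (L i j) * (C (base n j) + MvPowerSeries.X j) *
          pderiv ℂ i (Tay (base n) f)) ∧
    ∀ i, i ≠ i₀.castSucc → i ≠ Fin.last n → L i i₀.castSucc = 0 ∧ L i (Fin.last n) = 0

theorem rst_line (f : Vec n → ℂ) : rst (ee i₀) (base n) f =
    fun x : ℂ => f ((Pi.single (Fin.last n) 1 : Vec n) + x • (Pi.single i₀.castSucc 1 : Vec n)) := by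
  funext x
  rw [rst, add_comm]
  rfl

/-- The derivations of the space of restricted forms. -/
theorem der_AA {k : ℕ} (hk : 0 < k) {D : Derivation ℤ ℂ ℂ} (hl : LiftU Γ i₀ D) :
    ∃ a b c : ℂ, ∀ f ∈ AA Γ i₀ k, ∃ f' ∈ AA Γ i₀ k, ∀ l : ℕ,
      D (iteratedDeriv l f 0) = iteratedDeriv l (fun x => f' x + (a + b * x + c * x ^ 2) *
        deriv f x + k / 2 * (b + 2 * c * x) * f x) 0 := by
  obtain ⟨E, L, hE, hL⟩ := hl
  refine ⟨-L i₀.castSucc (Fin.last n), L (Fin.last n) (Fin.last n) - L i₀.castSucc i₀.castSucc,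
    L (Fin.last n) i₀.castSucc, ?_⟩
  rintro _ ⟨f, hf, rfl⟩
  obtain ⟨hEf, hT⟩ := hE k hk f hf
  refine ⟨_, ⟨_, hEf.add (hf.smul ((k : ℂ) / 2 * (L i₀.castSucc i₀.castSucc +
    L (Fin.last n) (Fin.last n)))), rfl⟩, fun l => ?_⟩
  have hD : ∀ i, D (base n i) = 0 := by
    intro i
    rw [base, Pi.single_apply]
    split_ifs
    · exact D.map_one_eq_zero
    · exact map_zero D
  have star : Tay (Pi.single (Fin.last n) 1) (E f) =
      Db D (Pi.single (Fin.last n) 1) (Tay (Pi.single (Fin.last n) 1) f) +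
      ∑ i, ∑ j, C (L i j) * Tay (Pi.single (Fin.last n) 1) (fun y => y j) *
        pderiv ℂ i (Tay (Pi.single (Fin.last n) 1) f) := by
    have h1 : Db D (Pi.single (Fin.last n) 1 : Vec n) = Dc D := Db_of_zero D hD
    rw [h1]
    have h2 : Tay (Pi.single (Fin.last n) 1 : Vec n) (E f) = _ := hT
    rw [h2]
    congr 1
    refine Finset.sum_congr rfl fun i _ => Finset.sum_congr rfl fun j _ => ?_
    rw [Tay_coord]
    rfl
  have h := der_disc (N := n + 1) (isOpen_cone n) (i₀ := i₀.castSucc) (i₁ := Fin.last n)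
    (Fin.castSucc_lt_last i₀).ne (base_mem n) (QB.analyticOnNhd (isOpen_cone n) hf.diff)
    (QB.analyticOnNhd (isOpen_cone n) hEf.diff) hf.hom D L hL star l
  rw [rst_line, rst_line, h]

/-- The forms. -/
theorem form_AA {k : ℕ} {f : ℂ → ℂ} (hf : f ∈ AA Γ i₀ k) : TR.Fo (rr Γ i₀) (fun _ => 1) k f := by
  obtain ⟨F, hF, rfl⟩ := hf
  have hsub : ball (0 : ℂ) 1 ⊆ dsc (ee i₀) (base n) := fun x hx => pt_mem.2 hx
  refine ⟨(diffOn_rst hF _ _).mono hsub, fun g x hx => ?_⟩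
  have hst : StU (base n) (ee i₀) (g : SUGroup n) := g.2.2
  have hj : TR.jf (r2 i₀ (g : SUGroup n)) x ≠ 0 := by
    intro h0
    have h1 := act_pt hst x
    rw [h0, zero_smul, add_zero] at h1
    have h2 : act (g : SUGroup n) (x • ee i₀ + base n) ∈ Cone n := act_mem _ (pt_mem.2 hx)
    have h3 : q (act (g : SUGroup n) (x • ee i₀ + base n)) < 0 := h2
    rw [h1, q_smul] at h3
    have h4 : q (ee i₀) = 1 := by
      rw [q_pl (i₀ := i₀) (Submodule.subset_span (by simp)), ee_self, ee_last, norm_one, norm_zero]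
      norm_num
    rw [h4] at h3
    nlinarith [sq_nonneg ‖r2 i₀ (g : SUGroup n) 0 0 * x + r2 i₀ (g : SUGroup n) 0 1‖]
  exact (rst_mo hF g.2.1 (act_ee hst) (act_ba hst) (hsub hx) hj).2

/-- **The input of part S1.** -/
theorem exists_inp (hd : DiscreteTopology Γ) (hT : TF Γ)
    (hl : ∀ D : Derivation ℤ ℂ ℂ, LiftU Γ i₀ D) :
    ∃ k, 0 < k ∧ TR.Inp (rr Γ i₀) k (AA Γ i₀ k) := by
  obtain ⟨k₀, hk₀⟩ := exists_wron hd hT (p := ee i₀) (base_mem n) (fun s t h => by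
    have h1 := congrFun h i₀.castSucc
    have h2 := congrFun h (Fin.last n)
    rw [Pi.add_apply, Pi.smul_apply, Pi.smul_apply, ee_self, base_cs, smul_zero, add_zero,
      smul_eq_mul, mul_one] at h1
    rw [Pi.add_apply, Pi.smul_apply, Pi.smul_apply, ee_last, base_last, smul_zero, zero_add,
      smul_eq_mul, mul_one] at h2
    exact ⟨h1, h2⟩)
  obtain ⟨f, g, hf, hg, hW⟩ := hk₀ (k₀ + 1) (by omega)
  refine ⟨k₀ + 1, by omega, fun φ hφ => form_AA hφ, fun D => der_AA (by omega) (hl D),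
    ⟨_, ⟨f, hf, rfl⟩, _, ⟨g, hg, rfl⟩, 0, by simp, hW⟩⟩

end Pool.Agent.Lib.MP_5d4057_al.DR
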