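import Mathlib

/-! Project DER, section 5 (g), part 1: the conormal lemma on a disc. -/

set_option autoImplicit false

namespace Pool.Agent.Lib.MP_5d4057_al.DR

open Set Filter Topology MvPolynomial

section evalDeriv

variable {σ : Type*} [Fintype σ] {E : Type*} [NormedAddCommGroup E] [NormedSpace ℂ E]

theorem hasFDerivAt_eval (P : MvPolynomial σ ℂ) {f : σ → E → ℂ} {f' : σ → E →L[ℂ] ℂ} {y : E}
    (hf : ∀ i, HasFDerivAt (f i) (f' i) y) :
    HasFDerivAt (fun y => eval (fun i => f i y) P)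
      (∑ i, eval (fun i => f i y) (pderiv i P) • f' i) y := by
  classical
  induction P using MvPolynomial.induction_on with
  | C a =>
      refine ((hasFDerivAt_const a y).congr_fderiv ?_).congr_of_eventuallyEq ?_
      · ext w; simp [_root_.sum_apply]
      · exact Filter.Eventually.of_forall fun z => by simp
  | add p q hp hq =>
      refine ((hp.add hq).congr_fderiv ?_).congr_of_eventuallyEq ?_
      · ext w
        simp only [_root_.add_apply, _root_.sum_apply, _root_.smul_apply, smul_eq_mul, map_add,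
          add_mul, Finset.sum_add_distrib]
      · exact Filter.Eventually.of_forall fun z => by simp
  | mul_X p i hp =>
      refine ((hp.mul (hf i)).congr_fderiv ?_).congr_of_eventuallyEq ?_
      · ext w
        simp only [_root_.add_apply, _root_.sum_apply, _root_.smul_apply, smul_eq_mul,
          Derivation.leibniz, pderiv_X, map_add, map_mul, eval_X, add_mul, Finset.sum_add_distrib,
          Finset.mul_sum]
        congr 1
        · rw [Finset.sum_eq_single i]
          · simp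
          · intro b _ hb
            simp [hb.symm]
          · simp
        · refine Finset.sum_congr rfl fun j _ => ?_
          ring
      · exact Filter.Eventually.of_forall fun z => by simp

theorem hasDerivAt_eval (P : MvPolynomial σ ℂ) {f : σ → ℂ → ℂ} {f' : σ → ℂ} {x : ℂ}
    (hf : ∀ i, HasDerivAt (f i) (f' i) x) :
    HasDerivAt (fun y => eval (fun i => f i y) P)
      (∑ i, eval (fun i => f i x) (pderiv i P) * f' i) x := by
  have h := hasFDerivAt_eval P (fun i => (hf i).hasFDerivAt)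
  have h2 := h.hasDerivAt
  simpa [_root_.sum_apply] using h2

end evalDeriv

section minrel

variable {Δ : Set ℂ} {φ : Fin 3 → ℂ → ℂ}

theorem diff_eval {σ : Type*} [Fintype σ] {f : σ → ℂ → ℂ} (hΔ : IsOpen Δ)
    (hf : ∀ i, DifferentiableOn ℂ (f i) Δ) (P : MvPolynomial σ ℂ) :
    DifferentiableOn ℂ (fun x => eval (fun i => f i x) P) Δ := fun _ hx =>
  (hasDerivAt_eval P (fun i =>
    ((hf i).differentiableAt (hΔ.mem_nhds hx)).hasDerivAt)).differentiableAt.differentiableWithinAt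

/-- Identity theorem on an open preconnected set of the plane. -/
theorem eq_zero_of_ev {f : ℂ → ℂ} (hΔ : IsOpen Δ) (hc : IsPreconnected Δ)
    (hf : DifferentiableOn ℂ f Δ) {x0 : ℂ} (hx : x0 ∈ Δ) (h : ∀ᶠ x in 𝓝 x0, f x = 0) :
    ∀ x ∈ Δ, f x = 0 := fun _ hx' =>
  (hf.analyticOnNhd hΔ).eqOn_zero_of_preconnected_of_eventuallyEq_zero hc hx h hx'

/-- A relation of minimal degree between three holomorphic functions, the first two of which have
nonzero Wronskian, really contains the third one. -/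
theorem min_rel (hΔ : IsOpen Δ) (hc : IsPreconnected Δ) (hφ : ∀ i, DifferentiableOn ℂ (φ i) Δ)
    {x0 : ℂ} (hx0 : x0 ∈ Δ) (hW : φ 0 x0 * deriv (φ 1) x0 - φ 1 x0 * deriv (φ 0) x0 ≠ 0)
    (hrel : ∃ d, ∃ P : MvPolynomial (Fin 3) ℂ, P ≠ 0 ∧ P.IsHomogeneous d ∧
      ∀ x ∈ Δ, eval (fun i => φ i x) P = 0) :
    ∃ d, ∃ P : MvPolynomial (Fin 3) ℂ, 1 ≤ d ∧ P.IsHomogeneous d ∧
      (∀ x ∈ Δ, eval (fun i => φ i x) P = 0) ∧
      ∀ᶠ x in 𝓝[≠] x0, eval (fun i => φ i x) (pderiv 2 P) ≠ 0 := by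
  classical
  obtain ⟨P, hP0, hPh, hPv⟩ := Nat.find_spec hrel
  set d := Nat.find hrel with hd
  have hmin : ∀ e < d, ∀ Q : MvPolynomial (Fin 3) ℂ, Q.IsHomogeneous e →
      (∀ x ∈ Δ, eval (fun i => φ i x) Q = 0) → Q = 0 := by
    intro e he Q hQ hQv
    by_contra hne
    exact Nat.find_min hrel he ⟨Q, hne, hQ, hQv⟩
  have hd1 : 1 ≤ d := by
    by_contra hcon
    have h0 : d = 0 := by omega
    rw [h0, ← totalDegree_zero_iff_isHomogeneous, totalDegree_eq_zero_iff_eq_C] at hPh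
    have h1 := hPv x0 hx0
    rw [hPh, eval_C] at h1
    rw [h1, map_zero] at hPh
    exact hP0 hPh
  refine ⟨d, P, hd1, hPh, hPv, ?_⟩
  have hdiff : ∀ Q : MvPolynomial (Fin 3) ℂ, DifferentiableOn ℂ (fun x => eval (fun i => φ i x) Q) Δ :=
    diff_eval hΔ hφ
  rcases ((hdiff (pderiv 2 P)).analyticOnNhd hΔ x0 hx0).eventually_eq_zero_or_eventually_ne_zero
    with h | h
  swap
  · exact h
  exfalso
  -- the polynomial does not contain the third variable
  have h2 : pderiv 2 P = 0 :=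
    hmin (d - 1) (by omega) _ hPh.pderiv (eq_zero_of_ev hΔ hc (hdiff _) hx0 h)
  -- the two linear equations
  have hwc : ∀ᶠ x in 𝓝 x0, x ∈ Δ ∧ φ 0 x * deriv (φ 1) x - φ 1 x * deriv (φ 0) x ≠ 0 := by
    have hcont : ContinuousAt (fun x => φ 0 x * deriv (φ 1) x - φ 1 x * deriv (φ 0) x) x0 := by
      have a : ∀ i, ContinuousAt (φ i) x0 := fun i =>
        ((hφ i).differentiableAt (hΔ.mem_nhds hx0)).continuousAt
      have b : ∀ i, ContinuousAt (deriv (φ i)) x0 := fun i =>
        ((((hφ i).analyticOnNhd hΔ) x0 hx0).deriv).continuousAt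
      exact ((a 0).mul (b 1)).sub ((a 1).mul (b 0))
    exact (hΔ.eventually_mem hx0).and (hcont.eventually_ne hW)
  have hlin : ∀ x ∈ Δ, φ 0 x * deriv (φ 1) x - φ 1 x * deriv (φ 0) x ≠ 0 →
      eval (fun i => φ i x) (pderiv 0 P) = 0 ∧ eval (fun i => φ i x) (pderiv 1 P) = 0 := by
    intro x hx hw
    have e1 : eval (fun i => φ i x) (pderiv 0 P) * φ 0 x +
        eval (fun i => φ i x) (pderiv 1 P) * φ 1 x = 0 := by
      have h := congrArg (eval (fun i => φ i x)) hPh.sum_X_mul_pderiv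
      rw [map_sum, Fin.sum_univ_three, h2] at h
      simp only [map_mul, eval_X, map_zero, mul_zero, add_zero, nsmul_eq_mul, map_natCast,
        hPv x hx] at h
      linear_combination h
    have e2 : eval (fun i => φ i x) (pderiv 0 P) * deriv (φ 0) x +
        eval (fun i => φ i x) (pderiv 1 P) * deriv (φ 1) x = 0 := by
      have h := hasDerivAt_eval P (fun i =>
        (((hφ i).differentiableAt (hΔ.mem_nhds hx)).hasDerivAt))
      have h0 : HasDerivAt (fun y => eval (fun i => φ i y) P) 0 x := by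
        refine (hasDerivAt_const x (0 : ℂ)).congr_of_eventuallyEq ?_
        filter_upwards [hΔ.mem_nhds hx] with y hy using hPv y hy
      have h3 := h.unique h0
      rw [Fin.sum_univ_three, h2] at h3
      simpa using h3
    constructor
    · have : eval (fun i => φ i x) (pderiv 0 P) *
          (φ 0 x * deriv (φ 1) x - φ 1 x * deriv (φ 0) x) = 0 := by
        linear_combination deriv (φ 1) x * e1 - φ 1 x * e2
      exact (mul_eq_zero.1 this).resolve_right hw
    · have : eval (fun i => φ i x) (pderiv 1 P) *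
          (φ 0 x * deriv (φ 1) x - φ 1 x * deriv (φ 0) x) = 0 := by
        linear_combination φ 0 x * e2 - deriv (φ 0) x * e1
      exact (mul_eq_zero.1 this).resolve_right hw
  have h0 : pderiv 0 P = 0 :=
    hmin (d - 1) (by omega) _ hPh.pderiv (eq_zero_of_ev hΔ hc (hdiff _) hx0
      (hwc.mono fun x hx => (hlin x hx.1 hx.2).1))
  have h1 : pderiv 1 P = 0 :=
    hmin (d - 1) (by omega) _ hPh.pderiv (eq_zero_of_ev hΔ hc (hdiff _) hx0
      (hwc.mono fun x hx => (hlin x hx.1 hx.2).2))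
  have h := hPh.sum_X_mul_pderiv
  rw [Fin.sum_univ_three, h0, h1, h2] at h
  simp only [mul_zero, add_zero] at h
  have h3 : (d : MvPolynomial (Fin 3) ℂ) * P = 0 := by
    rw [← nsmul_eq_mul]; exact h.symm
  rcases mul_eq_zero.1 h3 with h4 | h4
  · have : (d : ℕ) = 0 := by exact_mod_cast h4
    omega
  · exact hP0 h4

end minrel

section conormal

variable {E : Type*} [NormedAddCommGroup E] [NormedSpace ℂ E]

/-- Euler's equation for a homogeneous function of degree `-k`. -/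
theorem euler_fderiv {CC : Set E} (hCC : IsOpen CC) {f : E → ℂ} (hf : DifferentiableOn ℂ f CC)
    {k : ℕ} (hhom : ∀ y ∈ CC, ∀ c : ℂ, c ≠ 0 → f (c • y) = (c ^ k)⁻¹ * f y) {y : E} (hy : y ∈ CC) :
    fderiv ℂ f y y = -(k : ℂ) * f y := by
  have h1 : HasDerivAt (fun c : ℂ => f (c • y)) (fderiv ℂ f y y) 1 := by
    have ha : HasFDerivAt f (fderiv ℂ f y) ((1 : ℂ) • y) := by
      rw [one_smul]
      exact (hf.differentiableAt (hCC.mem_nhds hy)).hasFDerivAt
    have hb : HasDerivAt (fun c : ℂ => c • y) y 1 := by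
      simpa using (hasDerivAt_id (1 : ℂ)).smul_const y
    exact ha.comp_hasDerivAt (1 : ℂ) hb
  have h2 : HasDerivAt (fun c : ℂ => f (c • y)) (-(k : ℂ) * f y) 1 := by
    have ha : HasDerivAt (fun c : ℂ => (c ^ k)⁻¹ * f y) (-(k : ℂ) * f y) 1 := by
      have := ((hasDerivAt_pow k (1 : ℂ)).fun_inv (by simp)).mul_const (f y)
      simpa using this
    refine ha.congr_of_eventuallyEq ?_
    filter_upwards [isOpen_ne.mem_nhds (one_ne_zero : (1 : ℂ) ≠ 0)] with c hc using hhom y hy c hc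
  exact h1.unique h2

theorem conormal {ι : Type*} [Finite ι] {CC : Set E} (hCC : IsOpen CC) {p q : E}
    (hpq : LinearIndependent ℂ ![p, q]) {Δ : Set ℂ} (hΔ : Δ = {x | p + x • q ∈ CC})
    (hc : IsPreconnected Δ) {F : ι → E → ℂ} (hF : ∀ i, DifferentiableOn ℂ (F i) CC) {k : ℕ}
    (hk : k ≠ 0) (hhom : ∀ i, ∀ y ∈ CC, ∀ c : ℂ, c ≠ 0 → F i (c • y) = (c ^ k)⁻¹ * F i y)
    {x0 : ℂ} (hx0 : x0 ∈ Δ)
    (hfr : ∀ᶠ x in 𝓝 x0, ∀ w : E, (∀ i, fderiv ℂ (F i) (p + x • q) w = 0) → w = 0)
    (hdep : ∀ a b j, ∃ d, ∃ P : MvPolynomial (Fin 3) ℂ, P ≠ 0 ∧ P.IsHomogeneous d ∧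
      ∀ x ∈ Δ, eval (fun i => F (![a, b, j] i) (p + x • q)) P = 0) :
    ∃ (d : ι → ℕ) (Ψ : ι → MvPolynomial ι ℂ),
      (∀ j, 1 ≤ d j ∧ (Ψ j).IsHomogeneous (d j) ∧
        ∀ x ∈ Δ, eval (fun i => F i (p + x • q)) (Ψ j) = 0) ∧
      ∃ O : Set ℂ, IsOpen O ∧ O.Nonempty ∧ O ⊆ Δ ∧ ∀ x ∈ O, ∀ w : E,
        (∀ j, fderiv ℂ (fun y => eval (fun i => F i y) (Ψ j)) (p + x • q) w = 0) →
          w ∈ Submodule.span ℂ {p, q} := by
  classical
  have hkC : (k : ℂ) ≠ 0 := by exact_mod_cast hk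
  have hcontl : Continuous (fun x : ℂ => p + x • q) := by fun_prop
  have hΔo : IsOpen Δ := by rw [hΔ]; exact hCC.preimage hcontl
  have hmem : ∀ x ∈ Δ, p + x • q ∈ CC := fun x hx => by rw [hΔ] at hx; exact hx
  have hFd : ∀ x ∈ Δ, ∀ i, HasFDerivAt (F i) (fderiv ℂ (F i) (p + x • q)) (p + x • q) :=
    fun x hx i => ((hF i).differentiableAt (hCC.mem_nhds (hmem x hx))).hasFDerivAt
  have hφd : ∀ x ∈ Δ, ∀ i, HasDerivAt (fun x : ℂ => F i (p + x • q))
      (fderiv ℂ (F i) (p + x • q) q) x := by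
    intro x hx i
    have hb : HasDerivAt (fun c : ℂ => p + c • q) q x := by
      simpa using ((hasDerivAt_id x).smul_const q).const_add p
    exact (hFd x hx i).comp_hasDerivAt x hb
  have hφ : ∀ i, DifferentiableOn ℂ (fun x : ℂ => F i (p + x • q)) Δ := fun i x hx =>
    (hφd x hx i).differentiableAt.differentiableWithinAt
  have heul : ∀ x ∈ Δ, ∀ i, fderiv ℂ (F i) (p + x • q) (p + x • q) = -(k : ℂ) * F i (p + x • q) :=
    fun x hx i => euler_fderiv hCC (hF i) (hhom i) (hmem x hx)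
  have hpq' : ∀ s t : ℂ, s • p + t • q = 0 → s = 0 ∧ t = 0 := LinearIndependent.pair_iff.1 hpq
  -- a pair with nonzero Wronskian at `x0`
  obtain ⟨a, b, hW⟩ : ∃ a b, F a (p + x0 • q) * deriv (fun x : ℂ => F b (p + x • q)) x0 -
      F b (p + x0 • q) * deriv (fun x : ℂ => F a (p + x • q)) x0 ≠ 0 := by
    by_contra hcon
    push Not at hcon
    have h0 := hfr.self_of_nhds
    by_cases hall : ∀ i, F i (p + x0 • q) = 0
    · have h1 := h0 (p + x0 • q) (fun i => by rw [heul x0 hx0 i, hall i, mul_zero])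
      have h2 := hpq' 1 x0 (by rw [one_smul]; exact h1)
      exact one_ne_zero h2.1
    · push Not at hall
      obtain ⟨i0, hi0⟩ := hall
      set A := fderiv ℂ (F i0) (p + x0 • q) q with hA
      have h1 := h0 ((A / k) • (p + x0 • q) + F i0 (p + x0 • q) • q) (fun i => by
        rw [map_add, map_smul, map_smul, heul x0 hx0 i]
        have h2 := hcon i0 i
        rw [(hφd x0 hx0 i).deriv, (hφd x0 hx0 i0).deriv, ← hA] at h2
        simp only [smul_eq_mul]
        have : A / (k : ℂ) * (-(k : ℂ) * F i (p + x0 • q)) = - (F i (p + x0 • q) * A) := by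
          field_simp
        rw [this]
        linear_combination h2)
      have h2 : (A / k) • p + (A / k * x0 + F i0 (p + x0 • q)) • q = 0 := by
        rw [← h1, smul_add, add_smul, smul_smul]
        abel
      obtain ⟨h3, h4⟩ := hpq' _ _ h2
      rw [h3, zero_mul, zero_add] at h4
      exact hi0 h4
  -- minimal relations
  have hmr : ∀ j, ∃ d, ∃ P : MvPolynomial (Fin 3) ℂ, 1 ≤ d ∧ P.IsHomogeneous d ∧
      (∀ x ∈ Δ, eval (fun i => F (![a, b, j] i) (p + x • q)) P = 0) ∧
      ∀ᶠ x in 𝓝[≠] x0, eval (fun i => F (![a, b, j] i) (p + x • q)) (pderiv 2 P) ≠ 0 := fun j =>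
    min_rel (φ := fun i x => F (![a, b, j] i) (p + x • q)) hΔo hc (fun i => hφ _) hx0
      (by simpa using hW) (hdep a b j)
  choose d P hd1 hPh hPv hPn using hmr
  refine ⟨d, fun j => rename ![a, b, j] (P j), fun j => ⟨hd1 j, (hPh j).rename_isHomogeneous,
    fun x hx => by rw [eval_rename]; exact hPv j x hx⟩, ?_⟩
  -- the open set
  obtain ⟨t, ht, hto, hxt⟩ := eventually_nhds_iff.1 hfr
  set W : ℂ → ℂ := fun x => F a (p + x • q) * deriv (fun x : ℂ => F b (p + x • q)) x -
      F b (p + x • q) * deriv (fun x : ℂ => F a (p + x • q)) x with hWdef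
  have hWc : ContinuousOn W Δ := by
    have h1 : ∀ i, ContinuousOn (deriv fun x : ℂ => F i (p + x • q)) Δ := fun i =>
      (((hφ i).analyticOnNhd hΔo).deriv).continuousOn
    exact ((hφ a).continuousOn.mul (h1 b)).sub ((hφ b).continuousOn.mul (h1 a))
  set G : ι → ℂ → ℂ := fun j x => eval (fun i => F (![a, b, j] i) (p + x • q)) (pderiv 2 (P j))
    with hG
  have hGc : ∀ j, ContinuousOn (G j) Δ := fun j =>
    (diff_eval (f := fun i x => F (![a, b, j] i) (p + x • q)) hΔo (fun i => hφ _) _).continuousOn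
  refine ⟨t ∩ (Δ ∩ W ⁻¹' {0}ᶜ) ∩ ⋂ j, (Δ ∩ G j ⁻¹' {0}ᶜ), ?_, ?_, ?_, ?_⟩
  · refine (hto.inter (hWc.isOpen_inter_preimage hΔo isOpen_compl_singleton)).inter ?_
    exact isOpen_iInter_of_finite fun j =>
      (hGc j).isOpen_inter_preimage hΔo isOpen_compl_singleton
  · have h1 : ∀ᶠ x in 𝓝 x0, x ∈ t ∩ (Δ ∩ W ⁻¹' {0}ᶜ) :=
      (hto.inter (hWc.isOpen_inter_preimage hΔo isOpen_compl_singleton)).eventually_mem
        ⟨hxt, hx0, hW⟩
    have h2 : ∀ᶠ x in 𝓝[≠] x0, ∀ j, G j x ≠ 0 := eventually_all.2 hPn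
    have h3 : ∀ᶠ x in 𝓝[≠] x0, x ∈ t ∩ (Δ ∩ W ⁻¹' {0}ᶜ) := nhdsWithin_le_nhds h1
    obtain ⟨x, hx2, hx3⟩ := (h2.and h3).exists
    exact ⟨x, hx3, mem_iInter.2 fun j => ⟨hx3.2.1, hx2 j⟩⟩
  · intro x hx; exact hx.1.2.1
  · rintro x ⟨⟨hxt', hxΔ, hxW⟩, hxG⟩ w hw
    have hxG' : ∀ j, G j x ≠ 0 := fun j => (mem_iInter.1 hxG j).2
    set y := p + x • q with hy
    set A : ι → E →L[ℂ] ℂ := fun i => fderiv ℂ (F i) y with hA
    have hda : ∀ i, deriv (fun x : ℂ => F i (p + x • q)) x = A i q := fun i => (hφd x hxΔ i).deriv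
    have hWx : F a y * A b q - F b y * A a q ≠ 0 := by
      have h1 : W x ≠ 0 := hxW
      have h2 : W x = F a y * A b q - F b y * A a q := by
        change F a (p + x • q) * deriv (fun x : ℂ => F b (p + x • q)) x -
          F b (p + x • q) * deriv (fun x : ℂ => F a (p + x • q)) x = _
        rw [hda, hda]
      rwa [h2] at h1
    set Wv := F a y * A b q - F b y * A a q with hWv
    have hye : ∀ i, A i y = -(k : ℂ) * F i y := heul x hxΔ
    set α := (A a w * A b q - A b w * A a q) / (-(k : ℂ) * Wv) with hα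
    set β := (F a y * A b w - F b y * A a w) / Wv with hβ
    have hdetk : (k : ℂ) * Wv ≠ 0 := mul_ne_zero hkC hWx
    have hfd : ∀ j, ∀ v : E, fderiv ℂ (fun y => eval (fun i => F i y) (rename ![a, b, j] (P j))) y v =
        ∑ i : Fin 3, eval (fun i => F (![a, b, j] i) y) (pderiv i (P j)) * A (![a, b, j] i) v := by
      intro j v
      have h1 := hasFDerivAt_eval (P j) (f := fun i => F (![a, b, j] i)) (y := y)
        (f' := fun i => A (![a, b, j] i)) (fun i => hFd x hxΔ _)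
      have h2 : (fun y => eval (fun i => F i y) (rename ![a, b, j] (P j))) =
          fun y => eval (fun i => F (![a, b, j] i) y) (P j) := by
        funext z; rw [eval_rename]; rfl
      rw [h2, h1.fderiv, _root_.sum_apply]
      rfl
    have hq0 : ∀ j, ∑ i : Fin 3, eval (fun i => F (![a, b, j] i) y) (pderiv i (P j)) *
        A (![a, b, j] i) q = 0 := by
      intro j
      have h1 := hasDerivAt_eval (P j) (f := fun i x => F (![a, b, j] i) (p + x • q))
        (fun i => hφd x hxΔ (![a, b, j] i))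
      have h0 : HasDerivAt (fun x => eval (fun i => F (![a, b, j] i) (p + x • q)) (P j)) 0 x := by
        refine (hasDerivAt_const x (0 : ℂ)).congr_of_eventuallyEq ?_
        filter_upwards [hΔo.mem_nhds hxΔ] with z hz using hPv j z hz
      exact h1.unique h0
    have hy0 : ∀ j, ∑ i : Fin 3, eval (fun i => F (![a, b, j] i) y) (pderiv i (P j)) *
        A (![a, b, j] i) y = 0 := by
      intro j
      have h := congrArg (eval (fun i => F (![a, b, j] i) y)) (hPh j).sum_X_mul_pderiv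
      rw [map_sum] at h
      simp only [map_mul, eval_X, nsmul_eq_mul, map_natCast] at h
      rw [hPv j x hxΔ, mul_zero] at h
      have h2 : ∑ i : Fin 3, eval (fun i => F (![a, b, j] i) y) (pderiv i (P j)) *
        A (![a, b, j] i) y = -(k : ℂ) * ∑ i : Fin 3, F (![a, b, j] i) y *
          eval (fun i => F (![a, b, j] i) y) (pderiv i (P j)) := by
        rw [Finset.mul_sum]
        refine Finset.sum_congr rfl fun i _ => ?_
        rw [hye]; ring
      rw [h2, h, mul_zero]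
    -- the difference
    have hva : A a (w - (α • y + β • q)) = 0 := by
      rw [map_sub, map_add, map_smul, map_smul, hye, smul_eq_mul, smul_eq_mul, hα, hβ]
      field_simp
      rw [hWv]
      ring
    have hvb : A b (w - (α • y + β • q)) = 0 := by
      rw [map_sub, map_add, map_smul, map_smul, hye, smul_eq_mul, smul_eq_mul, hα, hβ]
      field_simp
      rw [hWv]
      ring
    have hvj : ∀ j, A j (w - (α • y + β • q)) = 0 := by
      intro j
      have h1 : ∑ i : Fin 3, eval (fun i => F (![a, b, j] i) y) (pderiv i (P j)) *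
          A (![a, b, j] i) (w - (α • y + β • q)) = 0 := by
        have h2 := hw j
        rw [hfd] at h2
        have h3 : ∑ i : Fin 3, eval (fun i => F (![a, b, j] i) y) (pderiv i (P j)) *
          A (![a, b, j] i) (w - (α • y + β • q)) =
          ∑ i : Fin 3, eval (fun i => F (![a, b, j] i) y) (pderiv i (P j)) *
            A (![a, b, j] i) w -
          (α * ∑ i : Fin 3, eval (fun i => F (![a, b, j] i) y) (pderiv i (P j)) *
            A (![a, b, j] i) y +
          β * ∑ i : Fin 3, eval (fun i => F (![a, b, j] i) y) (pderiv i (P j)) *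
            A (![a, b, j] i) q) := by
          simp only [map_sub, map_add, map_smul, smul_eq_mul, Fin.sum_univ_three]
          ring
        rw [h3, h2, hy0, hq0]
        ring
      rw [Fin.sum_univ_three] at h1
      have h4 : A (![a, b, j] 0) (w - (α • y + β • q)) = 0 := hva
      have h5 : A (![a, b, j] 1) (w - (α • y + β • q)) = 0 := hvb
      rw [h4, h5, mul_zero, mul_zero, zero_add, zero_add] at h1
      exact (mul_eq_zero.1 h1).resolve_left (hxG' j)
    have h6 := ht x hxt' _ hvj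
    have h7 : w = α • y + β • q := sub_eq_zero.1 h6
    rw [h7, hy]
    have hp : p ∈ Submodule.span ℂ ({p, q} : Set E) := Submodule.subset_span (by simp)
    have hq' : q ∈ Submodule.span ℂ ({p, q} : Set E) := Submodule.subset_span (by simp)
    exact Submodule.add_mem _ (Submodule.smul_mem _ _ (Submodule.add_mem _ hp
      (Submodule.smul_mem _ _ hq'))) (Submodule.smul_mem _ _ hq')

end conormal

section stable

variable {E : Type*} [NormedAddCommGroup E] [NormedSpace ℂ E]

theorem stab_span {p q : E} (M : E →ₗ[ℂ] E) {O : Set ℂ} (hO : IsOpen O) (hne : O.Nonempty)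
    (h : ∀ x ∈ O, M (p + x • q) ∈ Submodule.span ℂ ({p, q} : Set E)) :
    ∀ u ∈ Submodule.span ℂ ({p, q} : Set E), M u ∈ Submodule.span ℂ ({p, q} : Set E) := by
  obtain ⟨x, hx⟩ := hne
  obtain ⟨x', hx', hne'⟩ : ∃ x' ∈ O, x' ≠ x := by
    have h1 : ∀ᶠ z in 𝓝[≠] x, z ∈ O := nhdsWithin_le_nhds (hO.mem_nhds hx)
    obtain ⟨z, hz1, hz2⟩ := (h1.and self_mem_nhdsWithin).exists
    exact ⟨z, hz1, hz2⟩
  have hq : M q ∈ Submodule.span ℂ ({p, q} : Set E) := by
    have h1 := Submodule.sub_mem _ (h x' hx') (h x hx)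
    rw [← map_sub, add_sub_add_left_eq_sub, ← sub_smul, map_smul] at h1
    exact (Submodule.smul_mem_iff _ (sub_ne_zero.2 hne')).1 h1
  have hp : M p ∈ Submodule.span ℂ ({p, q} : Set E) := by
    have h1 := Submodule.sub_mem _ (h x hx) (Submodule.smul_mem _ x hq)
    rwa [map_add, map_smul, add_sub_cancel_right] at h1
  intro u hu
  obtain ⟨s, t, rfl⟩ := Submodule.mem_span_pair.1 hu
  rw [map_add, map_smul, map_smul]
  exact Submodule.add_mem _ (Submodule.smul_mem _ _ hp) (Submodule.smul_mem _ _ hq)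

/-- Equivariance modulo the plane. -/
theorem equiv_mod {CC : Set E} (hCC : IsOpen CC) {p q : E} {O : Set ℂ} (hO : IsOpen O)
    (hne : O.Nonempty) (hOC : ∀ x ∈ O, p + x • q ∈ CC) {κ : Type*} {Ψ Ψt : κ → E → ℂ}
    (hΨ : ∀ j, DifferentiableOn ℂ (Ψ j) CC)
    (hker : ∀ x ∈ O, ∀ w : E, (∀ j, fderiv ℂ (Ψ j) (p + x • q) w = 0) →
      w ∈ Submodule.span ℂ ({p, q} : Set E)) (L : E →ₗ[ℂ] E)
    (hΨt : ∀ j, ∀ y ∈ CC, y ∈ Submodule.span ℂ ({p, q} : Set E) →
      Ψt j y = fderiv ℂ (Ψ j) y (L y)) (g : E ≃L[ℂ] E) (hgC : ∀ y ∈ CC, g y ∈ CC)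
    (hgU : ∀ u ∈ Submodule.span ℂ ({p, q} : Set E), g u ∈ Submodule.span ℂ ({p, q} : Set E))
    (hg1 : ∀ j, ∀ y ∈ CC, Ψ j (g y) = Ψ j y) (hg2 : ∀ j, ∀ y ∈ CC, Ψt j (g y) = Ψt j y) :
    ∀ u ∈ Submodule.span ℂ ({p, q} : Set E),
      L (g u) - g (L u) ∈ Submodule.span ℂ ({p, q} : Set E) := by
  have hU : ∀ x : ℂ, p + x • q ∈ Submodule.span ℂ ({p, q} : Set E) := fun x =>
    Submodule.add_mem _ (Submodule.subset_span (by simp))
      (Submodule.smul_mem _ _ (Submodule.subset_span (by simp)))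
  have hM := stab_span (p := p) (q := q)
    ((g.symm : E →ₗ[ℂ] E) ∘ₗ L ∘ₗ (g : E →ₗ[ℂ] E) - L) hO hne (fun x hx => by
      refine hker x hx _ fun j => ?_
      set y := p + x • q with hy
      have hyC : y ∈ CC := hOC x hx
      have h1 : (fderiv ℂ (Ψ j) (g y)).comp (g : E →L[ℂ] E) = fderiv ℂ (Ψ j) y := by
        have ha : HasFDerivAt (fun z => Ψ j (g z))
            ((fderiv ℂ (Ψ j) (g y)).comp (g : E →L[ℂ] E)) y :=
          (((hΨ j).differentiableAt (hCC.mem_nhds (hgC y hyC))).hasFDerivAt).comp y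
            g.hasFDerivAt
        have hb : HasFDerivAt (fun z => Ψ j (g z)) (fderiv ℂ (Ψ j) y) y := by
          refine (((hΨ j).differentiableAt (hCC.mem_nhds hyC)).hasFDerivAt).congr_of_eventuallyEq ?_
          filter_upwards [hCC.mem_nhds hyC] with z hz using hg1 j z hz
        exact ha.unique hb
      have h2 : fderiv ℂ (Ψ j) y (g.symm (L (g y))) = Ψt j y := by
        rw [← h1]
        change fderiv ℂ (Ψ j) (g y) (g (g.symm (L (g y)))) = _
        rw [ContinuousLinearEquiv.apply_symm_apply, ← hΨt j (g y) (hgC y hyC) (hgU y (hU x)),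
          hg2 j y hyC]
      have h3 := hΨt j y hyC (hU x)
      change fderiv ℂ (Ψ j) y (g.symm (L (g y)) - L y) = 0
      rw [map_sub, h2, ← h3, sub_self])
  intro u hu
  have h1 := hgU _ (hM u hu)
  change g (g.symm (L (g u)) - L u) ∈ _ at h1
  rwa [map_sub, ContinuousLinearEquiv.apply_symm_apply] at h1

/-- A matrix which commutes with a hyperbolic element modulo the plane preserves the plane. -/
theorem stable_of_hyp {U : Submodule ℂ E} (L : E →ₗ[ℂ] E) (g : E → E)
    (hL : ∀ u ∈ U, L (g u) - g (L u) ∈ U) {e₁ e₂ : E} (h₁ : e₁ ∈ U) (h₂ : e₂ ∈ U)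
    (hs : ∀ u ∈ U, ∃ s t : ℂ, u = s • e₁ + t • e₂) {l₁ l₂ : ℂ} (hg₁ : g e₁ = l₁ • e₁)
    (hg₂ : g e₂ = l₂ • e₂) (hn₁ : ∀ w, g w - l₁ • w ∈ U → w ∈ U)
    (hn₂ : ∀ w, g w - l₂ • w ∈ U → w ∈ U) : ∀ u ∈ U, L u ∈ U := by
  have a₁ : L e₁ ∈ U := by
    refine hn₁ _ ?_
    have h := hL e₁ h₁
    rw [hg₁, map_smul] at h
    rw [← neg_sub]
    exact U.neg_mem h
  have a₂ : L e₂ ∈ U := by
    refine hn₂ _ ?_
    have h := hL e₂ h₂
    rw [hg₂, map_smul] at h
    rw [← neg_sub]
    exact U.neg_mem h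
  intro u hu
  obtain ⟨s, t, rfl⟩ := hs u hu
  rw [map_add, map_smul, map_smul]
  exact U.add_mem (U.smul_mem _ a₁) (U.smul_mem _ a₂)

end stable

end Pool.Agent.Lib.MP_5d4057_al.DR
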