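import Pool.Agent.Lib.MP_5d4057_al.DR.Fps

/-!
# DER, T2: frames, the pointwise derivation and the formal derivation. Definitions (leader helper65)
-/

set_option autoImplicit false

namespace Pool.Agent.Lib.MP_5d4057_al.DR

open MvPowerSeries Filter Topology Matrix

variable {N : ℕ}

/-- The matrix of the partial derivatives of a frame. -/
noncomputable def Mj (F : Fin N → (Fin N → ℂ) → ℂ) (y : Fin N → ℂ) : Matrix (Fin N) (Fin N) ℂ :=
  Matrix.of fun a j => pd j (F a) y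

/-- The Jacobian of a frame. -/
noncomputable def Jac (F : Fin N → (Fin N → ℂ) → ℂ) (y : Fin N → ℂ) : ℂ := (Mj F y).det

/-- The vector field `∂ / ∂ F_a`. -/
noncomputable def Xf (F : Fin N → (Fin N → ℂ) → ℂ) (a : Fin N) (y : Fin N → ℂ) : Fin N → ℂ :=
  fun i => (Mj F y)⁻¹ i a

/-- The derivation over `D` which kills the frame, pointwise formula of helper63. -/
noncomputable def dlt (D : Derivation ℤ ℂ ℂ) (F : Fin N → (Fin N → ℂ) → ℂ) (f : (Fin N → ℂ) → ℂ)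
    (y : Fin N → ℂ) : ℂ :=
  D (f y) - ∑ a, D (F a y) * ∑ i, Xf F a y i * pd i f y

/-- The Christoffel symbols of the flat connection in the frame:
`∂_j ∂_l F_a = ∑ Γ^a_bc ∂_j F_b ∂_l F_c`. -/
noncomputable def Gam (F : Fin N → (Fin N → ℂ) → ℂ) (a b c : Fin N) (y : Fin N → ℂ) : ℂ :=
  ∑ j, ∑ l, pd j (pd l (F a)) y * Xf F b y j * Xf F c y l

/-- The tensor `S`. -/
noncomputable def Sb (D : Derivation ℤ ℂ ℂ) (F : Fin N → (Fin N → ℂ) → ℂ) (i j l : Fin N)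
    (y : Fin N → ℂ) : ℂ :=
  ∑ a, ∑ b, ∑ c, Xf F a y i * dlt D F (Gam F a b c) y * Mj F y b j * Mj F y c l

/-- The matrix of the partial derivatives, formal. -/
noncomputable def MT (Q : Fin N → ℂ) (F : Fin N → (Fin N → ℂ) → ℂ) :
    Matrix (Fin N) (Fin N) (MvPowerSeries (Fin N) ℂ) :=
  Matrix.of fun a j => pderiv ℂ j (Tay Q (F a))

/-- The formal vector field `w` with `Db F_a = w . d F_a`. -/
noncomputable def wq (D : Derivation ℤ ℂ ℂ) (F : Fin N → (Fin N → ℂ) → ℂ) (Q : Fin N → ℂ) :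
    Fin N → MvPowerSeries (Fin N) ℂ :=
  (MT Q F)⁻¹ *ᵥ fun a => Db D Q (Tay Q (F a))

/-- The formal derivation `Db - w.d`. -/
noncomputable def Kd (D : Derivation ℤ ℂ ℂ) (F : Fin N → (Fin N → ℂ) → ℂ) (Q : Fin N → ℂ) :
    Derivation ℤ (MvPowerSeries (Fin N) ℂ) (MvPowerSeries (Fin N) ℂ) :=
  Db D Q - ∑ i, wq D F Q i • (pderiv ℂ i).restrictScalars ℤ

/-- Flat vector fields for a frame which is nondegenerate at `Q`. -/
def Flat (D : Derivation ℤ ℂ ℂ) (F : Fin N → (Fin N → ℂ) → ℂ) (Q : Fin N → ℂ)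
    (W : (Fin N → ℂ) → (Fin N → ℂ)) : Prop :=
  (∀ i, AnalyticAt ℂ (fun y => W y i) Q) ∧ ∃ L : Matrix (Fin N) (Fin N) ℂ,
    ∀ i, Tay Q (fun y => W y i) = wq D F Q i + ∑ j, C (L i j) * (C (Q j) + X j)

/-- The equations for a vector field `V` at one point: second derivatives and homogeneity. -/
def FS (D : Derivation ℤ ℂ ℂ) (F : Fin N → (Fin N → ℂ) → ℂ) (y : Fin N → ℂ)
    (V : (Fin N → ℂ) → (Fin N → ℂ)) : Prop :=
  (∀ i j l, pd j (pd l (fun z => V z i)) y = Sb D F i j l y) ∧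
    ∀ i, ∑ j, y j * pd j (fun z => V z i) y = V y i

/-- Solutions near `Q` for a global frame (`Q` may be a zero of the Jacobian). -/
def Sol (D : Derivation ℤ ℂ ℂ) (F : Fin N → (Fin N → ℂ) → ℂ) (Q : Fin N → ℂ)
    (W : (Fin N → ℂ) → (Fin N → ℂ)) : Prop :=
  (∀ i, AnalyticAt ℂ (fun y => W y i) Q) ∧
    ∀ᶠ y in 𝓝 Q, Jac F y ≠ 0 → FS D F y fun z => (Jac F z)⁻¹ • W z

/-- `f` is algebraic over the frame `F` on `O`. -/
def AlgO (O : Set (Fin N → ℂ)) (F : Fin N → (Fin N → ℂ) → ℂ) (f : (Fin N → ℂ) → ℂ) : Prop :=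
  ∃ P : MvPolynomial (Fin (N + 1)) ℂ, P ≠ 0 ∧
    ∀ y ∈ O, MvPolynomial.eval (Fin.snoc (fun a => F a y) (f y)) P = 0

end Pool.Agent.Lib.MP_5d4057_al.DR
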