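import Pool.Agent.Lib.MP_5d4057_al.DR.FinH
import Pool.Agent.Lib.MP_5d4057_al.DR.FraD
import Pool.Agent.Lib.MP_5d4057_al.DR.FinG
import Pool.Agent.Lib.MP_5d4057_al.DR.Hyp
import Pool.Agent.Lib.MP_5d4057_al.QB.Osg
import Pool.Agent.Lib.MP_5d4057_al.QB.FmD

/-!
# DER, section 5 (g): the matrix of the lift preserves the plane (helper4)
-/

set_option autoImplicit false

namespace Pool.Agent.Lib.MP_5d4057_al.DR

open MvPowerSeries Filter Topology Matrix Pool.Agent.Lib.MP_5d4057_al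
  Pool.Agent.Lib.MP_5d4057_al.Hyb Pool.Agent.Lib.MP_5d4057_al.HM Pool.Agent.Lib.MP_5d4057_al.QB
  Pool.Agent.Lib.MP_5d4057_al.DR.Hyp

namespace FinU

variable {n : ℕ} {Γ : Subgroup (SUGroup n)} {k : ℕ} {f f' : Vec n → ℂ}

/-- The second vector of the plane. -/
noncomputable abbrev e₁ (i₀ : Fin n) : Vec n := Pi.single i₀.castSucc 1

theorem q_line (i₀ : Fin n) (a x : ℂ) :
    q (a • base n + x • e₁ i₀) = ‖x‖ ^ 2 - ‖a‖ ^ 2 := by
  rw [q_eq, Finset.sum_eq_single i₀]
  · simp [base, (Fin.castSucc_lt_last i₀).ne, (Fin.castSucc_lt_last i₀).ne']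
  · intro j _ hj
    simp [base, (Fin.castSucc_lt_last j).ne, hj]
  · simp

theorem mem_line (i₀ : Fin n) (x : ℂ) : base n + x • e₁ i₀ ∈ Cone n ↔ ‖x‖ < 1 := by
  have h := q_line i₀ 1 x
  rw [one_smul] at h
  change q (base n + x • e₁ i₀) < 0 ↔ _
  rw [h, norm_one, one_pow, sub_neg, sq_lt_one_iff₀ (norm_nonneg x)]

theorem disc_eq (i₀ : Fin n) : Metric.ball (0 : ℂ) 1 = {x | base n + x • e₁ i₀ ∈ Cone n} := by
  ext x
  rw [Set.mem_ofPred, mem_line, mem_ball_zero_iff]

theorem exists_disc (i₀ : Fin n) {v : Vec n} (hv : v ∈ Cone n) (hU : v ∈ Pl (base n) (e₁ i₀)) :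
    ∃ c : ℂ, c ≠ 0 ∧ ∃ x ∈ Metric.ball (0 : ℂ) 1, v = c • (base n + x • e₁ i₀) := by
  obtain ⟨s, t, rfl⟩ := Submodule.mem_span_pair.1 hU
  have h1 : q (s • base n + t • e₁ i₀) < 0 := hv
  rw [q_line, sub_neg] at h1
  have hs : s ≠ 0 := by
    rintro rfl
    rw [norm_zero, zero_pow two_ne_zero] at h1
    exact absurd h1 (not_lt.2 (sq_nonneg _))
  refine ⟨s, hs, t / s, ?_, ?_⟩
  · rw [mem_ball_zero_iff, norm_div, div_lt_one (norm_pos_iff.2 hs)]
    exact lt_of_pow_lt_pow_left₀ 2 (norm_nonneg _) h1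
  · rw [smul_add, smul_smul, mul_div_cancel₀ _ hs]

theorem fderiv_eq_sum (f : Vec n → ℂ) (v w : Vec n) :
    fderiv ℂ f v w = ∑ i, w i * pd i f v := by
  have h : w = ∑ i, w i • (Pi.single i (1 : ℂ) : Vec n) := by
    funext j
    rw [Finset.sum_apply, Finset.sum_eq_single j]
    · simp
    · intro b _ hb
      simp [hb.symm]
    · simp
  conv_lhs => rw [h, map_sum]
  refine Finset.sum_congr rfl fun i _ => ?_
  rw [map_smul, smul_eq_mul]
  rfl

theorem fderiv_smul_form {χ : SUGroup n → ℂ} (hf : Fm Γ χ k f) {v : Vec n} (hv : v ∈ Cone n) {c : ℂ}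
    (hc : c ≠ 0) (w : Vec n) :
    fderiv ℂ f (c • v) (c • w) = (c ^ k)⁻¹ * fderiv ℂ f v w := by
  have h1 : HasFDerivAt (fun z => f (c • z)) ((fderiv ℂ f (c • v)).comp
      (c • ContinuousLinearMap.id ℂ (Vec n))) v := by
    have ha : HasFDerivAt f (fderiv ℂ f (c • v)) (c • v) :=
      (hf.diffAt (smul_mem_cone hc hv)).hasFDerivAt
    exact ha.comp v ((hasFDerivAt_id v).const_smul c)
  have h2 : HasFDerivAt (fun z => f (c • z)) ((c ^ k)⁻¹ • fderiv ℂ f v) v := by
    refine ((hf.diffAt hv).hasFDerivAt.const_mul ((c ^ k)⁻¹)).congr_of_eventuallyEq ?_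
    filter_upwards [(isOpen_cone n).mem_nhds hv] with z hz using hf.hom c hc z hz
  have h3 := congrArg (fun T : Vec n →L[ℂ] ℂ => T w) (h1.unique h2)
  simpa using h3

theorem an_fm {χ : SUGroup n → ℂ} (hf : Fm Γ χ k f) {v : Vec n} (hv : v ∈ Cone n) :
    AnalyticAt ℂ f v := QB.analyticOnNhd (isOpen_cone n) hf.diff v hv

/-- The bridge: for a form which vanishes on the plane the lift is given by the linear field. -/
theorem star_U {L : Mat (n + 1)} {D : Derivation ℤ ℂ ℂ} (i₀ : Fin n) (hf : Fm Γ (fun _ => 1) k f)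
    (hf' : Fm Γ (fun _ => 1) k f')
    (hs : Tay (base n) f' = Dc D (Tay (base n) f) + ∑ i, ∑ j, C (L i j) *
      (C (base n j) + MvPowerSeries.X j) * pderiv ℂ i (Tay (base n) f))
    (hU : ∀ v ∈ Cone n, v ∈ Pl (base n) (e₁ i₀) → f v = 0) {v : Vec n} (hv : v ∈ Cone n)
    (hvU : v ∈ Pl (base n) (e₁ i₀)) : f' v = fderiv ℂ f v (L *ᵥ v) := by
  set h : Vec n → ℂ := fun y => f' y - ∑ i, ∑ j, L i j * y j * pd i f y with hh
  have hco : ∀ (y : Vec n) (j : Fin (n + 1)), AnalyticAt ℂ (fun z : Vec n => z j) y := fun y j =>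
    (ContinuousLinearMap.proj (R := ℂ) (φ := fun _ : Fin (n + 1) => ℂ) j).analyticAt y
  have hterm : ∀ y ∈ Cone n, ∀ i j, AnalyticAt ℂ (fun y : Vec n => L i j * y j * pd i f y) y :=
    fun y hy i j => (analyticAt_const.mul (hco y j)).mul (an_dd i (an_fm hf hy))
  have hsum : ∀ y ∈ Cone n, AnalyticAt ℂ (fun y : Vec n => ∑ i, ∑ j, L i j * y j * pd i f y) y :=
    fun y hy => Finset.analyticAt_fun_sum _ fun i _ => Finset.analyticAt_fun_sum _ fun j _ =>
      hterm y hy i j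
  have hha : ∀ y ∈ Cone n, AnalyticAt ℂ h y := fun y hy => (an_fm hf' hy).sub (hsum y hy)
  have hval : ∀ y, h y = f' y - fderiv ℂ f y (L *ᵥ y) := by
    intro y
    have h1 : fderiv ℂ f y (L *ᵥ y) = ∑ i, ∑ j, L i j * y j * pd i f y := by
      rw [fderiv_eq_sum]
      refine Finset.sum_congr rfl fun i _ => ?_
      rw [Matrix.mulVec, dotProduct, Finset.sum_mul]
    rw [hh, h1]
  have hb := base_mem n
  have hT : Tay (base n) h = Dc D (Tay (base n) f) := by
    have h1 : Tay (base n) (fun y : Vec n => ∑ i, ∑ j, L i j * y j * pd i f y) =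
        ∑ i, ∑ j, C (L i j) * (C (base n j) + MvPowerSeries.X j) *
          pderiv ℂ i (Tay (base n) f) := by
      rw [Tay_sum Finset.univ (fun i (y : Vec n) => ∑ j, L i j * y j * pd i f y) fun i _ =>
        Finset.analyticAt_fun_sum _ fun j _ => hterm _ hb i j]
      refine Finset.sum_congr rfl fun i _ => ?_
      rw [Tay_sum Finset.univ (fun j (y : Vec n) => L i j * y j * pd i f y) fun j _ =>
        hterm _ hb i j]
      refine Finset.sum_congr rfl fun j _ => ?_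
      have a1 : AnalyticAt ℂ (fun y : Vec n => L i j * y j) (base n) :=
        analyticAt_const.mul (hco _ j)
      have a2 : AnalyticAt ℂ (fun _ : Vec n => L i j) (base n) := analyticAt_const
      have e1 := Tay_mul a1 (an_dd i (an_fm hf hb))
      have e2 := Tay_mul a2 (hco (base n) j)
      rw [Tay_const, Tay_coord] at e2
      rw [e2, Tay_pd i (an_fm hf hb)] at e1
      exact e1
    rw [hh, Tay_sub (an_fm hf' hb) (hsum _ hb), h1, hs, add_sub_cancel_right]
  have hline : ∀ x ∈ Metric.ball (0 : ℂ) 1, base n + x • e₁ i₀ ∈ Cone n := fun x hx =>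
    (mem_line i₀ x).2 (mem_ball_zero_iff.1 hx)
  have hlU : ∀ x : ℂ, base n + x • e₁ i₀ ∈ Pl (base n) (e₁ i₀) := fun x =>
    Submodule.add_mem _ (left_mem _ _) (Submodule.smul_mem _ _ (right_mem _ _))
  have hiter : ∀ l : ℕ, iteratedDeriv l (fun x : ℂ => h (base n + x • e₁ i₀)) 0 = 0 := by
    intro l
    rw [iter_tay i₀.castSucc l (hha _ hb), hT, coeff_Dc]
    have h1 := iter_tay i₀.castSucc l (an_fm hf hb)
    have h2 : iteratedDeriv l (fun x : ℂ => f (base n + x • e₁ i₀)) 0 = 0 := by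
      have h3 : (fun x : ℂ => f (base n + x • e₁ i₀)) =ᶠ[𝓝 0] fun _ => 0 := by
        filter_upwards [Metric.isOpen_ball.mem_nhds (Metric.mem_ball_self one_pos : (0 : ℂ) ∈
          Metric.ball 0 1)] with x hx using hU _ (hline x hx) (hlU x)
      rw [h3.iteratedDeriv_eq]
      simp
    rw [h2] at h1
    have h4 : coeff (Finsupp.single i₀.castSucc l) (Tay (base n) f) = 0 :=
      (mul_eq_zero.1 h1.symm).resolve_left (by exact_mod_cast l.factorial_ne_zero)
    rw [h4, map_zero, mul_zero]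
  have hdisc : ∀ x ∈ Metric.ball (0 : ℂ) 1, h (base n + x • e₁ i₀) = 0 := by
    intro x hx
    have hd : DifferentiableOn ℂ (fun x : ℂ => h (base n + x • e₁ i₀)) (Metric.ball 0 1) := by
      intro z hz
      have h1 : DifferentiableAt ℂ (fun x : ℂ => base n + x • e₁ i₀) z := by fun_prop
      exact ((hha _ (hline z hz)).differentiableAt.comp z h1).differentiableWithinAt
    have h1 := Complex.taylorSeries_eq_on_ball' (c := 0) (r := 1) (f := fun x : ℂ => h (base n + x • e₁ i₀))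
      (by simpa using hx) (by simpa using hd)
    rw [← h1]
    simp [hiter]
  obtain ⟨c, hc, x, hx, rfl⟩ := exists_disc i₀ hv hvU
  have h1 := hdisc x hx
  rw [hval, sub_eq_zero] at h1
  rw [hf'.hom c hc _ (hline x hx), h1, Matrix.mulVec_smul, fderiv_smul_form hf (hline x hx) hc]

/-- The action of an element as a continuous linear equivalence. -/
noncomputable def actE (g : SUGroup n) : Vec n ≃L[ℂ] Vec n :=
  ContinuousLinearEquiv.equivOfInverse (LinearMap.toContinuousLinearMap (g.toMatrix.mulVecLin))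
    (LinearMap.toContinuousLinearMap ((g⁻¹).toMatrix.mulVecLin))
    (fun v => by
      change act g⁻¹ (act g v) = v
      rw [← act_mul, inv_mul_cancel, act_one])
    (fun v => by
      change act g (act g⁻¹ v) = v
      rw [← act_mul, mul_inv_cancel, act_one])

theorem actE_apply (g : SUGroup n) (v : Vec n) : actE g v = act g v := rfl

theorem li (i₀ : Fin n) : LinearIndependent ℂ ![base n, e₁ i₀] := by
  rw [LinearIndependent.pair_iff]
  intro s t h
  have h1 := congrFun h (Fin.last n)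
  have h2 := congrFun h i₀.castSucc
  simp [base, (Fin.castSucc_lt_last i₀).ne, (Fin.castSucc_lt_last i₀).ne'] at h1 h2
  exact ⟨h1, h2⟩

/-- **(g)** The matrix of the lift preserves the plane. -/
theorem L_stable (i₀ : Fin n) {D : Derivation ℤ ℂ ℂ} {E : (Vec n → ℂ) → Vec n → ℂ}
    {L : Mat (n + 1)}
    (hstar : ∀ l, 0 < l → ∀ f, Fm Γ (fun _ => 1) l f → Fm Γ (fun _ => 1) l (E f) ∧
      Tay (base n) (E f) = Dc D (Tay (base n) f) + ∑ i, ∑ j, C (L i j) *
        (C (base n j) + MvPowerSeries.X j) * pderiv ℂ i (Tay (base n) f))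
    (hk : 0 < k) {F : Fin (n + 1) → Vec n → ℂ} (hF : ∀ i, Fm Γ (fun _ => 1) k (F i))
    (hJ : Jac F (base n) ≠ 0)
    (hdep : ∀ a b j, ∃ d, ∃ P : MvPolynomial (Fin 3) ℂ, P ≠ 0 ∧ P.IsHomogeneous d ∧
      ∀ x ∈ Metric.ball (0 : ℂ) 1,
        MvPolynomial.eval (fun i => F (![a, b, j] i) (base n + x • e₁ i₀)) P = 0)
    {γ : SUGroup n} (hγ : γ ∈ Γ)
    (hγU : ∀ w ∈ Pl (base n) (e₁ i₀), act γ w ∈ Pl (base n) (e₁ i₀)) {p₀ p₁ : Vec n} {a b : ℂ}
    (hc : Conc γ (base n) (e₁ i₀) p₀ p₁ a b) :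
    ∀ u ∈ Pl (base n) (e₁ i₀), L *ᵥ u ∈ Pl (base n) (e₁ i₀) := by
  have hfr : ∀ᶠ x in 𝓝 (0 : ℂ), ∀ w : Vec n,
      (∀ i, fderiv ℂ (F i) (base n + x • e₁ i₀) w = 0) → w = 0 := by
    have hJc : ContinuousAt (Jac F) (base n) := by
      have h1 : ∀ a j, ContinuousAt (fun y => Mj F y a j) (base n) := fun a j =>
        (an_dd j (an_fm (hF a) (base_mem n))).continuousAt
      have h2 : ContinuousAt (fun y => Mj F y) (base n) :=
        continuousAt_pi.2 fun a => continuousAt_pi.2 fun j => h1 a j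
      exact (Continuous.matrix_det continuous_id).continuousAt.comp h2
    have hl : ContinuousAt (fun x : ℂ => base n + x • e₁ i₀) 0 := by fun_prop
    have h0 : base n + (0 : ℂ) • e₁ i₀ = base n := by rw [zero_smul, add_zero]
    have h3 : ∀ᶠ x in 𝓝 (0 : ℂ), Jac F (base n + x • e₁ i₀) ≠ 0 := by
      have h4 : Tendsto (fun x : ℂ => base n + x • e₁ i₀) (𝓝 0) (𝓝 (base n)) := by
        have := hl.tendsto
        rwa [h0] at this
      exact h4.eventually (hJc.eventually_ne hJ)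
    filter_upwards [h3] with x hx w hw
    refine Matrix.eq_zero_of_mulVec_eq_zero hx ?_
    funext a
    rw [Pi.zero_apply, ← hw a, fderiv_eq_sum, Matrix.mulVec, dotProduct]
    exact Finset.sum_congr rfl fun j _ => mul_comm _ _
  obtain ⟨d, Ψ, hΨ, O, hO, hne, hOΔ, hker⟩ := conormal (isOpen_cone n) (li i₀) (disc_eq i₀)
    (convex_ball (0 : ℂ) 1).isPreconnected (fun i => (hF i).diff) hk.ne'
    (fun i y hy c hc => (hF i).hom c hc y hy) (Metric.mem_ball_self one_pos) hfr hdep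
  set G : Fin (n + 1) → Vec n → ℂ := fun j y => MvPolynomial.eval (fun i => F i y) (Ψ j) with hG
  have hGf : ∀ j, Fm Γ (fun _ => 1) (k * d j) (G j) := fun j => by
    have := Fm.eval hF (hΨ j).2.1
    simpa using this
  have hkd : ∀ j, 0 < k * d j := fun j => Nat.mul_pos hk (hΨ j).1
  have hGU : ∀ j, ∀ v ∈ Cone n, v ∈ Pl (base n) (e₁ i₀) → G j v = 0 := by
    intro j v hv hvU
    obtain ⟨c, hc, x, hx, rfl⟩ := exists_disc i₀ hv hvU
    have h1 : G j (base n + x • e₁ i₀) = 0 := (hΨ j).2.2 x hx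
    rw [(hGf j).hom c hc _ ((mem_line i₀ x).2 (mem_ball_zero_iff.1 hx)), h1, mul_zero]
  have hOC : ∀ x ∈ O, base n + x • e₁ i₀ ∈ Cone n := fun x hx =>
    (mem_line i₀ x).2 (mem_ball_zero_iff.1 (hOΔ hx))
  have key := equiv_mod (isOpen_cone n) hO hne hOC (Ψ := G) (Ψt := fun j => E (G j))
    (fun j => (hGf j).diff) hker L.mulVecLin
    (fun j v hv hvU => star_U i₀ (hGf j) (hstar _ (hkd j) _ (hGf j)).1
      (hstar _ (hkd j) _ (hGf j)).2 (hGU j) hv hvU)
    (actE γ) (fun y hy => act_mem γ hy) hγU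
    (fun j y hy => by rw [actE_apply, (hGf j).inv γ hγ y hy, one_mul])
    (fun j y hy => by
      rw [actE_apply]
      rw [(hstar _ (hkd j) _ (hGf j)).1.inv γ hγ y hy, one_mul])
  have hp₀ : p₀ ∈ Pl (base n) (e₁ i₀) := by
    rw [← hc.span]; exact Submodule.subset_span (by simp)
  have hp₁ : p₁ ∈ Pl (base n) (e₁ i₀) := by
    rw [← hc.span]; exact Submodule.subset_span (by simp)
  refine stable_of_hyp L.mulVecLin (fun v => act γ v) key hp₀ hp₁ (fun u hu => ?_) hc.e₀ hc.e₁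
    (fun w hw => hc.mem a w hc.a_gt.ne' hw) (fun w hw => hc.mem b w hc.b_lt.ne hw)
  rw [← hc.span] at hu
  obtain ⟨s, t, h⟩ := Submodule.mem_span_pair.1 hu
  exact ⟨s, t, h.symm⟩

end FinU

end Pool.Agent.Lib.MP_5d4057_al.DR
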