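import Pool.Agent.Lib.MP_5d4057_al.DR.Loc

/-!
# DER, T2 (F8): extension of functions from a dense set; the lift near a zero of the Jacobian
-/

set_option autoImplicit false

namespace Pool.Agent.Lib.MP_5d4057_al.DR

open MvPowerSeries Filter Topology Matrix Pool.Agent.Lib.MP_5d4057_al
  Pool.Agent.Lib.MP_5d4057_al.Hyb Pool.Agent.Lib.MP_5d4057_al.HM Pool.Agent.Lib.MP_5d4057_al.QB

variable {n : ℕ} {Γ : Subgroup (SUGroup n)} {k l : ℕ} {F : Fin (n + 1) → Vec n → ℂ} {f : Vec n → ℂ}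

/-- The lift on the open set where the frame is nondegenerate. -/
noncomputable def Ef (D : Derivation ℤ ℂ ℂ) (F : Fin (n + 1) → Vec n → ℂ) (W : Vec n → Vec n)
    (f : Vec n → ℂ) (y : Vec n) : ℂ :=
  dlt D F f y + (Jac F y)⁻¹ * ∑ i, W y i * pd i f y

/-- Functions which are locally extendable from a dense set extend. -/
theorem ext_of_loc {E G : Type*} [NormedAddCommGroup E] [NormedSpace ℂ E] [NormedAddCommGroup G]
    [NormedSpace ℂ G] [CompleteSpace G] {O : Set E} (hO : IsOpen O) {A : Set E}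
    (hA : ∀ Q ∈ O, ∃ᶠ y in 𝓝 Q, y ∈ A) {h : E → G}
    (hl : ∀ Q ∈ O, ∃ g : E → G, AnalyticAt ℂ g Q ∧ ∀ᶠ y in 𝓝 Q, y ∈ A → h y = g y) :
    ∃ g : E → G, AnalyticOnNhd ℂ g O ∧ ∀ y ∈ O, y ∈ A → g y = h y := by
  choose! g hg hgh using hl
  have key : ∀ Q ∈ O, ∀ᶠ y in 𝓝 Q, g y y = g Q y := by
    intro Q hQ
    filter_upwards [(hg Q hQ).eventually_analyticAt, (hgh Q hQ).eventually_nhds,
      hO.mem_nhds hQ] with y h1 h2 hy
    by_contra hne
    have h3 : ∀ᶠ z in 𝓝 y, g y z ≠ g Q z :=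
      ((hg y hy).continuousAt.ne_iff_eventually_ne h1.continuousAt).1 hne
    obtain ⟨z, hz, hz1, hz2, hz3⟩ :=
      ((hA y hy).and_eventually (h3.and (h2.and (hgh y hy)))).exists
    exact hz1 ((hz3 hz).symm.trans (hz2 hz))
  refine ⟨fun y => g y y, fun Q hQ => ?_, fun y hy hyA => ?_⟩
  · exact (hg Q hQ).congr ((key Q hQ).mono fun y hy => hy.symm)
  · exact ((hgh y hy).self_of_nhds hyA).symm

/-- `FS` depends only on the germ. -/
theorem FS_congr {D : Derivation ℤ ℂ ℂ} {Q : Vec n} {V V' : Vec n → Vec n}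
    (h : FS D F Q V) (he : V =ᶠ[𝓝 Q] V') : FS D F Q V' := by
  have h1 : ∀ i, (fun z => V z i) =ᶠ[𝓝 Q] fun z => V' z i := fun i =>
    he.mono fun y hy => congrFun hy i
  have h2 : ∀ i l, pd l (fun z => V z i) =ᶠ[𝓝 Q] pd l (fun z => V' z i) := fun i l => by
    filter_upwards [(h1 i).fderiv (𝕜 := ℂ)] with y hy
    rw [pd, pd, hy]
  refine ⟨fun i j l => ?_, fun i => ?_⟩
  · rw [← h.1 i j l, pd, pd, ((h2 i l).fderiv (𝕜 := ℂ)).self_of_nhds]
  · rw [← he.self_of_nhds, ← h.2 i]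
    refine Finset.sum_congr rfl fun j _ => ?_
    rw [(h2 i j).self_of_nhds]

/-- The solution near a point for the global frame `F`, from a frame `F'` which is nondegenerate at
the point. -/
theorem sol_of_frame (D : Derivation ℤ ℂ ℂ) (hd : Dep Γ) (hk : 0 < k)
    (hF : ∀ i, Fm Γ (fun _ => 1) k (F i)) {k' : ℕ} (hk' : 0 < k') {F' : Fin (n + 1) → Vec n → ℂ}
    (hF' : ∀ i, Fm Γ (fun _ => 1) k' (F' i)) {Q : Vec n} (hQ : Q ∈ Cone n) (hJ' : Jac F' Q ≠ 0)
    {V : Vec n → Vec n} (hV : ∀ i, AnalyticAt ℂ (fun y => V y i) Q)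
    (hVS : ∀ᶠ y in 𝓝 Q, FS D F' y V) :
    Sol D F Q fun y => Jac F y • V y + ∑ a, dlt D F' (F a) y • Adj F a y := by
  have hA : ∀ {y : Vec n}, y ∈ Cone n → ∀ a, AnalyticAt ℂ (F a) y := fun hy a => an_form (hF a) _ hy
  have hA' : ∀ {y : Vec n}, y ∈ Cone n → ∀ a, AnalyticAt ℂ (F' a) y :=
    fun hy a => an_form (hF' a) _ hy
  constructor
  · intro i
    have h1 : (fun y => (Jac F y • V y + ∑ a, dlt D F' (F a) y • Adj F a y) i) =
        fun y => Jac F y * V y i + ∑ a, dlt D F' (F a) y * Adj F a y i := by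
      funext y
      simp [Finset.sum_apply]
    rw [h1]
    refine ((an_Jac (hA hQ)).mul (hV i)).add (Finset.analyticAt_fun_sum _ fun a _ => ?_)
    exact (dlt_form D hd hk' hk hF' (hF a) hQ hJ').1.mul (an_adj (an_Mj (hA hQ)) i a)
  · have hc : ∀ᶠ y in 𝓝 Q, y ∈ Cone n := (isOpen_cone n).mem_nhds hQ
    have hV' : ∀ᶠ y in 𝓝 Q, ∀ i, AnalyticAt ℂ (fun y => V y i) y :=
      eventually_all.2 fun i => (hV i).eventually_analyticAt
    have hJe : ∀ᶠ y in 𝓝 Q, Jac F' y ≠ 0 := (an_Jac (hA' hQ)).continuousAt.eventually_ne hJ'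
    filter_upwards [hc, hV', hJe, hVS.eventually_nhds] with y hy hVy hJy' hSy hJy
    have h1 : Flat D F' y V := flat_of_FS D hd hk' hF' hy hJy' hVy hSy
    have h2 := Flat.change D h1 hJy hJy' (hA hy) (hA' hy)
      fun a => dlt_form D hd hk' hk hF' (hF a) hy hJy'
    refine FS_congr (FS_of_flat D hd hk hF hy hJy h2) ?_
    filter_upwards [(an_Jac (hA hy)).continuousAt.eventually_ne hJy] with z hz
    rw [smul_add, smul_smul, inv_mul_cancel₀ hz, one_smul, Finset.smul_sum]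
    congr 1
    refine Finset.sum_congr rfl fun a _ => ?_
    rw [gma_xf, smul_comm]

/-- `Ef` extends over the zeros of the Jacobian. -/
theorem Ef_ext (D : Derivation ℤ ℂ ℂ) (hd : Dep Γ) (hfr : Frs Γ) (hk : 0 < k)
    (hF : ∀ i, Fm Γ (fun _ => 1) k (F i)) (hJ : ∃ v ∈ Cone n, Jac F v ≠ 0) {W : Vec n → Vec n}
    (h : ∀ Q ∈ Cone n, Sol D F Q W) (hl : 0 < l) (hf : Fm Γ (fun _ => 1) l f) {Q : Vec n}
    (hQ : Q ∈ Cone n) :
    ∃ g : Vec n → ℂ, AnalyticAt ℂ g Q ∧ ∀ᶠ y in 𝓝 Q, Jac F y ≠ 0 → Ef D F W f y = g y := by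
  obtain ⟨k', hk', F', hF', hJ'⟩ := hfr Q hQ
  obtain ⟨V, hV, hVS⟩ := exists_FS D hd hk' hF' hQ hJ'
  have hA : ∀ {y : Vec n}, y ∈ Cone n → ∀ a, AnalyticAt ℂ (F a) y := fun hy a => an_form (hF a) _ hy
  have hA' : ∀ {y : Vec n}, y ∈ Cone n → ∀ a, AnalyticAt ℂ (F' a) y :=
    fun hy a => an_form (hF' a) _ hy
  obtain ⟨L, hL⟩ := Sol.unique hF hJ hQ (sol_of_frame D hd hk hF hk' hF' hQ hJ' hV hVS) (h Q hQ)
  have hLa : ∀ i, AnalyticAt ℂ (fun y : Vec n => (L *ᵥ y) i) Q := by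
    intro i
    have h1 : (fun y : Vec n => (L *ᵥ y) i) = fun y => ∑ j, L i j * y j := rfl
    rw [h1]
    exact Finset.analyticAt_fun_sum _ fun j _ => analyticAt_const.mul
      ((ContinuousLinearMap.proj (R := ℂ) (φ := fun _ : Fin (n + 1) => ℂ) j).analyticAt Q)
  refine ⟨fun y => dlt D F' f y + ∑ i, (V y i + (L *ᵥ y) i) * pd i f y, ?_, ?_⟩
  · refine (dlt_form D hd hk' hl hF' hf hQ hJ').1.add (Finset.analyticAt_fun_sum _ fun i _ => ?_)
    exact ((hV i).add (hLa i)).mul (an_dd i (an_form hf Q hQ))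
  · have hc : ∀ᶠ y in 𝓝 Q, y ∈ Cone n := (isOpen_cone n).mem_nhds hQ
    have hJe : ∀ᶠ y in 𝓝 Q, Jac F' y ≠ 0 := (an_Jac (hA' hQ)).continuousAt.eventually_ne hJ'
    filter_upwards [hc, hJe, hL] with y hy hJy' hLy hJy
    have h1 := dlt_change (F := F) D (an_form hf y hy) hJy hJy' (hA hy) (hA' hy)
    have h2 : ∀ i, (Jac F y)⁻¹ * W y i = V y i + (L *ᵥ y) i + ∑ a, dlt D F' (F a) y * Xf F a y i := by
      intro i
      have h3 : ∀ a, Xf F a y i = (Jac F y)⁻¹ * Adj F a y i := fun a => by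
        rw [gma_xf, Pi.smul_apply, smul_eq_mul]
      simp only [h3]
      have h4 : W y i = Jac F y * V y i + ∑ a, dlt D F' (F a) y * Adj F a y i +
          Jac F y * (L *ᵥ y) i := by
        rw [hLy]
        simp [Finset.sum_apply]
      rw [h4]
      have h5 : ∑ a, dlt D F' (F a) y * ((Jac F y)⁻¹ * Adj F a y i) =
          (Jac F y)⁻¹ * ∑ a, dlt D F' (F a) y * Adj F a y i := by
        rw [Finset.mul_sum]
        exact Finset.sum_congr rfl fun a _ => by ring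
      rw [h5]
      field_simp
      ring
    rw [Ef, h1, Finset.mul_sum]
    have h6 : ∀ i, (Jac F y)⁻¹ * (W y i * pd i f y) = (V y i + (L *ᵥ y) i) * pd i f y +
        ∑ a, dlt D F' (F a) y * (Xf F a y i * pd i f y) := by
      intro i
      rw [← mul_assoc, h2 i, add_mul, Finset.sum_mul]
      congr 1
      exact Finset.sum_congr rfl fun a _ => by ring
    simp only [h6]
    rw [Finset.sum_add_distrib, Finset.sum_comm]
    simp only [← Finset.mul_sum]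
    ring

end Pool.Agent.Lib.MP_5d4057_al.DR
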