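import Pool.Agent.Lib.MP_5d4057_al.DR.CocT
import Pool.Agent.Lib.MP_5d4057_al.DR.LiftA

/-!
# DER, T2 (F8): the lift of a derivation to the forms
-/

set_option autoImplicit false

namespace Pool.Agent.Lib.MP_5d4057_al.DR

open MvPowerSeries Filter Topology Matrix Pool.Agent.Lib.MP_5d4057_al
  Pool.Agent.Lib.MP_5d4057_al.Hyb Pool.Agent.Lib.MP_5d4057_al.HM Pool.Agent.Lib.MP_5d4057_al.QB

variable {n : ℕ} {Γ : Subgroup (SUGroup n)} {k l : ℕ} {F : Fin (n + 1) → Vec n → ℂ} {f : Vec n → ℂ}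

/-- The partial derivatives of a form are homogeneous. -/
theorem pd_smul_form (hf : Fm Γ (fun _ => 1) l f) {c : ℂ} (hc : c ≠ 0) {v : Vec n}
    (hv : v ∈ Cone n) (i : Fin (n + 1)) :
    pd i f (c • v) = (c ^ (l + 1))⁻¹ * pd i f v := by
  have h1 : (fun y : Vec n => f (c • y)) =ᶠ[𝓝 v] fun y => (c ^ l)⁻¹ * f y := by
    filter_upwards [(isOpen_cone n).mem_nhds hv] with y hy
    exact hf.hom c hc y hy
  have hd : DifferentiableAt ℂ f (c • v) :=
    (an_form hf _ (smul_mem_cone hc hv)).differentiableAt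
  have hd' : DifferentiableAt ℂ f v := (an_form hf _ hv).differentiableAt
  have h2 : HasFDerivAt (fun y : Vec n => f (c • y))
      ((fderiv ℂ f (c • v)).comp (c • ContinuousLinearMap.id ℂ (Vec n))) v :=
    hd.hasFDerivAt.comp v ((hasFDerivAt_id v).const_smul c)
  have h3 : HasFDerivAt (fun y => (c ^ l)⁻¹ * f y) ((c ^ l)⁻¹ • fderiv ℂ f v) v :=
    hd'.hasFDerivAt.const_mul _
  have h4 := h1.fderiv_eq (𝕜 := ℂ)
  rw [h2.fderiv, h3.fderiv] at h4
  have h5 : c * pd i f (c • v) = (c ^ l)⁻¹ * pd i f v := by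
    have h6 := congrArg (fun φ : Vec n →L[ℂ] ℂ => φ (Pi.single i 1)) h4
    simpa [pd] using h6
  rw [pow_succ, mul_inv, mul_assoc, mul_left_comm, ← h5, ← mul_assoc, inv_mul_cancel₀ hc, one_mul]

/-- Continuous functions which agree where the Jacobian does not vanish are equal. -/
theorem eq_of_dense (hF : ∀ i, Fm Γ (fun _ => 1) k (F i)) (hJ : ∃ v ∈ Cone n, Jac F v ≠ 0)
    {a b : Vec n → ℂ} {v : Vec n} (hv : v ∈ Cone n) (ha : ContinuousAt a v)
    (hb : ContinuousAt b v) (h : ∀ y ∈ Cone n, Jac F y ≠ 0 → a y = b y) : a v = b v := by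
  by_contra hne
  have h1 : ∀ᶠ y in 𝓝 v, a y ≠ b y := (ha.ne_iff_eventually_ne hb).1 hne
  obtain ⟨y, hy, hy1, hy2⟩ := ((Jac_ne hF hJ hv).and_eventually
    (h1.and ((isOpen_cone n).mem_nhds hv))).exists
  exact hy1 (h y hy2 hy)

/-- The extension of `Ef` is a form. -/
theorem exists_form_ext (D : Derivation ℤ ℂ ℂ) (hd : Dep Γ) (hfr : Frs Γ) (hk : 0 < k)
    (hF : ∀ i, Fm Γ (fun _ => 1) k (F i)) (hJ : ∃ v ∈ Cone n, Jac F v ≠ 0) {W : Vec n → Vec n}
    (h : ∀ Q ∈ Cone n, Sol D F Q W)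
    (hW : ∀ c : ℂ, c ≠ 0 → ∀ v ∈ Cone n, W (c • v) = (c * (c ^ ((n + 1) * (k + 1)))⁻¹) • W v)
    (hW' : ∀ γ ∈ Γ, ∀ v ∈ Cone n, W (HM.act γ v) = HM.act γ (W v))
    (hl : 0 < l) (hf : Fm Γ (fun _ => 1) l f) :
    ∃ g : Vec n → ℂ, Fm Γ (fun _ => 1) l g ∧ ∀ y ∈ Cone n, Jac F y ≠ 0 → g y = Ef D F W f y := by
  obtain ⟨g, hg, hgE⟩ := ext_of_loc (isOpen_cone n) (A := {y | Jac F y ≠ 0})
    (fun Q hQ => Jac_ne hF hJ hQ) (h := Ef D F W f)
    (fun Q hQ => Ef_ext D hd hfr hk hF hJ h hl hf hQ)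
  refine ⟨g, ⟨fun y hy => (hg y hy).differentiableAt.differentiableWithinAt, ?_, ?_⟩, hgE⟩
  · intro c hc v hv
    have hcm : ∀ y ∈ Cone n, c • y ∈ Cone n := fun y hy => smul_mem_cone hc hy
    refine eq_of_dense hF hJ (a := fun y => g (c • y)) (b := fun y => (c ^ l)⁻¹ * g y) hv ?_ ?_ ?_
    · exact ContinuousAt.comp (g := g) (hg _ (hcm v hv)).continuousAt
        (continuous_const_smul c).continuousAt
    · exact continuousAt_const.mul (hg v hv).continuousAt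
    · intro y hy hJy
      have hJc : Jac F (c • y) = (c ^ ((n + 1) * (k + 1)))⁻¹ * Jac F y :=
        (form_Jac hF).hom c hc y hy
      have hJc' : Jac F (c • y) ≠ 0 := by
        rw [hJc]
        exact mul_ne_zero (inv_ne_zero (pow_ne_zero _ hc)) hJy
      show g (c • y) = (c ^ l)⁻¹ * g y
      rw [hgE _ (hcm y hy) hJc', hgE y hy hJy, Ef, Ef]
      have hD1 : dlt D F f (c • y) = (c ^ l)⁻¹ * dlt D F f y := by
        have h1 := dlt_smul D hk hF (m := -(l : ℤ)) (f := f) hc hy hJy (an_form hf y hy)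
          (by rw [euler_pd hf hy]; push_cast; ring)
          (by
            filter_upwards [(isOpen_cone n).mem_nhds hy] with z hz
            rw [hf.hom c hc z hz, _root_.zpow_neg, _root_.zpow_natCast])
        rwa [_root_.zpow_neg, _root_.zpow_natCast] at h1
      rw [hD1, mul_add, hJc, hW c hc y hy]
      congr 1
      rw [Finset.mul_sum, Finset.mul_sum, Finset.mul_sum]
      refine Finset.sum_congr rfl fun i _ => ?_
      rw [pd_smul_form hf hc hy, Pi.smul_apply, smul_eq_mul]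
      have hcK : c ^ ((n + 1) * (k + 1)) ≠ 0 := pow_ne_zero _ hc
      field_simp
      ring
  · intro γ hγ v hv
    rw [one_mul]
    have hcm : ∀ y ∈ Cone n, HM.act γ y ∈ Cone n := fun y hy => act_mem γ hy
    have hca : Continuous fun y : Vec n => HM.act γ y :=
      (LinearMap.toContinuousLinearMap (Matrix.mulVecLin γ.toMatrix)).continuous
    refine eq_of_dense hF hJ (a := fun y => g (HM.act γ y)) (b := g) hv ?_ ?_ ?_
    · exact ContinuousAt.comp (g := g) (hg _ (hcm v hv)).continuousAt hca.continuousAt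
    · exact (hg v hv).continuousAt
    · intro y hy hJy
      have hJa := Jac_act hF hγ hy
      have hJa' : Jac F (HM.act γ y) ≠ 0 := by rwa [hJa]
      have hfi : ∀ᶠ z in 𝓝 y, f (HM.act γ z) = f z := by
        filter_upwards [(isOpen_cone n).mem_nhds hy] with z hz
        rw [hf.inv γ hγ z hz, one_mul]
      have hfa : AnalyticAt ℂ f (HM.act γ y) := an_form hf _ (hcm y hy)
      show g (HM.act γ y) = g y
      rw [hgE _ (hcm y hy) hJa', hgE y hy hJy, Ef, Ef, hJa, dlt_act D hF hγ hy hJy hfa hfi,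
        hW' γ hγ y hy]
      congr 2
      have h1 : ∀ p, pd p f y = ∑ i, pd i f (HM.act γ y) * γ.toMatrix i p := fun p => by
        rw [← pd_act γ p hfa.differentiableAt]
        refine pd_congr_at p ?_
        filter_upwards [hfi] with z hz
        exact hz.symm
      simp only [h1, Finset.mul_sum]
      rw [Finset.sum_comm]
      refine Finset.sum_congr rfl fun i _ => ?_
      have h2 : HM.act γ (W y) i = ∑ p, γ.toMatrix i p * W y p := rfl
      rw [h2, Finset.sum_mul]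
      refine Finset.sum_congr rfl fun p _ => ?_
      ring

/-- **THEOREM T2.** The lift of a derivation, with its Taylor series at a point `z₀` whose
coordinates are killed by `D`. -/
theorem lift (D : Derivation ℤ ℂ ℂ) (hd : Dep Γ) (hfr : Frs Γ) (hH : H1Z Γ)
    (hD : ∀ γ ∈ Γ, ∀ i j, D (γ.toMatrix i j) = 0) {z₀ : Vec n} (hz : z₀ ∈ Cone n)
    (hDz : ∀ i, D (z₀ i) = 0) :
    ∃ (E : (Vec n → ℂ) → (Vec n → ℂ)) (L : Mat (n + 1)), ∀ l, 0 < l → ∀ f,
      Fm Γ (fun _ => 1) l f → Fm Γ (fun _ => 1) l (E f) ∧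
        Tay z₀ (E f) = Dc D (Tay z₀ f) +
          ∑ i, ∑ j, C (L i j) * (C (z₀ j) + MvPowerSeries.X j) * pderiv ℂ i (Tay z₀ f) := by
  classical
  obtain ⟨k, hk, F, hF, hJz⟩ := hfr z₀ hz
  have hJ : ∃ v ∈ Cone n, Jac F v ≠ 0 := ⟨z₀, hz, hJz⟩
  obtain ⟨W, hS, hW, hW'⟩ := exists_equiv D hd hfr hH hD hk hF hJ
  have hA : ∀ y ∈ Cone n, ∀ a, AnalyticAt ℂ (F a) y := fun y hy a => an_form (hF a) y hy
  have hJan : AnalyticAt ℂ (Jac F) z₀ := an_Jac (hA z₀ hz)
  have hJev : ∀ᶠ y in 𝓝 z₀, Jac F y ≠ 0 := hJan.continuousAt.eventually_ne hJz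
  -- the field `V = J⁻¹ W`
  have hVan : ∀ i, AnalyticAt ℂ (fun y => ((Jac F y)⁻¹ • W y) i) z₀ := fun i =>
    (hJan.inv hJz).mul ((hS z₀ hz).1 i)
  have hVFS : ∀ᶠ y in 𝓝 z₀, FS D F y fun z => (Jac F z)⁻¹ • W z := by
    filter_upwards [(hS z₀ hz).2, hJev] with y hy hy'
    exact hy hy'
  obtain ⟨-, L, hL⟩ := flat_of_FS D hd hk hF hz hJz hVan hVFS
  have hex : ∀ f : Vec n → ℂ, ∃ g : Vec n → ℂ, ∀ l, 0 < l → Fm Γ (fun _ => 1) l f →
      Fm Γ (fun _ => 1) l g ∧ ∀ y ∈ Cone n, Jac F y ≠ 0 → g y = Ef D F W f y := by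
    intro f
    by_cases hf : ∃ l, 0 < l ∧ Fm Γ (fun _ => 1) l f
    · obtain ⟨l₀, hl₀, hf₀⟩ := hf
      obtain ⟨g, hg, hgE⟩ := exists_form_ext D hd hfr hk hF hJ hS hW hW' hl₀ hf₀
      refine ⟨g, fun l hl hfl => ⟨?_, hgE⟩⟩
      obtain ⟨g', hg', hgE'⟩ := exists_form_ext D hd hfr hk hF hJ hS hW hW' hl hfl
      have he : ∀ v ∈ Cone n, g v = g' v := fun v hv =>
        eq_of_dense hF hJ hv (an_form hg v hv).continuousAt (an_form hg' v hv).continuousAt
          fun y hy hJy => (hgE y hy hJy).trans (hgE' y hy hJy).symm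
      refine ⟨hg.diff, fun c hc v hv => ?_, fun γ hγ v hv => ?_⟩
      · rw [he _ (smul_mem_cone hc hv), he v hv, hg'.hom c hc v hv]
      · rw [he _ (act_mem γ hv), he v hv, hg'.inv γ hγ v hv]
    · exact ⟨0, fun l hl hfl => absurd ⟨l, hl, hfl⟩ hf⟩
  choose E hE using hex
  refine ⟨E, L, fun l hl f hf => ⟨(hE f l hl hf).1, ?_⟩⟩
  have hgE := (hE f l hl hf).2
  have hfan : AnalyticAt ℂ f z₀ := an_form hf z₀ hz
  obtain ⟨hdan, hdT⟩ := dlt_form D hd hk hl hF hf hz hJz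
  have h1 : E f =ᶠ[𝓝 z₀] fun y => dlt D F f y + ∑ i, ((Jac F y)⁻¹ • W y) i * pd i f y := by
    filter_upwards [(isOpen_cone n).mem_nhds hz, hJev] with y hy hJy
    rw [hgE y hy hJy, Ef]
    congr 1
    rw [Finset.mul_sum]
    refine Finset.sum_congr rfl fun i _ => ?_
    rw [Pi.smul_apply, smul_eq_mul, mul_assoc]
  have hsan : ∀ i, AnalyticAt ℂ (fun y => ((Jac F y)⁻¹ • W y) i * pd i f y) z₀ := fun i =>
    (hVan i).mul (an_dd i hfan)
  have h2 : Tay z₀ (fun y => dlt D F f y + ∑ i, ((Jac F y)⁻¹ • W y) i * pd i f y) =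
      Tay z₀ (dlt D F f) + ∑ i, Tay z₀ (fun y => ((Jac F y)⁻¹ • W y) i) * pderiv ℂ i (Tay z₀ f) := by
    have h3 := Tay_add (Q := z₀) (f := dlt D F f)
      (g := fun y => ∑ i, ((Jac F y)⁻¹ • W y) i * pd i f y) hdan
      (Finset.analyticAt_fun_sum _ fun i _ => hsan i)
    have h4 := Tay_sum (Q := z₀) Finset.univ
      (fun (i : Fin (n + 1)) (y : Vec n) => ((Jac F y)⁻¹ • W y) i * pd i f y)
      (fun i _ => hsan i)
    rw [h3, h4]
    congr 1
    refine Finset.sum_congr rfl fun i _ => ?_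
    have h5 := Tay_mul (Q := z₀) (f := fun y => ((Jac F y)⁻¹ • W y) i) (g := pd i f) (hVan i)
      (an_dd i hfan)
    rw [h5, Tay_pd i hfan]
  rw [Tay_congr h1, h2, hdT, Kd_apply, Db_of_zero D hDz, sub_add_eq_add_sub, add_sub_assoc,
    ← Finset.sum_sub_distrib]
  congr 1
  refine Finset.sum_congr rfl fun i _ => ?_
  rw [hL i, add_mul, add_sub_cancel_left, Finset.sum_mul]

end Pool.Agent.Lib.MP_5d4057_al.DR
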