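import Mathlib

/-!
# DER: algebraic frames, part A

A group of complex matrices which spans all matrices and whose traces are algebraic is conjugate to a group of matrices
with algebraic entries; if it preserves a hermitian form, the form has algebraic entries too (after a real scaling).
-/

set_option autoImplicit false

namespace Pool.Agent.Lib.MP_5d4057_al.DR

open Matrix

open scoped ComplexOrder

/-- The field of algebraic numbers. -/
noncomputable abbrev QB : IntermediateField ℚ ℂ := algebraicClosure ℚ ℂ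

theorem mem_QB {x : ℂ} : x ∈ QB ↔ IsAlgebraic ℚ x := mem_algebraicClosure_iff

theorem qb_alg (x : QB) : IsAlgebraic ℚ (x : ℂ) := mem_QB.1 x.2

theorem alg_sum {ι : Type} (s : Finset ι) {f : ι → ℂ} (h : ∀ i ∈ s, IsAlgebraic ℚ (f i)) :
    IsAlgebraic ℚ (∑ i ∈ s, f i) :=
  mem_QB.1 (sum_mem fun i hi => mem_QB.2 (h i hi))

theorem alg_star {x : ℂ} (h : IsAlgebraic ℚ x) : IsAlgebraic ℚ (star x) := by
  have h1 := h.algHom ((Complex.conjAe.toAlgHom).restrictScalars ℚ)
  exact h1

/-- The entries of the matrix are algebraic numbers. -/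
def AlgM {k l : ℕ} (A : Matrix (Fin k) (Fin l) ℂ) : Prop := ∀ i j, IsAlgebraic ℚ (A i j)

theorem AlgM.map {k l : ℕ} (A : Matrix (Fin k) (Fin l) QB) : AlgM (A.map (algebraMap QB ℂ)) :=
  fun i j => qb_alg (A i j)

theorem AlgM.exists_map {k l : ℕ} {A : Matrix (Fin k) (Fin l) ℂ} (h : AlgM A) :
    ∃ B : Matrix (Fin k) (Fin l) QB, A = B.map (algebraMap QB ℂ) :=
  ⟨fun i j => ⟨A i j, mem_QB.2 (h i j)⟩, rfl⟩

theorem AlgM.mul {k l m : ℕ} {A : Matrix (Fin k) (Fin l) ℂ} {B : Matrix (Fin l) (Fin m) ℂ}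
    (hA : AlgM A) (hB : AlgM B) : AlgM (A * B) := fun i j => by
  rw [Matrix.mul_apply]
  exact alg_sum _ fun x _ => (hA i x).mul (hB x j)

theorem AlgM.add {k l : ℕ} {A B : Matrix (Fin k) (Fin l) ℂ} (hA : AlgM A) (hB : AlgM B) :
    AlgM (A + B) := fun i j => (hA i j).add (hB i j)

theorem AlgM.smul {k l : ℕ} {A : Matrix (Fin k) (Fin l) ℂ} (hA : AlgM A) {c : ℂ}
    (hc : IsAlgebraic ℚ c) : AlgM (c • A) := fun i j => hc.mul (hA i j)

theorem AlgM.star {k l : ℕ} {A : Matrix (Fin k) (Fin l) ℂ} (hA : AlgM A) : AlgM Aᴴ :=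
  fun i j => alg_star (hA j i)

theorem AlgM.zero {k l : ℕ} : AlgM (0 : Matrix (Fin k) (Fin l) ℂ) := fun _ _ => isAlgebraic_zero

theorem AlgM.one {k : ℕ} : AlgM (1 : Matrix (Fin k) (Fin k) ℂ) := fun i j => by
  rw [Matrix.one_apply]
  split_ifs
  · exact isAlgebraic_one
  · exact isAlgebraic_zero

theorem AlgM.det {k : ℕ} {A : Matrix (Fin k) (Fin k) ℂ} (hA : AlgM A) : IsAlgebraic ℚ A.det := by
  obtain ⟨B, rfl⟩ := hA.exists_map
  have h := RingHom.map_det (algebraMap QB ℂ) B
  rw [RingHom.mapMatrix_apply] at h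
  rw [← h]
  exact qb_alg _

theorem AlgM.adjugate {k : ℕ} {A : Matrix (Fin k) (Fin k) ℂ} (hA : AlgM A) : AlgM A.adjugate := by
  obtain ⟨B, rfl⟩ := hA.exists_map
  have h := RingHom.map_adjugate (algebraMap QB ℂ) B
  rw [RingHom.mapMatrix_apply, RingHom.mapMatrix_apply] at h
  rw [← h]
  exact AlgM.map _

theorem AlgM.inv {k : ℕ} {A : Matrix (Fin k) (Fin k) ℂ} (hA : AlgM A) : AlgM A⁻¹ := by
  rw [Matrix.inv_def, Ring.inverse_eq_inv']
  exact hA.adjugate.smul hA.det.inv

theorem AlgM.mulVec {k l : ℕ} {A : Matrix (Fin k) (Fin l) ℂ} (hA : AlgM A) {v : Fin l → ℂ}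
    (hv : ∀ i, IsAlgebraic ℚ (v i)) (i : Fin k) : IsAlgebraic ℚ ((A *ᵥ v) i) := by
  rw [Matrix.mulVec, dotProduct]
  exact alg_sum _ fun x _ => (hA i x).mul (hv x)

variable {N : ℕ}

private theorem qa_eig {M : Matrix (Fin N) (Fin N) ℂ} (hM : IsIntegral QB M) {v : Fin N → ℂ}
    (hv : v ≠ 0) {c : ℂ} (h : M *ᵥ v = c • v) : IsAlgebraic ℚ c := by
  obtain ⟨p, hp, hp0⟩ := hM
  have key : ∀ r : Polynomial QB, (Polynomial.aeval M r) *ᵥ v = (Polynomial.aeval c r) • v := by
    intro r
    induction r using Polynomial.induction_on with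
    | C a =>
      rw [Polynomial.aeval_C, Polynomial.aeval_C, Algebra.algebraMap_eq_smul_one, smul_mulVec,
        one_mulVec]
      rfl
    | add r s hr hs => rw [map_add, map_add, add_mulVec, hr, hs, add_smul]
    | monomial k a hk =>
      rw [pow_succ, ← mul_assoc, map_mul (Polynomial.aeval M), map_mul (Polynomial.aeval c),
        Polynomial.aeval_X, Polynomial.aeval_X, ← mulVec_mulVec, h, mulVec_smul, hk, smul_smul,
        mul_comm]
  have h1 := key p
  have h2 : Polynomial.aeval M p = 0 := hp0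
  rw [h2, zero_mulVec] at h1
  have h3 : Polynomial.aeval c p = 0 := by
    rcases smul_eq_zero.1 h1.symm with h | h
    · exact h
    · exact absurd h hv
  have h4 : IsAlgebraic QB c := ⟨p, hp.ne_zero, h3⟩
  have h5 : Algebra.IsAlgebraic ℚ QB := algebraicClosure.isAlgebraic ℚ ℂ
  exact h4.restrictScalars ℚ

private theorem qa_min (hN : N ≠ 0) (S : Subalgebra QB (Matrix (Fin N) (Fin N) ℂ))
    (hi : ∀ M ∈ S, IsIntegral QB M) : ∃ a ∈ S, a ≠ 0 ∧
      ∀ x ∈ S, ∃ c : ℂ, IsAlgebraic ℚ c ∧ a * x * a = c • a := by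
  classical
  have : NeZero N := ⟨hN⟩
  have hex : ∃ r : ℕ, ∃ a ∈ S, a ≠ 0 ∧ a.rank = r := ⟨_, 1, S.one_mem, one_ne_zero, rfl⟩
  obtain ⟨a, haS, ha0, har⟩ := Nat.find_spec hex
  refine ⟨a, haS, ha0, fun x hx => ?_⟩
  set V : Submodule ℂ (Fin N → ℂ) := LinearMap.range a.mulVecLin with hV
  have hVn : Nontrivial V := by
    rw [Submodule.nontrivial_iff_ne_bot]
    intro h
    rw [hV, LinearMap.range_eq_bot] at h
    refine ha0 ?_
    ext i j
    have h1 := congrFun (LinearMap.congr_fun h (Pi.single j 1)) i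
    simpa using h1
  let L : V →ₗ[ℂ] V := (((a * x).mulVecLin).comp V.subtype).codRestrict V fun w =>
    ⟨x *ᵥ (w : Fin N → ℂ), by simp [mulVec_mulVec]⟩
  obtain ⟨c, hc⟩ := Module.End.exists_eigenvalue L
  obtain ⟨w, hw⟩ := hc.exists_hasEigenvector
  have hw1 : (a * x) *ᵥ (w : Fin N → ℂ) = c • (w : Fin N → ℂ) := by
    have h1 := congrArg (fun z : V => (z : Fin N → ℂ)) hw.apply_eq_smul
    exact h1
  have hw0 : (w : Fin N → ℂ) ≠ 0 := fun h => hw.2 (Subtype.ext h)
  have hcal : IsAlgebraic ℚ c := qa_eig (hi _ (S.mul_mem haS hx)) hw0 hw1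
  refine ⟨c, hcal, ?_⟩
  by_contra hne
  set b : Matrix (Fin N) (Fin N) ℂ := a * x * a - c • a with hb
  have hb0 : b ≠ 0 := fun h => hne (sub_eq_zero.1 h)
  have hbS : b ∈ S := by
    refine S.sub_mem (S.mul_mem (S.mul_mem haS hx) haS) ?_
    have h1 := S.smul_mem haS (⟨c, mem_QB.2 hcal⟩ : QB)
    exact h1
  have hle : Nat.find hex ≤ b.rank := Nat.find_min' hex ⟨b, hbS, hb0, rfl⟩
  -- the rank of `b` is smaller
  let L' : V →ₗ[ℂ] (Fin N → ℂ) := (((a * x) - c • (1 : Matrix (Fin N) (Fin N) ℂ)).mulVecLin).comp V.subtype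
  have hker : 0 < Module.finrank ℂ (LinearMap.ker L') := by
    refine Nat.pos_of_ne_zero fun h0 => ?_
    have h := Submodule.finrank_eq_zero.1 h0
    have h1 : w ∈ LinearMap.ker L' := by
      rw [LinearMap.mem_ker]
      change ((a * x) - c • (1 : Matrix (Fin N) (Fin N) ℂ)) *ᵥ (w : Fin N → ℂ) = 0
      rw [sub_mulVec, hw1, smul_mulVec, one_mulVec, sub_self]
    rw [h] at h1
    exact hw.2 ((Submodule.mem_bot ℂ).1 h1)
  have hrange : LinearMap.range L' = LinearMap.range b.mulVecLin := by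
    ext z
    constructor
    · rintro ⟨⟨_, y, rfl⟩, rfl⟩
      refine ⟨y, ?_⟩
      change b *ᵥ y = ((a * x) - c • (1 : Matrix (Fin N) (Fin N) ℂ)) *ᵥ (a *ᵥ y)
      rw [mulVec_mulVec, hb]
      congr 1
      noncomm_ring
    · rintro ⟨y, rfl⟩
      refine ⟨⟨a *ᵥ y, y, rfl⟩, ?_⟩
      change ((a * x) - c • (1 : Matrix (Fin N) (Fin N) ℂ)) *ᵥ (a *ᵥ y) = b *ᵥ y
      rw [mulVec_mulVec, hb]
      congr 1
      noncomm_ring
  have h1 := LinearMap.finrank_range_add_finrank_ker L'
  rw [hrange] at h1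
  have h2 : b.rank = Module.finrank ℂ (LinearMap.range b.mulVecLin) := rfl
  have h3 : a.rank = Module.finrank ℂ V := rfl
  omega

private theorem qa_rank_one {a : Matrix (Fin N) (Fin N) ℂ} (ha : a ≠ 0)
    (h : ∀ M : Matrix (Fin N) (Fin N) ℂ, ∃ c : ℂ, a * M * a = c • a) :
    ∃ u w : Fin N → ℂ, u ≠ 0 ∧ w ≠ 0 ∧ a = vecMulVec u w := by
  classical
  obtain ⟨v₀, hv₀⟩ : ∃ v₀, a *ᵥ v₀ ≠ 0 := by
    by_contra hcon
    push Not at hcon
    refine ha ?_
    ext i j
    have h1 := congrFun (hcon (Pi.single j 1)) i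
    simpa using h1
  set u := a *ᵥ v₀ with hu
  obtain ⟨i₀, hi₀⟩ : ∃ i, u i ≠ 0 := by
    by_contra hcon
    push Not at hcon
    exact hv₀ (funext hcon)
  have key : ∀ v : Fin N → ℂ, ∃ c : ℂ, a *ᵥ v = c • u := by
    intro v
    obtain ⟨c, hc⟩ := h (vecMulVec v (Pi.single i₀ (u i₀)⁻¹))
    refine ⟨c, ?_⟩
    have h1 := congrArg (fun M => M *ᵥ v₀) hc
    simp only [← mulVec_mulVec, smul_mulVec] at h1
    rw [← hu] at h1
    rw [← h1]
    congr 1
    ext i
    simp only [mulVec, dotProduct, vecMulVec_apply, Pi.single_apply, mul_ite, mul_zero, ite_mul,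
      zero_mul, Finset.sum_ite_eq', Finset.mem_univ, if_true]
    rw [mul_assoc, inv_mul_cancel₀ hi₀, mul_one]
  choose w hw using fun j : Fin N => key (Pi.single j 1)
  have haw : a = vecMulVec u w := by
    ext i j
    have h1 := congrFun (hw j) i
    rw [mulVec_single_one] at h1
    rw [vecMulVec_apply, mul_comm]
    exact h1
  refine ⟨u, w, hv₀, ?_, haw⟩
  intro h0
  refine ha ?_
  rw [haw, h0]
  ext i j
  simp [vecMulVec_apply]

section group

variable {G : Type} [Group G] (σ : G →* Matrix (Fin N) (Fin N) ℂ)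

private theorem qa_adj : Subalgebra.toSubmodule (Algebra.adjoin QB (Set.range σ)) =
    Submodule.span QB (Set.range σ) := by
  refine Algebra.adjoin_eq_span_of_subset QB ?_
  have h1 : Submonoid.closure (Set.range σ) = MonoidHom.mrange σ := by
    rw [← MonoidHom.coe_mrange, Submonoid.closure_eq]
  rw [h1]
  exact Submodule.subset_span

private theorem qa_tr (htr : ∀ g, IsAlgebraic ℚ (σ g).trace) {M : Matrix (Fin N) (Fin N) ℂ}
    (hM : M ∈ Algebra.adjoin QB (Set.range σ)) : IsAlgebraic ℚ M.trace := by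
  have h1 : M ∈ Submodule.span QB (Set.range σ) := by
    rw [← qa_adj]
    exact hM
  induction h1 using Submodule.span_induction with
  | mem x hx =>
    obtain ⟨g, rfl⟩ := hx
    exact htr g
  | zero => rw [trace_zero]; exact isAlgebraic_zero
  | add x y hx hy ihx ihy =>
    rw [trace_add]
    rw [← qa_adj] at hx hy
    exact (ihx hx).add (ihy hy)
  | smul c x hx ih =>
    rw [← qa_adj] at hx
    have h2 : (c • x).trace = (c : ℂ) * x.trace := by
      rw [trace_smul]
      rfl
    rw [h2]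
    exact (qb_alg c).mul (ih hx)

private theorem qa_int (hs : Submodule.span ℂ (Set.range σ) = ⊤)
    (htr : ∀ g, IsAlgebraic ℚ (σ g).trace) {M : Matrix (Fin N) (Fin N) ℂ}
    (hM : M ∈ Algebra.adjoin QB (Set.range σ)) : IsIntegral QB M := by
  classical
  set S := Algebra.adjoin QB (Set.range σ) with hS
  obtain ⟨f, hf, hfs, -⟩ := Submodule.exists_fun_fin_finrank_span_eq ℂ (Set.range σ)
  have hfS : ∀ i, f i ∈ S := fun i => Algebra.subset_adjoin (hf i)
  let φ : S →ₗ[QB] (Fin (Module.finrank ℂ (Submodule.span ℂ (Set.range σ))) → QB) :=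
    { toFun := fun x i => ⟨((x : Matrix (Fin N) (Fin N) ℂ) * f i).trace,
        mem_QB.2 (qa_tr σ htr (S.mul_mem x.2 (hfS i)))⟩
      map_add' := fun x y => by
        ext i
        change ((x + y : Matrix (Fin N) (Fin N) ℂ) * f i).trace = _
        rw [add_mul, trace_add]
        rfl
      map_smul' := fun c x => by
        ext i
        change ((c • (x : Matrix (Fin N) (Fin N) ℂ)) * f i).trace = _
        rw [smul_mul_assoc, trace_smul]
        rfl }
  have hφ : Function.Injective φ := by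
    rw [injective_iff_map_eq_zero]
    intro x hx
    have h1 : ∀ X : Matrix (Fin N) (Fin N) ℂ, ((x : Matrix (Fin N) (Fin N) ℂ) * X).trace = 0 := by
      intro X
      have hX : X ∈ Submodule.span ℂ (Set.range f) := by
        rw [hfs, hs]
        exact Submodule.mem_top
      induction hX using Submodule.span_induction with
      | mem y hy =>
        obtain ⟨i, rfl⟩ := hy
        have h2 := congrArg (fun z : QB => (z : ℂ)) (congrFun hx i)
        exact h2
      | zero => rw [mul_zero, trace_zero]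
      | add y z _ _ h2 h3 => rw [mul_add, trace_add, h2, h3, add_zero]
      | smul c y _ h2 => rw [mul_smul_comm, trace_smul, h2, smul_zero]
    have h2 := h1 ((x : Matrix (Fin N) (Fin N) ℂ)ᴴ)
    exact Subtype.ext (Matrix.trace_mul_conjTranspose_self_eq_zero_iff.1 h2)
  have hfin : Module.Finite QB S := Module.Finite.of_injective φ hφ
  have h1 : IsIntegral QB (⟨M, hM⟩ : S) := IsIntegral.of_finite QB _
  have h2 := h1.map S.val
  exact h2

/-- Descent: matrices with algebraic entries which span all complex matrices span all matrices with algebraic entries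
over the field of algebraic numbers. -/
theorem mem_span_alg {T : Set (Matrix (Fin N) (Fin N) ℂ)} (hT : ∀ M ∈ T, AlgM M)
    (hs : Submodule.span ℂ T = ⊤) {E : Matrix (Fin N) (Fin N) ℂ} (hE : AlgM E) :
    E ∈ Submodule.span QB T := by
  classical
  let Φ : Matrix (Fin N) (Fin N) QB →ₗ[QB] Matrix (Fin N) (Fin N) ℂ :=
    { toFun := fun M => M.map (algebraMap QB ℂ)
      map_add' := fun A B => by ext i j; simp
      map_smul' := fun c A => by
        ext i j
        change ((c * A i j : QB) : ℂ) = (c : ℂ) * (A i j : ℂ)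
        rfl }
  have hcomap : (Submodule.span QB T).comap Φ = ⊤ := by
    by_contra hne
    obtain ⟨f, hf0, hf⟩ := Submodule.exists_le_ker_of_lt_top _ (lt_top_iff_ne_top.2 hne)
    let F : Matrix (Fin N) (Fin N) ℂ →ₗ[ℂ] ℂ :=
      { toFun := fun M => ∑ i, ∑ j, M i j * (f (Matrix.single i j 1) : ℂ)
        map_add' := fun A B => by
          simp only [Matrix.add_apply, add_mul, Finset.sum_add_distrib]
        map_smul' := fun c A => by
          simp only [Matrix.smul_apply, smul_eq_mul, Finset.mul_sum, mul_assoc, RingHom.id_apply] }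
    have hFf : ∀ A : Matrix (Fin N) (Fin N) QB, F (Φ A) = (f A : ℂ) := by
      intro A
      have h1 : f A = ∑ i, ∑ j, A i j * f (Matrix.single i j 1) := by
        conv_lhs => rw [Matrix.matrix_eq_sum_single A]
        rw [map_sum]
        refine Finset.sum_congr rfl fun i _ => ?_
        rw [map_sum]
        refine Finset.sum_congr rfl fun j _ => ?_
        have h2 : Matrix.single i j (A i j) = A i j • Matrix.single i j (1 : QB) := by
          rw [Matrix.smul_single, smul_eq_mul, mul_one]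
        rw [h2, map_smul, smul_eq_mul]
      rw [h1]
      change ∑ i, ∑ j, ((A i j : QB) : ℂ) * (f (Matrix.single i j 1) : ℂ) = _
      push_cast
      rfl
    have hF0 : ∀ M, F M = 0 := by
      intro M
      have hM : M ∈ Submodule.span ℂ T := by rw [hs]; exact Submodule.mem_top
      induction hM using Submodule.span_induction with
      | mem x hx =>
        obtain ⟨B, rfl⟩ := (hT x hx).exists_map
        have h1 := hFf B
        have h2 : f B = 0 := by
          have h3 : B ∈ (Submodule.span QB T).comap Φ := Submodule.subset_span hx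
          exact hf h3
        rw [h2] at h1
        exact h1
      | zero => rw [map_zero]
      | add x y _ _ h1 h2 => rw [map_add, h1, h2, add_zero]
      | smul c x _ h1 => rw [map_smul, h1, smul_zero]
    refine hf0 (LinearMap.ext fun A => ?_)
    have h1 := hFf A
    rw [hF0] at h1
    exact Subtype.ext h1.symm
  obtain ⟨B, rfl⟩ := hE.exists_map
  have h1 : B ∈ (Submodule.span QB T).comap Φ := by rw [hcomap]; exact Submodule.mem_top
  exact h1

/-- Linear independent vectors out of a spanning set. -/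
private theorem qa_choose {s : Set (Fin N → ℂ)} (hs : Submodule.span ℂ s = ⊤) :
    ∃ f : Fin N → Fin N → ℂ, (∀ i, f i ∈ s) ∧ LinearIndependent ℂ f := by
  obtain ⟨f, hf, -, hli⟩ := Submodule.exists_fun_fin_finrank_span_eq ℂ s
  have hd : Module.finrank ℂ (Submodule.span ℂ s) = N := by
    rw [hs, finrank_top, Module.finrank_fin_fun]
  exact ⟨f ∘ Fin.cast hd.symm, fun i => hf _, hli.comp _ (Fin.cast_injective _)⟩

/-- A group of matrices which spans all matrices and has algebraic traces is conjugate to a group of matrices with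
algebraic entries. -/
theorem exists_conj (hs : Submodule.span ℂ (Set.range σ) = ⊤)
    (htr : ∀ g, IsAlgebraic ℚ (σ g).trace) :
    ∃ P : Matrix (Fin N) (Fin N) ℂ, P.det ≠ 0 ∧ ∀ g, AlgM (P⁻¹ * σ g * P) := by
  classical
  rcases eq_or_ne N 0 with rfl | hN
  · exact ⟨1, by simp, fun g i => i.elim0⟩
  set S := Algebra.adjoin QB (Set.range σ) with hS
  have hσS : ∀ g, σ g ∈ S := fun g => Algebra.subset_adjoin ⟨g, rfl⟩
  have hSs : Submodule.span ℂ (S : Set (Matrix (Fin N) (Fin N) ℂ)) = ⊤ := by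
    rw [eq_top_iff, ← hs]
    refine Submodule.span_mono ?_
    rintro _ ⟨g, rfl⟩
    exact hσS g
  obtain ⟨a, haS, ha0, ha⟩ := qa_min hN S fun M hM => qa_int σ hs htr hM
  have ha1 : ∀ M : Matrix (Fin N) (Fin N) ℂ, ∃ c : ℂ, a * M * a = c • a := by
    intro M
    have hM : M ∈ Submodule.span ℂ (S : Set (Matrix (Fin N) (Fin N) ℂ)) := by
      rw [hSs]
      exact Submodule.mem_top
    induction hM using Submodule.span_induction with
    | mem x hx =>
      obtain ⟨c, -, hc⟩ := ha x hx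
      exact ⟨c, hc⟩
    | zero => exact ⟨0, by simp⟩
    | add x y _ _ h1 h2 =>
      obtain ⟨c, hc⟩ := h1
      obtain ⟨d, hd⟩ := h2
      exact ⟨c + d, by rw [mul_add, add_mul, hc, hd, add_smul]⟩
    | smul t x _ h1 =>
      obtain ⟨c, hc⟩ := h1
      exact ⟨t * c, by rw [mul_smul_comm, smul_mul_assoc, hc, smul_smul]⟩
  obtain ⟨u, w, hu, hw, haw⟩ := qa_rank_one ha0 ha1
  have hpair : ∀ x ∈ S, IsAlgebraic ℚ (w ⬝ᵥ (x *ᵥ u)) := by
    intro x hx
    obtain ⟨c, hc, hc1⟩ := ha x hx
    have h1 : a * x * a = (w ⬝ᵥ (x *ᵥ u)) • a := by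
      rw [haw, vecMulVec_mul, vecMulVec_mul_vecMulVec, ← dotProduct_mulVec, vecMulVec_smul]
    rw [hc1] at h1
    have h2 : c = w ⬝ᵥ (x *ᵥ u) := smul_left_injective ℂ ha0 h1
    rw [← h2]
    exact hc
  -- the vectors
  obtain ⟨i₀, hi₀⟩ : ∃ i, u i ≠ 0 := by
    by_contra hcon
    push Not at hcon
    exact hu (funext hcon)
  obtain ⟨j₀, hj₀⟩ : ∃ i, w i ≠ 0 := by
    by_contra hcon
    push Not at hcon
    exact hw (funext hcon)
  let Lu : Matrix (Fin N) (Fin N) ℂ →ₗ[ℂ] (Fin N → ℂ) :=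
    { toFun := fun M => M *ᵥ u
      map_add' := fun A B => add_mulVec A B u
      map_smul' := fun c A => smul_mulVec c A u }
  let Lw : Matrix (Fin N) (Fin N) ℂ →ₗ[ℂ] (Fin N → ℂ) :=
    { toFun := fun M => w ᵥ* M
      map_add' := fun A B => vecMul_add A B w
      map_smul' := fun c A => vecMul_smul w c A }
  have hLu : Function.Surjective Lu := by
    intro v
    refine ⟨vecMulVec v (Pi.single i₀ (u i₀)⁻¹), ?_⟩
    change vecMulVec v (Pi.single i₀ (u i₀)⁻¹) *ᵥ u = v
    ext i
    simp only [mulVec, dotProduct, vecMulVec_apply, Pi.single_apply, mul_ite, mul_zero, ite_mul,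
      zero_mul, Finset.sum_ite_eq', Finset.mem_univ, if_true]
    rw [mul_assoc, inv_mul_cancel₀ hi₀, mul_one]
  have hLw : Function.Surjective Lw := by
    intro v
    refine ⟨vecMulVec (Pi.single j₀ (w j₀)⁻¹) v, ?_⟩
    change w ᵥ* vecMulVec (Pi.single j₀ (w j₀)⁻¹) v = v
    ext i
    simp only [vecMul, dotProduct, vecMulVec_apply, Pi.single_apply, mul_ite, mul_zero, ite_mul,
      zero_mul, Finset.sum_ite_eq', Finset.mem_univ, if_true]
    rw [← mul_assoc, mul_inv_cancel₀ hj₀, one_mul]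
  obtain ⟨p, hp, hpl⟩ := qa_choose (N := N) (s := Lu '' (S : Set (Matrix (Fin N) (Fin N) ℂ))) (by
    rw [← Submodule.map_span, hSs, Submodule.map_top, LinearMap.range_eq_top.2 hLu])
  obtain ⟨r, hr, hrl⟩ := qa_choose (N := N) (s := Lw '' (S : Set (Matrix (Fin N) (Fin N) ℂ))) (by
    rw [← Submodule.map_span, hSs, Submodule.map_top, LinearMap.range_eq_top.2 hLw])
  choose x hxS hx using hp
  choose y hyS hy using hr
  set P : Matrix (Fin N) (Fin N) ℂ := Matrix.of fun i j => p j i with hP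
  set R : Matrix (Fin N) (Fin N) ℂ := Matrix.of fun i j => r i j with hR
  have hPu : IsUnit P := by
    have h1 : LinearIndependent ℂ P.col := hpl
    exact Matrix.linearIndependent_cols_iff_isUnit.1 h1
  have hRu : IsUnit R := by
    have h1 : LinearIndependent ℂ R.row := hrl
    exact Matrix.linearIndependent_rows_iff_isUnit.1 h1
  have hPd : IsUnit P.det := (Matrix.isUnit_iff_isUnit_det P).1 hPu
  have hRd : IsUnit R.det := (Matrix.isUnit_iff_isUnit_det R).1 hRu
  have hent : ∀ M ∈ S, AlgM (R * M * P) := by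
    intro M hM i j
    have h1 : (R * M * P) i j = w ⬝ᵥ ((y i * M * x j) *ᵥ u) := by
      have h2 : R i = w ᵥ* y i := (hy i).symm
      have h3 : (fun l => P l j) = x j *ᵥ u := (hx j).symm
      rw [Matrix.mul_assoc, Matrix.mul_apply', Matrix.mul_assoc]
      have h4 : (fun l => (M * P) l j) = M *ᵥ (x j *ᵥ u) := by
        rw [← h3]
        rfl
      have h5 : (Matrix.col (M * P) j : Fin N → ℂ) = M *ᵥ (x j *ᵥ u) := h4
      rw [← mulVec_mulVec, ← mulVec_mulVec, dotProduct_mulVec, ← h2]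
      first
        | rw [h4]
        | rw [h5]
        | (change R i ⬝ᵥ (fun l => (M * P) l j) = _; rw [h4])
    rw [h1]
    exact hpair _ (S.mul_mem (S.mul_mem (hyS i) hM) (hxS j))
  refine ⟨P, hPd.ne_zero, fun g => ?_⟩
  have h1 : P⁻¹ * σ g * P = (R * 1 * P)⁻¹ * (R * σ g * P) := by
    rw [Matrix.mul_one, Matrix.mul_inv_rev]
    have h2 : R⁻¹ * R = 1 := Matrix.nonsing_inv_mul R hRd
    calc P⁻¹ * σ g * P = P⁻¹ * (1 : Matrix (Fin N) (Fin N) ℂ) * (σ g * P) := by
          simp only [Matrix.mul_assoc, Matrix.one_mul]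
      _ = P⁻¹ * (R⁻¹ * R) * (σ g * P) := by rw [h2]
      _ = _ := by simp only [Matrix.mul_assoc]
  rw [h1]
  exact (hent 1 S.one_mem).inv.mul (hent _ (hσS g))

end group

end Pool.Agent.Lib.MP_5d4057_al.DR
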