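import Mathlib

/-!
# DR: descent to algebraic numbers

`desc`: a finite family of functions which depend on parameters in a finite-dimensional space,
linearly dependent for all parameters of an open set, has for some parameter a relation with
algebraic coefficients, if every derivation of `ℂ` acts on the relations like the derivative in
some direction of the parameter space.
The proof: the relation with one coefficient 1 is unique and its other coefficients `lam` are `C¹`
functions of the parameter with `D (lam z i) = d (lam i) z ξ`. At a point where the rank of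
`d lam` is maximal, `r` independent coordinates form an open map, so they can be made algebraic;
then all coordinates are killed by all derivations.
-/

set_option autoImplicit false

namespace Pool.Agent.Lib.MP_5d4057_al.DR

namespace Desc

open Filter Topology Matrix

/-- Functionals that are linearly independent form a surjective map. -/
theorem pi_surj {E S : Type*} [AddCommGroup E] [Module ℂ E] [Fintype S] (f : S → E →ₗ[ℂ] ℂ)
    (hf : LinearIndependent ℂ f) : Function.Surjective (LinearMap.pi f) := by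
  classical
  rw [← LinearMap.range_eq_top]
  by_contra hne
  obtain ⟨g, hg0, hg⟩ := (LinearMap.range (LinearMap.pi f)).exists_le_ker_of_lt_top
    (lt_top_iff_ne_top.2 hne)
  apply hg0
  have hexp : ∀ w : S → ℂ, g w = ∑ i, w i * g (Pi.single i 1) := by
    intro w
    conv_lhs => rw [← Finset.univ_sum_single w]
    rw [map_sum]
    refine Finset.sum_congr rfl fun i _ => ?_
    have : (Pi.single i (w i) : S → ℂ) = w i • Pi.single i 1 := by
      rw [← Pi.single_smul, smul_eq_mul, mul_one]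
    rw [this, map_smul, smul_eq_mul]
  have hz : ∀ i, g (Pi.single i 1) = 0 := by
    refine Fintype.linearIndependent_iff.1 hf (fun i => g (Pi.single i 1)) ?_
    ext x
    have := hg ⟨x, rfl⟩
    rw [LinearMap.mem_ker, hexp] at this
    simp only [LinearMap.pi_apply] at this
    simp only [LinearMap.sum_apply, LinearMap.smul_apply, smul_eq_mul, LinearMap.zero_apply]
    rw [← this]
    exact Finset.sum_congr rfl fun i _ => mul_comm _ _
  ext w
  simp [hz]

/-- Points with algebraic coordinates are dense. -/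
theorem dense_alg {S : Type*} [Fintype S] : Dense {w : S → ℂ | ∀ i, IsAlgebraic ℚ (w i)} := by
  have h1 : Dense {z : ℂ | IsAlgebraic ℚ z} := by
    intro z
    rw [Metric.mem_closure_iff]
    intro ε hε
    obtain ⟨a, ha1, ha2⟩ := exists_rat_btwn (show z.re - ε / 2 < z.re by linarith)
    obtain ⟨b, hb1, hb2⟩ := exists_rat_btwn (show z.im - ε / 2 < z.im by linarith)
    refine ⟨(a : ℂ) + (b : ℂ) * Complex.I, ?_, ?_⟩
    · have hI : IsAlgebraic ℚ Complex.I := by
        refine ⟨Polynomial.X ^ 2 + 1, ?_, by simp⟩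
        intro h
        have := congrArg (Polynomial.eval 0) h
        simp at this
      exact (isAlgebraic_algebraMap a).add ((isAlgebraic_algebraMap b).mul hI)
    · rw [Complex.dist_eq]
      refine lt_of_le_of_lt (Complex.norm_le_abs_re_add_abs_im _) ?_
      simp only [Complex.sub_re, Complex.sub_im, Complex.add_re, Complex.add_im, Complex.mul_re,
        Complex.mul_im, Complex.I_re, Complex.I_im, Complex.ratCast_re, Complex.ratCast_im,
        mul_zero, mul_one, sub_zero, add_zero, zero_add]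
      rw [abs_of_pos (by linarith), abs_of_pos (by linarith)]
      linarith
  have h2 := dense_pi (Set.univ : Set S) (s := fun _ : S => {z : ℂ | IsAlgebraic ℚ z})
    (fun i _ => h1)
  refine h2.mono ?_
  intro w hw i
  exact hw i (Set.mem_univ i)

/-- **An algebraic point.** If the values of a `C¹` map transform under every derivation of `ℂ`
through its differential, it has a point where all its values are algebraic. -/
theorem exists_alg_point
    (hA : ∀ c : ℂ, (∀ D : Derivation ℤ ℂ ℂ, D c = 0) → IsAlgebraic ℚ c)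
    (hB : ∀ (D : Derivation ℤ ℂ ℂ) (c : ℂ), IsAlgebraic ℚ c → D c = 0)
    {E ι : Type*} [NormedAddCommGroup E] [NormedSpace ℂ E] [FiniteDimensional ℂ E] [Fintype ι]
    {Ω : Set E} (hΩ : IsOpen Ω) (hne : Ω.Nonempty) (lam : E → ι → ℂ)
    (hl : ∀ i, ContDiffOn ℂ 1 (fun z => lam z i) Ω)
    (hD : ∀ D : Derivation ℤ ℂ ℂ, ∀ z ∈ Ω, ∃ ξ : E, ∀ i,
      D (lam z i) = fderiv ℂ (fun z => lam z i) z ξ) :
    ∃ z ∈ Ω, ∀ i, IsAlgebraic ℚ (lam z i) := by
  classical
  have : CompleteSpace E := FiniteDimensional.complete ℂ E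
  set d : ι → E → (E →L[ℂ] ℂ) := fun i z => fderiv ℂ (fun z => lam z i) z with hd
  have hdc : ∀ i, ContinuousOn (d i) Ω := fun i => (hl i).continuousOn_fderiv_of_isOpen hΩ le_rfl
  let Q : ℕ → Prop := fun k => ∃ z ∈ Ω, ∃ S : Finset ι, S.card = k ∧
    LinearIndependent ℂ (fun i : S => d i z)
  have hQ0 : ∃ k, Q k := by
    obtain ⟨z, hz⟩ := hne
    refine ⟨0, z, hz, ∅, rfl, ?_⟩
    have : IsEmpty ((∅ : Finset ι) : Type _) := by
      simpa using (inferInstance : IsEmpty ((∅ : Finset ι) : Type _))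
    exact linearIndependent_empty_type
  have hQb : ∀ k, Q k → k ≤ Fintype.card ι := by
    rintro k ⟨z, -, S, hS, -⟩
    rw [← hS]
    exact Finset.card_le_univ S
  obtain ⟨k, hk, hkm⟩ : ∃ k, Q k ∧ ∀ l, Q l → l ≤ k := by
    obtain ⟨k₀, hk₀⟩ := hQ0
    refine ⟨Nat.findGreatest Q (Fintype.card ι), ?_, ?_⟩
    · exact Nat.findGreatest_spec (hQb _ hk₀) hk₀
    · intro l hl
      exact Nat.le_findGreatest (hQb _ hl) hl
  obtain ⟨z₀, hz₀, S, hS, hSi⟩ := hk
  -- the open set of points where the differentials on `S` are independent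
  set U : Set E := {z | z ∈ Ω ∧ LinearIndependent ℂ (fun i : S => d i z)} with hU
  have hUn : U ∈ 𝓝 z₀ := by
    have hc : ContinuousAt (fun z => fun i : S => d i z) z₀ :=
      continuousAt_pi.2 fun i => (hdc i).continuousAt (hΩ.mem_nhds hz₀)
    have h1 : {z | LinearIndependent ℂ (fun i : S => d i z)} ∈ 𝓝 z₀ :=
      hc.preimage_mem_nhds (isOpen_setOfPred_linearIndependent.mem_nhds hSi)
    exact Filter.inter_mem (hΩ.mem_nhds hz₀) h1
  have hstrict : ∀ i, HasStrictFDerivAt (fun z => lam z i) (d i z₀) z₀ := fun i =>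
    ((hl i).contDiffAt (hΩ.mem_nhds hz₀)).hasStrictFDerivAt one_ne_zero
  have hF : HasStrictFDerivAt (fun z => fun i : S => lam z i)
      (ContinuousLinearMap.pi fun i : S => d i z₀) z₀ :=
    hasStrictFDerivAt_pi.2 fun i => hstrict i
  have hsurj : (ContinuousLinearMap.pi fun i : S => d i z₀).range = ⊤ := by
    rw [LinearMap.range_eq_top]
    have hli : LinearIndependent ℂ (fun i : S => (d i z₀ : E →ₗ[ℂ] ℂ)) :=
      hSi.map' (ContinuousLinearMap.coeLM ℂ) (LinearMap.ker_eq_bot.2
        ContinuousLinearMap.coe_injective)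
    exact pi_surj _ hli
  have hmap := hF.map_nhds_eq_of_surj hsurj
  have himg : (fun z => fun i : S => lam z i) '' U ∈ 𝓝 (fun i : S => lam z₀ i) := by
    rw [← hmap]
    exact Filter.image_mem_map hUn
  obtain ⟨w, hw1, hw2⟩ := dense_alg.inter_nhds_nonempty himg
  obtain ⟨z, hzU, hzw⟩ := hw2
  have hza : ∀ i ∈ S, IsAlgebraic ℚ (lam z i) := by
    intro i hi
    have := hw1 ⟨i, hi⟩
    rw [← hzw] at this
    exact this
  refine ⟨z, hzU.1, fun j => ?_⟩
  by_cases hj : j ∈ S
  · exact hza j hj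
  apply hA
  intro D
  obtain ⟨ξ, hξ⟩ := hD D z hzU.1
  have h0 : ∀ i ∈ S, d i z ξ = 0 := fun i hi => by
    rw [hd]; simp only; rw [← hξ i, hB D _ (hza i hi)]
  -- `d j z` lies in the span of the others
  have hspan : d j z ∈ Submodule.span ℂ (Set.range fun i : S => d i z) := by
    by_contra hns
    have hins : LinearIndependent ℂ (fun i : (insert j S : Finset ι) => d i z) := by
      have := (linearIndepOn_insert (K := ℂ) (s := (S : Set ι)) (f := fun i => d i z)
        (by simpa using hj)).2 ⟨hzU.2, by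
          intro h
          apply hns
          have hr : (Set.range fun i : S => d i z) = (fun i => d i z) '' (S : Set ι) := by
            ext x; simp
          rw [hr]; exact h⟩
      have h2 : LinearIndepOn ℂ (fun i => d i z) ((insert j S : Finset ι) : Set ι) := by
        rw [Finset.coe_insert]; exact this
      exact h2
    have hcard := hkm (insert j S).card ⟨z, hzU.1, insert j S, rfl, hins⟩
    rw [Finset.card_insert_of_notMem hj, hS] at hcard
    omega
  have hle : Submodule.span ℂ (Set.range fun i : S => d i z) ≤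
      LinearMap.ker ((ContinuousLinearMap.apply ℂ ℂ ξ : (E →L[ℂ] ℂ) →L[ℂ] ℂ) :
        (E →L[ℂ] ℂ) →ₗ[ℂ] ℂ) := by
    rw [Submodule.span_le]
    rintro _ ⟨i, rfl⟩
    exact h0 i i.2
  have h3 := hle hspan
  rw [hξ j]
  exact h3

/-- A linear form on `J → ℂ` is given by its coefficients. -/
theorem lin_exp {J : Type*} [Fintype J] [DecidableEq J] (g : (J → ℂ) →ₗ[ℂ] ℂ) (w : J → ℂ) :
    g w = ∑ i, w i * g (Pi.single i 1) := by
  conv_lhs => rw [← Finset.univ_sum_single w]
  rw [map_sum]
  refine Finset.sum_congr rfl fun i _ => ?_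
  have : (Pi.single i (w i) : J → ℂ) = w i • Pi.single i 1 := by
    rw [← Pi.single_smul, smul_eq_mul, mul_one]
  rw [this, map_smul, smul_eq_mul]

/-- Functions without a relation are separated by finitely many points. -/
theorem exists_pts {J X : Type*} [Fintype J] [DecidableEq J] (ψ : J → X → ℂ)
    (h : ∀ c : J → ℂ, (∀ x, ∑ j, c j * ψ j x = 0) → c = 0) :
    ∃ x : J → X, (Matrix.of fun a j => ψ j (x a)).det ≠ 0 := by
  classical
  set s : Set (J → ℂ) := Set.range fun x : X => fun j => ψ j x with hsdef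
  have hs : Submodule.span ℂ s = ⊤ := by
    by_contra hne
    obtain ⟨g, hg0, hg⟩ := (Submodule.span ℂ s).exists_le_ker_of_lt_top
      (lt_top_iff_ne_top.2 hne)
    apply hg0
    have h1 : (fun j => g (Pi.single j 1)) = 0 := by
      refine h _ fun x => ?_
      have h2 := hg (Submodule.subset_span ⟨x, rfl⟩)
      rw [LinearMap.mem_ker, lin_exp] at h2
      rw [← h2]
      exact Finset.sum_congr rfl fun i _ => mul_comm _ _
    refine LinearMap.ext fun w => ?_
    rw [lin_exp]
    simp [fun i => congrFun h1 i]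
  obtain ⟨f, hf1, hf2, hf3⟩ := Submodule.exists_fun_fin_finrank_span_eq ℂ s
  have hcard : Module.finrank ℂ (Submodule.span ℂ s) = Fintype.card J := by
    rw [hs, finrank_top, Module.finrank_fintype_fun_eq_card]
  let e : J ≃ Fin (Module.finrank ℂ (Submodule.span ℂ s)) :=
    Fintype.equivOfCardEq (by rw [Fintype.card_fin, hcard])
  choose y hy using hf1
  refine ⟨fun a => y (e a), ?_⟩
  have h3 : LinearIndependent ℂ (Matrix.of fun a j => ψ j (y (e a))).row := by
    have h4 : (Matrix.of fun a j => ψ j (y (e a))).row = f ∘ e := by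
      funext a
      exact hy (e a)
    rw [h4]
    exact hf3.comp _ e.injective
  have h5 := Matrix.linearIndependent_rows_iff_isUnit.1 h3
  rw [Matrix.isUnit_iff_isUnit_det] at h5
  exact h5.ne_zero

/-- A determinant with `C¹` entries. -/
theorem contDiffOn_det {E J : Type*} [NormedAddCommGroup E] [NormedSpace ℂ E] [Fintype J]
    [DecidableEq J] {s : Set E} (A : E → Matrix J J ℂ)
    (hA : ∀ i j, ContDiffOn ℂ 1 (fun z => A z i j) s) :
    ContDiffOn ℂ 1 (fun z => (A z).det) s := by
  simp only [Matrix.det_apply']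
  refine ContDiffOn.sum fun σ _ => contDiffOn_const.mul ?_
  exact contDiffOn_prod fun i _ => hA _ _

/-- **The relation with one coefficient 1.** -/
theorem exists_rel {E X ι : Type*} [NormedAddCommGroup E] [NormedSpace ℂ E] [Fintype ι]
    {Ω : Set E} (hΩ : IsOpen Ω) (hne : Ω.Nonempty) (φ : ι → E → X → ℂ)
    (hφ : ∀ i x, ContDiffOn ℂ 1 (fun z => φ i z x) Ω)
    (hdep : ∀ z ∈ Ω, ∃ c : ι → ℂ, c ≠ 0 ∧ ∀ x, ∑ i, c i * φ i z x = 0) :
    ∃ (Ω₁ : Set E) (i₀ : ι) (J : Finset ι) (lam : E → ι → ℂ), IsOpen Ω₁ ∧ Ω₁.Nonempty ∧ Ω₁ ⊆ Ω ∧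
      i₀ ∉ J ∧ (∀ i, ContDiffOn ℂ 1 (fun z => lam z i) Ω₁) ∧
      (∀ z, lam z i₀ = 1) ∧ (∀ z, ∀ i ∉ J, i ≠ i₀ → lam z i = 0) ∧
      (∀ z ∈ Ω₁, ∀ x, ∑ i, lam z i * φ i z x = 0) ∧
      (∀ z ∈ Ω₁, ∀ c : ι → ℂ, (∀ i ∉ J, c i = 0) → (∀ x, ∑ i, c i * φ i z x = 0) → c = 0) := by
  classical
  let Dep : Finset ι → E → Prop := fun I z =>
    ∃ c : ι → ℂ, c ≠ 0 ∧ (∀ i ∉ I, c i = 0) ∧ ∀ x, ∑ i, c i * φ i z x = 0
  let P : Finset ι → Prop := fun I => ∃ Ω' : Set E, IsOpen Ω' ∧ Ω'.Nonempty ∧ Ω' ⊆ Ω ∧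
    ∀ z ∈ Ω', Dep I z
  have hPu : ∃ k, ∃ I : Finset ι, I.card = k ∧ P I := by
    refine ⟨_, Finset.univ, rfl, Ω, hΩ, hne, subset_rfl, fun z hz => ?_⟩
    obtain ⟨c, hc0, hc⟩ := hdep z hz
    exact ⟨c, hc0, fun i hi => absurd (Finset.mem_univ i) hi, hc⟩
  obtain ⟨I, hIc, Ω', hΩ'o, hΩ'n, hΩ's, hΩ'd⟩ := Nat.find_spec hPu
  have hmin : ∀ J : Finset ι, J.card < I.card → ¬ P J := by
    intro J hJ hPJ
    rw [hIc] at hJ
    exact Nat.find_min hPu hJ ⟨J, rfl, hPJ⟩
  obtain ⟨i₀, hi₀⟩ : ∃ i₀, i₀ ∈ I := by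
    obtain ⟨z, hz⟩ := hΩ'n
    obtain ⟨c, hc0, hcI, -⟩ := hΩ'd z hz
    obtain ⟨i, hi⟩ := Function.ne_iff.1 hc0
    exact ⟨i, by by_contra h; exact hi (hcI i h)⟩
  set J := I.erase i₀ with hJ
  have hi₀J : i₀ ∉ J := Finset.notMem_erase i₀ I
  obtain ⟨z₁, hz₁, hz₁J⟩ : ∃ z₁ ∈ Ω', ¬ Dep J z₁ := by
    by_contra hcon
    push Not at hcon
    exact hmin J (Finset.card_erase_lt_of_mem hi₀) ⟨Ω', hΩ'o, hΩ'n, hΩ's, hcon⟩
  -- sums of functions supported in `J`
  have hsupp : ∀ (c : ι → ℂ) (u : ι → ℂ), (∀ i ∉ J, c i = 0) →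
      ∑ i, c i * u i = ∑ j : J, c j * u j := by
    intro c u hc
    rw [Finset.sum_coe_sort J (fun i => c i * u i)]
    refine (Finset.sum_subset (Finset.subset_univ J) fun i _ hi => ?_).symm
    rw [hc i hi, zero_mul]
  have hpts : ∃ x : J → X, (Matrix.of fun a (j : J) => φ j z₁ (x a)).det ≠ 0 := by
    apply exists_pts (fun (j : J) x => φ j z₁ x)
    intro c hc
    by_contra hc0
    apply hz₁J
    obtain ⟨j, hj⟩ := Function.ne_iff.1 hc0
    refine ⟨fun i => if h : i ∈ J then c ⟨i, h⟩ else 0, ?_, fun i hi => dif_neg hi, fun x => ?_⟩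
    · intro h
      have := congrFun h j.1
      simp only [dif_pos j.2, Pi.zero_apply] at this
      exact hj this
    · rw [hsupp _ _ (fun i hi => dif_neg hi), ← hc x]
      refine Finset.sum_congr rfl fun i _ => ?_
      rw [dif_pos i.2]
  obtain ⟨x, hx⟩ := hpts
  set M : E → Matrix J J ℂ := fun z => Matrix.of fun a (j : J) => φ j z (x a) with hM
  set b : E → J → ℂ := fun z a => φ i₀ z (x a) with hb
  have hMc : ContDiffOn ℂ 1 (fun z => (M z).det) Ω' :=
    contDiffOn_det M fun a j => (hφ j (x a)).mono hΩ's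
  set Ω₁ : Set E := Ω' ∩ (fun z => (M z).det) ⁻¹' {0}ᶜ with hΩ₁
  have hΩ₁o : IsOpen Ω₁ := hMc.continuousOn.isOpen_inter_preimage hΩ'o isOpen_compl_singleton
  have hinj : ∀ z ∈ Ω₁, ∀ c : ι → ℂ, (∀ i ∉ J, c i = 0) → (∀ a : J, ∑ i, c i * φ i z (x a) = 0) →
      c = 0 := by
    intro z hz c hcJ hc
    have h1 : M z *ᵥ (fun j : J => c j) = 0 := by
      funext a
      have h2 := hc a
      rw [hsupp _ _ hcJ] at h2
      simp only [Matrix.mulVec, dotProduct, hM, Matrix.of_apply, Pi.zero_apply]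
      rw [← h2]
      exact Finset.sum_congr rfl fun j _ => mul_comm _ _
    have h3 := Matrix.eq_zero_of_mulVec_eq_zero hz.2 h1
    funext i
    by_cases hi : i ∈ J
    · exact congrFun h3 ⟨i, hi⟩
    · exact hcJ i hi
  set lam : E → ι → ℂ := fun z i => if h : i ∈ J then -((M z).det)⁻¹ * (M z).cramer (b z) ⟨i, h⟩
    else if i = i₀ then 1 else 0 with hlam
  have hl1 : ∀ z, lam z i₀ = 1 := by
    intro z
    rw [hlam]; simp only [dif_neg hi₀J, if_true]
  have hl0 : ∀ z, ∀ i ∉ J, i ≠ i₀ → lam z i = 0 := by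
    intro z i hi hii
    rw [hlam]; simp only [dif_neg hi, if_neg hii]
  refine ⟨Ω₁, i₀, J, lam, hΩ₁o, ⟨z₁, hz₁, hx⟩, fun z hz => hΩ's hz.1, hi₀J, ?_, hl1, hl0, ?_, ?_⟩
  · intro i
    by_cases hi : i ∈ J
    · have h1 : (fun z => lam z i) = fun z => -((M z).det)⁻¹ *
          ((M z).updateCol ⟨i, hi⟩ (b z)).det := by
        funext z
        rw [hlam]; simp only [dif_pos hi]; rw [Matrix.cramer_apply]
      rw [h1]
      refine ContDiffOn.mul (ContDiffOn.neg (ContDiffOn.inv (hMc.mono fun z hz => hz.1)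
        fun z hz => hz.2)) ?_
      apply contDiffOn_det
      intro a j
      by_cases hj : j = ⟨i, hi⟩
      · subst hj
        simp only [Matrix.updateCol_self]
        exact (hφ i₀ (x a)).mono fun z hz => hΩ's hz.1
      · simp only [Matrix.updateCol_ne hj]
        exact (hφ j (x a)).mono fun z hz => hΩ's hz.1
    · by_cases hii : i = i₀
      · have h1 : (fun z => lam z i) = fun _ => 1 := by
          funext z; rw [hii]; exact hl1 z
        rw [h1]; exact contDiffOn_const
      · have h1 : (fun z => lam z i) = fun _ => 0 := by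
          funext z; exact hl0 z i hi hii
        rw [h1]; exact contDiffOn_const
  · intro z hz
    obtain ⟨c, hc0, hcI, hc⟩ := hΩ'd z hz.1
    have hci : c i₀ ≠ 0 := by
      intro h
      apply hc0
      refine hinj z hz c (fun i hi => ?_) (fun a => hc _)
      by_cases hii : i = i₀
      · rw [hii, h]
      · exact hcI i fun hI => hi (Finset.mem_erase.2 ⟨hii, hI⟩)
    -- the difference of the two relations vanishes
    have hrow : ∀ a : J, ∑ i, lam z i * φ i z (x a) = 0 := by
      intro a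
      have h1 : ∑ i, lam z i * φ i z (x a) = φ i₀ z (x a) +
          ∑ j : J, lam z j * φ j z (x a) := by
        rw [Finset.sum_coe_sort J (fun i => lam z i * φ i z (x a))]
        have h2 : ∑ i, lam z i * φ i z (x a) = ∑ i ∈ insert i₀ J, lam z i * φ i z (x a) := by
          refine (Finset.sum_subset (Finset.subset_univ _) fun i _ hi => ?_).symm
          rw [Finset.mem_insert, not_or] at hi
          rw [hl0 z i hi.2 hi.1, zero_mul]
        rw [h2, Finset.sum_insert hi₀J, hl1, one_mul]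
      rw [h1]
      have h3 : ∑ j : J, lam z j * φ j z (x a) = -((M z).det)⁻¹ *
          (M z *ᵥ (M z).cramer (b z)) a := by
        simp only [Matrix.mulVec, dotProduct]
        rw [Finset.mul_sum]
        refine Finset.sum_congr rfl fun j _ => ?_
        rw [hlam]; simp only [dif_pos j.2]
        simp only [hM, Matrix.of_apply]
        ring
      rw [h3, Matrix.mulVec_cramer, Pi.smul_apply, smul_eq_mul]
      have h4 : (M z).det ≠ 0 := hz.2
      have h5 : b z a = φ i₀ z (x a) := rfl
      rw [h5]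
      field_simp
      ring
    have hdiff : (fun i => lam z i - (c i₀)⁻¹ * c i) = 0 := by
      refine hinj z hz _ (fun i hi => ?_) (fun a => ?_)
      · by_cases hii : i = i₀
        · rw [hii, hl1, inv_mul_cancel₀ hci, sub_self]
        · rw [hl0 z i hi hii, hcI i fun hI => hi (Finset.mem_erase.2 ⟨hii, hI⟩), mul_zero,
            sub_zero]
      · simp only [sub_mul, Finset.sum_sub_distrib, hrow a, zero_sub, mul_assoc,
          ← Finset.mul_sum, hc, mul_zero, neg_zero]
    intro y
    have h6 : ∀ i, lam z i = (c i₀)⁻¹ * c i := fun i => sub_eq_zero.1 (congrFun hdiff i)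
    simp only [h6, mul_assoc, ← Finset.mul_sum, hc, mul_zero]
  · intro z hz c hcJ hc
    exact hinj z hz c hcJ fun a => hc _

end Desc

open Desc

/-- **Descent.** A relation with algebraic coefficients exists for some parameter `z`. (`hA`, `hB`
are `alg_of_der`, `der_alg`.) -/
theorem desc
    (hA : ∀ c : ℂ, (∀ D : Derivation ℤ ℂ ℂ, D c = 0) → IsAlgebraic ℚ c)
    (hB : ∀ (D : Derivation ℤ ℂ ℂ) (c : ℂ), IsAlgebraic ℚ c → D c = 0)
    {E X ι : Type*} [NormedAddCommGroup E] [NormedSpace ℂ E] [FiniteDimensional ℂ E] [Fintype ι]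
    {Ω : Set E} (hΩ : IsOpen Ω) (hne : Ω.Nonempty) (φ : ι → E → X → ℂ)
    (hφ : ∀ i x, ContDiffOn ℂ 1 (fun z => φ i z x) Ω)
    (hdep : ∀ z ∈ Ω, ∃ c : ι → ℂ, c ≠ 0 ∧ ∀ x, ∑ i, c i * φ i z x = 0)
    (hD : ∀ D : Derivation ℤ ℂ ℂ, ∀ z ∈ Ω, ∃ ξ : E, ∀ c : ι → ℂ,
      (∀ x, ∑ i, c i * φ i z x = 0) →
      ∀ x, ∑ i, D (c i) * φ i z x + ∑ i, c i * fderiv ℂ (fun z => φ i z x) z ξ = 0) :
    ∃ z ∈ Ω, ∃ c : ι → ℂ, c ≠ 0 ∧ (∀ i, IsAlgebraic ℚ (c i)) ∧ ∀ x, ∑ i, c i * φ i z x = 0 := by
  classical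
  obtain ⟨Ω₁, i₀, J, lam, hΩ₁o, hΩ₁n, hΩ₁s, hi₀, hlc, hl1, hl0, hrel, huniq⟩ :=
    exists_rel hΩ hne φ hφ hdep
  obtain ⟨z, hz, halg⟩ := exists_alg_point hA hB hΩ₁o hΩ₁n lam hlc (by
    intro D z hz
    obtain ⟨ξ, hξ⟩ := hD D z (hΩ₁s hz)
    refine ⟨ξ, ?_⟩
    have hlz : ∀ i, DifferentiableAt ℂ (fun z => lam z i) z := fun i =>
      ((hlc i).contDiffAt (hΩ₁o.mem_nhds hz)).differentiableAt one_ne_zero
    have hφz : ∀ i x, DifferentiableAt ℂ (fun z => φ i z x) z := fun i x =>
      ((hφ i x).contDiffAt (hΩ.mem_nhds (hΩ₁s hz))).differentiableAt one_ne_zero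
    have h1 : (fun i => D (lam z i) - fderiv ℂ (fun z => lam z i) z ξ) = 0 := by
      refine huniq z hz _ (fun i hi => ?_) (fun x => ?_)
      · by_cases hii : i = i₀
        · have h2 : (fun z => lam z i) = fun _ => 1 := by funext z; rw [hii]; exact hl1 z
          rw [h2, hii, hl1]
          simp
        · have h2 : (fun z => lam z i) = fun _ => 0 := by funext z; exact hl0 z i hi hii
          rw [h2, hl0 z i hi hii]
          simp
      · have h3 := hξ (lam z) (hrel z hz) x
        have h4 : (fun z => ∑ i, lam z i * φ i z x) =ᶠ[nhds z] fun _ => 0 := by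
          filter_upwards [hΩ₁o.mem_nhds hz] with w hw
          exact hrel w hw x
        have h5 : fderiv ℂ (fun z => ∑ i, lam z i * φ i z x) z ξ = 0 := by
          rw [h4.fderiv_eq]; simp
        have h6 : fderiv ℂ (fun z => ∑ i, lam z i * φ i z x) z ξ =
            ∑ i, (lam z i * fderiv ℂ (fun z => φ i z x) z ξ +
              φ i z x * fderiv ℂ (fun z => lam z i) z ξ) := by
          have h7 : HasFDerivAt (fun z => ∑ i, lam z i * φ i z x)
              (∑ i, (lam z i • fderiv ℂ (fun z => φ i z x) z +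
                φ i z x • fderiv ℂ (fun z => lam z i) z)) z := by
            refine HasFDerivAt.fun_sum fun i _ => ?_
            exact (hlz i).hasFDerivAt.mul (hφz i x).hasFDerivAt
          rw [h7.fderiv]
          simp
        rw [h6] at h5
        simp only [Finset.sum_add_distrib] at h5
        simp only [sub_mul, Finset.sum_sub_distrib]
        have h8 : ∑ i, φ i z x * fderiv ℂ (fun z => lam z i) z ξ =
            ∑ i, fderiv ℂ (fun z => lam z i) z ξ * φ i z x :=
          Finset.sum_congr rfl fun i _ => mul_comm _ _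
        rw [h8] at h5
        linear_combination h3 - h5
    intro i
    exact sub_eq_zero.1 (congrFun h1 i))
  exact ⟨z, hΩ₁s hz, lam z, fun h => by
    have := congrFun h i₀
    rw [hl1, Pi.zero_apply] at this
    exact one_ne_zero this, halg, hrel z hz⟩

end Pool.Agent.Lib.MP_5d4057_al.DR
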