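import Pool.Agent.Lib.MP_5d4057_al.DR.BpDefs
import Pool.Agent.Lib.MP_5d4057_al.DR.FinJ
import Pool.Agent.Lib.MP_5d4057_al.DR.FinU
import Pool.Agent.Lib.MP_5d4057_al.DR.FinD
import Pool.Agent.Lib.MP_5d4057_al.DR.Lift
import Pool.Agent.Lib.MP_5d4057_al.DR.Adp
import Pool.Agent.Lib.MP_5d4057_al.DR.Der
import Pool.Agent.Lib.MP_5d4057_al.DR.QfA
import Pool.Agent.Lib.MP_5d4057_al.TR.Fin

/-!
# DER: theorem (B') in standard position (owner: helper99)
-/

set_option autoImplicit false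

namespace Pool.Agent.Lib.MP_5d4057_al.DR

open Matrix Filter Topology MvPowerSeries Pool.Agent.Lib.MP_5d4057_al
  Pool.Agent.Lib.MP_5d4057_al.Hyb Pool.Agent.Lib.MP_5d4057_al.HM Pool.Agent.Lib.MP_5d4057_al.NU
  Pool.Agent.Lib.MP_5d4057_al.QB

variable {n : ℕ} {Γ : Subgroup (SUGroup n)}

/-- The lift of a derivation maps the plane to itself. -/
theorem liftU_std (hn : 2 ≤ n) (hL : IsLattice Γ) (hTor : Tor Γ) (hH : H1Z Γ)
    (hA : ∀ γ ∈ Γ, AlgM γ.toMatrix) (i₀ : Fin n) (hc : CocU Γ (base n) (ee i₀))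
    (D : Derivation ℤ ℂ ℂ) : LiftU Γ i₀ D := by
  have hfr : Frs Γ := frs_of_tor hL.1 hTor
  have hDz : ∀ i, D (base n i) = 0 := by
    intro i
    rw [base, Pi.single_apply]
    split_ifs
    · exact D.map_one_eq_zero
    · exact map_zero D
  obtain ⟨E, L, hE⟩ := lift D (dep_of_lat hn hL hTor) hfr hH
    (fun γ hγ i j => der_alg D (hA γ hγ i j)) (base_mem n) hDz
  obtain ⟨k, hk, F, hF, hJ⟩ := hfr (base n) (base_mem n)
  obtain ⟨S, hS, hSC, -, hcoc⟩ := id hc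
  have he : 0 < q (ee i₀) := by
    rw [q_pl (i₀ := i₀) (Submodule.subset_span (by simp)), ee_self, ee_last, norm_one, norm_zero]
    norm_num
  have hbe : herm (base n) (ee i₀) = 0 := by
    rw [herm_pl (i₀ := i₀) (Submodule.subset_span (by simp)), base_cs, ee_last, star_zero,
      zero_mul, mul_zero, sub_zero]
  obtain ⟨γ, hγ, hγU, p₀, p₁, a, b, hC⟩ := Hyp.exists_hyp (base_mem n) he hbe hS hSC
    (fun v hv hvU => hcoc v hv hvU)
  have hst := FinU.L_stable i₀ hE hk hF hJ (fun a b j => by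
    obtain ⟨d, P, h1, h2, h3⟩ := FinU.rel3 (r := rr Γ i₀) uni_rr (cpt_rr hc)
      (φ := fun i => rst (ee i₀) (base n) (F (![a, b, j] i)))
      (fun i => form_AA ⟨_, hF _, rfl⟩)
    refine ⟨d, P, h1, h2, fun x hx => ?_⟩
    have h4 := h3 x hx
    have h5 : (fun i : Fin 3 => rst (ee i₀) (base n) (F (![a, b, j] i)) x) =
        fun i => F (![a, b, j] i) (base n + x • FinU.e₁ i₀) := by
      funext i
      exact congrArg (F (![a, b, j] i)) (add_comm (x • ee i₀) (base n))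
    rw [h5] at h4
    exact h4) hγ hγU hC
  refine ⟨E, L, hE, fun i h1 h2 => ?_⟩
  have a1 := mem_pl.1 (hst (ee i₀) (Hyp.right_mem _ _)) i h1 h2
  have a2 := mem_pl.1 (hst (base n) (Hyp.left_mem _ _)) i h1 h2
  rw [ee, mulVec_single_one] at a1
  rw [base, mulVec_single_one] at a2
  exact ⟨a1, a2⟩

/-- Only finitely many matrices of the stabilizer are bounded. -/
theorem fin_std (hd : DiscreteTopology Γ) (i₀ : Fin n) (R : ℝ) :
    {M : TR.M2 | (∃ γ, M = rr Γ i₀ γ) ∧ ‖M 1 1‖ ≤ R}.Finite := by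
  have h1 : {γ : StS Γ i₀ | ‖rr Γ i₀ γ 1 1‖ ≤ R}.Finite := by
    refine ((finite_ch hd R).preimage (f := fun γ : StS Γ i₀ => (γ : SUGroup n))
      Subtype.val_injective.injOn).subset ?_
    intro γ hγ
    exact ⟨γ.2.1, hγ⟩
  refine (h1.image (rr Γ i₀)).subset ?_
  rintro M ⟨⟨γ, rfl⟩, h⟩
  exact ⟨γ, h, rfl⟩

/-- **Theorem (B'), standard position**: algebraic entries, torsion free,
`U = span {e_n, e_i}`. -/
theorem det_std (hn : 2 ≤ n) {Γ : Subgroup (SUGroup n)} (hL : IsLattice Γ) (hTor : Tor Γ)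
    (hH : H1Z Γ) (hA : ∀ γ ∈ Γ, AlgM γ.toMatrix) (i₀ : Fin n)
    (hc : CocU Γ (base n) (Pi.single i₀.castSucc 1)) :
    FinDet Γ (base n) (Pi.single i₀.castSucc 1) := by
  obtain ⟨k, hk, hI⟩ := exists_inp (i₀ := i₀) hL.1 (tf_of_tor hL.1 hTor)
    (fun D => liftU_std hn hL hTor hH hA i₀ hc D)
  obtain ⟨N, hN, h⟩ := TR.main (r := rr Γ i₀) uni_rr (cpt_rr hc) (fin_std hL.1 i₀)
    (fun g => by
      rw [rr_apply, Matrix.det_fin_two, r2_00, r2_11, r2_01, r2_10]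
      have h1 := hA _ g.2.1
      exact ((h1 _ _).mul (h1 _ _)).sub ((h1 _ _).mul (h1 _ _))) hk hI
  refine ⟨N, hN, fun γ hγ a b c d h1 h2 => ?_⟩
  have h3 := h ⟨γ, hγ, stU_of h1 h2⟩
  rw [rr_apply, det_r2 h1 h2] at h3
  exact h3

end Pool.Agent.Lib.MP_5d4057_al.DR
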