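import Pool.Agent.Lib.MP_5d4057_al.PU.Emb
import Pool.Agent.Lib.MP_5d4057_al.PU.ChiPar

/-!
# DER: transport of the plane (owner: helper53)
-/

set_option autoImplicit false

namespace Pool.Agent.Lib.MP_5d4057_al.DR

open Matrix Filter Topology Pool.Agent.Lib.MP_5d4057_al Pool.Agent.Lib.MP_5d4057_al.Hyb
  Pool.Agent.Lib.MP_5d4057_al.HM Pool.Agent.Lib.MP_5d4057_al.NU Pool.Agent.Lib.MP_5d4057_al.RG

variable {k n : ℕ}

/-- The standard plane, transported by `g'` and then by `g` (through the hyperplane). -/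
noncomputable def tp (g' : SUGroup (k + 1)) (g : SUGroup (k + 2)) (v : Vec 1) : Vec (k + 2) :=
  HM.hyp g (act g' (PU.inc2 k v))

private theorem tp_add (g' : SUGroup (k + 1)) (g : SUGroup (k + 2)) (v w : Vec 1) :
    tp g' g (v + w) = tp g' g v + tp g' g w := by
  rw [tp, map_add, act_add, map_add]
  rfl

private theorem tp_smul (g' : SUGroup (k + 1)) (g : SUGroup (k + 2)) (c : ℂ) (v : Vec 1) :
    tp g' g (c • v) = c • tp g' g v := by
  rw [tp, map_smul, act_smul, map_smul]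
  rfl

private theorem herm_tp (g' : SUGroup (k + 1)) (g : SUGroup (k + 2)) (v w : Vec 1) :
    herm (tp g' g v) (tp g' g w) = herm v w := by
  rw [tp, tp, hyp_apply, hyp_apply, herm_act, herm_inc, herm_act, PU.herm_inc2]

private theorem q_tp (g' : SUGroup (k + 1)) (g : SUGroup (k + 2)) (v : Vec 1) :
    q (tp g' g v) = q v := by
  rw [q, q, herm_tp]

private theorem tp_eq (g' : SUGroup (k + 1)) (g : SUGroup (k + 2)) (v : Vec 1) :
    tp g' g v = v 1 • tp g' g (Pi.single 1 1) + v 0 • tp g' g (Pi.single 0 1) := by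
  have h : v = v 1 • (Pi.single 1 1 : Vec 1) + v 0 • (Pi.single 0 1 : Vec 1) := by
    ext i
    fin_cases i <;> simp
  conv_lhs => rw [h]
  rw [tp_add, tp_smul, tp_smul]

/-- The action of an element of the plane group. -/
private theorem act_tp {Γ : Subgroup (SUGroup (k + 1))} {ρ : Γ →* SUGroup (k + 2)}
    {g : SUGroup (k + 2)} {g' : SUGroup (k + 1)} {y : SUGroup 1} (hy : PU.emb2 g' y ∈ Γ) {χ ψ : ℂ}
    (h : (g⁻¹ * ρ ⟨PU.emb2 g' y, hy⟩ * g).toMatrix =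
      dsum χ (ψ • (PU.emb2 g' y : SUGroup (k + 1)).toMatrix)) (v : Vec 1) :
    act (ρ ⟨PU.emb2 g' y, hy⟩) (tp g' g v) = ψ • tp g' g (act y v) := by
  rw [tp, CI.act_hyp_tw h, PU.act_emb2]
  rfl

/-- **Transport of the plane.** -/
theorem transport {Γ : Subgroup (SUGroup (k + 1))} {G : Subgroup (SUGroup (k + 2))}
    (ρ : Γ →* SUGroup (k + 2)) (hρ : ρ.range ≤ G) {g : SUGroup (k + 2)} (h : Twd ρ g)
    {g' : SUGroup (k + 1)} (hc : Coc (Γ.comap (PU.emb2 g'))) :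
    ∃ u w : Vec (k + 2), u ∈ Cone (k + 2) ∧ 0 < q w ∧ herm u w = 0 ∧
      (∃ D : Set (Vec (k + 2)), IsCompact D ∧ D ⊆ Cone (k + 2) ∧
        (∀ x ∈ D, ∃ a b : ℂ, x = a • u + b • w) ∧
        ∀ x ∈ Cone (k + 2), (∃ a b : ℂ, x = a • u + b • w) → ∃ γ ∈ G,
          (∃ a b : ℂ, act γ u = a • u + b • w) ∧ (∃ a b : ℂ, act γ w = a • u + b • w) ∧
          ∃ c : ℂ, c ≠ 0 ∧ c • act γ x ∈ D) ∧
      ∀ (y : SUGroup 1) (hy : PU.emb2 g' y ∈ Γ), ∃ a b c d : ℂ,
        act (ρ ⟨PU.emb2 g' y, hy⟩) u = a • u + b • w ∧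
        act (ρ ⟨PU.emb2 g' y, hy⟩) w = c • u + d • w ∧
        ((PU.chr h ⟨PU.emb2 g' y, hy⟩ : ℂˣ) : ℂ) ^ 2 * (a * d - b * c) ^ (k + 2) = 1 := by
  have hpl : ∀ (y : SUGroup 1) (hy : PU.emb2 g' y ∈ Γ), ∃ ψ : ℂ, ψ ≠ 0 ∧
      ((PU.chr h ⟨PU.emb2 g' y, hy⟩ : ℂˣ) : ℂ) * ψ ^ (k + 2) = 1 ∧
      ∀ v : Vec 1, act (ρ ⟨PU.emb2 g' y, hy⟩) (tp g' g v) = ψ • tp g' g (act y v) := by
    intro y hy
    obtain ⟨ψ, h1⟩ := PU.chr_blk h ⟨PU.emb2 g' y, hy⟩
    have h2 : (g⁻¹ * ρ ⟨PU.emb2 g' y, hy⟩ * g).toMatrix.det = 1 := (g⁻¹ * ρ _ * g).1.2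
    have h3 : (PU.emb2 g' y : SUGroup (k + 1)).toMatrix.det = 1 := (PU.emb2 g' y).1.2
    rw [h1, det_dsum, Matrix.det_smul, h3, mul_one, Fintype.card_fin] at h2
    refine ⟨ψ, ?_, h2, act_tp hy h1⟩
    rintro rfl
    rw [zero_pow (by omega), mul_zero] at h2
    exact zero_ne_one h2
  have hcol : ∀ (y : SUGroup 1) (hy : PU.emb2 g' y ∈ Γ) (ψ : ℂ),
      (∀ v : Vec 1, act (ρ ⟨PU.emb2 g' y, hy⟩) (tp g' g v) = ψ • tp g' g (act y v)) →
      act (ρ ⟨PU.emb2 g' y, hy⟩) (tp g' g (Pi.single 1 1)) =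
        (ψ * y.toMatrix 1 1) • tp g' g (Pi.single 1 1) +
        (ψ * y.toMatrix 0 1) • tp g' g (Pi.single 0 1) ∧
      act (ρ ⟨PU.emb2 g' y, hy⟩) (tp g' g (Pi.single 0 1)) =
        (ψ * y.toMatrix 1 0) • tp g' g (Pi.single 1 1) +
        (ψ * y.toMatrix 0 0) • tp g' g (Pi.single 0 1) := by
    intro y hy ψ h1
    constructor
    · rw [h1, tp_eq g' g (act y (Pi.single 1 1)), smul_add, smul_smul, smul_smul]
      simp only [act, mulVec_single_one]
      rfl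
    · rw [h1, tp_eq g' g (act y (Pi.single 0 1)), smul_add, smul_smul, smul_smul]
      simp only [act, mulVec_single_one]
      rfl
  obtain ⟨F, hF, hF'⟩ := hc.cpt
  refine ⟨tp g' g (Pi.single 1 1), tp g' g (Pi.single 0 1), ?_, ?_, ?_,
    ⟨(fun f : SUGroup 1 => tp g' g (act f (base 1))) '' F, ?_, ?_, ?_, ?_⟩, ?_⟩
  · show q _ < 0
    rw [q_tp]
    exact base_mem 1
  · rw [q_tp, q_eq]
    simp
  · rw [herm_tp, herm_eq]
    simp
  · refine hF.image ?_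
    have h1 : (fun f : SUGroup 1 => tp g' g (act f (base 1))) =
        (fun v => HM.hyp g (actC g' (PU.inc2 k v))) ∘ fun f : SUGroup 1 => act f (base 1) := rfl
    rw [h1]
    exact (((HM.hyp g).continuous.comp (actC g').continuous).comp
      (PU.inc2 k).continuous).comp continuous_orbit
  · rintro _ ⟨f, -, rfl⟩
    show q _ < 0
    rw [q_tp]
    exact orbit_mem f
  · rintro _ ⟨f, -, rfl⟩
    exact ⟨_, _, tp_eq g' g _⟩
  · rintro x hx ⟨a, b, rfl⟩
    obtain ⟨v, hv⟩ : ∃ v : Vec 1, v = a • (Pi.single 1 1 : Vec 1) + b • (Pi.single 0 1 : Vec 1) :=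
      ⟨_, rfl⟩
    have h1 : a • tp g' g (Pi.single 1 1) + b • tp g' g (Pi.single 0 1) = tp g' g v := by
      rw [hv, tp_add, tp_smul, tp_smul]
    rw [h1] at hx ⊢
    have hv1 : v ∈ Cone 1 := by
      show q v < 0
      rw [← q_tp g' g]
      exact hx
    obtain ⟨f, c, hc0, rfl⟩ := exists_act_eq hv1
    obtain ⟨y, hy, hyF⟩ := hF' f
    have hy' : PU.emb2 g' y ∈ Γ := hy
    obtain ⟨ψ, hψ, -, h3⟩ := hpl y hy'
    obtain ⟨h4, h5⟩ := hcol y hy' ψ h3
    refine ⟨ρ ⟨PU.emb2 g' y, hy'⟩, hρ ⟨_, rfl⟩, ⟨_, _, h4⟩, ⟨_, _, h5⟩, (ψ * c)⁻¹,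
      inv_ne_zero (mul_ne_zero hψ hc0), y * f, hyF, ?_⟩
    show tp g' g (act (y * f) (base 1)) = _
    rw [h3, act_smul, tp_smul, smul_smul, smul_smul, act_mul, mul_assoc,
      inv_mul_cancel₀ (mul_ne_zero hψ hc0), one_smul]
  · intro y hy
    obtain ⟨ψ, hψ, h2, h3⟩ := hpl y hy
    obtain ⟨h4, h5⟩ := hcol y hy ψ h3
    refine ⟨_, _, _, _, h4, h5, ?_⟩
    have h6 : y.toMatrix 0 0 * y.toMatrix 1 1 - y.toMatrix 0 1 * y.toMatrix 1 0 = 1 := by
      have h7 : y.toMatrix.det = 1 := y.1.2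
      rw [Matrix.det_fin_two] at h7
      exact h7
    have h7 : ψ * y.toMatrix 1 1 * (ψ * y.toMatrix 0 0) - ψ * y.toMatrix 0 1 * (ψ * y.toMatrix 1 0)
        = ψ ^ 2 := by
      linear_combination ψ ^ 2 * h6
    rw [h7, ← pow_mul, mul_comm 2, pow_mul, ← mul_pow, h2, one_pow]

/-- A line invariant under a twisted lattice is the normal line. -/
theorem line_nrm {Γ : Subgroup (SUGroup (k + 1))} (hL : IsLattice Γ) {ρ : Γ →* SUGroup (k + 2)}
    {g : SUGroup (k + 2)} (h : Twd ρ g) {p : Vec (k + 2)}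
    (hx : ∀ x : Γ, ∃ c : ℂ, act (ρ x) p = c • p) : ∃ a : ℂ, p = a • act g (nrm (k + 1)) := by
  obtain ⟨p', hp'⟩ : ∃ p', p' = act g⁻¹ p := ⟨_, rfl⟩
  obtain ⟨v, hv⟩ : ∃ v : Vec (k + 1), v = fun i => p' i.succ := ⟨_, rfl⟩
  have hsplit : p' = p' 0 • nrm (k + 1) + inc (k + 1) v := by
    ext i
    refine Fin.cases ?_ (fun i => ?_) i
    · simp [nrm, inc_apply]
    · simp [nrm, inc_apply, hv]
  have hpp : p = act g p' := by rw [hp', ← act_mul, mul_inv_cancel, act_one]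
  have key : ∀ x : Γ, ∃ c : ℂ, act (x : SUGroup (k + 1)) v = c • v := by
    intro x
    obtain ⟨c, hc⟩ := hx x
    obtain ⟨χ, ψ, h1⟩ := h x
    have hψ : ψ ≠ 0 := by
      rintro rfl
      have h2 : (g⁻¹ * ρ x * g).toMatrix.det = 1 := (g⁻¹ * ρ x * g).1.2
      rw [h1, det_dsum, Matrix.det_smul, Fintype.card_fin, zero_pow (by omega), zero_mul,
        mul_zero] at h2
      exact zero_ne_one h2
    have h2 : act (g⁻¹ * ρ x * g) p' = c • p' := by
      rw [hp', act_mul, act_mul, ← act_mul g, mul_inv_cancel, act_one, hc, act_smul]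
    refine ⟨ψ⁻¹ * c, ?_⟩
    have h3 : act (g⁻¹ * ρ x * g) p' = (χ * p' 0) • nrm (k + 1) + inc (k + 1) (ψ • act (x : SUGroup (k + 1)) v) := by
      conv_lhs => rw [hsplit]
      rw [act, h1, mulVec_add, dsum_mulVec_inc, smul_mulVec, mulVec_smul, nrm, dsum_mulVec_cons,
        mulVec_zero, mul_one]
      congr 1
      ext i
      refine Fin.cases ?_ (fun i => ?_) i
      · simp [mul_comm]
      · simp
    rw [h2] at h3
    ext i
    have h4 := congrFun h3 i.succ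
    have h5 : (c • p') i.succ = c * v i := by rw [hv]; rfl
    rw [h5] at h4
    have h6 : ((χ * p' 0) • nrm (k + 1) + inc (k + 1) (ψ • act (x : SUGroup (k + 1)) v)) i.succ =
        ψ * act (x : SUGroup (k + 1)) v i := by
      simp [nrm, inc_apply]
    rw [h6] at h4
    rw [Pi.smul_apply, smul_eq_mul, mul_assoc, h4, ← mul_assoc, inv_mul_cancel₀ hψ, one_mul]
  have hv0 : v = 0 := by
    by_contra hne
    have hs := span_top (m := k + 1) (by omega) Γ hL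
    have key' : ∀ M : Matrix (Fin (k + 2)) (Fin (k + 2)) ℂ, ∃ c : ℂ, M *ᵥ v = c • v := by
      intro M
      have hM : M ∈ Submodule.span ℂ (SUGroup.toMatrix '' (Γ : Set (SUGroup (k + 1)))) := by
        rw [hs]; exact Submodule.mem_top
      induction hM using Submodule.span_induction with
      | mem x hx =>
        obtain ⟨y, hy, rfl⟩ := hx
        exact key ⟨y, hy⟩
      | zero => exact ⟨0, by rw [zero_mulVec, zero_smul]⟩
      | add x y _ _ hx hy =>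
        obtain ⟨a, ha⟩ := hx
        obtain ⟨b, hb⟩ := hy
        exact ⟨a + b, by rw [add_mulVec, ha, hb, add_smul]⟩
      | smul a x _ hx =>
        obtain ⟨b, hb⟩ := hx
        exact ⟨a * b, by rw [smul_mulVec, hb, smul_smul]⟩
    obtain ⟨i, hi⟩ : ∃ i, v i ≠ 0 := by
      by_contra h0
      push_neg at h0
      exact hne (funext h0)
    obtain ⟨l, hl⟩ : ∃ l : Fin (k + 2), l ≠ i := by
      by_cases h0 : i = 0
      · exact ⟨1, by rw [h0]; exact Fin.ne_of_gt (by simp)⟩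
      · exact ⟨0, fun h => h0 h.symm⟩
    obtain ⟨c, hc⟩ := key' (Matrix.single l i 1)
    have h1 := congrFun hc l
    have h2 := congrFun hc i
    rw [Matrix.single_mulVec, one_mul] at h1 h2
    rw [Function.update_self, Pi.smul_apply, smul_eq_mul] at h1
    rw [Function.update_of_ne (Ne.symm hl), Pi.zero_apply, Pi.smul_apply, smul_eq_mul] at h2
    rcases mul_eq_zero.1 h2.symm with h3 | h3
    · rw [h3, zero_mul] at h1
      exact hi h1
    · exact hi h3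
  refine ⟨p' 0, ?_⟩
  rw [hpp]
  conv_lhs => rw [hsplit]
  rw [hv0, map_zero, add_zero, act_smul]

end Pool.Agent.Lib.MP_5d4057_al.DR
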