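import Pool.Agent.Lib.MP_5d4057_al.CI.Main
import Pool.Agent.Lib.MP_5d4057_al.CI.Tw

/-!
# DER: the hyperplane piece of a factor (owner: helper53)
-/

set_option autoImplicit false

namespace Pool.Agent.Lib.MP_5d4057_al.DR

open Matrix Filter Topology Pool.Agent.Lib.MP_5d4057_al Pool.Agent.Lib.MP_5d4057_al.Hyb
  Pool.Agent.Lib.MP_5d4057_al.HM Pool.Agent.Lib.MP_5d4057_al.NU Pool.Agent.Lib.MP_5d4057_al.RG

variable {k m n : ℕ}

/-- `Γ` contains a group which preserves a hyperplane and acts on it, up to scalars, as an arithmetic lattice. -/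
def HasHyp (Γ : Subgroup (SUGroup (k + 1))) : Prop :=
  ∃ (Λ : Subgroup (SUGroup k)) (τ : Λ →* SUGroup (k + 1)) (g : SUGroup (k + 1)),
    IsLattice Λ ∧ IsArith k Λ ∧ Twd τ g ∧ τ.range ≤ Γ

theorem isArith_sub {Γ Γ' : Subgroup (SUGroup m)} (hA : IsArith m Γ) (hle : Γ' ≤ Γ)
    (hfi : Γ'.relIndex Γ ≠ 0) : IsArith m Γ' := by
  obtain ⟨K, A, O, hU, hO, hc⟩ := hA
  refine ⟨K, A, O, hU, hO, Subgroup.Commensurable.trans ⟨hfi, ?_⟩ hc⟩
  rw [Subgroup.relIndex_eq_one.2 hle]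
  exact one_ne_zero

/-- The preimage of a subgroup of finite index. -/
private theorem pc_pre {Λ : Subgroup (SUGroup m)} {τ : Λ →* SUGroup n} {Γ Γ' : Subgroup (SUGroup n)}
    (hτ : τ.range ≤ Γ) (hfi : Γ'.relIndex Γ ≠ 0) :
    (Γ'.comap τ).map Λ.subtype ≤ Λ ∧ ((Γ'.comap τ).map Λ.subtype).relIndex Λ ≠ 0 := by
  refine ⟨Subgroup.map_subtype_le _, ?_⟩
  rw [Subgroup.relIndex, Subgroup.subgroupOf, Subgroup.comap_map_eq_self_of_injective
    Λ.subtype_injective, Subgroup.index_comap]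
  intro h
  exact hfi (Subgroup.relIndex_eq_zero_of_le_right hτ h)

theorem HasHyp.sub {Γ Γ' : Subgroup (SUGroup (k + 1))} (h : HasHyp Γ)
    (hfi : Γ'.relIndex Γ ≠ 0) : HasHyp Γ' := by
  obtain ⟨Λ, τ, g, hL, hA, hg, hτ⟩ := h
  obtain ⟨h1, h2⟩ := pc_pre hτ hfi
  refine ⟨_, τ.comp (Subgroup.inclusion h1), g, RC.isLattice_of_relIndex hL h1 h2,
    isArith_sub hA h1 h2, fun x => hg _, ?_⟩
  rintro _ ⟨⟨x, hx⟩, rfl⟩
  obtain ⟨y, hy, rfl⟩ := hx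
  exact hy

private theorem pc_dsum (χ : ℂ) (Y : Matrix (Fin (m + 1)) (Fin (m + 1)) ℂ) :
    (dsum χ Y).map cj = dsum (cj χ) (Y.map cj) := by
  ext i j
  refine Fin.cases ?_ (fun i => ?_) i <;> refine Fin.cases ?_ (fun j => ?_) j <;>
    simp [dsum, Matrix.map_apply]

theorem HasHyp.cj {Γ : Subgroup (SUGroup (k + 1))} (h : HasHyp Γ) :
    HasHyp (Γ.map (cjSU (k + 1)).toMonoidHom) := by
  obtain ⟨Λ, τ, g, hL, hA, hg, hτ⟩ := h
  obtain ⟨e, he⟩ : ∃ e : Λ ≃* Λ.map (cjSU k).toMonoidHom,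
      e = Λ.equivMapOfInjective (cjSU k).toMonoidHom (cjSU k).injective := ⟨_, rfl⟩
  refine ⟨Λ.map (cjSU k).toMonoidHom,
    ((cjSU (k + 1)).toMonoidHom.comp τ).comp e.symm.toMonoidHom, cjSU (k + 1) g, isLattice_cj hL,
    isArith_cj hA, ?_, ?_⟩
  · intro x
    obtain ⟨y, rfl⟩ := e.surjective x
    obtain ⟨χ, ψ, h1⟩ := hg y
    refine ⟨HM.cj χ, HM.cj ψ, ?_⟩
    have h2 : (((cjSU (k + 1)).toMonoidHom.comp τ).comp e.symm.toMonoidHom) (e y) =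
        cjSU (k + 1) (τ y) := by
      show cjSU (k + 1) (τ (e.symm (e y))) = _
      rw [MulEquiv.symm_apply_apply]
    have h3 : ((e y : Λ.map (cjSU k).toMonoidHom) : SUGroup k).toMatrix =
        (y : SUGroup k).toMatrix.map HM.cj := by
      rw [he]
      rfl
    rw [h2, h3, ← map_inv, ← map_mul, ← map_mul, cjSU_toMatrix, h1, pc_dsum]
    congr 1
    ext i j
    simp [Matrix.map_apply]
  · rintro _ ⟨x, rfl⟩
    exact ⟨τ (e.symm x), hτ ⟨_, rfl⟩, rfl⟩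

/-- The image of the amalgamated subgroup is a hyperplane piece of the factor. -/
theorem hasHyp_of (hk : 2 ≤ k) {Γ₃ : Subgroup (SUGroup k)} (h₃ : IsLattice Γ₃)
    (hA₃ : IsArith k Γ₃) (hG₃ : GeoV Γ₃) {Γ : Subgroup (SUGroup (k + 1))} (hL : IsLattice Γ)
    (hf : FGG Γ) (ι : Γ₃ →* Γ) (hι : Function.Injective ι) : HasHyp Γ := by
  obtain ⟨Γ', hle, g, -, -, hL', hA', hg⟩ := CI.piece_tw hk h₃ hA₃ hG₃ hL hf (Γ.subtype.comp ι)
    (Γ.subtype_injective.comp hι) (by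
      rintro _ ⟨x, rfl⟩
      exact (ι x).2)
  obtain ⟨Λ, τ, h1, h2, h3, h4⟩ := CI.exists_twd hL' hA' hg
  refine ⟨Λ, τ, g, h1, h2, h3, ?_⟩
  rw [h4]
  rintro _ ⟨x, rfl⟩
  exact (ι _).2

/-- A factor up to finite index and conjugation: standard type, with a hyperplane piece. -/
theorem exists_twd_hyp {Γ : Subgroup (SUGroup (k + 1))} (hL : IsLattice Γ)
    (hA : IsArith (k + 1) Γ) (hH : HasHyp Γ) {ρ : Γ →* SUGroup (k + 2)} {g : SUGroup (k + 2)}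
    (h : Twd ρ g ∨ Twc ρ g) :
    ∃ (Γ₁ : Subgroup (SUGroup (k + 1))) (ρ₁ : Γ₁ →* SUGroup (k + 2)), IsLattice Γ₁ ∧
      IsArith (k + 1) Γ₁ ∧ HasHyp Γ₁ ∧ Twd ρ₁ g ∧ ρ₁.range = ρ.range := by
  rcases h with h | h
  · exact ⟨Γ, ρ, hL, hA, hH, h, rfl⟩
  · obtain ⟨e, he⟩ : ∃ e : Γ ≃* Γ.map (cjSU (k + 1)).toMonoidHom,
        e = Γ.equivMapOfInjective (cjSU (k + 1)).toMonoidHom (cjSU (k + 1)).injective := ⟨_, rfl⟩
    refine ⟨Γ.map (cjSU (k + 1)).toMonoidHom, ρ.comp e.symm.toMonoidHom, isLattice_cj hL,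
      isArith_cj hA, hH.cj, ?_, ?_⟩
    · intro x
      obtain ⟨y, rfl⟩ := e.surjective x
      obtain ⟨χ, ψ, h1⟩ := h y
      refine ⟨χ, ψ, ?_⟩
      have h2 : (ρ.comp e.symm.toMonoidHom) (e y) = ρ y := by
        show ρ (e.symm (e y)) = ρ y
        rw [MulEquiv.symm_apply_apply]
      have h3 : ((e y : Γ.map (cjSU (k + 1)).toMonoidHom) : SUGroup (k + 1)).toMatrix =
          (y : SUGroup (k + 1)).toMatrix.map HM.cj := by
        rw [he]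
        rfl
      rw [h2, h3, h1]
    · ext z
      constructor
      · rintro ⟨x, rfl⟩
        exact ⟨e.symm x, rfl⟩
      · rintro ⟨y, rfl⟩
        refine ⟨e y, ?_⟩
        show ρ (e.symm (e y)) = ρ y
        rw [MulEquiv.symm_apply_apply]

end Pool.Agent.Lib.MP_5d4057_al.DR
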