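import Pool.Agent.Lib.MP_5d4057_al.DR.CharA
import Pool.Agent.Lib.MP_5d4057_al.DR.Piece
import Pool.Agent.Lib.MP_5d4057_al.PU.Top

/-!
# DER: the characters have finite order, from the determinants on the plane (owner: helper53)
-/

set_option autoImplicit false

namespace Pool.Agent.Lib.MP_5d4057_al.DR

open Matrix Filter Topology Pool.Agent.Lib.MP_5d4057_al Pool.Agent.Lib.MP_5d4057_al.Hyb
  Pool.Agent.Lib.MP_5d4057_al.HM Pool.Agent.Lib.MP_5d4057_al.NU Pool.Agent.Lib.MP_5d4057_al.RG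

variable {k n : ℕ}

/-- If the determinants on the cocompact planes are roots of unity, the normal character has finite order. -/
theorem char_fin_of {G : Subgroup (SUGroup (k + 2))} (hG : IsLattice G)
    (hf : FGG G) {Γ : Subgroup (SUGroup (k + 1))} (hL : IsLattice Γ) (hk : 1 ≤ k)
    {K : Subfield ℂ} {H : Matrix (Fin (k + 2)) (Fin (k + 2)) K}
    {B : Matrix (Fin (k + 2)) (Fin (k + 2)) ℂ} (hB : IsForm (k + 1) K H B)
    (hc : Subgroup.Commensurable Γ (integralPoints (k + 1) K B))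
    (hdet : ∀ u w : Vec (k + 2), u ∈ Cone (k + 2) → 0 < q w → herm u w = 0 →
      (∃ D : Set (Vec (k + 2)), IsCompact D ∧ D ⊆ Cone (k + 2) ∧
        (∀ x ∈ D, ∃ a b : ℂ, x = a • u + b • w) ∧
        ∀ x ∈ Cone (k + 2), (∃ a b : ℂ, x = a • u + b • w) → ∃ γ ∈ G,
          (∃ a b : ℂ, act γ u = a • u + b • w) ∧ (∃ a b : ℂ, act γ w = a • u + b • w) ∧
          ∃ c : ℂ, c ≠ 0 ∧ c • act γ x ∈ D) →
      ∀ γ ∈ G, ∀ a b c d : ℂ, act γ u = a • u + b • w → act γ w = c • u + d • w →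
        ∃ N : ℕ, 0 < N ∧ (a * d - b * c) ^ N = 1)
    (ρ : Γ →* SUGroup (k + 2)) (hρ : ρ.range ≤ G)
    {g : SUGroup (k + 2)} (h : Twd ρ g) : FinCh ρ := by
  have hfin : ∃ N : ℕ, 0 < N ∧ ∀ γ : Γ, PU.chr h γ ^ N = 1 := by
    by_contra hinf
    push Not at hinf
    obtain ⟨-, -, g', -, -, -, -, -, -, -, hcoc, y, hy, hy'⟩ := PU.exists_plane hk hB hL hc
      (PU.chr h) (fun ξ hξ γ hγ => PU.chr_par hG hf hρ h ξ hξ γ hγ) hinf
    obtain ⟨u, w, hu, hw, huw, hD, hz⟩ := transport ρ hρ h hcoc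
    obtain ⟨a, b, c, d, h1, h2, h3⟩ := hz y hy
    obtain ⟨N, hN, h4⟩ := hdet u w hu hw huw hD _ (hρ ⟨_, rfl⟩) a b c d h1 h2
    refine hy' (2 * N) (by omega) (Units.ext ?_)
    rw [Units.val_pow_eq_pow_val, Units.val_one]
    have h5 := congrArg (fun z : ℂ => z ^ N) h3
    simp only [mul_pow, one_pow] at h5
    rw [← pow_mul, ← pow_mul, mul_comm (k + 2), pow_mul (a * d - b * c), h4, one_pow, mul_one] at h5
    exact h5
  obtain ⟨N, hN, h1⟩ := hfin
  intro p _ hx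
  obtain ⟨a, ha⟩ := line_nrm hL h hx
  refine ⟨N, hN, fun x => ?_⟩
  rw [← map_pow, ha, act_smul, PU.chr_act h (x ^ N), map_pow, h1, Units.val_one, one_smul]

end Pool.Agent.Lib.MP_5d4057_al.DR
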