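import Pool.Agent.Lib.MP_5d4057_al.DR.CharB
import Pool.Agent.Lib.MP_5d4057_al.DR.Bp
import Pool.Agent.Lib.MP_5d4057_al.PU.Form

/-!
# DER: the characters have finite order
-/

set_option autoImplicit false

namespace Pool.Agent.Lib.MP_5d4057_al.DR

open Matrix Filter Topology Pool.Agent.Lib.MP_5d4057_al Pool.Agent.Lib.MP_5d4057_al.Hyb
  Pool.Agent.Lib.MP_5d4057_al.HM Pool.Agent.Lib.MP_5d4057_al.NU Pool.Agent.Lib.MP_5d4057_al.RG

private theorem cf_pair {n : ℕ} {u w x : Vec n} :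
    x ∈ Submodule.span ℂ {u, w} ↔ ∃ a b : ℂ, x = a • u + b • w := by
  rw [Submodule.mem_span_pair]
  constructor
  · rintro ⟨a, b, h⟩
    exact ⟨a, b, h.symm⟩
  · rintro ⟨a, b, h⟩
    exact ⟨a, b, h.symm⟩

/-- `G` is a lattice in `SU(k+2,1)`; the subgroup `ρ.range` of `G` preserves the hyperplane `g H` and acts on it, up to
scalars, as the arithmetic lattice `Γ` of `SU(k+1,1)`, which itself contains a hyperplane piece. Then it acts on the
normal line through a finite group. -/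
theorem char_fin {k : ℕ} (hk : 3 ≤ k) {G : Subgroup (SUGroup (k + 2))} (hG : IsLattice G)
    (hf : FGG G) {Γ : Subgroup (SUGroup (k + 1))} (hL : IsLattice Γ) (hA : IsArith (k + 1) Γ)
    (hH : HasHyp Γ) (ρ : Γ →* SUGroup (k + 2)) (hρ : ρ.range ≤ G)
    {g : SUGroup (k + 2)} (h : Twd ρ g) : FinCh ρ := by
  obtain ⟨K, H, B, hB, hc⟩ := PU.exists_form_hyp (by omega) hA hH
  refine char_fin_of hG hf hL (by omega) hB hc ?_ ρ hρ h
  rintro u w hu hw huw ⟨D, hD, hDC, hDs, hD'⟩ γ hγ a b c d h1 h2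
  have hco : CocU G u w := by
    refine ⟨D, hD, hDC, fun x hx => cf_pair.2 (hDs x hx), fun v hv hvs => ?_⟩
    obtain ⟨δ, hδ, ⟨a', b', h3⟩, ⟨c', d', h4⟩, e, he, h5⟩ := hD' v hv (cf_pair.1 hvs)
    refine ⟨δ, hδ, fun x hx => ?_, e, he, h5⟩
    obtain ⟨s, t, rfl⟩ := cf_pair.1 hx
    rw [act_add, act_smul, act_smul, h3, h4]
    exact cf_pair.2 ⟨s * a' + t * c', s * b' + t * d', by module⟩
  obtain ⟨N, hN, h3⟩ := det_fin (by omega) hG hf hu hw huw hco
  exact ⟨N, hN, h3 γ hγ a b c d h1 h2⟩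

end Pool.Agent.Lib.MP_5d4057_al.DR
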