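import Mathlib

/-!
(F7): the cocycle of a global solution and the equivariant solution, in abstract form.

`Sol Q W L` stands for: `W` is analytic at `Q` and `T_Q W = W_Q + T_Q(J) L y`.
-/

namespace Pool.Agent.Lib.MP_5d4057_al.DR

open Filter Topology Matrix

variable {N : ℕ}

/-- A function `c` on a preconnected open set with `n = c Q * m` near `Q` is constant. -/
theorem const_of_germ {E : Type*} [TopologicalSpace E] {Ω : Set E} (hO : IsOpen Ω)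
    (hc : IsPreconnected Ω) {n m c : E → ℂ} (h : ∀ Q ∈ Ω, ∀ᶠ y in 𝓝 Q, n y = c Q * m y)
    (hm : ∀ Q ∈ Ω, ¬ ∀ᶠ y in 𝓝 Q, m y = 0) : ∀ Q ∈ Ω, ∀ Q' ∈ Ω, c Q = c Q' := by
  have key : ∀ Q ∈ Ω, ∀ᶠ Q' in 𝓝 Q, c Q = c Q' := by
    intro Q hQ
    filter_upwards [(h Q hQ).eventually_nhds, hO.mem_nhds hQ] with Q' h1 hQ'
    by_contra hne
    refine hm Q' hQ' ?_
    filter_upwards [h1, h Q' hQ'] with y h2 h3
    have h4 : (c Q - c Q') * m y = 0 := by rw [sub_mul, ← h2, ← h3, sub_self]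
    exact (mul_eq_zero.mp h4).resolve_left (sub_ne_zero.mpr hne)
  intro Q hQ Q' hQ'
  refine hc.induction₂ (fun x y => c x = c y) ?_ ?_ ?_ hQ hQ'
  · intro x hx
    exact (key x hx).filter_mono nhdsWithin_le_nhds
  · intro x y z _ _ _ h1 h2
    exact h1.trans h2
  · intro x y _ _ h1
    exact h1.symm

/-- If a matrix kills all vectors of a nonempty open set it is `0`. -/
theorem mat_eq_zero_of_eventually {L : Matrix (Fin N) (Fin N) ℂ} {Q : Fin N → ℂ}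
    (h : ∀ᶠ y in 𝓝 Q, L *ᵥ y = 0) : L = 0 := by
  have hQ : L *ᵥ Q = 0 := h.self_of_nhds
  have h1 : ∀ w : Fin N → ℂ, L *ᵥ w = 0 := by
    intro w
    have hc : Tendsto (fun t : ℂ => Q + t • w) (𝓝 0) (𝓝 Q) := by
      have h2 : Continuous (fun t : ℂ => Q + t • w) := by fun_prop
      have h3 := h2.tendsto 0
      simpa using h3
    have h2 : ∀ᶠ t in 𝓝[≠] (0 : ℂ), L *ᵥ (Q + t • w) = 0 :=
      (hc.eventually h).filter_mono nhdsWithin_le_nhds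
    obtain ⟨t, ht, ht0⟩ := (h2.and self_mem_nhdsWithin).exists
    rw [Matrix.mulVec_add, hQ, zero_add, Matrix.mulVec_smul] at ht
    exact (smul_eq_zero.mp ht).resolve_left ht0
  ext i j
  have h2 := congrFun (h1 (Pi.single j 1)) i
  simpa using h2

/-- `J L y = 0` near `Q` implies `L = 0` when `J` is continuous near `Q`, not locally `0`. -/
theorem mat_eq_zero_of_smul {Ω : Set (Fin N → ℂ)} (hO : IsOpen Ω) {J : (Fin N → ℂ) → ℂ}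
    (hJc : ContinuousOn J Ω) (hJ : ∀ Q ∈ Ω, ¬ ∀ᶠ y in 𝓝 Q, J y = 0) {Q : Fin N → ℂ} (hQ : Q ∈ Ω)
    {L : Matrix (Fin N) (Fin N) ℂ} (h : ∀ᶠ y in 𝓝 Q, J y • (L *ᵥ y) = 0) : L = 0 := by
  have h1 : ∀ᶠ y in 𝓝 Q, y ∈ Ω ∧ ∀ᶠ z in 𝓝 y, J z • (L *ᵥ z) = 0 :=
    (hO.eventually_mem hQ).and h.eventually_nhds
  have h2 : ∃ᶠ y in 𝓝 Q, J y ≠ 0 := fun h3 => hJ Q hQ (h3.mono fun y hy => not_not.mp hy)
  obtain ⟨y, hy, hy1, hy2⟩ := (h2.and_eventually h1).exists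
  refine mat_eq_zero_of_eventually (Q := y) ?_
  have h3 : ∀ᶠ z in 𝓝 y, J z ≠ 0 :=
    (hJc.continuousAt (hO.mem_nhds hy1)).eventually_ne hy
  filter_upwards [h3, hy2] with z hz hz2
  exact (smul_eq_zero.mp hz2).resolve_left hz

section coc

variable {G : Type*} [Group G] (ρ : G →* Matrix (Fin N) (Fin N) ℂ)

theorem rho_inv_mul (g : G) : ρ g⁻¹ * ρ g = 1 := by rw [← map_mul, inv_mul_cancel, map_one]

theorem rho_mul_inv (g : G) : ρ g * ρ g⁻¹ = 1 := by rw [← map_mul, mul_inv_cancel, map_one]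

/-- The transform of a vector field by `g`. -/
def tr (g : G) (W : (Fin N → ℂ) → Fin N → ℂ) (y : Fin N → ℂ) : Fin N → ℂ :=
  ρ g⁻¹ *ᵥ W (ρ g *ᵥ y)

theorem tr_mul (g h : G) (W : (Fin N → ℂ) → Fin N → ℂ) : tr ρ (g * h) W = tr ρ h (tr ρ g W) := by
  funext y
  simp [tr, Matrix.mulVec_mulVec]

/-- **(F7)**: a global solution has a cocycle, of trace `0`; if the cocycle is a coboundary, there
is an equivariant solution `W + J B y`. -/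
theorem exists_equi {CC : Set (Fin N → ℂ)} (hO : IsOpen CC) (hcon : IsPreconnected CC)
    (hne : CC.Nonempty) (hCC : ∀ g, ∀ y ∈ CC, ρ g *ᵥ y ∈ CC) {J : (Fin N → ℂ) → ℂ}
    (hJc : ContinuousOn J CC) (hJ0 : ∀ Q ∈ CC, ¬ ∀ᶠ y in 𝓝 Q, J y = 0)
    (hJ : ∀ g, ∀ y ∈ CC, J (ρ g *ᵥ y) = J y)
    (Sol : (Fin N → ℂ) → ((Fin N → ℂ) → Fin N → ℂ) → Matrix (Fin N) (Fin N) ℂ → Prop)
    (s1 : ∀ Q ∈ CC, ∀ W W' L L', Sol Q W L → Sol Q W' L' →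
      ∀ᶠ y in 𝓝 Q, W' y = W y + J y • ((L' - L) *ᵥ y))
    (s2 : ∀ g, ∀ Q ∈ CC, ∀ W L, Sol (ρ g *ᵥ Q) W L → Sol Q (tr ρ g W) (ρ g⁻¹ * L * ρ g))
    (W : (Fin N → ℂ) → Fin N → ℂ) (hW : ∀ Q ∈ CC, ∃ L, Sol Q W L)
    (s3 : ∃ t : ℂ, ∀ Q ∈ CC, ∀ L, Sol Q W L → L.trace = t)
    (H3 : ∀ κ : G → Matrix (Fin N) (Fin N) ℂ, (∀ g, (κ g).trace = 0) →
      (∀ g h, κ (g * h) = κ g + ρ g * κ h * ρ g⁻¹) → ∃ B, ∀ g, κ g = B - ρ g * B * ρ g⁻¹) :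
    ∃ B : Matrix (Fin N) (Fin N) ℂ, ∀ g, ∀ y ∈ CC,
      W (ρ g *ᵥ y) + J (ρ g *ᵥ y) • (B *ᵥ (ρ g *ᵥ y)) = ρ g *ᵥ (W y + J y • (B *ᵥ y)) := by
  have hz : ∀ Q ∈ CC, ∀ L : Matrix (Fin N) (Fin N) ℂ,
      (∀ᶠ y in 𝓝 Q, J y • (L *ᵥ y) = 0) → L = 0 :=
    fun Q hQ L h => mat_eq_zero_of_smul hO hJc hJ0 hQ h
  choose! L hL using hW
  obtain ⟨t, ht⟩ := s3
  -- the difference at `Q`
  let c : G → (Fin N → ℂ) → Matrix (Fin N) (Fin N) ℂ := fun g Q =>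
    ρ g⁻¹ * L (ρ g *ᵥ Q) * ρ g - L Q
  have hc : ∀ g, ∀ Q ∈ CC, ∀ᶠ y in 𝓝 Q, tr ρ g W y = W y + J y • (c g Q *ᵥ y) := fun g Q hQ =>
    s1 Q hQ W (tr ρ g W) (L Q) _ (hL Q hQ) (s2 g Q hQ W _ (hL _ (hCC g Q hQ)))
  have hc0 : ∀ g, ∀ Q ∈ CC, (c g Q).trace = 0 := by
    intro g Q hQ
    have h1 : (ρ g⁻¹ * L (ρ g *ᵥ Q) * ρ g).trace = (L (ρ g *ᵥ Q)).trace := by
      rw [Matrix.trace_mul_comm, ← Matrix.mul_assoc, rho_mul_inv, Matrix.one_mul]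
    change (ρ g⁻¹ * L (ρ g *ᵥ Q) * ρ g - L Q).trace = 0
    rw [Matrix.trace_sub, h1, ht _ (hCC g Q hQ) _ (hL _ (hCC g Q hQ)), ht Q hQ _ (hL Q hQ),
      sub_self]
  -- it does not depend on `Q`
  have hcc : ∀ g, ∀ Q ∈ CC, ∀ Q' ∈ CC, c g Q = c g Q' := by
    intro g
    have key : ∀ Q ∈ CC, ∀ᶠ Q' in 𝓝 Q, c g Q = c g Q' := by
      intro Q hQ
      filter_upwards [(hc g Q hQ).eventually_nhds, hO.mem_nhds hQ] with Q' h1 hQ'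
      refine sub_eq_zero.mp (hz Q' hQ' _ ?_)
      filter_upwards [h1, hc g Q' hQ'] with y h2 h3
      rw [Matrix.sub_mulVec, smul_sub, sub_eq_zero]
      exact add_left_cancel (h2.symm.trans h3)
    intro Q hQ Q' hQ'
    refine hcon.induction₂ (fun x y => c g x = c g y) ?_ ?_ ?_ hQ hQ'
    · intro x hx
      exact (key x hx).filter_mono nhdsWithin_le_nhds
    · intro x y z _ _ _ h1 h2
      exact h1.trans h2
    · intro x y _ _ h1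
      exact h1.symm
  obtain ⟨Q₀, hQ₀⟩ := hne
  let k : G → Matrix (Fin N) (Fin N) ℂ := fun g => c g Q₀
  have hk : ∀ g, ∀ y ∈ CC, tr ρ g W y = W y + J y • (k g *ᵥ y) := by
    intro g y hy
    have h1 := (hc g y hy).self_of_nhds
    rw [hcc g y hy Q₀ hQ₀] at h1
    exact h1
  -- the cocycle identity
  have hkm : ∀ g h, k (g * h) = ρ h⁻¹ * k g * ρ h + k h := by
    intro g h
    refine sub_eq_zero.mp (hz Q₀ hQ₀ _ ?_)
    filter_upwards [hO.mem_nhds hQ₀] with y hy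
    have h1 := hk (g * h) y hy
    rw [tr_mul] at h1
    have h2 : tr ρ h (tr ρ g W) y = ρ h⁻¹ *ᵥ (W (ρ h *ᵥ y) + J y • (k g *ᵥ (ρ h *ᵥ y))) := by
      rw [tr, hk g _ (hCC h y hy), hJ h y hy]
    have h3 : ρ h⁻¹ *ᵥ W (ρ h *ᵥ y) = W y + J y • (k h *ᵥ y) := hk h y hy
    rw [h2, Matrix.mulVec_add, h3, Matrix.mulVec_smul, Matrix.mulVec_mulVec,
      Matrix.mulVec_mulVec, add_assoc, add_right_inj] at h1
    rw [Matrix.sub_mulVec, smul_sub, ← h1, Matrix.add_mulVec, smul_add]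
    abel
  obtain ⟨B, hB⟩ := H3 (fun g => -(ρ g * k g * ρ g⁻¹)) (by
    intro g
    rw [Matrix.trace_neg, Matrix.trace_mul_comm, ← Matrix.mul_assoc, rho_inv_mul,
      Matrix.one_mul, hc0 g Q₀ hQ₀, neg_zero]) (by
    intro g h
    rw [hkm, map_mul, _root_.mul_inv_rev, map_mul]
    have h1 : ρ g * ρ h * (ρ h⁻¹ * k g * ρ h + k h) * (ρ h⁻¹ * ρ g⁻¹) =
        ρ g * (ρ h * ρ h⁻¹) * k g * (ρ h * ρ h⁻¹) * ρ g⁻¹ +
        ρ g * (ρ h * k h * ρ h⁻¹) * ρ g⁻¹ := by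
      noncomm_ring
    rw [h1, rho_mul_inv]
    noncomm_ring)
  refine ⟨B, fun g y hy => ?_⟩
  have h1 : k g = B - ρ g⁻¹ * B * ρ g := by
    have h2 := hB g
    have h3 : ρ g⁻¹ * (-(ρ g * k g * ρ g⁻¹)) * ρ g = -((ρ g⁻¹ * ρ g) * k g * (ρ g⁻¹ * ρ g)) := by
      noncomm_ring
    have h4 : ρ g⁻¹ * (B - ρ g * B * ρ g⁻¹) * ρ g =
        ρ g⁻¹ * B * ρ g - (ρ g⁻¹ * ρ g) * B * (ρ g⁻¹ * ρ g) := by
      noncomm_ring
    have h5 : ρ g⁻¹ * (-(ρ g * k g * ρ g⁻¹)) * ρ g = ρ g⁻¹ * (B - ρ g * B * ρ g⁻¹) * ρ g := by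
      rw [← h2]
    rw [h3, h4, rho_inv_mul, Matrix.one_mul, Matrix.mul_one, Matrix.one_mul,
      Matrix.mul_one] at h5
    rw [← neg_neg (k g), h5]
    abel
  have h2 : W (ρ g *ᵥ y) = ρ g *ᵥ (W y + J y • (k g *ᵥ y)) := by
    rw [← hk g y hy, tr, Matrix.mulVec_mulVec, rho_mul_inv, Matrix.one_mulVec]
  rw [h2, hJ g y hy, h1, ← sub_eq_zero]
  simp only [Matrix.mulVec_add, Matrix.mulVec_smul, Matrix.sub_mulVec, smul_sub,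
    Matrix.mulVec_mulVec, Matrix.mulVec_sub]
  have h3 : ρ g * (ρ g⁻¹ * B * ρ g) = B * ρ g := by
    rw [← Matrix.mul_assoc, ← Matrix.mul_assoc, rho_mul_inv, Matrix.one_mul]
  rw [h3]
  abel

end coc

end Pool.Agent.Lib.MP_5d4057_al.DR
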