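import Pool.Agent.Lib.MP_5d4057_al.DR.FraA

/-!
# DER, T2 (F2): second derivatives and homogeneity of the formal field, change of frame for `Flat`
-/

set_option autoImplicit false

namespace Pool.Agent.Lib.MP_5d4057_al.DR

open MvPowerSeries Filter Topology Matrix

variable {N : ℕ} {Q : Fin N → ℂ} {F : Fin N → (Fin N → ℂ) → ℂ} {f g : (Fin N → ℂ) → ℂ}

/-- The commutator of `Kd` with a partial derivative. -/
theorem Kd_pderiv (D : Derivation ℤ ℂ ℂ) (F : Fin N → (Fin N → ℂ) → ℂ) (Q : Fin N → ℂ) (j : Fin N)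
    (f : MvPowerSeries (Fin N) ℂ) : Kd D F Q (pderiv ℂ j f) =
      pderiv ℂ j (Kd D F Q f) + ∑ i, pderiv ℂ j (wq D F Q i) * pderiv ℂ i f := by
  rw [Kd_apply, Kd_apply, map_sub, map_sum, Db_pderiv, sub_add, ← Finset.sum_sub_distrib]
  congr 1
  refine Finset.sum_congr rfl fun i _ => ?_
  rw [Derivation.leibniz, smul_eq_mul, smul_eq_mul, pderiv_comm i j f]
  ring

/-- The derivatives of the frame under `Kd`. -/
theorem Kd_MT (D : Derivation ℤ ℂ ℂ) (hJ : Jac F Q ≠ 0) (hF : ∀ a, AnalyticAt ℂ (F a) Q)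
    (a j : Fin N) : Kd D F Q (MT Q F a j) = ∑ i, pderiv ℂ j (wq D F Q i) * MT Q F a i := by
  show Kd D F Q (pderiv ℂ j (Tay Q (F a))) = _
  rw [Kd_pderiv, Kd_frame D hF hJ, map_zero, zero_add]
  rfl

/-- The Taylor series of the Christoffel symbols. -/
theorem T_Gam (hJ : Jac F Q ≠ 0) (hF : ∀ a, AnalyticAt ℂ (F a) Q) (a b c : Fin N) :
    Tay Q (Gam F a b c) = ∑ j, ∑ l, pderiv ℂ j (pderiv ℂ l (Tay Q (F a))) * (MT Q F)⁻¹ j b *
      (MT Q F)⁻¹ l c := by
  have hX := an_Xf hF hJ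
  have h2 : ∀ j l, AnalyticAt ℂ (pd j (pd l (F a))) Q := fun j l => an_dd j (an_dd l (hF a))
  have h3 : ∀ j l, AnalyticAt ℂ (fun y => pd j (pd l (F a)) y * Xf F b y j) Q :=
    fun j l => (h2 j l).mul (hX b j)
  have h4 : ∀ j l, AnalyticAt ℂ (fun y => pd j (pd l (F a)) y * Xf F b y j * Xf F c y l) Q :=
    fun j l => (h3 j l).mul (hX c l)
  have h5 := Tay_sum (Q := Q) Finset.univ
    (fun (j : Fin N) (y : Fin N → ℂ) => ∑ l, pd j (pd l (F a)) y * Xf F b y j * Xf F c y l)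
    (fun j _ => Finset.analyticAt_fun_sum _ fun l _ => h4 j l)
  have h6 : Gam F a b c = fun y => ∑ j, ∑ l, pd j (pd l (F a)) y * Xf F b y j * Xf F c y l := rfl
  rw [h6, h5]
  refine Finset.sum_congr rfl fun j _ => ?_
  rw [Tay_sum (Q := Q) Finset.univ
    (fun (l : Fin N) (y : Fin N → ℂ) => pd j (pd l (F a)) y * Xf F b y j * Xf F c y l)
    (fun l _ => h4 j l)]
  refine Finset.sum_congr rfl fun l _ => ?_
  rw [Tay_mul (f := fun y => pd j (pd l (F a)) y * Xf F b y j) (g := fun y => Xf F c y l)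
    (h3 j l) (hX c l), Tay_mul (f := pd j (pd l (F a))) (g := fun y => Xf F b y j) (h2 j l) (hX b j),
    T_Xf hF hJ, T_Xf hF hJ, Tay_pd j (an_dd l (hF a)), Tay_pd l (hF a)]

/-- The inverse matrix on the right, in the form used below. -/
theorem sum_inv_MT (hJ : Jac F Q ≠ 0) (hF : ∀ a, AnalyticAt ℂ (F a) Q)
    (v : Fin N → MvPowerSeries (Fin N) ℂ) (j : Fin N) :
    ∑ b, (∑ i, v i * (MT Q F)⁻¹ i b) * MT Q F b j = v j := by
  have h := isUnit_MT hF hJ
  have h1 : (v ᵥ* (MT Q F)⁻¹) ᵥ* MT Q F = v := by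
    rw [Matrix.vecMul_vecMul, Matrix.nonsing_inv_mul _ h, Matrix.vecMul_one]
  exact congrFun h1 j

/-- The inverse matrix on the left. -/
theorem inv_MT_sum (hJ : Jac F Q ≠ 0) (hF : ∀ a, AnalyticAt ℂ (F a) Q)
    (v : Fin N → MvPowerSeries (Fin N) ℂ) (i : Fin N) :
    ∑ a, (MT Q F)⁻¹ i a * ∑ j, MT Q F a j * v j = v i := by
  have h := isUnit_MT hF hJ
  have h1 : (MT Q F)⁻¹ *ᵥ (MT Q F *ᵥ v) = v := by
    rw [Matrix.mulVec_mulVec, Matrix.nonsing_inv_mul _ h, Matrix.one_mulVec]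
  exact congrFun h1 i

/-- The second derivatives of the frame in terms of the Christoffel symbols. -/
theorem dd_frame (hJ : Jac F Q ≠ 0) (hF : ∀ a, AnalyticAt ℂ (F a) Q) (a j l : Fin N) :
    pderiv ℂ j (pderiv ℂ l (Tay Q (F a))) =
      ∑ b, ∑ c, Tay Q (Gam F a b c) * MT Q F b j * MT Q F c l := by
  have h1 : ∀ b c, Tay Q (Gam F a b c) = ∑ j', (∑ l', pderiv ℂ j' (pderiv ℂ l' (Tay Q (F a))) *
      (MT Q F)⁻¹ l' c) * (MT Q F)⁻¹ j' b := by
    intro b c
    rw [T_Gam hJ hF]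
    refine Finset.sum_congr rfl fun j' _ => ?_
    rw [Finset.sum_mul]
    refine Finset.sum_congr rfl fun l' _ => ?_
    ring
  have h2 : ∀ c, ∑ b, Tay Q (Gam F a b c) * MT Q F b j =
      ∑ l', pderiv ℂ j (pderiv ℂ l' (Tay Q (F a))) * (MT Q F)⁻¹ l' c := by
    intro c
    simp only [h1]
    exact sum_inv_MT hJ hF (fun j' => ∑ l', pderiv ℂ j' (pderiv ℂ l' (Tay Q (F a))) *
      (MT Q F)⁻¹ l' c) j
  rw [Finset.sum_comm]
  have h3 : ∀ c, ∑ b, Tay Q (Gam F a b c) * MT Q F b j * MT Q F c l =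
      (∑ l', pderiv ℂ j (pderiv ℂ l' (Tay Q (F a))) * (MT Q F)⁻¹ l' c) * MT Q F c l := by
    intro c
    rw [← h2, Finset.sum_mul]
  rw [Finset.sum_congr rfl fun c _ => h3 c]
  exact (sum_inv_MT hJ hF (fun l' => pderiv ℂ j (pderiv ℂ l' (Tay Q (F a)))) l).symm

/-- The key identity behind `hess_wq`. -/
theorem MT_hess (D : Derivation ℤ ℂ ℂ) (hJ : Jac F Q ≠ 0) (hF : ∀ a, AnalyticAt ℂ (F a) Q)
    (a j l : Fin N) : ∑ i, MT Q F a i * pderiv ℂ j (pderiv ℂ l (wq D F Q i)) =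
      ∑ b, ∑ c, Kd D F Q (Tay Q (Gam F a b c)) * MT Q F b j * MT Q F c l := by
  have h1 : Kd D F Q (pderiv ℂ j (pderiv ℂ l (Tay Q (F a)))) =
      ∑ i, MT Q F a i * pderiv ℂ j (pderiv ℂ l (wq D F Q i)) +
      (∑ i, pderiv ℂ l (wq D F Q i) * pderiv ℂ j (pderiv ℂ i (Tay Q (F a))) +
      ∑ i, pderiv ℂ j (wq D F Q i) * pderiv ℂ i (pderiv ℂ l (Tay Q (F a)))) := by
    rw [Kd_pderiv, Kd_pderiv, Kd_frame D hF hJ, map_zero, zero_add, map_sum, ← add_assoc]
    congr 1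
    rw [← Finset.sum_add_distrib]
    refine Finset.sum_congr rfl fun i _ => ?_
    rw [Derivation.leibniz, smul_eq_mul, smul_eq_mul, add_comm]
    rfl
  have h2 : Kd D F Q (∑ b, ∑ c, Tay Q (Gam F a b c) * MT Q F b j * MT Q F c l) =
      ∑ b, ∑ c, Kd D F Q (Tay Q (Gam F a b c)) * MT Q F b j * MT Q F c l +
      (∑ b, ∑ c, Tay Q (Gam F a b c) * MT Q F b j *
        (∑ i, pderiv ℂ l (wq D F Q i) * MT Q F c i) +
      ∑ b, ∑ c, Tay Q (Gam F a b c) * (∑ i, pderiv ℂ j (wq D F Q i) * MT Q F b i) *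
        MT Q F c l) := by
    rw [map_sum, ← Finset.sum_add_distrib, ← Finset.sum_add_distrib]
    refine Finset.sum_congr rfl fun b _ => ?_
    rw [map_sum, ← Finset.sum_add_distrib, ← Finset.sum_add_distrib]
    refine Finset.sum_congr rfl fun c _ => ?_
    rw [Derivation.leibniz, Derivation.leibniz, Kd_MT D hJ hF, Kd_MT D hJ hF]
    simp only [smul_eq_mul]
    ring
  have h3 : ∑ b, ∑ c, Tay Q (Gam F a b c) * MT Q F b j *
      (∑ i, pderiv ℂ l (wq D F Q i) * MT Q F c i) =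
      ∑ i, pderiv ℂ l (wq D F Q i) * pderiv ℂ j (pderiv ℂ i (Tay Q (F a))) := by
    simp only [dd_frame hJ hF a, Finset.mul_sum]
    rw [Finset.sum_congr rfl fun b _ => Finset.sum_comm, Finset.sum_comm]
    refine Finset.sum_congr rfl fun i _ => ?_
    refine Finset.sum_congr rfl fun b _ => ?_
    refine Finset.sum_congr rfl fun c _ => ?_
    ring
  have h4 : ∑ b, ∑ c, Tay Q (Gam F a b c) * (∑ i, pderiv ℂ j (wq D F Q i) * MT Q F b i) *
      MT Q F c l = ∑ i, pderiv ℂ j (wq D F Q i) * pderiv ℂ i (pderiv ℂ l (Tay Q (F a))) := by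
    simp only [dd_frame hJ hF a, Finset.mul_sum, Finset.sum_mul]
    rw [Finset.sum_congr rfl fun b _ => Finset.sum_comm, Finset.sum_comm]
    refine Finset.sum_congr rfl fun i _ => ?_
    refine Finset.sum_congr rfl fun b _ => ?_
    refine Finset.sum_congr rfl fun c _ => ?_
    ring
  rw [← dd_frame hJ hF, h3, h4, h1] at h2
  exact add_right_cancel h2

/-- The second derivatives of the formal field `w`. -/
theorem hess_wq (D : Derivation ℤ ℂ ℂ) (hJ : Jac F Q ≠ 0) (hF : ∀ a, AnalyticAt ℂ (F a) Q)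
    (i j l : Fin N) : pderiv ℂ j (pderiv ℂ l (wq D F Q i)) =
      ∑ a, ∑ b, ∑ c, (MT Q F)⁻¹ i a * Kd D F Q (Tay Q (Gam F a b c)) * MT Q F b j * MT Q F c l := by
  rw [← inv_MT_sum hJ hF (fun i => pderiv ℂ j (pderiv ℂ l (wq D F Q i))) i]
  refine Finset.sum_congr rfl fun a _ => ?_
  rw [MT_hess D hJ hF, Finset.mul_sum]
  refine Finset.sum_congr rfl fun b _ => ?_
  rw [Finset.mul_sum]
  refine Finset.sum_congr rfl fun c _ => ?_
  ring

/-- `Kd` of a coordinate. -/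
theorem Kd_coord (D : Derivation ℤ ℂ ℂ) (F : Fin N → (Fin N → ℂ) → ℂ) (Q : Fin N → ℂ)
    (j : Fin N) : Kd D F Q (C (Q j) + X j) = -wq D F Q j := by
  rw [Kd_apply, Db_coord, zero_sub]
  congr 1
  rw [Finset.sum_eq_single j]
  · rw [map_add, pderiv_C, zero_add, pderiv_X_self, mul_one]
  · intro i _ hi
    rw [map_add, pderiv_C, zero_add, pderiv_X_of_ne hi.symm, mul_zero]
  · intro h
    exact absurd (Finset.mem_univ j) h

/-- Homogeneity of degree one of the formal field, for a homogeneous frame. -/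
theorem euler_wq (D : Derivation ℤ ℂ ℂ) {k : ℕ} (hJ : Jac F Q ≠ 0)
    (hF : ∀ a, AnalyticAt ℂ (F a) Q)
    (he : ∀ a, ∀ᶠ y in 𝓝 Q, ∑ j, y j * pd j (F a) y = -(k : ℂ) * F a y) (i : Fin N) :
    ∑ j, (C (Q j) + X j) * pderiv ℂ j (wq D F Q i) = wq D F Q i := by
  have hE : ∀ a, ∑ j, (C (Q j) + X j) * pderiv ℂ j (Tay Q (F a)) =
      ((-(k : ℤ) : ℤ) : MvPowerSeries (Fin N) ℂ) * Tay Q (F a) := by
    intro a
    refine Tay_euler (hF a) ?_
    filter_upwards [he a] with y hy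
    rw [hy]
    push_cast
    ring
  have h1 : ∀ a, ∑ i, MT Q F a i *
      (∑ j, (C (Q j) + X j) * pderiv ℂ j (wq D F Q i) - wq D F Q i) = 0 := by
    intro a
    have h2 := congrArg (Kd D F Q) (hE a)
    have h3 : Kd D F Q (((-(k : ℤ) : ℤ) : MvPowerSeries (Fin N) ℂ) * Tay Q (F a)) = 0 := by
      rw [Derivation.leibniz, Kd_frame D hF hJ, Derivation.map_intCast, smul_zero, smul_zero,
        add_zero]
    rw [h3, map_sum] at h2
    have h4 : ∀ j, Kd D F Q ((C (Q j) + X j) * pderiv ℂ j (Tay Q (F a))) =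
        ∑ i, (C (Q j) + X j) * (pderiv ℂ j (wq D F Q i) * MT Q F a i) -
          MT Q F a j * wq D F Q j := by
      intro j
      rw [Derivation.leibniz, Kd_coord, ← Finset.mul_sum, ← Kd_MT D hJ hF a j, smul_eq_mul,
        smul_eq_mul]
      show (C (Q j) + X j) * Kd D F Q (MT Q F a j) + MT Q F a j * -wq D F Q j = _
      ring
    rw [Finset.sum_congr rfl fun j _ => h4 j, Finset.sum_sub_distrib, Finset.sum_comm] at h2
    rw [← h2, ← Finset.sum_sub_distrib]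
    refine Finset.sum_congr rfl fun i _ => ?_
    rw [mul_sub, Finset.mul_sum]
    congr 1
    refine Finset.sum_congr rfl fun j _ => ?_
    ring
  have h5 := inv_MT_sum hJ hF
    (fun i => ∑ j, (C (Q j) + X j) * pderiv ℂ j (wq D F Q i) - wq D F Q i) i
  simp only [h1, mul_zero, Finset.sum_const_zero] at h5
  exact (sub_eq_zero.1 h5.symm)

/-- The formal field of a frame is the same (up to nothing) when computed with `Flat` for another
frame plus the change of frame. -/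
theorem Flat.change (D : Derivation ℤ ℂ ℂ) {F' : Fin N → (Fin N → ℂ) → ℂ}
    {W : (Fin N → ℂ) → (Fin N → ℂ)} (hW : Flat D F' Q W)
    (hJ : Jac F Q ≠ 0) (hJ' : Jac F' Q ≠ 0) (hF : ∀ a, AnalyticAt ℂ (F a) Q)
    (hF' : ∀ a, AnalyticAt ℂ (F' a) Q)
    (hd : ∀ a, AnalyticAt ℂ (dlt D F' (F a)) Q ∧ Tay Q (dlt D F' (F a)) = Kd D F' Q (Tay Q (F a))) :
    Flat D F Q fun y => W y + ∑ a, dlt D F' (F a) y • Xf F a y := by
  obtain ⟨hW1, L, hL⟩ := hW
  have hX := an_Xf hF hJ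
  have hp : ∀ i a, AnalyticAt ℂ (fun y => dlt D F' (F a) y * Xf F a y i) Q :=
    fun i a => (hd a).1.mul (hX a i)
  have hs : ∀ i, AnalyticAt ℂ (fun y => ∑ a, dlt D F' (F a) y * Xf F a y i) Q :=
    fun i => Finset.analyticAt_fun_sum _ fun a _ => hp i a
  have he : ∀ i, (fun y => (W y + ∑ a, dlt D F' (F a) y • Xf F a y) i) =
      fun y => W y i + ∑ a, dlt D F' (F a) y * Xf F a y i := by
    intro i
    funext y
    rw [Pi.add_apply, Finset.sum_apply]
    rfl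
  refine ⟨fun i => ?_, L, fun i => ?_⟩
  · rw [he i]
    exact (hW1 i).add (hs i)
  · have hT := Tay_add (Q := Q) (f := fun y => W y i)
      (g := fun y => ∑ a, dlt D F' (F a) y * Xf F a y i) (hW1 i) (hs i)
    rw [he i, hT, hL i, Tay_sum (Q := Q) Finset.univ
      (fun (a : Fin N) (y : Fin N → ℂ) => dlt D F' (F a) y * Xf F a y i) (fun a _ => hp i a)]
    have h1 : ∀ a, Tay Q (fun y => dlt D F' (F a) y * Xf F a y i) =
        (MT Q F)⁻¹ i a * Kd D F' Q (Tay Q (F a)) := by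
      intro a
      rw [Tay_mul (f := dlt D F' (F a)) (g := fun y => Xf F a y i) (hd a).1 (hX a i), (hd a).2,
        T_Xf hF hJ, mul_comm]
    rw [Finset.sum_congr rfl fun a _ => h1 a]
    have h2 : wq D F Q i = wq D F' Q i + ∑ a, (MT Q F)⁻¹ i a * Kd D F' Q (Tay Q (F a)) := by
      have h3 : wq D F Q i = ∑ a, (MT Q F)⁻¹ i a * Db D Q (Tay Q (F a)) := rfl
      rw [h3]
      nth_rw 1 [← inv_MT_sum hJ hF (fun i => wq D F' Q i) i]
      rw [← Finset.sum_add_distrib]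
      refine Finset.sum_congr rfl fun a _ => ?_
      rw [← mul_add]
      congr 1
      rw [Kd_apply]
      have h4 : ∑ j, wq D F' Q j * pderiv ℂ j (Tay Q (F a)) = ∑ j, MT Q F a j * wq D F' Q j :=
        Finset.sum_congr rfl fun j _ => mul_comm _ _
      rw [h4]
      ring
    rw [h2]
    ring

end Pool.Agent.Lib.MP_5d4057_al.DR
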