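import Pool.Agent.Lib.MP_5d4057_al.DR.FraB
import Pool.Agent.Lib.MP_5d4057_al.DR.FraC

/-!
# DER, T2 (F2): algebra of a frame at one point where it is nondegenerate

`FraA`: matrices of Taylor series, `Kd`; `FraB`: `dlt_mul`, `dlt_add`, `dlt_const`, `dlt_frame`, `dlt_congr`, `dlt_change`,
`wq_change`; `FraC`: `hess_wq`, `euler_wq`, `Flat.change`.
-/
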