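import Pool.Agent.Lib.MP_5d4057_al.DR.Gm
import Pool.Agent.Lib.MP_5d4057_al.DR.Fra

/-!
# DER, T2 (F7), first part: invariance of the pointwise derivation, of `Sb` and of `Sol` under the group
-/

set_option autoImplicit false

namespace Pool.Agent.Lib.MP_5d4057_al.DR

open MvPowerSeries Filter Topology Matrix Pool.Agent.Lib.MP_5d4057_al
  Pool.Agent.Lib.MP_5d4057_al.Hyb Pool.Agent.Lib.MP_5d4057_al.HM Pool.Agent.Lib.MP_5d4057_al.QB

section general

variable {N : ℕ} {Q : Fin N → ℂ}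

theorem pd_congr {f g : (Fin N → ℂ) → ℂ} (i : Fin N) (h : f =ᶠ[𝓝 Q] g) :
    pd i f =ᶠ[𝓝 Q] pd i g := by
  filter_upwards [h.eventuallyEq_nhds] with y hy
  unfold pd
  rw [hy.fderiv_eq]

theorem pd_congr_at {f g : (Fin N → ℂ) → ℂ} (i : Fin N) (h : f =ᶠ[𝓝 Q] g) :
    pd i f Q = pd i g Q := (pd_congr i h).self_of_nhds

theorem pd2_congr_at {f g : (Fin N → ℂ) → ℂ} (i j : Fin N) (h : f =ᶠ[𝓝 Q] g) :
    pd i (pd j f) Q = pd i (pd j g) Q := pd_congr_at i (pd_congr j h)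

/-- A linear form is given by its values on the standard basis. -/
theorem lin_single (φ : (Fin N → ℂ) →L[ℂ] ℂ) (w : Fin N → ℂ) :
    φ w = ∑ i, φ (Pi.single i 1) * w i := by
  have h1 : w = ∑ i, w i • (Pi.single i 1 : Fin N → ℂ) := by
    ext j
    simp [Finset.sum_apply, Pi.single_apply]
  conv_lhs => rw [h1]
  rw [map_sum]
  refine Finset.sum_congr rfl fun i _ => ?_
  rw [map_smul, smul_eq_mul, mul_comm]

theorem pd_lin {ι : Type*} (s : Finset ι) (c : ι → ℂ) (g : ι → (Fin N → ℂ) → ℂ) (j : Fin N)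
    (hg : ∀ p ∈ s, DifferentiableAt ℂ (g p) Q) :
    pd j (fun z => ∑ p ∈ s, c p * g p z) Q = ∑ p ∈ s, c p * pd j (g p) Q := by
  have h1 : HasFDerivAt (fun z => ∑ p ∈ s, c p * g p z) (∑ p ∈ s, c p • fderiv ℂ (g p) Q) Q := by
    refine HasFDerivAt.fun_sum fun p hp => ?_
    exact (hg p hp).hasFDerivAt.const_mul (c p)
  unfold pd
  rw [h1.fderiv]
  simp

theorem pd2_lin {ι : Type*} (s : Finset ι) (c : ι → ℂ) (g : ι → (Fin N → ℂ) → ℂ) (j l : Fin N)
    (hg : ∀ p ∈ s, AnalyticAt ℂ (g p) Q) :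
    pd j (pd l (fun z => ∑ p ∈ s, c p * g p z)) Q = ∑ p ∈ s, c p * pd j (pd l (g p)) Q := by
  have h1 : ∀ᶠ y in 𝓝 Q, ∀ p ∈ s, AnalyticAt ℂ (g p) y :=
    (Finset.eventually_all s).2 fun p hp => (hg p hp).eventually_analyticAt
  have h2 : pd l (fun z => ∑ p ∈ s, c p * g p z) =ᶠ[𝓝 Q] fun z => ∑ p ∈ s, c p * pd l (g p) z := by
    filter_upwards [h1] with y hy
    exact pd_lin s c g l fun p hp => (hy p hp).differentiableAt
  rw [pd_congr_at j h2]
  exact pd_lin s c _ j fun p hp => (an_dd l (hg p hp)).differentiableAt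

end general

variable {n : ℕ} {Γ : Subgroup (SUGroup n)} {k l : ℕ} {F : Fin (n + 1) → Vec n → ℂ} {f : Vec n → ℂ}

/-- Chain rule for the action of a matrix. -/
theorem pd_act {f : Vec n → ℂ} (γ : SUGroup n) {Q : Vec n} (j : Fin (n + 1))
    (hf : DifferentiableAt ℂ f (act γ Q)) :
    pd j (fun y => f (act γ y)) Q = ∑ i, pd i f (act γ Q) * γ.toMatrix i j := by
  have h0 : HasFDerivAt (fun y => act γ y)
      (LinearMap.toContinuousLinearMap (Matrix.mulVecLin γ.toMatrix)) Q :=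
    (LinearMap.toContinuousLinearMap (Matrix.mulVecLin γ.toMatrix)).hasFDerivAt
  have h1 := hf.hasFDerivAt.comp Q h0
  have h2 : pd j (fun y => f (act γ y)) Q = fderiv ℂ f (act γ Q)
      (γ.toMatrix *ᵥ (Pi.single j 1 : Fin (n + 1) → ℂ)) := by
    unfold pd
    have h3 : fderiv ℂ (fun y => f (act γ y)) Q = _ := h1.fderiv
    rw [h3]
    rfl
  rw [h2, lin_single]
  refine Finset.sum_congr rfl fun i _ => ?_
  congr 1
  simp

theorem pd2_act {f : Vec n → ℂ} (γ : SUGroup n) {Q : Vec n} (j l : Fin (n + 1))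
    (hf : AnalyticAt ℂ f (act γ Q)) :
    pd j (pd l (fun y => f (act γ y))) Q =
      ∑ p, ∑ q, pd p (pd q f) (act γ Q) * γ.toMatrix p j * γ.toMatrix q l := by
  have hc : ContinuousAt (fun y => act γ y) Q :=
    (LinearMap.toContinuousLinearMap (Matrix.mulVecLin γ.toMatrix)).continuous.continuousAt
  have h1 : ∀ᶠ y in 𝓝 Q, AnalyticAt ℂ f (act γ y) := hc.eventually hf.eventually_analyticAt
  have h2 : pd l (fun y => f (act γ y)) =ᶠ[𝓝 Q]
      fun y => ∑ q, γ.toMatrix q l * (fun y => pd q f (act γ y)) y := by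
    filter_upwards [h1] with y hy
    rw [pd_act γ l hy.differentiableAt]
    exact Finset.sum_congr rfl fun q _ => mul_comm _ _
  have h3 : ∀ q, AnalyticAt ℂ (pd q f) (act γ Q) := fun q => an_dd q hf
  have h4 : ∀ q, DifferentiableAt ℂ (fun y => pd q f (act γ y)) Q := fun q =>
    (h3 q).differentiableAt.comp Q
      (LinearMap.toContinuousLinearMap (Matrix.mulVecLin γ.toMatrix)).differentiableAt
  rw [pd_congr_at j h2, pd_lin _ _ _ _ fun q _ => h4 q, Finset.sum_comm]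
  refine Finset.sum_congr rfl fun q _ => ?_
  rw [pd_act γ j (h3 q).differentiableAt, Finset.mul_sum]
  refine Finset.sum_congr rfl fun p _ => ?_
  ring

private theorem ca_open {Q : Vec n} (hQ : Q ∈ Cone n) : ∀ᶠ y in 𝓝 Q, y ∈ Cone n :=
  (isOpen_cone n).mem_nhds hQ

private theorem ca_inv (hF : ∀ i, Fm Γ (fun _ => 1) k (F i)) {γ : SUGroup n} (hγ : γ ∈ Γ)
    (a : Fin (n + 1)) {y : Vec n} (hy : y ∈ Cone n) : F a (act γ y) = F a y := by
  rw [(hF a).inv γ hγ y hy, one_mul]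

private theorem ca_inv' (hF : ∀ i, Fm Γ (fun _ => 1) k (F i)) {γ : SUGroup n} (hγ : γ ∈ Γ)
    (a : Fin (n + 1)) {Q : Vec n} (hQ : Q ∈ Cone n) :
    F a =ᶠ[𝓝 Q] fun y => F a (act γ y) := by
  filter_upwards [ca_open hQ] with y hy
  exact (ca_inv hF hγ a hy).symm

theorem Mj_act (hF : ∀ i, Fm Γ (fun _ => 1) k (F i)) {γ : SUGroup n} (hγ : γ ∈ Γ)
    {Q : Vec n} (hQ : Q ∈ Cone n) : Mj F (act γ Q) * γ.toMatrix = Mj F Q := by
  ext a j
  have h1 : Mj F Q a j = pd j (F a) Q := rfl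
  rw [h1, pd_congr_at j (ca_inv' hF hγ a hQ),
    pd_act γ j (an_form (hF a) _ (act_mem γ hQ)).differentiableAt, Matrix.mul_apply]
  rfl

theorem Jac_act (hF : ∀ i, Fm Γ (fun _ => 1) k (F i)) {γ : SUGroup n} (hγ : γ ∈ Γ)
    {Q : Vec n} (hQ : Q ∈ Cone n) : Jac F (act γ Q) = Jac F Q := by
  unfold Jac
  rw [← Mj_act hF hγ hQ, Matrix.det_mul, det_toMatrix, mul_one]

theorem Xf_act (hF : ∀ i, Fm Γ (fun _ => 1) k (F i)) {γ : SUGroup n} (hγ : γ ∈ Γ)
    {Q : Vec n} (hQ : Q ∈ Cone n) (a i : Fin (n + 1)) :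
    Xf F a (act γ Q) i = ∑ p, γ.toMatrix i p * Xf F a Q p := by
  have hu : IsUnit γ.toMatrix.det := by rw [det_toMatrix]; exact isUnit_one
  have h1 : γ.toMatrix * (Mj F Q)⁻¹ = (Mj F (act γ Q))⁻¹ := by
    rw [← Mj_act hF hγ hQ, Matrix.mul_inv_rev, Matrix.mul_nonsing_inv_cancel_left _ _ hu]
  unfold Xf
  rw [← h1, Matrix.mul_apply]

/-- The derivatives of an invariant function along the frame fields are invariant. -/
theorem Xf_pd_act (hF : ∀ i, Fm Γ (fun _ => 1) k (F i)) {γ : SUGroup n} (hγ : γ ∈ Γ)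
    {Q : Vec n} (hQ : Q ∈ Cone n) {f : Vec n → ℂ} (hf : DifferentiableAt ℂ f (act γ Q))
    (hfi : ∀ᶠ y in 𝓝 Q, f (act γ y) = f y) (a : Fin (n + 1)) :
    ∑ i, Xf F a (act γ Q) i * pd i f (act γ Q) = ∑ i, Xf F a Q i * pd i f Q := by
  have h1 : ∀ p, pd p f Q = ∑ i, pd i f (act γ Q) * γ.toMatrix i p := fun p => by
    rw [← pd_act γ p hf]
    refine pd_congr_at p ?_
    filter_upwards [hfi] with y hy
    exact hy.symm
  simp_rw [h1, Xf_act hF hγ hQ, Finset.sum_mul, Finset.mul_sum]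
  rw [Finset.sum_comm]
  refine Finset.sum_congr rfl fun p _ => Finset.sum_congr rfl fun i _ => ?_
  ring

/-- Invariance of the pointwise derivation (no hypothesis on the entries of `γ`). -/
theorem dlt_act (D : Derivation ℤ ℂ ℂ) (hF : ∀ i, Fm Γ (fun _ => 1) k (F i)) {f : Vec n → ℂ}
    {γ : SUGroup n} (hγ : γ ∈ Γ) {Q : Vec n} (hQ : Q ∈ Cone n) (_hQJ : Jac F Q ≠ 0)
    (hf : AnalyticAt ℂ f (act γ Q)) (hfi : ∀ᶠ y in 𝓝 Q, f (act γ y) = f y) :
    dlt D F f (act γ Q) = dlt D F f Q := by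
  unfold dlt
  rw [hfi.self_of_nhds]
  congr 1
  refine Finset.sum_congr rfl fun a _ => ?_
  rw [ca_inv hF hγ a hQ, Xf_pd_act hF hγ hQ hf.differentiableAt hfi]

theorem Gam_act (hF : ∀ i, Fm Γ (fun _ => 1) k (F i)) {γ : SUGroup n} (hγ : γ ∈ Γ)
    {Q : Vec n} (hQ : Q ∈ Cone n) (a b c : Fin (n + 1)) :
    Gam F a b c (act γ Q) = Gam F a b c Q := by
  have h1 : ∀ j l, pd j (pd l (F a)) Q =
      ∑ p, ∑ q, pd p (pd q (F a)) (act γ Q) * γ.toMatrix p j * γ.toMatrix q l := fun j l => by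
    rw [← pd2_act γ j l (an_form (hF a) _ (act_mem γ hQ))]
    exact pd2_congr_at j l (ca_inv' hF hγ a hQ)
  unfold Gam
  simp_rw [h1, Xf_act hF hγ hQ]
  have h2 : ∀ p q, pd p (pd q (F a)) (act γ Q) * (∑ j, γ.toMatrix p j * Xf F b Q j) *
      (∑ l, γ.toMatrix q l * Xf F c Q l) = ∑ j, ∑ l, pd p (pd q (F a)) (act γ Q) *
        γ.toMatrix p j * γ.toMatrix q l * Xf F b Q j * Xf F c Q l := fun p q => by
    rw [mul_assoc, Finset.sum_mul_sum, Finset.mul_sum]
    refine Finset.sum_congr rfl fun j _ => ?_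
    rw [Finset.mul_sum]
    refine Finset.sum_congr rfl fun l _ => ?_
    ring
  simp_rw [h2, Finset.sum_mul]
  calc ∑ p, ∑ q, ∑ j, ∑ l, pd p (pd q (F a)) (act γ Q) *
        γ.toMatrix p j * γ.toMatrix q l * Xf F b Q j * Xf F c Q l
      = ∑ p, ∑ j, ∑ q, ∑ l, pd p (pd q (F a)) (act γ Q) *
        γ.toMatrix p j * γ.toMatrix q l * Xf F b Q j * Xf F c Q l :=
        Finset.sum_congr rfl fun p _ => Finset.sum_comm
    _ = ∑ j, ∑ p, ∑ q, ∑ l, pd p (pd q (F a)) (act γ Q) *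
        γ.toMatrix p j * γ.toMatrix q l * Xf F b Q j * Xf F c Q l := Finset.sum_comm
    _ = ∑ j, ∑ p, ∑ l, ∑ q, pd p (pd q (F a)) (act γ Q) *
        γ.toMatrix p j * γ.toMatrix q l * Xf F b Q j * Xf F c Q l :=
        Finset.sum_congr rfl fun j _ => Finset.sum_congr rfl fun p _ => Finset.sum_comm
    _ = ∑ j, ∑ l, ∑ p, ∑ q, pd p (pd q (F a)) (act γ Q) *
        γ.toMatrix p j * γ.toMatrix q l * Xf F b Q j * Xf F c Q l :=
        Finset.sum_congr rfl fun j _ => Finset.sum_comm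

theorem an_Gam {N : ℕ} {F : Fin N → (Fin N → ℂ) → ℂ} {Q : Fin N → ℂ}
    (hF : ∀ a, AnalyticAt ℂ (F a) Q) (hJ : Jac F Q ≠ 0) (a b c : Fin N) :
    AnalyticAt ℂ (Gam F a b c) Q := by
  have h1 : AnalyticAt ℂ (fun y => ∑ j, ∑ l, pd j (pd l (F a)) y * Xf F b y j * Xf F c y l) Q := by
    refine Finset.analyticAt_fun_sum _ fun j _ => Finset.analyticAt_fun_sum _ fun l _ => ?_
    exact ((an_dd j (an_dd l (hF a))).mul (an_Xf hF hJ b j)).mul (an_Xf hF hJ c l)
  exact h1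

/-- Equivariance of the tensor `Sb`. -/
theorem Sb_act (D : Derivation ℤ ℂ ℂ) (hF : ∀ i, Fm Γ (fun _ => 1) k (F i))
    {γ : SUGroup n} (hγ : γ ∈ Γ) {Q : Vec n} (hQ : Q ∈ Cone n) (hQJ : Jac F Q ≠ 0)
    (i j l : Fin (n + 1)) :
    ∑ p, ∑ q, Sb D F i p q (act γ Q) * γ.toMatrix p j * γ.toMatrix q l =
      ∑ p, γ.toMatrix i p * Sb D F p j l Q := by
  have hJ' : Jac F (act γ Q) ≠ 0 := by rwa [Jac_act hF hγ hQ]
  have hG : ∀ a b c, dlt D F (Gam F a b c) (act γ Q) = dlt D F (Gam F a b c) Q := fun a b c =>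
    dlt_act D hF hγ hQ hQJ (an_Gam (fun a => an_form (hF a) _ (act_mem γ hQ)) hJ' a b c) (by
      filter_upwards [ca_open hQ] with y hy
      exact Gam_act hF hγ hy a b c)
  have hM : ∀ b j, ∑ p, Mj F (act γ Q) b p * γ.toMatrix p j = Mj F Q b j := fun b j => by
    rw [← Mj_act hF hγ hQ, Matrix.mul_apply]
  unfold Sb
  simp_rw [hG]
  have h1 : ∀ p q, (∑ a, ∑ b, ∑ c, Xf F a (act γ Q) i * dlt D F (Gam F a b c) Q *
      Mj F (act γ Q) b p * Mj F (act γ Q) c q) * γ.toMatrix p j * γ.toMatrix q l =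
      ∑ a, ∑ b, ∑ c, Xf F a (act γ Q) i * dlt D F (Gam F a b c) Q *
        ((Mj F (act γ Q) b p * γ.toMatrix p j) * (Mj F (act γ Q) c q * γ.toMatrix q l)) :=
    fun p q => by
      rw [mul_assoc, Finset.sum_mul]
      refine Finset.sum_congr rfl fun a _ => ?_
      rw [Finset.sum_mul]
      refine Finset.sum_congr rfl fun b _ => ?_
      rw [Finset.sum_mul]
      refine Finset.sum_congr rfl fun c _ => ?_
      ring
  have h2 : ∀ a b c, ∑ p, ∑ q, Xf F a (act γ Q) i * dlt D F (Gam F a b c) Q *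
        ((Mj F (act γ Q) b p * γ.toMatrix p j) * (Mj F (act γ Q) c q * γ.toMatrix q l)) =
      Xf F a (act γ Q) i * dlt D F (Gam F a b c) Q * Mj F Q b j * Mj F Q c l := fun a b c => by
    rw [← hM b j, ← hM c l, mul_assoc (Xf F a (act γ Q) i * dlt D F (Gam F a b c) Q),
      Finset.sum_mul_sum, Finset.mul_sum]
    refine Finset.sum_congr rfl fun p _ => ?_
    rw [Finset.mul_sum]
  calc _ = ∑ p, ∑ q, ∑ a, ∑ b, ∑ c, Xf F a (act γ Q) i * dlt D F (Gam F a b c) Q *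
        ((Mj F (act γ Q) b p * γ.toMatrix p j) * (Mj F (act γ Q) c q * γ.toMatrix q l)) :=
        Finset.sum_congr rfl fun p _ => Finset.sum_congr rfl fun q _ => h1 p q
    _ = ∑ a, ∑ b, ∑ c, ∑ p, ∑ q, Xf F a (act γ Q) i * dlt D F (Gam F a b c) Q *
        ((Mj F (act γ Q) b p * γ.toMatrix p j) * (Mj F (act γ Q) c q * γ.toMatrix q l)) := by
        rw [Finset.sum_congr rfl fun p _ => Finset.sum_comm, Finset.sum_comm]
        refine Finset.sum_congr rfl fun a _ => ?_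
        rw [Finset.sum_congr rfl fun p _ => Finset.sum_comm, Finset.sum_comm]
        refine Finset.sum_congr rfl fun b _ => ?_
        rw [Finset.sum_congr rfl fun p _ => Finset.sum_comm, Finset.sum_comm]
    _ = ∑ a, ∑ b, ∑ c, Xf F a (act γ Q) i * dlt D F (Gam F a b c) Q * Mj F Q b j * Mj F Q c l :=
        Finset.sum_congr rfl fun a _ => Finset.sum_congr rfl fun b _ =>
          Finset.sum_congr rfl fun c _ => h2 a b c
    _ = _ := by
        simp_rw [Xf_act hF hγ hQ, Finset.mul_sum]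
        conv_rhs => rw [Finset.sum_comm]
        refine Finset.sum_congr rfl fun a _ => ?_
        conv_rhs => rw [Finset.sum_comm]
        refine Finset.sum_congr rfl fun b _ => ?_
        conv_rhs => rw [Finset.sum_comm]
        refine Finset.sum_congr rfl fun c _ => ?_
        simp_rw [Finset.sum_mul]
        refine Finset.sum_congr rfl fun p _ => ?_
        ring

/-- The transported solution. -/
theorem Sol.act {D : Derivation ℤ ℂ ℂ} (hF : ∀ i, Fm Γ (fun _ => 1) k (F i))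
    {γ : SUGroup n} (hγ : γ ∈ Γ) {Q : Vec n} (hQ : Q ∈ Cone n) {W : Vec n → Vec n}
    (h : Sol D F (HM.act γ Q) W) : Sol D F Q fun y => HM.act γ⁻¹ (W (HM.act γ y)) := by
  have hc : ∀ y, ContinuousAt (fun y => HM.act γ y) y := fun y =>
    (LinearMap.toContinuousLinearMap (Matrix.mulVecLin γ.toMatrix)).continuous.continuousAt
  have hg : ∀ y, AnalyticAt ℂ (fun y => HM.act γ y) y := fun y =>
    (LinearMap.toContinuousLinearMap (Matrix.mulVecLin γ.toMatrix)).analyticAt y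
  obtain ⟨hW, hS⟩ := h
  have e1 : ∀ (y : Vec n) (i : Fin (n + 1)), HM.act γ⁻¹ (W (HM.act γ y)) i =
      ∑ p, (γ⁻¹).toMatrix i p * W (HM.act γ y) p := fun y i => rfl
  have hm : (γ⁻¹).toMatrix * γ.toMatrix = 1 := by
    rw [← toMatrix_mul, inv_mul_cancel, toMatrix_one]
  refine ⟨fun i => ?_, ?_⟩
  · simp_rw [e1]
    refine Finset.analyticAt_fun_sum _ fun p _ => analyticAt_const.mul ?_
    exact (hW p).comp_of_eq (hg Q) rfl
  · have h1 : ∀ᶠ y in 𝓝 Q, ∀ p, AnalyticAt ℂ (fun z => W z p) (HM.act γ y) :=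
      (hc Q).eventually (Filter.eventually_all.2 fun p => (hW p).eventually_analyticAt)
    have h2 := (hc Q).eventually hS
    filter_upwards [ca_open hQ, h1, h2] with y hy hWy hSy hJ
    have hJ' : Jac F (HM.act γ y) ≠ 0 := by rwa [Jac_act hF hγ hy]
    obtain ⟨s1, s2⟩ := hSy hJ'
    obtain ⟨V, hV⟩ : ∃ V : Fin (n + 1) → Vec n → ℂ, V = fun p z => (Jac F z)⁻¹ * W z p :=
      ⟨_, rfl⟩
    have hFy : ∀ a, AnalyticAt ℂ (F a) (HM.act γ y) := fun a =>
      an_form (hF a) _ (act_mem γ hy)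
    have hVa : ∀ p, AnalyticAt ℂ (V p) (HM.act γ y) := fun p => by
      rw [hV]
      exact ((an_Jac hFy).inv hJ').mul (hWy p)
    have hVc : ∀ p, AnalyticAt ℂ (fun z => V p (HM.act γ z)) y := fun p =>
      (hVa p).comp_of_eq (hg y) rfl
    have s1' : ∀ i j l, pd j (pd l (V i)) (HM.act γ y) = Sb D F i j l (HM.act γ y) := fun i j l => by
      rw [hV]
      exact s1 i j l
    have s2' : ∀ i, ∑ j, HM.act γ y j * pd j (V i) (HM.act γ y) = V i (HM.act γ y) := fun i => by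
      rw [hV]
      exact s2 i
    have e2 : ∀ i, (fun z => ((Jac F z)⁻¹ • HM.act γ⁻¹ (W (HM.act γ z))) i) =ᶠ[𝓝 y]
        fun z => ∑ p, (γ⁻¹).toMatrix i p * (fun z => V p (HM.act γ z)) z := fun i => by
      filter_upwards [ca_open hy] with z hz
      rw [Pi.smul_apply, smul_eq_mul, e1, Finset.mul_sum, hV]
      refine Finset.sum_congr rfl fun p _ => ?_
      show (Jac F z)⁻¹ * ((γ⁻¹).toMatrix i p * W (HM.act γ z) p) =
        (γ⁻¹).toMatrix i p * ((Jac F (HM.act γ z))⁻¹ * W (HM.act γ z) p)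
      rw [Jac_act hF hγ hz]
      ring
    refine ⟨fun i j l => ?_, fun i => ?_⟩
    · rw [pd2_congr_at j l (e2 i), pd2_lin _ _ _ j l fun p _ => hVc p]
      simp_rw [pd2_act γ j l (hVa _), s1', Sb_act D hF hγ hy hJ, Finset.mul_sum]
      rw [Finset.sum_comm]
      have h3 : ∀ q, ∑ p, (γ⁻¹).toMatrix i p * (γ.toMatrix p q * Sb D F q j l y) =
          (1 : Matrix (Fin (n + 1)) (Fin (n + 1)) ℂ) i q * Sb D F q j l y := fun q => by
        rw [← hm, Matrix.mul_apply, Finset.sum_mul]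
        exact Finset.sum_congr rfl fun p _ => by ring
      simp_rw [h3, Matrix.one_apply]
      simp
    · have h3 : ∀ j, pd j (fun z => ((Jac F z)⁻¹ • HM.act γ⁻¹ (W (HM.act γ z))) i) y =
          ∑ p, (γ⁻¹).toMatrix i p * ∑ q, pd q (V p) (HM.act γ y) * γ.toMatrix q j := fun j => by
        rw [pd_congr_at j (e2 i), pd_lin _ _ _ j fun p _ => (hVc p).differentiableAt]
        refine Finset.sum_congr rfl fun p _ => ?_
        rw [pd_act γ j (hVa p).differentiableAt]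
      simp_rw [h3]
      have h5 : ((Jac F y)⁻¹ • HM.act γ⁻¹ (W (HM.act γ y))) i =
          ∑ p, (γ⁻¹).toMatrix i p * V p (HM.act γ y) := (e2 i).self_of_nhds
      refine Eq.trans ?_ h5.symm
      simp_rw [Finset.mul_sum]
      rw [Finset.sum_comm]
      refine Finset.sum_congr rfl fun p _ => ?_
      rw [← s2' p, Finset.mul_sum, Finset.sum_comm]
      refine Finset.sum_congr rfl fun q _ => ?_
      have h4 : HM.act γ y q = ∑ j, γ.toMatrix q j * y j := rfl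
      rw [h4, Finset.sum_mul, Finset.mul_sum]
      refine Finset.sum_congr rfl fun j _ => ?_
      ring

end Pool.Agent.Lib.MP_5d4057_al.DR
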