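import Mathlib

/-!
The derivative of a determinant and the trace formula (F7).

Everything here is in an arbitrary commutative ring with commuting derivations.
-/

namespace Pool.Agent.Lib.MP_5d4057_al.DR

open Finset Matrix

variable {R : Type*} [CommRing R] {ι : Type*} [Fintype ι] [DecidableEq ι]

theorem der_prod (E : Derivation ℤ R R) {κ : Type*} [DecidableEq κ] (s : Finset κ) (f : κ → R) :
    E (∏ a ∈ s, f a) = ∑ a ∈ s, (∏ b ∈ s.erase a, f b) * E (f a) := by
  induction s using Finset.induction_on with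
  | empty => simp
  | insert a s ha ih =>
    rw [Finset.prod_insert ha, E.leibniz, ih, Finset.sum_insert ha, Finset.erase_insert ha,
      smul_eq_mul, smul_eq_mul, add_comm, Finset.mul_sum]
    congr 1
    refine Finset.sum_congr rfl fun b hb => ?_
    have hab : a ≠ b := fun h => ha (h ▸ hb)
    rw [Finset.erase_insert_of_ne hab, Finset.prod_insert (fun h => ha (Finset.mem_of_mem_erase h)),
      mul_assoc]

/-- Derivative of a determinant, as a sum over the rows. -/
theorem der_det_row (E : Derivation ℤ R R) (M : Matrix ι ι R) :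
    E M.det = ∑ a, (M.updateRow a fun j => E (M a j)).det := by
  have h1 : ∀ A : Matrix ι ι R, A.det = ∑ σ : Equiv.Perm ι, ((σ.sign : ℤ) : R) * ∏ i, A i (σ i) := by
    intro A
    rw [← Matrix.det_transpose, Matrix.det_apply']
    rfl
  rw [h1, map_sum]
  simp_rw [h1]
  rw [Finset.sum_comm]
  refine Finset.sum_congr rfl fun σ _ => ?_
  rw [E.leibniz, der_prod]
  have h2 : E (((σ.sign : ℤ) : R)) = 0 := by
    exact E.map_intCast _
  rw [h2, smul_zero, add_zero, smul_eq_mul, Finset.mul_sum]
  refine Finset.sum_congr rfl fun a _ => ?_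
  congr 1
  rw [← Finset.mul_prod_erase Finset.univ _ (Finset.mem_univ a), Matrix.updateRow_self, mul_comm]
  congr 1
  refine Finset.prod_congr rfl fun b hb => ?_
  rw [Matrix.updateRow_ne (Finset.ne_of_mem_erase hb)]

theorem det_updateRow_eq (M : Matrix ι ι R) (a : ι) (v : ι → R) :
    (M.updateRow a v).det = ∑ j, M.adjugate j a * v j := by
  rw [← Matrix.cramer_transpose_apply, Matrix.cramer_eq_adjugate_mulVec,
    ← Matrix.adjugate_transpose]
  simp [Matrix.mulVec, dotProduct]

/-- Jacobi's formula for a derivation of a commutative ring. -/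
theorem der_det (E : Derivation ℤ R R) (M : Matrix ι ι R) :
    E M.det = ∑ a, ∑ j, M.adjugate j a * E (M a j) := by
  rw [der_det_row]
  simp_rw [det_updateRow_eq]

theorem sum_adj_mul (M l : Matrix ι ι R) :
    ∑ a, ∑ j, M.adjugate j a * (M * l) a j = l.trace * M.det := by
  have h : ∑ a, ∑ j, M.adjugate j a * (M * l) a j = (M.adjugate * (M * l)).trace := by
    rw [Finset.sum_comm]
    rfl
  rw [h, ← Matrix.mul_assoc, Matrix.adjugate_mul, Matrix.smul_mul, Matrix.one_mul,
    Matrix.trace_smul, smul_eq_mul, mul_comm]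

/-- The derivation `Db + (L y) . d`, its value on `f`. -/
def opE (d : ι → Derivation ℤ R R) (Db : Derivation ℤ R R) (y : ι → R) (L : Matrix ι ι R) :
    Derivation ℤ R R :=
  Db + ∑ i, (∑ j, L i j * y j) • d i

theorem opE_apply (d : ι → Derivation ℤ R R) (Db : Derivation ℤ R R) (y : ι → R)
    (L : Matrix ι ι R) (f : R) :
    opE d Db y L f = Db f + ∑ i, (∑ j, L i j * y j) * d i f := by
  rw [opE, Derivation.add_apply]
  congr 1
  have h : ∀ s : Finset ι, (∑ i ∈ s, (∑ j, L i j * y j) • d i : Derivation ℤ R R) f =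
      ∑ i ∈ s, (∑ j, L i j * y j) * d i f := by
    intro s
    induction s using Finset.induction_on with
    | empty => simp
    | insert a s ha ih =>
      rw [Finset.sum_insert ha, Finset.sum_insert ha, Derivation.add_apply, ih,
        Derivation.smul_apply, smul_eq_mul]
  exact h Finset.univ

theorem d_opE {d : ι → Derivation ℤ R R} {Db : Derivation ℤ R R} {y : ι → R} {L : Matrix ι ι R}
    (hdd : ∀ i j f, d i (d j f) = d j (d i f)) (hD : ∀ i f, d i (Db f) = Db (d i f))
    (hy : ∀ i j, d i (y j) = if i = j then 1 else 0) (hL : ∀ k i j, d k (L i j) = 0) (k : ι)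
    (f : R) : d k (opE d Db y L f) = opE d Db y L (d k f) + ∑ i, L i k * d i f := by
  rw [opE_apply, opE_apply, map_add, hD, map_sum, add_assoc, ← Finset.sum_add_distrib]
  congr 1
  refine Finset.sum_congr rfl fun i _ => ?_
  rw [(d k).leibniz, hdd k i, smul_eq_mul, smul_eq_mul, map_sum]
  congr 1
  rw [mul_comm]
  congr 1
  simp [Derivation.leibniz, hL, hy]

/-- The trace formula: the sum of the determinants in which a row `d (F a)` is replaced by
`d (E (F a))`, `E = Db + (L y) . d`, is `E J + tr(L) J`. -/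
theorem tr_formula_E {d : ι → Derivation ℤ R R} {Db : Derivation ℤ R R} {y : ι → R}
    {L : Matrix ι ι R}
    (hdd : ∀ i j f, d i (d j f) = d j (d i f)) (hD : ∀ i f, d i (Db f) = Db (d i f))
    (hy : ∀ i j, d i (y j) = if i = j then 1 else 0) (hL : ∀ k i j, d k (L i j) = 0)
    (F : ι → R) {M : Matrix ι ι R} (hM : ∀ a j, M a j = d j (F a)) :
    ∑ a, ∑ j, M.adjugate j a * d j (opE d Db y L (F a)) =
      opE d Db y L M.det + L.trace * M.det := by
  rw [der_det, ← sum_adj_mul, ← Finset.sum_add_distrib]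
  refine Finset.sum_congr rfl fun a _ => ?_
  rw [← Finset.sum_add_distrib]
  refine Finset.sum_congr rfl fun j _ => ?_
  rw [d_opE hdd hD hy hL, ← hM a j, mul_add, Matrix.mul_apply]
  congr 2
  refine Finset.sum_congr rfl fun i _ => ?_
  rw [hM a i, mul_comm]

/-- A derivation from a function. -/
def mkD (E : R → R) (ha : ∀ a b, E (a + b) = E a + E b) (hm : ∀ a b, E (a * b) = a * E b + b * E a) :
    Derivation ℤ R R :=
  Derivation.mk' (AddMonoidHom.toIntLinearMap (AddMonoidHom.mk' E ha)) fun a b => hm a b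

theorem mkD_apply (E : R → R) (ha : ∀ a b, E (a + b) = E a + E b)
    (hm : ∀ a b, E (a * b) = a * E b + b * E a) (a : R) : mkD E ha hm a = E a := rfl

/-- Jacobi's formula, for a function with the properties of a derivation. -/
theorem der_det_fun (E : R → R) (ha : ∀ a b, E (a + b) = E a + E b)
    (hm : ∀ a b, E (a * b) = a * E b + b * E a) (M : Matrix ι ι R) :
    E M.det = ∑ a, ∑ j, M.adjugate j a * E (M a j) :=
  der_det (mkD E ha hm) M

/-- The trace formula for functions `d`, `Db` with the properties of derivations. -/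
theorem tr_formula_fun {d : ι → R → R} {Db : R → R} {y : ι → R} {L : Matrix ι ι R}
    (ha : ∀ i a b, d i (a + b) = d i a + d i b) (hm : ∀ i a b, d i (a * b) = a * d i b + b * d i a)
    (hDa : ∀ a b, Db (a + b) = Db a + Db b) (hDm : ∀ a b, Db (a * b) = a * Db b + b * Db a)
    (hdd : ∀ i j f, d i (d j f) = d j (d i f)) (hD : ∀ i f, d i (Db f) = Db (d i f))
    (hy : ∀ i j, d i (y j) = if i = j then 1 else 0) (hL : ∀ k i j, d k (L i j) = 0)
    (F : ι → R) {M : Matrix ι ι R} (hM : ∀ a j, M a j = d j (F a)) :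
    ∑ a, ∑ j, M.adjugate j a * d j (Db (F a) + ∑ i, (∑ j, L i j * y j) * d i (F a)) =
      Db M.det + ∑ i, (∑ j, L i j * y j) * d i M.det + L.trace * M.det := by
  have h := tr_formula_E (d := fun i => mkD (d i) (ha i) (hm i)) (Db := mkD Db hDa hDm) (y := y)
    (L := L) hdd hD hy hL F hM
  simp only [opE_apply, mkD_apply] at h
  exact h

/-- The trace formula (F7) of the blueprint. -/
theorem tr_formula {d : ι → Derivation ℤ R R} {Db : Derivation ℤ R R} {y : ι → R}
    {L : Matrix ι ι R}
    (hdd : ∀ i j f, d i (d j f) = d j (d i f)) (hD : ∀ i f, d i (Db f) = Db (d i f))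
    (hy : ∀ i j, d i (y j) = if i = j then 1 else 0) (hL : ∀ k i j, d k (L i j) = 0)
    (F : ι → R) {M : Matrix ι ι R} (hM : ∀ a j, M a j = d j (F a)) {W : ι → R}
    (hW : ∀ i, W i = ∑ a, M.adjugate i a * Db (F a) + M.det * ∑ j, L i j * y j) {PT PD : R}
    (hP : M.det * PT * Db M.det -
      PT * ∑ i, (∑ a, M.adjugate i a * Db (F a)) * d i M.det = -(M.det * PD)) :
    PT * ∑ a, ∑ j, M.adjugate j a * (M.det * d j (∑ i, W i * d i (F a)) -
        (∑ i, W i * d i (F a)) * d j M.det) -
      M.det * (PT * ∑ i, W i * d i M.det - M.det * PD) = L.trace * (M.det ^ 3 * PT) := by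
  -- the vector field `W` on the frame
  have hZ : ∀ a, ∑ i, W i * d i (F a) = M.det * opE d Db y L (F a) := by
    intro a
    have h1 : ∑ i, (∑ b, M.adjugate i b * Db (F b)) * d i (F a) = M.det * Db (F a) := by
      have h2 : ∑ i, (∑ b, M.adjugate i b * Db (F b)) * d i (F a) =
          (M *ᵥ (M.adjugate *ᵥ fun b => Db (F b))) a := by
        simp only [Matrix.mulVec, dotProduct]
        refine Finset.sum_congr rfl fun i _ => ?_
        rw [hM a i, mul_comm]
      rw [h2, Matrix.mulVec_mulVec, Matrix.mul_adjugate]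
      simp [Matrix.smul_mulVec]
    rw [opE_apply, mul_add, ← h1, Finset.mul_sum, ← Finset.sum_add_distrib]
    refine Finset.sum_congr rfl fun i _ => ?_
    rw [hW i]
    ring
  have hJ : PT * ∑ i, W i * d i M.det - M.det * PD = PT * (M.det * opE d Db y L M.det) := by
    have h3 : ∑ i, W i * d i M.det = ∑ i, (∑ a, M.adjugate i a * Db (F a)) * d i M.det +
        M.det * ∑ i, (∑ j, L i j * y j) * d i M.det := by
      rw [Finset.mul_sum, ← Finset.sum_add_distrib]
      refine Finset.sum_congr rfl fun i _ => ?_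
      rw [hW i]
      ring
    rw [h3, opE_apply]
    linear_combination -hP
  have h4 : ∀ a j, M.det * d j (∑ i, W i * d i (F a)) - (∑ i, W i * d i (F a)) * d j M.det =
      M.det ^ 2 * d j (opE d Db y L (F a)) := by
    intro a j
    rw [hZ a, (d j).leibniz, smul_eq_mul, smul_eq_mul]
    ring
  have h5 : ∑ a, ∑ j, M.adjugate j a * (M.det * d j (∑ i, W i * d i (F a)) -
        (∑ i, W i * d i (F a)) * d j M.det) =
      M.det ^ 2 * (opE d Db y L M.det + L.trace * M.det) := by
    rw [← tr_formula_E hdd hD hy hL F hM, Finset.mul_sum]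
    refine Finset.sum_congr rfl fun a _ => ?_
    rw [Finset.mul_sum]
    refine Finset.sum_congr rfl fun j _ => ?_
    rw [h4]
    ring
  rw [h5, hJ]
  ring

/-- `tr_formula` for functions `d`, `Db` with the properties of derivations. -/
theorem tr_formula_funW {d : ι → R → R} {Db : R → R} {y : ι → R} {L : Matrix ι ι R}
    (ha : ∀ i a b, d i (a + b) = d i a + d i b) (hm : ∀ i a b, d i (a * b) = a * d i b + b * d i a)
    (hDa : ∀ a b, Db (a + b) = Db a + Db b) (hDm : ∀ a b, Db (a * b) = a * Db b + b * Db a)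
    (hdd : ∀ i j f, d i (d j f) = d j (d i f)) (hD : ∀ i f, d i (Db f) = Db (d i f))
    (hy : ∀ i j, d i (y j) = if i = j then 1 else 0) (hL : ∀ k i j, d k (L i j) = 0)
    (F : ι → R) {M : Matrix ι ι R} (hM : ∀ a j, M a j = d j (F a)) {W : ι → R}
    (hW : ∀ i, W i = ∑ a, M.adjugate i a * Db (F a) + M.det * ∑ j, L i j * y j) {PT PD : R}
    (hP : M.det * PT * Db M.det -
      PT * ∑ i, (∑ a, M.adjugate i a * Db (F a)) * d i M.det = -(M.det * PD)) :
    PT * ∑ a, ∑ j, M.adjugate j a * (M.det * d j (∑ i, W i * d i (F a)) -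
        (∑ i, W i * d i (F a)) * d j M.det) -
      M.det * (PT * ∑ i, W i * d i M.det - M.det * PD) = L.trace * (M.det ^ 3 * PT) :=
  tr_formula (d := fun i => mkD (d i) (ha i) (hm i)) (Db := mkD Db hDa hDm) (y := y)
    (L := L) hdd hD hy hL F hM hW hP

end Pool.Agent.Lib.MP_5d4057_al.DR
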