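import Pool.Agent.Lib.MP_5d4057_al.DR.FraD
import Pool.Agent.Lib.MP_5d4057_al.DR.Tra

/-!
# DER, T2 (F7): the trace, formal part (helper74)
-/

set_option autoImplicit false

namespace Pool.Agent.Lib.MP_5d4057_al.DR

open MvPowerSeries Filter Topology Matrix

/-- The chain rule for a derivation over `D` and a polynomial with complex coefficients. -/
theorem exists_DP (D : Derivation ℤ ℂ ℂ) {σ : Type} [Fintype σ] (P : MvPolynomial σ ℂ) :
    ∃ PD : MvPolynomial σ ℂ, ∀ (R : Type) [CommRing R] [Algebra ℂ R] (K : R → R) (x : σ → R),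
      (∀ a b, K (a + b) = K a + K b) → (∀ a b, K (a * b) = a * K b + b * K a) →
      (∀ c : ℂ, K (algebraMap ℂ R c) = algebraMap ℂ R (D c)) →
      K (MvPolynomial.aeval x P) = MvPolynomial.aeval x PD +
        ∑ i, MvPolynomial.aeval x (MvPolynomial.pderiv i P) * K (x i) := by
  classical
  induction P using MvPolynomial.induction_on with
  | C c =>
    refine ⟨MvPolynomial.C (D c), fun R _ _ K x h1 h2 h3 => ?_⟩
    simp only [MvPolynomial.aeval_C, MvPolynomial.pderiv_C, map_zero, zero_mul,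
      Finset.sum_const_zero, add_zero]
    exact h3 c
  | add p q hp hq =>
    obtain ⟨P1, h1⟩ := hp
    obtain ⟨P2, h2⟩ := hq
    refine ⟨P1 + P2, fun R _ _ K x ha hm hc => ?_⟩
    rw [map_add, ha, h1 R K x ha hm hc, h2 R K x ha hm hc, map_add]
    simp only [map_add, add_mul, Finset.sum_add_distrib]
    ring
  | mul_X p i hp =>
    obtain ⟨P1, h1⟩ := hp
    refine ⟨P1 * MvPolynomial.X i, fun R _ _ K x ha hm hc => ?_⟩
    rw [map_mul, MvPolynomial.aeval_X, hm, h1 R K x ha hm hc, map_mul, MvPolynomial.aeval_X]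
    have h2 : ∀ j, MvPolynomial.aeval x (MvPolynomial.pderiv j (p * MvPolynomial.X i)) * K (x j) =
        x i * (MvPolynomial.aeval x (MvPolynomial.pderiv j p) * K (x j)) +
        (if j = i then MvPolynomial.aeval x p * K (x j) else 0) := by
      intro j
      rw [Derivation.leibniz, smul_eq_mul, smul_eq_mul, map_add, map_mul, map_mul,
        MvPolynomial.aeval_X, MvPolynomial.pderiv_X]
      by_cases h : j = i
      · subst h
        rw [if_pos rfl, Pi.single_eq_same, map_one]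
        ring
      · rw [if_neg h, Pi.single_eq_of_ne (Ne.symm h), map_zero]
        ring
    simp only [h2]
    rw [Finset.sum_add_distrib, ← Finset.mul_sum, Finset.sum_ite_eq' Finset.univ i,
      if_pos (Finset.mem_univ i)]
    ring

variable {N : ℕ} {Q : Fin N → ℂ} {F : Fin N → (Fin N → ℂ) → ℂ}

theorem ct_an_coord (j : Fin N) : AnalyticAt ℂ (fun y : Fin N → ℂ => y j) Q :=
  (ContinuousLinearMap.proj (R := ℂ) (φ := fun _ : Fin N => ℂ) j).analyticAt Q

theorem ct_an_pd {f : (Fin N → ℂ) → ℂ} (hf : AnalyticAt ℂ f Q) (j : Fin N) :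
    AnalyticAt ℂ (pd j f) Q := by
  have h1 : AnalyticAt ℂ (fderiv ℂ f) Q := hf.fderiv
  exact (ContinuousLinearMap.apply ℂ ℂ (Pi.single j (1 : ℂ) : Fin N → ℂ)).analyticAt _ |>.comp h1

theorem ct_an_det {m : Fin N → Fin N → (Fin N → ℂ) → ℂ} (hm : ∀ i j, AnalyticAt ℂ (m i j) Q) :
    AnalyticAt ℂ (fun y => (Matrix.of fun i j => m i j y).det) Q := by
  have h : (fun y => (Matrix.of fun i j => m i j y).det) =
      fun y => ∑ σ : Equiv.Perm (Fin N), ((σ.sign : ℤ) : ℂ) * ∏ i, m (σ i) i y := by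
    funext y
    rw [Matrix.det_apply']
    rfl
  rw [h]
  exact Finset.analyticAt_fun_sum _ fun σ _ => analyticAt_const.fun_mul
    (Finset.analyticAt_fun_prod _ fun i _ => hm _ _)

theorem ct_Tay_det {m : Fin N → Fin N → (Fin N → ℂ) → ℂ} (hm : ∀ i j, AnalyticAt ℂ (m i j) Q) :
    Tay Q (fun y => (Matrix.of fun i j => m i j y).det) =
      (Matrix.of fun i j => Tay Q (m i j)).det := by
  have h : (fun y => (Matrix.of fun i j => m i j y).det) =
      fun y => ∑ σ : Equiv.Perm (Fin N), ((σ.sign : ℤ) : ℂ) * ∏ i, m (σ i) i y := by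
    funext y
    rw [Matrix.det_apply']
    rfl
  rw [h, Tay_sum _ _ fun σ _ => analyticAt_const.fun_mul
    (Finset.analyticAt_fun_prod _ fun i _ => hm _ _), Matrix.det_apply']
  refine Finset.sum_congr rfl fun σ _ => ?_
  rw [Tay_mul analyticAt_const (Finset.analyticAt_fun_prod _ fun i _ => hm _ _),
    Tay_prod _ _ fun i _ => hm _ _, Tay_const, map_intCast]
  rfl

theorem ct_adj_eq {R : Type*} [CommRing R] (M : Matrix (Fin N) (Fin N) R) (j a : Fin N) :
    M.adjugate j a =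
      (Matrix.of fun i k => if i = a then (if k = j then (1 : R) else 0) else M i k).det := by
  rw [Matrix.adjugate_apply]
  congr 1
  ext i k
  rw [Matrix.updateRow_apply, Matrix.of_apply, Pi.single_apply]

theorem ct_an_adj {m : Fin N → Fin N → (Fin N → ℂ) → ℂ} (hm : ∀ i j, AnalyticAt ℂ (m i j) Q)
    (j a : Fin N) : AnalyticAt ℂ (fun y => (Matrix.of fun i j => m i j y).adjugate j a) Q := by
  simp only [ct_adj_eq, Matrix.of_apply]
  have h := ct_an_det (Q := Q) (m := fun i k => if i = a then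
    (fun _ => if k = j then (1 : ℂ) else 0) else m i k) (by
      intro i k
      split_ifs
      · exact analyticAt_const
      · exact analyticAt_const
      · exact hm i k)
  convert h using 5
  split_ifs <;> rfl

theorem ct_Tay_adj {m : Fin N → Fin N → (Fin N → ℂ) → ℂ} (hm : ∀ i j, AnalyticAt ℂ (m i j) Q)
    (j a : Fin N) : Tay Q (fun y => (Matrix.of fun i j => m i j y).adjugate j a) =
      (Matrix.of fun i j => Tay Q (m i j)).adjugate j a := by
  have h := ct_Tay_det (Q := Q) (m := fun i k => if i = a then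
    (fun _ => if k = j then (1 : ℂ) else 0) else m i k) (by
      intro i k
      split_ifs
      · exact analyticAt_const
      · exact analyticAt_const
      · exact hm i k)
  have h1 : (fun y => (Matrix.of fun i j => m i j y).adjugate j a) = fun y => (Matrix.of fun i k =>
      (if i = a then (fun _ => if k = j then (1 : ℂ) else 0) else m i k) y).det := by
    funext y
    rw [ct_adj_eq]
    congr 2
    funext i k
    simp only [Matrix.of_apply]
    split_ifs <;> rfl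
  rw [h1, h, ct_adj_eq]
  congr 2
  funext i k
  simp only [Matrix.of_apply]
  split_ifs
  · rw [Tay_const, map_one]
  · rw [Tay_const, map_zero]
  · rfl

theorem ct_an_Jac (hF : ∀ a, AnalyticAt ℂ (F a) Q) : AnalyticAt ℂ (Jac F) Q :=
  ct_an_det (m := fun a j => pd j (F a)) fun a j => ct_an_pd (hF a) j

theorem ct_MT_eq (hF : ∀ a, AnalyticAt ℂ (F a) Q) :
    MT Q F = Matrix.of fun a j => Tay Q (pd j (F a)) := by
  ext1 a j
  rw [MT, Matrix.of_apply, Matrix.of_apply, Tay_pd _ (hF a)]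

theorem ct_Tay_Jac (hF : ∀ a, AnalyticAt ℂ (F a) Q) : Tay Q (Jac F) = (MT Q F).det := by
  rw [ct_MT_eq hF]
  exact ct_Tay_det (m := fun a j => pd j (F a)) fun a j => ct_an_pd (hF a) j

/-- The function `W . d F_a`. -/
noncomputable def Zf (F : Fin N → (Fin N → ℂ) → ℂ) (W : (Fin N → ℂ) → Fin N → ℂ) (a : Fin N)
    (y : Fin N → ℂ) : ℂ := ∑ i, W y i * pd i (F a) y

/-- The numerator of the trace. -/
noncomputable def trN (F : Fin N → (Fin N → ℂ) → ℂ) (W : (Fin N → ℂ) → Fin N → ℂ)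
    (pt p' : (Fin N → ℂ) → ℂ) (y : Fin N → ℂ) : ℂ :=
  pt y * ∑ a, ∑ j, (Mj F y).adjugate j a *
      (Jac F y * pd j (Zf F W a) y - Zf F W a y * pd j (Jac F) y) -
    Jac F y * (pt y * ∑ i, W y i * pd i (Jac F) y - Jac F y * p' y)

variable {W : (Fin N → ℂ) → Fin N → ℂ} {pt p' : (Fin N → ℂ) → ℂ}

theorem an_Zf (hF : ∀ a, AnalyticAt ℂ (F a) Q) (hW : ∀ i, AnalyticAt ℂ (fun y => W y i) Q)
    (a : Fin N) : AnalyticAt ℂ (Zf F W a) Q :=
  Finset.analyticAt_fun_sum _ fun i _ => (hW i).fun_mul (ct_an_pd (hF a) i)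

theorem Tay_Zf (hF : ∀ a, AnalyticAt ℂ (F a) Q) (hW : ∀ i, AnalyticAt ℂ (fun y => W y i) Q)
    (a : Fin N) : Tay Q (Zf F W a) =
      ∑ i, Tay Q (fun y => W y i) * pderiv ℂ i (Tay Q (F a)) := by
  have h : Tay Q (fun y => ∑ i, W y i * pd i (F a) y) =
      ∑ i, Tay Q (fun y => W y i * pd i (F a) y) :=
    Tay_sum _ _ fun i _ => (hW i).fun_mul (ct_an_pd (hF a) i)
  refine h.trans (Finset.sum_congr rfl fun i _ => ?_)
  rw [Tay_mul (hW i) (ct_an_pd (hF a) i), Tay_pd _ (hF a)]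

theorem an_trN (hF : ∀ a, AnalyticAt ℂ (F a) Q) (hW : ∀ i, AnalyticAt ℂ (fun y => W y i) Q)
    (hpt : AnalyticAt ℂ pt Q) (hp' : AnalyticAt ℂ p' Q) : AnalyticAt ℂ (trN F W pt p') Q := by
  have hJ := ct_an_Jac hF
  refine AnalyticAt.fun_sub (hpt.fun_mul (Finset.analyticAt_fun_sum _ fun a _ =>
    Finset.analyticAt_fun_sum _ fun j _ => AnalyticAt.fun_mul
      (ct_an_adj (m := fun a j => pd j (F a)) (fun a j => ct_an_pd (hF a) j) j a)
      ((hJ.fun_mul (ct_an_pd (an_Zf hF hW a) j)).fun_sub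
        ((an_Zf hF hW a).fun_mul (ct_an_pd hJ j))))) ?_
  exact hJ.fun_mul ((hpt.fun_mul (Finset.analyticAt_fun_sum _ fun i _ =>
    (hW i).fun_mul (ct_an_pd hJ i))).fun_sub (hJ.fun_mul hp'))

theorem Tay_trN (hF : ∀ a, AnalyticAt ℂ (F a) Q) (hW : ∀ i, AnalyticAt ℂ (fun y => W y i) Q)
    (hpt : AnalyticAt ℂ pt Q) (hp' : AnalyticAt ℂ p' Q) :
    Tay Q (trN F W pt p') = Tay Q pt * ∑ a, ∑ j, (MT Q F).adjugate j a *
      ((MT Q F).det * pderiv ℂ j (∑ i, Tay Q (fun y => W y i) * pderiv ℂ i (Tay Q (F a))) -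
        (∑ i, Tay Q (fun y => W y i) * pderiv ℂ i (Tay Q (F a))) * pderiv ℂ j (MT Q F).det) -
      (MT Q F).det * (Tay Q pt * ∑ i, Tay Q (fun y => W y i) * pderiv ℂ i (MT Q F).det -
        (MT Q F).det * Tay Q p') := by
  have hJ := ct_an_Jac hF
  have hadj : ∀ j a, AnalyticAt ℂ (fun y => (Mj F y).adjugate j a) Q := fun j a =>
    ct_an_adj (m := fun a j => pd j (F a)) (fun a j => ct_an_pd (hF a) j) j a
  have hTadj : ∀ j a, Tay Q (fun y => (Mj F y).adjugate j a) = (MT Q F).adjugate j a := by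
    intro j a
    rw [ct_MT_eq hF]
    exact ct_Tay_adj (m := fun a j => pd j (F a)) (fun a j => ct_an_pd (hF a) j) j a
  have h1 : ∀ j a, AnalyticAt ℂ (fun y => Jac F y * pd j (Zf F W a) y -
      Zf F W a y * pd j (Jac F) y) Q := fun j a =>
    (hJ.fun_mul (ct_an_pd (an_Zf hF hW a) j)).fun_sub ((an_Zf hF hW a).fun_mul (ct_an_pd hJ j))
  have h2 : ∀ a, AnalyticAt ℂ (fun y => ∑ j, (Mj F y).adjugate j a *
      (Jac F y * pd j (Zf F W a) y - Zf F W a y * pd j (Jac F) y)) Q := fun a =>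
    Finset.analyticAt_fun_sum _ fun j _ => (hadj j a).fun_mul (h1 j a)
  have h3 : AnalyticAt ℂ (fun y => ∑ a, ∑ j, (Mj F y).adjugate j a *
      (Jac F y * pd j (Zf F W a) y - Zf F W a y * pd j (Jac F) y)) Q :=
    Finset.analyticAt_fun_sum _ fun a _ => h2 a
  have h4 : AnalyticAt ℂ (fun y => ∑ i, W y i * pd i (Jac F) y) Q :=
    Finset.analyticAt_fun_sum _ fun i _ => (hW i).fun_mul (ct_an_pd hJ i)
  have h5 : AnalyticAt ℂ (fun y => pt y * ∑ i, W y i * pd i (Jac F) y - Jac F y * p' y) Q :=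
    (hpt.fun_mul h4).fun_sub (hJ.fun_mul hp')
  have e1 : Tay Q (trN F W pt p') = Tay Q (fun y => pt y * ∑ a, ∑ j, (Mj F y).adjugate j a *
      (Jac F y * pd j (Zf F W a) y - Zf F W a y * pd j (Jac F) y)) - Tay Q (fun y => Jac F y *
      (pt y * ∑ i, W y i * pd i (Jac F) y - Jac F y * p' y)) :=
    Tay_sub (hpt.fun_mul h3) (hJ.fun_mul h5)
  rw [e1, Tay_mul hpt h3, Tay_mul hJ h5, Tay_sub (hpt.fun_mul h4) (hJ.fun_mul hp'),
    Tay_mul hpt h4, Tay_mul hJ hp', Tay_sum _ _ fun a _ => h2 a,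
    Tay_sum _ _ fun i _ => (hW i).fun_mul (ct_an_pd hJ i)]
  have e2 : ∀ a, Tay Q (fun y => ∑ j, (Mj F y).adjugate j a *
      (Jac F y * pd j (Zf F W a) y - Zf F W a y * pd j (Jac F) y)) =
      ∑ j, (MT Q F).adjugate j a *
      ((MT Q F).det * pderiv ℂ j (∑ i, Tay Q (fun y => W y i) * pderiv ℂ i (Tay Q (F a))) -
        (∑ i, Tay Q (fun y => W y i) * pderiv ℂ i (Tay Q (F a))) * pderiv ℂ j (MT Q F).det) := by
    intro a
    rw [Tay_sum _ _ fun j _ => (hadj j a).fun_mul (h1 j a)]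
    refine Finset.sum_congr rfl fun j _ => ?_
    rw [Tay_mul (hadj j a) (h1 j a), hTadj,
      Tay_sub (hJ.fun_mul (ct_an_pd (an_Zf hF hW a) j)) ((an_Zf hF hW a).fun_mul (ct_an_pd hJ j)),
      Tay_mul hJ (ct_an_pd (an_Zf hF hW a) j), Tay_mul (an_Zf hF hW a) (ct_an_pd hJ j),
      Tay_pd _ (an_Zf hF hW a), Tay_pd _ hJ, Tay_Zf hF hW, ct_Tay_Jac hF]
  have e3 : ∀ i, Tay Q (fun y => W y i * pd i (Jac F) y) =
      Tay Q (fun y => W y i) * pderiv ℂ i (MT Q F).det := by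
    intro i
    rw [Tay_mul (hW i) (ct_an_pd hJ i), Tay_pd _ hJ, ct_Tay_Jac hF]
  simp only [e2, e3, ct_Tay_Jac hF]

/-- **The trace formula near a point with nonvanishing Jacobian.** -/
theorem trN_eq (D : Derivation ℤ ℂ ℂ) (hF : ∀ a, AnalyticAt ℂ (F a) Q) (hJ0 : Jac F Q ≠ 0)
    (hW : ∀ i, AnalyticAt ℂ (fun y => W y i) Q) (hpt : AnalyticAt ℂ pt Q)
    (hp' : AnalyticAt ℂ p' Q) {L : Matrix (Fin N) (Fin N) ℂ}
    (hL : ∀ i, Tay Q (fun y => W y i) = (MT Q F).det *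
      (wq D F Q i + ∑ j, C (L i j) * (C (Q j) + X j)))
    (hK : Tay Q pt * (Db D Q (MT Q F).det - ∑ i, wq D F Q i * pderiv ℂ i (MT Q F).det) =
      - Tay Q p') :
    ∀ᶠ y in 𝓝 Q, trN F W pt p' y = L.trace * (Jac F y ^ 3 * pt y) := by
  have hJ := ct_an_Jac hF
  have hu : IsUnit (MT Q F).det := by
    rw [← ct_Tay_Jac hF, MvPowerSeries.isUnit_iff_constantCoeff, Tay_const_coeff]
    exact hJ0.isUnit
  have hw : ∀ i, (MT Q F).det * wq D F Q i =
      ∑ a, (MT Q F).adjugate i a * Db D Q (Tay Q (F a)) := by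
    intro i
    have h1 : wq D F Q = (MT Q F)⁻¹ *ᵥ fun a => Db D Q (Tay Q (F a)) := rfl
    rw [h1, Matrix.inv_def, Matrix.smul_mulVec, Pi.smul_apply, smul_eq_mul, ← mul_assoc,
      Ring.mul_inverse_cancel _ hu, one_mul]
    rfl
  have key := tr_formula_funW (R := MvPowerSeries (Fin N) ℂ) (ι := Fin N)
      (d := fun i S => pderiv ℂ i S) (Db := fun S => Db D Q S)
      (y := fun j => C (Q j) + X j) (L := L.map C)
      (fun i a b => map_add _ a b) (fun i a b => (pderiv ℂ i).leibniz a b)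
      (fun a b => map_add _ a b) (fun a b => (Db D Q).leibniz a b)
      (fun i j f => pderiv_comm i j f) (fun i f => (Db_pderiv D Q i f).symm)
      (fun i j => by
        rw [map_add, MvPowerSeries.pderiv_C, zero_add, MvPowerSeries.pderiv_X, Pi.single_apply]
        simp only [eq_comm])
      (fun k i j => by rw [Matrix.map_apply, MvPowerSeries.pderiv_C])
      (fun a => Tay Q (F a)) (M := MT Q F) (fun a j => rfl)
      (W := fun i => Tay Q (fun y => W y i)) (PT := Tay Q pt) (PD := Tay Q p')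
      (fun i => by
        rw [hL i, mul_add, hw i]
        rfl)
      (by
        have h1 : ∑ i, (∑ a, (MT Q F).adjugate i a * Db D Q (Tay Q (F a))) *
            pderiv ℂ i (MT Q F).det = (MT Q F).det * ∑ i, wq D F Q i * pderiv ℂ i (MT Q F).det := by
          rw [Finset.mul_sum]
          refine Finset.sum_congr rfl fun i _ => ?_
          rw [← hw i, mul_assoc]
        rw [h1]
        linear_combination (MT Q F).det * hK)
  have h8 : (L.map C).trace = (C L.trace : MvPowerSeries (Fin N) ℂ) := by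
    rw [Matrix.trace, Matrix.trace, map_sum]
    rfl
  have hR : AnalyticAt ℂ (fun y => L.trace * (Jac F y ^ 3 * pt y)) Q :=
    analyticAt_const.fun_mul ((hJ.fun_pow 3).fun_mul hpt)
  refine Tay_ext (an_trN hF hW hpt hp') hR ?_
  rw [Tay_trN hF hW hpt hp', Tay_mul analyticAt_const ((hJ.fun_pow 3).fun_mul hpt), Tay_const,
    Tay_mul (hJ.fun_pow 3) hpt, Tay_pow 3 hJ, ct_Tay_Jac hF, ← h8]
  exact key

section cov

variable {A B : Matrix (Fin N) (Fin N) ℂ}

theorem ct_pd_comp {f : (Fin N → ℂ) → ℂ} {y : Fin N → ℂ} (hf : DifferentiableAt ℂ f (A *ᵥ y))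
    (j : Fin N) : pd j (fun z => f (A *ᵥ z)) y = ∑ k, pd k f (A *ᵥ y) * A k j := by
  obtain ⟨l, hl⟩ : ∃ l : (Fin N → ℂ) →L[ℂ] (Fin N → ℂ), ∀ z, l z = A *ᵥ z :=
    ⟨LinearMap.toContinuousLinearMap (Matrix.mulVecLin A), fun z => rfl⟩
  have h1 : HasFDerivAt (fun z : Fin N → ℂ => f (A *ᵥ z)) ((fderiv ℂ f (A *ᵥ y)).comp l) y := by
    have h2 : HasFDerivAt f (fderiv ℂ f (A *ᵥ y)) (l y) := by
      rw [hl]
      exact hf.hasFDerivAt
    have h3 := h2.comp y l.hasFDerivAt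
    refine h3.congr_of_eventuallyEq (Eventually.of_forall fun z => ?_)
    rw [Function.comp_apply, hl]
  rw [pd, h1.fderiv, ContinuousLinearMap.comp_apply, hl, Matrix.mulVec_single_one]
  have h4 : (A.col j : Fin N → ℂ) = ∑ k, A k j • (Pi.single k 1 : Fin N → ℂ) := by
    funext i
    rw [Finset.sum_apply, Finset.sum_eq_single i]
    · simp [Matrix.col]
    · intro b _ hb
      rw [Pi.smul_apply, Pi.single_eq_of_ne (Ne.symm hb), smul_zero]
    · intro h
      exact absurd (Finset.mem_univ i) h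
  rw [h4, map_sum]
  refine Finset.sum_congr rfl fun k _ => ?_
  rw [map_smul, smul_eq_mul, mul_comm]
  rfl

theorem ct_pd_congr {f g : (Fin N → ℂ) → ℂ} {y : Fin N → ℂ} (h : f =ᶠ[𝓝 y] g) (j : Fin N) :
    pd j f y = pd j g y := by
  rw [pd, pd, h.fderiv_eq]

theorem ct_pd_inv {f : (Fin N → ℂ) → ℂ} {y : Fin N → ℂ} (hf : DifferentiableAt ℂ f (A *ᵥ y))
    (hi : ∀ᶠ z in 𝓝 y, f (A *ᵥ z) = f z) (j : Fin N) :
    pd j f y = ∑ k, pd k f (A *ᵥ y) * A k j := by
  rw [← ct_pd_comp hf]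
  exact (ct_pd_congr hi j).symm

theorem cov_sum (hAB : A * B = 1) (u g : Fin N → ℂ) :
    ∑ j, (∑ l, B j l * u l) * (∑ k, g k * A k j) = ∑ l, u l * g l := by
  have h1 : ∑ j, (∑ l, B j l * u l) * (∑ k, g k * A k j) = (g ᵥ* A) ⬝ᵥ (B *ᵥ u) := by
    rw [dotProduct]
    refine Finset.sum_congr rfl fun j _ => ?_
    rw [mul_comm]
    rfl
  rw [h1, ← Matrix.dotProduct_mulVec, Matrix.mulVec_mulVec, hAB, Matrix.one_mulVec, dotProduct]
  exact Finset.sum_congr rfl fun l _ => mul_comm _ _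

theorem ct_Mj_act {y : Fin N → ℂ} (hF : ∀ a, DifferentiableAt ℂ (F a) (A *ᵥ y))
    (hi : ∀ a, ∀ᶠ z in 𝓝 y, F a (A *ᵥ z) = F a z) : Mj F y = Mj F (A *ᵥ y) * A := by
  ext1 a j
  rw [Mj, Matrix.of_apply, ct_pd_inv (hF a) (hi a), Matrix.mul_apply]
  rfl

theorem ct_adj_act {y : Fin N → ℂ} (hd : A.det = 1) (hB : B * A = 1)
    (hF : ∀ a, DifferentiableAt ℂ (F a) (A *ᵥ y))
    (hi : ∀ a, ∀ᶠ z in 𝓝 y, F a (A *ᵥ z) = F a z) (j a : Fin N) :
    (Mj F y).adjugate j a = ∑ l, B j l * (Mj F (A *ᵥ y)).adjugate l a := by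
  have h1 : A.adjugate = B := by
    have h2 : B * (A * A.adjugate) = B := by
      rw [Matrix.mul_adjugate, hd, one_smul, Matrix.mul_one]
    rw [← Matrix.mul_assoc, hB, Matrix.one_mul] at h2
    exact h2
  rw [ct_Mj_act hF hi, Matrix.adjugate_mul_distrib, h1, Matrix.mul_apply]

/-- Covariance of the numerator of the trace. -/
theorem trN_act {y : Fin N → ℂ} (hd : A.det = 1) (hB : B * A = 1) (hAB : A * B = 1)
    (hF : ∀ a, AnalyticAt ℂ (F a) (A *ᵥ y))
    (hi : ∀ a, ∀ᶠ z in 𝓝 y, F a (A *ᵥ z) = F a z)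
    (hW : ∀ i, AnalyticAt ℂ (fun z => W z i) (A *ᵥ y))
    (hpt : pt (A *ᵥ y) = pt y) (hp' : p' (A *ᵥ y) = p' y) :
    trN F (fun z => B *ᵥ W (A *ᵥ z)) pt p' y = trN F W pt p' (A *ᵥ y) := by
  have hcA : Continuous (fun z : Fin N → ℂ => A *ᵥ z) := by fun_prop
  have hFn : ∀ᶠ z in 𝓝 y, ∀ a, AnalyticAt ℂ (F a) (A *ᵥ z) :=
    eventually_all.mpr fun a => (hcA.tendsto y).eventually (hF a).eventually_analyticAt
  have hin : ∀ᶠ z in 𝓝 y, ∀ a, ∀ᶠ x in 𝓝 z, F a (A *ᵥ x) = F a x :=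
    eventually_all.mpr fun a => (hi a).eventually_nhds
  have hJn : ∀ᶠ z in 𝓝 y, Jac F (A *ᵥ z) = Jac F z := by
    filter_upwards [hFn, hin] with z h1 h2
    rw [Jac, Jac, ct_Mj_act (fun a => (h1 a).differentiableAt) h2, Matrix.det_mul, hd, mul_one]
  have hJA : AnalyticAt ℂ (Jac F) (A *ᵥ y) := ct_an_Jac hF
  have hJy : Jac F (A *ᵥ y) = Jac F y := hJn.self_of_nhds
  have hpJ : ∀ j, pd j (Jac F) y = ∑ k, pd k (Jac F) (A *ᵥ y) * A k j := fun j =>
    ct_pd_inv hJA.differentiableAt hJn j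
  have hZn : ∀ a, ∀ᶠ z in 𝓝 y, Zf F (fun z => B *ᵥ W (A *ᵥ z)) a z = Zf F W a (A *ᵥ z) := by
    intro a
    filter_upwards [hFn, hin] with z h1 h2
    have h3 : Zf F (fun z => B *ᵥ W (A *ᵥ z)) a z =
        ∑ i, (∑ l, B i l * W (A *ᵥ z) l) * (∑ k, pd k (F a) (A *ᵥ z) * A k i) := by
      rw [Zf]
      refine Finset.sum_congr rfl fun i _ => ?_
      rw [ct_pd_inv (h1 a).differentiableAt (h2 a)]
      rfl
    rw [h3, cov_sum hAB]
    rfl
  have hpZ : ∀ a j, pd j (Zf F (fun z => B *ᵥ W (A *ᵥ z)) a) y =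
      ∑ k, pd k (Zf F W a) (A *ᵥ y) * A k j := by
    intro a j
    rw [ct_pd_congr (hZn a), ct_pd_comp (an_Zf hF hW a).differentiableAt]
  have hZy : ∀ a, Zf F (fun z => B *ᵥ W (A *ᵥ z)) a y = Zf F W a (A *ᵥ y) := fun a =>
    (hZn a).self_of_nhds
  have e1 : ∀ a, ∑ j, (Mj F y).adjugate j a * (Jac F y *
      pd j (Zf F (fun z => B *ᵥ W (A *ᵥ z)) a) y -
      Zf F (fun z => B *ᵥ W (A *ᵥ z)) a y * pd j (Jac F) y) =
      ∑ j, (Mj F (A *ᵥ y)).adjugate j a * (Jac F (A *ᵥ y) * pd j (Zf F W a) (A *ᵥ y) -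
        Zf F W a (A *ᵥ y) * pd j (Jac F) (A *ᵥ y)) := by
    intro a
    rw [← cov_sum hAB (fun l => (Mj F (A *ᵥ y)).adjugate l a)]
    refine Finset.sum_congr rfl fun j _ => ?_
    rw [ct_adj_act hd hB (fun a => (hF a).differentiableAt) hi, hpZ, hZy, hpJ, hJy, Finset.mul_sum,
      Finset.mul_sum, ← Finset.sum_sub_distrib]
    congr 1
    refine Finset.sum_congr rfl fun k _ => ?_
    ring
  have e2 : ∑ i, (B *ᵥ W (A *ᵥ y)) i * pd i (Jac F) y =
      ∑ i, W (A *ᵥ y) i * pd i (Jac F) (A *ᵥ y) := by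
    rw [← cov_sum hAB (fun l => W (A *ᵥ y) l)]
    refine Finset.sum_congr rfl fun i _ => ?_
    rw [hpJ]
    rfl
  simp only [trN, e1, e2, hpt, hp', hJy]

end cov

end Pool.Agent.Lib.MP_5d4057_al.DR
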