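import Pool.Agent.Lib.MP_5d4057_al.DR.FraD

/-!
# DER, T2 (F2): algebra of a frame at one point where it is nondegenerate, first half
-/

set_option autoImplicit false

namespace Pool.Agent.Lib.MP_5d4057_al.DR

open MvPowerSeries Filter Topology Matrix

variable {N : ℕ} {Q : Fin N → ℂ} {F : Fin N → (Fin N → ℂ) → ℂ} {f g : (Fin N → ℂ) → ℂ}

/-- The determinant of a matrix of analytic functions. -/
theorem an_det {A : (Fin N → ℂ) → Matrix (Fin N) (Fin N) ℂ}
    (h : ∀ i j, AnalyticAt ℂ (fun y => A y i j) Q) : AnalyticAt ℂ (fun y => (A y).det) Q := by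
  have h1 : (fun y => (A y).det) = fun y => ∑ σ : Equiv.Perm (Fin N),
      (((Equiv.Perm.sign σ : ℤˣ) : ℤ) : ℂ) * ∏ i, A y (σ i) i := by
    funext y
    exact Matrix.det_apply' (A y)
  rw [h1]
  refine Finset.analyticAt_fun_sum _ fun σ _ => ?_
  exact analyticAt_const.mul (Finset.analyticAt_fun_prod _ fun i _ => h _ _)

/-- The Taylor series of a determinant. -/
theorem T_det {A : (Fin N → ℂ) → Matrix (Fin N) (Fin N) ℂ}
    (h : ∀ i j, AnalyticAt ℂ (fun y => A y i j) Q) :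
    Tay Q (fun y => (A y).det) = (Matrix.of fun i j => Tay Q fun y => A y i j).det := by
  have h1 : (fun y => (A y).det) = fun y => ∑ σ : Equiv.Perm (Fin N),
      (((Equiv.Perm.sign σ : ℤˣ) : ℤ) : ℂ) * ∏ i, A y (σ i) i := by
    funext y
    exact Matrix.det_apply' (A y)
  have hp : ∀ σ : Equiv.Perm (Fin N), AnalyticAt ℂ (fun y => ∏ i, A y (σ i) i) Q :=
    fun σ => Finset.analyticAt_fun_prod _ fun i _ => h _ _
  have h2 := Tay_sum (Q := Q) Finset.univ (fun (σ : Equiv.Perm (Fin N)) (y : Fin N → ℂ) =>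
    (((Equiv.Perm.sign σ : ℤˣ) : ℤ) : ℂ) * ∏ i, A y (σ i) i)
    (fun σ _ => analyticAt_const.mul (hp σ))
  rw [h1, h2, Matrix.det_apply']
  refine Finset.sum_congr rfl fun σ _ => ?_
  have h3 := Tay_mul (Q := Q) (f := fun _ => (((Equiv.Perm.sign σ : ℤˣ) : ℤ) : ℂ))
    (g := fun y => ∏ i, A y (σ i) i) analyticAt_const (hp σ)
  have h4 := Tay_prod (Q := Q) Finset.univ (fun (i : Fin N) (y : Fin N → ℂ) => A y (σ i) i)
    (fun i _ => h _ _)
  rw [h3, h4, Tay_const, map_intCast]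
  rfl

/-- The adjugate of a matrix of analytic functions. -/
theorem an_adj {A : (Fin N → ℂ) → Matrix (Fin N) (Fin N) ℂ}
    (h : ∀ i j, AnalyticAt ℂ (fun y => A y i j) Q) (i j : Fin N) :
    AnalyticAt ℂ (fun y => (A y).adjugate i j) Q := by
  simp only [Matrix.adjugate_apply]
  refine an_det fun k l => ?_
  by_cases hk : k = j
  · subst hk
    simp only [Matrix.updateRow_self]
    exact analyticAt_const
  · simp only [Matrix.updateRow_ne hk]
    exact h k l

/-- The Taylor series of the adjugate. -/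
theorem T_adj {A : (Fin N → ℂ) → Matrix (Fin N) (Fin N) ℂ}
    (h : ∀ i j, AnalyticAt ℂ (fun y => A y i j) Q) (i j : Fin N) :
    Tay Q (fun y => (A y).adjugate i j) = (Matrix.of fun i j => Tay Q fun y => A y i j).adjugate i j := by
  have hA : ∀ k l, AnalyticAt ℂ (fun y => (A y).updateRow j (Pi.single i 1) k l) Q := by
    intro k l
    by_cases hk : k = j
    · subst hk
      simp only [Matrix.updateRow_self]
      exact analyticAt_const
    · simp only [Matrix.updateRow_ne hk]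
      exact h k l
  simp only [Matrix.adjugate_apply]
  rw [T_det hA]
  congr 1
  ext1 k l
  rw [Matrix.of_apply]
  by_cases hk : k = j
  · subst hk
    simp only [Matrix.updateRow_self]
    rw [Tay_const]
    by_cases hl : l = i
    · subst hl
      rw [Pi.single_eq_same, Pi.single_eq_same, map_one]
    · rw [Pi.single_eq_of_ne hl, Pi.single_eq_of_ne hl, map_zero]
  · simp only [Matrix.updateRow_ne hk]
    rfl

theorem MT_map (hF : ∀ a, AnalyticAt ℂ (F a) Q) (a j : Fin N) : MT Q F a j = Tay Q (fun y => Mj F y a j) :=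
  (Tay_pd j (hF a)).symm

/-- The partial derivatives of a frame are analytic. -/
theorem an_Mj (hF : ∀ a, AnalyticAt ℂ (F a) Q) (a j : Fin N) :
    AnalyticAt ℂ (fun y => Mj F y a j) Q :=
  an_dd j (hF a)

theorem MT_eq (hF : ∀ a, AnalyticAt ℂ (F a) Q) :
    MT Q F = Matrix.of fun a j => Tay Q fun y => Mj F y a j := by
  ext1 a j
  exact MT_map hF a j

theorem T_Jac (hF : ∀ a, AnalyticAt ℂ (F a) Q) : Tay Q (Jac F) = (MT Q F).det := by
  rw [MT_eq hF, ← T_det (an_Mj hF)]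
  rfl

theorem isUnit_MT (hF : ∀ a, AnalyticAt ℂ (F a) Q) (hJ : Jac F Q ≠ 0) : IsUnit (MT Q F).det := by
  rw [← T_Jac hF, MvPowerSeries.isUnit_iff_constantCoeff, Tay_const_coeff]
  exact hJ.isUnit

theorem an_Jac (hF : ∀ a, AnalyticAt ℂ (F a) Q) : AnalyticAt ℂ (Jac F) Q :=
  an_det (an_Mj hF)

/-- The vector fields in terms of the adjugate. -/
theorem Xf_eq (F : Fin N → (Fin N → ℂ) → ℂ) (a i : Fin N) (y : Fin N → ℂ) :
    Xf F a y i = (Jac F y)⁻¹ * (Mj F y).adjugate i a := by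
  unfold Xf
  rw [Matrix.inv_def, Matrix.smul_apply, smul_eq_mul, Ring.inverse_eq_inv']
  rfl

theorem an_Xf (hF : ∀ a, AnalyticAt ℂ (F a) Q) (hJ : Jac F Q ≠ 0) (a i : Fin N) :
    AnalyticAt ℂ (fun y => Xf F a y i) Q := by
  simp only [Xf_eq]
  exact ((an_Jac hF).inv hJ).mul (an_adj (an_Mj hF) i a)

theorem T_Xf (hF : ∀ a, AnalyticAt ℂ (F a) Q) (hJ : Jac F Q ≠ 0) (a i : Fin N) :
    Tay Q (fun y => Xf F a y i) = (MT Q F)⁻¹ i a := by
  simp only [Xf_eq]
  have h0 := Tay_mul (Q := Q) (f := fun y => (Jac F y)⁻¹) (g := fun y => (Mj F y).adjugate i a)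
    ((an_Jac hF).inv hJ) (an_adj (an_Mj hF) i a)
  rw [h0, T_adj (an_Mj hF), ← MT_eq hF, Matrix.inv_def, Matrix.smul_apply, smul_eq_mul]
  congr 1
  have h1 := Tay_inv (an_Jac hF) hJ
  have h2 := Ring.inverse_mul_cancel _ (isUnit_MT hF hJ)
  rw [T_Jac hF] at h1
  have h3 : IsUnit (MT Q F).det := isUnit_MT hF hJ
  exact h3.mul_right_cancel (h1.trans h2.symm)

theorem MT_mulVec_wq (D : Derivation ℤ ℂ ℂ) (hF : ∀ a, AnalyticAt ℂ (F a) Q)
    (hJ : Jac F Q ≠ 0) : MT Q F *ᵥ wq D F Q = fun a => Db D Q (Tay Q (F a)) := by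
  unfold wq
  rw [Matrix.mulVec_mulVec, Matrix.mul_nonsing_inv _ (isUnit_MT hF hJ), Matrix.one_mulVec]

theorem Db_frame (D : Derivation ℤ ℂ ℂ) (hF : ∀ a, AnalyticAt ℂ (F a) Q) (hJ : Jac F Q ≠ 0)
    (a : Fin N) : Db D Q (Tay Q (F a)) = ∑ i, wq D F Q i * pderiv ℂ i (Tay Q (F a)) := by
  rw [← congrFun (MT_mulVec_wq D hF hJ) a]
  unfold Matrix.mulVec dotProduct
  refine Finset.sum_congr rfl fun i _ => ?_
  rw [mul_comm]
  rfl

theorem Kd_apply (D : Derivation ℤ ℂ ℂ) (F : Fin N → (Fin N → ℂ) → ℂ) (Q : Fin N → ℂ)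
    (f : MvPowerSeries (Fin N) ℂ) : Kd D F Q f = Db D Q f - ∑ i, wq D F Q i * pderiv ℂ i f := by
  unfold Kd
  rw [Derivation.sub_apply]
  congr 1
  rw [← Derivation.coeFnAddMonoidHom_apply, map_sum, Finset.sum_apply]
  rfl

theorem Kd_frame (D : Derivation ℤ ℂ ℂ) (hF : ∀ a, AnalyticAt ℂ (F a) Q) (hJ : Jac F Q ≠ 0)
    (a : Fin N) : Kd D F Q (Tay Q (F a)) = 0 := by
  rw [Kd_apply, Db_frame D hF hJ, sub_self]

theorem Kd_C (D : Derivation ℤ ℂ ℂ) (F : Fin N → (Fin N → ℂ) → ℂ) (Q : Fin N → ℂ) (c : ℂ) :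
    Kd D F Q (C c) = C (D c) := by
  rw [Kd_apply, Db_C, Finset.sum_eq_zero, sub_zero]
  intro i _
  rw [pderiv_C, mul_zero]

/-- The constant term of `Db f`. -/
theorem const_Db (D : Derivation ℤ ℂ ℂ) (hf : AnalyticAt ℂ f Q) :
    constantCoeff (Db D Q (Tay Q f)) = D (f Q) - ∑ i, D (Q i) * pd i f Q := by
  rw [Db_apply, map_sub, map_sum]
  congr 1
  · rw [← coeff_zero_eq_constantCoeff_apply, coeff_Dc, coeff_zero_eq_constantCoeff_apply,
      Tay_const_coeff]
  · refine Finset.sum_congr rfl fun i _ => ?_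
    rw [map_mul, constantCoeff_C, ← Tay_pd i hf, Tay_const_coeff]

/-- The constant term of `Kd f` is the pointwise formula. -/
theorem const_Kd (D : Derivation ℤ ℂ ℂ) (hF : ∀ a, AnalyticAt ℂ (F a) Q) (hJ : Jac F Q ≠ 0)
    (hf : AnalyticAt ℂ f Q) : constantCoeff (Kd D F Q (Tay Q f)) = dlt D F f Q := by
  have hX : ∀ i a, constantCoeff ((MT Q F)⁻¹ i a) = Xf F a Q i := by
    intro i a
    rw [← T_Xf hF hJ, Tay_const_coeff]
  have hw : ∀ i, constantCoeff (wq D F Q i) = ∑ a, Xf F a Q i * D (F a Q) - D (Q i) := by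
    intro i
    have h1 : wq D F Q i = ∑ a, (MT Q F)⁻¹ i a * Db D Q (Tay Q (F a)) := rfl
    rw [h1, map_sum]
    have h2 : ∀ a, constantCoeff ((MT Q F)⁻¹ i a * Db D Q (Tay Q (F a))) =
        Xf F a Q i * D (F a Q) - ∑ j, Xf F a Q i * (D (Q j) * pd j (F a) Q) := by
      intro a
      rw [map_mul, hX, const_Db D (hF a), mul_sub, Finset.mul_sum]
    rw [Finset.sum_congr rfl fun a _ => h2 a, Finset.sum_sub_distrib]
    congr 1
    rw [Finset.sum_comm]
    have h3 : ∀ j, ∑ a, Xf F a Q i * (D (Q j) * pd j (F a) Q) =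
        D (Q j) * (1 : Matrix (Fin N) (Fin N) ℂ) i j := by
      intro j
      have h4 : (1 : Matrix (Fin N) (Fin N) ℂ) = (Mj F Q)⁻¹ * Mj F Q :=
        (Matrix.nonsing_inv_mul _ hJ.isUnit).symm
      rw [h4, Matrix.mul_apply, Finset.mul_sum]
      refine Finset.sum_congr rfl fun a _ => ?_
      show (Mj F Q)⁻¹ i a * (D (Q j) * Mj F Q a j) = D (Q j) * ((Mj F Q)⁻¹ i a * Mj F Q a j)
      ring
    rw [Finset.sum_congr rfl fun j _ => h3 j]
    simp only [Matrix.one_apply, mul_ite, mul_one, mul_zero]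
    rw [Finset.sum_ite_eq, if_pos (Finset.mem_univ i)]
  rw [Kd_apply, map_sub, const_Db D hf, map_sum]
  have h5 : ∀ i, constantCoeff (wq D F Q i * pderiv ℂ i (Tay Q f)) =
      ∑ a, D (F a Q) * (Xf F a Q i * pd i f Q) - D (Q i) * pd i f Q := by
    intro i
    rw [map_mul, hw, ← Tay_pd i hf, Tay_const_coeff, sub_mul, Finset.sum_mul]
    congr 1
    refine Finset.sum_congr rfl fun a _ => ?_
    ring
  rw [Finset.sum_congr rfl fun i _ => h5 i, Finset.sum_sub_distrib, Finset.sum_comm]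
  unfold dlt
  simp only [Finset.mul_sum]
  ring

end Pool.Agent.Lib.MP_5d4057_al.DR
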