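import Pool.Agent.Lib.MP_5d4057_al.DR.GloG
import Pool.Agent.Lib.MP_5d4057_al.DR.CocA
import Pool.Agent.Lib.MP_5d4057_al.DR.CocB
import Pool.Agent.Lib.MP_5d4057_al.DR.FraA

/-!
# DER, T2 (F7): the cocycle and the equivariant global solution
-/

set_option autoImplicit false

namespace Pool.Agent.Lib.MP_5d4057_al.DR

open MvPowerSeries Filter Topology Matrix Pool.Agent.Lib.MP_5d4057_al
  Pool.Agent.Lib.MP_5d4057_al.Hyb Pool.Agent.Lib.MP_5d4057_al.HM Pool.Agent.Lib.MP_5d4057_al.QB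

variable {n : ℕ} {Γ : Subgroup (SUGroup n)} {k l : ℕ} {F : Fin (n + 1) → Vec n → ℂ} {f : Vec n → ℂ}

theorem ct_cone_isOpen : IsOpen (Cone n) := by
  have h : Continuous (q : Vec n → ℝ) := by
    have h1 : Continuous fun v : Vec n => herm v v := by
      have h2 : Continuous fun v : Vec n => star v := continuous_star
      have h3 : Continuous fun v : Vec n => J n *ᵥ v := by fun_prop
      exact h2.dotProduct h3
    exact Complex.continuous_re.comp h1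
  exact isOpen_lt h continuous_const

/-- The data of a relation for the Jacobian: the numerator `pt`, the term `p'`. -/
theorem exists_rel_Jac (D : Derivation ℤ ℂ ℂ) (hd : Dep Γ) (hk : 0 < k)
    (hF : ∀ i, Fm Γ (fun _ => 1) k (F i)) (hJ : ∃ v ∈ Cone n, Jac F v ≠ 0) :
    ∃ pt p' : Vec n → ℂ, AnalyticOnNhd ℂ pt (Cone n) ∧ AnalyticOnNhd ℂ p' (Cone n) ∧
      (∀ γ ∈ Γ, ∀ v ∈ Cone n, pt (HM.act γ v) = pt v ∧ p' (HM.act γ v) = p' v) ∧
      (∀ Q ∈ Cone n, ¬ ∀ᶠ y in 𝓝 Q, pt y = 0) ∧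
      ∀ Q ∈ Cone n, Jac F Q ≠ 0 → Tay Q pt * (Db D Q (MT Q F).det -
        ∑ i, wq D F Q i * pderiv ℂ i (MT Q F).det) = - Tay Q p' := by
  have hFa : ∀ a, AnalyticOnNhd ℂ (F a) (Cone n) := fun a => an_form (hF a)
  have hJf := form_Jac hF
  have hJa : AnalyticOnNhd ℂ (Jac F) (Cone n) := an_form hJf
  have hl : 0 < (n + 1) * (k + 1) := Nat.mul_pos n.succ_pos k.succ_pos
  obtain ⟨P, hP0, hP1⟩ := exists_min ct_cone_isOpen cone_conn hFa hJa (algO_form hd hk hl hF hJf) hJ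
  obtain ⟨PD, hPD⟩ := exists_DP D P
  obtain ⟨G, hG⟩ : ∃ G : Fin (n + 2) → Vec n → ℂ,
      G = Fin.snoc (α := fun _ => Vec n → ℂ) F (Jac F) := ⟨_, rfl⟩
  have hGl : G (Fin.last (n + 1)) = Jac F := by rw [hG, Fin.snoc_last]
  have hGc : ∀ a : Fin (n + 1), G a.castSucc = F a := fun a => by rw [hG, Fin.snoc_castSucc]
  have hGy : ∀ y : Vec n, (Fin.snoc (fun a => F a y) (Jac F y) : Fin (n + 2) → ℂ) =
      fun i => G i y := by
    intro y
    funext i
    refine Fin.lastCases ?_ (fun i => ?_) i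
    · rw [Fin.snoc_last, hGl]
    · rw [Fin.snoc_castSucc, hGc]
  have hGa : ∀ i, AnalyticOnNhd ℂ (G i) (Cone n) := by
    intro i
    refine Fin.lastCases ?_ (fun i => ?_) i
    · rw [hGl]
      exact hJa
    · rw [hGc]
      exact hFa i
  have hev : ∀ R : MvPolynomial (Fin (n + 2)) ℂ,
      AnalyticOnNhd ℂ (fun y => MvPolynomial.eval (fun i => G i y) R) (Cone n) := by
    intro R
    induction R using MvPolynomial.induction_on with
    | C c =>
      simp only [MvPolynomial.eval_C]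
      exact analyticOnNhd_const
    | add p q hp hq =>
      simp only [map_add]
      exact fun y hy => (hp y hy).fun_add (hq y hy)
    | mul_X p i hp =>
      simp only [map_mul, MvPolynomial.eval_X]
      exact fun y hy => (hp y hy).fun_mul (hGa i y hy)
  have hGi : ∀ γ ∈ Γ, ∀ v ∈ Cone n, ∀ i, G i (HM.act γ v) = G i v := by
    intro γ hγ v hv i
    refine Fin.lastCases ?_ (fun i => ?_) i
    · rw [hGl, hJf.inv γ hγ v hv, one_mul]
    · rw [hGc, (hF i).inv γ hγ v hv, one_mul]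
  refine ⟨fun y => MvPolynomial.eval (fun i => G i y) (MvPolynomial.pderiv (Fin.last (n + 1)) P),
    fun y => MvPolynomial.eval (fun i => G i y) PD, hev _, hev _, fun γ hγ v hv => ?_,
    fun Q hQ h => ?_, fun Q hQ hQJ => ?_⟩
  · have h1 : (fun i => G i (HM.act γ v)) = fun i => G i v := funext (hGi γ hγ v hv)
    simp only [h1]
    exact ⟨trivial, trivial⟩
  · refine hP1 Q hQ ?_
    filter_upwards [h] with y hy
    rw [hGy]
    exact hy
  · have hFQ : ∀ a, AnalyticAt ℂ (F a) Q := fun a => hFa a Q hQ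
    have hGQ : ∀ i, AnalyticAt ℂ (G i) Q := fun i => hGa i Q hQ
    have h1 := hPD (MvPowerSeries (Fin (n + 1)) ℂ) (fun S => Kd D F Q S) (fun i => Tay Q (G i))
      (fun a b => map_add _ a b) (fun a b => (Kd D F Q).leibniz a b)
      (fun c => Kd_C D F Q c)
    have h2 : MvPolynomial.aeval (fun i => Tay Q (G i)) P = 0 := by
      rw [← Tay_eval G hGQ P]
      have h3 : (fun y => MvPolynomial.eval (fun i => G i y) P) =ᶠ[𝓝 Q] fun _ => (0 : ℂ) := by
        filter_upwards [ct_cone_isOpen.mem_nhds hQ] with y hy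
        rw [← hGy]
        exact hP0 y hy
      rw [Tay_congr h3, Tay_const, map_zero]
    have h4 : Kd D F Q (MvPolynomial.aeval (fun i => Tay Q (G i)) P) = 0 := by
      rw [h2, map_zero]
    have h1' : Kd D F Q (MvPolynomial.aeval (fun i => Tay Q (G i)) P) = _ := h1
    rw [h4, Fin.sum_univ_castSucc] at h1'
    replace h1 := h1'
    have h5 : ∀ a : Fin (n + 1), Kd D F Q (Tay Q (G a.castSucc)) = 0 := by
      intro a
      rw [hGc]
      exact Kd_frame D hFQ hQJ a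
    simp only [h5, mul_zero, Finset.sum_const_zero, zero_add] at h1
    rw [hGl, Kd_apply, ct_Tay_Jac hFQ] at h1
    rw [Tay_eval G hGQ, Tay_eval G hGQ]
    linear_combination -h1

/-- A solution at a point with nonvanishing Jacobian, in terms of the formal field. -/
theorem sol_flat {D : Derivation ℤ ℂ ℂ} (hd : Dep Γ) (hk : 0 < k)
    (hF : ∀ i, Fm Γ (fun _ => 1) k (F i)) {Q : Vec n} (hQ : Q ∈ Cone n) (hQJ : Jac F Q ≠ 0)
    {W : Vec n → Vec n} (h : Sol D F Q W) : ∃ L : Mat (n + 1),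
      ∀ i, Tay Q (fun y => W y i) = (MT Q F).det *
        (wq D F Q i + ∑ j, C (L i j) * (C (Q j) + MvPowerSeries.X j)) := by
  have hFQ : ∀ a, AnalyticAt ℂ (F a) Q := fun a => an_form (hF a) Q hQ
  have hJQ : AnalyticAt ℂ (Jac F) Q := ct_an_Jac hFQ
  have hJn : ∀ᶠ y in 𝓝 Q, Jac F y ≠ 0 := hJQ.continuousAt.eventually_ne hQJ
  have hV : ∀ i, AnalyticAt ℂ (fun y => ((Jac F y)⁻¹ • W y) i) Q := by
    intro i
    have h1 : (fun y => ((Jac F y)⁻¹ • W y) i) = fun y => (Jac F y)⁻¹ * W y i := rfl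
    rw [h1]
    exact (hJQ.fun_inv hQJ).fun_mul (h.1 i)
  have hFS : ∀ᶠ y in 𝓝 Q, FS D F y fun z => (Jac F z)⁻¹ • W z := by
    filter_upwards [hJn, h.2] with y h1 h2
    exact h2 h1
  obtain ⟨-, L, hL⟩ := flat_of_FS D hd hk hF hQ hQJ hV hFS
  refine ⟨L, fun i => ?_⟩
  rw [← hL i, ← ct_Tay_Jac hFQ, ← Tay_mul hJQ (hV i)]
  refine Tay_congr ?_
  filter_upwards [hJn] with y hy
  change W y i = Jac F y * ((Jac F y)⁻¹ * W y i)
  rw [mul_inv_cancel_left₀ hy]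

/-- **The trace of the cocycle.** -/
theorem trace_zero {D : Derivation ℤ ℂ ℂ} (hd : Dep Γ) (hk : 0 < k)
    (hF : ∀ i, Fm Γ (fun _ => 1) k (F i)) (hJ : ∃ v ∈ Cone n, Jac F v ≠ 0)
    {W : Vec n → Vec n} (h : ∀ Q ∈ Cone n, Sol D F Q W) {γ : SUGroup n} (hγ : γ ∈ Γ)
    (_hD : ∀ i j, D (γ.toMatrix i j) = 0) {L : Mat (n + 1)}
    (hL : ∀ v ∈ Cone n, HM.act γ⁻¹ (W (HM.act γ v)) = W v + Jac F v • (L *ᵥ v)) :
    L.trace = 0 := by
  have hFa : ∀ a, AnalyticOnNhd ℂ (F a) (Cone n) := fun a => an_form (hF a)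
  have hJf := form_Jac hF
  have hJa : AnalyticOnNhd ℂ (Jac F) (Cone n) := an_form hJf
  obtain ⟨pt, p', hpt, hp', hinv, hne, hrel⟩ := exists_rel_Jac D hd hk hF hJ
  obtain ⟨Q, hQ, hQJ⟩ := hJ
  obtain ⟨L₀, hL₀⟩ := sol_flat hd hk hF hQ hQJ (h Q hQ)
  have hFQ : ∀ a, AnalyticAt ℂ (F a) Q := fun a => hFa a Q hQ
  have hJQ : AnalyticAt ℂ (Jac F) Q := ct_an_Jac hFQ
  -- `W`
  have h1 := trN_eq D hFQ hQJ (h Q hQ).1 (hpt Q hQ) (hp' Q hQ) hL₀ (hrel Q hQ hQJ)
  -- the transported solution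
  have hW' : ∀ i, AnalyticAt ℂ (fun y => (HM.act γ⁻¹ (W (HM.act γ y))) i) Q :=
    (Sol.act hF hγ hQ (h _ (act_mem γ hQ))).1
  have hL' : ∀ i, Tay Q (fun y => (HM.act γ⁻¹ (W (HM.act γ y))) i) = (MT Q F).det *
      (wq D F Q i + ∑ j, C ((L₀ + L) i j) * (C (Q j) + MvPowerSeries.X j)) := by
    intro i
    have hs : AnalyticAt ℂ (fun y : Vec n => ∑ j, L i j * y j) Q :=
      Finset.analyticAt_fun_sum _ fun j _ => analyticAt_const.fun_mul (ct_an_coord j)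
    have e1 : (fun y => (HM.act γ⁻¹ (W (HM.act γ y))) i) =ᶠ[𝓝 Q]
        fun y => W y i + Jac F y * ∑ j, L i j * y j := by
      filter_upwards [ct_cone_isOpen.mem_nhds hQ] with y hy
      rw [hL y hy]
      rfl
    rw [Tay_congr e1, Tay_add ((h Q hQ).1 i) (hJQ.fun_mul hs), Tay_mul hJQ hs,
      Tay_sum _ _ fun j _ => analyticAt_const.fun_mul (ct_an_coord j), hL₀ i, ct_Tay_Jac hFQ,
      ← mul_add, add_assoc, ← Finset.sum_add_distrib]
    congr 3
    funext j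
    rw [Tay_mul analyticAt_const (ct_an_coord j), Tay_const, Tay_coord, Matrix.add_apply, map_add,
      add_mul]
  have h2 := trN_eq D hFQ hQJ hW' (hpt Q hQ) (hp' Q hQ) hL' (hrel Q hQ hQJ)
  -- the first one on the whole cone
  have h3 : ∀ y ∈ Cone n, trN F W pt p' y - L₀.trace * (Jac F y ^ 3 * pt y) = 0 := by
    have ha : AnalyticOnNhd ℂ (fun y => trN F W pt p' y - L₀.trace * (Jac F y ^ 3 * pt y))
        (Cone n) := by
      intro y hy
      exact (an_trN (fun a => hFa a y hy) (h y hy).1 (hpt y hy) (hp' y hy)).fun_sub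
        (analyticAt_const.fun_mul (((hJa y hy).fun_pow 3).fun_mul (hpt y hy)))
    refine fun y hy => ha.eqOn_zero_of_preconnected_of_eventuallyEq_zero cone_conn hQ ?_ hy
    filter_upwards [h1] with y hy
    rw [hy, sub_self]
    rfl
  -- covariance
  have h4 : ∀ᶠ y in 𝓝 Q, L.trace * (Jac F y ^ 3 * pt y) = 0 := by
    filter_upwards [h2, ct_cone_isOpen.mem_nhds hQ] with y h5 hy
    have hγy := act_mem γ hy
    have h6 : trN F (fun z => HM.act γ⁻¹ (W (HM.act γ z))) pt p' y =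
        trN F W pt p' (HM.act γ y) := by
      refine trN_act (A := γ.toMatrix) (B := (γ⁻¹).toMatrix) (det_toMatrix γ)
        (toMatrix_inv_mul γ) (toMatrix_mul_inv γ) (fun a => hFa a _ hγy) (fun a => ?_)
        (h _ hγy).1 (hinv γ hγ y hy).1 (hinv γ hγ y hy).2
      filter_upwards [ct_cone_isOpen.mem_nhds hy] with z hz
      have := (hF a).inv γ hγ z hz
      rw [one_mul] at this
      exact this
    have h7 := sub_eq_zero.mp (h3 _ hγy)
    rw [h6, h7, hJf.inv γ hγ y hy, one_mul, (hinv γ hγ y hy).1, Matrix.trace_add, add_mul] at h5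
    exact left_eq_add.mp h5
  by_contra hne0
  refine hne Q hQ ?_
  filter_upwards [h4, hJQ.continuousAt.eventually_ne hQJ] with y h5 h6
  rcases mul_eq_zero.mp h5 with h7 | h7
  · exact absurd h7 hne0
  · exact (mul_eq_zero.mp h7).resolve_left (pow_ne_zero 3 h6)

/-- `J(v) A v = 0` on the cone implies `A = 0`. -/
theorem eq_zero_of_Jac (hF : ∀ i, Fm Γ (fun _ => 1) k (F i)) (hJ : ∃ v ∈ Cone n, Jac F v ≠ 0)
    {A : Mat (n + 1)} (hA : ∀ v ∈ Cone n, Jac F v • (A *ᵥ v) = 0) : A = 0 := by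
  obtain ⟨Q, hQ, hQJ⟩ := hJ
  have hJQ : AnalyticAt ℂ (Jac F) Q := ct_an_Jac fun a => an_form (hF a) Q hQ
  have h1 : ∀ᶠ y in 𝓝 Q, A *ᵥ y = 0 := by
    filter_upwards [hJQ.continuousAt.eventually_ne hQJ, ct_cone_isOpen.mem_nhds hQ] with y h1 h2
    exact (smul_eq_zero.mp (hA y h2)).resolve_left h1
  have hQ0 : A *ᵥ Q = 0 := h1.self_of_nhds
  have h2 : ∀ w : Vec n, A *ᵥ w = 0 := by
    intro w
    have hc : Tendsto (fun t : ℂ => Q + t • w) (𝓝 0) (𝓝 Q) := by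
      have h2 : Continuous (fun t : ℂ => Q + t • w) := by fun_prop
      have h3 := h2.tendsto 0
      simpa using h3
    have h2 : ∀ᶠ t in 𝓝[≠] (0 : ℂ), A *ᵥ (Q + t • w) = 0 :=
      (hc.eventually h1).filter_mono nhdsWithin_le_nhds
    obtain ⟨t, ht, ht0⟩ := (h2.and self_mem_nhdsWithin).exists
    rw [Matrix.mulVec_add, hQ0, zero_add, Matrix.mulVec_smul] at ht
    exact (smul_eq_zero.mp ht).resolve_left ht0
  ext i j
  have h3 := congrFun (h2 (Pi.single j 1)) i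
  simpa using h3

/-- **(F7)** The equivariant global solution. -/
theorem exists_equiv (D : Derivation ℤ ℂ ℂ) (hd : Dep Γ) (hfr : Frs Γ) (hH : H1Z Γ)
    (hD : ∀ γ ∈ Γ, ∀ i j, D (γ.toMatrix i j) = 0) (hk : 0 < k)
    (hF : ∀ i, Fm Γ (fun _ => 1) k (F i)) (hJ : ∃ v ∈ Cone n, Jac F v ≠ 0) :
    ∃ W : Vec n → Vec n, (∀ Q ∈ Cone n, Sol D F Q W) ∧
      (∀ c : ℂ, c ≠ 0 → ∀ v ∈ Cone n, W (c • v) = (c * (c ^ ((n + 1) * (k + 1)))⁻¹) • W v) ∧
      ∀ γ ∈ Γ, ∀ v ∈ Cone n, W (HM.act γ v) = HM.act γ (W v) := by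
  have hJf := form_Jac hF
  obtain ⟨W, hW, hWc⟩ := exists_global D hd hfr hk hF hJ
  have h1 : ∀ γ : Γ, ∃ L : Mat (n + 1), ∀ v ∈ Cone n,
      HM.act (γ : SUGroup n)⁻¹ (W (HM.act (γ : SUGroup n) v)) = W v + Jac F v • (L *ᵥ v) :=
    fun γ => global_unique hF hJ hW fun Q hQ => Sol.act hF γ.2 hQ (hW _ (act_mem _ hQ))
  choose L hL using h1
  have htr : ∀ γ : Γ, (L γ).trace = 0 := fun γ => trace_zero hd hk hF hJ hW γ.2 (hD γ γ.2) (hL γ)
  have hiv : ∀ γ : Γ, ((γ⁻¹ : Γ) : SUGroup n) = (γ : SUGroup n)⁻¹ := fun γ => rfl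
  -- the cocycle identity
  have hkm : ∀ γ δ : Γ, L (γ * δ) =
      ((δ⁻¹ : Γ) : SUGroup n).toMatrix * L γ * (δ : SUGroup n).toMatrix + L δ := by
    intro γ δ
    refine sub_eq_zero.mp (eq_zero_of_Jac hF hJ fun v hv => ?_)
    have e1 := hL (γ * δ) v hv
    have e2 := hL γ _ (act_mem (δ : SUGroup n) hv)
    have e3 := hL δ v hv
    have e4 : HM.act ((γ * δ : Γ) : SUGroup n)⁻¹ (W (HM.act ((γ * δ : Γ) : SUGroup n) v)) =
        HM.act (δ : SUGroup n)⁻¹ (HM.act (γ : SUGroup n)⁻¹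
          (W (HM.act (γ : SUGroup n) (HM.act (δ : SUGroup n) v)))) := by
      rw [Subgroup.coe_mul, act_mul, _root_.mul_inv_rev, act_mul]
    have hJδ : Jac F (HM.act (δ : SUGroup n) v) = Jac F v := by
      rw [hJf.inv _ δ.2 v hv, one_mul]
    have e5 : HM.act (δ : SUGroup n)⁻¹ (W (HM.act (δ : SUGroup n) v) +
        Jac F v • (L γ *ᵥ HM.act (δ : SUGroup n) v)) = HM.act (δ : SUGroup n)⁻¹
        (W (HM.act (δ : SUGroup n) v)) + Jac F v • ((((δ⁻¹ : Γ) : SUGroup n).toMatrix * L γ *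
          (δ : SUGroup n).toMatrix) *ᵥ v) := by
      rw [hiv]
      simp only [HM.act, Matrix.mulVec_add, Matrix.mulVec_smul, Matrix.mulVec_mulVec,
        Matrix.mul_assoc]
    rw [e4, e2, hJδ, e5, e3] at e1
    rw [Matrix.sub_mulVec, Matrix.add_mulVec, smul_sub, smul_add, sub_eq_zero]
    have e6 := add_left_cancel (e1.symm.trans (by rw [add_assoc] :
      _ = W v + (Jac F v • (L δ *ᵥ v) + Jac F v • ((((δ⁻¹ : Γ) : SUGroup n).toMatrix * L γ *
          (δ : SUGroup n).toMatrix) *ᵥ v))))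
    rw [e6]
    exact add_comm _ _
  have hmi : ∀ γ : Γ, (γ : SUGroup n).toMatrix * ((γ⁻¹ : Γ) : SUGroup n).toMatrix = 1 := fun γ => by
    rw [hiv, toMatrix_mul_inv]
  have him : ∀ γ : Γ, ((γ⁻¹ : Γ) : SUGroup n).toMatrix * (γ : SUGroup n).toMatrix = 1 := fun γ => by
    rw [hiv, toMatrix_inv_mul]
  have hmm : ∀ γ δ : Γ, ((γ * δ : Γ) : SUGroup n).toMatrix =
      (γ : SUGroup n).toMatrix * (δ : SUGroup n).toMatrix := fun γ δ => rfl
  obtain ⟨B, hB⟩ := hH (fun γ => -((γ : SUGroup n).toMatrix * L γ *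
      ((γ⁻¹ : Γ) : SUGroup n).toMatrix)) (by
    intro γ δ
    have e0 : (((γ * δ)⁻¹ : Γ) : SUGroup n).toMatrix =
        ((δ⁻¹ : Γ) : SUGroup n).toMatrix * ((γ⁻¹ : Γ) : SUGroup n).toMatrix := by
      rw [_root_.mul_inv_rev, hmm]
    rw [hkm, hmm, e0]
    have e1 : (γ : SUGroup n).toMatrix * (δ : SUGroup n).toMatrix *
        (((δ⁻¹ : Γ) : SUGroup n).toMatrix * L γ * (δ : SUGroup n).toMatrix + L δ) *
        (((δ⁻¹ : Γ) : SUGroup n).toMatrix * ((γ⁻¹ : Γ) : SUGroup n).toMatrix) =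
        (γ : SUGroup n).toMatrix * ((δ : SUGroup n).toMatrix * ((δ⁻¹ : Γ) : SUGroup n).toMatrix) *
          L γ * ((δ : SUGroup n).toMatrix * ((δ⁻¹ : Γ) : SUGroup n).toMatrix) *
          ((γ⁻¹ : Γ) : SUGroup n).toMatrix +
        (γ : SUGroup n).toMatrix * ((δ : SUGroup n).toMatrix * L δ *
          ((δ⁻¹ : Γ) : SUGroup n).toMatrix) * ((γ⁻¹ : Γ) : SUGroup n).toMatrix := by
      noncomm_ring
    rw [e1, hmi]
    noncomm_ring) (by
    intro γ
    rw [Matrix.trace_neg, Matrix.trace_mul_comm, ← Matrix.mul_assoc, him, Matrix.one_mul, htr,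
      neg_zero])
  have hB' : ∀ γ : Γ, L γ = B - ((γ⁻¹ : Γ) : SUGroup n).toMatrix * B *
      (γ : SUGroup n).toMatrix := by
    intro γ
    have e2 := hB γ
    have e3 : ((γ⁻¹ : Γ) : SUGroup n).toMatrix * (-((γ : SUGroup n).toMatrix * L γ *
        ((γ⁻¹ : Γ) : SUGroup n).toMatrix)) * (γ : SUGroup n).toMatrix =
        -((((γ⁻¹ : Γ) : SUGroup n).toMatrix * (γ : SUGroup n).toMatrix) * L γ *
          (((γ⁻¹ : Γ) : SUGroup n).toMatrix * (γ : SUGroup n).toMatrix)) := by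
      noncomm_ring
    have e4 : ((γ⁻¹ : Γ) : SUGroup n).toMatrix * (B - (γ : SUGroup n).toMatrix * B *
        ((γ⁻¹ : Γ) : SUGroup n).toMatrix) * (γ : SUGroup n).toMatrix =
        ((γ⁻¹ : Γ) : SUGroup n).toMatrix * B * (γ : SUGroup n).toMatrix -
        (((γ⁻¹ : Γ) : SUGroup n).toMatrix * (γ : SUGroup n).toMatrix) * B *
          (((γ⁻¹ : Γ) : SUGroup n).toMatrix * (γ : SUGroup n).toMatrix) := by
      noncomm_ring
    have e5 : ((γ⁻¹ : Γ) : SUGroup n).toMatrix * (-((γ : SUGroup n).toMatrix * L γ *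
        ((γ⁻¹ : Γ) : SUGroup n).toMatrix)) * (γ : SUGroup n).toMatrix =
        ((γ⁻¹ : Γ) : SUGroup n).toMatrix * (B - (γ : SUGroup n).toMatrix * B *
          ((γ⁻¹ : Γ) : SUGroup n).toMatrix) * (γ : SUGroup n).toMatrix := by
      rw [← e2]
    rw [e3, e4, him, Matrix.one_mul, Matrix.mul_one, Matrix.one_mul, Matrix.mul_one] at e5
    rw [← neg_neg (L γ), e5]
    abel
  refine ⟨fun y => W y + Jac F y • (B *ᵥ y), fun Q hQ =>
    Sol.add_linear (fun i => an_form (hF i) Q hQ) (hW Q hQ) B, fun c hc v hv => ?_,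
    fun γ hγ v hv => ?_⟩
  · change W (c • v) + Jac F (c • v) • (B *ᵥ (c • v)) = _
    rw [hWc c hc v hv, hJf.hom c hc v hv, Matrix.mulVec_smul, smul_add, smul_smul, smul_smul]
    congr 2
    ring
  · have e1 := hL ⟨γ, hγ⟩ v hv
    have e2 : W (HM.act γ v) = HM.act γ (W v + Jac F v • (L ⟨γ, hγ⟩ *ᵥ v)) := by
      rw [← e1, ← act_mul, mul_inv_cancel, act_one]
    change W (HM.act γ v) + Jac F (HM.act γ v) • (B *ᵥ HM.act γ v) =
      HM.act γ (W v + Jac F v • (B *ᵥ v))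
    rw [e2, hJf.inv γ hγ v hv, one_mul, hB' ⟨γ, hγ⟩]
    simp only [HM.act, Matrix.mulVec_add, Matrix.mulVec_smul, Matrix.sub_mulVec, smul_sub,
      Matrix.mulVec_mulVec, Matrix.mulVec_sub]
    have h3 : γ.toMatrix * (((⟨γ, hγ⟩⁻¹ : Γ) : SUGroup n).toMatrix * B * γ.toMatrix) =
        B * γ.toMatrix := by
      rw [← Matrix.mul_assoc, ← Matrix.mul_assoc, hmi ⟨γ, hγ⟩, Matrix.one_mul]
    rw [h3]
    abel

end Pool.Agent.Lib.MP_5d4057_al.DR
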