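import Mathlib

/-!
# Continuation over a convex open set (helper15)

`P x W` says that `W` is a solution near `x`; two solutions near `x` differ by an element of `L`,
an element of `L` which vanishes near one point vanishes everywhere.  Then local solutions
around every point of a convex open set give a global solution.
-/

namespace Pool.Agent.Lib.MP_5d4057_al.DR

open Set Filter Topology

variable {E V : Type*} [NormedAddCommGroup E] [NormedSpace ℝ E] [AddCommGroup V]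
  {Ω : Set E} {P : E → (E → V) → Prop} {L : AddSubgroup (E → V)}

omit [NormedSpace ℝ E] in
/-- Two solutions on a preconnected open set which agree near one point agree. -/
theorem uniq_on
    (h4 : ∀ x ∈ Ω, ∀ W W' : E → V, P x W → P x W' → ∃ l ∈ L, W' =ᶠ[𝓝 x] W + l)
    (h5 : ∀ l ∈ L, ∀ x ∈ Ω, l =ᶠ[𝓝 x] 0 → ∀ y ∈ Ω, l y = 0)
    (hΩ : IsOpen Ω) {U : Set E} (hU : IsOpen U) (hc : IsPreconnected U) (hUΩ : U ⊆ Ω)
    {W W' : E → V} (hW : ∀ x ∈ U, P x W) (hW' : ∀ x ∈ U, P x W') {x₁ : E} (hx₁ : x₁ ∈ U)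
    (he : W' =ᶠ[𝓝 x₁] W) : ∀ x ∈ U, W' =ᶠ[𝓝 x] W := by
  have hSo : IsOpen {x | W' =ᶠ[𝓝 x] W} := by
    rw [isOpen_iff_mem_nhds]
    intro x hx
    exact eventually_eventually_nhds.2 hx
  refine hc.subset_of_closure_inter_subset hSo ⟨x₁, hx₁, he⟩ ?_
  rintro x ⟨hxc, hxU⟩
  obtain ⟨l, hl, hle⟩ := h4 x (hUΩ hxU) W W' (hW x hxU) (hW' x hxU)
  have hnb : {y | (W' =ᶠ[𝓝 y] W + l) ∧ y ∈ U} ∈ 𝓝 x := by
    exact (eventually_eventually_nhds.2 hle).and (hU.mem_nhds hxU)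
  obtain ⟨y, ⟨hy1, hyU⟩, hy2⟩ := mem_closure_iff_nhds.1 hxc _ hnb
  have hy2' : W' =ᶠ[𝓝 y] W := hy2
  have hl0 : l =ᶠ[𝓝 y] 0 := by
    filter_upwards [hy1, hy2'] with z h1 h2
    have h1' : W' z = W z + l z := h1
    rw [h2] at h1'
    exact left_eq_add.1 h1'
  have hl0' := h5 l hl y (hUΩ hyU) hl0
  show W' =ᶠ[𝓝 x] W
  filter_upwards [hle, hΩ.mem_nhds (hUΩ hxU)] with z h1 h2
  rw [h1, Pi.add_apply, hl0' z h2, add_zero]

omit [NormedSpace ℝ E] in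
/-- Two solutions on a preconnected open set differ by one element of `L`. -/
theorem diff_on
    (h2 : ∀ x ∈ Ω, ∀ W : E → V, P x W → ∀ l ∈ L, P x (W + l))
    (h4 : ∀ x ∈ Ω, ∀ W W' : E → V, P x W → P x W' → ∃ l ∈ L, W' =ᶠ[𝓝 x] W + l)
    (h5 : ∀ l ∈ L, ∀ x ∈ Ω, l =ᶠ[𝓝 x] 0 → ∀ y ∈ Ω, l y = 0)
    (hΩ : IsOpen Ω) {U : Set E} (hU : IsOpen U) (hc : IsPreconnected U) (hUΩ : U ⊆ Ω)
    {W W' : E → V} (hW : ∀ x ∈ U, P x W) (hW' : ∀ x ∈ U, P x W') {x₁ : E} (hx₁ : x₁ ∈ U) :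
    ∃ l ∈ L, ∀ x ∈ U, W' =ᶠ[𝓝 x] W + l := by
  obtain ⟨l, hl, hle⟩ := h4 x₁ (hUΩ hx₁) W W' (hW _ hx₁) (hW' _ hx₁)
  exact ⟨l, hl, uniq_on h4 h5 hΩ hU hc hUΩ (fun x hx => h2 x (hUΩ hx) W (hW x hx) l hl) hW' hx₁
    hle⟩

/-- The continuation along one segment. -/
theorem cont_seg
    (h1 : ∀ x ∈ Ω, ∀ W W' : E → V, P x W → W =ᶠ[𝓝 x] W' → P x W')
    (h2 : ∀ x ∈ Ω, ∀ W : E → V, P x W → ∀ l ∈ L, P x (W + l))
    (h3 : ∀ x ∈ Ω, ∃ W : E → V, ∀ᶠ y in 𝓝 x, P y W)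
    (h4 : ∀ x ∈ Ω, ∀ W W' : E → V, P x W → P x W' → ∃ l ∈ L, W' =ᶠ[𝓝 x] W + l)
    (h5 : ∀ l ∈ L, ∀ x ∈ Ω, l =ᶠ[𝓝 x] 0 → ∀ y ∈ Ω, l y = 0)
    (hΩ : IsOpen Ω) (hc : Convex ℝ Ω) {x₀ : E} (hx₀ : x₀ ∈ Ω) {W₀ : E → V}
    (hW₀ : ∀ᶠ y in 𝓝 x₀, P y W₀) {q : E} (hq : q ∈ Ω) :
    ∃ N : Set E, IsOpen N ∧ Convex ℝ N ∧ N ⊆ Ω ∧ x₀ ∈ N ∧ q ∈ N ∧
      ∃ W : E → V, (∀ x ∈ N, P x W) ∧ W =ᶠ[𝓝 x₀] W₀ := by
  classical
  set c : ℝ → E := fun t => x₀ + t • (q - x₀) with hcdef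
  have hcc : Continuous c := by fun_prop
  set A : ℝ → Prop := fun t => ∃ N : Set E, IsOpen N ∧ Convex ℝ N ∧ N ⊆ Ω ∧ x₀ ∈ N ∧ c t ∈ N ∧
      ∃ W : E → V, (∀ x ∈ N, P x W) ∧ W =ᶠ[𝓝 x₀] W₀ with hA
  have hcΩ : ∀ t ∈ Icc (0 : ℝ) 1, c t ∈ Ω := by
    intro t ht
    exact hc.add_smul_sub_mem hx₀ hq ht
  -- the step
  have step : ∀ (B : Set E) (W₁ : E → V), IsOpen B → Convex ℝ B → B ⊆ Ω → (∀ x ∈ B, P x W₁) →
      ∀ t t' : ℝ, 0 ≤ t → 0 ≤ t' → c t ∈ B → c t' ∈ B → A t → A t' := by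
    rintro B W₁ hBo hBc hBΩ hB1 t t' ht ht' hcB hcB' ⟨N, hNo, hNc, hNΩ, hxN, htN, W, hWN, hW0⟩
    obtain ⟨l, hl, hle⟩ := diff_on h2 h4 h5 hΩ (hNo.inter hBo) (hNc.inter hBc).isPreconnected
      (inter_subset_left.trans hNΩ) (W := W₁) (W' := W) (fun x hx => hB1 x hx.2)
      (fun x hx => hWN x hx.1) (x₁ := c t) ⟨htN, hcB⟩
    set W₂ : E → V := fun x => if x ∈ N then W x else W₁ x + l x with hW₂
    have e1 : ∀ x ∈ N, W =ᶠ[𝓝 x] W₂ := by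
      intro x hx
      filter_upwards [hNo.mem_nhds hx] with y hy
      rw [hW₂]; simp only; rw [if_pos hy]
    have e2 : ∀ x ∈ B, W₁ + l =ᶠ[𝓝 x] W₂ := by
      intro x hx
      filter_upwards [hBo.mem_nhds hx] with y hy
      rw [hW₂]; simp only
      by_cases hyN : y ∈ N
      · rw [if_pos hyN]
        exact ((hle y ⟨hyN, hy⟩).self_of_nhds).symm
      · rw [if_neg hyN]; rfl
    have hP2 : ∀ x ∈ N ∪ B, P x W₂ := by
      rintro x (hx | hx)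
      · exact h1 x (hNΩ hx) W W₂ (hWN x hx) (e1 x hx)
      · exact h1 x (hBΩ hx) (W₁ + l) W₂ (h2 x (hBΩ hx) W₁ (hB1 x hx) l hl) (e2 x hx)
    -- the segment from `x₀` to `c t'`
    have hseg : segment ℝ x₀ (c t') ⊆ N ∪ B := by
      intro z hz
      rw [segment_eq_image'] at hz
      obtain ⟨s, hs, rfl⟩ := hz
      have hz' : x₀ + s • (c t' - x₀) = c (s * t') := by
        simp only [hcdef]; rw [add_sub_cancel_left, smul_smul]
      simp only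
      rw [hz']
      have hst : s * t' ≤ t' := by nlinarith [hs.1, hs.2]
      have hst0 : 0 ≤ s * t' := mul_nonneg hs.1 ht'
      rcases le_or_gt (s * t') t with h | h
      · left
        rcases eq_or_lt_of_le ht with h0 | h0
        · have : s * t' = 0 := le_antisymm (by rw [h0]; exact h) hst0
          rw [this]; simpa [hcdef] using hxN
        · have : c (s * t') = x₀ + (s * t' / t) • (c t - x₀) := by
            simp only [hcdef]; rw [add_sub_cancel_left, smul_smul, div_mul_cancel₀ _ h0.ne']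
          rw [this]
          exact hNc.add_smul_sub_mem hxN htN ⟨by positivity, (div_le_one h0).2 h⟩
      · right
        have h0 : 0 < t' - t := by linarith
        have : c (s * t') = c t + ((s * t' - t) / (t' - t)) • (c t' - c t) := by
          simp only [hcdef]
          rw [show (x₀ + t' • (q - x₀) - (x₀ + t • (q - x₀))) = (t' - t) • (q - x₀) by
            rw [sub_smul]; abel, smul_smul, div_mul_cancel₀ _ h0.ne', sub_smul]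
          abel
        rw [this]
        exact hBc.add_smul_sub_mem hcB hcB' ⟨by
          apply div_nonneg <;> linarith, (div_le_one h0).2 (by linarith)⟩
    have hcomp : IsCompact (segment ℝ x₀ (c t')) := by
      rw [segment_eq_image']
      exact isCompact_Icc.image (by fun_prop)
    obtain ⟨ε, hε, hεs⟩ := hcomp.exists_thickening_subset_open (hNo.union hBo) hseg
    refine ⟨Metric.thickening ε (segment ℝ x₀ (c t')), Metric.isOpen_thickening,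
      (convex_segment _ _).thickening _, hεs.trans (union_subset hNΩ hBΩ),
      Metric.self_subset_thickening hε _ (left_mem_segment ℝ _ _),
      Metric.self_subset_thickening hε _ (right_mem_segment ℝ _ _), W₂,
      fun x hx => hP2 x (hεs hx), ?_⟩
    exact (e1 x₀ hxN).symm.trans hW0
  -- local statement
  have loc : ∀ s ∈ Icc (0 : ℝ) 1, ∀ᶠ t in 𝓝[Icc (0 : ℝ) 1] s, (A s ↔ A t) := by
    intro s hs
    obtain ⟨W₁, hW₁⟩ := h3 (c s) (hcΩ s hs)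
    obtain ⟨r, hr, hrs⟩ := Metric.eventually_nhds_iff_ball.1 (hW₁.and (hΩ.mem_nhds (hcΩ s hs)))
    have hev : ∀ᶠ t in 𝓝[Icc (0 : ℝ) 1] s, c t ∈ Metric.ball (c s) r :=
      (hcc.continuousAt.eventually (Metric.ball_mem_nhds _ hr)).filter_mono nhdsWithin_le_nhds
    filter_upwards [hev, self_mem_nhdsWithin] with t ht ht01
    have st := step (Metric.ball (c s) r) W₁ Metric.isOpen_ball (convex_ball _ _)
      (fun x hx => (hrs x hx).2) (fun x hx => (hrs x hx).1)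
    exact ⟨st s t hs.1 ht01.1 (Metric.mem_ball_self hr) ht,
      st t s ht01.1 hs.1 ht (Metric.mem_ball_self hr)⟩
  have hA0 : A 0 := by
    obtain ⟨r, hr, hrs⟩ := Metric.eventually_nhds_iff_ball.1 (hW₀.and (hΩ.mem_nhds hx₀))
    exact ⟨Metric.ball x₀ r, Metric.isOpen_ball, convex_ball _ _, fun x hx => (hrs x hx).2,
      Metric.mem_ball_self hr, by simpa [hcdef] using hr, W₀, fun x hx => (hrs x hx).1,
      EventuallyEq.rfl⟩
  have hA1 : A 1 := by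
    have := isPreconnected_Icc.induction₂ (s := Icc (0 : ℝ) 1) (fun s t => (A s ↔ A t)) loc
      (fun x y z _ _ _ h h' => h.trans h') (fun x y _ _ h => h.symm)
      (x := 0) (y := 1) ⟨le_rfl, zero_le_one⟩ ⟨zero_le_one, le_rfl⟩
    exact this.1 hA0
  obtain ⟨N, hNo, hNc, hNΩ, hxN, htN, W, hWN, hW0⟩ := hA1
  exact ⟨N, hNo, hNc, hNΩ, hxN, by simpa [hcdef] using htN, W, hWN, hW0⟩

/-- **Continuation over a convex open set.** -/
theorem exists_cont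
    (h1 : ∀ x ∈ Ω, ∀ W W' : E → V, P x W → W =ᶠ[𝓝 x] W' → P x W')
    (h2 : ∀ x ∈ Ω, ∀ W : E → V, P x W → ∀ l ∈ L, P x (W + l))
    (h3 : ∀ x ∈ Ω, ∃ W : E → V, ∀ᶠ y in 𝓝 x, P y W)
    (h4 : ∀ x ∈ Ω, ∀ W W' : E → V, P x W → P x W' → ∃ l ∈ L, W' =ᶠ[𝓝 x] W + l)
    (h5 : ∀ l ∈ L, ∀ x ∈ Ω, l =ᶠ[𝓝 x] 0 → ∀ y ∈ Ω, l y = 0)
    (hΩ : IsOpen Ω) (hc : Convex ℝ Ω) :
    ∃ W : E → V, ∀ x ∈ Ω, P x W := by
  classical
  rcases Ω.eq_empty_or_nonempty with h0 | ⟨x₀, hx₀⟩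
  · exact ⟨0, fun x hx => by rw [h0] at hx; exact hx.elim⟩
  obtain ⟨W₀, hW₀⟩ := h3 x₀ hx₀
  have key : ∀ q : E, ∃ NW : Set E × (E → V), q ∈ Ω → IsOpen NW.1 ∧ Convex ℝ NW.1 ∧ NW.1 ⊆ Ω ∧
      x₀ ∈ NW.1 ∧ q ∈ NW.1 ∧ (∀ x ∈ NW.1, P x NW.2) ∧ NW.2 =ᶠ[𝓝 x₀] W₀ := by
    intro q
    by_cases hq : q ∈ Ω
    · obtain ⟨N, a1, a2, a3, a4, a5, W, a6, a7⟩ := cont_seg h1 h2 h3 h4 h5 hΩ hc hx₀ hW₀ hq
      exact ⟨(N, W), fun _ => ⟨a1, a2, a3, a4, a5, a6, a7⟩⟩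
    · exact ⟨(∅, 0), fun h => absurd h hq⟩
  choose NW hNW using key
  refine ⟨fun q => (NW q).2 q, fun q hq => ?_⟩
  obtain ⟨a1, a2, a3, a4, a5, a6, a7⟩ := hNW q hq
  refine h1 q hq (NW q).2 _ (a6 q a5) ?_
  filter_upwards [a1.mem_nhds a5] with q' hq'
  obtain ⟨b1, b2, b3, b4, b5, b6, b7⟩ := hNW q' (a3 hq')
  have := uniq_on h4 h5 hΩ (a1.inter b1) (a2.inter b2).isPreconnected
    (inter_subset_left.trans a3) (W := (NW q).2) (W' := (NW q').2) (fun x hx => a6 x hx.1)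
    (fun x hx => b6 x hx.2) (x₁ := x₀) ⟨a4, b4⟩ (b7.trans a7.symm) q' ⟨hq', b5⟩
  exact this.self_of_nhds.symm

end Pool.Agent.Lib.MP_5d4057_al.DR
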