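import Mathlib

/-! # Derivations of fields of characteristic zero

Existence of derivations with prescribed values, extension, uniqueness, and descent of subspaces
stable under all derivations. -/

namespace Pool.Agent.Lib.MP_5d4057_al.DR.DerA

open Module Polynomial

variable {K L : Type} [Field K] [Field L] [CharZero K] [Algebra K L]

/-- A field extension of characteristic zero is formally smooth. -/
theorem smooth_of_char_zero : Algebra.FormallySmooth K L := by
  obtain ⟨ι, v, hv⟩ := exists_isTranscendenceBasis' K L
  have h1 : Algebra.IsAlgebraic (IntermediateField.adjoin K (Set.range v)) L :=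
    hv.isAlgebraic_field
  have h2 : Algebra.IsSeparable (IntermediateField.adjoin K (Set.range v)) L := inferInstance
  exact Algebra.FormallySmooth.of_algebraicIndependent_of_isSeparable hv.1

/-- A field of characteristic zero is formally smooth over every subdomain. -/
theorem smooth_of_domain {S : Type} [CommRing S] [IsDomain S] [CharZero S] [Algebra S L]
    [FaithfulSMul S L] : Algebra.FormallySmooth S L := by
  let _ : Algebra (FractionRing S) L := FractionRing.liftAlgebra S L
  have h1 : IsScalarTower S (FractionRing S) L := inferInstance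
  have h2 : CharZero (FractionRing S) := inferInstance
  have h3 : Algebra.FormallySmooth S (FractionRing S) :=
    .of_isLocalization (nonZeroDivisors S)
  have h4 : Algebra.FormallySmooth (FractionRing S) L := smooth_of_char_zero
  exact .comp _ (FractionRing S) _

/-- Extension of derivations. -/
theorem ext_der {S : Type} [CommRing S] [IsDomain S] [CharZero S] [Algebra S L]
    [FaithfulSMul S L] (D : Derivation ℤ S L) :
    ∃ D' : Derivation ℤ L L, ∀ x : S, D' (algebraMap S L x) = D x := by
  classical
  let φ : S →+* TrivSqZeroExt L L :=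
    { toFun := fun x => TrivSqZeroExt.inl (algebraMap S L x) + TrivSqZeroExt.inr (D x)
      map_one' := by simp
      map_zero' := by simp
      map_add' := by
        intro x y
        ext <;> simp
      map_mul' := by
        intro x y
        ext
        · simp only [TrivSqZeroExt.fst_add, TrivSqZeroExt.fst_mul, TrivSqZeroExt.fst_inl,
            TrivSqZeroExt.fst_inr, map_mul, add_zero]
        · simp only [TrivSqZeroExt.snd_add, TrivSqZeroExt.snd_mul, TrivSqZeroExt.snd_inl,
            TrivSqZeroExt.snd_inr, TrivSqZeroExt.fst_add, TrivSqZeroExt.fst_inl,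
            TrivSqZeroExt.fst_inr, add_zero, zero_add, Derivation.leibniz, Algebra.smul_def,
            MulOpposite.smul_eq_mul_unop, MulOpposite.unop_op]
          rw [Algebra.algebraMap_self, RingHom.id_apply]
          ring }
  let _ : Algebra S (TrivSqZeroExt L L) := φ.toAlgebra
  have hsm : Algebra.FormallySmooth S L := smooth_of_domain
  let g : TrivSqZeroExt L L →ₐ[S] L :=
    { (TrivSqZeroExt.fstHom ℤ L L).toRingHom with
      commutes' := by
        intro x
        change TrivSqZeroExt.fst (φ x) = algebraMap S L x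
        simp [φ] }
  have hg : Function.Surjective g := fun x => ⟨TrivSqZeroExt.inl x, rfl⟩
  have hk : IsNilpotent (RingHom.ker (g : TrivSqZeroExt L L →+* L)) := by
    refine ⟨2, ?_⟩
    have h2 : RingHom.ker (g : TrivSqZeroExt L L →+* L) ^ 2 =
        RingHom.ker (g : TrivSqZeroExt L L →+* L) * RingHom.ker (g : TrivSqZeroExt L L →+* L) :=
      pow_two _
    rw [h2, Ideal.zero_eq_bot, eq_bot_iff, Ideal.mul_le]
    intro a ha b hb
    have ha' : TrivSqZeroExt.fst a = 0 := ha
    have hb' : TrivSqZeroExt.fst b = 0 := hb
    rw [Ideal.mem_bot]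
    ext
    · simp [ha', hb']
    · simp [ha', hb']
  let f := Algebra.FormallySmooth.liftOfSurjective (AlgHom.id S L) g hg hk
  have hf : ∀ x, TrivSqZeroExt.fst (f x) = x := fun x =>
    Algebra.FormallySmooth.liftOfSurjective_apply (AlgHom.id S L) g hg hk x
  refine ⟨Derivation.mk' (R := ℤ)
    { toFun := fun x => TrivSqZeroExt.snd (f x)
      map_add' := by
        intro x y
        rw [map_add, TrivSqZeroExt.snd_add]
      map_smul' := by
        intro c x
        simp } ?_, ?_⟩
  · intro x y
    change TrivSqZeroExt.snd (f (x * y)) = _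
    rw [map_mul, TrivSqZeroExt.snd_mul, hf, hf]
    simp [mul_comm]
  · intro x
    change TrivSqZeroExt.snd (f (algebraMap S L x)) = D x
    rw [AlgHom.commutes]
    change TrivSqZeroExt.snd (φ x) = D x
    simp [φ]

/-- A derivation over `K` vanishes at the elements algebraic over `K`. -/
theorem der_eq_zero {M : Type} [AddCommGroup M] [Module L M] [Module K M] [IsScalarTower K L M]
    (D : Derivation K L M) {x : L} (hx : IsAlgebraic K x) : D x = 0 := by
  have h1 : aeval x (minpoly K x) = 0 := minpoly.aeval K x
  have h2 : D (aeval x (minpoly K x)) = aeval x (derivative (minpoly K x)) • D x :=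
    D.map_aeval _ _
  have h3 : (minpoly K x).Separable := (minpoly.irreducible hx.isIntegral).separable
  have h4 : aeval x (derivative (minpoly K x)) ≠ 0 := h3.aeval_derivative_ne_zero h1
  rw [h1, map_zero] at h2
  exact (smul_eq_zero.1 h2.symm).resolve_left h4

/-- Every derivation of a field of characteristic zero vanishes at the algebraic numbers. -/
theorem der_eq_zero_of_alg [CharZero L] (D : Derivation ℤ L L) {x : L} (hx : IsAlgebraic ℚ x) :
    D x = 0 := by
  have h1 : ∀ (c : ℚ) (y : L), D (c • y) = c • D y := by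
    intro c y
    exact map_rat_smul (D : L →+ L) c y
  let D' : Derivation ℚ L L := Derivation.mk' (R := ℚ)
    { toFun := fun y => D y, map_add' := fun a b => map_add D a b, map_smul' := h1 } (by
      intro a b
      exact D.leibniz a b)
  exact der_eq_zero D' hx

/-- Derivations with prescribed values at algebraically independent elements. -/
theorem exists_der {ι : Type} {v : ι → L} (hv : AlgebraicIndependent K v) (a : ι → L) :
    ∃ D : Derivation K L L, ∀ i, D (v i) = a i := by
  let _ : Algebra (MvPolynomial ι K) L :=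
    (MvPolynomial.aeval v : MvPolynomial ι K →ₐ[K] L).toRingHom.toAlgebra
  have hmap : ∀ p : MvPolynomial ι K, algebraMap (MvPolynomial ι K) L p =
      MvPolynomial.aeval v p := fun _ => rfl
  have hf : FaithfulSMul (MvPolynomial ι K) L :=
    (faithfulSMul_iff_algebraMap_injective _ _).2 hv
  have ht : IsScalarTower K (MvPolynomial ι K) L := IsScalarTower.of_algebraMap_eq (by
    intro c
    rw [hmap, MvPolynomial.algebraMap_eq, MvPolynomial.aeval_C])
  obtain ⟨D, hD⟩ := ext_der (S := MvPolynomial ι K) (L := L)
    ((MvPolynomial.mkDerivation K a).restrictScalars ℤ)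
  have hK : ∀ c : K, D (algebraMap K L c) = 0 := by
    intro c
    have h1 := hD (MvPolynomial.C c)
    rw [hmap, MvPolynomial.aeval_C] at h1
    rw [h1]
    change (MvPolynomial.mkDerivation K a) (MvPolynomial.C c) = 0
    rw [MvPolynomial.derivation_C]
  refine ⟨Derivation.mk' (R := K)
    { toFun := fun y => D y
      map_add' := fun a b => map_add D a b
      map_smul' := by
        intro c y
        rw [Algebra.smul_def, D.leibniz, hK, smul_zero, add_zero, RingHom.id_apply, smul_eq_mul,
          Algebra.smul_def] } (fun a b => D.leibniz a b), fun i => ?_⟩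
  change D (v i) = a i
  have h1 := hD (MvPolynomial.X i)
  rw [hmap, MvPolynomial.aeval_X] at h1
  rw [h1]
  change (MvPolynomial.mkDerivation K a) (MvPolynomial.X i) = a i
  rw [MvPolynomial.mkDerivation_X]

/-- A complex number killed by all derivations is algebraic. -/
theorem alg_of_der {x : ℂ} (h : ∀ D : Derivation ℤ ℂ ℂ, D x = 0) : IsAlgebraic ℚ x := by
  by_contra hx
  have h1 : AlgebraicIndependent ℚ (fun _ : Unit => x) :=
    algebraicIndependent_unique_type_iff.2 hx
  obtain ⟨D, hD⟩ := exists_der h1 fun _ => 1
  have h2 := h (D.restrictScalars ℤ)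
  have h3 : D x = 0 := h2
  rw [hD ()] at h3
  exact one_ne_zero h3

theorem alg_iff_der {x : ℂ} : IsAlgebraic ℚ x ↔ ∀ D : Derivation ℤ ℂ ℂ, D x = 0 :=
  ⟨fun h D => der_eq_zero_of_alg D h, alg_of_der⟩

/-- Two derivations which agree on a subring over which `L` is algebraic are equal. -/
theorem der_ext_of_alg {F : Type} [Field F] [CharZero F] [Algebra F L] [Algebra.IsAlgebraic F L]
    {D D' : Derivation ℤ L L} (h : ∀ x : F, D (algebraMap F L x) = D' (algebraMap F L x)) :
    D = D' := by
  have h1 : ∀ x : F, (D - D') (algebraMap F L x) = 0 := by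
    intro x
    rw [Derivation.sub_apply, h, sub_self]
  let E : Derivation F L L := Derivation.mk' (R := F)
    { toFun := fun y => (D - D') y
      map_add' := fun a b => map_add (D - D') a b
      map_smul' := by
        intro c y
        rw [Algebra.smul_def, (D - D').leibniz, h1, smul_zero, add_zero, RingHom.id_apply,
          smul_eq_mul, Algebra.smul_def] } (fun a b => (D - D').leibniz a b)
  ext x
  have h2 : E x = 0 := der_eq_zero E (Algebra.IsAlgebraic.isAlgebraic x)
  have h3 : (D - D') x = 0 := h2
  rw [Derivation.sub_apply, sub_eq_zero] at h3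
  exact h3

/-- The action of a derivation on coefficient vectors. -/
noncomputable def dv {ι : Type} (D : Derivation ℤ L L) (v : ι →₀ L) : ι →₀ L :=
  v.mapRange D (map_zero D)

theorem dv_apply {ι : Type} (D : Derivation ℤ L L) (v : ι →₀ L) (i : ι) : dv D v i = D (v i) := rfl

/-- In a subspace stable under all derivations a vector of minimal support, with one coefficient `1`,
has constant coefficients. -/
theorem const_of_min {ι : Type} {I : Submodule L (ι →₀ L)}
    (hI : ∀ D : Derivation ℤ L L, ∀ v ∈ I, dv D v ∈ I) {w : ι →₀ L} (hw : w ∈ I) {i₀ : ι}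
    (h1 : w i₀ = 1) (hmin : ∀ v ∈ I, v.support ⊂ w.support → v = 0) (D : Derivation ℤ L L) (i : ι) :
    D (w i) = 0 := by
  have h2 : dv D w = 0 := by
    refine hmin _ (hI D w hw) ?_
    refine Finset.ssubset_iff_subset_ne.2 ⟨?_, ?_⟩
    · intro j hj
      rw [Finsupp.mem_support_iff] at hj ⊢
      intro h3
      exact hj (by rw [dv_apply, h3, map_zero])
    · intro h3
      have h4 : i₀ ∈ w.support := by
        rw [Finsupp.mem_support_iff, h1]
        exact one_ne_zero
      rw [← h3, Finsupp.mem_support_iff, dv_apply, h1] at h4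
      exact h4 D.map_one_eq_zero
  rw [← dv_apply, h2]
  rfl

/-- A nonzero subspace stable under all derivations contains a nonzero vector with constant
coefficients, one of them `1`, inside the support of any given nonzero vector. -/
theorem exists_const {ι : Type} {I : Submodule L (ι →₀ L)}
    (hI : ∀ D : Derivation ℤ L L, ∀ v ∈ I, dv D v ∈ I) {v : ι →₀ L} (hv : v ∈ I) (hv0 : v ≠ 0) :
    ∃ w ∈ I, w.support ⊆ v.support ∧ (∃ i, w i = 1) ∧ ∀ D : Derivation ℤ L L, ∀ i, D (w i) = 0 := by
  classical
  obtain ⟨s, hs, hmin⟩ : ∃ s : Finset ι, (s ∈ {s : Finset ι | s ⊆ v.support ∧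
      ∃ w ∈ I, w ≠ 0 ∧ w.support = s}) ∧ ∀ t ∈ {s : Finset ι | s ⊆ v.support ∧
      ∃ w ∈ I, w ≠ 0 ∧ w.support = s}, ¬ t ⊂ s :=
    WellFounded.has_min (r := (· ⊂ ·)) Finset.isWellFounded_ssubset.wf
      {s : Finset ι | s ⊆ v.support ∧ ∃ w ∈ I, w ≠ 0 ∧ w.support = s}
      ⟨v.support, Finset.Subset.refl _, v, hv, hv0, rfl⟩
  obtain ⟨hsv, w, hw, hw0, hws⟩ := hs
  obtain ⟨i₀, hi₀⟩ : ∃ i, w i ≠ 0 := by
    by_contra hcon
    push Not at hcon
    exact hw0 (Finsupp.ext hcon)
  have h1 : ((w i₀)⁻¹ • w).support = s := by
    rw [← hws]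
    ext j
    simp [hi₀]
  refine ⟨(w i₀)⁻¹ • w, I.smul_mem _ hw, by rw [h1]; exact hsv, ⟨i₀, ?_⟩, ?_⟩
  · rw [Finsupp.smul_apply, smul_eq_mul, inv_mul_cancel₀ hi₀]
  · intro D i
    refine const_of_min hI (I.smul_mem _ hw) (i₀ := i₀) ?_ ?_ D i
    · rw [Finsupp.smul_apply, smul_eq_mul, inv_mul_cancel₀ hi₀]
    · intro u hu hus
      by_contra hu0
      rw [h1] at hus
      exact hmin u.support ⟨hus.1.trans hsv, u, hu, hu0, rfl⟩ hus

/-- Descent: a subspace stable under all derivations is spanned by its vectors with constant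
coefficients. -/
theorem descent {ι : Type} {I : Submodule L (ι →₀ L)}
    (hI : ∀ D : Derivation ℤ L L, ∀ v ∈ I, dv D v ∈ I) :
    I = Submodule.span L {v | v ∈ I ∧ ∀ D : Derivation ℤ L L, ∀ i, D (v i) = 0} := by
  classical
  refine le_antisymm ?_ (Submodule.span_le.2 fun v hv => hv.1)
  intro v hv
  obtain ⟨n, hn⟩ : ∃ n, v.support.card = n := ⟨_, rfl⟩
  induction n using Nat.strong_induction_on generalizing v with
  | _ n ih =>
    by_cases hv0 : v = 0
    · rw [hv0]
      exact Submodule.zero_mem _
    obtain ⟨w, hw, hws, ⟨i₀, hi₀⟩, hwD⟩ := exists_const hI hv hv0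
    have h1 : v - v i₀ • w ∈ I := I.sub_mem hv (I.smul_mem _ hw)
    have h2 : (v - v i₀ • w).support ⊂ v.support := by
      refine Finset.ssubset_iff_subset_ne.2 ⟨?_, ?_⟩
      · intro j hj
        rw [Finsupp.mem_support_iff] at hj ⊢
        intro h3
        have h4 : w j = 0 := by
          by_contra h5
          exact (Finsupp.mem_support_iff.1 (hws (Finsupp.mem_support_iff.2 h5))) h3
        exact hj (by rw [Finsupp.sub_apply, Finsupp.smul_apply, h3, h4, smul_zero, sub_zero])
      · intro h3
        have h4 : i₀ ∈ v.support := hws (by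
          rw [Finsupp.mem_support_iff, hi₀]
          exact one_ne_zero)
        rw [← h3, Finsupp.mem_support_iff, Finsupp.sub_apply, Finsupp.smul_apply, hi₀,
          smul_eq_mul, mul_one, sub_self] at h4
        exact h4 rfl
    have h3 := ih _ (by rw [← hn]; exact Finset.card_lt_card h2) h1 rfl
    have h4 : v = (v - v i₀ • w) + v i₀ • w := by abel
    rw [h4]
    exact Submodule.add_mem _ h3 (Submodule.smul_mem _ _ (Submodule.subset_span ⟨hw, hwD⟩))

/-- Relations between elements killed by lifts of all derivations: if they are linearly dependent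
over `L`, they satisfy a nontrivial relation with constant coefficients. -/
theorem exists_rel {M : Type} [AddCommGroup M] [Module L M] {ι : Type} (e : ι → M)
    (H : ∀ D : Derivation ℤ L L, ∃ T : M →+ M, (∀ (c : L) (m : M), T (c • m) = D c • m + c • T m) ∧
      ∀ i, T (e i) = 0) {c : ι →₀ L} (hc : c ≠ 0) (h0 : Finsupp.linearCombination L e c = 0) :
    ∃ w : ι →₀ L, w.support ⊆ c.support ∧ (∃ i, w i = 1) ∧
      (∀ D : Derivation ℤ L L, ∀ i, D (w i) = 0) ∧ Finsupp.linearCombination L e w = 0 := by
  have hI : ∀ D : Derivation ℤ L L, ∀ v ∈ LinearMap.ker (Finsupp.linearCombination L e),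
      dv D v ∈ LinearMap.ker (Finsupp.linearCombination L e) := by
    intro D v hv
    obtain ⟨T, hT, hTe⟩ := H D
    rw [LinearMap.mem_ker] at hv ⊢
    have h1 : T (Finsupp.linearCombination L e v) = Finsupp.linearCombination L e (dv D v) := by
      have h5 : (v.mapRange D (map_zero D)).sum (fun i a => a • e i) =
          v.sum fun i a => D a • e i := Finsupp.sum_mapRange_index fun i => zero_smul L (e i)
      rw [Finsupp.linearCombination_apply, Finsupp.linearCombination_apply, dv, h5,
        map_finsuppSum]
      refine Finsupp.sum_congr fun i _ => ?_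
      rw [hT, hTe, smul_zero, add_zero]
    rw [← h1, hv, map_zero]
  obtain ⟨w, hw, hws, hw1, hwD⟩ := exists_const hI (v := c) (LinearMap.mem_ker.2 h0) hc
  exact ⟨w, hws, hw1, hwD, LinearMap.mem_ker.1 hw⟩

end Pool.Agent.Lib.MP_5d4057_al.DR.DerA
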