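import Pool.Agent.Lib.MP_5d4057_al.HM.Basic

/-!
# A convex part of the cone, and homogeneous extension (helper15)

`Om n` is an open convex subset of `Cone n` which meets every line of the cone.
`exists_hext` : a function on a convex open set which satisfies the Euler equation of degree `d`
extends to a homogeneous function of degree `d` on all the lines which meet the set.
-/

namespace Pool.Agent.Lib.MP_5d4057_al.DR

open Set Filter Topology Pool.Agent.Lib.MP_5d4057_al.HM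

/-! ## The convex set -/

/-- The convex part of the cone. -/
def Om (n : ℕ) : Set (Vec n) :=
  {v | ‖WithLp.toLp 2 (fun i : Fin n => v i.castSucc)‖ < (v (Fin.last n)).re}

theorem isOpen_om (n : ℕ) : IsOpen (Om n) := by
  refine isOpen_lt ?_ ?_
  · fun_prop
  · fun_prop

theorem convex_om (n : ℕ) : Convex ℝ (Om n) := by
  intro v hv w hw a b ha hb hab
  simp only [Om, mem_ofPred_eq] at *
  have e1 : (WithLp.toLp 2 (fun i : Fin n => (a • v + b • w) i.castSucc)) =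
      a • WithLp.toLp 2 (fun i : Fin n => v i.castSucc) +
      b • WithLp.toLp 2 (fun i : Fin n => w i.castSucc) := by
    ext i; simp
  have e2 : ((a • v + b • w) (Fin.last n)).re = a * (v (Fin.last n)).re + b * (w (Fin.last n)).re := by
    simp
  rw [e1, e2]
  refine (norm_add_le _ _).trans_lt ?_
  rw [norm_smul, norm_smul, Real.norm_of_nonneg ha, Real.norm_of_nonneg hb]
  rcases eq_or_lt_of_le ha with h | h
  · have : b = 1 := by linarith
    subst this; rw [← h]; simpa using hw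
  · exact add_lt_add_of_lt_of_le (mul_lt_mul_of_pos_left hv h)
      (mul_le_mul_of_nonneg_left hw.le hb)

theorem om_sub_cone (n : ℕ) : Om n ⊆ Cone n := by
  intro v hv
  simp only [Om, mem_ofPred_eq] at hv
  show q v < 0
  rw [q_eq]
  have h1 : ∑ i : Fin n, ‖v i.castSucc‖ ^ 2 =
      ‖WithLp.toLp 2 (fun i : Fin n => v i.castSucc)‖ ^ 2 := by
    rw [EuclideanSpace.norm_sq_eq]
  rw [h1]
  have h2 : (v (Fin.last n)).re ≤ ‖v (Fin.last n)‖ := Complex.re_le_norm _
  have h3 : ‖WithLp.toLp 2 (fun i : Fin n => v i.castSucc)‖ < ‖v (Fin.last n)‖ := hv.trans_le h2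
  have h4 := norm_nonneg (WithLp.toLp 2 (fun i : Fin n => v i.castSucc))
  nlinarith

theorem exists_smul_mem_om {n : ℕ} {v : Vec n} (hv : v ∈ Cone n) : ∃ c : ℂ, c ≠ 0 ∧ c • v ∈ Om n := by
  have hq : q v < 0 := hv
  rw [q_eq] at hq
  have h1 : ∑ i : Fin n, ‖v i.castSucc‖ ^ 2 =
      ‖WithLp.toLp 2 (fun i : Fin n => v i.castSucc)‖ ^ 2 := by
    rw [EuclideanSpace.norm_sq_eq]
  rw [h1] at hq
  have h4 := norm_nonneg (WithLp.toLp 2 (fun i : Fin n => v i.castSucc))
  have h3 : ‖WithLp.toLp 2 (fun i : Fin n => v i.castSucc)‖ < ‖v (Fin.last n)‖ := by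
    have := norm_nonneg (v (Fin.last n))
    nlinarith
  have hz : v (Fin.last n) ≠ 0 := by
    intro h; rw [h, norm_zero] at h3; linarith
  refine ⟨(v (Fin.last n))⁻¹, inv_ne_zero hz, ?_⟩
  simp only [Om, mem_ofPred_eq, Pi.smul_apply, smul_eq_mul, inv_mul_cancel₀ hz, Complex.one_re]
  have e1 : (WithLp.toLp 2 (fun i : Fin n => (v (Fin.last n))⁻¹ * v i.castSucc)) =
      (v (Fin.last n))⁻¹ • WithLp.toLp 2 (fun i : Fin n => v i.castSucc) := by
    ext i; simp
  rw [e1, norm_smul, norm_inv, ← div_eq_inv_mul, div_lt_one (norm_pos_iff.2 hz)]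
  exact h3

theorem zero_notMem_om (n : ℕ) : (0 : Vec n) ∉ Om n := by
  intro h
  have h1 : ‖WithLp.toLp 2 (fun i : Fin n => (0 : Vec n) i.castSucc)‖ <
    ((0 : Vec n) (Fin.last n)).re := h
  rw [Pi.zero_apply, Complex.zero_re] at h1
  exact absurd h1 (not_lt.2 (norm_nonneg _))

/-! ## Homogeneous extension -/

variable {E F : Type*} [NormedAddCommGroup E] [NormedSpace ℂ E] [NormedAddCommGroup F]
  [NormedSpace ℂ F] {Ω : Set E} {d : ℤ} {W : E → F}

theorem homog_on (hΩ : IsOpen Ω) (hc : Convex ℝ Ω) (h0 : (0 : E) ∉ Ω)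
    (hW : ∀ a ∈ Ω, DifferentiableAt ℂ W a) (he : ∀ a ∈ Ω, fderiv ℂ W a a = (d : ℂ) • W a)
    {y : E} {c : ℂ} (hy : y ∈ Ω) (hcy : c • y ∈ Ω) : W (c • y) = c ^ d • W y := by
  set S : Set ℂ := {c | c • y ∈ Ω} with hS
  have hSo : IsOpen S := hΩ.preimage (by fun_prop)
  have hSc : Convex ℝ S := by
    intro a ha b hb s t hs ht hst
    simp only [hS, mem_ofPred_eq] at *
    have : (s • a + t • b) • y = s • (a • y) + t • (b • y) := by
      rw [add_smul, smul_assoc, smul_assoc]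
    rw [this]
    exact hc ha hb hs ht hst
  have hS0 : ∀ c ∈ S, c ≠ 0 := by
    rintro c hc rfl
    simp only [hS, mem_ofPred_eq, zero_smul] at hc
    exact h0 hc
  set φ : ℂ → F := fun c => c ^ (-d) • W (c • y) with hφ
  have hder : ∀ c ∈ S, HasDerivAt φ 0 c := by
    intro c hc
    have h1 : HasDerivAt (fun c : ℂ => c ^ (-d)) (((-d : ℤ) : ℂ) * c ^ (-d - 1)) c :=
      hasDerivAt_zpow (-d) c (Or.inl (hS0 c hc))
    have h2 : HasDerivAt (fun c : ℂ => c • y) y c := by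
      simpa using (hasDerivAt_id c).smul_const y
    have h3 : HasDerivAt (fun c : ℂ => W (c • y)) (fderiv ℂ W (c • y) y) c :=
      (hW _ hc).hasFDerivAt.comp_hasDerivAt c h2
    have h4 := h1.smul h3
    refine h4.congr_deriv ?_
    have h5 : fderiv ℂ W (c • y) y = (c⁻¹ * (d : ℂ)) • W (c • y) := by
      have h6 := he (c • y) hc
      rw [map_smul] at h6
      rw [← smul_smul, ← h6, smul_smul, inv_mul_cancel₀ (hS0 c hc), one_smul]
    rw [h5, smul_smul, ← add_smul]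
    have h7 : c ^ (-d) * (c⁻¹ * (d : ℂ)) + ((-d : ℤ) : ℂ) * c ^ (-d - 1) = 0 := by
      rw [zpow_sub_one₀ (hS0 c hc)]; push_cast; ring
    rw [h7, zero_smul]
  have hconst : φ c = φ 1 := by
    refine hSc.is_const_of_fderivWithin_eq_zero (𝕜 := ℂ) (f := φ)
      (fun x hx => (hder x hx).differentiableAt.differentiableWithinAt) ?_ hcy
      (by simpa [hS] using hy)
    intro x hx
    rw [fderivWithin_eq_fderiv (hSo.uniqueDiffOn x hx) (hder x hx).differentiableAt]
    ext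
    simp [(hder x hx).deriv]
  simp only [hφ, one_zpow, one_smul] at hconst
  rw [← hconst, smul_smul, zpow_neg, mul_inv_cancel₀ (zpow_ne_zero d (hS0 c hcy)), one_smul]

/-- **Homogeneous extension.** -/
theorem exists_hext (hΩ : IsOpen Ω) (hc : Convex ℝ Ω) (h0 : (0 : E) ∉ Ω)
    (hW : ∀ a ∈ Ω, DifferentiableAt ℂ W a) (he : ∀ a ∈ Ω, fderiv ℂ W a a = (d : ℂ) • W a) :
    ∃ Wt : E → F, (∀ y, ∀ c : ℂ, c ≠ 0 → c • y ∈ Ω →
        Wt =ᶠ[𝓝 y] fun z => (c ^ d)⁻¹ • W (c • z)) ∧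
      (∀ y, (∃ b : ℂ, b ≠ 0 ∧ b • y ∈ Ω) → ∀ c : ℂ, c ≠ 0 → Wt (c • y) = c ^ d • Wt y) ∧
      ∀ a ∈ Ω, Wt =ᶠ[𝓝 a] W := by
  classical
  set Wt : E → F := fun y => if h : ∃ c : ℂ, c ≠ 0 ∧ c • y ∈ Ω then
    (h.choose ^ d)⁻¹ • W (h.choose • y) else 0 with hWt
  have key : ∀ y, ∀ c : ℂ, c ≠ 0 → c • y ∈ Ω → Wt y = (c ^ d)⁻¹ • W (c • y) := by
    intro y c hc0 hcy
    have h : ∃ c : ℂ, c ≠ 0 ∧ c • y ∈ Ω := ⟨c, hc0, hcy⟩
    have h1 : Wt y = (h.choose ^ d)⁻¹ • W (h.choose • y) := by rw [hWt]; simp only; rw [dif_pos h]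
    obtain ⟨b0, hby⟩ := h.choose_spec
    set b := h.choose
    rw [h1]
    have h2 : W ((b * c⁻¹) • (c • y)) = (b * c⁻¹) ^ d • W (c • y) := by
      refine homog_on hΩ hc h0 hW he hcy ?_
      rw [smul_smul, mul_assoc, inv_mul_cancel₀ hc0, mul_one]; exact hby
    rw [smul_smul, mul_assoc, inv_mul_cancel₀ hc0, mul_one] at h2
    rw [h2, smul_smul, mul_zpow, inv_zpow, ← mul_assoc, inv_mul_cancel₀ (zpow_ne_zero d b0),
      one_mul]
  refine ⟨Wt, fun y c hc0 hcy => ?_, fun y hy c hc0 => ?_, fun a ha => ?_⟩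
  · have : {z : E | c • z ∈ Ω} ∈ 𝓝 y := (hΩ.preimage (by fun_prop)).mem_nhds hcy
    filter_upwards [this] with z hz
    exact key z c hc0 hz
  · obtain ⟨b, b0, hby⟩ := hy
    have h1 := key y b b0 hby
    have h2 := key (c • y) (b * c⁻¹) (mul_ne_zero b0 (inv_ne_zero hc0)) (by
      rw [smul_smul, mul_assoc, inv_mul_cancel₀ hc0, mul_one]; exact hby)
    rw [smul_smul, mul_assoc, inv_mul_cancel₀ hc0, mul_one] at h2
    rw [h1, h2, smul_smul, mul_zpow, inv_zpow, mul_inv, inv_inv, mul_comm (c ^ d)]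
  · filter_upwards [hΩ.mem_nhds ha] with z hz
    have := key z 1 one_ne_zero (by simpa using hz)
    simpa using this

end Pool.Agent.Lib.MP_5d4057_al.DR
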