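import Pool.Agent.Lib.MP_5d4057_al.DR.BpDefs
import Pool.Agent.Lib.MP_5d4057_al.TR.Defs

/-!
# DER, Fin (h): the plane, its stabilizer and the representation on it (helper91)

Standard frame: `U = span {base n, ee i₀}`, `ee i₀ = Pi.single i₀.castSucc 1`; the disc of `U` is
`x ↦ x • ee i₀ + base n`. `StS Γ i₀`: the stabilizer; `rr Γ i₀`: the representation on `U`.
-/

set_option autoImplicit false

namespace Pool.Agent.Lib.MP_5d4057_al.DR

open Matrix Filter Topology Metric Pool.Agent.Lib.MP_5d4057_al Pool.Agent.Lib.MP_5d4057_al.Hyb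
  Pool.Agent.Lib.MP_5d4057_al.HM Pool.Agent.Lib.MP_5d4057_al.NU

variable {n : ℕ} {Γ : Subgroup (SUGroup n)} {i₀ : Fin n}

/-- The positive basis vector of the plane. -/
def ee (i₀ : Fin n) : Vec n := Pi.single i₀.castSucc 1

theorem ee_self (i₀ : Fin n) : ee i₀ i₀.castSucc = 1 := Pi.single_eq_same _ _

theorem ee_last (i₀ : Fin n) : ee i₀ (Fin.last n) = 0 :=
  Pi.single_eq_of_ne (Fin.castSucc_lt_last i₀).ne' _

theorem ee_ne {i : Fin (n + 1)} (h : i ≠ i₀.castSucc) : ee i₀ i = 0 := Pi.single_eq_of_ne h _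

theorem base_last (n : ℕ) : base n (Fin.last n) = 1 := Pi.single_eq_same _ _

theorem base_cs (i₀ : Fin n) : base n i₀.castSucc = 0 :=
  Pi.single_eq_of_ne (Fin.castSucc_lt_last i₀).ne _

theorem base_ne {i : Fin (n + 1)} (h : i ≠ Fin.last n) : base n i = 0 := Pi.single_eq_of_ne h _

theorem eq_of_pl {x : Vec n} (h : ∀ i, i ≠ i₀.castSucc → i ≠ Fin.last n → x i = 0) :
    x = x i₀.castSucc • ee i₀ + x (Fin.last n) • base n := by
  funext i
  rw [Pi.add_apply, Pi.smul_apply, Pi.smul_apply, smul_eq_mul, smul_eq_mul]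
  by_cases h1 : i = i₀.castSucc
  · rw [h1, ee_self, base_cs]
    ring
  · by_cases h2 : i = Fin.last n
    · rw [h2, ee_last, base_last]
      ring
    · rw [h i h1 h2, ee_ne h1, base_ne h2]
      ring

theorem mem_pl {x : Vec n} : x ∈ Submodule.span ℂ {base n, ee i₀} ↔
    ∀ i, i ≠ i₀.castSucc → i ≠ Fin.last n → x i = 0 := by
  rw [Submodule.mem_span_pair]
  constructor
  · rintro ⟨a, b, rfl⟩ i h1 h2
    rw [Pi.add_apply, Pi.smul_apply, Pi.smul_apply, ee_ne h1, base_ne h2, smul_zero, smul_zero,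
      add_zero]
  · intro h
    refine ⟨x (Fin.last n), x i₀.castSucc, ?_⟩
    rw [add_comm]
    exact (eq_of_pl h).symm

/-! ### The disc -/

theorem pt_cs (i₀ : Fin n) (x : ℂ) : (x • ee i₀ + base n) i₀.castSucc = x := by
  rw [Pi.add_apply, Pi.smul_apply, ee_self, base_cs, smul_eq_mul, mul_one, add_zero]

theorem pt_last (i₀ : Fin n) (x : ℂ) : (x • ee i₀ + base n) (Fin.last n) = 1 := by
  rw [Pi.add_apply, Pi.smul_apply, ee_last, base_last, smul_zero, zero_add]

theorem pt_mem_pl (i₀ : Fin n) (x : ℂ) : x • ee i₀ + base n ∈ Submodule.span ℂ {base n, ee i₀} := by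
  rw [Submodule.mem_span_pair]
  exact ⟨1, x, by rw [one_smul, add_comm]⟩

theorem q_pl {x : Vec n} (h : x ∈ Submodule.span ℂ {base n, ee i₀}) :
    q x = ‖x i₀.castSucc‖ ^ 2 - ‖x (Fin.last n)‖ ^ 2 := by
  rw [q_eq]
  congr 1
  rw [Finset.sum_eq_single i₀]
  · intro i _ hi
    rw [mem_pl.1 h i.castSucc (fun h1 => hi (Fin.castSucc_injective n h1))
      (Fin.castSucc_lt_last i).ne, norm_zero]
    norm_num
  · intro h1
    exact absurd (Finset.mem_univ _) h1

theorem pt_mem {x : ℂ} : x • ee i₀ + base n ∈ Cone n ↔ x ∈ ball (0 : ℂ) 1 := by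
  change q (x • ee i₀ + base n) < 0 ↔ _
  rw [q_pl (pt_mem_pl i₀ x), pt_cs, pt_last, mem_ball_zero_iff, norm_one, one_pow, sub_neg]
  constructor
  · intro h
    by_contra h1
    rw [not_lt] at h1
    nlinarith [norm_nonneg x]
  · intro h
    nlinarith [norm_nonneg x]

/-! ### The stabilizer -/

theorem act_ee_apply (γ : SUGroup n) (i₀ : Fin n) (i : Fin (n + 1)) :
    act γ (ee i₀) i = γ.toMatrix i i₀.castSucc := by
  rw [act, ee, mulVec_single_one]
  rfl

theorem act_base_apply (γ : SUGroup n) (i : Fin (n + 1)) :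
    act γ (base n) i = γ.toMatrix i (Fin.last n) := by
  rw [act, base, mulVec_single_one]
  rfl

theorem stU_iff {γ : SUGroup n} : StU (base n) (ee i₀) γ ↔
    ∀ i, i ≠ i₀.castSucc → i ≠ Fin.last n →
      γ.toMatrix i i₀.castSucc = 0 ∧ γ.toMatrix i (Fin.last n) = 0 := by
  constructor
  · intro h i h1 h2
    have a := mem_pl.1 (h (ee i₀) (Submodule.subset_span (by simp))) i h1 h2
    have b := mem_pl.1 (h (base n) (Submodule.subset_span (by simp))) i h1 h2
    rw [act_ee_apply] at a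
    rw [act_base_apply] at b
    exact ⟨a, b⟩
  · intro h x hx
    rw [Submodule.mem_span_pair] at hx
    obtain ⟨a, b, rfl⟩ := hx
    rw [mem_pl]
    intro i h1 h2
    rw [act_add, act_smul, act_smul, Pi.add_apply, Pi.smul_apply, Pi.smul_apply, act_ee_apply,
      act_base_apply, (h i h1 h2).1, (h i h1 h2).2, smul_zero, smul_zero, add_zero]

theorem stU_one (u w : Vec n) : StU u w (1 : SUGroup n) := fun x hx => by
  rw [act_one]
  exact hx

theorem stU_mul {u w : Vec n} {γ δ : SUGroup n} (hγ : StU u w γ) (hδ : StU u w δ) :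
    StU u w (γ * δ) := fun x hx => by
  rw [act_mul]
  exact hγ _ (hδ x hx)

theorem stU_inv {u w : Vec n} {γ : SUGroup n} (hγ : StU u w γ) : StU u w γ⁻¹ := by
  let φ : Vec n ≃ₗ[ℂ] Vec n :=
    { toFun := act γ
      map_add' := act_add γ
      map_smul' := fun c v => act_smul γ c v
      invFun := act γ⁻¹
      left_inv := fun v => by rw [← act_mul, inv_mul_cancel, act_one]
      right_inv := fun v => by rw [← act_mul, mul_inv_cancel, act_one] }
  set U : Submodule ℂ (Vec n) := Submodule.span ℂ {u, w} with hU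
  have h1 : U.map φ.toLinearMap ≤ U := by
    rintro _ ⟨x, hx, rfl⟩
    exact hγ x hx
  have h2 : U.map φ.toLinearMap = U :=
    Submodule.eq_of_le_of_finrank_eq h1 (LinearEquiv.finrank_map_eq φ U)
  intro x hx
  rw [← hU, ← h2] at hx
  obtain ⟨y, hy, rfl⟩ := hx
  have h3 : act γ⁻¹ (φ.toLinearMap y) = y := φ.symm_apply_apply y
  rw [h3]
  exact hy

/-- The stabilizer in `Γ` of the plane. -/
def StS (Γ : Subgroup (SUGroup n)) (i₀ : Fin n) : Subgroup (SUGroup n) where
  carrier := {γ | γ ∈ Γ ∧ StU (base n) (ee i₀) γ}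
  mul_mem' := fun ha hb => ⟨Γ.mul_mem ha.1 hb.1, stU_mul ha.2 hb.2⟩
  one_mem' := ⟨Γ.one_mem, stU_one _ _⟩
  inv_mem' := fun ha => ⟨Γ.inv_mem ha.1, stU_inv ha.2⟩

theorem mem_StS {γ : SUGroup n} : γ ∈ StS Γ i₀ ↔ γ ∈ Γ ∧ StU (base n) (ee i₀) γ := Iff.rfl

/-- The matrix of the action on the plane, in the basis `ee i₀`, `base n`. -/
def r2 (i₀ : Fin n) (γ : SUGroup n) : TR.M2 :=
  !![γ.toMatrix i₀.castSucc i₀.castSucc, γ.toMatrix i₀.castSucc (Fin.last n);
    γ.toMatrix (Fin.last n) i₀.castSucc, γ.toMatrix (Fin.last n) (Fin.last n)]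

theorem r2_00 (γ : SUGroup n) : r2 i₀ γ 0 0 = γ.toMatrix i₀.castSucc i₀.castSucc := rfl

theorem r2_01 (γ : SUGroup n) : r2 i₀ γ 0 1 = γ.toMatrix i₀.castSucc (Fin.last n) := rfl

theorem r2_10 (γ : SUGroup n) : r2 i₀ γ 1 0 = γ.toMatrix (Fin.last n) i₀.castSucc := rfl

theorem r2_11 (γ : SUGroup n) : r2 i₀ γ 1 1 = γ.toMatrix (Fin.last n) (Fin.last n) := rfl

theorem act_ee {γ : SUGroup n} (h : StU (base n) (ee i₀) γ) :
    act γ (ee i₀) = r2 i₀ γ 0 0 • ee i₀ + r2 i₀ γ 1 0 • base n := by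
  have h1 := eq_of_pl (i₀ := i₀) (x := act γ (ee i₀)) fun i a b => by
    rw [act_ee_apply]
    exact (stU_iff.1 h i a b).1
  rw [act_ee_apply, act_ee_apply] at h1
  exact h1

theorem act_ba {γ : SUGroup n} (h : StU (base n) (ee i₀) γ) :
    act γ (base n) = r2 i₀ γ 0 1 • ee i₀ + r2 i₀ γ 1 1 • base n := by
  have h1 := eq_of_pl (i₀ := i₀) (x := act γ (base n)) fun i a b => by
    rw [act_base_apply]
    exact (stU_iff.1 h i a b).2
  rw [act_base_apply, act_base_apply] at h1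
  exact h1

theorem r2_one : r2 i₀ (1 : SUGroup n) = 1 := by
  have h1 : i₀.castSucc ≠ Fin.last n := (Fin.castSucc_lt_last i₀).ne
  ext i j
  fin_cases i <;> fin_cases j <;> simp [r2, toMatrix_one, h1, h1.symm]

theorem r2_mul {γ δ : SUGroup n} (hδ : StU (base n) (ee i₀) δ) :
    r2 i₀ (γ * δ) = r2 i₀ γ * r2 i₀ δ := by
  have key : ∀ i : Fin (n + 1), (γ * δ).toMatrix i i₀.castSucc =
      γ.toMatrix i i₀.castSucc * r2 i₀ δ 0 0 + γ.toMatrix i (Fin.last n) * r2 i₀ δ 1 0 := by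
    intro i
    have h1 : act (γ * δ) (ee i₀) i = act γ (act δ (ee i₀)) i := by rw [act_mul]
    rw [act_ee_apply, act_ee hδ, act_add, act_smul, act_smul, Pi.add_apply, Pi.smul_apply,
      Pi.smul_apply, act_ee_apply, act_base_apply, smul_eq_mul, smul_eq_mul] at h1
    rw [h1]
    ring
  have key' : ∀ i : Fin (n + 1), (γ * δ).toMatrix i (Fin.last n) =
      γ.toMatrix i i₀.castSucc * r2 i₀ δ 0 1 + γ.toMatrix i (Fin.last n) * r2 i₀ δ 1 1 := by
    intro i
    have h1 : act (γ * δ) (base n) i = act γ (act δ (base n)) i := by rw [act_mul]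
    rw [act_base_apply, act_ba hδ, act_add, act_smul, act_smul, Pi.add_apply, Pi.smul_apply,
      Pi.smul_apply, act_ee_apply, act_base_apply, smul_eq_mul, smul_eq_mul] at h1
    rw [h1]
    ring
  have e : ∀ i j, (r2 i₀ γ * r2 i₀ δ) i j = r2 i₀ γ i 0 * r2 i₀ δ 0 j + r2 i₀ γ i 1 * r2 i₀ δ 1 j :=
    fun i j => by rw [Matrix.mul_apply, Fin.sum_univ_two]
  ext i j
  rw [e]
  fin_cases i <;> fin_cases j
  · exact key i₀.castSucc
  · exact key' i₀.castSucc
  · exact key (Fin.last n)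
  · exact key' (Fin.last n)

/-- The representation on the plane. -/
def rr (Γ : Subgroup (SUGroup n)) (i₀ : Fin n) : StS Γ i₀ →* TR.M2 where
  toFun γ := r2 i₀ (γ : SUGroup n)
  map_one' := r2_one
  map_mul' _ δ := r2_mul δ.2.2

theorem rr_apply (γ : StS Γ i₀) : rr Γ i₀ γ = r2 i₀ (γ : SUGroup n) := rfl

theorem herm_pl {x y : Vec n} (h : x ∈ Submodule.span ℂ {base n, ee i₀}) :
    herm x y = star (x i₀.castSucc) * y i₀.castSucc - star (x (Fin.last n)) * y (Fin.last n) := by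
  rw [herm_eq]
  congr 1
  rw [Finset.sum_eq_single i₀]
  · intro i _ hi
    rw [mem_pl.1 h i.castSucc (fun h1 => hi (Fin.castSucc_injective n h1))
      (Fin.castSucc_lt_last i).ne, star_zero, zero_mul]
  · intro h1
    exact absurd (Finset.mem_univ _) h1

theorem uni_r2 {γ : SUGroup n} (h : StU (base n) (ee i₀) γ) : TR.Uni (r2 i₀ γ) := by
  have me : ee i₀ ∈ Submodule.span ℂ {base n, ee i₀} := Submodule.subset_span (by simp)
  have mb : base n ∈ Submodule.span ℂ {base n, ee i₀} := Submodule.subset_span (by simp)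
  refine ⟨?_, ?_, ?_⟩
  · have h1 := q_act γ (ee i₀)
    rw [q_pl (h _ me), q_pl me, act_ee_apply, act_ee_apply, ee_self, ee_last, norm_one,
      norm_zero] at h1
    rw [r2_00, r2_10, h1]
    norm_num
  · have h1 := q_act γ (base n)
    rw [q_pl (i₀ := i₀) (h _ mb), q_base, act_base_apply, act_base_apply] at h1
    rw [r2_01, r2_11]
    linarith
  · have h1 := herm_act γ (ee i₀) (base n)
    rw [herm_pl (i₀ := i₀) (h _ me), herm_pl (i₀ := i₀) me, act_ee_apply, act_ee_apply,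
      act_base_apply, act_base_apply, ee_self, ee_last, base_cs, base_last, star_zero] at h1
    rw [r2_00, r2_01, r2_10, r2_11]
    linear_combination h1

theorem uni_rr (g : StS Γ i₀) : TR.Uni (rr Γ i₀ g) := uni_r2 g.2.2

/-- The action on the points of the disc. -/
theorem act_pt {γ : SUGroup n} (h : StU (base n) (ee i₀) γ) (x : ℂ) :
    act γ (x • ee i₀ + base n) = (r2 i₀ γ 0 0 * x + r2 i₀ γ 0 1) • ee i₀ +
      TR.jf (r2 i₀ γ) x • base n := by
  rw [act_add, act_smul, act_ee h, act_ba h, TR.jf]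
  module

/-- Cocompactness. -/
theorem cpt_rr (hc : CocU Γ (base n) (ee i₀)) : TR.Cpt (rr Γ i₀) := by
  obtain ⟨D, hD, hDC, hDU, hco⟩ := hc
  have hlt : ∀ d ∈ D, ‖d i₀.castSucc‖ < ‖d (Fin.last n)‖ := by
    intro d hd
    have h1 : q d < 0 := hDC hd
    rw [q_pl (hDU d hd)] at h1
    nlinarith [norm_nonneg (d i₀.castSucc), norm_nonneg (d (Fin.last n))]
  have hne : D.Nonempty := by
    obtain ⟨γ, _, _, c, _, hcD⟩ := hco (base n) (base_mem n) (Submodule.subset_span (by simp))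
    exact ⟨_, hcD⟩
  have hcont : ContinuousOn (fun d : Vec n => ‖d i₀.castSucc‖ / ‖d (Fin.last n)‖) D := by
    refine ContinuousOn.div (by fun_prop) (by fun_prop) fun d hd => ?_
    have := hlt d hd
    have := norm_nonneg (d i₀.castSucc)
    linarith
  obtain ⟨d₀, hd₀, hmax⟩ := hD.exists_isMaxOn hne hcont
  refine ⟨‖d₀ i₀.castSucc‖ / ‖d₀ (Fin.last n)‖, ?_, fun x hx => ?_⟩
  · rw [div_lt_one]
    · exact hlt d₀ hd₀
    · have := hlt d₀ hd₀
      have := norm_nonneg (d₀ i₀.castSucc)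
      linarith
  · obtain ⟨γ, hγ, hst, c, hc0, hcD⟩ := hco _ (pt_mem.2 hx) (pt_mem_pl i₀ x)
    have hU : act γ (x • ee i₀ + base n) ∈ Submodule.span ℂ {base n, ee i₀} :=
      hst _ (pt_mem_pl i₀ x)
    have hC : act γ (x • ee i₀ + base n) ∈ Cone n := act_mem γ (pt_mem.2 hx)
    set v : Vec n := act γ (x • ee i₀ + base n) with hv
    have hvl : ‖v i₀.castSucc‖ < ‖v (Fin.last n)‖ := by
      have h1 : q v < 0 := hC
      rw [q_pl hU] at h1
      nlinarith [norm_nonneg (v i₀.castSucc), norm_nonneg (v (Fin.last n))]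
    have hv0 : v (Fin.last n) ≠ 0 := by
      intro h0
      rw [h0, norm_zero] at hvl
      exact absurd (norm_nonneg _) (not_le.2 hvl)
    refine ⟨⟨γ, hγ, hst⟩⁻¹, v i₀.castSucc / v (Fin.last n), ?_, ?_⟩
    · have h1 := hmax hcD
      simp only [Pi.smul_apply, smul_eq_mul, norm_mul, Set.mem_ofPred_eq] at h1
      rw [mul_div_mul_left _ _ (norm_ne_zero_iff.2 hc0)] at h1
      rw [norm_div]
      exact h1
    · have h1 : act γ⁻¹ v = x • ee i₀ + base n := by
        rw [hv, ← act_mul, inv_mul_cancel, act_one]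
      have h2 : v = v (Fin.last n) • ((v i₀.castSucc / v (Fin.last n)) • ee i₀ + base n) := by
        conv_lhs => rw [eq_of_pl (mem_pl.1 hU)]
        rw [smul_add, smul_smul, mul_div_cancel₀ _ hv0]
      have hst' : StU (base n) (ee i₀) γ⁻¹ := stU_inv hst
      rw [h2, act_smul, act_pt hst'] at h1
      set y := v i₀.castSucc / v (Fin.last n) with hy
      have e1 := congrFun h1 i₀.castSucc
      have e2 := congrFun h1 (Fin.last n)
      rw [pt_cs, Pi.smul_apply, Pi.add_apply, Pi.smul_apply, Pi.smul_apply, ee_self, base_cs,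
        smul_zero, add_zero, smul_eq_mul, smul_eq_mul, mul_one] at e1
      rw [pt_last, Pi.smul_apply, Pi.add_apply, Pi.smul_apply, Pi.smul_apply, ee_last, base_last,
        smul_zero, zero_add, smul_eq_mul, smul_eq_mul, mul_one] at e2
      have e3 : TR.jf (r2 i₀ γ⁻¹) y ≠ 0 := by
        intro h0
        rw [h0, mul_zero] at e2
        exact zero_ne_one e2
      show x = TR.mo (r2 i₀ γ⁻¹) y
      rw [TR.mo, eq_div_iff e3]
      have e4 : v (Fin.last n) * (x * TR.jf (r2 i₀ γ⁻¹) y) =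
          v (Fin.last n) * (r2 i₀ γ⁻¹ 0 0 * y + r2 i₀ γ⁻¹ 0 1) := by
        rw [e1]
        linear_combination x * e2
      exact mul_left_cancel₀ hv0 e4

/-- The determinant. -/
theorem det_r2 {γ : SUGroup n} {a b c d : ℂ} (ha : act γ (base n) = a • base n + b • ee i₀)
    (hb : act γ (ee i₀) = c • base n + d • ee i₀) : (r2 i₀ γ).det = a * d - b * c := by
  have e1 : r2 i₀ γ 0 0 = d := by
    rw [r2_00, ← act_ee_apply, hb, Pi.add_apply, Pi.smul_apply, Pi.smul_apply, base_cs, ee_self,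
      smul_zero, zero_add, smul_eq_mul, mul_one]
  have e2 : r2 i₀ γ 1 0 = c := by
    rw [r2_10, ← act_ee_apply, hb, Pi.add_apply, Pi.smul_apply, Pi.smul_apply, base_last, ee_last,
      smul_zero, add_zero, smul_eq_mul, mul_one]
  have e3 : r2 i₀ γ 0 1 = b := by
    rw [r2_01, ← act_base_apply, ha, Pi.add_apply, Pi.smul_apply, Pi.smul_apply, base_cs, ee_self,
      smul_zero, zero_add, smul_eq_mul, mul_one]
  have e4 : r2 i₀ γ 1 1 = a := by
    rw [r2_11, ← act_base_apply, ha, Pi.add_apply, Pi.smul_apply, Pi.smul_apply, base_last,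
      ee_last, smul_zero, add_zero, smul_eq_mul, mul_one]
  rw [Matrix.det_fin_two, e1, e2, e3, e4]
  ring

theorem stU_of {γ : SUGroup n} {a b c d : ℂ} (ha : act γ (base n) = a • base n + b • ee i₀)
    (hb : act γ (ee i₀) = c • base n + d • ee i₀) : StU (base n) (ee i₀) γ := by
  intro x hx
  rw [Submodule.mem_span_pair] at hx ⊢
  obtain ⟨s, t, rfl⟩ := hx
  refine ⟨s * a + t * c, s * b + t * d, ?_⟩
  rw [act_add, act_smul, act_smul, ha, hb]
  module

end Pool.Agent.Lib.MP_5d4057_al.DR
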