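import Mathlib

/-!
# DER, T2 (F0): formal power series with a wild derivation on the coefficients, Taylor series of
analytic functions (statements: helper65; proofs: helper81, helper92)
-/

set_option autoImplicit false

namespace Pool.Agent.Lib.MP_5d4057_al.DR

open MvPowerSeries

variable {N : ℕ}

/-- The additive map underlying `Dc`. -/
noncomputable def DcAdd (D : Derivation ℤ ℂ ℂ) :
    MvPowerSeries (Fin N) ℂ →+ MvPowerSeries (Fin N) ℂ where
  toFun S := fun m => D (coeff m S)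
  map_zero' := by
    ext m
    show D (coeff m (0 : MvPowerSeries (Fin N) ℂ)) = coeff m (0 : MvPowerSeries (Fin N) ℂ)
    rw [map_zero, map_zero]
  map_add' S T := by
    ext m
    show D (coeff m (S + T)) = D (coeff m S) + D (coeff m T)
    rw [map_add, map_add]

theorem coeff_DcAdd (D : Derivation ℤ ℂ ℂ) (S : MvPowerSeries (Fin N) ℂ) (m : Fin N →₀ ℕ) :
    coeff m (DcAdd D S) = D (coeff m S) := rfl

/-- The derivation `D` applied to the coefficients. -/
noncomputable def Dc (D : Derivation ℤ ℂ ℂ) :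
    Derivation ℤ (MvPowerSeries (Fin N) ℂ) (MvPowerSeries (Fin N) ℂ) :=
  Derivation.mk' (DcAdd D).toIntLinearMap fun S T => by
    classical
    ext m
    show D (coeff m (S * T)) = coeff m (S * DcAdd D T + T * DcAdd D S)
    rw [mul_comm T, map_add, coeff_mul, coeff_mul, coeff_mul, map_sum, ← Finset.sum_add_distrib]
    refine Finset.sum_congr rfl fun p _ => ?_
    rw [Derivation.leibniz, coeff_DcAdd, coeff_DcAdd, smul_eq_mul, smul_eq_mul,
      mul_comm (D _) (coeff p.2 T)]

theorem coeff_Dc (D : Derivation ℤ ℂ ℂ) (f : MvPowerSeries (Fin N) ℂ) (α : Fin N →₀ ℕ) :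
    coeff α (Dc D f) = D (coeff α f) := rfl

theorem der_natCast (D : Derivation ℤ ℂ ℂ) (k : ℕ) : D (k : ℂ) = 0 := D.map_natCast k

theorem Dc_C (D : Derivation ℤ ℂ ℂ) (c : ℂ) : Dc D (C c : MvPowerSeries (Fin N) ℂ) = C (D c) := by
  classical
  ext m
  rw [coeff_Dc, coeff_C, coeff_C]
  split_ifs
  · rfl
  · rw [map_zero]

theorem Dc_X (D : Derivation ℤ ℂ ℂ) (i : Fin N) : Dc D (X i : MvPowerSeries (Fin N) ℂ) = 0 := by
  classical
  ext m
  rw [coeff_Dc, coeff_X, map_zero]
  split_ifs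
  · exact D.map_one_eq_zero
  · rw [map_zero]

/-- `D` on the coefficients commutes with the partial derivatives. -/
theorem Dc_pderiv (D : Derivation ℤ ℂ ℂ) (i : Fin N) (f : MvPowerSeries (Fin N) ℂ) :
    Dc D (pderiv ℂ i f) = pderiv ℂ i (Dc D f) := by
  ext m
  rw [coeff_pderiv, coeff_Dc, coeff_Dc, coeff_pderiv, Derivation.leibniz]
  have h : D ((m i : ℂ) + 1) = 0 := by
    rw [map_add, der_natCast, D.map_one_eq_zero, add_zero]
  rw [h, smul_zero, zero_add, smul_eq_mul, mul_comm]

theorem pderiv_comm (i j : Fin N) (f : MvPowerSeries (Fin N) ℂ) :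
    pderiv ℂ i (pderiv ℂ j f) = pderiv ℂ j (pderiv ℂ i f) := by
  classical
  ext m
  rw [coeff_pderiv, coeff_pderiv, coeff_pderiv, coeff_pderiv, add_right_comm]
  rcases eq_or_ne i j with h | h
  · subst h; ring
  · rw [Finsupp.add_apply, Finsupp.add_apply, Finsupp.single_eq_of_ne h.symm,
      Finsupp.single_eq_of_ne h]
    push_cast
    ring

theorem der_sum_apply {ι : Type*} (s : Finset ι)
    (d : ι → Derivation ℤ (MvPowerSeries (Fin N) ℂ) (MvPowerSeries (Fin N) ℂ))
    (a : MvPowerSeries (Fin N) ℂ) : (∑ i ∈ s, d i) a = ∑ i ∈ s, d i a := by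
  classical
  induction s using Finset.induction_on with
  | empty => simp
  | insert i s hi ih => rw [Finset.sum_insert hi, Finset.sum_insert hi, Derivation.add_apply, ih]

/-- The derivation which kills the coordinate functions `Q i + X i`. -/
noncomputable def Db (D : Derivation ℤ ℂ ℂ) (Q : Fin N → ℂ) :
    Derivation ℤ (MvPowerSeries (Fin N) ℂ) (MvPowerSeries (Fin N) ℂ) :=
  Dc D - ∑ i, (C (D (Q i)) : MvPowerSeries (Fin N) ℂ) • (pderiv ℂ i).restrictScalars ℤ

theorem Db_apply (D : Derivation ℤ ℂ ℂ) (Q : Fin N → ℂ) (f : MvPowerSeries (Fin N) ℂ) :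
    Db D Q f = Dc D f - ∑ i, C (D (Q i)) * pderiv ℂ i f := by
  have h := der_sum_apply Finset.univ
    (fun i => (C (D (Q i)) : MvPowerSeries (Fin N) ℂ) • (pderiv ℂ i).restrictScalars ℤ) f
  rw [Db, Derivation.sub_apply, h]
  rfl

theorem Db_C (D : Derivation ℤ ℂ ℂ) (Q : Fin N → ℂ) (c : ℂ) : Db D Q (C c) = C (D c) := by
  rw [Db_apply, Dc_C, Finset.sum_eq_zero, sub_zero]
  intro i _
  rw [pderiv_C, mul_zero]

theorem Db_coord (D : Derivation ℤ ℂ ℂ) (Q : Fin N → ℂ) (i : Fin N) :
    Db D Q (C (Q i) + X i) = 0 := by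
  classical
  rw [map_add, Db_C, Db_apply, Dc_X, Finset.sum_eq_single i]
  · rw [pderiv_X_self, mul_one, zero_sub, add_neg_cancel]
  · intro j _ hj
    rw [pderiv_X_of_ne hj.symm, mul_zero]
  · intro h; exact absurd (Finset.mem_univ i) h

theorem Db_pderiv (D : Derivation ℤ ℂ ℂ) (Q : Fin N → ℂ) (i : Fin N)
    (f : MvPowerSeries (Fin N) ℂ) : Db D Q (pderiv ℂ i f) = pderiv ℂ i (Db D Q f) := by
  rw [Db_apply, Db_apply, map_sub, map_sum, Dc_pderiv]
  congr 1
  refine Finset.sum_congr rfl fun j _ => ?_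
  rw [Derivation.leibniz, pderiv_C, smul_zero, add_zero, smul_eq_mul, pderiv_comm]

/-- At a point with `D Q = 0` the derivation is `D` on the coefficients. -/
theorem Db_of_zero (D : Derivation ℤ ℂ ℂ) {Q : Fin N → ℂ} (h : ∀ i, D (Q i) = 0) : Db D Q = Dc D := by
  refine Derivation.ext fun f => ?_
  rw [Db_apply, Finset.sum_eq_zero, sub_zero]
  intro i _
  rw [h i, map_zero, zero_mul]

/-- A series with vanishing second derivatives which is homogeneous of degree one at `Q` is
linear. -/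
theorem eq_linear {Q : Fin N → ℂ} {f : MvPowerSeries (Fin N) ℂ}
    (h2 : ∀ i j, pderiv ℂ i (pderiv ℂ j f) = 0)
    (he : ∑ j, (C (Q j) + X j) * pderiv ℂ j f = f) :
    ∃ l : Fin N → ℂ, f = ∑ j, C (l j) * (C (Q j) + X j) := by
  have h3 : ∀ j, pderiv ℂ j f = C (constantCoeff (pderiv ℂ j f)) := by
    intro j
    refine MvPowerSeries.pderiv.ext (fun i => ?_) ?_
    · rw [h2, pderiv_C]
    · rw [constantCoeff_C]
  refine ⟨fun j => constantCoeff (pderiv ℂ j f), ?_⟩
  conv_lhs => rw [← he]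
  refine Finset.sum_congr rfl fun j _ => ?_
  conv_lhs => rw [h3 j]
  rw [mul_comm]

open Filter Topology

variable {Q : Fin N → ℂ} {f g : (Fin N → ℂ) → ℂ}

/-- Partial derivative of a function. -/
noncomputable def pd (i : Fin N) (f : (Fin N → ℂ) → ℂ) : (Fin N → ℂ) → ℂ :=
  fun y => fderiv ℂ f y (Pi.single i 1)

/-- Taylor series at `Q`. -/
noncomputable def Tay (Q : Fin N → ℂ) (f : (Fin N → ℂ) → ℂ) : MvPowerSeries (Fin N) ℂ :=
  fun α => (∏ i, ((α i).factorial : ℂ))⁻¹ * ((List.finRange N).foldr (fun i g => (pd i)^[α i] g) f) Q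

theorem an_dd (i : Fin N) (hf : AnalyticAt ℂ f Q) : AnalyticAt ℂ (pd i f) Q := by
  have h1 := (ContinuousLinearMap.apply ℂ ℂ (Pi.single i (1 : ℂ) : Fin N → ℂ)).analyticAt
    (fderiv ℂ f Q)
  exact h1.comp hf.fderiv

theorem dd_comm (i j : Fin N) (hf : AnalyticAt ℂ f Q) : pd i (pd j f) Q = pd j (pd i f) Q := by
  have hd : DifferentiableAt ℂ (fderiv ℂ f) Q := hf.fderiv.differentiableAt
  have hs : IsSymmSndFDerivAt ℂ f Q := hf.contDiffAt.isSymmSndFDerivAt_of_omega
  have e : ∀ i j : Fin N, pd i (pd j f) Q =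
      fderiv ℂ (fderiv ℂ f) Q (Pi.single i 1) (Pi.single j 1) := by
    intro i j
    have h1 := hd.hasFDerivAt.clm_apply (hasFDerivAt_const (Pi.single j (1 : ℂ)) Q)
    change fderiv ℂ (fun y => fderiv ℂ f y (Pi.single j 1)) Q (Pi.single i 1) = _
    rw [h1.fderiv]
    simp
  rw [e, e]
  exact hs _ _

theorem pd_germ (i : Fin N) (h : f =ᶠ[𝓝 Q] g) : pd i f =ᶠ[𝓝 Q] pd i g := by
  filter_upwards [h.fderiv (𝕜 := ℂ)] with y hy
  rw [pd, pd, hy]

theorem pd_comm_germ (i j : Fin N) (hf : AnalyticAt ℂ f Q) :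
    pd i (pd j f) =ᶠ[𝓝 Q] pd j (pd i f) := by
  filter_upwards [hf.eventually_analyticAt] with y hy
  exact dd_comm i j hy

theorem an_pdit (i : Fin N) (n : ℕ) (hf : AnalyticAt ℂ f Q) : AnalyticAt ℂ ((pd i)^[n] f) Q := by
  induction n with
  | zero => exact hf
  | succ n ih => rw [Function.iterate_succ_apply']; exact an_dd i ih

theorem pdit_germ (i : Fin N) (n : ℕ) (h : f =ᶠ[𝓝 Q] g) :
    (pd i)^[n] f =ᶠ[𝓝 Q] (pd i)^[n] g := by
  induction n with
  | zero => exact h
  | succ n ih => rw [Function.iterate_succ_apply', Function.iterate_succ_apply']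
                 exact pd_germ i ih

theorem pdit_comm (i j : Fin N) (n : ℕ) (hf : AnalyticAt ℂ f Q) :
    (pd j)^[n] (pd i f) =ᶠ[𝓝 Q] pd i ((pd j)^[n] f) := by
  induction n with
  | zero => exact EventuallyEq.rfl
  | succ n ih =>
    rw [Function.iterate_succ_apply', Function.iterate_succ_apply']
    exact (pd_germ j ih).trans (pd_comm_germ j i (an_pdit j n hf))

/-- The iterated partial derivative along a list of variables. -/
noncomputable def pdl (α : Fin N →₀ ℕ) (l : List (Fin N)) (f : (Fin N → ℂ) → ℂ) :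
    (Fin N → ℂ) → ℂ :=
  l.foldr (fun i g => (pd i)^[α i] g) f

theorem an_pdl (α : Fin N →₀ ℕ) (l : List (Fin N)) (hf : AnalyticAt ℂ f Q) :
    AnalyticAt ℂ (pdl α l f) Q := by
  induction l with
  | nil => exact hf
  | cons j l ih => exact an_pdit j (α j) ih

theorem pdl_germ (α : Fin N →₀ ℕ) (l : List (Fin N)) (h : f =ᶠ[𝓝 Q] g) :
    pdl α l f =ᶠ[𝓝 Q] pdl α l g := by
  induction l with
  | nil => exact h
  | cons j l ih => exact pdit_germ j (α j) ih

theorem pdl_pd (α : Fin N →₀ ℕ) (l : List (Fin N)) (i : Fin N) (hf : AnalyticAt ℂ f Q) :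
    pdl α l (pd i f) =ᶠ[𝓝 Q] pd i (pdl α l f) := by
  induction l with
  | nil => exact EventuallyEq.rfl
  | cons j l ih => exact (pdit_germ j (α j) ih).trans (pdit_comm i j (α j) (an_pdl α l hf))

theorem pdl_notMem (α : Fin N →₀ ℕ) (l : List (Fin N)) (i : Fin N) (hi : i ∉ l)
    (f : (Fin N → ℂ) → ℂ) : pdl (α + Finsupp.single i 1) l f = pdl α l f := by
  induction l with
  | nil => rfl
  | cons j l ih =>
    have h1 : j ≠ i := fun h => hi (h ▸ List.mem_cons_self)
    have h2 : i ∉ l := fun h => hi (List.mem_cons_of_mem _ h)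
    have h3 : (α + Finsupp.single i 1 : Fin N →₀ ℕ) j = α j := by
      rw [Finsupp.add_apply, Finsupp.single_eq_of_ne h1, add_zero]
    change (pd j)^[(α + Finsupp.single i 1 : Fin N →₀ ℕ) j] (pdl (α + Finsupp.single i 1) l f) =
      (pd j)^[α j] (pdl α l f)
    rw [h3, ih h2]

theorem pdl_add (α : Fin N →₀ ℕ) (l : List (Fin N)) (i : Fin N) (hi : i ∈ l) (hl : l.Nodup)
    (hf : AnalyticAt ℂ f Q) : pd i (pdl α l f) =ᶠ[𝓝 Q] pdl (α + Finsupp.single i 1) l f := by
  induction l with
  | nil => simp at hi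
  | cons j l ih =>
    rw [List.nodup_cons] at hl
    change pd i ((pd j)^[α j] (pdl α l f)) =ᶠ[𝓝 Q]
      (pd j)^[(α + Finsupp.single i 1 : Fin N →₀ ℕ) j] (pdl (α + Finsupp.single i 1) l f)
    by_cases h : j = i
    · subst h
      rw [pdl_notMem α l j hl.1 f, Finsupp.add_apply, Finsupp.single_eq_same,
        Function.iterate_succ_apply']
    · have h3 : (α + Finsupp.single i 1 : Fin N →₀ ℕ) j = α j := by
        rw [Finsupp.add_apply, Finsupp.single_eq_of_ne h, add_zero]
      have h4 : i ∈ l := by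
        rcases List.mem_cons.1 hi with h5 | h5
        · exact absurd h5.symm h
        · exact h5
      rw [h3]
      exact (pdit_comm i j (α j) (an_pdl α l hf)).symm.trans (pdit_germ j (α j) (ih h4 hl.2))

theorem coeff_Tay (α : Fin N →₀ ℕ) (Q : Fin N → ℂ) (f : (Fin N → ℂ) → ℂ) :
    coeff α (Tay Q f) = (∏ i, ((α i).factorial : ℂ))⁻¹ * pdl α (List.finRange N) f Q := rfl

theorem Tay_congr (h : f =ᶠ[𝓝 Q] g) : Tay Q f = Tay Q g := by
  ext α
  rw [coeff_Tay, coeff_Tay, (pdl_germ α _ h).eq_of_nhds]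

theorem pdl_zero (l : List (Fin N)) (f : (Fin N → ℂ) → ℂ) : pdl 0 l f = f := by
  induction l with
  | nil => rfl
  | cons j l ih => exact ih

theorem Tay_const_coeff (Q : Fin N → ℂ) (f : (Fin N → ℂ) → ℂ) : constantCoeff (Tay Q f) = f Q := by
  rw [← coeff_zero_eq_constantCoeff, coeff_Tay, pdl_zero]
  simp

/-- The Taylor series of a partial derivative. -/
theorem Tay_pd (i : Fin N) (hf : AnalyticAt ℂ f Q) : Tay Q (pd i f) = pderiv ℂ i (Tay Q f) := by
  ext α
  rw [coeff_pderiv, coeff_Tay, coeff_Tay]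
  have h1 : pdl α (List.finRange N) (pd i f) Q =
      pdl (α + Finsupp.single i 1) (List.finRange N) f Q :=
    ((pdl_pd α _ i hf).trans
      (pdl_add α _ i (List.mem_finRange i) (List.nodup_finRange N) hf)).eq_of_nhds
  have h2 : (∏ j, (((α + Finsupp.single i 1 : Fin N →₀ ℕ) j).factorial : ℂ)) =
      (α i + 1) * ∏ j, ((α j).factorial : ℂ) := by
    rw [← Finset.mul_prod_erase Finset.univ _ (Finset.mem_univ i),
      ← Finset.mul_prod_erase Finset.univ (fun j => ((α j).factorial : ℂ)) (Finset.mem_univ i)]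
    rw [Finset.prod_congr rfl (g := fun j => ((α j).factorial : ℂ))]
    · rw [Finsupp.add_apply, Finsupp.single_eq_same, Nat.factorial_succ]
      push_cast
      ring
    · intro j hj
      rw [Finsupp.add_apply, Finsupp.single_eq_of_ne (Finset.ne_of_mem_erase hj), add_zero]
  have h3 : (∏ j, ((α j).factorial : ℂ)) ≠ 0 :=
    Finset.prod_ne_zero_iff.2 fun j _ => by exact_mod_cast Nat.factorial_ne_zero _
  have h4 : ((α i : ℂ) + 1) ≠ 0 := by exact_mod_cast Nat.succ_ne_zero (α i)
  rw [h1, h2]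
  field_simp

/-- Two series with the same constant term and the same partial derivatives, coefficientwise. -/
theorem coeff_ext_pd {a b : MvPowerSeries (Fin N) ℂ} {α : Fin N →₀ ℕ} (i : Fin N)
    (h : coeff α (pderiv ℂ i a) = coeff α (pderiv ℂ i b)) :
    coeff (α + Finsupp.single i 1) a = coeff (α + Finsupp.single i 1) b := by
  rw [coeff_pderiv, coeff_pderiv] at h
  have h4 : ((α i : ℂ) + 1) ≠ 0 := by exact_mod_cast Nat.succ_ne_zero (α i)
  exact mul_right_cancel₀ h4 h

/-- Induction principle: a relation which is closed under partial derivatives and implies that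
the constant terms agree is equality. -/
theorem eq_of_pd_rel (R : MvPowerSeries (Fin N) ℂ → MvPowerSeries (Fin N) ℂ → Prop)
    (h0 : ∀ a b, R a b → constantCoeff a = constantCoeff b)
    (h1 : ∀ a b, R a b → ∀ i, R (pderiv ℂ i a) (pderiv ℂ i b))
    {a b : MvPowerSeries (Fin N) ℂ} (h : R a b) : a = b := by
  have key : ∀ n : ℕ, ∀ α : Fin N →₀ ℕ, α.degree = n → ∀ a b, R a b →
      coeff α a = coeff α b := by
    intro n
    induction n with
    | zero =>
      intro α hα a b hab
      have : α = 0 := (Finsupp.degree_eq_zero_iff α).1 hα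
      subst this
      exact h0 a b hab
    | succ n ih =>
      intro α hα a b hab
      have hne : α ≠ 0 := by
        rintro rfl
        simp at hα
      obtain ⟨i, hi⟩ := Finsupp.ne_iff.1 hne
      have hle : Finsupp.single i 1 ≤ α := by
        rw [Finsupp.single_le_iff]
        exact Nat.one_le_iff_ne_zero.2 hi
      obtain ⟨β, hβ⟩ : ∃ β, α = β + Finsupp.single i 1 := ⟨α - Finsupp.single i 1,
        (tsub_add_cancel_of_le hle).symm⟩
      subst hβ
      refine coeff_ext_pd i (ih β ?_ _ _ (h1 a b hab i))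
      rw [map_add, Finsupp.degree_single] at hα
      omega
  ext α
  exact key _ α rfl a b h

theorem pd_const_fun (i : Fin N) (c : ℂ) : pd i (fun _ : Fin N → ℂ => c) = fun _ => 0 := by
  ext y
  simp [pd]

theorem Tay_const (Q : Fin N → ℂ) (c : ℂ) : Tay Q (fun _ => c) = C c := by
  refine eq_of_pd_rel (fun a b => ∃ c, a = Tay Q (fun _ => c) ∧ b = C c) ?_ ?_ ⟨c, rfl, rfl⟩
  · rintro a b ⟨c, rfl, rfl⟩
    rw [Tay_const_coeff, constantCoeff_C]
  · rintro a b ⟨c, rfl, rfl⟩ i
    refine ⟨0, ?_, ?_⟩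
    · rw [← Tay_pd i analyticAt_const, pd_const_fun]
    · rw [pderiv_C, map_zero]

theorem an_coord_fun (Q : Fin N → ℂ) (i : Fin N) : AnalyticAt ℂ (fun y : Fin N → ℂ => y i) Q :=
  (ContinuousLinearMap.proj (R := ℂ) (φ := fun _ : Fin N => ℂ) i).analyticAt Q

theorem pd_coord_fun (i j : Fin N) : pd j (fun y : Fin N → ℂ => y i) =
    fun _ => if i = j then 1 else 0 := by
  ext y
  have h := (ContinuousLinearMap.proj (R := ℂ) (φ := fun _ : Fin N => ℂ) i).hasFDerivAt (x := y)
  have h2 : fderiv ℂ (fun y : Fin N → ℂ => y i) y =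
      ContinuousLinearMap.proj (R := ℂ) (φ := fun _ : Fin N => ℂ) i := h.fderiv
  rw [pd, h2]
  by_cases hij : i = j
  · subst hij; simp
  · rw [if_neg hij, ContinuousLinearMap.proj_apply, Pi.single_eq_of_ne hij]

theorem Tay_coord (Q : Fin N → ℂ) (i : Fin N) : Tay Q (fun y => y i) = C (Q i) + X i := by
  refine pderiv.ext (fun j => ?_) ?_
  · rw [← Tay_pd j (an_coord_fun Q i), pd_coord_fun, map_add, pderiv_C, zero_add, Tay_const]
    by_cases hij : i = j
    · subst hij; simp
    · rw [if_neg hij, map_zero, pderiv_X_of_ne hij]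
  · rw [Tay_const_coeff, map_add, constantCoeff_C, constantCoeff_X, add_zero]

theorem pd_add_germ (i : Fin N) (hf : AnalyticAt ℂ f Q) (hg : AnalyticAt ℂ g Q) :
    pd i (fun y => f y + g y) =ᶠ[𝓝 Q] fun y => pd i f y + pd i g y := by
  filter_upwards [hf.eventually_analyticAt, hg.eventually_analyticAt] with y h1 h2
  change fderiv ℂ (fun y => f y + g y) y _ = _
  rw [fderiv_fun_add h1.differentiableAt h2.differentiableAt]
  rfl

theorem pd_mul_germ (i : Fin N) (hf : AnalyticAt ℂ f Q) (hg : AnalyticAt ℂ g Q) :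
    pd i (fun y => f y * g y) =ᶠ[𝓝 Q] fun y => f y * pd i g y + g y * pd i f y := by
  filter_upwards [hf.eventually_analyticAt, hg.eventually_analyticAt] with y h1 h2
  change fderiv ℂ (fun y => f y * g y) y _ = _
  rw [fderiv_fun_mul h1.differentiableAt h2.differentiableAt]
  rfl

theorem Tay_add (hf : AnalyticAt ℂ f Q) (hg : AnalyticAt ℂ g Q) :
    Tay Q (fun y => f y + g y) = Tay Q f + Tay Q g := by
  refine eq_of_pd_rel (fun a b => ∃ f g : (Fin N → ℂ) → ℂ, AnalyticAt ℂ f Q ∧ AnalyticAt ℂ g Q ∧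
    a = Tay Q (fun y => f y + g y) ∧ b = Tay Q f + Tay Q g) ?_ ?_ ⟨f, g, hf, hg, rfl, rfl⟩
  · rintro a b ⟨f, g, hf, hg, rfl, rfl⟩
    rw [map_add, Tay_const_coeff, Tay_const_coeff, Tay_const_coeff]
  · rintro a b ⟨f, g, hf, hg, rfl, rfl⟩ i
    refine ⟨pd i f, pd i g, an_dd i hf, an_dd i hg, ?_, ?_⟩
    · rw [← Tay_pd i (hf.fun_add hg)]
      exact Tay_congr (pd_add_germ i hf hg)
    · rw [map_add, Tay_pd i hf, Tay_pd i hg]

theorem Tay_neg (hf : AnalyticAt ℂ f Q) : Tay Q (fun y => -f y) = -Tay Q f := by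
  have h := Tay_add hf hf.fun_neg
  have h2 : Tay Q (fun y => f y + -f y) = 0 := by
    rw [← map_zero (C : ℂ →+* MvPowerSeries (Fin N) ℂ), ← Tay_const Q 0]
    exact Tay_congr (Eventually.of_forall fun y => by simp)
  rw [h2] at h
  exact eq_neg_of_add_eq_zero_right h.symm

theorem Tay_sub (hf : AnalyticAt ℂ f Q) (hg : AnalyticAt ℂ g Q) :
    Tay Q (fun y => f y - g y) = Tay Q f - Tay Q g := by
  rw [sub_eq_add_neg, ← Tay_neg hg, ← Tay_add hf hg.fun_neg]
  exact Tay_congr (Eventually.of_forall fun y => by simp [sub_eq_add_neg])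

/-- Induction on the degree, from `Tay_pd` and the Leibniz rule for `pderiv`. -/
theorem Tay_mul (hf : AnalyticAt ℂ f Q) (hg : AnalyticAt ℂ g Q) :
    Tay Q (fun y => f y * g y) = Tay Q f * Tay Q g := by
  have key : ∀ n : ℕ, ∀ α : Fin N →₀ ℕ, α.degree = n → ∀ f g : (Fin N → ℂ) → ℂ,
      AnalyticAt ℂ f Q → AnalyticAt ℂ g Q →
      coeff α (Tay Q (fun y => f y * g y)) = coeff α (Tay Q f * Tay Q g) := by
    intro n
    induction n with
    | zero =>
      intro α hα f g hf hg
      have : α = 0 := (Finsupp.degree_eq_zero_iff α).1 hα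
      subst this
      rw [coeff_zero_eq_constantCoeff, map_mul, Tay_const_coeff, Tay_const_coeff, Tay_const_coeff]
    | succ n ih =>
      intro α hα f g hf hg
      have hne : α ≠ 0 := by
        rintro rfl
        simp at hα
      obtain ⟨i, hi⟩ := Finsupp.ne_iff.1 hne
      have hle : Finsupp.single i 1 ≤ α := by
        rw [Finsupp.single_le_iff]
        exact Nat.one_le_iff_ne_zero.2 hi
      obtain ⟨β, hβ⟩ : ∃ β, α = β + Finsupp.single i 1 := ⟨α - Finsupp.single i 1,
        (tsub_add_cancel_of_le hle).symm⟩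
      subst hβ
      have hβn : β.degree = n := by
        rw [map_add, Finsupp.degree_single] at hα
        omega
      refine coeff_ext_pd i ?_
      rw [← Tay_pd i (hf.fun_mul hg), Derivation.leibniz, smul_eq_mul, smul_eq_mul,
        Tay_congr (pd_mul_germ i hf hg),
        Tay_add (hf.fun_mul (an_dd i hg)) (hg.fun_mul (an_dd i hf)), map_add, map_add,
        ih β hβn f _ hf (an_dd i hg), ih β hβn g _ hg (an_dd i hf), Tay_pd i hf, Tay_pd i hg]
  ext α
  exact key _ α rfl f g hf hg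

theorem Tay_sum {ι : Type*} (s : Finset ι) (F : ι → (Fin N → ℂ) → ℂ)
    (h : ∀ i ∈ s, AnalyticAt ℂ (F i) Q) : Tay Q (fun y => ∑ i ∈ s, F i y) = ∑ i ∈ s, Tay Q (F i) := by
  classical
  induction s using Finset.induction_on with
  | empty => simpa using Tay_const Q 0
  | insert a s ha ih =>
    simp only [Finset.sum_insert ha]
    rw [← ih fun i hi => h i (Finset.mem_insert_of_mem hi)]
    exact Tay_add (h a (Finset.mem_insert_self a s))
      (Finset.analyticAt_fun_sum s fun i hi => h i (Finset.mem_insert_of_mem hi))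

theorem Tay_prod {ι : Type*} (s : Finset ι) (F : ι → (Fin N → ℂ) → ℂ)
    (h : ∀ i ∈ s, AnalyticAt ℂ (F i) Q) : Tay Q (fun y => ∏ i ∈ s, F i y) = ∏ i ∈ s, Tay Q (F i) := by
  classical
  induction s using Finset.induction_on with
  | empty => simpa using Tay_const Q 1
  | insert a s ha ih =>
    simp only [Finset.prod_insert ha]
    rw [← ih fun i hi => h i (Finset.mem_insert_of_mem hi)]
    exact Tay_mul (h a (Finset.mem_insert_self a s))
      (Finset.analyticAt_fun_prod s fun i hi => h i (Finset.mem_insert_of_mem hi))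

theorem Tay_pow (n : ℕ) (hf : AnalyticAt ℂ f Q) : Tay Q (fun y => f y ^ n) = Tay Q f ^ n := by
  have := Tay_prod (Q := Q) (Finset.range n) (fun _ => f) fun _ _ => hf
  simpa using this

/-- Polynomials in analytic functions. -/
theorem Tay_eval {ι : Type*} (F : ι → (Fin N → ℂ) → ℂ) (h : ∀ i, AnalyticAt ℂ (F i) Q)
    (P : MvPolynomial ι ℂ) : Tay Q (fun y => MvPolynomial.eval (fun i => F i y) P) =
      MvPolynomial.aeval (fun i => Tay Q (F i)) P := by
  have hP : AnalyticAt ℂ (fun y => MvPolynomial.eval (fun i => F i y) P) Q ∧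
      Tay Q (fun y => MvPolynomial.eval (fun i => F i y) P) =
        MvPolynomial.aeval (fun i => Tay Q (F i)) P := by
    induction P using MvPolynomial.induction_on with
    | C a =>
      simp only [MvPolynomial.eval_C, MvPolynomial.aeval_C]
      refine ⟨analyticAt_const, ?_⟩
      rw [Tay_const]; rfl
    | add p q hp hq =>
      simp only [map_add]
      refine ⟨hp.1.add hq.1, ?_⟩
      rw [Tay_add hp.1 hq.1, hp.2, hq.2]
    | mul_X p i hp =>
      simp only [map_mul, MvPolynomial.eval_X, MvPolynomial.aeval_X]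
      refine ⟨hp.1.mul (h i), ?_⟩
      rw [Tay_mul hp.1 (h i), hp.2]
  exact hP.2

theorem Tay_inv (hf : AnalyticAt ℂ f Q) (h0 : f Q ≠ 0) : Tay Q (fun y => (f y)⁻¹) * Tay Q f = 1 := by
  rw [← Tay_mul (hf.fun_inv h0) hf, ← map_one (C : ℂ →+* MvPowerSeries (Fin N) ℂ), ← Tay_const Q 1]
  refine Tay_congr ?_
  filter_upwards [hf.continuousAt.eventually_ne h0] with y hy
  exact inv_mul_cancel₀ hy

/-- The derivative in the direction `w`. -/
noncomputable def dirw (w : Fin N → ℂ) (f : (Fin N → ℂ) → ℂ) : (Fin N → ℂ) → ℂ :=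
  fun y => fderiv ℂ f y w

theorem dirw_eq (w : Fin N → ℂ) (f : (Fin N → ℂ) → ℂ) :
    dirw w f = fun y => ∑ i, w i * pd i f y := by
  ext y
  change fderiv ℂ f y w = _
  conv_lhs => rw [← Finset.univ_sum_single w]
  rw [map_sum]
  refine Finset.sum_congr rfl fun m _ => ?_
  have : (Pi.single m (w m) : Fin N → ℂ) = w m • Pi.single m 1 := by
    rw [← Pi.single_smul, smul_eq_mul, mul_one]
  rw [this, map_smul, smul_eq_mul, pd]

theorem an_dirw (w : Fin N → ℂ) (hf : AnalyticAt ℂ f Q) : AnalyticAt ℂ (dirw w f) Q := by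
  have h1 := (ContinuousLinearMap.apply ℂ ℂ w).analyticAt (fderiv ℂ f Q)
  exact h1.comp hf.fderiv

theorem Tay_dirw_zero (w : Fin N → ℂ) (hf : AnalyticAt ℂ f Q) (h : Tay Q f = 0) :
    Tay Q (dirw w f) = 0 := by
  rw [dirw_eq, Tay_sum _ _ fun i _ => analyticAt_const.fun_mul (an_dd i hf)]
  refine Finset.sum_eq_zero fun i _ => ?_
  rw [Tay_mul analyticAt_const (an_dd i hf), Tay_pd i hf, h, map_zero, mul_zero]

theorem eventually_zero_of_Tay (hf : AnalyticAt ℂ f Q) (h : Tay Q f = 0) :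
    ∀ᶠ y in 𝓝 Q, f y = 0 := by
  obtain ⟨r, hr, hrf⟩ := Metric.eventually_nhds_iff_ball.1 hf.eventually_analyticAt
  refine Metric.eventually_nhds_iff_ball.2 ⟨r, hr, fun y hy => ?_⟩
  set w : Fin N → ℂ := y - Q with hw
  set ψ : ℂ → (Fin N → ℂ) := fun z => Q + z • w with hψ
  have hψd : ∀ z, HasDerivAt ψ w z := by
    intro z
    have h5 := ((hasDerivAt_id z).smul_const w).const_add Q
    rwa [one_smul] at h5
  have hψ0 : ψ 0 = Q := by simp [hψ]
  -- iterated derivatives
  have hit : ∀ n : ℕ, ∀ g : (Fin N → ℂ) → ℂ, AnalyticAt ℂ g Q → Tay Q g = 0 →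
      iteratedDeriv n (fun z => g (ψ z)) 0 = 0 := by
    intro n
    induction n with
    | zero =>
      intro g hg h0
      rw [iteratedDeriv_zero, hψ0, ← Tay_const_coeff Q g, h0, map_zero]
    | succ n ih =>
      intro g hg h0
      rw [iteratedDeriv_succ']
      have h1 : deriv (fun z => g (ψ z)) =ᶠ[𝓝 0] fun z => dirw w g (ψ z) := by
        have h2 : Tendsto ψ (𝓝 0) (𝓝 Q) := by
          have := (hψd 0).continuousAt.tendsto
          rwa [hψ0] at this
        filter_upwards [h2.eventually hg.eventually_analyticAt] with z hz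
        exact (hz.differentiableAt.hasFDerivAt.comp_hasDerivAt z (hψd z)).deriv
      rw [h1.iteratedDeriv_eq n]
      exact ih _ (an_dirw w hg) (Tay_dirw_zero w hg h0)
  have hφ : AnalyticAt ℂ (fun z => f (ψ z)) 0 := by
    have h1 : AnalyticAt ℂ f (ψ 0) := by rw [hψ0]; exact hf
    refine h1.comp ?_
    exact analyticAt_const.add (analyticAt_id.smul analyticAt_const)
  have hev : ∀ᶠ z in 𝓝 (0 : ℂ), f (ψ z) = 0 := by
    rw [← analyticOrderAt_eq_top, ENat.eq_top_iff_forall_ge]
    intro m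
    exact (natCast_le_analyticOrderAt_iff_iteratedDeriv_eq_zero hφ).2 fun i _ => hit i f hf h
  -- identity theorem on the disc
  have hwr : ‖w‖ < r := by rwa [hw, ← dist_eq_norm]
  set U : Set ℂ := ψ ⁻¹' Metric.ball Q r with hU
  have hUc : Convex ℝ U := by
    intro a ha b hb s t hs ht hst
    simp only [hU, Set.mem_preimage, Metric.mem_ball, dist_eq_norm, hψ, add_sub_cancel_left] at *
    have : (s • a + t • b) • w = s • (a • w) + t • (b • w) := by
      simp only [add_smul, smul_assoc]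
    rw [this]
    calc ‖s • a • w + t • b • w‖ ≤ ‖s • a • w‖ + ‖t • b • w‖ := norm_add_le _ _
      _ = s * ‖a • w‖ + t * ‖b • w‖ := by
        rw [norm_smul s, norm_smul t, Real.norm_of_nonneg hs, Real.norm_of_nonneg ht]
      _ < r := by
        rcases hs.eq_or_lt with h0 | h0
        · subst h0
          rw [zero_add] at hst
          subst hst
          simpa using hb
        · nlinarith
  have hUa : AnalyticOnNhd ℂ (fun z => f (ψ z)) U := by
    intro z hz
    refine (hrf (ψ z) hz).comp ?_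
    exact analyticAt_const.add (analyticAt_id.smul analyticAt_const)
  have h0U : (0 : ℂ) ∈ U := by
    simp only [hU, Set.mem_preimage, hψ0]
    exact Metric.mem_ball_self hr
  have h1U : (1 : ℂ) ∈ U := by
    simp only [hU, Set.mem_preimage, Metric.mem_ball, dist_eq_norm, hψ, add_sub_cancel_left,
      one_smul]
    exact hwr
  have hz := hUa.eqOn_zero_of_preconnected_of_eventuallyEq_zero hUc.isPreconnected h0U hev h1U
  have h1 : ψ 1 = y := by simp [hψ, hw]
  simpa [h1] using hz

/-- An analytic function is determined near `Q` by its Taylor series. -/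
theorem Tay_ext (hf : AnalyticAt ℂ f Q) (hg : AnalyticAt ℂ g Q) (h : Tay Q f = Tay Q g) :
    f =ᶠ[𝓝 Q] g := by
  have h1 := eventually_zero_of_Tay (hf.sub hg) (by
    have := Tay_sub hf hg
    rw [h, sub_self] at this
    exact this)
  filter_upwards [h1] with y hy
  exact sub_eq_zero.1 hy

/-- Euler's relation at `Q`. -/
theorem Tay_euler {k : ℤ} (hf : AnalyticAt ℂ f Q)
    (h : ∀ᶠ y in 𝓝 Q, ∑ j, y j * pd j f y = k * f y) :
    ∑ j, (C (Q j) + X j) * pderiv ℂ j (Tay Q f) = (k : MvPowerSeries (Fin N) ℂ) * Tay Q f := by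
  have h1 : Tay Q (fun y => ∑ j, y j * pd j f y) = Tay Q (fun y => (k : ℂ) * f y) := Tay_congr h
  rw [Tay_sum _ _ fun j _ => (an_coord_fun Q j).fun_mul (an_dd j hf), Tay_mul analyticAt_const hf,
    Tay_const] at h1
  simp only [Tay_mul (an_coord_fun Q _) (an_dd _ hf), Tay_coord, Tay_pd _ hf] at h1
  rw [h1, map_intCast]

end Pool.Agent.Lib.MP_5d4057_al.DR
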