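import Pool.Agent.Lib.MP_5d4057_al.DR.Fps

/-! Project DER, part T2, (F0): linear substitutions in formal power series, compatibility with the
Taylor series (`Tay_comp`), with `Dc` (`Dc_lsub`) and with `Db` (`Db_lsub`). -/

set_option autoImplicit false

namespace Pool.Agent.Lib.MP_5d4057_al.DR.FL

open MvPowerSeries Filter Topology Pool.Agent.Lib.MP_5d4057_al.DR

variable {N : ℕ}

/-- Formal power series in `N` variables. -/
abbrev FPS (N : ℕ) := MvPowerSeries (Fin N) ℂ

/-! ### Congruence modulo degree `d` -/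

/-- Equality of the coefficients of degree less than `d`. -/
def Eqn (d : ℕ) (S S' : FPS N) : Prop :=
  ∀ m : Fin N →₀ ℕ, m.degree < d → coeff m S = coeff m S'

theorem Eqn.refl (d : ℕ) (S : FPS N) : Eqn d S S := fun _ _ => rfl

theorem Eqn.of_eq {d : ℕ} {S S' : FPS N} (h : S = S') : Eqn d S S' := h ▸ Eqn.refl d S

theorem Eqn.symm {d : ℕ} {S S' : FPS N} (h : Eqn d S S') : Eqn d S' S :=
  fun m hm => (h m hm).symm

theorem Eqn.trans {d : ℕ} {S S' S'' : FPS N} (h : Eqn d S S') (h' : Eqn d S' S'') :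
    Eqn d S S'' := fun m hm => (h m hm).trans (h' m hm)

theorem Eqn.zero (S S' : FPS N) : Eqn 0 S S' := fun _ hm => absurd hm (Nat.not_lt_zero _)

theorem Eqn.add {d : ℕ} {S S' T T' : FPS N} (h : Eqn d S S') (h' : Eqn d T T') :
    Eqn d (S + T) (S' + T') := fun m hm => by rw [map_add, map_add, h m hm, h' m hm]

theorem Eqn.sum {ι : Type*} (s : Finset ι) {d : ℕ} {S S' : ι → FPS N}
    (h : ∀ i ∈ s, Eqn d (S i) (S' i)) : Eqn d (∑ i ∈ s, S i) (∑ i ∈ s, S' i) := fun m hm => by
  rw [map_sum, map_sum]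
  exact Finset.sum_congr rfl fun i hi => h i hi m hm

theorem Eqn.mul {d : ℕ} {S S' T T' : FPS N} (h : Eqn d S S') (h' : Eqn d T T') :
    Eqn d (S * T) (S' * T') := fun m hm => by
  classical
  rw [coeff_mul, coeff_mul]
  refine Finset.sum_congr rfl fun p hp => ?_
  have hp' := Finset.HasAntidiagonal.mem_antidiagonal.mp hp
  have hdeg : p.1.degree + p.2.degree = m.degree := by rw [← map_add, hp']
  rw [h p.1 (by omega), h' p.2 (by omega)]

theorem Eqn.smul {d : ℕ} {S S' : FPS N} (c : ℂ) (h : Eqn d S S') : Eqn d (c • S) (c • S') :=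
  fun m hm => by rw [coeff_smul, coeff_smul, h m hm]

theorem eq_of_eqn {S S' : FPS N} (h : ∀ d, Eqn d S S') : S = S' := by
  ext m
  exact h (m.degree + 1) m (Nat.lt_succ_self _)

theorem Eqn.succ {d : ℕ} {S S' : FPS N} (h0 : constantCoeff S = constantCoeff S')
    (h : ∀ i, Eqn d (pderiv ℂ i S) (pderiv ℂ i S')) : Eqn (d + 1) S S' := by
  intro m hm
  by_cases h1 : m = 0
  · rw [h1, coeff_zero_eq_constantCoeff, h0]
  obtain ⟨i, hi : m i ≠ 0⟩ := Finsupp.ne_iff.mp h1
  have hle : Finsupp.single i 1 ≤ m := by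
    rw [Finsupp.single_le_iff]; omega
  have hm' : m - Finsupp.single i 1 + Finsupp.single i 1 = m := tsub_add_cancel_of_le hle
  have hdeg : (m - Finsupp.single i 1).degree < d := by
    have := congrArg Finsupp.degree hm'
    rw [map_add, Finsupp.degree_single] at this
    omega
  have e := h i _ hdeg
  rw [coeff_pderiv, coeff_pderiv, hm'] at e
  have hne : (((m - Finsupp.single i 1 : Fin N →₀ ℕ) i : ℂ) + 1) ≠ 0 := Nat.cast_add_one_ne_zero _
  exact mul_right_cancel₀ hne e

theorem Eqn.pderiv {d : ℕ} {S S' : FPS N} (h : Eqn (d + 1) S S') (i : Fin N) :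
    Eqn d (pderiv ℂ i S) (pderiv ℂ i S') := by
  intro m hm
  rw [coeff_pderiv, coeff_pderiv, h _ (by rw [map_add, Finsupp.degree_single]; omega)]

theorem pderiv_smul' (i : Fin N) (c : ℂ) (S : FPS N) :
    pderiv ℂ i (c • S) = c • pderiv ℂ i S := (pderiv ℂ i).map_smul c S

/-! ### The general construction of Taylor series -/

section General

variable {A : Type*}

/-- Iterated application of the operators `δ i`. -/
def iter (δ : Fin N → A → A) (m : Fin N →₀ ℕ) (l : List (Fin N)) (a : A) : A :=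
  l.foldr (fun i b => (δ i)^[m i] b) a

/-- The Taylor series attached to operators `δ i` and an evaluation. -/
noncomputable def tay (δ : Fin N → A → A) (ev : A → ℂ) (a : A) : FPS N :=
  fun m => (∏ i, ((m i).factorial : ℂ))⁻¹ * ev (iter δ m (List.finRange N) a)

/-- Operators which commute up to an equivalence relation. -/
structure Com (δ : Fin N → A → A) (r : A → A → Prop) (P : A → Prop) : Prop where
  eqv : Equivalence r
  stab : ∀ i a, P a → P (δ i a)
  cong : ∀ i a b, r a b → r (δ i a) (δ i b)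
  comm : ∀ i j a, P a → r (δ i (δ j a)) (δ j (δ i a))

variable {δ : Fin N → A → A} {r : A → A → Prop} {P : A → Prop}

theorem Com.it_stab (h : Com δ r P) (i : Fin N) (k : ℕ) {a : A} (ha : P a) :
    P ((δ i)^[k] a) := by
  induction k with
  | zero => exact ha
  | succ k ih => rw [Function.iterate_succ_apply']; exact h.stab i _ ih

theorem Com.it_cong (h : Com δ r P) (i : Fin N) (k : ℕ) {a b : A} (hab : r a b) :
    r ((δ i)^[k] a) ((δ i)^[k] b) := by
  induction k with
  | zero => exact hab
  | succ k ih =>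
    rw [Function.iterate_succ_apply', Function.iterate_succ_apply']; exact h.cong i _ _ ih

theorem Com.it_comm (h : Com δ r P) (i j : Fin N) (k : ℕ) {a : A} (ha : P a) :
    r ((δ i)^[k] (δ j a)) (δ j ((δ i)^[k] a)) := by
  induction k with
  | zero => exact h.eqv.refl _
  | succ k ih =>
    rw [Function.iterate_succ_apply', Function.iterate_succ_apply']
    exact h.eqv.trans (h.cong i _ _ ih) (h.comm i j _ (h.it_stab i k ha))

theorem Com.iter_stab (h : Com δ r P) (m : Fin N →₀ ℕ) (l : List (Fin N)) {a : A} (ha : P a) :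
    P (iter δ m l a) := by
  induction l with
  | nil => exact ha
  | cons i l ih => exact h.it_stab i _ ih

theorem Com.iter_cong (h : Com δ r P) (m : Fin N →₀ ℕ) (l : List (Fin N)) {a b : A}
    (hab : r a b) : r (iter δ m l a) (iter δ m l b) := by
  induction l with
  | nil => exact hab
  | cons i l ih => exact h.it_cong i _ ih

theorem Com.iter_comm (h : Com δ r P) (m : Fin N →₀ ℕ) (l : List (Fin N)) (j : Fin N) {a : A}
    (ha : P a) : r (iter δ m l (δ j a)) (δ j (iter δ m l a)) := by
  induction l with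
  | nil => exact h.eqv.refl _
  | cons i l ih =>
    exact h.eqv.trans (h.it_cong i (m i) ih) (h.it_comm i j (m i) (h.iter_stab m l ha))

theorem iter_congr_of_notMem (m m' : Fin N →₀ ℕ) (l : List (Fin N)) (a : A)
    (h : ∀ i ∈ l, m i = m' i) : iter δ m l a = iter δ m' l a := by
  induction l with
  | nil => rfl
  | cons i l ih =>
    have h1 := ih fun k hk => h k (List.mem_cons_of_mem _ hk)
    show (δ i)^[m i] (iter δ m l a) = (δ i)^[m' i] (iter δ m' l a)
    rw [h1, h i List.mem_cons_self]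

theorem Com.iter_add (h : Com δ r P) (m : Fin N →₀ ℕ) (l : List (Fin N)) (hl : l.Nodup)
    (j : Fin N) (hj : j ∈ l) {a : A} (ha : P a) :
    r (iter δ (m + Finsupp.single j 1) l a) (iter δ m l (δ j a)) := by
  induction l with
  | nil => exact absurd hj List.not_mem_nil
  | cons i l ih =>
    have hnd := List.nodup_cons.mp hl
    rcases List.mem_cons.mp hj with h1 | h1
    · subst h1
      have e1 : iter δ (m + Finsupp.single j 1) l a = iter δ m l a := by
        refine iter_congr_of_notMem _ _ _ _ fun i hi => ?_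
        have : i ≠ j := fun he => hnd.1 (he ▸ hi)
        rw [Finsupp.add_apply, Finsupp.single_eq_of_ne this, add_zero]
      show r ((δ j)^[(m + Finsupp.single j 1 : Fin N →₀ ℕ) j] (iter δ (m + Finsupp.single j 1) l a))
        ((δ j)^[m j] (iter δ m l (δ j a)))
      rw [e1, Finsupp.add_apply, Finsupp.single_eq_same, Function.iterate_succ_apply]
      exact h.it_cong j (m j) (h.eqv.symm (h.iter_comm m l j ha))
    · have hne : i ≠ j := fun he => hnd.1 (he ▸ h1)
      show r ((δ i)^[(m + Finsupp.single j 1 : Fin N →₀ ℕ) i] (iter δ (m + Finsupp.single j 1) l a))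
        ((δ i)^[m i] (iter δ m l (δ j a)))
      rw [Finsupp.add_apply, Finsupp.single_eq_of_ne hne, add_zero]
      exact h.it_cong i (m i) (ih hnd.2 h1)

theorem iter_zero (l : List (Fin N)) (a : A) : iter δ 0 l a = a := by
  induction l with
  | nil => rfl
  | cons i l ih =>
    show (δ i)^[(0 : Fin N →₀ ℕ) i] (iter δ 0 l a) = a
    rw [ih]; rfl

theorem coeff_tay (ev : A → ℂ) (a : A) (m : Fin N →₀ ℕ) :
    coeff m (tay δ ev a) = (∏ i, ((m i).factorial : ℂ))⁻¹ * ev (iter δ m (List.finRange N) a) := rfl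

theorem constantCoeff_tay (ev : A → ℂ) (a : A) : constantCoeff (tay δ ev a) = ev a := by
  rw [← coeff_zero_eq_constantCoeff_apply, coeff_tay, iter_zero]
  simp

theorem Com.tay_congr (h : Com δ r P) {ev : A → ℂ} (hev : ∀ a b, r a b → ev a = ev b) {a b : A}
    (hab : r a b) : tay δ ev a = tay δ ev b := by
  ext m
  rw [coeff_tay, coeff_tay, hev _ _ (h.iter_cong m _ hab)]

theorem Com.pderiv_tay (h : Com δ r P) {ev : A → ℂ} (hev : ∀ a b, r a b → ev a = ev b) (i : Fin N)
    {a : A} (ha : P a) : pderiv ℂ i (tay δ ev a) = tay δ ev (δ i a) := by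
  classical
  ext m
  rw [coeff_pderiv, coeff_tay, coeff_tay,
    hev _ _ (h.iter_add m (List.finRange N) (List.nodup_finRange N) i (List.mem_finRange i) ha)]
  have hprod : (∏ k, (((m + Finsupp.single i 1 : Fin N →₀ ℕ) k).factorial : ℂ))
      = ((m i : ℂ) + 1) * ∏ k, ((m k).factorial : ℂ) := by
    rw [← Finset.mul_prod_erase Finset.univ _ (Finset.mem_univ i),
      ← Finset.mul_prod_erase Finset.univ (fun k => ((m k).factorial : ℂ)) (Finset.mem_univ i),
      Finsupp.add_apply, Finsupp.single_eq_same, Nat.factorial_succ]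
    have : ∏ k ∈ Finset.univ.erase i, (((m + Finsupp.single i 1 : Fin N →₀ ℕ) k).factorial : ℂ)
        = ∏ k ∈ Finset.univ.erase i, ((m k).factorial : ℂ) := by
      refine Finset.prod_congr rfl fun k hk => ?_
      rw [Finsupp.add_apply, Finsupp.single_eq_of_ne (Finset.ne_of_mem_erase hk), add_zero]
    rw [this]
    push_cast
    ring
  have hne : ((m i : ℂ) + 1) ≠ 0 := Nat.cast_add_one_ne_zero _
  rw [hprod, mul_inv]
  field_simp

end General

theorem constantCoeff_Dc (D : Derivation ℤ ℂ ℂ) (S : FPS N) :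
    constantCoeff (Dc D S) = D (constantCoeff S) := by
  rw [← coeff_zero_eq_constantCoeff_apply, coeff_Dc, coeff_zero_eq_constantCoeff_apply]

theorem Dc_smul (D : Derivation ℤ ℂ ℂ) (c : ℂ) (S : FPS N) :
    Dc D (c • S) = c • Dc D S + D c • S := by
  ext m
  rw [coeff_Dc, map_add, coeff_smul, coeff_smul, coeff_smul, coeff_Dc, Derivation.leibniz,
    smul_eq_mul, smul_eq_mul, mul_comm (D c)]

theorem Db_apply' (D : Derivation ℤ ℂ ℂ) (Q : Fin N → ℂ) (S : FPS N) :
    Db D Q S = Dc D S - ∑ i, D (Q i) • pderiv ℂ i S := by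
  rw [Db_apply]
  congr 1
  exact Finset.sum_congr rfl fun i _ => by rw [smul_eq_C_mul]

theorem constantCoeff_Db (D : Derivation ℤ ℂ ℂ) (Q : Fin N → ℂ) (S : FPS N) :
    constantCoeff (Db D Q S)
      = D (constantCoeff S) - ∑ i, D (Q i) * constantCoeff (pderiv ℂ i S) := by
  rw [Db_apply, map_sub, map_sum, constantCoeff_Dc]
  congr 1
  refine Finset.sum_congr rfl fun i _ => ?_
  rw [map_mul, constantCoeff_C]

theorem Db_smul (D : Derivation ℤ ℂ ℂ) (Q : Fin N → ℂ) (c : ℂ) (S : FPS N) :
    Db D Q (c • S) = c • Db D Q S + D c • S := by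
  rw [smul_eq_C_mul, Derivation.leibniz, Db_C, smul_eq_mul, smul_eq_mul, smul_eq_C_mul,
    smul_eq_C_mul, mul_comm S]

/-! ### Linear substitutions -/

/-- The operators of a linear substitution. -/
noncomputable def lop (A : Matrix (Fin N) (Fin N) ℂ) (j : Fin N) (S : FPS N) : FPS N :=
  ∑ i, A i j • pderiv ℂ i S

theorem lop_add (A : Matrix (Fin N) (Fin N) ℂ) (j : Fin N) (S T : FPS N) :
    lop A j (S + T) = lop A j S + lop A j T := by
  simp only [lop, map_add, smul_add, Finset.sum_add_distrib]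

theorem lop_smul (A : Matrix (Fin N) (Fin N) ℂ) (j : Fin N) (c : ℂ) (S : FPS N) :
    lop A j (c • S) = c • lop A j S := by
  simp only [lop, pderiv_smul', Finset.smul_sum]
  exact Finset.sum_congr rfl fun i _ => smul_comm _ _ _

theorem lop_sum (A : Matrix (Fin N) (Fin N) ℂ) (j : Fin N) {ι : Type*} (s : Finset ι)
    (S : ι → FPS N) : lop A j (∑ i ∈ s, S i) = ∑ i ∈ s, lop A j (S i) := by
  simp only [lop, map_sum, Finset.smul_sum]
  exact Finset.sum_comm

theorem lop_mul (A : Matrix (Fin N) (Fin N) ℂ) (j : Fin N) (S T : FPS N) :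
    lop A j (S * T) = S * lop A j T + T * lop A j S := by
  simp only [lop, Derivation.leibniz, smul_eq_mul, smul_add, Finset.sum_add_distrib,
    Finset.mul_sum, mul_smul_comm]

theorem lop_C (A : Matrix (Fin N) (Fin N) ℂ) (j : Fin N) (c : ℂ) : lop A j (C c) = 0 := by
  simp only [lop, pderiv_C, smul_zero, Finset.sum_const_zero]

theorem lop_pderiv (A : Matrix (Fin N) (Fin N) ℂ) (j i : Fin N) (S : FPS N) :
    lop A j (pderiv ℂ i S) = pderiv ℂ i (lop A j S) := by
  simp only [lop, map_sum, pderiv_smul']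
  exact Finset.sum_congr rfl fun k _ => by rw [pderiv_comm]

theorem lop_comm (A B : Matrix (Fin N) (Fin N) ℂ) (j k : Fin N) (S : FPS N) :
    lop A j (lop B k S) = lop B k (lop A j S) := by
  conv_lhs => rw [lop]
  conv_rhs => rw [show lop A j S = ∑ i, A i j • pderiv ℂ i S from rfl]
  rw [lop_sum]
  refine Finset.sum_congr rfl fun i _ => ?_
  rw [lop_smul, lop_pderiv]

theorem com_lop (A : Matrix (Fin N) (Fin N) ℂ) :
    Com (A := FPS N) (lop A) (fun S T => S = T) (fun _ => True) where
  eqv := ⟨fun _ => rfl, fun h => h.symm, fun h h' => h.trans h'⟩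
  stab := fun _ _ _ => trivial
  cong := fun i _ _ h => by rw [h]
  comm := fun i j S _ => lop_comm A A i j S

/-- The function underlying a linear substitution. -/
noncomputable def lsubFun (A : Matrix (Fin N) (Fin N) ℂ) (S : FPS N) : FPS N :=
  tay (lop A) (fun T : FPS N => constantCoeff T) S

theorem constantCoeff_lsubFun (A : Matrix (Fin N) (Fin N) ℂ) (S : FPS N) :
    constantCoeff (lsubFun A S) = constantCoeff S := constantCoeff_tay _ _

theorem pderiv_lsubFun (A : Matrix (Fin N) (Fin N) ℂ) (j : Fin N) (S : FPS N) :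
    pderiv ℂ j (lsubFun A S) = lsubFun A (lop A j S) :=
  (com_lop A).pderiv_tay (ev := fun T : FPS N => constantCoeff T) (fun _ _ h => by rw [h]) j
    trivial

theorem lsubFun_add (A : Matrix (Fin N) (Fin N) ℂ) (S T : FPS N) :
    lsubFun A (S + T) = lsubFun A S + lsubFun A T := by
  refine eq_of_eqn fun d => ?_
  induction d generalizing S T with
  | zero => exact Eqn.zero _ _
  | succ d ih =>
    refine Eqn.succ ?_ fun i => ?_
    · rw [map_add, constantCoeff_lsubFun, constantCoeff_lsubFun, constantCoeff_lsubFun, map_add]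
    · rw [map_add, pderiv_lsubFun, pderiv_lsubFun, pderiv_lsubFun, lop_add]
      exact ih _ _

theorem lsubFun_C (A : Matrix (Fin N) (Fin N) ℂ) (c : ℂ) : lsubFun A (C c) = C c := by
  refine eq_of_eqn fun d => ?_
  induction d generalizing c with
  | zero => exact Eqn.zero _ _
  | succ d ih =>
    refine Eqn.succ ?_ fun i => ?_
    · rw [constantCoeff_lsubFun]
    · rw [pderiv_lsubFun, lop_C, pderiv_C, ← (C : ℂ →+* FPS N).map_zero]
      exact ih 0

theorem lsubFun_mul (A : Matrix (Fin N) (Fin N) ℂ) (S T : FPS N) :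
    lsubFun A (S * T) = lsubFun A S * lsubFun A T := by
  refine eq_of_eqn fun d => ?_
  induction d generalizing S T with
  | zero => exact Eqn.zero _ _
  | succ d ih =>
    refine Eqn.succ ?_ fun i => ?_
    · rw [map_mul, constantCoeff_lsubFun, constantCoeff_lsubFun, constantCoeff_lsubFun, map_mul]
    · rw [Derivation.leibniz, pderiv_lsubFun, pderiv_lsubFun, pderiv_lsubFun, lop_mul,
        lsubFun_add, smul_eq_mul, smul_eq_mul]
      exact (ih _ _).add (ih _ _)

/-- The linear substitution `X i ↦ ∑ j, A i j X j`. -/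
noncomputable def lsub (A : Matrix (Fin N) (Fin N) ℂ) : FPS N →ₐ[ℂ] FPS N where
  toFun := lsubFun A
  map_one' := by rw [← (C : ℂ →+* FPS N).map_one, lsubFun_C]
  map_mul' := lsubFun_mul A
  map_zero' := by rw [← (C : ℂ →+* FPS N).map_zero, lsubFun_C]
  map_add' := lsubFun_add A
  commutes' := fun c => lsubFun_C A c

theorem constantCoeff_lsub (A : Matrix (Fin N) (Fin N) ℂ) (S : FPS N) :
    constantCoeff (lsub A S) = constantCoeff S := constantCoeff_lsubFun A S

theorem lsub_C (A : Matrix (Fin N) (Fin N) ℂ) (c : ℂ) : lsub A (C c) = C c := lsubFun_C A c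

theorem lsub_smul (A : Matrix (Fin N) (Fin N) ℂ) (c : ℂ) (S : FPS N) :
    lsub A (c • S) = c • lsub A S := map_smul (lsub A) c S

/-- The chain rule. -/
theorem pderiv_lsub (A : Matrix (Fin N) (Fin N) ℂ) (j : Fin N) (S : FPS N) :
    pderiv ℂ j (lsub A S) = ∑ i, A i j • lsub A (pderiv ℂ i S) := by
  have h : pderiv ℂ j (lsub A S) = lsub A (lop A j S) := pderiv_lsubFun A j S
  rw [h, lop, map_sum]
  exact Finset.sum_congr rfl fun i _ => lsub_smul A _ _

theorem lsub_X (A : Matrix (Fin N) (Fin N) ℂ) (i : Fin N) :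
    lsub A (X i) = ∑ j, A i j • (X j : FPS N) := by
  classical
  refine MvPowerSeries.pderiv.ext (fun j => ?_) ?_
  · rw [pderiv_lsub, map_sum, Finset.sum_eq_single i, Finset.sum_eq_single j]
    · rw [pderiv_smul', pderiv_X_self, pderiv_X_self, map_one]
    · intro k _ hk
      rw [pderiv_smul', pderiv_X_of_ne hk, smul_zero]
    · intro h; exact absurd (Finset.mem_univ j) h
    · intro k _ hk
      rw [pderiv_X_of_ne hk.symm, map_zero, smul_zero]
    · intro h; exact absurd (Finset.mem_univ i) h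
  · rw [constantCoeff_lsub, map_sum, constantCoeff_X, Finset.sum_eq_zero]
    intro k _
    rw [smul_eq_C_mul, map_mul, constantCoeff_X, mul_zero]

/-- Coefficientwise derivations commute with substitutions whose entries are killed. -/
theorem Dc_lsub (D : Derivation ℤ ℂ ℂ) {A : Matrix (Fin N) (Fin N) ℂ}
    (hA : ∀ i j, D (A i j) = 0) (S : FPS N) : Dc D (lsub A S) = lsub A (Dc D S) := by
  refine eq_of_eqn fun d => ?_
  induction d generalizing S with
  | zero => exact Eqn.zero _ _
  | succ d ih =>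
    refine Eqn.succ ?_ fun j => ?_
    · rw [constantCoeff_Dc, constantCoeff_lsub, constantCoeff_lsub, constantCoeff_Dc]
    · rw [← Dc_pderiv, pderiv_lsub, pderiv_lsub, map_sum]
      refine Eqn.sum _ fun i _ => ?_
      rw [Dc_smul, hA, zero_smul, add_zero, ← Dc_pderiv]
      exact (ih _).smul _

/-- Equivariance of `Db`. -/
theorem Db_lsub (D : Derivation ℤ ℂ ℂ) {A : Matrix (Fin N) (Fin N) ℂ}
    (hA : ∀ i j, D (A i j) = 0) (Q : Fin N → ℂ) (S : FPS N) :
    Db D Q (lsub A S) = lsub A (Db D (A.mulVec Q) S) := by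
  rw [Db_apply', Db_apply', map_sub, Dc_lsub D hA, map_sum]
  congr 1
  have h1 : ∀ i, D (A.mulVec Q i) = ∑ j, A i j * D (Q j) := by
    intro i
    show D (∑ j, A i j * Q j) = _
    rw [map_sum]
    refine Finset.sum_congr rfl fun j _ => ?_
    rw [Derivation.leibniz, hA, smul_zero, add_zero, smul_eq_mul]
  simp only [pderiv_lsub, Finset.smul_sum, h1, Finset.sum_smul, lsub_smul, smul_smul, map_sum]
  rw [Finset.sum_comm]
  refine Finset.sum_congr rfl fun i _ => Finset.sum_congr rfl fun j _ => ?_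
  rw [mul_comm]

theorem Tay_smul {Q : Fin N → ℂ} {f : (Fin N → ℂ) → ℂ} (hf : AnalyticAt ℂ f Q) (c : ℂ) :
    Tay Q (fun y => c * f y) = c • Tay Q f := by
  rw [Tay_mul analyticAt_const hf, Tay_const, smul_eq_C_mul]

theorem pd_comp_at {A : Matrix (Fin N) (Fin N) ℂ} {f : (Fin N → ℂ) → ℂ} {y : Fin N → ℂ}
    (hf : DifferentiableAt ℂ f (A.mulVec y)) (j : Fin N) :
    pd j (fun y => f (A.mulVec y)) y = ∑ i, A i j * pd i f (A.mulVec y) := by
  classical
  have hlin : HasFDerivAt (fun y : Fin N → ℂ => A.mulVec y)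
      (LinearMap.toContinuousLinearMap (Matrix.mulVecLin A)) y :=
    (LinearMap.toContinuousLinearMap (Matrix.mulVecLin A)).hasFDerivAt
  have h1 := (hf.hasFDerivAt.comp y hlin).fderiv
  have h2 : fderiv ℂ (fun y => f (A.mulVec y)) y
      = (fderiv ℂ f (A.mulVec y)).comp (LinearMap.toContinuousLinearMap (Matrix.mulVecLin A)) := h1
  show fderiv ℂ (fun y => f (A.mulVec y)) y (Pi.single j 1) = _
  rw [h2]
  show fderiv ℂ f (A.mulVec y) (A.mulVec (Pi.single j 1)) = _
  have h3 : A.mulVec (Pi.single j 1) = ∑ i, A i j • (Pi.single i 1 : Fin N → ℂ) := by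
    rw [Matrix.mulVec_single_one]
    funext k
    rw [Finset.sum_apply, Finset.sum_eq_single k]
    · simp
    · intro i _ hi
      simp [hi.symm]
    · intro h; exact absurd (Finset.mem_univ k) h
  rw [h3, map_sum]
  refine Finset.sum_congr rfl fun i _ => ?_
  rw [map_smul, smul_eq_mul]
  rfl

theorem mulVec_analyticAt (A : Matrix (Fin N) (Fin N) ℂ) (Q : Fin N → ℂ) :
    AnalyticAt ℂ (fun y : Fin N → ℂ => A.mulVec y) Q :=
  (LinearMap.toContinuousLinearMap (Matrix.mulVecLin A)).analyticAt Q

/-- The Taylor series of a composition with a linear map. -/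
theorem Tay_comp {A : Matrix (Fin N) (Fin N) ℂ} {Q : Fin N → ℂ} {f : (Fin N → ℂ) → ℂ}
    (hf : AnalyticAt ℂ f (A.mulVec Q)) :
    Tay Q (fun y => f (A.mulVec y)) = lsub A (Tay (A.mulVec Q) f) := by
  refine eq_of_eqn fun d => ?_
  induction d generalizing f with
  | zero => exact Eqn.zero _ _
  | succ d ih =>
    have hcomp : ∀ {g : (Fin N → ℂ) → ℂ}, AnalyticAt ℂ g (A.mulVec Q) →
        AnalyticAt ℂ (fun y => g (A.mulVec y)) Q := fun hg =>
      AnalyticAt.comp (g := _) (f := fun y : Fin N → ℂ => A.mulVec y) hg (mulVec_analyticAt A Q)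
    refine Eqn.succ ?_ fun j => ?_
    · rw [Tay_const_coeff, constantCoeff_lsub, Tay_const_coeff]
    · rw [← Tay_pd _ (hcomp hf), pderiv_lsub]
      have h1 : Tay Q (pd j fun y => f (A.mulVec y))
          = ∑ i, A i j • Tay Q (fun y => pd i f (A.mulVec y)) := by
        have h2 : pd j (fun y => f (A.mulVec y))
            =ᶠ[𝓝 Q] fun y => ∑ i, A i j * pd i f (A.mulVec y) := by
          have hev := (mulVec_analyticAt A Q).continuousAt.eventually hf.eventually_analyticAt
          filter_upwards [hev] with y hy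
          exact pd_comp_at hy.differentiableAt j
        rw [Tay_congr h2, Tay_sum _ _ fun i _ => ?_]
        · exact Finset.sum_congr rfl fun i _ => Tay_smul (hcomp (an_dd i hf)) _
        · exact analyticAt_const.mul (hcomp (an_dd i hf))
      rw [h1]
      refine Eqn.sum _ fun i _ => ?_
      rw [← Tay_pd _ hf]
      exact (ih (an_dd i hf)).smul _

end Pool.Agent.Lib.MP_5d4057_al.DR.FL
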