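import Pool.Agent.Lib.MP_5d4057_al.DR.FraA

/-!
# DER, T2 (F2): rules for the pointwise derivation, change of frame
-/

set_option autoImplicit false

namespace Pool.Agent.Lib.MP_5d4057_al.DR

open MvPowerSeries Filter Topology Matrix

variable {N : ℕ} {Q : Fin N → ℂ} {F : Fin N → (Fin N → ℂ) → ℂ} {f g : (Fin N → ℂ) → ℂ}

theorem pd_mul (i : Fin N) (hf : AnalyticAt ℂ f Q) (hg : AnalyticAt ℂ g Q) :
    pd i (fun y => f y * g y) Q = pd i f Q * g Q + f Q * pd i g Q := by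
  unfold pd
  rw [fderiv_fun_mul hf.differentiableAt hg.differentiableAt]
  simp only [_root_.add_apply, _root_.smul_apply, smul_eq_mul]
  ring

theorem pd_add (i : Fin N) (hf : AnalyticAt ℂ f Q) (hg : AnalyticAt ℂ g Q) :
    pd i (fun y => f y + g y) Q = pd i f Q + pd i g Q := by
  unfold pd
  rw [fderiv_fun_add hf.differentiableAt hg.differentiableAt]
  rfl

/-- Pointwise rules for `dlt` (no hypothesis on the wild values is needed). -/
theorem dlt_mul (D : Derivation ℤ ℂ ℂ) (hf : AnalyticAt ℂ f Q) (hg : AnalyticAt ℂ g Q) :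
    dlt D F (fun y => f y * g y) Q = dlt D F f Q * g Q + f Q * dlt D F g Q := by
  unfold dlt
  have h1 : ∀ a, D (F a Q) * ∑ i, Xf F a Q i * pd i (fun y => f y * g y) Q =
      (D (F a Q) * ∑ i, Xf F a Q i * pd i f Q) * g Q +
        f Q * (D (F a Q) * ∑ i, Xf F a Q i * pd i g Q) := by
    intro a
    simp only [pd_mul _ hf hg, Finset.mul_sum, Finset.sum_mul, ← Finset.sum_add_distrib]
    refine Finset.sum_congr rfl fun i _ => ?_
    ring
  rw [Finset.sum_congr rfl fun a _ => h1 a, Finset.sum_add_distrib, ← Finset.sum_mul,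
    ← Finset.mul_sum, Derivation.leibniz, smul_eq_mul, smul_eq_mul]
  ring

theorem dlt_add (D : Derivation ℤ ℂ ℂ) (hf : AnalyticAt ℂ f Q) (hg : AnalyticAt ℂ g Q) :
    dlt D F (fun y => f y + g y) Q = dlt D F f Q + dlt D F g Q := by
  unfold dlt
  have h1 : ∀ a, D (F a Q) * ∑ i, Xf F a Q i * pd i (fun y => f y + g y) Q =
      (D (F a Q) * ∑ i, Xf F a Q i * pd i f Q) +
        (D (F a Q) * ∑ i, Xf F a Q i * pd i g Q) := by
    intro a
    simp only [pd_add _ hf hg, Finset.mul_sum, ← Finset.sum_add_distrib]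
    refine Finset.sum_congr rfl fun i _ => ?_
    ring
  rw [Finset.sum_congr rfl fun a _ => h1 a, Finset.sum_add_distrib, map_add]
  ring

theorem dlt_const (D : Derivation ℤ ℂ ℂ) (c : ℂ) : dlt D F (fun _ => c) Q = D c := by
  unfold dlt
  have h1 : ∀ a, D (F a Q) * ∑ i, Xf F a Q i * pd i (fun _ => c) Q = 0 := by
    intro a
    have h2 : ∀ i, Xf F a Q i * pd i (fun _ => c) Q = 0 := by
      intro i
      unfold pd
      rw [fderiv_fun_const]
      simp
    rw [Finset.sum_eq_zero fun i _ => h2 i, mul_zero]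
  rw [Finset.sum_eq_zero fun a _ => h1 a, sub_zero]

/-- The fields `∂ / ∂ F_a` are dual to the frame. -/
theorem Xf_frame (hJ : Jac F Q ≠ 0) (a b : Fin N) :
    ∑ i, Xf F b Q i * pd i (F a) Q = if a = b then 1 else 0 := by
  have h1 : (Mj F Q * (Mj F Q)⁻¹) a b = if a = b then 1 else 0 := by
    rw [Matrix.mul_nonsing_inv _ hJ.isUnit, Matrix.one_apply]
  rw [← h1, Matrix.mul_apply]
  refine Finset.sum_congr rfl fun i _ => ?_
  rw [mul_comm]
  rfl

/-- The fields `∂ / ∂ F_a` and the differentials of the frame. -/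
theorem frame_Xf (hJ : Jac F Q ≠ 0) (i j : Fin N) :
    ∑ a, Xf F a Q i * pd j (F a) Q = if i = j then 1 else 0 := by
  have h1 : ((Mj F Q)⁻¹ * Mj F Q) i j = if i = j then 1 else 0 := by
    rw [Matrix.nonsing_inv_mul _ hJ.isUnit, Matrix.one_apply]
  rw [← h1, Matrix.mul_apply]
  rfl

theorem dlt_frame (D : Derivation ℤ ℂ ℂ) (hJ : Jac F Q ≠ 0) (a : Fin N) : dlt D F (F a) Q = 0 := by
  unfold dlt
  simp only [Xf_frame hJ, mul_ite, mul_one, mul_zero]
  rw [Finset.sum_ite_eq, if_pos (Finset.mem_univ a), sub_self]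

theorem dlt_congr (D : Derivation ℤ ℂ ℂ) (h : f =ᶠ[𝓝 Q] g) : dlt D F f =ᶠ[𝓝 Q] dlt D F g := by
  filter_upwards [h.eventually_nhds] with y hy
  have hy1 : f =ᶠ[𝓝 y] g := hy
  have hy2 : fderiv ℂ f y = fderiv ℂ g y := hy1.fderiv_eq
  have hy3 : f y = g y := hy1.self_of_nhds
  unfold dlt pd
  rw [hy2, hy3]

/-- Change of frame for `dlt`. -/
theorem dlt_change (D : Derivation ℤ ℂ ℂ) {F' : Fin N → (Fin N → ℂ) → ℂ}
    (_hf : AnalyticAt ℂ f Q) (hJ : Jac F Q ≠ 0) (_hJ' : Jac F' Q ≠ 0)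
    (_hF : ∀ a, AnalyticAt ℂ (F a) Q) (_hF' : ∀ a, AnalyticAt ℂ (F' a) Q) :
    dlt D F' f Q = dlt D F f Q + ∑ a, dlt D F' (F a) Q * ∑ i, Xf F a Q i * pd i f Q := by
  unfold dlt
  have h1 : ∀ a', ∑ a, (∑ j, Xf F' a' Q j * pd j (F a) Q) * ∑ i, Xf F a Q i * pd i f Q =
      ∑ j, Xf F' a' Q j * pd j f Q := by
    intro a'
    have h2 : ∀ a, (∑ j, Xf F' a' Q j * pd j (F a) Q) * ∑ i, Xf F a Q i * pd i f Q =
        ∑ j, ∑ i, Xf F' a' Q j * pd i f Q * (Xf F a Q i * pd j (F a) Q) := by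
      intro a
      rw [Finset.sum_mul]
      refine Finset.sum_congr rfl fun j _ => ?_
      rw [Finset.mul_sum]
      refine Finset.sum_congr rfl fun i _ => ?_
      ring
    rw [Finset.sum_congr rfl fun a _ => h2 a, Finset.sum_comm]
    refine Finset.sum_congr rfl fun j _ => ?_
    rw [Finset.sum_comm]
    have h3 : ∀ i, ∑ a, Xf F' a' Q j * pd i f Q * (Xf F a Q i * pd j (F a) Q) =
        if i = j then Xf F' a' Q j * pd i f Q else 0 := by
      intro i
      rw [← Finset.mul_sum, frame_Xf hJ]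
      split_ifs <;> simp
    rw [Finset.sum_congr rfl fun i _ => h3 i, Finset.sum_ite_eq', if_pos (Finset.mem_univ j)]
  have h4 : ∑ a, (D (F a Q) - ∑ a', D (F' a' Q) * ∑ j, Xf F' a' Q j * pd j (F a) Q) *
      ∑ i, Xf F a Q i * pd i f Q =
      ∑ a, D (F a Q) * ∑ i, Xf F a Q i * pd i f Q -
        ∑ a', D (F' a' Q) * ∑ j, Xf F' a' Q j * pd j f Q := by
    simp only [sub_mul]
    rw [Finset.sum_sub_distrib]
    congr 1
    simp only [Finset.sum_mul (s := Finset.univ) (f := fun a' => D (F' a' Q) * _)]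
    rw [Finset.sum_comm]
    refine Finset.sum_congr rfl fun a' _ => ?_
    rw [← h1 a', Finset.mul_sum]
    refine Finset.sum_congr rfl fun a _ => ?_
    ring
  rw [h4]
  ring

/-- `Db f = Kd f + w.d f` for one frame, compared with another one: the two formal fields differ by
the field `∑ (Kd' F_a) ∂/∂F_a`. -/
theorem wq_change (D : Derivation ℤ ℂ ℂ) {F' : Fin N → (Fin N → ℂ) → ℂ}
    (hJ : Jac F Q ≠ 0) (_hJ' : Jac F' Q ≠ 0) (hF : ∀ a, AnalyticAt ℂ (F a) Q)
    (_hF' : ∀ a, AnalyticAt ℂ (F' a) Q) (i : Fin N) :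
    wq D F Q i = wq D F' Q i + ∑ a, (MT Q F)⁻¹ i a * Kd D F' Q (Tay Q (F a)) := by
  have h1 : (fun a => Kd D F' Q (Tay Q (F a))) =
      (fun a => Db D Q (Tay Q (F a))) - MT Q F *ᵥ wq D F' Q := by
    funext a
    rw [Kd_apply, Pi.sub_apply]
    congr 1
    unfold Matrix.mulVec dotProduct
    refine Finset.sum_congr rfl fun j _ => ?_
    rw [mul_comm]
    rfl
  have h2 : ∑ a, (MT Q F)⁻¹ i a * Kd D F' Q (Tay Q (F a)) =
      ((MT Q F)⁻¹ *ᵥ fun a => Kd D F' Q (Tay Q (F a))) i := rfl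
  rw [h2, h1, Matrix.mulVec_sub, Matrix.mulVec_mulVec,
    Matrix.nonsing_inv_mul _ (isUnit_MT hF hJ), Matrix.one_mulVec, Pi.sub_apply]
  unfold wq
  ring

end Pool.Agent.Lib.MP_5d4057_al.DR
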