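import Pool.Agent.Lib.MP_5d4057_al.DR.FraA
import Pool.Agent.Lib.MP_5d4057_al.QB.FmD
import Pool.Agent.Lib.MP_5d4057_al.QB.Osg

/-!
# DER, T2 (F6): homogeneity of the pointwise derivation, of the tensor `Sb` and of the solutions
-/

set_option autoImplicit false

namespace Pool.Agent.Lib.MP_5d4057_al.DR

open MvPowerSeries Filter Topology Matrix Pool.Agent.Lib.MP_5d4057_al
  Pool.Agent.Lib.MP_5d4057_al.Hyb Pool.Agent.Lib.MP_5d4057_al.HM Pool.Agent.Lib.MP_5d4057_al.QB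

variable {n : ℕ} {Γ : Subgroup (SUGroup n)} {k l : ℕ} {F : Fin (n + 1) → Vec n → ℂ} {f : Vec n → ℂ}

theorem ga_arg (i : Fin (n + 1)) (f : Vec n → ℂ) (c : ℂ) (y : Vec n) :
    pd i (fun z => f (c • z)) y = c * pd i f (c • y) := by
  unfold pd
  rw [fderiv_comp_smul]
  rfl

theorem ga_val (i : Fin (n + 1)) (f : Vec n → ℂ) (a : ℂ) (y : Vec n) :
    pd i (fun z => a * f z) y = a * pd i f y := by
  have h1 : (fun z => a * f z) = a • f := rfl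
  unfold pd
  rw [h1, fderiv_const_smul_field]
  rfl

theorem ga_congr (i : Fin (n + 1)) {f g : Vec n → ℂ} {y : Vec n} (h : f =ᶠ[𝓝 y] g) :
    pd i f y = pd i g y := by
  unfold pd
  rw [h.fderiv_eq]

/-- Transport of local statements. -/
theorem ga_ev {c : ℂ} (hc : c ≠ 0) {Q : Vec n} {p : Vec n → Prop} (h : ∀ᶠ y in 𝓝 Q, p y) :
    ∀ᶠ z in 𝓝 (c • Q), p (c⁻¹ • z) := by
  have h1 : Tendsto (fun z : Vec n => c⁻¹ • z) (𝓝 (c • Q)) (𝓝 Q) := by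
    have h2 : Tendsto (fun z : Vec n => c⁻¹ • z) (𝓝 (c • Q)) (𝓝 (c⁻¹ • c • Q)) :=
      (continuous_const_smul c⁻¹).tendsto _
    rwa [inv_smul_smul₀ hc] at h2
  exact h1.eventually h

/-- Partial derivatives of a homogeneous function. -/
theorem ga_pd (i : Fin (n + 1)) {f : Vec n → ℂ} {c a : ℂ} (hc : c ≠ 0) {y : Vec n}
    (h : ∀ᶠ z in 𝓝 y, f (c • z) = a * f z) : pd i f (c • y) = c⁻¹ * a * pd i f y := by
  have h1 := ga_arg i f c y
  have h2 : pd i (fun z => f (c • z)) y = a * pd i f y := (ga_congr i h).trans (ga_val i f a y)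
  rw [h2] at h1
  rw [mul_assoc, h1, inv_mul_cancel_left₀ hc]

theorem ga_sum (f : Vec n → ℂ) (v ξ : Vec n) : fderiv ℂ f v ξ = ∑ j, ξ j * pd j f v := by
  have h1 : ξ = ∑ j, ξ j • (Pi.single j (1 : ℂ) : Vec n) := by
    funext l
    rw [Finset.sum_apply, Finset.sum_eq_single l]
    · simp
    · intro j _ hj
      simp [Pi.single_eq_of_ne hj.symm]
    · simp
  conv_lhs => rw [h1, map_sum]
  exact Finset.sum_congr rfl fun j _ => by rw [map_smul, smul_eq_mul, pd]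

/-- The equation of Euler from homogeneity. -/
theorem ga_euler {f : Vec n → ℂ} {Q : Vec n} (hf : DifferentiableAt ℂ f Q) {m : ℤ}
    (h : ∀ᶠ c in 𝓝 (1 : ℂ), f (c • Q) = c ^ m * f Q) : ∑ j, Q j * pd j f Q = m * f Q := by
  rw [← ga_sum]
  have h1 : HasDerivAt (fun c : ℂ => f (c • Q)) (fderiv ℂ f Q Q) 1 := by
    have h2 : HasDerivAt (fun c : ℂ => c • Q) Q 1 := by
      have h3 := (hasDerivAt_id (1 : ℂ)).smul_const Q
      rwa [one_smul] at h3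
    have h4 : HasFDerivAt f (fderiv ℂ f Q) ((1 : ℂ) • Q) := by
      rw [one_smul]
      exact hf.hasFDerivAt
    exact h4.comp_hasDerivAt (1 : ℂ) h2
  have h5 : HasDerivAt (fun c : ℂ => c ^ m * f Q) ((m : ℂ) * 1 ^ (m - 1) * f Q) 1 :=
    (hasDerivAt_zpow m 1 (Or.inl one_ne_zero)).mul_const (f Q)
  have h6 := h1.unique (h5.congr_of_eventuallyEq h)
  rw [h6, _root_.one_zpow, mul_one]

/-- Homogeneity near a point of the cone. -/
theorem ga_hom (hF : ∀ i, Fm Γ (fun _ => 1) k (F i)) {c : ℂ} (hc : c ≠ 0) {Q : Vec n}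
    (hQ : Q ∈ Cone n) (a : Fin (n + 1)) : ∀ᶠ z in 𝓝 Q, F a (c • z) = (c ^ k)⁻¹ * F a z := by
  filter_upwards [(isOpen_cone n).mem_nhds hQ] with z hz
  exact (hF a).hom c hc z hz

theorem ga_pdF (hF : ∀ i, Fm Γ (fun _ => 1) k (F i)) {c : ℂ} (hc : c ≠ 0) {Q : Vec n}
    (hQ : Q ∈ Cone n) (a j : Fin (n + 1)) :
    pd j (F a) (c • Q) = (c ^ (k + 1))⁻¹ * pd j (F a) Q := by
  rw [ga_pd j hc (ga_hom hF hc hQ a), pow_succ, mul_inv, mul_comm c⁻¹]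

theorem ga_Mj (hF : ∀ i, Fm Γ (fun _ => 1) k (F i)) {c : ℂ} (hc : c ≠ 0) {Q : Vec n}
    (hQ : Q ∈ Cone n) : Mj F (c • Q) = (c ^ (k + 1))⁻¹ • Mj F Q := by
  ext a j
  exact ga_pdF hF hc hQ a j

theorem ga_Jac (hF : ∀ i, Fm Γ (fun _ => 1) k (F i)) {c : ℂ} (hc : c ≠ 0) {Q : Vec n}
    (hQ : Q ∈ Cone n) : Jac F (c • Q) = (c ^ ((n + 1) * (k + 1)))⁻¹ * Jac F Q := by
  unfold Jac
  rw [ga_Mj hF hc hQ, det_smul, Fintype.card_fin, inv_pow, ← pow_mul, mul_comm (k + 1)]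

theorem ga_Xf (hF : ∀ i, Fm Γ (fun _ => 1) k (F i)) {c : ℂ} (hc : c ≠ 0) {Q : Vec n}
    (hQ : Q ∈ Cone n) (hQJ : Jac F Q ≠ 0) (a i : Fin (n + 1)) :
    Xf F a (c • Q) i = c ^ (k + 1) * Xf F a Q i := by
  have hu : IsUnit (Mj F Q).det := hQJ.isUnit
  have hck : (c ^ (k + 1))⁻¹ ≠ 0 := inv_ne_zero (pow_ne_zero _ hc)
  have h1 := Matrix.inv_smul' (A := Mj F Q) (Units.mk0 _ hck) hu
  unfold Xf
  rw [ga_Mj hF hc hQ]
  have h2 : ((Units.mk0 _ hck) • Mj F Q) = (c ^ (k + 1))⁻¹ • Mj F Q := rfl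
  rw [← h2, h1]
  show ((Units.mk0 _ hck)⁻¹ : ℂˣ).val * _ = _
  rw [Units.val_inv_eq_inv_val, Units.val_mk0, inv_inv]

/-- `Q = - k ∑ F_a X_a`. -/
theorem ga_field (hF : ∀ i, Fm Γ (fun _ => 1) k (F i)) {Q : Vec n} (hQ : Q ∈ Cone n)
    (hQJ : Jac F Q ≠ 0) (i : Fin (n + 1)) : ∑ a, (k : ℂ) * F a Q * Xf F a Q i = -Q i := by
  have h1 : Mj F Q *ᵥ Q = fun a => -(k : ℂ) * F a Q := by
    funext a
    have h2 := (hF a).euler hQ
    rw [ga_sum] at h2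
    rw [mulVec, dotProduct, ← h2]
    exact Finset.sum_congr rfl fun j _ => mul_comm _ _
  have h3 : (Mj F Q)⁻¹ *ᵥ (Mj F Q *ᵥ Q) = Q := by
    rw [mulVec_mulVec, nonsing_inv_mul _ (hQJ.isUnit : IsUnit (Mj F Q).det), one_mulVec]
  rw [h1] at h3
  have h4 := congrFun h3 i
  rw [mulVec, dotProduct] at h4
  rw [← h4, ← Finset.sum_neg_distrib]
  refine Finset.sum_congr rfl fun a _ => ?_
  rw [Xf]
  ring

/-- Homogeneity of the pointwise derivation. -/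
theorem dlt_smul (D : Derivation ℤ ℂ ℂ) (hk : 0 < k) (hF : ∀ i, Fm Γ (fun _ => 1) k (F i))
    {m : ℤ} {f : Vec n → ℂ} {c : ℂ} (hc : c ≠ 0) {Q : Vec n} (hQ : Q ∈ Cone n) (hQJ : Jac F Q ≠ 0)
    (hf : AnalyticAt ℂ f Q) (hfe : ∑ j, Q j * pd j f Q = m * f Q)
    (hfc : ∀ᶠ y in 𝓝 Q, f (c • y) = c ^ m * f y) : dlt D F f (c • Q) = c ^ m * dlt D F f Q := by
  have _ := hk
  have _ := hf
  have hck : c ^ k ≠ 0 := pow_ne_zero _ hc
  have h0 : f (c • Q) = c ^ m * f Q := hfc.self_of_nhds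
  have hDm : D (c ^ m) = (m : ℂ) * (c ^ m * c⁻¹) * D c := by
    rw [D.leibniz_zpow, zpow_sub_one₀ hc, smul_eq_mul, zsmul_eq_mul, ← mul_assoc]
  have hDk : D ((c ^ k)⁻¹) = -(k : ℂ) * ((c ^ k)⁻¹ * c⁻¹) * D c := by
    have h1 := D.leibniz_zpow c (-(k : ℤ))
    rw [zpow_sub_one₀ hc, _root_.zpow_neg, zpow_natCast, smul_eq_mul, zsmul_eq_mul] at h1
    rw [h1]
    push_cast
    ring
  have h1 : D (f (c • Q)) = c ^ m * D (f Q) + (m : ℂ) * (c ^ m * c⁻¹) * D c * f Q := by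
    rw [h0, D.leibniz, hDm, smul_eq_mul, smul_eq_mul]
    ring
  have h2 : ∀ a, D (F a (c • Q)) =
      (c ^ k)⁻¹ * D (F a Q) - (k : ℂ) * ((c ^ k)⁻¹ * c⁻¹) * D c * F a Q := by
    intro a
    rw [(hF a).hom c hc Q hQ, D.leibniz, hDk, smul_eq_mul, smul_eq_mul]
    ring
  have h3 : ∀ a, ∑ i, Xf F a (c • Q) i * pd i f (c • Q) =
      c ^ k * c ^ m * ∑ i, Xf F a Q i * pd i f Q := by
    intro a
    rw [Finset.mul_sum]
    refine Finset.sum_congr rfl fun i _ => ?_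
    rw [ga_Xf hF hc hQ hQJ, ga_pd i hc hfc, pow_succ]
    field_simp
  have h4 : ∑ a, (k : ℂ) * F a Q * ∑ i, Xf F a Q i * pd i f Q = -(m * f Q) := by
    rw [← hfe, ← Finset.sum_neg_distrib]
    simp only [Finset.mul_sum]
    rw [Finset.sum_comm]
    refine Finset.sum_congr rfl fun i _ => ?_
    have h5 := ga_field hF hQ hQJ i
    rw [← neg_mul, ← h5, Finset.sum_mul]
    exact Finset.sum_congr rfl fun a _ => by ring
  unfold dlt
  rw [h1]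
  simp only [h2, h3]
  have h6 : ∑ a, ((c ^ k)⁻¹ * D (F a Q) - (k : ℂ) * ((c ^ k)⁻¹ * c⁻¹) * D c * F a Q) *
      (c ^ k * c ^ m * ∑ i, Xf F a Q i * pd i f Q) =
      c ^ m * ∑ a, D (F a Q) * ∑ i, Xf F a Q i * pd i f Q -
        c ^ m * c⁻¹ * D c * ∑ a, (k : ℂ) * F a Q * ∑ i, Xf F a Q i * pd i f Q := by
    rw [Finset.mul_sum, Finset.mul_sum, ← Finset.sum_sub_distrib]
    refine Finset.sum_congr rfl fun a _ => ?_
    generalize ∑ i, Xf F a Q i * pd i f Q = e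
    field_simp
  rw [h6, h4]
  ring

/-- Homogeneity of the Christoffel symbols. -/
theorem ga_Gam (hF : ∀ i, Fm Γ (fun _ => 1) k (F i)) {c : ℂ} (hc : c ≠ 0) {Q : Vec n}
    (hQ : Q ∈ Cone n) (hQJ : Jac F Q ≠ 0) (a b d : Fin (n + 1)) :
    Gam F a b d (c • Q) = c ^ k * Gam F a b d Q := by
  unfold Gam
  rw [Finset.mul_sum]
  refine Finset.sum_congr rfl fun j _ => ?_
  rw [Finset.mul_sum]
  refine Finset.sum_congr rfl fun i _ => ?_
  have h1 : ∀ᶠ z in 𝓝 Q, pd i (F a) (c • z) = (c ^ (k + 1))⁻¹ * pd i (F a) z := by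
    filter_upwards [(isOpen_cone n).mem_nhds hQ] with z hz
    exact ga_pdF hF hc hz a i
  rw [ga_pd j hc h1, ga_Xf hF hc hQ hQJ, ga_Xf hF hc hQ hQJ, pow_succ]
  have hck : c ^ k ≠ 0 := pow_ne_zero _ hc
  field_simp

theorem ga_an (hF : ∀ i, Fm Γ (fun _ => 1) k (F i)) {Q : Vec n} (hQ : Q ∈ Cone n)
    (a : Fin (n + 1)) : AnalyticAt ℂ (F a) Q :=
  QB.analyticOnNhd (isOpen_cone n) (hF a).diff Q hQ

theorem ga_nz (hF : ∀ i, Fm Γ (fun _ => 1) k (F i)) {Q : Vec n} (hQ : Q ∈ Cone n)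
    (hQJ : Jac F Q ≠ 0) : ∀ᶠ y in 𝓝 Q, y ∈ Cone n ∧ Jac F y ≠ 0 :=
  Filter.Eventually.and ((isOpen_cone n).mem_nhds hQ)
    ((an_Jac (ga_an hF hQ)).continuousAt.eventually_ne hQJ)

theorem ga_anGam (hF : ∀ i, Fm Γ (fun _ => 1) k (F i)) {Q : Vec n} (hQ : Q ∈ Cone n)
    (hQJ : Jac F Q ≠ 0) (a b d : Fin (n + 1)) : AnalyticAt ℂ (Gam F a b d) Q := by
  have h1 : Gam F a b d = fun y => ∑ j, ∑ l, pd j (pd l (F a)) y * Xf F b y j * Xf F d y l := rfl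
  rw [h1]
  refine Finset.analyticAt_fun_sum _ fun j _ => Finset.analyticAt_fun_sum _ fun i _ => ?_
  exact ((an_dd j (an_dd i (ga_an hF hQ a))).mul (an_Xf (ga_an hF hQ) hQJ b j)).mul
    (an_Xf (ga_an hF hQ) hQJ d i)

/-- `Sb` is homogeneous of degree `-1`. -/
theorem Sb_smul (D : Derivation ℤ ℂ ℂ) (hk : 0 < k) (hF : ∀ i, Fm Γ (fun _ => 1) k (F i))
    {c : ℂ} (hc : c ≠ 0) {Q : Vec n} (hQ : Q ∈ Cone n) (hQJ : Jac F Q ≠ 0)
    (i j l : Fin (n + 1)) : Sb D F i j l (c • Q) = c⁻¹ * Sb D F i j l Q := by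
  have hck : c ^ k ≠ 0 := pow_ne_zero _ hc
  have h1 : ∀ a b d, dlt D F (Gam F a b d) (c • Q) = c ^ k * dlt D F (Gam F a b d) Q := by
    intro a b d
    have h2 := dlt_smul D hk hF (m := (k : ℤ)) (f := Gam F a b d) hc hQ hQJ
      (ga_anGam hF hQ hQJ a b d) ?_ ?_
    · rwa [zpow_natCast] at h2
    · refine ga_euler (ga_anGam hF hQ hQJ a b d).differentiableAt ?_
      filter_upwards [isOpen_ne.mem_nhds (one_ne_zero (α := ℂ))] with e he
      rw [zpow_natCast]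
      exact ga_Gam hF he hQ hQJ a b d
    · filter_upwards [ga_nz hF hQ hQJ] with y hy
      rw [zpow_natCast]
      exact ga_Gam hF hc hy.1 hy.2 a b d
  unfold Sb
  rw [Finset.mul_sum]
  refine Finset.sum_congr rfl fun a _ => ?_
  rw [Finset.mul_sum]
  refine Finset.sum_congr rfl fun b _ => ?_
  rw [Finset.mul_sum]
  refine Finset.sum_congr rfl fun d _ => ?_
  rw [h1, ga_Xf hF hc hQ hQJ, ga_Mj hF hc hQ, Matrix.smul_apply, Matrix.smul_apply, smul_eq_mul,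
    smul_eq_mul, pow_succ]
  field_simp

/-- Scaling of the equations at one point. -/
theorem FS.smul {D : Derivation ℤ ℂ ℂ} (hk : 0 < k) (hF : ∀ i, Fm Γ (fun _ => 1) k (F i))
    {c : ℂ} (hc : c ≠ 0) {y : Vec n} (hy : y ∈ Cone n) (hyJ : Jac F y ≠ 0) {V V' : Vec n → Vec n} (h : FS D F y V)
    (hV : ∀ᶠ z in 𝓝 (c • y), V' z = c • V (c⁻¹ • z)) : FS D F (c • y) V' := by
  have hV' : ∀ i, (fun z => V' z i) =ᶠ[𝓝 (c • y)] fun z => c * V (c⁻¹ • z) i := by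
    intro i
    filter_upwards [hV] with z hz
    rw [hz, Pi.smul_apply, smul_eq_mul]
  have h1 : ∀ (i j : Fin (n + 1)) (z : Vec n), pd j (fun z => c * V (c⁻¹ • z) i) z =
      pd j (fun z => V z i) (c⁻¹ • z) := by
    intro i j z
    rw [ga_val j (fun z => V (c⁻¹ • z) i) c z, ga_arg j (fun z => V z i) c⁻¹ z,
      mul_inv_cancel_left₀ hc]
  have h2 : ∀ i j, pd j (fun z => V' z i) =ᶠ[𝓝 (c • y)] fun z => pd j (fun z => V z i) (c⁻¹ • z) := by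
    intro i j
    have h3 := (hV' i).fderiv (𝕜 := ℂ)
    filter_upwards [h3] with z hz
    rw [← h1]
    unfold pd
    rw [hz]
  refine ⟨fun i j l => ?_, fun i => ?_⟩
  · rw [ga_congr j (h2 i l), ga_arg j (pd l fun z => V z i) c⁻¹, inv_smul_smul₀ hc, h.1 i j l,
      Sb_smul D hk hF hc hy hyJ]
  · have h4 : ∀ j, pd j (fun z => V' z i) (c • y) = pd j (fun z => V z i) y := by
      intro j
      have h5 : pd j (fun z => V' z i) (c • y) = pd j (fun z => V z i) (c⁻¹ • c • y) :=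
        (h2 i j).self_of_nhds
      rwa [inv_smul_smul₀ hc] at h5
    have h6 : V' (c • y) i = c * V y i := by
      have h7 : V' (c • y) i = c * V (c⁻¹ • c • y) i := (hV' i).self_of_nhds
      rwa [inv_smul_smul₀ hc] at h7
    rw [h6, ← h.2 i, Finset.mul_sum]
    refine Finset.sum_congr rfl fun j _ => ?_
    rw [h4, Pi.smul_apply, smul_eq_mul]
    ring

/-- Scaling a solution. -/
theorem Sol.smul {D : Derivation ℤ ℂ ℂ} (hk : 0 < k) (hF : ∀ i, Fm Γ (fun _ => 1) k (F i))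
    {c : ℂ} (hc : c ≠ 0) {Q : Vec n} (hQ : Q ∈ Cone n) {W : Vec n → Vec n} (h : Sol D F Q W) :
    Sol D F (c • Q) fun y => (c * (c ^ ((n + 1) * (k + 1)))⁻¹) • W (c⁻¹ • y) := by
  have hcN : c ^ ((n + 1) * (k + 1)) ≠ 0 := pow_ne_zero _ hc
  refine ⟨fun i => ?_, ?_⟩
  · have h1 : AnalyticAt ℂ (fun y : Vec n => W y i) (c⁻¹ • c • Q) := by
      rw [inv_smul_smul₀ hc]
      exact h.1 i
    have h2 : AnalyticAt ℂ (fun y : Vec n => c⁻¹ • y) (c • Q) :=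
      (c⁻¹ • ContinuousLinearMap.id ℂ (Vec n)).analyticAt _
    have h3 : AnalyticAt ℂ (fun y : Vec n => W (c⁻¹ • y) i) (c • Q) :=
      AnalyticAt.fun_comp (g := fun y : Vec n => W y i) (f := fun y : Vec n => c⁻¹ • y) h1 h2
    exact analyticAt_const.mul h3
  · have h4 := ga_ev hc (Filter.Eventually.and ((isOpen_cone n).mem_nhds hQ) h.2)
    filter_upwards [h4] with z hz hzJ
    obtain ⟨hz1, hz2⟩ := hz
    have hzc : z = c • c⁻¹ • z := (smul_inv_smul₀ hc z).symm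
    have h5 : Jac F (c⁻¹ • z) ≠ 0 := by
      intro h6
      rw [hzc, ga_Jac hF hc hz1, h6, mul_zero] at hzJ
      exact hzJ rfl
    rw [hzc]
    refine FS.smul hk hF hc hz1 h5 (hz2 h5) ?_
    rw [← hzc]
    have h7 : z ∈ Cone n := by
      rw [hzc]
      exact smul_mem_cone hc hz1
    filter_upwards [(isOpen_cone n).mem_nhds h7] with y hy
    have h8 : c⁻¹ • y ∈ Cone n := smul_mem_cone (inv_ne_zero hc) hy
    have h9 : Jac F y = (c ^ ((n + 1) * (k + 1)))⁻¹ * Jac F (c⁻¹ • y) := by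
      rw [← ga_Jac hF hc h8, smul_inv_smul₀ hc]
    rw [h9, smul_smul, smul_smul, mul_inv, inv_inv]
    congr 1
    field_simp

end Pool.Agent.Lib.MP_5d4057_al.DR
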