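import Pool.Agent.Lib.MP_5d4057_al.DR.Loc
import Pool.Agent.Lib.MP_5d4057_al.DR.GloA

/-!
# DER, T2 (F6): the global solution

Homogeneity: `DR/GloA.lean` (dlt_smul, Sb_smul, Sol.smul); `DR/GloB.lean`, `DR/GloG.lean`: the global solution.
-/
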