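import Pool.Agent.Lib.MP_5d4057_al.DR.Loc
import Pool.Agent.Lib.MP_5d4057_al.DR.Cont
import Pool.Agent.Lib.MP_5d4057_al.RG.UC

/-!
# DER, T2 (F6): the cone is connected, two global solutions (helper84)
-/

set_option autoImplicit false

namespace Pool.Agent.Lib.MP_5d4057_al.DR

open MvPowerSeries Filter Topology Matrix Pool.Agent.Lib.MP_5d4057_al
  Pool.Agent.Lib.MP_5d4057_al.Hyb Pool.Agent.Lib.MP_5d4057_al.HM Pool.Agent.Lib.MP_5d4057_al.QB

variable {n : ℕ} {Γ : Subgroup (SUGroup n)} {k l : ℕ} {F : Fin (n + 1) → Vec n → ℂ} {f : Vec n → ℂ}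

theorem cone_conn : IsPreconnected (Cone n) := RG.isPreconnected_cone n

/-- A matrix which kills a neighbourhood of a point is zero. -/
theorem mat_eq_zero {L : Mat (n + 1)} {Q : Vec n} (h : ∀ᶠ y in 𝓝 Q, L *ᵥ y = 0) : L = 0 := by
  have h0 : L *ᵥ Q = 0 := h.self_of_nhds
  have hz : ∀ ξ : Vec n, L *ᵥ ξ = 0 := by
    intro ξ
    have hc : Continuous fun t : ℂ => Q + t • ξ := by fun_prop
    have ht : Tendsto (fun t : ℂ => Q + t • ξ) (𝓝 0) (𝓝 Q) := by
      have := hc.tendsto 0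
      rwa [zero_smul, add_zero] at this
    have h1 : ∀ᶠ t in 𝓝 (0 : ℂ), L *ᵥ (Q + t • ξ) = 0 := ht.eventually h
    have h2 : ∀ᶠ t in 𝓝[≠] (0 : ℂ), L *ᵥ (Q + t • ξ) = 0 ∧ t ∈ ({0}ᶜ : Set ℂ) :=
      (h1.filter_mono nhdsWithin_le_nhds).and self_mem_nhdsWithin
    obtain ⟨t, ht1, ht2⟩ := h2.exists
    rw [mulVec_add, h0, zero_add, mulVec_smul] at ht1
    exact (smul_eq_zero.1 ht1).resolve_left ht2
  ext1 i j
  have h1 := congrFun (hz (Pi.single j 1)) i
  rwa [mulVec_single_one] at h1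

/-- The fields `J` times a linear field. -/
def JLin (F : Fin (n + 1) → Vec n → ℂ) : AddSubgroup (Vec n → Vec n) where
  carrier := {l | ∃ L : Mat (n + 1), l = fun v => Jac F v • (L *ᵥ v)}
  add_mem' := by
    rintro _ _ ⟨L, rfl⟩ ⟨L', rfl⟩
    refine ⟨L + L', ?_⟩
    funext v
    rw [Pi.add_apply, add_mulVec, smul_add]
  zero_mem' := ⟨0, by funext v; rw [zero_mulVec, smul_zero]; rfl⟩
  neg_mem' := by
    rintro _ ⟨L, rfl⟩
    refine ⟨-L, ?_⟩
    funext v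
    rw [Pi.neg_apply, neg_mulVec, smul_neg]

/-- An element of `JLin` which vanishes near one point of the cone is zero. -/
theorem JLin_zero (hF : ∀ i, Fm Γ (fun _ => 1) k (F i)) (hJ : ∃ v ∈ Cone n, Jac F v ≠ 0)
    {L : Mat (n + 1)} {Q : Vec n} (hQ : Q ∈ Cone n)
    (h : ∀ᶠ y in 𝓝 Q, Jac F y • (L *ᵥ y) = 0) : L = 0 := by
  obtain ⟨y, hy1, hy2, hy3⟩ := ((Jac_ne hF hJ hQ).and_eventually
    ((eventually_eventually_nhds.2 h).and ((isOpen_cone n).mem_nhds hQ))).exists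
  have hc : ContinuousAt (Jac F) y := (an_Jac fun i => an_form (hF i) y hy3).continuousAt
  refine mat_eq_zero (Q := y) ?_
  filter_upwards [hy2, hc.eventually_ne hy1] with z h1 h2
  exact (smul_eq_zero.1 h1).resolve_left h2

/-- Two global solutions differ by `J` times one linear field. -/
theorem global_unique {D : Derivation ℤ ℂ ℂ} (hF : ∀ i, Fm Γ (fun _ => 1) k (F i))
    (hJ : ∃ v ∈ Cone n, Jac F v ≠ 0) {W W' : Vec n → Vec n}
    (h : ∀ Q ∈ Cone n, Sol D F Q W) (h' : ∀ Q ∈ Cone n, Sol D F Q W') :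
    ∃ L : Mat (n + 1), ∀ v ∈ Cone n, W' v = W v + Jac F v • (L *ᵥ v) := by
  obtain ⟨v, hv, -⟩ := id hJ
  obtain ⟨l, ⟨L, rfl⟩, hL⟩ := diff_on (Ω := Cone n) (P := fun Q W => Sol D F Q W) (L := JLin F)
    (by
      rintro x hx W hW _ ⟨L, rfl⟩
      exact hW.add_linear (fun i => an_form (hF i) x hx) L)
    (by
      intro x hx W W' hW hW'
      obtain ⟨L, hL⟩ := hW.unique hF hJ hx hW'
      exact ⟨_, ⟨L, rfl⟩, hL⟩)
    (by
      rintro _ ⟨L, rfl⟩ x hx hl y _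
      have h0 := JLin_zero hF hJ hx hl
      subst h0
      simp only [zero_mulVec, smul_zero])
    (isOpen_cone n) (isOpen_cone n) cone_conn subset_rfl h h' hv
  exact ⟨L, fun y hy => (hL y hy).self_of_nhds⟩

end Pool.Agent.Lib.MP_5d4057_al.DR
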