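import Pool.Agent.Lib.MP_5d4057_al.DR.Glo
import Pool.Agent.Lib.MP_5d4057_al.DR.GloB
import Pool.Agent.Lib.MP_5d4057_al.DR.Ext
import Pool.Agent.Lib.MP_5d4057_al.DR.Cont

/-!
# DER, T2 (F6): the global solution (helper15)
-/

set_option autoImplicit false

namespace Pool.Agent.Lib.MP_5d4057_al.DR

open MvPowerSeries Filter Topology Matrix Pool.Agent.Lib.MP_5d4057_al
  Pool.Agent.Lib.MP_5d4057_al.Hyb Pool.Agent.Lib.MP_5d4057_al.HM Pool.Agent.Lib.MP_5d4057_al.QB

variable {n : ℕ} {Γ : Subgroup (SUGroup n)} {k l : ℕ} {F : Fin (n + 1) → Vec n → ℂ} {f : Vec n → ℂ}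

/-- The additive group of the fields `J • L y`. -/
noncomputable def JL (F : Fin (n + 1) → Vec n → ℂ) : AddSubgroup (Vec n → Vec n) where
  carrier := {u | ∃ L : Mat (n + 1), u = fun y => Jac F y • (L *ᵥ y)}
  zero_mem' := ⟨0, by funext y; simp⟩
  add_mem' := by
    rintro u v ⟨L, rfl⟩ ⟨M, rfl⟩
    exact ⟨L + M, by funext y; simp only [Pi.add_apply]; rw [add_mulVec, smul_add]⟩
  neg_mem' := by
    rintro u ⟨L, rfl⟩
    exact ⟨-L, by funext y; simp only [Pi.neg_apply]; rw [neg_mulVec, smul_neg]⟩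

theorem an_JL (hF : ∀ i, AnalyticOnNhd ℂ (F i) (Cone n)) (L : Mat (n + 1)) (i : Fin (n + 1)) :
    AnalyticOnNhd ℂ (fun y => (Jac F y • (L *ᵥ y)) i) (Cone n) := by
  intro Q hQ
  have h1 : AnalyticAt ℂ (fun y : Vec n => (L *ᵥ y) i) Q := by
    have : (fun y : Vec n => (L *ᵥ y) i) = fun y => ∑ j, L i j * y j := by
      funext y; rfl
    rw [this]
    refine Finset.analyticAt_fun_sum _ fun j _ => analyticAt_const.mul ?_
    exact (ContinuousLinearMap.proj (R := ℂ) (φ := fun _ : Fin (n + 1) => ℂ) j).analyticAt Q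
  exact (an_Jac fun a => hF a Q hQ).mul h1

/-- **(F6)** The global solution. -/
theorem exists_global (D : Derivation ℤ ℂ ℂ) (hd : Dep Γ) (hfr : Frs Γ) (hk : 0 < k)
    (hF : ∀ i, Fm Γ (fun _ => 1) k (F i)) (hJ : ∃ v ∈ Cone n, Jac F v ≠ 0) :
    ∃ W : Vec n → Vec n, (∀ Q ∈ Cone n, Sol D F Q W) ∧
      ∀ c : ℂ, c ≠ 0 → ∀ v ∈ Cone n, W (c • v) = (c * (c ^ ((n + 1) * (k + 1)))⁻¹) • W v := by
  have hFa : ∀ i, AnalyticOnNhd ℂ (F i) (Cone n) := fun i => an_form (hF i)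
  obtain ⟨W, hW⟩ := exists_cont (E := Vec n) (V := Vec n) (Ω := Om n) (P := fun x W => Sol D F x W)
    (L := JL F)
    (fun x _ W W' h he => h.congr he)
    (fun x hx W h u hu => by
      obtain ⟨L, rfl⟩ := hu
      exact h.add_linear (fun i => hFa i x (om_sub_cone n hx)) L)
    (fun x hx => by
      obtain ⟨W, hW⟩ := exists_sol D hd hfr hk hF (om_sub_cone n hx)
      exact ⟨W, hW.eventually⟩)
    (fun x hx W W' h h' => by
      obtain ⟨L, hL⟩ := Sol.unique hF hJ (om_sub_cone n hx) h h'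
      exact ⟨fun y => Jac F y • (L *ᵥ y), ⟨L, rfl⟩, hL⟩)
    (fun u hu x hx h0 y hy => by
      obtain ⟨L, rfl⟩ := hu
      funext i
      have a1 : AnalyticOnNhd ℂ (fun y => (Jac F y • (L *ᵥ y)) i) (Om n) :=
        (an_JL hFa L i).mono (om_sub_cone n)
      have := a1.eqOn_zero_of_preconnected_of_eventuallyEq_zero (convex_om n).isPreconnected hx
        (by filter_upwards [h0] with z hz; rw [hz]; rfl) hy
      exact this)
    (isOpen_om n) (convex_om n)
  set N' := (n + 1) * (k + 1) with hN'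
  set d : ℤ := 1 - (N' : ℤ) with hd'
  have hcd : ∀ c : ℂ, c ≠ 0 → c ^ d = c * (c ^ N')⁻¹ := by
    intro c hc
    rw [hd', zpow_sub₀ hc, zpow_one, zpow_natCast, div_eq_mul_inv]
  have hdiff : ∀ a ∈ Om n, DifferentiableAt ℂ W a := by
    intro a ha
    exact differentiableAt_pi.2 fun i => ((hW a ha).1 i).differentiableAt
  have heul : ∀ a ∈ Om n, fderiv ℂ W a a = (d : ℂ) • W a := by
    intro a ha
    funext i
    have h1 := (Sol.euler hF hJ (om_sub_cone n ha) (hW a ha)).self_of_nhds i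
    have h2 : fderiv ℂ W a a i = fderiv ℂ (fun z => W z i) a a := by
      rw [fderiv_apply (hdiff a ha) i]; rfl
    rw [h2, fderiv_apply_sum, h1, Pi.smul_apply, smul_eq_mul, hd', hN']
    push_cast
    ring
  obtain ⟨Wt, h1, h2, -⟩ := exists_hext (isOpen_om n) (convex_om n) (zero_notMem_om n) hdiff heul
  refine ⟨Wt, fun Q hQ => ?_, fun c hc v hv => ?_⟩
  · obtain ⟨c, hc, hcQ⟩ := exists_smul_mem_om hQ
    have h3 := Sol.smul (c := c⁻¹) hk hF (inv_ne_zero hc) (om_sub_cone n hcQ) (hW _ hcQ)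
    rw [smul_smul, inv_mul_cancel₀ hc, one_smul, inv_inv] at h3
    refine h3.congr ?_
    filter_upwards [h1 Q c hc hcQ] with z hz
    rw [hz, hcd c hc, ← hN', inv_pow, mul_inv, inv_inv]
  · rw [h2 v (exists_smul_mem_om hv) c hc, hcd c hc]

end Pool.Agent.Lib.MP_5d4057_al.DR
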