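import Pool.Agent.Lib.MP_5d4057_al.DR.GmA

/-!
# DER, T2 (F3): forms, the Christoffel symbols are quotients of forms
-/

set_option autoImplicit false

namespace Pool.Agent.Lib.MP_5d4057_al.DR

open MvPowerSeries Filter Topology Matrix Pool.Agent.Lib.MP_5d4057_al
  Pool.Agent.Lib.MP_5d4057_al.Hyb Pool.Agent.Lib.MP_5d4057_al.HM Pool.Agent.Lib.MP_5d4057_al.QB

variable {n : ℕ} {Γ : Subgroup (SUGroup n)} {k l : ℕ} {F : Fin (n + 1) → Vec n → ℂ} {f : Vec n → ℂ}

/-- The cone is preconnected. -/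
theorem cone_pre (m : ℕ) : IsPreconnected (Cone m) := by
  -- the central line
  have hLq : ∀ c : ℂ, q (Pi.single (Fin.last m) c : Vec m) = -‖c‖ ^ 2 := fun c => by
    rw [q_eq, Pi.single_eq_same]
    have h1 : ∀ i : Fin m, ‖(Pi.single (Fin.last m) c : Vec m) i.castSucc‖ ^ 2 = 0 := fun i => by
      rw [Pi.single_eq_of_ne (Fin.castSucc_lt_last i).ne, norm_zero]
      norm_num
    rw [Finset.sum_congr rfl fun i _ => h1 i, Finset.sum_const_zero, zero_sub]
  have hL : IsPreconnected ((fun c : ℂ => (Pi.single (Fin.last m) c : Vec m)) '' {0}ᶜ) := by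
    have hcs : Continuous fun c : ℂ => (Pi.single (Fin.last m) c : Vec m) := by
      refine continuous_pi fun i => ?_
      by_cases hi : i = Fin.last m
      · subst hi
        simp only [Pi.single_eq_same]
        exact continuous_id
      · simp only [Pi.single_eq_of_ne hi]
        exact continuous_const
    refine (isConnected_compl_singleton_of_one_lt_rank ?_ (0 : ℂ)).isPreconnected.image _
      hcs.continuousOn
    rw [Complex.rank_real_complex]
    exact Nat.one_lt_ofNat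
  refine isPreconnected_of_forall (base m) fun y hy => ?_
  have hy' : q y < 0 := hy
  rw [q_eq] at hy'
  have hsum : 0 ≤ ∑ i : Fin m, ‖y i.castSucc‖ ^ 2 := Finset.sum_nonneg fun i _ => by positivity
  have hlast : y (Fin.last m) ≠ 0 := by
    intro h
    rw [h, norm_zero] at hy'
    nlinarith
  let g : ℝ → Vec m := fun s i => if i = Fin.last m then y i else (s : ℂ) * y i
  have hg : Continuous g := by
    refine continuous_pi fun i => ?_
    by_cases hi : i = Fin.last m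
    · simp only [g, if_pos hi]
      exact continuous_const
    · simp only [g, if_neg hi]
      exact Complex.continuous_ofReal.mul continuous_const
  refine ⟨(g '' Set.Icc 0 1) ∪ ((fun c : ℂ => (Pi.single (Fin.last m) c : Vec m)) '' {0}ᶜ),
    Set.union_subset ?_ ?_, Or.inr ⟨1, one_ne_zero, rfl⟩, Or.inl ⟨1, ⟨zero_le_one, le_rfl⟩, ?_⟩, ?_⟩
  · rintro _ ⟨s, ⟨hs0, hs1⟩, rfl⟩
    show q (g s) < 0
    rw [q_eq]
    have h1 : ∀ i : Fin m, ‖g s i.castSucc‖ ^ 2 ≤ ‖y i.castSucc‖ ^ 2 := fun i => by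
      have h2 : g s i.castSucc = (s : ℂ) * y i.castSucc :=
        if_neg (Fin.castSucc_lt_last i).ne
      rw [h2, norm_mul, Complex.norm_real, Real.norm_of_nonneg hs0]
      have h3 : s * ‖y i.castSucc‖ ≤ ‖y i.castSucc‖ := mul_le_of_le_one_left (norm_nonneg _) hs1
      exact pow_le_pow_left₀ (by positivity) h3 2
    have h2 : g s (Fin.last m) = y (Fin.last m) := if_pos rfl
    rw [h2]
    have := Finset.sum_le_sum fun i (_ : i ∈ Finset.univ) => h1 i
    linarith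
  · rintro _ ⟨c, hc, rfl⟩
    show q _ < 0
    rw [hLq]
    have : 0 < ‖c‖ := norm_pos_iff.2 hc
    nlinarith
  · funext i
    by_cases hi : i = Fin.last m
    · exact if_pos hi
    · refine (if_neg hi).trans ?_
      rw [Complex.ofReal_one, one_mul]
  · refine IsPreconnected.union (Pi.single (Fin.last m) (y (Fin.last m))) ?_ ?_
      (isPreconnected_Icc.image _ hg.continuousOn) hL
    · refine ⟨0, ⟨le_rfl, zero_le_one⟩, ?_⟩
      funext i
      by_cases hi : i = Fin.last m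
      · subst hi
        rw [Pi.single_eq_same]
        exact if_pos rfl
      · rw [Pi.single_eq_of_ne hi]
        refine (if_neg hi).trans ?_
        rw [Complex.ofReal_zero, zero_mul]
    · exact ⟨y (Fin.last m), hlast, rfl⟩

/-- `f` and its pointwise derivation are analytic at `Q`, and the Taylor series of the latter is the
formal derivation of the Taylor series. -/
def Gd {N : ℕ} (D : Derivation ℤ ℂ ℂ) (F : Fin N → (Fin N → ℂ) → ℂ) (Q : Fin N → ℂ)
    (f : (Fin N → ℂ) → ℂ) : Prop :=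
  AnalyticAt ℂ f Q ∧ AnalyticAt ℂ (dlt D F f) Q ∧ Tay Q (dlt D F f) = Kd D F Q (Tay Q f)

theorem Gd.mul {N : ℕ} {D : Derivation ℤ ℂ ℂ} {F : Fin N → (Fin N → ℂ) → ℂ} {Q : Fin N → ℂ}
    {f g : (Fin N → ℂ) → ℂ} (hf : Gd D F Q f) (hg : Gd D F Q g) :
    Gd D F Q fun y => f y * g y := by
  have h1 : dlt D F (fun y => f y * g y) =ᶠ[𝓝 Q]
      fun y => dlt D F f y * g y + f y * dlt D F g y := by
    filter_upwards [hf.1.eventually_analyticAt, hg.1.eventually_analyticAt] with y h2 h3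
    exact dlt_mul D h2 h3
  have h2 : AnalyticAt ℂ (fun y => dlt D F f y * g y) Q := hf.2.1.mul hg.1
  have h3 : AnalyticAt ℂ (fun y => f y * dlt D F g y) Q := hf.1.mul hg.2.1
  refine ⟨hf.1.mul hg.1, (h2.add h3).congr h1.symm, ?_⟩
  rw [Tay_congr h1, Tay_add h2 h3, Tay_mul hf.2.1 hg.1, Tay_mul hf.1 hg.2.1, Tay_mul hf.1 hg.1, hf.2.2,
    hg.2.2, Derivation.leibniz, smul_eq_mul, smul_eq_mul]
  ring

theorem Gd.div {N : ℕ} {D : Derivation ℤ ℂ ℂ} {F : Fin N → (Fin N → ℂ) → ℂ} {Q : Fin N → ℂ}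
    {φ ψ G : (Fin N → ℂ) → ℂ} (hφ : Gd D F Q φ) (hψ : Gd D F Q ψ) (h0 : ψ Q ≠ 0)
    (hG : ∀ᶠ y in 𝓝 Q, G y = φ y / ψ y) : Gd D F Q G := by
  have hne : ∀ᶠ y in 𝓝 Q, ψ y ≠ 0 := hψ.1.continuousAt.eventually_ne h0
  have hGan : AnalyticAt ℂ G Q := by
    refine AnalyticAt.congr (f := fun y => φ y / ψ y) (hφ.1.div hψ.1 h0) ?_
    filter_upwards [hG] with y hy
    exact hy.symm
  have hmul : φ =ᶠ[𝓝 Q] fun y => G y * ψ y := by
    filter_upwards [hG, hne] with y hy h1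
    rw [hy, div_mul_cancel₀ _ h1]
  have h1 : dlt D F φ =ᶠ[𝓝 Q] fun y => dlt D F G y * ψ y + G y * dlt D F ψ y := by
    filter_upwards [dlt_congr D hmul, hGan.eventually_analyticAt, hψ.1.eventually_analyticAt]
      with y h2 h3 h4
    rw [h2]
    exact dlt_mul D h3 h4
  have hd : dlt D F G =ᶠ[𝓝 Q] fun y => (dlt D F φ y - G y * dlt D F ψ y) / ψ y := by
    filter_upwards [h1, hne] with y h2 h3
    rw [h2, add_sub_cancel_right, mul_div_cancel_right₀ _ h3]
  have hdan : AnalyticAt ℂ (dlt D F G) Q := by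
    refine AnalyticAt.congr (f := fun y => (dlt D F φ y - G y * dlt D F ψ y) / ψ y) ?_ hd.symm
    exact (hφ.2.1.sub (hGan.mul hψ.2.1)).div hψ.1 h0
  refine ⟨hGan, hdan, ?_⟩
  have h2 : AnalyticAt ℂ (fun y => dlt D F G y * ψ y) Q := hdan.mul hψ.1
  have h3 : AnalyticAt ℂ (fun y => G y * dlt D F ψ y) Q := hGan.mul hψ.2.1
  have e1 : Tay Q (dlt D F φ) = Tay Q (dlt D F G) * Tay Q ψ + Tay Q G * Tay Q (dlt D F ψ) := by
    rw [Tay_congr h1, Tay_add h2 h3, Tay_mul hdan hψ.1, Tay_mul hGan hψ.2.1]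
  have e2 : Kd D F Q (Tay Q φ) = Kd D F Q (Tay Q G) * Tay Q ψ + Tay Q G * Kd D F Q (Tay Q ψ) := by
    rw [Tay_congr hmul, Tay_mul hGan hψ.1, Derivation.leibniz, smul_eq_mul, smul_eq_mul]
    ring
  rw [hφ.2.2, e2, hψ.2.2] at e1
  have e3 := add_right_cancel e1
  have hT0 : Tay Q ψ ≠ 0 := by
    intro h
    apply h0
    rw [← Tay_const_coeff Q ψ, h, map_zero]
  exact (mul_right_cancel₀ hT0 e3).symm

theorem dlt_form (D : Derivation ℤ ℂ ℂ) (hd : Dep Γ) (hk : 0 < k) (hl : 0 < l)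
    (hF : ∀ i, Fm Γ (fun _ => 1) k (F i)) (hf : Fm Γ (fun _ => 1) l f) {Q : Vec n}
    (hQ : Q ∈ Cone n) (hQJ : Jac F Q ≠ 0) :
    AnalyticAt ℂ (dlt D F f) Q ∧ Tay Q (dlt D F f) = Kd D F Q (Tay Q f) :=
  dlt_spec D (isOpen_cone n) (cone_pre n) (fun a => an_form (hF a)) (an_form hf)
    (algO_form hd hk hl hF hf) ⟨Q, hQ, hQJ⟩ hQ hQJ

theorem gd_form (D : Derivation ℤ ℂ ℂ) (hd : Dep Γ) (hk : 0 < k) (hl : 0 < l)
    (hF : ∀ i, Fm Γ (fun _ => 1) k (F i)) (hf : Fm Γ (fun _ => 1) l f) {Q : Vec n}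
    (hQ : Q ∈ Cone n) (hQJ : Jac F Q ≠ 0) : Gd D F Q f :=
  ⟨an_form hf Q hQ, dlt_form D hd hk hl hF hf hQ hQJ⟩

theorem Jac_near (hF : ∀ i, Fm Γ (fun _ => 1) k (F i)) {Q : Vec n}
    (hQ : Q ∈ Cone n) (hQJ : Jac F Q ≠ 0) : ∀ᶠ y in 𝓝 Q, y ∈ Cone n ∧ Jac F y ≠ 0 :=
  Filter.Eventually.and ((isOpen_cone n).mem_nhds hQ)
    ((an_form (form_Jac hF) Q hQ).continuousAt.eventually_ne hQJ)

theorem gd_Gam (D : Derivation ℤ ℂ ℂ) (hd : Dep Γ) (hk : 0 < k)
    (hF : ∀ i, Fm Γ (fun _ => 1) k (F i)) (a b c : Fin (n + 1)) {Q : Vec n}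
    (hQ : Q ∈ Cone n) (hQJ : Jac F Q ≠ 0) : Gd D F Q (Gam F a b c) := by
  obtain ⟨l, φ, hl, hφ, h⟩ := form_Gam hk hF a b c
  have h1 : Gd D F Q φ := gd_form D hd hk hl hF hφ hQ hQJ
  have h2 : Gd D F Q (Jac F) := gd_form D hd hk (by positivity) hF (form_Jac hF) hQ hQJ
  refine Gd.div h1 (h2.mul h2) (mul_ne_zero hQJ hQJ) ?_
  filter_upwards [Jac_near hF hQ hQJ] with y hy
  rw [h y hy.1 hy.2, pow_two]

theorem dlt_Gam (D : Derivation ℤ ℂ ℂ) (hd : Dep Γ) (hk : 0 < k)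
    (hF : ∀ i, Fm Γ (fun _ => 1) k (F i)) (a b c : Fin (n + 1)) {Q : Vec n}
    (hQ : Q ∈ Cone n) (hQJ : Jac F Q ≠ 0) :
    AnalyticAt ℂ (dlt D F (Gam F a b c)) Q ∧
      Tay Q (dlt D F (Gam F a b c)) = Kd D F Q (Tay Q (Gam F a b c)) :=
  (gd_Gam D hd hk hF a b c hQ hQJ).2

/-- **(F3)** The second derivatives of the formal field are the Taylor series of `Sb`. -/
theorem hess_T (D : Derivation ℤ ℂ ℂ) (hd : Dep Γ) (hk : 0 < k)
    (hF : ∀ i, Fm Γ (fun _ => 1) k (F i)) {Q : Vec n} (hQ : Q ∈ Cone n) (hQJ : Jac F Q ≠ 0)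
    (i j l : Fin (n + 1)) : AnalyticAt ℂ (Sb D F i j l) Q ∧
      pderiv ℂ j (pderiv ℂ l (wq D F Q i)) = Tay Q (Sb D F i j l) := by
  have hFa : ∀ a, AnalyticAt ℂ (F a) Q := fun a => an_form (hF a) Q hQ
  have hX : ∀ a, AnalyticAt ℂ (fun y => Xf F a y i) Q := fun a => an_Xf hFa hQJ a i
  have hG : ∀ a b c, AnalyticAt ℂ (dlt D F (Gam F a b c)) Q := fun a b c =>
    (dlt_Gam D hd hk hF a b c hQ hQJ).1
  have hM : ∀ b j, AnalyticAt ℂ (fun y => Mj F y b j) Q := fun b j => an_dd j (hFa b)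
  have h1 : ∀ a b c, AnalyticAt ℂ (fun y => Xf F a y i * dlt D F (Gam F a b c) y) Q :=
    fun a b c => (hX a).mul (hG a b c)
  have h2 : ∀ a b c, AnalyticAt ℂ
      (fun y => Xf F a y i * dlt D F (Gam F a b c) y * Mj F y b j) Q :=
    fun a b c => (h1 a b c).mul (hM b j)
  have h3 : ∀ a b c, AnalyticAt ℂ
      (fun y => Xf F a y i * dlt D F (Gam F a b c) y * Mj F y b j * Mj F y c l) Q :=
    fun a b c => (h2 a b c).mul (hM c l)
  have h4 : ∀ a b, AnalyticAt ℂ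
      (fun y => ∑ c, Xf F a y i * dlt D F (Gam F a b c) y * Mj F y b j * Mj F y c l) Q :=
    fun a b => Finset.analyticAt_fun_sum _ fun c _ => h3 a b c
  have h5 : ∀ a, AnalyticAt ℂ
      (fun y => ∑ b, ∑ c, Xf F a y i * dlt D F (Gam F a b c) y * Mj F y b j * Mj F y c l) Q :=
    fun a => Finset.analyticAt_fun_sum _ fun b _ => h4 a b
  have h6 : AnalyticAt ℂ (Sb D F i j l) Q :=
    Finset.analyticAt_fun_sum _ fun a _ => h5 a
  refine ⟨h6, ?_⟩
  rw [hess_wq D hQJ hFa i j l]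
  have h7 : Tay Q (Sb D F i j l) = Tay Q (fun y => ∑ a, ∑ b, ∑ c, Xf F a y i *
      dlt D F (Gam F a b c) y * Mj F y b j * Mj F y c l) := rfl
  rw [h7, Tay_sum _ _ fun a _ => h5 a]
  refine Finset.sum_congr rfl fun a _ => ?_
  rw [Tay_sum _ _ fun b _ => h4 a b]
  refine Finset.sum_congr rfl fun b _ => ?_
  rw [Tay_sum _ _ fun c _ => h3 a b c]
  refine Finset.sum_congr rfl fun c _ => ?_
  rw [Tay_mul (h2 a b c) (hM c l), Tay_mul (h1 a b c) (hM b j), Tay_mul (hX a) (hG a b c),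
    T_Xf hFa hQJ a i, (dlt_Gam D hd hk hF a b c hQ hQJ).2, MT_map hFa b j, MT_map hFa c l]

private theorem pderiv_lin (Q : Fin (n + 1) → ℂ) (L : Fin (n + 1) → ℂ) (j : Fin (n + 1)) :
    pderiv ℂ j (∑ m, C (L m) * (C (Q m) + MvPowerSeries.X m) : MvPowerSeries (Fin (n + 1)) ℂ) = C (L j) := by
  rw [map_sum, Finset.sum_eq_single j]
  · rw [Derivation.leibniz, pderiv_C, map_add, pderiv_C, pderiv_X_self, smul_eq_mul, smul_zero,
      add_zero, zero_add, mul_one]
  · intro m _ hm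
    rw [Derivation.leibniz, pderiv_C, map_add, pderiv_C, pderiv_X_of_ne hm, smul_zero,
      add_zero, zero_add, smul_zero]
  · intro h
    exact absurd (Finset.mem_univ j) h

private theorem euler_w (D : Derivation ℤ ℂ ℂ)
    (hF : ∀ i, Fm Γ (fun _ => 1) k (F i)) {Q : Vec n} (hQ : Q ∈ Cone n) (hQJ : Jac F Q ≠ 0)
    (i : Fin (n + 1)) : ∑ j, (C (Q j) + MvPowerSeries.X j) * pderiv ℂ j (wq D F Q i) = wq D F Q i := by
  refine euler_wq D (k := k) hQJ (fun a => an_form (hF a) Q hQ) (fun a => ?_) i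
  filter_upwards [(isOpen_cone n).mem_nhds hQ] with y hy
  exact euler_pd (hF a) hy

/-- The easy direction: a solution is flat. -/
theorem flat_of_FS (D : Derivation ℤ ℂ ℂ) (hd : Dep Γ) (hk : 0 < k)
    (hF : ∀ i, Fm Γ (fun _ => 1) k (F i)) {Q : Vec n} (hQ : Q ∈ Cone n) (hQJ : Jac F Q ≠ 0)
    {V : Vec n → Vec n} (hV : ∀ i, AnalyticAt ℂ (fun y => V y i) Q)
    (h : ∀ᶠ y in 𝓝 Q, FS D F y V) : Flat D F Q V := by
  refine ⟨hV, ?_⟩
  have key : ∀ i, ∃ L : Fin (n + 1) → ℂ, Tay Q (fun y => V y i) - wq D F Q i =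
      ∑ j, C (L j) * (C (Q j) + MvPowerSeries.X j) := by
    intro i
    apply eq_linear
    · intro j l
      have h1 : Tay Q (pd j (pd l fun z => V z i)) = Tay Q (Sb D F i j l) := by
        apply Tay_congr
        filter_upwards [h] with y hy
        exact hy.1 i j l
      rw [Tay_pd j (an_dd l (hV i)), Tay_pd l (hV i)] at h1
      rw [map_sub, map_sub, h1, (hess_T D hd hk hF hQ hQJ i j l).2, sub_self]
    · have h1 := Tay_euler (k := 1) (hV i) (by
        filter_upwards [h] with y hy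
        rw [Int.cast_one, one_mul]
        exact hy.2 i)
      rw [Int.cast_one, one_mul] at h1
      have h2 := euler_w D hF hQ hQJ i
      have h3 : ∀ j, (C (Q j) + MvPowerSeries.X j) *
          pderiv ℂ j (Tay Q (fun y => V y i) - wq D F Q i) =
          (C (Q j) + MvPowerSeries.X j) * pderiv ℂ j (Tay Q fun y => V y i) -
          (C (Q j) + MvPowerSeries.X j) * pderiv ℂ j (wq D F Q i) := fun j => by
        rw [map_sub, mul_sub]
      rw [Finset.sum_congr rfl fun j _ => h3 j, Finset.sum_sub_distrib, h1, h2]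
  choose L hL using key
  refine ⟨Matrix.of L, fun i => ?_⟩
  rw [← sub_eq_iff_eq_add', hL i]
  rfl

/-- A flat field satisfies the equations at the point. -/
theorem FS_of_flat (D : Derivation ℤ ℂ ℂ) (hd : Dep Γ) (hk : 0 < k)
    (hF : ∀ i, Fm Γ (fun _ => 1) k (F i)) {Q : Vec n} (hQ : Q ∈ Cone n) (hQJ : Jac F Q ≠ 0)
    {V : Vec n → Vec n} (h : Flat D F Q V) : FS D F Q V := by
  obtain ⟨hV, L, hL⟩ := h
  constructor
  · intro i j l
    have h1 : pderiv ℂ j (pderiv ℂ l (Tay Q fun y => V y i)) = Tay Q (Sb D F i j l) := by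
      rw [hL i, map_add, map_add, pderiv_lin Q (L i) l, pderiv_C, add_zero,
        (hess_T D hd hk hF hQ hQJ i j l).2]
    rw [← Tay_pd l (hV i), ← Tay_pd j (an_dd l (hV i))] at h1
    have h2 := congrArg constantCoeff h1
    rw [Tay_const_coeff, Tay_const_coeff] at h2
    exact h2
  · intro i
    have h1 : ∑ j, (C (Q j) + MvPowerSeries.X j) * pderiv ℂ j (Tay Q fun y => V y i) = Tay Q fun y => V y i := by
      have h3 : ∀ j, (C (Q j) + MvPowerSeries.X j) * pderiv ℂ j (Tay Q fun y => V y i) =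
          (C (Q j) + MvPowerSeries.X j) * pderiv ℂ j (wq D F Q i) +
          C (L i j) * (C (Q j) + MvPowerSeries.X j) := fun j => by
        rw [hL i, map_add, pderiv_lin Q (L i) j]
        ring
      rw [Finset.sum_congr rfl fun j _ => h3 j, Finset.sum_add_distrib, euler_w D hF hQ hQJ i,
        ← hL i]
    have h2 := congrArg constantCoeff h1
    rw [Tay_const_coeff, map_sum] at h2
    rw [← h2]
    refine Finset.sum_congr rfl fun j _ => ?_
    rw [map_mul, map_add, constantCoeff_C, constantCoeff_X, add_zero, ← Tay_pd j (hV i),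
      Tay_const_coeff]

end Pool.Agent.Lib.MP_5d4057_al.DR
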