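import Pool.Agent.Lib.MP_5d4057_al.QB.Osg
import Mathlib

/-! Invariant homogeneous functions on an abstract cone: Jacobians, adjugate fields, second
derivatives (project DER, T1c for the abstract setting of T2). -/

set_option autoImplicit false

namespace Pool.Agent.Lib.MP_5d4057_al.DR

open Matrix Finset

variable {N : ℕ} {C : Set (Fin N → ℂ)} {G : Set (Matrix (Fin N) (Fin N) ℂ)}

/-- An open cone and a set of matrices of determinant one which map it into itself. -/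
structure Cn (C : Set (Fin N → ℂ)) (G : Set (Matrix (Fin N) (Fin N) ℂ)) : Prop where
  op : IsOpen C
  smul : ∀ c : ℂ, c ≠ 0 → ∀ y ∈ C, c • y ∈ C
  act : ∀ g ∈ G, ∀ y ∈ C, g *ᵥ y ∈ C
  det : ∀ g ∈ G, g.det = 1

/-- Invariant functions, homogeneous of degree `-k`. -/
structure Fg (C : Set (Fin N → ℂ)) (G : Set (Matrix (Fin N) (Fin N) ℂ)) (k : ℕ)
    (f : (Fin N → ℂ) → ℂ) : Prop where
  diff : DifferentiableOn ℂ f C
  hom : ∀ c : ℂ, c ≠ 0 → ∀ y ∈ C, f (c • y) = (c ^ k)⁻¹ * f y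
  inv : ∀ g ∈ G, ∀ y ∈ C, f (g *ᵥ y) = f y

/-- Equivariant vector fields, homogeneous of degree `-w`. -/
structure Vg (C : Set (Fin N → ℂ)) (G : Set (Matrix (Fin N) (Fin N) ℂ)) (w : ℕ)
    (A : (Fin N → ℂ) → Fin N → ℂ) : Prop where
  diff : DifferentiableOn ℂ A C
  hom : ∀ c : ℂ, c ≠ 0 → ∀ y ∈ C, A (c • y) = (c ^ w)⁻¹ • A y
  inv : ∀ g ∈ G, ∀ y ∈ C, A (g *ᵥ y) = g *ᵥ A y

/-- The linear map of a matrix. -/
noncomputable def mL (g : Matrix (Fin N) (Fin N) ℂ) : (Fin N → ℂ) →L[ℂ] (Fin N → ℂ) :=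
  LinearMap.toContinuousLinearMap (Matrix.mulVecLin g)

theorem mL_apply (g : Matrix (Fin N) (Fin N) ℂ) (y : Fin N → ℂ) : mL g y = g *ᵥ y := rfl

theorem Fg.diffAt (hC : Cn C G) {k : ℕ} {f : (Fin N → ℂ) → ℂ} (hf : Fg C G k f) {y : Fin N → ℂ}
    (hy : y ∈ C) : DifferentiableAt ℂ f y :=
  hf.diff.differentiableAt (hC.op.mem_nhds hy)

theorem Fg.fderiv_hom (hC : Cn C G) {k : ℕ} {f : (Fin N → ℂ) → ℂ} (hf : Fg C G k f) {c : ℂ}
    (hc : c ≠ 0) {y : Fin N → ℂ} (hy : y ∈ C) :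
    fderiv ℂ f (c • y) = (c ^ (k + 1))⁻¹ • fderiv ℂ f y := by
  have h1 : HasFDerivAt (fun z : Fin N → ℂ => f (c • z))
      ((fderiv ℂ f (c • y)).comp (c • ContinuousLinearMap.id ℂ (Fin N → ℂ))) y :=
    (hf.diffAt hC (hC.smul c hc y hy)).hasFDerivAt.comp y ((hasFDerivAt_id y).const_smul c)
  have h2 : HasFDerivAt (fun z : Fin N → ℂ => (c ^ k)⁻¹ * f z) ((c ^ k)⁻¹ • fderiv ℂ f y) y :=
    (hf.diffAt hC hy).hasFDerivAt.const_mul _
  have h3 : (fun z : Fin N → ℂ => f (c • z)) =ᶠ[nhds y] fun z => (c ^ k)⁻¹ * f z := by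
    filter_upwards [hC.op.mem_nhds hy] with z hz
    exact hf.hom c hc z hz
  have h4 := h1.unique (h2.congr_of_eventuallyEq h3)
  ext ξ
  have h5 := DFunLike.congr_fun h4 ξ
  simp only [ContinuousLinearMap.comp_apply, _root_.smul_apply,
    ContinuousLinearMap.id_apply, map_smul, smul_eq_mul] at h5 ⊢
  have h6 : c * ((fderiv ℂ f (c • y)) ξ) = c * ((c ^ (k + 1))⁻¹ * (fderiv ℂ f y) ξ) := by
    rw [h5, pow_succ]
    field_simp
  exact mul_left_cancel₀ hc h6

theorem Fg.fderiv_inv (hC : Cn C G) {k : ℕ} {f : (Fin N → ℂ) → ℂ} (hf : Fg C G k f)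
    {g : Matrix (Fin N) (Fin N) ℂ} (hg : g ∈ G) {y : Fin N → ℂ} (hy : y ∈ C) (ξ : Fin N → ℂ) :
    fderiv ℂ f (g *ᵥ y) (g *ᵥ ξ) = fderiv ℂ f y ξ := by
  have h1 : HasFDerivAt (fun z : Fin N → ℂ => f (mL g z))
      ((fderiv ℂ f (g *ᵥ y)).comp (mL g)) y :=
    (hf.diffAt hC (hC.act g hg y hy)).hasFDerivAt.comp y (mL g).hasFDerivAt
  have h3 : (fun z : Fin N → ℂ => f (mL g z)) =ᶠ[nhds y] f := by
    filter_upwards [hC.op.mem_nhds hy] with z hz
    exact hf.inv g hg z hz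
  have h4 := h1.unique ((hf.diffAt hC hy).hasFDerivAt.congr_of_eventuallyEq h3)
  exact DFunLike.congr_fun h4 ξ

/-- The directional derivative of an invariant function along an equivariant field. -/
theorem Fg.d1 (hC : Cn C G) {k w : ℕ} {f : (Fin N → ℂ) → ℂ} (hf : Fg C G k f)
    {A : (Fin N → ℂ) → Fin N → ℂ} (hA : Vg C G w A) :
    Fg C G (k + 1 + w) (fun y => fderiv ℂ f y (A y)) where
  diff := (QB.diff_fderiv hC.op hf.diff).clm_apply hA.diff
  hom c hc y hy := by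
    rw [hf.fderiv_hom hC hc hy, hA.hom c hc y hy, _root_.smul_apply, map_smul,
      smul_smul, smul_eq_mul, pow_add c (k + 1) w, mul_inv]
  inv g hg y hy := by rw [hA.inv g hg y hy, hf.fderiv_inv hC hg hy]

theorem Fg.fderiv2_hom (hC : Cn C G) {k : ℕ} {f : (Fin N → ℂ) → ℂ} (hf : Fg C G k f) {c : ℂ}
    (hc : c ≠ 0) {y : Fin N → ℂ} (hy : y ∈ C) :
    fderiv ℂ (fderiv ℂ f) (c • y) = (c ^ (k + 2))⁻¹ • fderiv ℂ (fderiv ℂ f) y := by
  have hd := QB.diff_fderiv hC.op hf.diff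
  have h1 : HasFDerivAt (fun z : Fin N → ℂ => fderiv ℂ f (c • z))
      ((fderiv ℂ (fderiv ℂ f) (c • y)).comp (c • ContinuousLinearMap.id ℂ (Fin N → ℂ))) y :=
    (hd.differentiableAt (hC.op.mem_nhds (hC.smul c hc y hy))).hasFDerivAt.comp y
      ((hasFDerivAt_id y).const_smul c)
  have h2 : HasFDerivAt (fun z : Fin N → ℂ => (c ^ (k + 1))⁻¹ • fderiv ℂ f z)
      ((c ^ (k + 1))⁻¹ • fderiv ℂ (fderiv ℂ f) y) y :=
    (hd.differentiableAt (hC.op.mem_nhds hy)).hasFDerivAt.fun_const_smul _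
  have h3 : (fun z : Fin N → ℂ => fderiv ℂ f (c • z)) =ᶠ[nhds y]
      fun z => (c ^ (k + 1))⁻¹ • fderiv ℂ f z := by
    filter_upwards [hC.op.mem_nhds hy] with z hz
    exact hf.fderiv_hom hC hc hz
  have h4 := h1.unique (h2.congr_of_eventuallyEq h3)
  ext ξ η
  have h5 := DFunLike.congr_fun (DFunLike.congr_fun h4 ξ) η
  simp only [ContinuousLinearMap.comp_apply, _root_.smul_apply,
    ContinuousLinearMap.id_apply, map_smul, smul_eq_mul] at h5 ⊢
  have h6 : c * ((fderiv ℂ (fderiv ℂ f) (c • y)) ξ η) =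
      c * ((c ^ (k + 2))⁻¹ * (fderiv ℂ (fderiv ℂ f) y) ξ η) := by
    rw [h5, pow_succ c (k + 1)]
    field_simp
  exact mul_left_cancel₀ hc h6

theorem Fg.fderiv2_inv (hC : Cn C G) {k : ℕ} {f : (Fin N → ℂ) → ℂ} (hf : Fg C G k f)
    {g : Matrix (Fin N) (Fin N) ℂ} (hg : g ∈ G) {y : Fin N → ℂ} (hy : y ∈ C) (ξ η : Fin N → ℂ) :
    fderiv ℂ (fderiv ℂ f) (g *ᵥ y) (g *ᵥ ξ) (g *ᵥ η) = fderiv ℂ (fderiv ℂ f) y ξ η := by
  have hd := QB.diff_fderiv hC.op hf.diff
  have h1 : HasFDerivAt (fun z : Fin N → ℂ => fderiv ℂ f (mL g z) (g *ᵥ η))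
      ((((fderiv ℂ (fderiv ℂ f) (g *ᵥ y)).comp (mL g)).flip) (g *ᵥ η)) y := by
    have h2 := (hd.differentiableAt (hC.op.mem_nhds (hC.act g hg y hy))).hasFDerivAt.comp y
      (mL g).hasFDerivAt
    have h3 := h2.clm_apply (hasFDerivAt_const (g *ᵥ η) y)
    refine h3.congr_fderiv ?_
    ext ζ
    simp
  have h2 : HasFDerivAt (fun z : Fin N → ℂ => fderiv ℂ f z η)
      ((fderiv ℂ (fderiv ℂ f) y).flip η) y := by
    have h3 := (hd.differentiableAt (hC.op.mem_nhds hy)).hasFDerivAt.clm_apply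
      (hasFDerivAt_const η y)
    refine h3.congr_fderiv ?_
    ext ζ
    simp
  have h3 : (fun z : Fin N → ℂ => fderiv ℂ f (mL g z) (g *ᵥ η)) =ᶠ[nhds y]
      fun z => fderiv ℂ f z η := by
    filter_upwards [hC.op.mem_nhds hy] with z hz
    exact hf.fderiv_inv hC hg hz η
  have h4 := h1.unique (h2.congr_of_eventuallyEq h3)
  exact DFunLike.congr_fun h4 ξ

/-- The second derivative of an invariant function along two equivariant fields. -/
theorem Fg.d2 (hC : Cn C G) {k a b : ℕ} {f : (Fin N → ℂ) → ℂ} (hf : Fg C G k f)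
    {A B : (Fin N → ℂ) → Fin N → ℂ} (hA : Vg C G a A) (hB : Vg C G b B) :
    Fg C G (k + 2 + a + b) (fun y => fderiv ℂ (fderiv ℂ f) y (A y) (B y)) where
  diff := ((QB.diff_fderiv hC.op (QB.diff_fderiv hC.op hf.diff)).clm_apply hA.diff).clm_apply
    hB.diff
  hom c hc y hy := by
    rw [hf.fderiv2_hom hC hc hy, hA.hom c hc y hy, hB.hom c hc y hy]
    simp only [_root_.smul_apply, map_smul, smul_eq_mul]
    rw [pow_add c (k + 2 + a) b, pow_add c (k + 2) a, mul_inv, mul_inv]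
    ring
  inv g hg y hy := by rw [hA.inv g hg y hy, hB.inv g hg y hy, hf.fderiv2_inv hC hg hy]

/-- The Jacobian matrix. -/
noncomputable def Mx (F : Fin N → (Fin N → ℂ) → ℂ) (y : Fin N → ℂ) : Matrix (Fin N) (Fin N) ℂ :=
  Matrix.of fun i j => fderiv ℂ (F i) y (Pi.single j 1)

theorem Mx_mulVec (F : Fin N → (Fin N → ℂ) → ℂ) (y ξ : Fin N → ℂ) (i : Fin N) :
    (Mx F y *ᵥ ξ) i = fderiv ℂ (F i) y ξ := by
  have h1 : ξ = ∑ j, ξ j • (Pi.single j (1 : ℂ) : Fin N → ℂ) := by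
    funext l
    rw [Finset.sum_apply, Finset.sum_eq_single l]
    · simp
    · intro j _ hj
      simp [Pi.single_eq_of_ne hj.symm]
    · simp
  conv_rhs => rw [h1, map_sum]
  rw [mulVec, dotProduct]
  refine Finset.sum_congr rfl fun j _ => ?_
  rw [map_smul, smul_eq_mul, mul_comm]
  rfl

theorem Mx_act (hC : Cn C G) {F : Fin N → (Fin N → ℂ) → ℂ} {k : Fin N → ℕ}
    (hF : ∀ i, Fg C G (k i) (F i)) {g : Matrix (Fin N) (Fin N) ℂ} (hg : g ∈ G) {y : Fin N → ℂ}
    (hy : y ∈ C) : Mx F (g *ᵥ y) * g = Mx F y := by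
  ext i j
  have h1 : (Mx F (g *ᵥ y) * g) i j = (Mx F (g *ᵥ y) *ᵥ (g *ᵥ Pi.single j 1)) i := by
    rw [mulVec_mulVec, mulVec_single_one, col_apply]
  rw [h1, Mx_mulVec, (hF i).fderiv_inv hC hg hy]
  rfl

theorem Mx_smul (hC : Cn C G) {F : Fin N → (Fin N → ℂ) → ℂ} {k : Fin N → ℕ}
    (hF : ∀ i, Fg C G (k i) (F i)) {c : ℂ} (hc : c ≠ 0) {y : Fin N → ℂ} (hy : y ∈ C) :
    Mx F (c • y) = diagonal (fun i => (c ^ (k i + 1))⁻¹) * Mx F y := by
  ext i j
  rw [diagonal_mul, Mx, Mx, of_apply, of_apply, (hF i).fderiv_hom hC hc hy]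
  rfl

theorem Mx_diff (hC : Cn C G) {F : Fin N → (Fin N → ℂ) → ℂ} {k : Fin N → ℕ}
    (hF : ∀ i, Fg C G (k i) (F i)) (i j : Fin N) : DifferentiableOn ℂ (fun y => Mx F y i j) C :=
  (QB.diff_fderiv hC.op (hF i).diff).clm_apply (differentiableOn_const _)

/-- Determinants of differentiable matrices. -/
theorem diff_det {M : (Fin N → ℂ) → Matrix (Fin N) (Fin N) ℂ}
    (hM : ∀ i j, DifferentiableOn ℂ (fun y => M y i j) C) :
    DifferentiableOn ℂ (fun y => (M y).det) C := by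
  simp only [det_apply]
  refine DifferentiableOn.fun_sum fun σ _ => DifferentiableOn.const_smul ?_ _
  have h1 : ∀ s : Finset (Fin N), DifferentiableOn ℂ (fun y => ∏ i ∈ s, M y (σ i) i) C := by
    intro s
    induction s using Finset.induction_on with
    | empty => simpa only [Finset.prod_empty] using differentiableOn_const (1 : ℂ)
    | insert a s ha ih =>
      exact ((hM (σ a) a).mul ih).congr fun v _ => Finset.prod_insert ha
  exact h1 univ

/-- The Jacobian of `N` forms is a form. -/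
theorem Fg.jac (hC : Cn C G) {F : Fin N → (Fin N → ℂ) → ℂ} {k : Fin N → ℕ}
    (hF : ∀ i, Fg C G (k i) (F i)) : Fg C G (∑ i, (k i + 1)) (fun y => (Mx F y).det) where
  diff := diff_det (Mx_diff hC hF)
  hom c hc y hy := by
    rw [Mx_smul hC hF hc hy, det_mul, det_diagonal, ← Finset.prod_pow_eq_pow_sum,
      Finset.prod_inv_distrib]
  inv g hg y hy := by
    have h1 := congrArg det (Mx_act hC hF hg hy)
    rwa [det_mul, hC.det g hg, mul_one] at h1

/-- The adjugate fields. -/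
noncomputable def Adj (F : Fin N → (Fin N → ℂ) → ℂ) (a : Fin N) (y : Fin N → ℂ) : Fin N → ℂ :=
  fun j => (Mx F y).adjugate j a

theorem fderiv_adj (F : Fin N → (Fin N → ℂ) → ℂ) (a b : Fin N) (y : Fin N → ℂ) :
    fderiv ℂ (F b) y (Adj F a y) = if b = a then (Mx F y).det else 0 := by
  rw [← Mx_mulVec]
  have h1 : (Mx F y *ᵥ Adj F a y) b = (Mx F y * (Mx F y).adjugate) b a := rfl
  rw [h1, mul_adjugate, Matrix.smul_apply, one_apply, smul_eq_mul]
  split_ifs <;> simp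

/-- The frame of the adjugate fields: `∑ a, M a j • Adj a = J e_j`. -/
theorem sum_adj (F : Fin N → (Fin N → ℂ) → ℂ) (j : Fin N) (y : Fin N → ℂ) :
    ∑ a, Mx F y a j • Adj F a y = (Mx F y).det • (Pi.single j (1 : ℂ) : Fin N → ℂ) := by
  funext l
  rw [Finset.sum_apply]
  have h1 : ∑ a, (Mx F y a j • Adj F a y) l = ((Mx F y).adjugate * Mx F y) l j := by
    rw [mul_apply]
    refine Finset.sum_congr rfl fun a _ => ?_
    rw [Pi.smul_apply, smul_eq_mul, mul_comm]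
    rfl
  rw [h1, adjugate_mul, Matrix.smul_apply, one_apply, Pi.smul_apply, Pi.single_apply]

theorem Vg.adj (hC : Cn C G) {F : Fin N → (Fin N → ℂ) → ℂ} {k : Fin N → ℕ}
    (hF : ∀ i, Fg C G (k i) (F i)) (a : Fin N) :
    Vg C G (∑ i ∈ univ.erase a, (k i + 1)) (Adj F a) where
  diff := by
    rw [differentiableOn_pi]
    intro j
    have h1 : (fun y => Adj F a y j) =
        fun y => ((Mx F y).updateRow a (Pi.single j 1)).det := by
      funext y
      rw [Adj, adjugate_apply]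
    rw [h1]
    refine diff_det fun i l => ?_
    by_cases hi : i = a
    · subst hi
      simp only [updateRow_self]
      exact differentiableOn_const _
    · simp only [updateRow_ne hi]
      exact Mx_diff hC hF i l
  hom c hc y hy := by
    funext j
    rw [Adj, Mx_smul hC hF hc hy, adjugate_mul_distrib, adjugate_diagonal, mul_diagonal,
      Pi.smul_apply, smul_eq_mul, Finset.prod_inv_distrib, Finset.prod_pow_eq_pow_sum, mul_comm]
    rfl
  inv g hg y hy := by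
    have h1 : (Mx F (g *ᵥ y)).adjugate = g * (Mx F y).adjugate := by
      have h2 := congrArg adjugate (Mx_act hC hF hg hy)
      rw [adjugate_mul_distrib] at h2
      rw [← h2, ← Matrix.mul_assoc, mul_adjugate, hC.det g hg, one_smul, Matrix.one_mul]
    funext j
    rw [Adj, h1]
    rfl

/-- `J²` times the connection coefficients of the flat structure in the coordinates `F`. -/
noncomputable def Hs (F : Fin N → (Fin N → ℂ) → ℂ) (a b c : Fin N) (y : Fin N → ℂ) : ℂ :=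
  fderiv ℂ (fderiv ℂ (F c)) y (Adj F a y) (Adj F b y)

theorem Fg.hs (hC : Cn C G) {F : Fin N → (Fin N → ℂ) → ℂ} {k : Fin N → ℕ}
    (hF : ∀ i, Fg C G (k i) (F i)) (a b c : Fin N) :
    Fg C G (k c + 2 + (∑ i ∈ univ.erase a, (k i + 1)) + ∑ i ∈ univ.erase b, (k i + 1))
      (Hs F a b c) :=
  (hF c).d2 hC (Vg.adj hC hF a) (Vg.adj hC hF b)

/-- The Hessian in terms of the first derivatives. -/
theorem hess_eq (F : Fin N → (Fin N → ℂ) → ℂ) (c j l : Fin N) (y : Fin N → ℂ) :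
    (Mx F y).det ^ 2 * fderiv ℂ (fderiv ℂ (F c)) y (Pi.single j 1) (Pi.single l 1) =
      ∑ a, ∑ b, Hs F a b c y * Mx F y a j * Mx F y b l := by
  have h1 : fderiv ℂ (fderiv ℂ (F c)) y ((Mx F y).det • (Pi.single j (1 : ℂ) : Fin N → ℂ))
      ((Mx F y).det • (Pi.single l (1 : ℂ) : Fin N → ℂ)) =
      (Mx F y).det ^ 2 * fderiv ℂ (fderiv ℂ (F c)) y (Pi.single j 1) (Pi.single l 1) := by
    simp only [map_smul, _root_.smul_apply, smul_eq_mul]
    ring
  rw [← h1, ← sum_adj F j y, ← sum_adj F l y]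
  simp only [map_sum, map_smul, _root_.sum_apply, _root_.smul_apply,
    smul_eq_mul]
  rw [Finset.sum_comm]
  refine Finset.sum_congr rfl fun b _ => ?_
  rw [Finset.mul_sum]
  refine Finset.sum_congr rfl fun a _ => ?_
  rw [Hs]
  ring

end Pool.Agent.Lib.MP_5d4057_al.DR
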