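import Pool.Agent.Lib.MP_5d4057_al.DR.Rel
import Pool.Agent.Lib.MP_5d4057_al.QB.FmD
import Pool.Agent.Lib.MP_5d4057_al.QB.FmE
import Pool.Agent.Lib.MP_5d4057_al.DR.Jac

/-!
# DER, T2 (F3): forms, the Christoffel symbols are quotients of forms
-/

set_option autoImplicit false

namespace Pool.Agent.Lib.MP_5d4057_al.DR

open MvPowerSeries Filter Topology Matrix Pool.Agent.Lib.MP_5d4057_al
  Pool.Agent.Lib.MP_5d4057_al.Hyb Pool.Agent.Lib.MP_5d4057_al.HM Pool.Agent.Lib.MP_5d4057_al.QB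

variable {n : ℕ} {Γ : Subgroup (SUGroup n)} {k l : ℕ} {F : Fin (n + 1) → Vec n → ℂ} {f : Vec n → ℂ}

/-- `n + 2` forms of one weight are dependent. -/
def Dep (Γ : Subgroup (SUGroup n)) : Prop :=
  ∀ k, 0 < k → ∀ F : Fin (n + 2) → Vec n → ℂ, (∀ i, Fm Γ (fun _ => 1) k (F i)) →
    ∃ P : MvPolynomial (Fin (n + 2)) ℂ, P ≠ 0 ∧
      ∀ v ∈ Cone n, MvPolynomial.eval (fun i => F i v) P = 0

/-- There is a frame of forms of one weight at every point. -/
def Frs (Γ : Subgroup (SUGroup n)) : Prop :=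
  ∀ Q ∈ Cone n, ∃ k, 0 < k ∧ ∃ F : Fin (n + 1) → Vec n → ℂ,
    (∀ i, Fm Γ (fun _ => 1) k (F i)) ∧ Jac F Q ≠ 0

/-- The cohomology with values in the trace free matrices vanishes. -/
def H1Z (Γ : Subgroup (SUGroup n)) : Prop :=
  ∀ κ : Γ → Mat (n + 1),
    (∀ x y : Γ, κ (x * y) = κ x +
      (x : SUGroup n).toMatrix * κ y * ((x⁻¹ : Γ) : SUGroup n).toMatrix) →
    (∀ x, (κ x).trace = 0) →
      ∃ B : Mat (n + 1), ∀ x : Γ, κ x = B -
        (x : SUGroup n).toMatrix * B * ((x⁻¹ : Γ) : SUGroup n).toMatrix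

theorem an_form {χ : SUGroup n → ℂ} (hf : Fm Γ χ k f) : AnalyticOnNhd ℂ f (Cone n) :=
  QB.analyticOnNhd (isOpen_cone n) hf.diff

theorem gma_sum (f : Vec n → ℂ) (v ξ : Vec n) : fderiv ℂ f v ξ = ∑ j, ξ j * pd j f v := by
  have h1 : ξ = ∑ j, ξ j • (Pi.single j (1 : ℂ) : Vec n) := by
    funext l
    rw [Finset.sum_apply, Finset.sum_eq_single l]
    · simp
    · intro j _ hj
      simp [Pi.single_eq_of_ne hj.symm]
    · simp
  conv_lhs => rw [h1, map_sum]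
  exact Finset.sum_congr rfl fun j _ => by rw [map_smul, smul_eq_mul, pd]

theorem euler_pd {χ : SUGroup n → ℂ} (hf : Fm Γ χ k f) {v : Vec n} (hv : v ∈ Cone n) :
    ∑ j, v j * pd j f v = -(k : ℂ) * f v := by
  rw [← gma_sum, hf.euler hv]

/-- Forms of any positive weight are algebraic over a frame. -/
theorem algO_form (hd : Dep Γ) (hk : 0 < k) (hl : 0 < l) (hF : ∀ i, Fm Γ (fun _ => 1) k (F i))
    (hf : Fm Γ (fun _ => 1) l f) : AlgO (Cone n) F f := by
  obtain ⟨a, ha⟩ : ∃ a : Fin (n + 2) → ℕ, a = Fin.snoc (fun _ => l) k := ⟨_, rfl⟩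
  have ha0 : ∀ i, 0 < a i := by
    intro i
    rw [ha]
    refine Fin.lastCases ?_ (fun j => ?_) i
    · rw [Fin.snoc_last]
      exact hk
    · rw [Fin.snoc_castSucc]
      exact hl
  obtain ⟨P, hP, h0⟩ := hd (k * l) (Nat.mul_pos hk hl)
    (fun i v => (Fin.snoc (fun a => F a v) (f v) : Fin (n + 2) → ℂ) i ^ a i) fun i => by
      rw [ha]
      refine Fin.lastCases ?_ (fun j => ?_) i
      · simp only [Fin.snoc_last]
        rw [mul_comm]
        exact hf.pow_one' k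
      · simp only [Fin.snoc_castSucc]
        exact (hF j).pow_one' l
  refine ⟨pw a P, pw_ne_zero ha0 hP, fun y hy => ?_⟩
  rw [eval_pw]
  exact h0 y hy

/-- The cone and the group satisfy the hypotheses of `DR.Jac`. -/
theorem gma_cn : Cn (Cone n) (SUGroup.toMatrix '' (Γ : Set (SUGroup n))) where
  op := isOpen_cone n
  smul c hc y hy := smul_mem_cone hc hy
  act := by
    rintro _ ⟨g, _, rfl⟩ y hy
    exact act_mem g hy
  det := by
    rintro _ ⟨g, _, rfl⟩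
    exact det_toMatrix g

theorem gma_fg (hf : Fm Γ (fun _ => 1) k f) :
    Fg (Cone n) (SUGroup.toMatrix '' (Γ : Set (SUGroup n))) k f where
  diff := hf.diff
  hom := hf.hom
  inv := by
    rintro _ ⟨g, hg, rfl⟩ y hy
    have h1 := hf.inv g hg y hy
    rwa [one_mul] at h1

theorem gma_fm (hf : Fg (Cone n) (SUGroup.toMatrix '' (Γ : Set (SUGroup n))) k f) :
    Fm Γ (fun _ => 1) k f where
  diff := hf.diff
  hom := hf.hom
  inv g hg y hy := by
    rw [one_mul]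
    exact hf.inv _ ⟨g, hg, rfl⟩ y hy

/-- The Jacobian is a form. -/
theorem form_Jac (hF : ∀ i, Fm Γ (fun _ => 1) k (F i)) :
    Fm Γ (fun _ => 1) ((n + 1) * (k + 1)) (Jac F) := by
  have h1 := Fg.jac gma_cn (fun i => gma_fg (hF i))
  have h2 : ∑ _i : Fin (n + 1), (k + 1) = (n + 1) * (k + 1) := by
    rw [Finset.sum_const, Finset.card_univ, Fintype.card_fin, smul_eq_mul]
  rw [h2] at h1
  exact gma_fm h1

theorem gma_xf (F : Fin (n + 1) → Vec n → ℂ) (b : Fin (n + 1)) (v : Vec n) :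
    Xf F b v = (Jac F v)⁻¹ • Adj F b v := by
  funext i
  rw [Xf, Matrix.inv_def, Matrix.smul_apply, Ring.inverse_eq_inv', Pi.smul_apply]
  rfl

theorem gma_dd2 {f : Vec n → ℂ} (hf : DifferentiableOn ℂ f (Cone n)) {v : Vec n}
    (hv : v ∈ Cone n) (j l : Fin (n + 1)) :
    pd j (pd l f) v = fderiv ℂ (fderiv ℂ f) v (Pi.single j 1) (Pi.single l 1) := by
  have h1 := ((QB.diff_fderiv (isOpen_cone n) hf).differentiableAt
    ((isOpen_cone n).mem_nhds hv)).hasFDerivAt.clm_apply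
    (hasFDerivAt_const (Pi.single l (1 : ℂ) : Vec n) v)
  change fderiv ℂ (fun y => fderiv ℂ f y (Pi.single l 1)) v (Pi.single j 1) = _
  rw [h1.fderiv]
  simp

theorem gma_hs {f : Vec n → ℂ} (hf : DifferentiableOn ℂ f (Cone n)) {v : Vec n}
    (hv : v ∈ Cone n) (ξ η : Vec n) :
    fderiv ℂ (fderiv ℂ f) v ξ η = ∑ j, ∑ l, pd j (pd l f) v * ξ j * η l := by
  have h1 : ∀ ζ : Vec n, ζ = ∑ j, ζ j • (Pi.single j (1 : ℂ) : Vec n) := fun ζ => by
    funext l
    rw [Finset.sum_apply, Finset.sum_eq_single l]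
    · simp
    · intro j _ hj
      simp [Pi.single_eq_of_ne hj.symm]
    · simp
  conv_lhs => rw [h1 ξ, h1 η]
  simp only [map_sum, map_smul, _root_.sum_apply, _root_.smul_apply, smul_eq_mul]
  rw [Finset.sum_comm]
  simp only [Finset.mul_sum]
  refine Finset.sum_congr rfl fun j _ => Finset.sum_congr rfl fun l _ => ?_
  rw [gma_dd2 hf hv]
  ring

/-- `J² Γ^a_bc` is (equal where `J ≠ 0` to) a form of positive weight. -/
theorem form_Gam (hk : 0 < k) (hF : ∀ i, Fm Γ (fun _ => 1) k (F i)) (a b c : Fin (n + 1)) :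
    ∃ (l : ℕ) (φ : Vec n → ℂ), 0 < l ∧ Fm Γ (fun _ => 1) l φ ∧
      ∀ v ∈ Cone n, Jac F v ≠ 0 → Gam F a b c v = φ v / Jac F v ^ 2 := by
  refine ⟨_, Hs F b c a, ?_, gma_fm (Fg.hs gma_cn (fun i => gma_fg (hF i)) b c a), ?_⟩
  · omega
  · intro v hv hJ
    rw [Gam, ← gma_hs (hF a).diff hv, gma_xf, gma_xf]
    simp only [map_smul, _root_.smul_apply, smul_eq_mul]
    rw [Hs]
    field_simp

end Pool.Agent.Lib.MP_5d4057_al.DR
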