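import Mathlib

/-!
# Primitives of closed symmetric tensors (helper15)

`prim` : a closed holomorphic `1`-form on a convex open set has a primitive.
`hess_prim` : a closed symmetric holomorphic tensor is a second derivative.
`hess_hom` : if it is killed by the Euler field the primitive can be chosen with `dw_v(v) = w(v)`.
`hess_uniq` : such a primitive is unique up to a linear map.
-/

namespace Pool.Agent.Lib.MP_5d4057_al.DR

open Set Filter Topology

variable {E F : Type*} [NormedAddCommGroup E] [NormedSpace ℂ E] [NormedAddCommGroup F]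
  [NormedSpace ℂ F] {s : Set E}

/-- **Poincaré lemma, complex form.** -/
theorem prim [CompleteSpace F] (hs : Convex ℝ s) (hso : IsOpen s) {ω : E → E →L[ℂ] F}
    (hω : DifferentiableOn ℂ ω s) (hd : ∀ a ∈ s, ∀ x y, fderiv ℂ ω a x y = fderiv ℂ ω a y x) :
    ∃ f : E → F, ∀ a ∈ s, HasFDerivAt f (ω a) a := by
  set ω' : E → E →L[ℝ] F := fun a => (ω a).restrictScalars ℝ with hω'
  have hder : ∀ a ∈ s, HasFDerivAt ω' ((ContinuousLinearMap.restrictScalarsL ℂ E F ℝ ℝ).comp
      ((fderiv ℂ ω a).restrictScalars ℝ)) a := by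
    intro a ha
    have h1 : HasFDerivAt ω (fderiv ℂ ω a) a := (hω.differentiableAt (hso.mem_nhds ha)).hasFDerivAt
    exact (ContinuousLinearMap.restrictScalarsL ℂ E F ℝ ℝ).hasFDerivAt.comp a
      (h1.restrictScalars ℝ)
  obtain ⟨f, hf⟩ := hs.exists_forall_hasFDerivAt_of_fderiv_symmetric hso (ω := ω')
    (fun a ha => (hder a ha).differentiableAt.differentiableWithinAt) (by
      intro a ha x y
      rw [(hder a ha).fderiv]
      exact hd a ha x y)
  exact ⟨f, fun a ha => hasFDerivAt_of_restrictScalars ℝ (hf a ha) rfl⟩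

/-- A closed symmetric holomorphic tensor is a second derivative. -/
theorem hess_prim [CompleteSpace F] (hs : Convex ℝ s) (hso : IsOpen s)
    {T : E → E →L[ℂ] E →L[ℂ] F} (hT : DifferentiableOn ℂ T s)
    (hsym : ∀ a ∈ s, ∀ x y, T a x y = T a y x)
    (hd : ∀ a ∈ s, ∀ x y, fderiv ℂ T a x y = fderiv ℂ T a y x) :
    ∃ (g : E → E →L[ℂ] F) (w : E → F), (∀ a ∈ s, HasFDerivAt g (T a) a) ∧
      ∀ a ∈ s, HasFDerivAt w (g a) a := by
  obtain ⟨g, hg⟩ := prim hs hso hT hd
  obtain ⟨w, hw⟩ := prim hs hso (ω := g) (fun a ha => (hg a ha).differentiableAt.differentiableWithinAt)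
    (by intro a ha x y; rw [(hg a ha).fderiv]; exact hsym a ha x y)
  exact ⟨g, w, hg, hw⟩

/-- The homogeneous form: if moreover `T a a = 0`, the primitive can be chosen with
`dw_a(a) = w(a)`. -/
theorem hess_hom [CompleteSpace F] (hs : Convex ℝ s) (hso : IsOpen s)
    {T : E → E →L[ℂ] E →L[ℂ] F} (hT : DifferentiableOn ℂ T s)
    (hsym : ∀ a ∈ s, ∀ x y, T a x y = T a y x)
    (hd : ∀ a ∈ s, ∀ x y, fderiv ℂ T a x y = fderiv ℂ T a y x)
    (he : ∀ a ∈ s, T a a = 0) :
    ∃ (g : E → E →L[ℂ] F) (w : E → F), (∀ a ∈ s, HasFDerivAt g (T a) a) ∧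
      (∀ a ∈ s, HasFDerivAt w (g a) a) ∧ ∀ a ∈ s, g a a = w a := by
  obtain ⟨g, w, hg, hw⟩ := hess_prim hs hso hT hsym hd
  rcases s.eq_empty_or_nonempty with rfl | ⟨b, hb⟩
  · exact ⟨g, w, hg, hw, fun a ha => ha.elim⟩
  set u : E → F := fun a => g a a - w a with hu
  have hu0 : ∀ a ∈ s, HasFDerivAt u (0 : E →L[ℂ] F) a := by
    intro a ha
    have h1 : HasFDerivAt (fun a => g a a) ((g a).comp (ContinuousLinearMap.id ℂ E) +
        (T a).flip a) a := (hg a ha).clm_apply (hasFDerivAt_id a)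
    have h2 := h1.sub (hw a ha)
    refine h2.congr_fderiv ?_
    ext x
    have h3 : T a x a = 0 := by rw [hsym a ha]; rw [he a ha]; rfl
    simp [h3]
  have hc : ∀ a ∈ s, u a = u b := by
    intro a ha
    refine hs.is_const_of_fderivWithin_eq_zero (𝕜 := ℂ) (f := u)
      (fun x hx => (hu0 x hx).differentiableAt.differentiableWithinAt) ?_ ha hb
    intro x hx
    rw [fderivWithin_eq_fderiv (hso.uniqueDiffOn x hx) (hu0 x hx).differentiableAt]
    exact (hu0 x hx).fderiv
  refine ⟨g, fun a => w a + u b, hg, fun a ha => (hw a ha).add_const _, fun a ha => ?_⟩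
  rw [← hc a ha, hu]
  simp

/-- Uniqueness up to a linear map. -/
theorem hess_uniq (hs : Convex ℝ s) (hso : IsOpen s) (hne : s.Nonempty)
    {T : E → E →L[ℂ] E →L[ℂ] F} {g g' : E → E →L[ℂ] F} {w w' : E → F}
    (hg : ∀ a ∈ s, HasFDerivAt g (T a) a) (he : ∀ a ∈ s, g a a = w a)
    (hg' : ∀ a ∈ s, HasFDerivAt g' (T a) a) (he' : ∀ a ∈ s, g' a a = w' a) :
    ∃ B : E →L[ℂ] F, ∀ a ∈ s, w' a = w a + B a ∧ g' a = g a + B := by
  obtain ⟨b, hb⟩ := hne
  have hconst : ∀ a ∈ s, g' a - g a = g' b - g b := by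
    intro a ha
    have h0 : ∀ x ∈ s, HasFDerivAt (fun x => g' x - g x) (0 : E →L[ℂ] E →L[ℂ] F) x := by
      intro x hx
      have := (hg' x hx).sub (hg x hx)
      rwa [sub_self] at this
    refine hs.is_const_of_fderivWithin_eq_zero (𝕜 := ℂ) (f := fun x => g' x - g x)
      (fun x hx => (h0 x hx).differentiableAt.differentiableWithinAt) ?_ ha hb
    intro x hx
    rw [fderivWithin_eq_fderiv (hso.uniqueDiffOn x hx) (h0 x hx).differentiableAt]
    exact (h0 x hx).fderiv
  refine ⟨g' b - g b, fun a ha => ?_⟩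
  rw [← hconst a ha, sub_apply, he a ha, he' a ha]
  exact ⟨by abel, by abel⟩

end Pool.Agent.Lib.MP_5d4057_al.DR
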