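import Pool.Agent.Lib.MP_5d4057_al.HM.Basic

/-! # Elements of trace larger than two on a complex geodesic (linear algebra) -/

set_option autoImplicit false

namespace Pool.Agent.Lib.MP_5d4057_al.DR.Hyp

open Matrix Pool.Agent.Lib.MP_5d4057_al Pool.Agent.Lib.MP_5d4057_al.Hyb
  Pool.Agent.Lib.MP_5d4057_al.HM

variable {n : ℕ}

/-- A unitary frame of a plane of signature `(1,1)`. -/
structure Fr (x y : Vec n) : Prop where
  xx : herm x x = -1
  yy : herm y y = 1
  xy : herm x y = 0

theorem Fr.yx {x y : Vec n} (h : Fr x y) : herm y x = 0 := by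
  rw [herm_comm, h.xy, star_zero]

theorem Fr.act {x y : Vec n} (h : Fr x y) (g : SUGroup n) : Fr (act g x) (act g y) :=
  ⟨by rw [herm_act, h.xx], by rw [herm_act, h.yy], by rw [herm_act, h.xy]⟩

theorem Fr.qx {x y : Vec n} (h : Fr x y) : q x = -1 := by
  have h1 := h.xx
  rw [herm_self] at h1
  exact_mod_cast h1

theorem Fr.cone {x y : Vec n} (h : Fr x y) : x ∈ Cone n := by
  change q x < 0
  rw [h.qx]
  norm_num

/-- The plane of a frame. -/
abbrev Pl (x y : Vec n) : Submodule ℂ (Vec n) := Submodule.span ℂ {x, y}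

theorem left_mem (x y : Vec n) : x ∈ Pl x y := Submodule.subset_span (by simp)

theorem right_mem (x y : Vec n) : y ∈ Pl x y := Submodule.subset_span (by simp)

theorem herm_neg_right (v w : Vec n) : herm v (-w) = -herm v w := by
  rw [← neg_one_smul ℂ w, herm_smul_right]
  ring

theorem herm_sub_right (v w u : Vec n) : herm v (w - u) = herm v w - herm v u := by
  rw [sub_eq_add_neg, herm_add_right, herm_neg_right]
  ring

theorem herm_zero_right (v : Vec n) : herm v 0 = 0 := by
  have h := herm_smul_right v 0 0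
  rw [zero_smul, zero_mul] at h
  exact h

/-- Coordinates in a frame. -/
theorem Fr.dec {x y : Vec n} (h : Fr x y) {w : Vec n} (hw : w ∈ Pl x y) :
    w = (-herm x w) • x + herm y w • y := by
  obtain ⟨a, b, rfl⟩ := Submodule.mem_span_pair.1 hw
  rw [herm_add_right, herm_add_right, herm_smul_right, herm_smul_right, herm_smul_right,
    herm_smul_right, h.xx, h.yy, h.xy, h.yx]
  congr 1
  · congr 1
    ring
  · congr 1
    ring

theorem Fr.indep {x y : Vec n} (h : Fr x y) : LinearIndependent ℂ ![x, y] := by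
  rw [LinearIndependent.pair_iff]
  intro s t hst
  have h1 : herm x (s • x + t • y) = 0 := by rw [hst, herm_zero_right]
  have h2 : herm y (s • x + t • y) = 0 := by rw [hst, herm_zero_right]
  rw [herm_add_right, herm_smul_right, herm_smul_right, h.xx, h.xy] at h1
  rw [herm_add_right, herm_smul_right, herm_smul_right, h.yx, h.yy] at h2
  constructor
  · linear_combination -h1
  · linear_combination h2

theorem finrank_pair {x y : Vec n} (h : LinearIndependent ℂ ![x, y]) :
    Module.finrank ℂ (Pl x y) = 2 := by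
  have h1 := finrank_span_eq_card h
  rw [Matrix.range_cons, Matrix.range_cons, Matrix.range_empty, Set.union_empty,
    Set.singleton_union, Fintype.card_fin] at h1
  exact h1

/-- Two independent vectors of the plane span it. -/
theorem span_eq {x y p r : Vec n} (h : LinearIndependent ℂ ![x, y]) (hp : p ∈ Pl x y)
    (hr : r ∈ Pl x y) (hi : LinearIndependent ℂ ![p, r]) : Pl p r = Pl x y := by
  refine Submodule.eq_of_le_of_finrank_eq ?_ ?_
  · rw [Submodule.span_le]
    intro z hz
    rcases hz with rfl | hz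
    · exact hp
    · rw [Set.mem_singleton_iff.1 hz]
      exact hr
  · rw [finrank_pair hi, finrank_pair h]

/-- The determinant on the plane has modulus one. -/
theorem Fr.det {x y : Vec n} (h : Fr x y) {g : SUGroup n} {a b c d : ℂ}
    (ha : HM.act g x = a • x + c • y) (hb : HM.act g y = b • x + d • y) :
    ‖a * d - b * c‖ = 1 := by
  have h1 : herm (HM.act g x) (HM.act g x) = -1 := by rw [herm_act, h.xx]
  have h2 : herm (HM.act g y) (HM.act g y) = 1 := by rw [herm_act, h.yy]
  have h3 : herm (HM.act g x) (HM.act g y) = 0 := by rw [herm_act, h.xy]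
  rw [ha, herm_add_left, herm_add_right, herm_add_right] at h1
  rw [hb, herm_add_left, herm_add_right, herm_add_right] at h2
  rw [ha, hb, herm_add_left, herm_add_right, herm_add_right] at h3
  simp only [herm_smul_left, herm_smul_right, h.xx, h.yy, h.xy, h.yx] at h1 h2 h3
  have h4 : star b * a * (-1) + star d * c = 0 := by
    have := congrArg star h3
    simp only [star_add, star_mul, star_star, star_neg, star_one, star_zero, mul_zero,
      add_zero, zero_add] at this
    linear_combination this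
  have h5 : star (a * d - b * c) * (a * d - b * c) = 1 := by
    rw [star_sub, star_mul, star_mul]
    linear_combination (1 - (star c * c - star a * a + 1)) * h2 - h1 +
      (star c * d - star a * b) * h4
  have h6 : ((‖a * d - b * c‖ ^ 2 : ℝ) : ℂ) = 1 := by
    rw [← h5, Complex.star_def, Complex.conj_mul']
    push_cast
    rfl
  have h7 : ‖a * d - b * c‖ ^ 2 = 1 := by exact_mod_cast h6
  exact (pow_eq_one_iff_of_nonneg (norm_nonneg _) two_ne_zero).1 h7

theorem act_zero (g : SUGroup n) : HM.act g 0 = 0 := by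
  have h := HM.act_smul g 0 0
  rw [zero_smul, zero_smul] at h
  exact h

theorem act_neg (g : SUGroup n) (v : Vec n) : HM.act g (-v) = -HM.act g v := by
  have h := HM.act_smul g (-1) v
  rw [neg_one_smul, neg_one_smul] at h
  exact h

theorem act_sub (g : SUGroup n) (v w : Vec n) :
    HM.act g (v - w) = HM.act g v - HM.act g w := by
  rw [sub_eq_add_neg, HM.act_add, act_neg, sub_eq_add_neg]

/-- An element preserving the plane preserves its orthogonal complement; vectors on which it acts
by a scalar of modulus different from one modulo the plane are in the plane. -/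
theorem Fr.mem_of {x y : Vec n} (h : Fr x y) {g : SUGroup n} (hx : HM.act g x ∈ Pl x y)
    (hy : HM.act g y ∈ Pl x y) {l : ℂ} (hl : ‖l‖ ≠ 1) {w : Vec n}
    (hw : HM.act g w - l • w ∈ Pl x y) : w ∈ Pl x y := by
  have hU : ∀ v ∈ Pl x y, HM.act g v ∈ Pl x y := by
    intro v hv
    obtain ⟨a, b, rfl⟩ := Submodule.mem_span_pair.1 hv
    rw [HM.act_add, HM.act_smul, HM.act_smul]
    exact Submodule.add_mem _ (Submodule.smul_mem _ _ hx) (Submodule.smul_mem _ _ hy)
  obtain ⟨u, hu⟩ : ∃ u, u = (-herm x w) • x + herm y w • y := ⟨_, rfl⟩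
  have huU : u ∈ Pl x y := by
    rw [hu]
    exact Submodule.add_mem _ (Submodule.smul_mem _ _ (left_mem x y))
      (Submodule.smul_mem _ _ (right_mem x y))
  obtain ⟨w', hw'⟩ : ∃ w', w' = w - u := ⟨_, rfl⟩
  have h1 : herm x w' = 0 := by
    rw [hw', herm_sub_right, hu, herm_add_right, herm_smul_right, herm_smul_right, h.xx, h.xy]
    ring
  have h2 : herm y w' = 0 := by
    rw [hw', herm_sub_right, hu, herm_add_right, herm_smul_right, herm_smul_right, h.yx, h.yy]
    ring
  have h3 : HM.act g w' - l • w' ∈ Pl x y := by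
    have h4 : HM.act g w' - l • w' = (HM.act g w - l • w) - (HM.act g u - l • u) := by
      rw [hw', act_sub, smul_sub]
      abel
    rw [h4]
    exact Submodule.sub_mem _ hw (Submodule.sub_mem _ (hU u huU) (Submodule.smul_mem _ _ huU))
  have hg := h.act g
  have hspan : Pl (HM.act g x) (HM.act g y) = Pl x y := span_eq h.indep hx hy hg.indep
  have horth : ∀ v ∈ Pl x y, herm v w' = 0 := by
    intro v hv
    obtain ⟨a, b, rfl⟩ := Submodule.mem_span_pair.1 hv
    rw [herm_add_left, herm_smul_left, herm_smul_left, h1, h2, mul_zero, mul_zero, add_zero]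
  have h5 : HM.act g w' - l • w' = 0 := by
    rw [← hspan] at h3
    rw [hg.dec h3, herm_sub_right, herm_sub_right, herm_act, herm_act, h1, h2, herm_smul_right,
      herm_smul_right, horth _ hx, horth _ hy]
    simp
  have h6 : HM.act g w' = l • w' := sub_eq_zero.1 h5
  have h7 : q w' = ‖l‖ ^ 2 * q w' := by
    rw [← q_smul, ← h6, q_act]
  have h8 : w' = 0 := by
    by_contra h9
    have h10 := q_pos_of_orth h.cone h1 h9
    have h11 : ‖l‖ ^ 2 = 1 := by
      have h12 : (‖l‖ ^ 2 - 1) * q w' = 0 := by linarith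
      rcases mul_eq_zero.1 h12 with h13 | h13
      · linarith
      · exact absurd h13 h10.ne'
    exact hl ((pow_eq_one_iff_of_nonneg (norm_nonneg _) two_ne_zero).1 h11)
  have h9 : w = u := by
    rw [h8] at hw'
    exact (sub_eq_zero.1 hw'.symm)
  rw [h9]
  exact huU

/-- The conclusion. -/
structure Conc (g : SUGroup n) (x y : Vec n) (p₀ p₁ : Vec n) (a b : ℂ) : Prop where
  e₀ : HM.act g p₀ = a • p₀
  e₁ : HM.act g p₁ = b • p₁
  a_gt : 1 < ‖a‖
  b_lt : ‖b‖ < 1
  i₀ : herm p₀ p₀ = 0
  i₁ : herm p₁ p₁ = 0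
  ne : herm p₀ p₁ ≠ 0
  span : Submodule.span ℂ {p₀, p₁} = Pl x y
  mem : ∀ (l : ℂ) (w : Vec n), ‖l‖ ≠ 1 → HM.act g w - l • w ∈ Pl x y → w ∈ Pl x y
  u₀ : ∀ w, HM.act g w = a • w → ∃ c : ℂ, w = c • p₀
  u₁ : ∀ w, HM.act g w = b • w → ∃ c : ℂ, w = c • p₁

/-- An element with trace of modulus larger than two on the plane. -/
theorem Fr.conc {x y : Vec n} (h : Fr x y) {g : SUGroup n} {a b c d : ℂ}
    (ha : HM.act g x = a • x + c • y) (hb : HM.act g y = b • x + d • y) (ht : 2 < ‖a + d‖) :
    ∃ p₀ p₁ : Vec n, ∃ s t : ℂ, Conc g x y p₀ p₁ s t := by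
  have hx : HM.act g x ∈ Pl x y := by
    rw [ha]
    exact Submodule.add_mem _ (Submodule.smul_mem _ _ (left_mem x y))
      (Submodule.smul_mem _ _ (right_mem x y))
  have hy : HM.act g y ∈ Pl x y := by
    rw [hb]
    exact Submodule.add_mem _ (Submodule.smul_mem _ _ (left_mem x y))
      (Submodule.smul_mem _ _ (right_mem x y))
  have hdet := h.det ha hb
  -- the eigenvalues
  obtain ⟨s, t, hst, hst', hs, ht1⟩ : ∃ s t : ℂ, s + t = a + d ∧ s * t = a * d - b * c ∧
      1 < ‖s‖ ∧ ‖t‖ < 1 := by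
    obtain ⟨r, hr⟩ := IsAlgClosed.exists_pow_nat_eq ((a + d) ^ 2 - 4 * (a * d - b * c))
      (n := 2) two_pos
    obtain ⟨s, hs⟩ : ∃ s, s = ((a + d) + r) / 2 := ⟨_, rfl⟩
    obtain ⟨t, ht'⟩ : ∃ t, t = ((a + d) - r) / 2 := ⟨_, rfl⟩
    have h1 : s + t = a + d := by rw [hs, ht']; ring
    have h2 : s * t = a * d - b * c := by
      rw [hs, ht']
      linear_combination (-1 / 4 : ℂ) * hr
    have h3 : ‖s‖ * ‖t‖ = 1 := by rw [← norm_mul, h2, hdet]
    have h4 : 2 < ‖s‖ + ‖t‖ := by
      rw [← h1] at ht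
      exact ht.trans_le (norm_add_le _ _)
    rcases lt_or_ge 1 ‖s‖ with h5 | h5
    · refine ⟨s, t, h1, h2, h5, ?_⟩
      by_contra h6
      rw [not_lt] at h6
      nlinarith
    · have h6 : 1 < ‖t‖ := by linarith
      refine ⟨t, s, by rw [add_comm, h1], by rw [mul_comm, h2], h6, ?_⟩
      by_contra h7
      rw [not_lt] at h7
      nlinarith
  have hne : s ≠ t := by
    rintro rfl
    linarith
  -- Cayley Hamilton
  have hCH : ∀ v ∈ Pl x y, HM.act g (HM.act g v) = (s + t) • HM.act g v - (s * t) • v := by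
    have h1 : HM.act g (HM.act g x) = (s + t) • HM.act g x - (s * t) • x := by
      rw [hst, hst']
      conv_lhs => rw [ha, HM.act_add, HM.act_smul, HM.act_smul, hb]
      rw [ha]
      module
    have h2 : HM.act g (HM.act g y) = (s + t) • HM.act g y - (s * t) • y := by
      rw [hst, hst']
      conv_lhs => rw [hb, HM.act_add, HM.act_smul, HM.act_smul, ha]
      rw [hb]
      module
    intro v hv
    obtain ⟨α, β, rfl⟩ := Submodule.mem_span_pair.1 hv
    rw [HM.act_add, HM.act_add, HM.act_smul, HM.act_smul, HM.act_smul, HM.act_smul, h1, h2]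
    module
  have hev : ∀ l l' : ℂ, l + l' = s + t → l * l' = s * t → l ≠ l' →
      ∃ p ∈ Pl x y, p ≠ 0 ∧ HM.act g p = l • p := by
    intro l l' h1 h2 h3
    have h4 : ∀ v ∈ Pl x y, HM.act g (HM.act g v - l' • v) = l • (HM.act g v - l' • v) := by
      intro v hv
      rw [act_sub, HM.act_smul, hCH v hv, ← h1, ← h2]
      module
    by_cases h5 : HM.act g x - l' • x = 0
    · refine ⟨HM.act g y - l' • y, Submodule.sub_mem _ hy (Submodule.smul_mem _ _ (right_mem x y)),
        ?_, h4 y (right_mem x y)⟩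
      intro h6
      rw [ha] at h5
      rw [hb] at h6
      have h7 := (LinearIndependent.pair_iff.1 h.indep) (a - l') c (by rw [← h5]; module)
      have h8 := (LinearIndependent.pair_iff.1 h.indep) b (d - l') (by rw [← h6]; module)
      apply h3
      linear_combination h1 + hst + h7.1 + h8.2
    · exact ⟨HM.act g x - l' • x, Submodule.sub_mem _ hx (Submodule.smul_mem _ _ (left_mem x y)),
        h5, h4 x (left_mem x y)⟩
  obtain ⟨p₀, hp₀, hp₀0, he₀⟩ := hev s t rfl rfl hne
  obtain ⟨p₁, hp₁, hp₁0, he₁⟩ := hev t s (add_comm _ _) (mul_comm _ _) hne.symm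
  have hiso : ∀ (l : ℂ) (p : Vec n), ‖l‖ ≠ 1 → HM.act g p = l • p → herm p p = 0 := by
    intro l p hl hp
    have h1 : herm (HM.act g p) (HM.act g p) = herm p p := herm_act g p p
    rw [hp, herm_smul_left, herm_smul_right, ← mul_assoc, Complex.star_def,
      Complex.conj_mul'] at h1
    have h2 : ((‖l‖ : ℂ) ^ 2 - 1) * herm p p = 0 := by linear_combination h1
    rcases mul_eq_zero.1 h2 with h3 | h3
    · exfalso
      apply hl
      have h4 : ((‖l‖ ^ 2 : ℝ) : ℂ) = 1 := by
        push_cast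
        linear_combination h3
      have h5 : ‖l‖ ^ 2 = 1 := by exact_mod_cast h4
      exact (pow_eq_one_iff_of_nonneg (norm_nonneg _) two_ne_zero).1 h5
    · exact h3
  have hi : LinearIndependent ℂ ![p₀, p₁] := by
    rw [LinearIndependent.pair_iff]
    intro α β hαβ
    have h1 : HM.act g (α • p₀ + β • p₁) = 0 := by rw [hαβ, act_zero]
    rw [HM.act_add, HM.act_smul, HM.act_smul, he₀, he₁] at h1
    have h2 : (β * (t - s)) • p₁ = 0 := by
      have h3 : (β * (t - s)) • p₁ = (α • s • p₀ + β • t • p₁) - s • (α • p₀ + β • p₁) := by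
        module
      rw [h3, h1, hαβ, smul_zero, sub_zero]
    have h4 : β = 0 := by
      rcases smul_eq_zero.1 h2 with h5 | h5
      · rcases mul_eq_zero.1 h5 with h6 | h6
        · exact h6
        · exact absurd (sub_eq_zero.1 h6).symm hne
      · exact absurd h5 hp₁0
    rw [h4, zero_smul, add_zero] at hαβ
    exact ⟨(smul_eq_zero.1 hαβ).resolve_right hp₀0, h4⟩
  have hspan : Submodule.span ℂ {p₀, p₁} = Pl x y := span_eq h.indep hp₀ hp₁ hi
  have hmem : ∀ (l : ℂ) (w : Vec n), ‖l‖ ≠ 1 → HM.act g w - l • w ∈ Pl x y → w ∈ Pl x y :=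
    fun l w hl hw => h.mem_of hx hy hl hw
  have hs1 : ‖s‖ ≠ 1 := hs.ne'
  have ht1' : ‖t‖ ≠ 1 := ht1.ne
  have hi₀ := hiso s p₀ hs1 he₀
  have hi₁ := hiso t p₁ ht1' he₁
  have hue : ∀ w, ∀ l : ℂ, ‖l‖ ≠ 1 → HM.act g w = l • w → w ∈ Pl x y := by
    intro w l hl hw
    refine hmem l w hl ?_
    rw [hw, sub_self]
    exact Submodule.zero_mem _
  refine ⟨p₀, p₁, s, t, ⟨he₀, he₁, hs, ht1, hi₀, hi₁, ?_, hspan, hmem, ?_, ?_⟩⟩
  · intro h0
    have h1 : ∀ v ∈ Pl x y, herm p₀ v = 0 := by
      intro v hv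
      rw [← hspan] at hv
      obtain ⟨α, β, rfl⟩ := Submodule.mem_span_pair.1 hv
      rw [herm_add_right, herm_smul_right, herm_smul_right, hi₀, h0, mul_zero, mul_zero, add_zero]
    apply hp₀0
    rw [h.dec hp₀, herm_comm p₀ x, herm_comm p₀ y, h1 x (left_mem x y), h1 y (right_mem x y)]
    simp
  · intro w hw
    have h1 := hue w s hs1 hw
    rw [← hspan] at h1
    obtain ⟨α, β, rfl⟩ := Submodule.mem_span_pair.1 h1
    rw [HM.act_add, HM.act_smul, HM.act_smul, he₀, he₁] at hw
    have h2 : (0 : ℂ) • p₀ + (β * (t - s)) • p₁ = 0 := by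
      have h3 : (0 : ℂ) • p₀ + (β * (t - s)) • p₁ =
          (α • s • p₀ + β • t • p₁) - s • (α • p₀ + β • p₁) := by module
      rw [h3, hw, sub_self]
    have h4 := ((LinearIndependent.pair_iff.1 hi) _ _ h2).2
    have h5 : β = 0 := (mul_eq_zero.1 h4).resolve_right (sub_ne_zero.2 hne.symm)
    exact ⟨α, by rw [h5, zero_smul, add_zero]⟩
  · intro w hw
    have h1 := hue w t ht1' hw
    rw [← hspan] at h1
    obtain ⟨α, β, rfl⟩ := Submodule.mem_span_pair.1 h1
    rw [HM.act_add, HM.act_smul, HM.act_smul, he₀, he₁] at hw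
    have h2 : (α * (s - t)) • p₀ + (0 : ℂ) • p₁ = 0 := by
      have h3 : (α * (s - t)) • p₀ + (0 : ℂ) • p₁ =
          (α • s • p₀ + β • t • p₁) - t • (α • p₀ + β • p₁) := by module
      rw [h3, hw, sub_self]
    have h4 := ((LinearIndependent.pair_iff.1 hi) _ _ h2).1
    have h5 : α = 0 := (mul_eq_zero.1 h4).resolve_right (sub_ne_zero.2 hne)
    exact ⟨β, by rw [h5, zero_smul, zero_add]⟩

end Pool.Agent.Lib.MP_5d4057_al.DR.Hyp
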