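import Pool.Agent.Lib.MP_5d4057_al.DR.Gm
import Pool.Agent.Lib.MP_5d4057_al.DR.Hess
import Pool.Agent.Lib.MP_5d4057_al.HM.Kak

/-!
# DER, T2 (F5): local solutions, second half of `Loc` (helper4)
-/

set_option autoImplicit false

namespace Pool.Agent.Lib.MP_5d4057_al.DR

open MvPowerSeries Filter Topology Matrix Pool.Agent.Lib.MP_5d4057_al
  Pool.Agent.Lib.MP_5d4057_al.Hyb Pool.Agent.Lib.MP_5d4057_al.HM Pool.Agent.Lib.MP_5d4057_al.QB

section general

variable {N : ℕ}

theorem ls_congr (i : Fin N) {f g : (Fin N → ℂ) → ℂ} {y : Fin N → ℂ} (h : f =ᶠ[𝓝 y] g) :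
    pd i f =ᶠ[𝓝 y] pd i g := by
  filter_upwards [h.fderiv (𝕜 := ℂ)] with z hz
  simp only [pd, hz]

theorem FS.congr {D : Derivation ℤ ℂ ℂ} {F : Fin N → (Fin N → ℂ) → ℂ} {y : Fin N → ℂ}
    {V V' : (Fin N → ℂ) → (Fin N → ℂ)} (h : FS D F y V) (he : V =ᶠ[𝓝 y] V') : FS D F y V' := by
  have hi : ∀ i, (fun z => V z i) =ᶠ[𝓝 y] fun z => V' z i := fun i => he.mono fun z hz => by
    simp only [hz]
  refine ⟨fun i j l => ?_, fun i => ?_⟩
  · rw [← h.1 i j l]
    exact (ls_congr j (ls_congr l (hi i))).symm.eq_of_nhds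
  · rw [← (hi i).eq_of_nhds, ← h.2 i]
    refine Finset.sum_congr rfl fun j _ => ?_
    rw [(ls_congr j (hi i)).eq_of_nhds]

theorem ls_add {i : Fin N} {f g : (Fin N → ℂ) → ℂ} {y : Fin N → ℂ} (hf : DifferentiableAt ℂ f y)
    (hg : DifferentiableAt ℂ g y) : pd i (fun z => f z + g z) y = pd i f y + pd i g y := by
  simp only [pd]
  rw [show (fun z => f z + g z) = f + g from rfl, fderiv_add hf hg]
  rfl

theorem ls_sub {i : Fin N} {f g : (Fin N → ℂ) → ℂ} {y : Fin N → ℂ} (hf : DifferentiableAt ℂ f y)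
    (hg : DifferentiableAt ℂ g y) : pd i (fun z => f z - g z) y = pd i f y - pd i g y := by
  simp only [pd]
  rw [show (fun z => f z - g z) = f - g from rfl, fderiv_sub hf hg]
  rfl

theorem ls_mul {i : Fin N} {f g : (Fin N → ℂ) → ℂ} {y : Fin N → ℂ} (hf : DifferentiableAt ℂ f y)
    (hg : DifferentiableAt ℂ g y) :
    pd i (fun z => f z * g z) y = pd i f y * g y + f y * pd i g y := by
  simp only [pd]
  rw [show (fun z => f z * g z) = f * g from rfl, fderiv_mul hf hg]
  simp only [_root_.add_apply, _root_.smul_apply, smul_eq_mul]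
  ring

theorem ls_lin_eq (L : Matrix (Fin N) (Fin N) ℂ) (i : Fin N) :
    (fun z : Fin N → ℂ => (L *ᵥ z) i) = fun z => ∑ j, L i j * z j := rfl

theorem ls_hlin (L : Matrix (Fin N) (Fin N) ℂ) (i : Fin N) (y : Fin N → ℂ) :
    HasFDerivAt (fun z : Fin N → ℂ => (L *ᵥ z) i)
      (∑ j, L i j • ContinuousLinearMap.proj (R := ℂ) (φ := fun _ : Fin N => ℂ) j) y := by
  rw [ls_lin_eq]
  refine HasFDerivAt.fun_sum fun j _ => ?_
  exact (ContinuousLinearMap.proj (R := ℂ) (φ := fun _ : Fin N => ℂ) j).hasFDerivAt.const_mul _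

theorem ls_lin (L : Matrix (Fin N) (Fin N) ℂ) (i j : Fin N) :
    pd j (fun z : Fin N → ℂ => (L *ᵥ z) i) = fun _ => L i j := by
  funext y
  simp only [pd]
  rw [(ls_hlin L i y).fderiv, _root_.sum_apply]
  simp only [_root_.smul_apply, ContinuousLinearMap.proj_apply, smul_eq_mul]
  rw [Finset.sum_eq_single j]
  · simp
  · intro b _ hb
    simp [hb]
  · simp

theorem ls_const (j : Fin N) (c : ℂ) (y : Fin N → ℂ) : pd j (fun _ => c) y = 0 := by
  simp [pd]

theorem ls_an_lin (L : Matrix (Fin N) (Fin N) ℂ) (i : Fin N) (y : Fin N → ℂ) :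
    AnalyticAt ℂ (fun z : Fin N → ℂ => (L *ᵥ z) i) y := by
  rw [ls_lin_eq]
  refine Finset.analyticAt_fun_sum _ fun j _ => ?_
  exact analyticAt_const.mul
    ((ContinuousLinearMap.proj (R := ℂ) (φ := fun _ : Fin N => ℂ) j).analyticAt y)

/-- Adding a linear field to a solution of the equations. -/
theorem FS.add_linear {D : Derivation ℤ ℂ ℂ} {F : Fin N → (Fin N → ℂ) → ℂ} {y : Fin N → ℂ}
    {V : (Fin N → ℂ) → (Fin N → ℂ)} (h : FS D F y V) (ha : ∀ i, AnalyticAt ℂ (fun z => V z i) y)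
    (L : Matrix (Fin N) (Fin N) ℂ) : FS D F y fun z => V z + L *ᵥ z := by
  have e1 : ∀ i l, ∀ᶠ z in 𝓝 y, pd l (fun z => (V z + L *ᵥ z) i) z =
      pd l (fun z => V z i) z + L i l := by
    intro i l
    filter_upwards [(ha i).eventually_analyticAt] with z hz
    have := ls_add (i := l) hz.differentiableAt (ls_an_lin L i z).differentiableAt
    rw [ls_lin] at this
    exact this
  refine ⟨fun i j l => ?_, fun i => ?_⟩
  · rw [(ls_congr j (e1 i l)).eq_of_nhds,
      ls_add (an_dd l (ha i)).differentiableAt (differentiableAt_const _), ls_const, add_zero]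
    exact h.1 i j l
  · have h2 : ∀ j, pd j (fun z => (V z + L *ᵥ z) i) y = pd j (fun z => V z i) y + L i j :=
      fun j => (e1 i j).self_of_nhds
    simp only [h2, mul_add, Finset.sum_add_distrib]
    rw [h.2 i, Pi.add_apply]
    congr 1
    simp only [Matrix.mulVec, dotProduct]
    exact Finset.sum_congr rfl fun j _ => mul_comm _ _

/-- Two solutions of the equations near a point differ by a linear field. -/
theorem FS.unique {D : Derivation ℤ ℂ ℂ} {F : Fin N → (Fin N → ℂ) → ℂ} {y : Fin N → ℂ}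
    {V V' : (Fin N → ℂ) → (Fin N → ℂ)} (ha : ∀ i, AnalyticAt ℂ (fun z => V z i) y)
    (ha' : ∀ i, AnalyticAt ℂ (fun z => V' z i) y) (h : ∀ᶠ z in 𝓝 y, FS D F z V)
    (h' : ∀ᶠ z in 𝓝 y, FS D F z V') :
    ∃ L : Matrix (Fin N) (Fin N) ℂ, ∀ᶠ z in 𝓝 y, V' z = V z + L *ᵥ z := by
  have key : ∀ i, ∃ l : Fin N → ℂ, ∀ᶠ z in 𝓝 y, V' z i - V z i = ∑ j, l j * z j := by
    intro i
    have hg : AnalyticAt ℂ (fun z => V' z i - V z i) y := (ha' i).sub (ha i)
    have hd : ∀ l, (pd l fun z => V' z i - V z i) =ᶠ[𝓝 y]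
        fun z => pd l (fun z => V' z i) z - pd l (fun z => V z i) z := by
      intro l
      filter_upwards [(ha i).eventually_analyticAt, (ha' i).eventually_analyticAt] with z h1 h2
      exact ls_sub h2.differentiableAt h1.differentiableAt
    have h2 : ∀ j l, (pd j (pd l fun z => V' z i - V z i)) =ᶠ[𝓝 y] fun _ => 0 := by
      intro j l
      have h3 := ls_congr j (hd l)
      filter_upwards [h3, h, h', (ha i).eventually_analyticAt,
        (ha' i).eventually_analyticAt] with z h3 h4 h5 h6 h7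
      rw [h3, ls_sub (an_dd l h7).differentiableAt (an_dd l h6).differentiableAt, h4.1 i j l,
        h5.1 i j l, sub_self]
    have e2 : ∀ j l, pderiv ℂ j (pderiv ℂ l (Tay y fun z => V' z i - V z i)) = 0 := by
      intro j l
      rw [← Tay_pd l hg, ← Tay_pd j (an_dd l hg), Tay_congr (h2 j l), Tay_const, map_zero]
    have e3 : ∑ j, (C (y j) + MvPowerSeries.X j) * pderiv ℂ j (Tay y fun z => V' z i - V z i) =
        Tay y fun z => V' z i - V z i := by
      have := Tay_euler (Q := y) (k := 1) hg (by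
        filter_upwards [h, h', eventually_all.2 hd] with z h4 h5 h6
        rw [Int.cast_one, one_mul, ← h4.2 i, ← h5.2 i, ← Finset.sum_sub_distrib]
        refine Finset.sum_congr rfl fun j _ => ?_
        rw [h6 j]
        ring)
      rw [Int.cast_one, one_mul] at this
      exact this
    obtain ⟨l, hl⟩ := eq_linear e2 e3
    refine ⟨l, ?_⟩
    have hco : ∀ j : Fin N, AnalyticAt ℂ (fun z : Fin N → ℂ => z j) y := fun j =>
      (ContinuousLinearMap.proj (R := ℂ) (φ := fun _ : Fin N => ℂ) j).analyticAt y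
    have hl2 : Tay y (fun z => ∑ j, l j * z j) =
        ∑ j, C (l j) * (C (y j) + MvPowerSeries.X j) := by
      rw [Tay_sum Finset.univ (fun j z => l j * z j) fun j _ => analyticAt_const.mul (hco j)]
      refine Finset.sum_congr rfl fun j _ => ?_
      rw [Tay_mul analyticAt_const (hco j), Tay_const, Tay_coord]
    have hgl : AnalyticAt ℂ (fun z : Fin N → ℂ => ∑ j, l j * z j) y :=
      Finset.analyticAt_fun_sum _ fun j _ => analyticAt_const.mul (hco j)
    exact Tay_ext hg hgl (hl.trans hl2.symm)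
  choose l hl using key
  refine ⟨Matrix.of l, ?_⟩
  filter_upwards [eventually_all.2 hl] with z hz
  funext i
  have := hz i
  rw [Pi.add_apply]
  simp only [Matrix.mulVec, dotProduct, Matrix.of_apply]
  linear_combination this

end general

section sol

variable {n : ℕ} {Γ : Subgroup (SUGroup n)} {k l : ℕ} {F : Fin (n + 1) → Vec n → ℂ} {f : Vec n → ℂ}

/-- `Sol` is an open condition. -/
theorem Sol.eventually {D : Derivation ℤ ℂ ℂ} {Q : Vec n} {W : Vec n → Vec n}
    (h : Sol D F Q W) : ∀ᶠ y in 𝓝 Q, Sol D F y W := by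
  filter_upwards [eventually_all.2 fun i => (h.1 i).eventually_analyticAt,
    eventually_eventually_nhds.2 h.2] with y h1 h2 using ⟨h1, h2⟩

theorem Sol.congr {D : Derivation ℤ ℂ ℂ} {Q : Vec n} {W W' : Vec n → Vec n}
    (h : Sol D F Q W) (he : W =ᶠ[𝓝 Q] W') : Sol D F Q W' := by
  refine ⟨fun i => (h.1 i).congr (he.mono fun z hz => by simp only [hz]), ?_⟩
  filter_upwards [h.2, eventually_eventually_nhds.2 he] with y h1 h2 hJ
  refine (h1 hJ).congr ?_
  filter_upwards [h2] with z hz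
  rw [hz]

/-- The zero set of the Jacobian has no interior point. -/
theorem Jac_ne (hF : ∀ i, Fm Γ (fun _ => 1) k (F i)) (hJ : ∃ v ∈ Cone n, Jac F v ≠ 0) {Q : Vec n}
    (hQ : Q ∈ Cone n) : ∃ᶠ y in 𝓝 Q, Jac F y ≠ 0 := by
  intro hcon
  obtain ⟨v, hv, hJv⟩ := hJ
  apply hJv
  have h1 : ∀ᶠ y in 𝓝 Q, Jac F y = 0 := hcon.mono fun y hy => by
    by_contra h2
    exact hy h2
  exact (an_form (form_Jac hF)).eqOn_zero_of_preconnected_of_eventuallyEq_zero
    (HM.isPreconnected_cone n) hQ h1 hv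

/-- On the set where the Jacobian does not vanish the field `W / J` is analytic. -/
theorem ls_quot {Q : Vec n} {W : Vec n → Vec n} (hF : ∀ i, AnalyticAt ℂ (F i) Q)
    (hW : ∀ i, AnalyticAt ℂ (fun y => W y i) Q) (hJ : Jac F Q ≠ 0) (i : Fin (n + 1)) :
    AnalyticAt ℂ (fun y => ((Jac F y)⁻¹ • W y) i) Q := by
  simp only [Pi.smul_apply, smul_eq_mul]
  exact ((an_Jac hF).inv hJ).mul (hW i)

theorem Sol.add_linear {D : Derivation ℤ ℂ ℂ} {Q : Vec n} {W : Vec n → Vec n}
    (hF : ∀ i, AnalyticAt ℂ (F i) Q) (h : Sol D F Q W) (L : Mat (n + 1)) :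
    Sol D F Q fun y => W y + Jac F y • (L *ᵥ y) := by
  refine ⟨fun i => ?_, ?_⟩
  · simp only [Pi.add_apply, Pi.smul_apply, smul_eq_mul]
    exact (h.1 i).add ((an_Jac hF).mul (ls_an_lin L i Q))
  · filter_upwards [h.2, h.eventually, eventually_all.2 fun i => (hF i).eventually_analyticAt]
      with y h1 h2 h3 hJ
    refine ((h1 hJ).add_linear (fun i => ls_quot h3 h2.1 hJ i) L).congr ?_
    filter_upwards [(an_Jac h3).continuousAt.eventually_ne hJ] with z hz
    rw [smul_add, smul_smul, inv_mul_cancel₀ hz, one_smul]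

/-- Two solutions differ by `J` times a linear field. -/
theorem Sol.unique {D : Derivation ℤ ℂ ℂ} (hF : ∀ i, Fm Γ (fun _ => 1) k (F i))
    (hJ : ∃ v ∈ Cone n, Jac F v ≠ 0) {Q : Vec n} (hQ : Q ∈ Cone n) {W W' : Vec n → Vec n}
    (h : Sol D F Q W) (h' : Sol D F Q W') :
    ∃ L : Mat (n + 1), ∀ᶠ y in 𝓝 Q, W' y = W y + Jac F y • (L *ᵥ y) := by
  have hev : ∀ᶠ y in 𝓝 Q, Sol D F y W ∧ Sol D F y W' ∧ y ∈ Cone n :=
    h.eventually.and (h'.eventually.and ((isOpen_cone n).mem_nhds hQ))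
  obtain ⟨r, hr, hB⟩ := Metric.eventually_nhds_iff_ball.1 hev
  obtain ⟨y₀, hy₀J, hy₀B⟩ := ((Jac_ne hF hJ hQ).and_eventually
    (Metric.isOpen_ball.mem_nhds (Metric.mem_ball_self hr : Q ∈ Metric.ball Q r))).exists
  have hFa : ∀ y ∈ Cone n, ∀ i, AnalyticAt ℂ (F i) y := fun y hy i => an_form (hF i) y hy
  obtain ⟨hs, hs', hc⟩ := hB y₀ hy₀B
  have hJne : ∀ᶠ z in 𝓝 y₀, Jac F z ≠ 0 :=
    (an_Jac (hFa y₀ hc)).continuousAt.eventually_ne hy₀J
  obtain ⟨L, hL⟩ := FS.unique (D := D) (F := F) (y := y₀) (V := fun z => (Jac F z)⁻¹ • W z)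
    (V' := fun z => (Jac F z)⁻¹ • W' z) (fun i => ls_quot (hFa y₀ hc) hs.1 hy₀J i)
    (fun i => ls_quot (hFa y₀ hc) hs'.1 hy₀J i)
    (by filter_upwards [hs.2, hJne] with z h1 h2 using h1 h2)
    (by filter_upwards [hs'.2, hJne] with z h1 h2 using h1 h2)
  refine ⟨L, ?_⟩
  have hloc : ∀ᶠ z in 𝓝 y₀, W' z = W z + Jac F z • (L *ᵥ z) := by
    filter_upwards [hL, hJne] with z h1 h2
    have h3 := congrArg (fun v => Jac F z • v) h1
    simp only [smul_add, smul_smul, mul_inv_cancel₀ h2, one_smul] at h3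
    exact h3
  have hi : ∀ i, ∀ y ∈ Metric.ball Q r, W' y i - (W y i + Jac F y * (L *ᵥ y) i) = 0 := by
    intro i
    have han : AnalyticOnNhd ℂ (fun y => W' y i - (W y i + Jac F y * (L *ᵥ y) i))
        (Metric.ball Q r) := by
      intro y hy
      obtain ⟨h1, h2, h3⟩ := hB y hy
      exact (h2.1 i).sub ((h1.1 i).add ((an_Jac (hFa y h3)).mul (ls_an_lin L i y)))
    exact fun y hy => han.eqOn_zero_of_preconnected_of_eventuallyEq_zero
      (convex_ball Q r).isPreconnected hy₀B (by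
        filter_upwards [hloc] with z hz
        rw [hz]
        simp only [Pi.add_apply, Pi.smul_apply, smul_eq_mul, sub_self]
        rfl) hy
  filter_upwards [Metric.isOpen_ball.mem_nhds (Metric.mem_ball_self hr : Q ∈ Metric.ball Q r)]
    with y hy
  funext i
  have := hi i y hy
  simp only [Pi.add_apply, Pi.smul_apply, smul_eq_mul]
  linear_combination this

/-- Solutions are homogeneous of degree `1 - (n+1)(k+1)` near the point. -/
theorem Sol.euler {D : Derivation ℤ ℂ ℂ} (hF : ∀ i, Fm Γ (fun _ => 1) k (F i))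
    (hJ : ∃ v ∈ Cone n, Jac F v ≠ 0) {Q : Vec n} (hQ : Q ∈ Cone n) {W : Vec n → Vec n}
    (h : Sol D F Q W) : ∀ᶠ y in 𝓝 Q, ∀ i,
      ∑ j, y j * pd j (fun z => W z i) y = (1 - ((n + 1 : ℕ) : ℂ) * (k + 1)) * W y i := by
  have hev : ∀ᶠ y in 𝓝 Q, Sol D F y W ∧ y ∈ Cone n :=
    h.eventually.and ((isOpen_cone n).mem_nhds hQ)
  have hFa : ∀ y ∈ Cone n, ∀ i, AnalyticAt ℂ (F i) y := fun y hy i => an_form (hF i) y hy
  -- where the Jacobian does not vanish
  have hgood : ∀ y, Sol D F y W → y ∈ Cone n → Jac F y ≠ 0 → ∀ i,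
      ∑ j, y j * pd j (fun z => W z i) y = (1 - ((n + 1 : ℕ) : ℂ) * (k + 1)) * W y i := by
    intro y hs hc hJy i
    have hJa := an_Jac (hFa y hc)
    have hV : AnalyticAt ℂ (fun z => ((Jac F z)⁻¹ • W z) i) y := ls_quot (hFa y hc) hs.1 hJy i
    have hFS : FS D F y fun z => (Jac F z)⁻¹ • W z := (hs.2.self_of_nhds) hJy
    have hWe : (fun z => W z i) =ᶠ[𝓝 y] fun z => Jac F z * ((Jac F z)⁻¹ • W z) i := by
      filter_upwards [hJa.continuousAt.eventually_ne hJy] with z hz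
      simp only [Pi.smul_apply, smul_eq_mul]
      rw [mul_inv_cancel_left₀ hz]
    have hd : ∀ j, pd j (fun z => W z i) y = pd j (Jac F) y * ((Jac F y)⁻¹ • W y) i +
        Jac F y * pd j (fun z => ((Jac F z)⁻¹ • W z) i) y := by
      intro j
      rw [(ls_congr j hWe).eq_of_nhds, ls_mul hJa.differentiableAt hV.differentiableAt]
    have hE := euler_pd (form_Jac hF) hc
    have hVE := hFS.2 i
    have h1 : ∑ j, y j * pd j (fun z => W z i) y =
        (∑ j, y j * pd j (Jac F) y) * ((Jac F y)⁻¹ • W y) i +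
        Jac F y * ∑ j, y j * pd j (fun z => ((Jac F z)⁻¹ • W z) i) y := by
      rw [Finset.sum_mul, Finset.mul_sum, ← Finset.sum_add_distrib]
      refine Finset.sum_congr rfl fun j _ => ?_
      rw [hd j]
      ring
    rw [h1, hE, hVE]
    simp only [Pi.smul_apply, smul_eq_mul]
    have h2 : Jac F y * ((Jac F y)⁻¹ * W y i) = W y i := mul_inv_cancel_left₀ hJy _
    push_cast
    linear_combination (1 - ((n : ℂ) + 1) * (k + 1)) * h2
  filter_upwards [hev, eventually_eventually_nhds.2 hev] with y hy hye i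
  by_contra hne
  have hcont : ContinuousAt (fun y => ∑ j, y j * pd j (fun z => W z i) y -
      (1 - ((n + 1 : ℕ) : ℂ) * (k + 1)) * W y i) y := by
    refine ContinuousAt.sub ?_ (continuousAt_const.mul (hy.1.1 i).continuousAt)
    refine tendsto_finsetSum _ fun j _ => ?_
    exact ((continuous_apply j).continuousAt).mul (an_dd j (hy.1.1 i)).continuousAt
  have h1 := hcont.eventually_ne (sub_ne_zero.2 hne)
  obtain ⟨z, hz1, hz2, hz3⟩ := ((Jac_ne hF hJ hy.2).and_eventually (h1.and hye)).exists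
  exact hz2 (sub_eq_zero.2 (hgood z hz3.1 hz3.2 hz1 i))

theorem ls_an_det {N M : ℕ} {A : (Fin M → ℂ) → Matrix (Fin N) (Fin N) ℂ} {Q : Fin M → ℂ}
    (h : ∀ a j, AnalyticAt ℂ (fun y => A y a j) Q) : AnalyticAt ℂ (fun y => (A y).det) Q := by
  simp only [Matrix.det_apply]
  refine Finset.analyticAt_fun_sum _ fun σ _ => ?_
  simp only [Units.smul_def, zsmul_eq_mul]
  exact analyticAt_const.mul (Finset.analyticAt_fun_prod _ fun i _ => h _ _)

theorem ls_an_adj {N : ℕ} {F : Fin N → (Fin N → ℂ) → ℂ} {Q : Fin N → ℂ}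
    (hF : ∀ a, AnalyticAt ℂ (F a) Q) (i a : Fin N) :
    AnalyticAt ℂ (fun y => (Mj F y).adjugate i a) Q := by
  simp only [Matrix.adjugate_apply]
  refine ls_an_det fun b j => ?_
  by_cases hb : b = a
  · subst hb
    simp only [Matrix.updateRow_self]
    exact analyticAt_const
  · simp only [Matrix.updateRow_ne hb]
    exact an_dd j (hF b)

theorem ls_Xf {N : ℕ} {F : Fin N → (Fin N → ℂ) → ℂ} {y : Fin N → ℂ} (a i : Fin N) :
    Xf F a y i = (Jac F y)⁻¹ * (Mj F y).adjugate i a := by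
  simp only [Xf, Matrix.inv_def, Matrix.smul_apply, smul_eq_mul, Ring.inverse_eq_inv', Jac]

/-- **(F5)** Local solutions at every point, for one global frame, from local solutions for a frame
which is nondegenerate at the point. -/
theorem exists_sol_of (D : Derivation ℤ ℂ ℂ) (hd : Dep Γ) (hfr : Frs Γ) (hk : 0 < k)
    (hF : ∀ i, Fm Γ (fun _ => 1) k (F i)) {Q : Vec n} (hQ : Q ∈ Cone n)
    (hFS : ∀ {l : ℕ}, 0 < l → ∀ {F' : Fin (n + 1) → Vec n → ℂ}, (∀ i, Fm Γ (fun _ => 1) l (F' i)) →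
      Jac F' Q ≠ 0 → ∃ V : Vec n → Vec n, (∀ i, AnalyticAt ℂ (fun y => V y i) Q) ∧
        ∀ᶠ y in 𝓝 Q, FS D F' y V) :
    ∃ W : Vec n → Vec n, Sol D F Q W := by
  obtain ⟨l, hl, F', hF', hJ'⟩ := hfr Q hQ
  obtain ⟨V', hV', hFS'⟩ := hFS hl hF' hJ'
  have hFa : ∀ y ∈ Cone n, ∀ i, AnalyticAt ℂ (F i) y := fun y hy i => an_form (hF i) y hy
  have hFa' : ∀ y ∈ Cone n, ∀ i, AnalyticAt ℂ (F' i) y := fun y hy i => an_form (hF' i) y hy
  refine ⟨fun y i => Jac F y * V' y i +
    ∑ a, dlt D F' (F a) y * (Mj F y).adjugate i a, fun i => ?_, ?_⟩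
  · refine ((an_Jac (hFa Q hQ)).mul (hV' i)).add (Finset.analyticAt_fun_sum _ fun a _ => ?_)
    exact (dlt_form D hd hl hk hF' (hF a) hQ hJ').1.mul (ls_an_adj (hFa Q hQ) i a)
  · filter_upwards [(isOpen_cone n).mem_nhds hQ, (an_Jac (hFa' Q hQ)).continuousAt.eventually_ne hJ',
      eventually_eventually_nhds.2 hFS', eventually_all.2 fun i => (hV' i).eventually_analyticAt]
      with y hyC hyJ' hyFS hyV hyJ
    have h1 : Flat D F' y V' := flat_of_FS D hd hl hF' hyC hyJ' hyV hyFS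
    have h2 := h1.change D hyJ hyJ' (hFa y hyC) (hFa' y hyC) fun a =>
      dlt_form D hd hl hk hF' (hF a) hyC hyJ'
    refine (FS_of_flat D hd hk hF hyC hyJ h2).congr ?_
    filter_upwards [(an_Jac (hFa y hyC)).continuousAt.eventually_ne hyJ] with z hz
    funext i
    simp only [Pi.add_apply, Finset.sum_apply, Pi.smul_apply, smul_eq_mul, ls_Xf, mul_add,
      Finset.mul_sum, inv_mul_cancel_left₀ hz]
    congr 1
    refine Finset.sum_congr rfl fun a _ => ?_
    ring

end sol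

end Pool.Agent.Lib.MP_5d4057_al.DR
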