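import Pool.Agent.Lib.MP_5d4057_al.DR.LocF
import Pool.Agent.Lib.MP_5d4057_al.DR.LocS

/-!
# DER, T2 (F4), (F5): local solutions (`Sol.*`, `Jac_ne` are in `LocS`, `exists_FS` in `LocF`)
-/

set_option autoImplicit false

namespace Pool.Agent.Lib.MP_5d4057_al.DR

open MvPowerSeries Filter Topology Matrix Pool.Agent.Lib.MP_5d4057_al
  Pool.Agent.Lib.MP_5d4057_al.Hyb Pool.Agent.Lib.MP_5d4057_al.HM Pool.Agent.Lib.MP_5d4057_al.QB

variable {n : ℕ} {Γ : Subgroup (SUGroup n)} {k l : ℕ} {F : Fin (n + 1) → Vec n → ℂ} {f : Vec n → ℂ}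

/-- **(F5)** Local solutions at every point, for one global frame. -/
theorem exists_sol (D : Derivation ℤ ℂ ℂ) (hd : Dep Γ) (hfr : Frs Γ) (hk : 0 < k)
    (hF : ∀ i, Fm Γ (fun _ => 1) k (F i)) {Q : Vec n} (hQ : Q ∈ Cone n) :
    ∃ W : Vec n → Vec n, Sol D F Q W :=
  exists_sol_of D hd hfr hk hF hQ fun hl _ hF' hJ' => exists_FS D hd hl hF' hQ hJ'

end Pool.Agent.Lib.MP_5d4057_al.DR
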