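import Mathlib

/-! # Lift of derivations: the algebra of (F5) and (F8), Euler's equation -/

open Finset

namespace Pool.Agent.Lib.MP_5d4057_al.DR

section Alg

variable {R : Type*} [CommRing R] {N : ℕ}

/-- (F5): if `u = h + M w` then `adj(M) u = adj(M) h + det(M) w`. -/
theorem adj_mulVec (M : Matrix (Fin N) (Fin N) R) {u h w : Fin N → R}
    (hu : u = h + M.mulVec w) :
    M.adjugate.mulVec u = M.adjugate.mulVec h + M.det • w := by
  rw [hu, Matrix.mulVec_add, Matrix.mulVec_mulVec, Matrix.adjugate_mul, Matrix.smul_mulVec,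
    Matrix.one_mulVec]

/-- (F8): the numerator is the denominator times `Db f + (L y) . df`. -/
theorem num_eq {J PT PD Dbf : R} {WQ W Ly df : Fin N → R}
    (h2 : J * PT * Dbf - PT * ∑ i, WQ i * df i = - (J * PD))
    (hW : ∀ i, W i = WQ i + J * Ly i) :
    - (J * PD) + PT * ∑ i, W i * df i = J * PT * (Dbf + ∑ i, Ly i * df i) := by
  have h3 : ∑ i, W i * df i = ∑ i, WQ i * df i + J * ∑ i, Ly i * df i := by
    rw [Finset.mul_sum, ← Finset.sum_add_distrib]
    refine Finset.sum_congr rfl fun i _ => ?_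
    rw [hW i]
    ring
  rw [h3]
  linear_combination -h2

/-- Euler's operator commutes with `Db` and with the linear vector fields. -/
theorem euler_lift (d : Fin N → R → R) (Db : R → R) (y : Fin N → R) (L : Fin N → Fin N → R)
    (hd0 : ∀ i, d i 0 = 0) (hda : ∀ i a b, d i (a + b) = d i a + d i b)
    (hdm : ∀ i a b, d i (a * b) = a * d i b + b * d i a)
    (hD0 : Db 0 = 0) (hDa : ∀ a b, Db (a + b) = Db a + Db b)
    (hDm : ∀ a b, Db (a * b) = a * Db b + b * Db a)
    (hdd : ∀ i j a, d i (d j a) = d j (d i a)) (hDd : ∀ i a, Db (d i a) = d i (Db a))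
    (hdy : ∀ i j, d i (y j) = if i = j then 1 else 0) (hDy : ∀ j, Db (y j) = 0)
    (hL : ∀ k i j, d k (L i j) = 0) (f : R) :
    ∑ k, y k * d k (Db f + ∑ i, (∑ j, L i j * y j) * d i f) =
      Db (∑ k, y k * d k f) + ∑ i, (∑ j, L i j * y j) * d i (∑ k, y k * d k f) := by
  have hds : ∀ (i : Fin N) (s : Finset (Fin N)) (g : Fin N → R),
      d i (∑ k ∈ s, g k) = ∑ k ∈ s, d i (g k) := by
    intro i s g
    induction s using Finset.cons_induction with
    | empty => rw [Finset.sum_empty, Finset.sum_empty, hd0]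
    | cons a s ha ih => rw [Finset.sum_cons, Finset.sum_cons, hda, ih]
  have hDs : ∀ (s : Finset (Fin N)) (g : Fin N → R),
      Db (∑ k ∈ s, g k) = ∑ k ∈ s, Db (g k) := by
    intro s g
    induction s using Finset.cons_induction with
    | empty => rw [Finset.sum_empty, Finset.sum_empty, hD0]
    | cons a s ha ih => rw [Finset.sum_cons, Finset.sum_cons, hDa, ih]
  have h1 : Db (∑ k, y k * d k f) = ∑ k, y k * d k (Db f) := by
    rw [hDs]
    refine Finset.sum_congr rfl fun k _ => ?_
    rw [hDm, hDy, mul_zero, add_zero, hDd]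
  have h2 : ∀ i, d i (∑ k, y k * d k f) = d i f + ∑ k, y k * d k (d i f) := by
    intro i
    rw [hds]
    have h3 : ∀ k, d i (y k * d k f) = (if i = k then d k f else 0) + y k * d k (d i f) := by
      intro k
      rw [hdm, hdy, hdd i k]
      split_ifs
      · ring
      · ring
    rw [Finset.sum_congr rfl fun k _ => h3 k, Finset.sum_add_distrib, Finset.sum_ite_eq,
      if_pos (mem_univ i)]
  have h4 : ∀ k i, d k (∑ j, L i j * y j) = L i k := by
    intro k i
    rw [hds]
    have h5 : ∀ j, d k (L i j * y j) = if k = j then L i j else 0 := by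
      intro j
      rw [hdm, hdy, hL, mul_zero, add_zero, mul_ite, mul_one, mul_zero]
    rw [Finset.sum_congr rfl fun j _ => h5 j, Finset.sum_ite_eq, if_pos (mem_univ k)]
  have h6 : ∀ k, d k (∑ i, (∑ j, L i j * y j) * d i f) =
      ∑ i, ((∑ j, L i j * y j) * d k (d i f) + d i f * L i k) := by
    intro k
    rw [hds]
    refine Finset.sum_congr rfl fun i _ => ?_
    rw [hdm, h4]
  have h7 : ∑ k, y k * d k (Db f + ∑ i, (∑ j, L i j * y j) * d i f) =
      ∑ k, y k * d k (Db f) + ∑ k, ∑ i, (y k * ((∑ j, L i j * y j) * d k (d i f)) +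
        y k * (d i f * L i k)) := by
    rw [← Finset.sum_add_distrib]
    refine Finset.sum_congr rfl fun k _ => ?_
    rw [hda, h6, mul_add, Finset.mul_sum]
    congr 1
    refine Finset.sum_congr rfl fun i _ => ?_
    rw [mul_add]
  rw [h7, h1, Finset.sum_comm]
  congr 1
  refine Finset.sum_congr rfl fun i _ => ?_
  rw [h2, Finset.sum_add_distrib, mul_add, Finset.mul_sum, add_comm]
  congr 1
  · rw [Finset.sum_mul]
    refine Finset.sum_congr rfl fun k _ => ?_
    ring
  · refine Finset.sum_congr rfl fun k _ => ?_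
    ring

end Alg

section Euler

variable {E : Type*} [NormedAddCommGroup E] [NormedSpace ℂ E]

/-- A function which satisfies Euler's equation is homogeneous. -/
theorem hom_of_euler {CC : Set E} (hCC : IsOpen CC) (hc : ∀ c : ℂ, c ≠ 0 → ∀ y ∈ CC, c • y ∈ CC)
    {h : E → ℂ} (hd : DifferentiableOn ℂ h CC) {k : ℕ}
    (he : ∀ y ∈ CC, fderiv ℂ h y y = - ((k : ℂ) * h y)) {c : ℂ} (hc0 : c ≠ 0) {y : E} (hy : y ∈ CC) :
    h (c • y) = (c ^ k)⁻¹ * h y := by
  have hpre : IsPreconnected ({0}ᶜ : Set ℂ) :=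
    (isConnected_compl_singleton_of_one_lt_rank
      (by rw [Complex.rank_real_complex]; exact Nat.one_lt_ofNat) 0).isPreconnected
  have hopen : IsOpen ({0}ᶜ : Set ℂ) := isOpen_compl_singleton
  have hder : ∀ z ∈ ({0}ᶜ : Set ℂ), HasDerivAt (fun z : ℂ => z ^ k * h (z • y)) 0 z := by
    intro z hz
    have hz0 : z ≠ 0 := hz
    have h1 : HasFDerivAt h (fderiv ℂ h (z • y)) (z • y) :=
      ((hd (z • y) (hc z hz0 y hy)).differentiableAt (hCC.mem_nhds (hc z hz0 y hy))).hasFDerivAt
    have h2 : HasDerivAt (fun z : ℂ => z • y) y z := by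
      have := (hasDerivAt_id z).smul_const y
      simpa using this
    have h3 : HasDerivAt (fun z : ℂ => h (z • y)) (fderiv ℂ h (z • y) y) z :=
      h1.comp_hasDerivAt z h2
    have h4 := (hasDerivAt_pow k z).mul h3
    have h5 : (z : ℂ) * fderiv ℂ h (z • y) y = - ((k : ℂ) * h (z • y)) := by
      rw [← he (z • y) (hc z hz0 y hy), map_smul, smul_eq_mul]
    have h7 : (k : ℂ) * z ^ (k - 1) * h (z • y) + z ^ k * fderiv ℂ h (z • y) y = 0 := by
      rcases k with _ | k
      · have h6 : fderiv ℂ h (z • y) y = 0 := by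
          rw [Nat.cast_zero, zero_mul, neg_zero] at h5
          exact (mul_eq_zero.1 h5).resolve_left hz0
        rw [h6]
        simp
      · rw [Nat.add_sub_cancel, pow_succ]
        linear_combination (z ^ k) * h5
    rw [h7] at h4
    exact h4
  have h1 := hopen.is_const_of_deriv_eq_zero hpre
    (fun z hz => (hder z hz).differentiableAt.differentiableWithinAt)
    (fun z hz => (hder z hz).deriv) (show c ∈ ({0}ᶜ : Set ℂ) from hc0)
    (show (1 : ℂ) ∈ ({0}ᶜ : Set ℂ) from one_ne_zero)
  rw [one_pow, one_mul, one_smul] at h1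
  rw [← h1, inv_mul_cancel_left₀ (pow_ne_zero k hc0)]

end Euler

end Pool.Agent.Lib.MP_5d4057_al.DR
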