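import Pool.Agent.Lib.MP_5d4057_al.DR.Gm
import Pool.Agent.Lib.MP_5d4057_al.DR.Hess
import Pool.Agent.Lib.MP_5d4057_al.QB.Osg

/-!
# DER, T2 (F4): the tensor `Sb` and the local solutions at a regular point (helper15)
-/

set_option autoImplicit false

namespace Pool.Agent.Lib.MP_5d4057_al.DR

open MvPowerSeries Filter Topology Matrix Pool.Agent.Lib.MP_5d4057_al
  Pool.Agent.Lib.MP_5d4057_al.Hyb Pool.Agent.Lib.MP_5d4057_al.HM Pool.Agent.Lib.MP_5d4057_al.QB

variable {n : ℕ} {Γ : Subgroup (SUGroup n)} {k l : ℕ} {F : Fin (n + 1) → Vec n → ℂ} {f : Vec n → ℂ}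

/-- The tensor `Sb` is symmetric, closed and killed by the Euler field. -/
theorem Sb_symm (D : Derivation ℤ ℂ ℂ) (hd : Dep Γ) (hk : 0 < k)
    (hF : ∀ i, Fm Γ (fun _ => 1) k (F i)) {Q : Vec n} (hQ : Q ∈ Cone n) (hQJ : Jac F Q ≠ 0)
    (i j l : Fin (n + 1)) : Sb D F i j l Q = Sb D F i l j Q := by
  have h1 := (hess_T D hd hk hF hQ hQJ i j l).2
  have h2 := (hess_T D hd hk hF hQ hQJ i l j).2
  rw [← Tay_const_coeff Q (Sb D F i j l), ← Tay_const_coeff Q (Sb D F i l j), ← h1, ← h2, pderiv_comm]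

theorem Sb_closed (D : Derivation ℤ ℂ ℂ) (hd : Dep Γ) (hk : 0 < k)
    (hF : ∀ i, Fm Γ (fun _ => 1) k (F i)) {Q : Vec n} (hQ : Q ∈ Cone n) (hQJ : Jac F Q ≠ 0)
    (i j l p : Fin (n + 1)) : pd p (Sb D F i j l) Q = pd j (Sb D F i p l) Q := by
  have h1 := hess_T D hd hk hF hQ hQJ i j l
  have h2 := hess_T D hd hk hF hQ hQJ i p l
  rw [← Tay_const_coeff Q (pd p (Sb D F i j l)), ← Tay_const_coeff Q (pd j (Sb D F i p l)),
    Tay_pd p h1.1, Tay_pd j h2.1, ← h1.2, ← h2.2, pderiv_comm p j]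

theorem Sb_euler (D : Derivation ℤ ℂ ℂ) (hd : Dep Γ) (hk : 0 < k)
    (hF : ∀ i, Fm Γ (fun _ => 1) k (F i)) {Q : Vec n} (hQ : Q ∈ Cone n) (hQJ : Jac F Q ≠ 0)
    (i l : Fin (n + 1)) : ∑ j, Q j * Sb D F i j l Q = 0 := by
  have h0 := euler_wq (k := k) D hQJ (fun a => an_form (hF a) Q hQ) (fun a => by
    filter_upwards [(isOpen_cone n).mem_nhds hQ] with y hy
    exact euler_pd (hF a) hy) i
  have h1 := congrArg (pderiv ℂ l) h0
  rw [map_sum] at h1
  have h2 : ∀ j, pderiv ℂ l ((C (Q j) + MvPowerSeries.X j) * pderiv ℂ j (wq D F Q i)) =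
      (C (Q j) + MvPowerSeries.X j) * Tay Q (Sb D F i l j) + (if j = l then pderiv ℂ j (wq D F Q i) else 0) := by
    intro j
    rw [Derivation.leibniz, map_add, pderiv_C, zero_add, smul_eq_mul, smul_eq_mul,
      (hess_T D hd hk hF hQ hQJ i l j).2]
    congr 1
    by_cases hj : j = l
    · subst hj; rw [if_pos rfl, pderiv_X_self, mul_one]
    · rw [if_neg hj, pderiv_X_of_ne hj, mul_zero]
  rw [Finset.sum_congr rfl fun j _ => h2 j, Finset.sum_add_distrib, Finset.sum_ite_eq',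
    if_pos (Finset.mem_univ l), add_eq_right] at h1
  have h3 := congrArg constantCoeff h1
  rw [map_sum, map_zero] at h3
  rw [← h3]
  refine Finset.sum_congr rfl fun j _ => ?_
  rw [map_mul, map_add, Tay_const_coeff, constantCoeff_C, constantCoeff_X, add_zero,
    Sb_symm D hd hk hF hQ hQJ]

theorem hasFDerivAt_comb {E G : Type*} [NormedAddCommGroup E] [NormedSpace ℂ E]
    [NormedAddCommGroup G] [NormedSpace ℂ G] {ι : Type*} [Fintype ι] (B : ι → G) {S : ι → E → ℂ}
    {a : E} (hS : ∀ i, DifferentiableAt ℂ (S i) a) :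
    HasFDerivAt (fun y => ∑ i, S i y • B i) (∑ i, (fderiv ℂ (S i) a).smulRight (B i)) a :=
  HasFDerivAt.fun_sum fun i _ => (hS i).hasFDerivAt.smul_const (B i)

theorem hasFDerivAt_comb' {E G : Type*} [NormedAddCommGroup E] [NormedSpace ℂ E]
    [NormedAddCommGroup G] [NormedSpace ℂ G] {ι : Type*} [Fintype ι] (B : ι → G) {S : ι → E → ℂ}
    {a : E} (hS : ∀ i, DifferentiableAt ℂ (S i) a) :
    ∃ T : E →L[ℂ] G, HasFDerivAt (fun y => ∑ i, S i y • B i) T a ∧
      ∀ x, T x = ∑ i, fderiv ℂ (S i) a x • B i := by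
  refine ⟨_, hasFDerivAt_comb B hS, fun x => ?_⟩
  simp

/-- The elementary bilinear forms. -/
noncomputable def El (p : Fin (n + 1) × Fin (n + 1)) : Vec n →L[ℂ] Vec n →L[ℂ] ℂ :=
  (ContinuousLinearMap.proj (R := ℂ) (φ := fun _ : Fin (n + 1) => ℂ) p.1).smulRight
    (ContinuousLinearMap.proj (R := ℂ) (φ := fun _ : Fin (n + 1) => ℂ) p.2)

theorem El_apply (p : Fin (n + 1) × Fin (n + 1)) (x y : Vec n) : El p x y = x p.1 * y p.2 := by
  simp [El]

/-- The bilinear form with coefficients `S j l`. -/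
noncomputable def bil (S : Fin (n + 1) → Fin (n + 1) → ℂ) : Vec n →L[ℂ] Vec n →L[ℂ] ℂ :=
  ∑ p : Fin (n + 1) × Fin (n + 1), S p.1 p.2 • El p

theorem bil_apply (S : Fin (n + 1) → Fin (n + 1) → ℂ) (x y : Vec n) :
    bil S x y = ∑ j, ∑ l, S j l * (x j * y l) := by
  rw [bil]
  simp [El_apply, Fintype.sum_prod_type]

theorem hasFDerivAt_bil {S : Fin (n + 1) → Fin (n + 1) → Vec n → ℂ} {a : Vec n}
    (hS : ∀ j l, DifferentiableAt ℂ (S j l) a) :
    ∃ T' : Vec n →L[ℂ] Vec n →L[ℂ] Vec n →L[ℂ] ℂ,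
      HasFDerivAt (fun y => bil fun j l => S j l y) T' a ∧
        ∀ x, T' x = bil fun j l => fderiv ℂ (S j l) a x :=
  hasFDerivAt_comb' (El (n := n)) (S := fun p => S p.1 p.2) fun p => hS p.1 p.2

theorem fderiv_apply_sum {f : Vec n → ℂ} {a : Vec n} (x : Vec n) :
    fderiv ℂ f a x = ∑ j, x j * pd j f a := by
  have hx : x = ∑ j, x j • (Pi.single j (1 : ℂ) : Vec n) := by
    funext i
    rw [Finset.sum_apply, Finset.sum_eq_single i]
    · simp
    · intro j _ hj; simp [Pi.single_eq_of_ne hj.symm]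
    · intro hi; exact absurd (Finset.mem_univ i) hi
  conv_lhs => rw [hx]
  rw [map_sum]
  refine Finset.sum_congr rfl fun j _ => ?_
  rw [map_smul, smul_eq_mul]; rfl

/-- **(F4)** Local solutions at a point where the frame is nondegenerate (`hess_hom` of helper15 on a
small ball). -/
theorem exists_FS (D : Derivation ℤ ℂ ℂ) (hd : Dep Γ) (hk : 0 < k)
    (hF : ∀ i, Fm Γ (fun _ => 1) k (F i)) {Q : Vec n} (hQ : Q ∈ Cone n) (hQJ : Jac F Q ≠ 0) :
    ∃ V : Vec n → Vec n, (∀ i, AnalyticAt ℂ (fun y => V y i) Q) ∧ ∀ᶠ y in 𝓝 Q, FS D F y V := by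
  have hev0 : ∀ᶠ y in 𝓝 Q, y ∈ Cone n := (isOpen_cone n).mem_nhds hQ
  have hev : ∀ᶠ y in 𝓝 Q, y ∈ Cone n ∧ Jac F y ≠ 0 :=
    hev0.and ((an_Jac fun a => an_form (hF a) Q hQ).continuousAt.eventually_ne hQJ)
  obtain ⟨r, hr, hrb⟩ := Metric.eventually_nhds_iff_ball.1 hev
  set O := Metric.ball Q r with hO
  have hOo : IsOpen O := Metric.isOpen_ball
  have hOc : Convex ℝ O := convex_ball _ _
  have han : ∀ i j l, ∀ y ∈ O, AnalyticAt ℂ (Sb D F i j l) y := fun i j l y hy =>
    (hess_T D hd hk hF (hrb y hy).1 (hrb y hy).2 i j l).1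
  have key : ∀ i : Fin (n + 1), ∃ (g : Vec n → Vec n →L[ℂ] ℂ) (w : Vec n → ℂ),
      (∀ a ∈ O, HasFDerivAt g (bil fun j l => Sb D F i j l a) a) ∧
      (∀ a ∈ O, HasFDerivAt w (g a) a) ∧ ∀ a ∈ O, g a a = w a := by
    intro i
    have hder : ∀ a ∈ O, ∃ T' : Vec n →L[ℂ] Vec n →L[ℂ] Vec n →L[ℂ] ℂ,
        HasFDerivAt (fun y => bil fun j l => Sb D F i j l y) T' a ∧
          ∀ x, T' x = bil fun j l => fderiv ℂ (Sb D F i j l) a x := fun a ha =>
      hasFDerivAt_bil fun j l => (han i j l a ha).differentiableAt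
    refine hess_hom hOc hOo (fun a ha => by
      obtain ⟨T', h1, _⟩ := hder a ha
      exact h1.differentiableAt.differentiableWithinAt) ?_ ?_ ?_
    · intro a ha x y
      rw [bil_apply, bil_apply, Finset.sum_comm]
      refine Finset.sum_congr rfl fun l _ => Finset.sum_congr rfl fun j _ => ?_
      rw [Sb_symm D hd hk hF (hrb a ha).1 (hrb a ha).2]; ring
    · intro a ha x y
      obtain ⟨T', h1, h2⟩ := hder a ha
      rw [h1.fderiv, h2, h2]
      ext z
      rw [bil_apply, bil_apply]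
      have e : ∀ u v : Vec n, ∑ j, ∑ l, fderiv ℂ (Sb D F i j l) a u * (v j * z l) =
          ∑ j, ∑ l, ∑ p, pd p (Sb D F i j l) a * (u p * v j * z l) := by
        intro u v
        refine Finset.sum_congr rfl fun j _ => Finset.sum_congr rfl fun l _ => ?_
        rw [fderiv_apply_sum, Finset.sum_mul]
        refine Finset.sum_congr rfl fun p _ => ?_
        ring
      rw [e, e]
      have e2 : ∀ u v : Vec n, ∑ j, ∑ l, ∑ p, pd p (Sb D F i j l) a * (u p * v j * z l) =
          ∑ l, ∑ j, ∑ p, pd p (Sb D F i j l) a * (u p * v j * z l) := fun u v => Finset.sum_comm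
      rw [e2, e2]
      refine Finset.sum_congr rfl fun l _ => ?_
      rw [Finset.sum_comm]
      refine Finset.sum_congr rfl fun p _ => Finset.sum_congr rfl fun j _ => ?_
      rw [Sb_closed D hd hk hF (hrb a ha).1 (hrb a ha).2]
      ring
    · intro a ha
      ext y
      rw [bil_apply, Finset.sum_comm]
      have : ∀ l, ∑ j, Sb D F i j l a * (a j * y l) = y l * ∑ j, a j * Sb D F i j l a := by
        intro l
        rw [Finset.mul_sum]
        refine Finset.sum_congr rfl fun j _ => ?_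
        ring
      rw [Finset.sum_congr rfl fun l _ => this l]
      rw [Finset.sum_eq_zero fun l _ => by
        rw [Sb_euler D hd hk hF (hrb a ha).1 (hrb a ha).2, mul_zero]]
      rfl
  choose g w hg hw hgw using key
  refine ⟨fun y i => w i y, fun i => ?_, ?_⟩
  · have hdw : DifferentiableOn ℂ (w i) O := fun a ha =>
      (hw i a ha).differentiableAt.differentiableWithinAt
    exact QB.analyticOnNhd hOo hdw Q (Metric.mem_ball_self hr)
  · filter_upwards [hOo.mem_nhds (Metric.mem_ball_self hr)] with y hy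
    refine ⟨fun i j l => ?_, fun i => ?_⟩
    · have h1 : pd l (fun z => w i z) =ᶠ[𝓝 y] fun z => g i z (Pi.single l 1) := by
        filter_upwards [hOo.mem_nhds hy] with z hz
        show fderiv ℂ (w i) z (Pi.single l 1) = _
        rw [(hw i z hz).fderiv]
      show fderiv ℂ (pd l fun z => w i z) y (Pi.single j 1) = _
      rw [h1.fderiv_eq]
      have h2 : HasFDerivAt (fun z => g i z (Pi.single l (1 : ℂ)))
          ((bil fun j l => Sb D F i j l y).flip (Pi.single l (1 : ℂ))) y := by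
        have h3 := (ContinuousLinearMap.apply ℂ ℂ (Pi.single l (1 : ℂ) : Vec n)).hasFDerivAt.comp y
          (hg i y hy)
        exact h3
      rw [h2.fderiv, ContinuousLinearMap.flip_apply]
      rw [bil_apply, Finset.sum_eq_single j, Finset.sum_eq_single l]
      · simp
      · intro m _ hm; simp [Pi.single_eq_of_ne hm]
      · intro h; exact absurd (Finset.mem_univ _) h
      · intro m _ hm
        refine Finset.sum_eq_zero fun p _ => ?_
        simp [Pi.single_eq_of_ne hm]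
      · intro h; exact absurd (Finset.mem_univ _) h
    · show ∑ j, y j * pd j (fun z => w i z) y = w i y
      rw [← fderiv_apply_sum (f := w i) y, (hw i y hy).fderiv, hgw i y hy]

end Pool.Agent.Lib.MP_5d4057_al.DR
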