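import Pool.Agent.Lib.MP_5d4057_al.DR.QfA

/-!
# DER: algebraic frames, part B

The invariant hermitian form of a group with algebraic entries has algebraic entries after a real scaling; kernels of
algebraic matrices.
-/

set_option autoImplicit false

namespace Pool.Agent.Lib.MP_5d4057_al.DR

open Matrix

open scoped ComplexOrder

variable {N : ℕ}

private theorem qb_conj_span {G : Type} {σ : G → Matrix (Fin N) (Fin N) ℂ}
    (hs : Submodule.span ℂ (Set.range σ) = ⊤) {P : Matrix (Fin N) (Fin N) ℂ} (hP : P.det ≠ 0) :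
    Submodule.span ℂ (Set.range fun g => P⁻¹ * σ g * P) = ⊤ := by
  have hPu : IsUnit P.det := hP.isUnit
  rw [eq_top_iff]
  intro M _
  have h1 : P * M * P⁻¹ ∈ Submodule.span ℂ (Set.range σ) := by rw [hs]; exact Submodule.mem_top
  have key : ∀ X ∈ Submodule.span ℂ (Set.range σ),
      P⁻¹ * X * P ∈ Submodule.span ℂ (Set.range fun g => P⁻¹ * σ g * P) := by
    intro X hX
    induction hX using Submodule.span_induction with
    | mem x hx =>
      obtain ⟨g, rfl⟩ := hx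
      exact Submodule.subset_span ⟨g, rfl⟩
    | zero => rw [Matrix.mul_zero, Matrix.zero_mul]; exact Submodule.zero_mem _
    | add x y _ _ h1 h2 =>
      rw [Matrix.mul_add, Matrix.add_mul]
      exact Submodule.add_mem _ h1 h2
    | smul c x _ h1 =>
      rw [Matrix.mul_smul, Matrix.smul_mul]
      exact Submodule.smul_mem _ _ h1
  have h2 := key _ h1
  have h3 : P⁻¹ * (P * M * P⁻¹) * P = M := by
    calc P⁻¹ * (P * M * P⁻¹) * P = (P⁻¹ * P) * M * (P⁻¹ * P) := by simp only [Matrix.mul_assoc]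
      _ = M := by rw [Matrix.nonsing_inv_mul P hPu, Matrix.one_mul, Matrix.mul_one]
  rwa [h3] at h2

/-- The form, up to a complex scalar. -/
private theorem qb_form {G : Type} [Group G] (σ : G →* Matrix (Fin N) (Fin N) ℂ)
    (hs : Submodule.span ℂ (Set.range σ) = ⊤) (hσ : ∀ g, AlgM (σ g))
    {H : Matrix (Fin N) (Fin N) ℂ} (hH : H.det ≠ 0) (hσH : ∀ g, (σ g)ᴴ * H * σ g = H) (hN : N ≠ 0) :
    ∃ c : ℂ, c ≠ 0 ∧ AlgM (c • H) := by
  classical
  have hHu : IsUnit H.det := hH.isUnit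
  have hadj : ∀ M ∈ Submodule.span QB (Set.range σ), AlgM (H⁻¹ * Mᴴ * H) := by
    intro M hM
    induction hM using Submodule.span_induction with
    | mem x hx =>
      obtain ⟨g, rfl⟩ := hx
      have h1 : H⁻¹ * (σ g)ᴴ * H = σ g⁻¹ := by
        have h2 : σ g * σ g⁻¹ = 1 := by rw [← map_mul, mul_inv_cancel, map_one]
        calc H⁻¹ * (σ g)ᴴ * H = H⁻¹ * (σ g)ᴴ * H * (σ g * σ g⁻¹) := by rw [h2, Matrix.mul_one]
          _ = H⁻¹ * ((σ g)ᴴ * H * σ g) * σ g⁻¹ := by simp only [Matrix.mul_assoc]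
          _ = σ g⁻¹ := by rw [hσH, Matrix.nonsing_inv_mul H hHu, Matrix.one_mul]
      rw [h1]
      exact hσ _
    | zero =>
      rw [conjTranspose_zero, Matrix.mul_zero, Matrix.zero_mul]
      exact AlgM.zero
    | add x y _ _ h1 h2 =>
      rw [conjTranspose_add, Matrix.mul_add, Matrix.add_mul]
      exact h1.add h2
    | smul c x _ h1 =>
      have h2 : (c • x)ᴴ = star (c : ℂ) • xᴴ := by
        ext i j
        rw [conjTranspose_apply]
        change star ((c : ℂ) * x j i) = _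
        rw [star_mul', Matrix.smul_apply, conjTranspose_apply, smul_eq_mul]
      rw [h2, Matrix.mul_smul, Matrix.smul_mul]
      exact h1.smul (alg_star (qb_alg c))
  have hall : ∀ p b a r, IsAlgebraic ℚ (H⁻¹ a r * H p b) := by
    intro p b a r
    have h1 : AlgM (Matrix.single p r (1 : ℂ)) := fun i j => by
      rw [Matrix.single_apply]
      split_ifs
      · exact isAlgebraic_one
      · exact isAlgebraic_zero
    have h2 := hadj _ (mem_span_alg (T := Set.range σ) (by rintro _ ⟨g, rfl⟩; exact hσ g) hs h1) a b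
    have h3 : (H⁻¹ * (Matrix.single p r (1 : ℂ))ᴴ * H) a b = H⁻¹ a r * H p b := by
      rw [conjTranspose_single, star_one, Matrix.mul_apply, Finset.sum_eq_single p]
      · rw [Matrix.mul_single_apply_same, mul_one]
      · intro x _ hx
        rw [Matrix.mul_single_apply_of_ne _ _ _ _ _ hx, zero_mul]
      · intro h
        exact absurd (Finset.mem_univ _) h
    rw [h3] at h2
    exact h2
  -- a nonzero entry of the inverse
  obtain ⟨a, r, har⟩ : ∃ a r, H⁻¹ a r ≠ 0 := by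
    by_contra hcon
    push Not at hcon
    have h1 : H⁻¹ = 0 := by ext i j; exact hcon i j
    have h2 := Matrix.nonsing_inv_mul H hHu
    rw [h1, Matrix.zero_mul] at h2
    have h3 := congrFun (congrFun h2 ⟨0, Nat.pos_of_ne_zero hN⟩) ⟨0, Nat.pos_of_ne_zero hN⟩
    rw [Matrix.zero_apply, Matrix.one_apply_eq] at h3
    exact zero_ne_one h3
  exact ⟨H⁻¹ a r, har, fun i j => hall i j a r⟩

/-- The form, up to a real scalar. -/
private theorem qb_real {H : Matrix (Fin N) (Fin N) ℂ} (hH : H ≠ 0) (hHh : Hᴴ = H) {c : ℂ}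
    (hc : c ≠ 0) (h : AlgM (c • H)) : ∃ r : ℝ, 0 < r ∧ AlgM ((r : ℂ) • H) := by
  obtain ⟨p, b, hpb⟩ : ∃ p b, H p b ≠ 0 := by
    by_contra hcon
    push Not at hcon
    exact hH (by ext i j; exact hcon i j)
  have hsym : star (H p b) = H b p := by
    have h1 := congrFun (congrFun hHh b) p
    rwa [conjTranspose_apply] at h1
  have hbp : H b p ≠ 0 := by
    rw [← hsym]
    exact star_ne_zero.2 hpb
  have hn : (‖H p b‖ : ℂ) ≠ 0 := by
    rw [Ne, Complex.ofReal_eq_zero, norm_eq_zero]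
    exact hpb
  refine ⟨‖H p b‖⁻¹, inv_pos.2 (norm_pos_iff.2 hpb), ?_⟩
  have hw : IsAlgebraic ℚ (H p b / (‖H p b‖ : ℂ)) := by
    refine IsAlgebraic.of_pow (n := 2) two_pos ?_
    have h1 : (H p b / (‖H p b‖ : ℂ)) ^ 2 = (c * H p b) * (c * H b p)⁻¹ := by
      have h2 : (‖H p b‖ : ℂ) ^ 2 = H p b * H b p := by
        rw [← hsym, ← Complex.mul_conj']
        rfl
      rw [div_pow, h2]
      field_simp
    rw [h1]
    exact (h p b).mul (h b p).inv
  intro i j
  have h1 : (((‖H p b‖⁻¹ : ℝ) : ℂ) • H) i j = (c * H i j) * (c * H p b)⁻¹ * (H p b / (‖H p b‖ : ℂ)) := by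
    rw [Matrix.smul_apply, smul_eq_mul, Complex.ofReal_inv]
    field_simp
  rw [h1]
  exact ((h i j).mul (h p b).inv).mul hw

/-- A group of matrices which spans all matrices, has algebraic traces and preserves a nondegenerate hermitian form: in
a suitable basis the group and the form have algebraic entries. -/
theorem exists_conj_form {G : Type} [Group G] (σ : G →* Matrix (Fin N) (Fin N) ℂ)
    (hs : Submodule.span ℂ (Set.range σ) = ⊤) (htr : ∀ g, IsAlgebraic ℚ (σ g).trace)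
    {J : Matrix (Fin N) (Fin N) ℂ} (hJ : J.det ≠ 0) (hJh : Jᴴ = J)
    (hσ : ∀ g, (σ g)ᴴ * J * σ g = J) :
    ∃ P : Matrix (Fin N) (Fin N) ℂ, P.det ≠ 0 ∧ (∀ g, AlgM (P⁻¹ * σ g * P)) ∧
      AlgM (Pᴴ * J * P) := by
  classical
  rcases eq_or_ne N 0 with rfl | hN
  · exact ⟨1, by simp, fun g i => i.elim0, fun i => i.elim0⟩
  obtain ⟨P, hP, hPg⟩ := exists_conj σ hs htr
  have hPu : IsUnit P.det := hP.isUnit
  let τ : G →* Matrix (Fin N) (Fin N) ℂ :=
    { toFun := fun g => P⁻¹ * σ g * P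
      map_one' := by rw [map_one, Matrix.mul_one, Matrix.nonsing_inv_mul P hPu]
      map_mul' := fun g h => by
        rw [map_mul]
        calc P⁻¹ * (σ g * σ h) * P = P⁻¹ * σ g * 1 * (σ h * P) := by
              simp only [Matrix.mul_assoc, Matrix.one_mul]
          _ = P⁻¹ * σ g * (P * P⁻¹) * (σ h * P) := by rw [Matrix.mul_nonsing_inv P hPu]
          _ = _ := by simp only [Matrix.mul_assoc] }
  have hPPh : Pᴴ * J * P * (P⁻¹) = Pᴴ * J := by
    rw [Matrix.mul_assoc (Pᴴ * J), Matrix.mul_nonsing_inv P hPu, Matrix.mul_one]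
  have hτH : ∀ g, (τ g)ᴴ * (Pᴴ * J * P) * τ g = Pᴴ * J * P := by
    intro g
    change (P⁻¹ * σ g * P)ᴴ * (Pᴴ * J * P) * (P⁻¹ * σ g * P) = _
    have h1 : (P⁻¹)ᴴ * Pᴴ = 1 := by
      rw [← conjTranspose_mul, Matrix.mul_nonsing_inv P hPu, conjTranspose_one]
    rw [conjTranspose_mul, conjTranspose_mul]
    calc Pᴴ * ((σ g)ᴴ * (P⁻¹)ᴴ) * (Pᴴ * J * P) * (P⁻¹ * σ g * P)
        = Pᴴ * (σ g)ᴴ * ((P⁻¹)ᴴ * Pᴴ) * J * (P * P⁻¹) * σ g * P := by
          simp only [Matrix.mul_assoc]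
      _ = Pᴴ * ((σ g)ᴴ * J * σ g) * P := by
          rw [h1, Matrix.mul_nonsing_inv P hPu]
          simp only [Matrix.mul_assoc, Matrix.one_mul]
      _ = _ := by rw [hσ]
  have hHd : (Pᴴ * J * P).det ≠ 0 := by
    rw [det_mul, det_mul, det_conjTranspose]
    exact mul_ne_zero (mul_ne_zero (star_ne_zero.2 hP) hJ) hP
  have hHh : (Pᴴ * J * P)ᴴ = Pᴴ * J * P := by
    rw [conjTranspose_mul, conjTranspose_mul, conjTranspose_conjTranspose, hJh, Matrix.mul_assoc]
  have hH0 : Pᴴ * J * P ≠ 0 := by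
    intro h0
    rw [h0] at hHd
    have : Nonempty (Fin N) := ⟨⟨0, Nat.pos_of_ne_zero hN⟩⟩
    exact hHd Matrix.det_zero
  obtain ⟨c, hc, hcH⟩ := qb_form τ (qb_conj_span hs hP) hPg hHd hτH hN
  obtain ⟨r, hr, hrH⟩ := qb_real hH0 hHh hc hcH
  have hs0 : ((Real.sqrt r : ℝ) : ℂ) ≠ 0 := by
    rw [Ne, Complex.ofReal_eq_zero]
    exact (Real.sqrt_pos.2 hr).ne'
  refine ⟨((Real.sqrt r : ℝ) : ℂ) • P, ?_, fun g => ?_, ?_⟩
  · rw [det_smul]
    exact mul_ne_zero (pow_ne_zero _ hs0) hP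
  · have h1 : (((Real.sqrt r : ℝ) : ℂ) • P)⁻¹ = ((Real.sqrt r : ℝ) : ℂ)⁻¹ • P⁻¹ := by
      refine Matrix.inv_eq_left_inv ?_
      rw [Matrix.smul_mul, Matrix.mul_smul, smul_smul, inv_mul_cancel₀ hs0, one_smul,
        Matrix.nonsing_inv_mul P hPu]
    rw [h1, Matrix.mul_smul, Matrix.smul_mul, Matrix.smul_mul, smul_smul, mul_inv_cancel₀ hs0,
      one_smul]
    exact hPg g
  · have h1 : (((Real.sqrt r : ℝ) : ℂ) • P)ᴴ * J * (((Real.sqrt r : ℝ) : ℂ) • P) =
        (r : ℂ) • (Pᴴ * J * P) := by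
      rw [conjTranspose_smul, Matrix.smul_mul, Matrix.mul_smul, Matrix.smul_mul, smul_smul]
      congr 1
      have h2 : star ((Real.sqrt r : ℝ) : ℂ) = ((Real.sqrt r : ℝ) : ℂ) := Complex.conj_ofReal _
      rw [h2, ← Complex.ofReal_mul, Real.mul_self_sqrt hr.le]
    rw [h1]
    exact hrH

/-- The kernel of an algebraic matrix contains an algebraic vector. -/
theorem exists_alg_ker {M : Matrix (Fin N) (Fin N) ℂ} (hM : AlgM M) {v : Fin N → ℂ} (hv : v ≠ 0)
    (h : M *ᵥ v = 0) : ∃ z : Fin N → ℂ, (∀ i, IsAlgebraic ℚ (z i)) ∧ z ≠ 0 ∧ M *ᵥ z = 0 := by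
  classical
  have hd : M.det = 0 := Matrix.exists_mulVec_eq_zero_iff.1 ⟨v, hv, h⟩
  obtain ⟨B, rfl⟩ := hM.exists_map
  have h1 := RingHom.map_det (algebraMap QB ℂ) B
  rw [RingHom.mapMatrix_apply, hd] at h1
  have h2 : B.det = 0 := (map_eq_zero (algebraMap QB ℂ)).1 h1
  obtain ⟨z, hz, hz0⟩ := Matrix.exists_mulVec_eq_zero_iff.2 h2
  refine ⟨fun i => (z i : ℂ), fun i => qb_alg _, fun h3 => hz ?_, ?_⟩
  · funext i
    exact Subtype.ext (congrFun h3 i)
  · ext i
    have h3 := congrArg (algebraMap QB ℂ) (congrFun hz0 i)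
    rw [Pi.zero_apply, map_zero, Matrix.mulVec, dotProduct, map_sum] at h3
    rw [Pi.zero_apply, Matrix.mulVec, dotProduct, ← h3]
    refine Finset.sum_congr rfl fun j _ => ?_
    rw [map_mul]
    rfl

/-- Eigenvalues of algebraic matrices are algebraic. -/
theorem alg_eig {M : Matrix (Fin N) (Fin N) ℂ} (hM : AlgM M) {v : Fin N → ℂ} (hv : v ≠ 0) {c : ℂ}
    (h : M *ᵥ v = c • v) : IsAlgebraic ℚ c := by
  classical
  obtain ⟨B, rfl⟩ := hM.exists_map
  have h1 : ((B.map (algebraMap QB ℂ)) - c • (1 : Matrix (Fin N) (Fin N) ℂ)) *ᵥ v = 0 := by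
    rw [sub_mulVec, smul_mulVec, one_mulVec, h, sub_self]
  have h2 : ((B.map (algebraMap QB ℂ)) - c • (1 : Matrix (Fin N) (Fin N) ℂ)).det = 0 :=
    Matrix.exists_mulVec_eq_zero_iff.1 ⟨v, hv, h1⟩
  have h3 : (B.map (algebraMap QB ℂ)).charpoly.eval c = 0 := by
    rw [Matrix.eval_charpoly]
    have h4 : (scalar (Fin N)) c - B.map (algebraMap QB ℂ) =
        -((B.map (algebraMap QB ℂ)) - c • (1 : Matrix (Fin N) (Fin N) ℂ)) := by
      rw [neg_sub, scalar_apply, ← smul_one_eq_diagonal]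
    rw [h4, det_neg, h2, mul_zero]
  have h5 : (B.map (algebraMap QB ℂ)).charpoly = B.charpoly.map (algebraMap QB ℂ) :=
    Matrix.charpoly_map B (algebraMap QB ℂ)
  rw [h5, Polynomial.eval_map] at h3
  have h6 : IsAlgebraic QB c := ⟨B.charpoly, B.charpoly_monic.ne_zero, h3⟩
  have h7 : Algebra.IsAlgebraic ℚ QB := algebraicClosure.isAlgebraic ℚ ℂ
  exact h6.restrictScalars ℚ

end Pool.Agent.Lib.MP_5d4057_al.DR
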