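import Mathlib

/-!
# The quotient of two holomorphic functions of several variables (helper99)

`quo` : if on every complex line the order of vanishing of `b` is at most the one of `a`, at every
point of the open connected set `O`, then `a = b * h` on `O` with `h` holomorphic.
-/

set_option autoImplicit false

namespace Pool.Agent.Lib.MP_5d4057_al.DR

open Set Filter Topology Metric MeasureTheory

section Glue

variable {E : Type*} [NormedAddCommGroup E] [NormedSpace ℂ E]

/-- Local quotients give a global one. -/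
theorem quo_glue {O : Set E} (hO : IsOpen O) {a b : E → ℂ}
    (hd : ∀ Q ∈ O, ∃ᶠ v in 𝓝 Q, b v ≠ 0)
    (hloc : ∀ Q ∈ O, ∃ h : E → ℂ, (∀ᶠ v in 𝓝 Q, DifferentiableAt ℂ h v) ∧
      ∀ᶠ v in 𝓝 Q, a v = b v * h v) :
    ∃ h : E → ℂ, (∀ v ∈ O, DifferentiableAt ℂ h v) ∧ ∀ v ∈ O, a v = b v * h v := by
  classical
  choose! H hH1 hH2 using hloc
  have key : ∀ Q ∈ O, ∀ᶠ v in 𝓝 Q, H v v = H Q v := by
    intro Q hQ
    filter_upwards [eventually_eventually_nhds.2 (hH1 Q hQ),
      eventually_eventually_nhds.2 (hH2 Q hQ), hO.mem_nhds hQ] with v h1 h2 hv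
    by_contra hne
    have hc1 : ContinuousAt (H Q) v := h1.self_of_nhds.continuousAt
    have hc2 : ContinuousAt (H v) v := (hH1 v hv).self_of_nhds.continuousAt
    have hev : ∀ᶠ x in 𝓝 v, H v x ≠ H Q x := (hc2.ne_iff_eventually_ne hc1).1 hne
    obtain ⟨x, hx, h3, h4, h5⟩ := ((hd v hv).and_eventually (hev.and (h2.and (hH2 v hv)))).exists
    exact h3 (mul_left_cancel₀ hx (by rw [← h5, ← h4]))
  refine ⟨fun v => H v v, fun v hv => ?_, fun v hv => (hH2 v hv).self_of_nhds⟩
  exact (hH1 v hv).self_of_nhds.congr_of_eventuallyEq (key v hv)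

omit [NormedSpace ℂ E] in
/-- Uniqueness of the quotient. -/
theorem quo_uniq {O : Set E} {b h h' : E → ℂ}
    (hd : ∀ Q ∈ O, ∃ᶠ v in 𝓝 Q, b v ≠ 0) {Q : E} (hQ : Q ∈ O) (hO : IsOpen O)
    (h1 : ContinuousAt h Q) (h2 : ContinuousAt h' Q)
    (he : ∀ v ∈ O, b v * h v = b v * h' v) : h Q = h' Q := by
  by_contra hne
  have hev : ∀ᶠ x in 𝓝 Q, h x ≠ h' x := (h1.ne_iff_eventually_ne h2).1 hne
  obtain ⟨x, hx, h3, h4⟩ := ((hd Q hQ).and_eventually (hev.and (hO.mem_nhds hQ))).exists
  exact h3 (mul_left_cancel₀ hx (he x h4))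

end Glue

/-- One variable. -/
theorem quo_one {U : Set ℂ} (hU : IsOpen U) {α β : ℂ → ℂ} (hα : DifferentiableOn ℂ α U)
    (hβ : DifferentiableOn ℂ β U) (ht : ∀ z ∈ U, analyticOrderAt β z ≠ ⊤)
    (hle : ∀ z ∈ U, analyticOrderAt β z ≤ analyticOrderAt α z) :
    ∃ γ : ℂ → ℂ, (∀ z ∈ U, DifferentiableAt ℂ γ z) ∧ ∀ z ∈ U, α z = β z * γ z := by
  refine quo_glue hU (fun z hz => ?_) (fun z hz => ?_)
  · have h1 := (hβ.analyticAt (hU.mem_nhds hz)).eventually_eq_zero_or_eventually_ne_zero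
    rcases h1 with h1 | h1
    · exact absurd (analyticOrderAt_eq_top.2 h1) (ht z hz)
    · exact h1.frequently.filter_mono nhdsWithin_le_nhds
  · have hβz := hβ.analyticAt (hU.mem_nhds hz)
    have hαz := hα.analyticAt (hU.mem_nhds hz)
    obtain ⟨m, hm⟩ := ENat.ne_top_iff_exists.1 (ht z hz)
    obtain ⟨u, hu, hu0, hue⟩ := (hβz.analyticOrderAt_eq_natCast).1 hm.symm
    obtain ⟨v, hv, hve⟩ := (natCast_le_analyticOrderAt hαz).1 (hm ▸ hle z hz)
    refine ⟨fun x => v x / u x, ?_, ?_⟩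
    · exact (hv.div hu hu0).eventually_analyticAt.mono fun x hx => hx.differentiableAt
    · filter_upwards [hue, hve, hu.continuousAt.eventually_ne hu0] with x h1 h2 h3
      rw [h1, h2, smul_eq_mul, smul_eq_mul]
      field_simp

section Avg

variable {E : Type*} [NormedAddCommGroup E] [NormedSpace ℂ E] [FiniteDimensional ℂ E]

/-- An integral over a compact curve of translates is differentiable. -/
theorem avg_diff {O : Set E} (hO : IsOpen O) {G : E → ℂ} (hG : DifferentiableOn ℂ G O)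
    {c : ℝ → E} (hc : Continuous c) {s t : ℝ} {v : E}
    (hv : ∀ θ ∈ uIcc s t, v + c θ ∈ O) :
    DifferentiableAt ℂ (fun x => ∫ θ in s..t, G (x + c θ)) v := by
  borelize E
  have : ProperSpace E := FiniteDimensional.proper ℂ E
  have : SecondCountableTopology (E →L[ℂ] ℂ) := inferInstance
  -- a uniform neighbourhood
  have hK : IsCompact ((fun θ => v + c θ) '' uIcc s t) :=
    isCompact_uIcc.image (by fun_prop)
  obtain ⟨δ, hδ, hδO⟩ := hK.exists_cthickening_subset_open hO (by
    rintro _ ⟨θ, hθ, rfl⟩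
    exact hv θ hθ)
  have hK2 : IsCompact (cthickening δ ((fun θ => v + c θ) '' uIcc s t)) := hK.cthickening
  obtain ⟨M, hM⟩ := hK2.exists_bound_of_continuousOn (hG.continuousOn.mono hδO)
  have hmem : ∀ θ ∈ uIcc s t, ∀ x : E, dist x v ≤ δ →
      x + c θ ∈ cthickening δ ((fun θ => v + c θ) '' uIcc s t) := by
    intro θ hθ x hx
    refine mem_cthickening_of_dist_le _ (v + c θ) _ _ ⟨θ, hθ, rfl⟩ ?_
    rwa [dist_add_right]
  have hb : ∀ θ ∈ uIcc s t, ∀ x ∈ ball v (δ / 2), ‖fderiv ℂ G (x + c θ)‖ ≤ 2 * M / (δ / 2) := by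
    intro θ hθ x hx
    have hsub : ball (x + c θ) (δ / 2) ⊆ cthickening δ ((fun θ => v + c θ) '' uIcc s t) := by
      intro y hy
      have h1 := hmem θ hθ (y - c θ) ?_
      · rwa [sub_add_cancel] at h1
      · have h2 : dist (y - c θ) x < δ / 2 := by
          rw [mem_ball, dist_eq_norm] at hy
          rw [dist_eq_norm]
          convert hy using 2
          abel
        have h3 := dist_triangle (y - c θ) x v
        rw [mem_ball] at hx
        linarith
    refine Complex.norm_fderiv_le_div_of_mapsTo_ball (hG.mono (hsub.trans hδO)) ?_ (half_pos hδ)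
    intro y hy
    rw [mem_closedBall, dist_eq_norm]
    have h1 := hM y (hsub hy)
    have h2 := hM (x + c θ) (hsub (mem_ball_self (half_pos hδ)))
    have h3 := norm_sub_le (G y) (G (x + c θ))
    linarith
  have hcont : ∀ x ∈ ball v (δ / 2), ContinuousOn (fun θ => G (x + c θ)) (uIcc s t) := by
    intro x hx
    refine ContinuousOn.comp hG.continuousOn (by fun_prop) fun θ hθ => hδO (hmem θ hθ x ?_)
    have h1 := mem_ball.1 hx
    linarith
  have hsub : ∀ {θ : ℝ}, θ ∈ uIoc s t → θ ∈ uIcc s t := fun h => uIoc_subset_uIcc h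
  have hnb : ball v (δ / 2) ∈ 𝓝 v := ball_mem_nhds v (half_pos hδ)
  refine (intervalIntegral.hasFDerivAt_integral_of_dominated_of_fderiv_le
    (F := fun x θ => G (x + c θ)) (F' := fun x θ => fderiv ℂ G (x + c θ))
    (bound := fun _ => 2 * M / (δ / 2)) hnb ?_ ?_ ?_ ?_ ?_ ?_).differentiableAt
  · filter_upwards [hnb] with x hx
    exact ((hcont x hx).mono uIoc_subset_uIcc).aestronglyMeasurable measurableSet_uIoc
  · exact (hcont v (mem_ball_self (half_pos hδ))).intervalIntegrable
  · have h1 : Measurable (fun θ => fderiv ℂ G (v + c θ)) :=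
      (measurable_fderiv ℂ G).comp (by fun_prop)
    exact h1.aestronglyMeasurable
  · refine Eventually.of_forall fun θ hθ x hx => hb θ (hsub hθ) x hx
  · exact intervalIntegrable_const
  · refine Eventually.of_forall fun θ hθ x hx => ?_
    have h1 : x + c θ ∈ O := hδO (hmem θ (hsub hθ) x (by
      have h1 := mem_ball.1 hx
      linarith))
    have h2 : HasFDerivAt G (fderiv ℂ G (x + c θ)) (x + c θ) :=
      (hG.differentiableAt (hO.mem_nhds h1)).hasFDerivAt
    exact (hasFDerivAt_comp_add_right (c θ)).2 h2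

omit [FiniteDimensional ℂ E] in
/-- The order along a line at a translated point. -/
theorem order_line (f : E → ℂ) (v w : E) (z₀ : ℂ) :
    analyticOrderAt (fun z : ℂ => f (v + z • w)) z₀ =
      analyticOrderAt (fun z : ℂ => f ((v + z₀ • w) + z • w)) 0 := by
  have hg : AnalyticAt ℂ (fun z : ℂ => z₀ + z) 0 := by fun_prop
  have hg' : deriv (fun z : ℂ => z₀ + z) 0 ≠ 0 := by simp
  have h := analyticOrderAt_comp_of_deriv_ne_zero (f := fun z : ℂ => f (v + z • w)) hg hg'
  rw [add_zero] at h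
  rw [← h]
  congr 1
  funext z
  simp only [Function.comp_def, add_smul, add_assoc]

omit [FiniteDimensional ℂ E] in
/-- Differentiability along a line. -/
theorem diff_line {O : Set E} {f : E → ℂ} (hf : DifferentiableOn ℂ f O) (v w : E) :
    DifferentiableOn ℂ (fun z : ℂ => f (v + z • w)) {z | v + z • w ∈ O} := by
  refine DifferentiableOn.comp hf (by fun_prop) fun z hz => hz

/-- The local quotient. -/
theorem quo_loc {O : Set E} (hO : IsOpen O) {a b : E → ℂ} (ha : DifferentiableOn ℂ a O)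
    (hb : DifferentiableOn ℂ b O) {Q w : E} (hQ : Q ∈ O)
    (hw : analyticOrderAt (fun z : ℂ => b (Q + z • w)) 0 ≠ ⊤)
    (hord : ∀ P ∈ O, analyticOrderAt (fun z : ℂ => b (P + z • w)) 0 ≠ ⊤ →
      analyticOrderAt (fun z : ℂ => b (P + z • w)) 0 ≤
        analyticOrderAt (fun z : ℂ => a (P + z • w)) 0) :
    ∃ h : E → ℂ, (∀ᶠ v in 𝓝 Q, DifferentiableAt ℂ h v) ∧ ∀ᶠ v in 𝓝 Q, a v = b v * h v := by
  -- the radius
  have hline : Continuous (fun z : ℂ => Q + z • w) := by fun_prop
  have hline0 : {z : ℂ | Q + z • w ∈ O} ∈ 𝓝 (0 : ℂ) := by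
    refine (hO.preimage hline).mem_nhds ?_
    simpa using hQ
  have hba : AnalyticAt ℂ (fun z : ℂ => b (Q + z • w)) 0 :=
    (diff_line hb Q w).analyticAt hline0
  have hb0 : ∀ᶠ z in 𝓝[≠] (0 : ℂ), b (Q + z • w) ≠ 0 := by
    rcases hba.eventually_eq_zero_or_eventually_ne_zero with h1 | h1
    · exact absurd (analyticOrderAt_eq_top.2 h1) hw
    · exact h1
  obtain ⟨r₀, hr₀, hr₀'⟩ := Metric.eventually_nhds_iff_ball.1
    ((eventually_nhdsWithin_iff.1 hb0).and hline0)
  obtain ⟨r, hr⟩ : ∃ r, r = r₀ / 4 := ⟨_, rfl⟩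
  have hrpos : 0 < r := by rw [hr]; linarith
  -- a uniform neighbourhood
  have hcl : IsCompact (closedBall (0 : ℂ) (2 * r)) := isCompact_closedBall _ _
  have hsp : IsCompact (sphere (0 : ℂ) r) := isCompact_sphere _ _
  have hj : Continuous (fun p : E × ℂ => p.1 + p.2 • w) := by fun_prop
  have hO1 : ∀ᶠ v in 𝓝 Q, ∀ z ∈ closedBall (0 : ℂ) (2 * r), v + z • w ∈ O := by
    refine hcl.eventually_forall_of_forall_eventually fun z hz => ?_
    refine (hO.preimage hj).mem_nhds ?_
    refine (hr₀' z ?_).2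
    rw [mem_closedBall] at hz
    rw [mem_ball]
    linarith
  have hO2 : ∀ᶠ v in 𝓝 Q, ∀ z ∈ sphere (0 : ℂ) r, b (v + z • w) ≠ 0 := by
    refine hsp.eventually_forall_of_forall_eventually fun z hz => ?_
    have h1 : Q + z • w ∈ O := (hr₀' z (by
      rw [mem_sphere] at hz
      rw [mem_ball]
      linarith)).2
    have h2 : ContinuousAt (fun p : E × ℂ => b (p.1 + p.2 • w)) (Q, z) := by
      have h3 : ContinuousAt b (Q + z • w) := (hb.differentiableAt (hO.mem_nhds h1)).continuousAt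
      exact ContinuousAt.comp (x := (Q, z)) (g := b) (f := fun p : E × ℂ => p.1 + p.2 • w) h3
        hj.continuousAt
    refine h2.eventually_ne ?_
    refine (hr₀' z ?_).1 ?_
    · rw [mem_sphere] at hz
      rw [mem_ball]
      linarith
    · intro h0
      have h3 : z = 0 := h0
      rw [h3, mem_sphere, dist_self] at hz
      linarith
  -- the set where everything is defined
  obtain ⟨O', hO'⟩ : ∃ O' : Set E, O' = {v | v ∈ O ∧ b v ≠ 0} := ⟨_, rfl⟩
  have hO'o : IsOpen O' := by
    have h1 : O' = O ∩ b ⁻¹' {0}ᶜ := by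
      rw [hO']
      rfl
    rw [h1]
    exact hb.continuousOn.isOpen_inter_preimage hO isOpen_compl_singleton
  have hG : DifferentiableOn ℂ (fun v => a v / b v) O' := by
    have h1 : DifferentiableOn ℂ (fun v => (b v)⁻¹) O' :=
      (hb.mono (by rw [hO']; exact fun v hv => hv.1)).fun_inv
        (by rw [hO']; exact fun v hv => hv.2)
    have h2 : DifferentiableOn ℂ a O' := ha.mono (by rw [hO']; exact fun v hv => hv.1)
    simp only [div_eq_mul_inv]
    exact h2.fun_mul h1
  refine ⟨fun v => (2 * Real.pi)⁻¹ • ∫ θ in (0 : ℝ)..2 * Real.pi,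
    (a (v + circleMap 0 r θ • w) / b (v + circleMap 0 r θ • w)), ?_, ?_⟩
  · filter_upwards [hO1, hO2] with v h1 h2
    have h3 := avg_diff hO'o hG (c := fun θ => circleMap 0 r θ • w) (by fun_prop) (s := 0)
      (t := 2 * Real.pi) (v := v) (by
        intro θ _
        have h4 : circleMap 0 r θ ∈ sphere (0 : ℂ) r := circleMap_mem_sphere _ hrpos.le _
        rw [hO']
        refine ⟨h1 _ ?_, h2 _ h4⟩
        rw [mem_sphere] at h4
        rw [mem_closedBall]
        linarith)
    exact h3.fun_const_smul _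
  · filter_upwards [hO1, hO2] with v h1 h2
    -- the one variable quotient
    have hsub : ball (0 : ℂ) (2 * r) ⊆ {z | v + z • w ∈ O} := fun z hz => h1 z
      (ball_subset_closedBall hz)
    have hβ := (diff_line hb v w).mono hsub
    have hα := (diff_line ha v w).mono hsub
    have hpc : IsPreconnected (ball (0 : ℂ) (2 * r)) := (convex_ball 0 (2 * r)).isPreconnected
    have hr1 : (r : ℂ) ∈ sphere (0 : ℂ) r := by
      rw [mem_sphere, dist_zero_right, Complex.norm_real, Real.norm_eq_abs, abs_of_pos hrpos]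
    have hr2 : (r : ℂ) ∈ ball (0 : ℂ) (2 * r) := by
      rw [mem_sphere] at hr1
      rw [mem_ball]
      linarith
    have ht : ∀ z ∈ ball (0 : ℂ) (2 * r), analyticOrderAt (fun z : ℂ => b (v + z • w)) z ≠ ⊤ := by
      intro z hz
      refine AnalyticOnNhd.analyticOrderAt_ne_top_of_isPreconnected
        (hβ.analyticOnNhd isOpen_ball) hpc hr2 hz ?_
      have h3 : AnalyticAt ℂ (fun z : ℂ => b (v + z • w)) (r : ℂ) :=
        hβ.analyticAt (isOpen_ball.mem_nhds hr2)
      rw [h3.analyticOrderAt_eq_zero.2 (h2 _ hr1)]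
      exact ENat.zero_ne_top
    have hle : ∀ z ∈ ball (0 : ℂ) (2 * r), analyticOrderAt (fun z : ℂ => b (v + z • w)) z ≤
        analyticOrderAt (fun z : ℂ => a (v + z • w)) z := by
      intro z hz
      have h3 := ht z hz
      rw [order_line b v w z] at h3 ⊢
      rw [order_line a v w z]
      exact hord _ (hsub hz) h3
    obtain ⟨γ, hγ1, hγ2⟩ := quo_one isOpen_ball hα hβ ht hle
    have hγd : DiffContOnCl ℂ γ (ball 0 |r|) := by
      have h3 : DifferentiableOn ℂ γ (closure (ball 0 |r|)) := by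
        intro z hz
        refine (hγ1 z ?_).differentiableWithinAt
        rw [abs_of_pos hrpos, closure_ball _ hrpos.ne', mem_closedBall] at hz
        rw [mem_ball]
        linarith
      exact h3.diffContOnCl
    have hav := hγd.circleAverage
    have h0 : (0 : ℂ) ∈ ball (0 : ℂ) (2 * r) := mem_ball_self (by linarith)
    have hv0 : a v = b v * γ 0 := by
      have h3 := hγ2 0 h0
      simpa using h3
    rw [hv0]
    congr 1
    rw [← hav, Real.circleAverage_def]
    congr 1
    refine intervalIntegral.integral_congr fun θ _ => ?_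
    have h4 : circleMap 0 r θ ∈ sphere (0 : ℂ) r := circleMap_mem_sphere _ hrpos.le _
    have h5 : circleMap 0 r θ ∈ ball (0 : ℂ) (2 * r) := by
      rw [mem_sphere] at h4
      rw [mem_ball]
      linarith
    have h6 := hγ2 _ h5
    have h7 := h2 _ h4
    rw [h6, mul_div_cancel_left₀ _ h7]

omit [FiniteDimensional ℂ E] in
/-- **Identity theorem** in several variables. -/
theorem freq_ne {O : Set E} (hO : IsOpen O) (hc : IsPreconnected O) {b : E → ℂ}
    (hb : DifferentiableOn ℂ b O) {v₀ : E} (hv₀ : v₀ ∈ O) (hb0 : b v₀ ≠ 0) {Q : E} (hQ : Q ∈ O) :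
    ∃ᶠ v in 𝓝 Q, b v ≠ 0 := by
  by_contra hcon
  rw [not_frequently] at hcon
  have hcon' : ∀ᶠ v in 𝓝 Q, b v = 0 := hcon.mono fun v hv => not_not.1 hv
  have hso : IsOpen {x | ∀ᶠ v in 𝓝 x, b v = 0} := by
    rw [isOpen_iff_mem_nhds]
    intro x hx
    exact eventually_eventually_nhds.2 hx
  have hsub := hc.subset_of_closure_inter_subset hso ⟨Q, hQ, hcon'⟩ (by
    rintro x ⟨hxc, hxO⟩
    obtain ⟨ε, hε, hεO⟩ := Metric.isOpen_iff.1 hO x hxO
    obtain ⟨y, hy, hyx⟩ := Metric.mem_closure_iff.1 hxc ε hε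
    have hyb : y ∈ ball x ε := by rwa [mem_ball, dist_comm]
    refine mem_of_superset (ball_mem_nhds x hε) fun v hv => ?_
    -- the line from y to v
    have hU : IsOpen {z : ℂ | y + z • (v - y) ∈ ball x ε} :=
      isOpen_ball.preimage (by fun_prop)
    have hUc : IsPreconnected {z : ℂ | y + z • (v - y) ∈ ball x ε} := by
      refine Convex.isPreconnected ?_
      intro z hz z' hz' s t hs ht hst
      have h1 := (convex_ball x ε) hz hz' hs ht hst
      rw [mem_ofPred_eq]
      convert h1 using 1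
      rw [smul_add, smul_add, add_smul]
      have h2 : s • y + t • y = y := by rw [← add_smul, hst, one_smul]
      rw [show s • y + s • z • (v - y) + (t • y + t • z' • (v - y)) =
        (s • y + t • y) + (s • z • (v - y) + t • z' • (v - y)) by abel, h2, smul_assoc, smul_assoc]
    have han : AnalyticOnNhd ℂ (fun z : ℂ => b (y + z • (v - y)))
        {z : ℂ | y + z • (v - y) ∈ ball x ε} :=
      (diff_line (hb.mono hεO) y (v - y)).analyticOnNhd hU
    have h0 : (0 : ℂ) ∈ {z : ℂ | y + z • (v - y) ∈ ball x ε} := by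
      rw [mem_ofPred_eq, zero_smul, add_zero]
      exact hyb
    have h1 : (1 : ℂ) ∈ {z : ℂ | y + z • (v - y) ∈ ball x ε} := by
      rw [mem_ofPred_eq, one_smul, add_sub_cancel]
      exact hv
    have hev : (fun z : ℂ => b (y + z • (v - y))) =ᶠ[𝓝 0] 0 := by
      have h2 : Tendsto (fun z : ℂ => y + z • (v - y)) (𝓝 0) (𝓝 y) := by
        have h3 : Continuous (fun z : ℂ => y + z • (v - y)) := by fun_prop
        have h4 := h3.tendsto 0
        rwa [zero_smul, add_zero] at h4
      exact h2.eventually hy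
    have h2 := han.eqOn_zero_of_preconnected_of_eventuallyEq_zero hUc h0 hev h1
    simpa using h2)
  exact hb0 (hsub hv₀).self_of_nhds

omit [FiniteDimensional ℂ E] in
/-- A line along which `b` does not vanish identically. -/
theorem exists_line {O : Set E} (hO : IsOpen O) {b : E → ℂ} (hb : DifferentiableOn ℂ b O)
    {Q : E} (hQ : Q ∈ O) (hf : ∃ᶠ v in 𝓝 Q, b v ≠ 0) :
    ∃ w : E, analyticOrderAt (fun z : ℂ => b (Q + z • w)) 0 ≠ ⊤ := by
  obtain ⟨ε, hε, hεO⟩ := Metric.isOpen_iff.1 hO Q hQ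
  obtain ⟨v, hv, hvb⟩ := (hf.and_eventually (ball_mem_nhds Q hε)).exists
  have hvb' : v ∈ ball Q ε := hvb
  refine ⟨v - Q, fun htop => hv ?_⟩
  have hU : IsOpen {z : ℂ | Q + z • (v - Q) ∈ ball Q ε} :=
    isOpen_ball.preimage (by fun_prop)
  have hUc : IsPreconnected {z : ℂ | Q + z • (v - Q) ∈ ball Q ε} := by
    refine Convex.isPreconnected ?_
    intro z hz z' hz' s t hs ht hst
    have h1 := (convex_ball Q ε) hz hz' hs ht hst
    rw [mem_ofPred_eq]
    convert h1 using 1
    rw [smul_add, smul_add, add_smul]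
    have h2 : s • Q + t • Q = Q := by rw [← add_smul, hst, one_smul]
    rw [show s • Q + s • z • (v - Q) + (t • Q + t • z' • (v - Q)) =
      (s • Q + t • Q) + (s • z • (v - Q) + t • z' • (v - Q)) by abel, h2, smul_assoc, smul_assoc]
  have han : AnalyticOnNhd ℂ (fun z : ℂ => b (Q + z • (v - Q)))
      {z : ℂ | Q + z • (v - Q) ∈ ball Q ε} :=
    (diff_line (hb.mono hεO) Q (v - Q)).analyticOnNhd hU
  have h0 : (0 : ℂ) ∈ {z : ℂ | Q + z • (v - Q) ∈ ball Q ε} := by
    rw [mem_ofPred_eq, zero_smul, add_zero]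
    exact mem_ball_self hε
  have h1 : (1 : ℂ) ∈ {z : ℂ | Q + z • (v - Q) ∈ ball Q ε} := by
    rw [mem_ofPred_eq, one_smul, add_sub_cancel]
    exact hvb'
  have h2 := han.eqOn_zero_of_preconnected_of_eventuallyEq_zero hUc h0
    (analyticOrderAt_eq_top.1 htop) h1
  simpa using h2

/-- **The quotient lemma**, local form of the nonvanishing. -/
theorem quo' {O : Set E} (hO : IsOpen O) {a b : E → ℂ}
    (ha : DifferentiableOn ℂ a O) (hb : DifferentiableOn ℂ b O)
    (hd : ∀ Q ∈ O, ∃ᶠ v in 𝓝 Q, b v ≠ 0)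
    (hord : ∀ P ∈ O, ∀ w : E, analyticOrderAt (fun z : ℂ => b (P + z • w)) 0 ≠ ⊤ →
      analyticOrderAt (fun z : ℂ => b (P + z • w)) 0 ≤
        analyticOrderAt (fun z : ℂ => a (P + z • w)) 0) :
    ∃ h : E → ℂ, DifferentiableOn ℂ h O ∧ ∀ v ∈ O, a v = b v * h v := by
  obtain ⟨h, h1, h2⟩ := quo_glue hO hd (a := a) fun Q hQ => by
    obtain ⟨w, hw⟩ := exists_line hO hb hQ (hd Q hQ)
    exact quo_loc hO ha hb hQ hw fun P hP => hord P hP w
  exact ⟨h, fun v hv => (h1 v hv).differentiableWithinAt, h2⟩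

/-- **The quotient lemma.** -/
theorem quo {O : Set E} (hO : IsOpen O) (hc : IsPreconnected O) {a b : E → ℂ}
    (ha : DifferentiableOn ℂ a O) (hb : DifferentiableOn ℂ b O) {v₀ : E} (hv₀ : v₀ ∈ O)
    (hb0 : b v₀ ≠ 0)
    (hord : ∀ P ∈ O, ∀ w : E, analyticOrderAt (fun z : ℂ => b (P + z • w)) 0 ≠ ⊤ →
      analyticOrderAt (fun z : ℂ => b (P + z • w)) 0 ≤
        analyticOrderAt (fun z : ℂ => a (P + z • w)) 0) :
    ∃ h : E → ℂ, DifferentiableOn ℂ h O ∧ ∀ v ∈ O, a v = b v * h v :=
  quo' hO ha hb (fun _ hQ => freq_ne hO hc hb hv₀ hb0 hQ) hord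

end Avg

end Pool.Agent.Lib.MP_5d4057_al.DR
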