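import Pool.Agent.Lib.MP_5d4057_al.DR.Fps
import Pool.Agent.Lib.MP_5d4057_al.DR.Quo
import Pool.Agent.Lib.MP_5d4057_al.QB.OsgB

/-!
# DER, T2 (F1): the quotient lemma in Taylor series
-/

set_option autoImplicit false

namespace Pool.Agent.Lib.MP_5d4057_al.DR

open MvPowerSeries Filter Topology

variable {N : ℕ} {Q : Fin N → ℂ} {f : (Fin N → ℂ) → ℂ}

/-- The directional derivative, formal. -/
noncomputable def dwf (w : Fin N → ℂ) (B : MvPowerSeries (Fin N) ℂ) : MvPowerSeries (Fin N) ℂ :=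
  ∑ i, C (w i) * pderiv ℂ i B

theorem dwf_mul (w : Fin N → ℂ) (B R : MvPowerSeries (Fin N) ℂ) :
    dwf w (B * R) = dwf w B * R + B * dwf w R := by
  unfold dwf
  rw [Finset.sum_mul, Finset.mul_sum, ← Finset.sum_add_distrib]
  refine Finset.sum_congr rfl fun i _ => ?_
  rw [Derivation.leibniz, smul_eq_mul, smul_eq_mul]
  ring

theorem dwf_add (w : Fin N → ℂ) (B R : MvPowerSeries (Fin N) ℂ) :
    dwf w (B + R) = dwf w B + dwf w R := by
  unfold dwf
  rw [← Finset.sum_add_distrib]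
  refine Finset.sum_congr rfl fun i _ => ?_
  rw [map_add, mul_add]

theorem dwf_iter_add (w : Fin N → ℂ) (j : ℕ) (B R : MvPowerSeries (Fin N) ℂ) :
    (dwf w)^[j] (B + R) = (dwf w)^[j] B + (dwf w)^[j] R := by
  induction j generalizing B R with
  | zero => rfl
  | succ j ih => rw [Function.iterate_succ_apply, Function.iterate_succ_apply,
      Function.iterate_succ_apply, dwf_add, ih]

/-- The order of a product. -/
theorem cc_dwf_mul (w : Fin N → ℂ) (j : ℕ) : ∀ B R : MvPowerSeries (Fin N) ℂ,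
    (∀ i ≤ j, constantCoeff ((dwf w)^[i] B) = 0) → constantCoeff ((dwf w)^[j] (B * R)) = 0 := by
  induction j with
  | zero =>
    intro B R h
    have h0 := h 0 le_rfl
    simp only [Function.iterate_zero, id] at h0 ⊢
    rw [map_mul, h0, zero_mul]
  | succ j ih =>
    intro B R h
    rw [Function.iterate_succ_apply, dwf_mul, dwf_iter_add, map_add,
      ih _ _ fun i hi => ?_, ih _ _ fun i hi => h i (by omega), add_zero]
    rw [← Function.iterate_succ_apply]
    exact h (i + 1) (by omega)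

/-- The directional derivative of a function. -/
noncomputable def dwd (w : Fin N → ℂ) (f : (Fin N → ℂ) → ℂ) : (Fin N → ℂ) → ℂ :=
  fun y => ∑ i, w i * pd i f y

theorem an_dwd (w : Fin N → ℂ) (hf : AnalyticAt ℂ f Q) : AnalyticAt ℂ (dwd w f) Q := by
  unfold dwd
  exact Finset.analyticAt_fun_sum _ fun i _ => analyticAt_const.mul (an_dd i hf)

theorem tay_dwd (w : Fin N → ℂ) (hf : AnalyticAt ℂ f Q) :
    Tay Q (dwd w f) = dwf w (Tay Q f) := by
  unfold dwd dwf
  have h1 : ∀ i ∈ Finset.univ, AnalyticAt ℂ (fun y => w i * pd i f y) Q := fun i _ =>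
    analyticAt_const.mul (an_dd i hf)
  rw [Tay_sum Finset.univ (fun i y => w i * pd i f y) h1]
  refine Finset.sum_congr rfl fun i _ => ?_
  have h2 := Tay_mul (Q := Q) (f := fun _ => w i) (g := pd i f) analyticAt_const (an_dd i hf)
  rw [h2, Tay_const, Tay_pd i hf]

theorem fderiv_eq_dwd (w : Fin N → ℂ) (f : (Fin N → ℂ) → ℂ) (y : Fin N → ℂ) :
    fderiv ℂ f y w = dwd w f y := by
  unfold dwd
  conv_lhs => rw [← Finset.univ_sum_single w]
  rw [map_sum]
  refine Finset.sum_congr rfl fun j _ => ?_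
  have h3 : (Pi.single j (w j) : Fin N → ℂ) = w j • Pi.single j 1 := by
    rw [← Pi.single_smul, smul_eq_mul, mul_one]
  rw [h3, map_smul, smul_eq_mul]
  rfl

theorem an_line (w : Fin N → ℂ) (hf : AnalyticAt ℂ f Q) :
    AnalyticAt ℂ (fun t : ℂ => f (Q + t • w)) 0 := by
  have h1 : AnalyticAt ℂ f ((fun t : ℂ => Q + t • w) 0) := by simpa using hf
  exact h1.comp (g := f) (f := fun t : ℂ => Q + t • w) (by fun_prop)

/-- Iterated derivatives along a line. -/
theorem iter_line (w : Fin N → ℂ) (j : ℕ) : ∀ {f : (Fin N → ℂ) → ℂ}, AnalyticAt ℂ f Q →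
    iteratedDeriv j (fun t : ℂ => f (Q + t • w)) 0 = constantCoeff ((dwf w)^[j] (Tay Q f)) := by
  induction j with
  | zero =>
    intro f hf
    rw [iteratedDeriv_zero, Function.iterate_zero, id, Tay_const_coeff, zero_smul, add_zero]
  | succ j ih =>
    intro f hf
    rw [iteratedDeriv_succ', Function.iterate_succ_apply, ← tay_dwd w hf, ← ih (an_dwd w hf)]
    have h1 : deriv (fun t : ℂ => f (Q + t • w)) =ᶠ[𝓝 0] fun t : ℂ => dwd w f (Q + t • w) := by
      have hc : Tendsto (fun t : ℂ => Q + t • w) (𝓝 0) (𝓝 Q) := by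
        have : Continuous (fun t : ℂ => Q + t • w) := by fun_prop
        simpa using this.tendsto 0
      filter_upwards [hc.eventually hf.eventually_analyticAt] with t ht
      have h2 : HasDerivAt (fun t : ℂ => Q + t • w) w t := by
        simpa using ((hasDerivAt_id t).smul_const w).const_add Q
      have h3 := ht.differentiableAt.hasFDerivAt.comp_hasDerivAt t h2
      rw [← fderiv_eq_dwd]
      exact h3.deriv
    exact h1.iteratedDeriv_eq j

/-- Orders on a line. -/
theorem order_line_le {a b : (Fin N → ℂ) → ℂ} (ha : AnalyticAt ℂ a Q) (hb : AnalyticAt ℂ b Q)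
    {r : MvPowerSeries (Fin N) ℂ} (h : Tay Q a = Tay Q b * r) (w : Fin N → ℂ)
    (hw : analyticOrderAt (fun z : ℂ => b (Q + z • w)) 0 ≠ ⊤) :
    analyticOrderAt (fun z : ℂ => b (Q + z • w)) 0 ≤
      analyticOrderAt (fun z : ℂ => a (Q + z • w)) 0 := by
  obtain ⟨d, hd⟩ := ENat.ne_top_iff_exists.1 hw
  rw [← hd, natCast_le_analyticOrderAt_iff_iteratedDeriv_eq_zero (an_line w ha)]
  have h1 := (natCast_le_analyticOrderAt_iff_iteratedDeriv_eq_zero (an_line w hb)).1 hd.le
  intro j hj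
  rw [iter_line w j ha, h]
  refine cc_dwf_mul w j _ _ fun i hi => ?_
  rw [← iter_line w i hb]
  exact h1 i (by omega)

/-- **The quotient lemma in Taylor series.** -/
theorem quo_tay' {O : Set (Fin N → ℂ)} {a b : (Fin N → ℂ) → ℂ} (hO : IsOpen O)
    (ha : DifferentiableOn ℂ a O)
    (hb : DifferentiableOn ℂ b O) (hd : ∀ Q ∈ O, ∃ᶠ v in 𝓝 Q, b v ≠ 0)
    (hr : ∀ Q ∈ O, ∃ r, Tay Q a = Tay Q b * r) :
    ∃ h : (Fin N → ℂ) → ℂ, DifferentiableOn ℂ h O ∧ ∀ v ∈ O, a v = b v * h v := by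
  refine quo' hO ha hb hd fun P hP w hw => ?_
  obtain ⟨r, hr⟩ := hr P hP
  exact order_line_le (QB.OsgB.analyticOnNhd hO ha P hP) (QB.OsgB.analyticOnNhd hO hb P hP) hr w hw

end Pool.Agent.Lib.MP_5d4057_al.DR
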