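import Mathlib

/-!
# DER, T2 (F2): a derivation over `D` applied to values of a polynomial; relations of least degree
-/

set_option autoImplicit false

namespace Pool.Agent.Lib.MP_5d4057_al.DR

open MvPolynomial

section Alg

variable {σ : Type} (D : Derivation ℤ ℂ ℂ)

/-- `D` applied to the coefficients of a polynomial. -/
noncomputable def dP (P : MvPolynomial σ ℂ) : MvPolynomial σ ℂ :=
  ∑ m ∈ P.support, monomial m (D (coeff m P))

theorem coeff_dP (P : MvPolynomial σ ℂ) (m : σ →₀ ℕ) : coeff m (dP D P) = D (coeff m P) := by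
  classical
  rw [dP, coeff_sum]
  simp only [coeff_monomial]
  rw [Finset.sum_ite_eq']
  split_ifs with h
  · rfl
  · rw [notMem_support_iff.1 h, map_zero]

theorem dP_add (P Q : MvPolynomial σ ℂ) : dP D (P + Q) = dP D P + dP D Q := by
  refine MvPolynomial.ext _ _ fun m => ?_
  rw [coeff_add, coeff_dP, coeff_dP, coeff_dP, coeff_add, map_add]

theorem dP_C (c : ℂ) : dP D (C c : MvPolynomial σ ℂ) = C (D c) := by
  classical
  refine MvPolynomial.ext _ _ fun m => ?_
  rw [coeff_dP, coeff_C, coeff_C]
  split_ifs
  · rfl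
  · exact map_zero _

theorem dP_mul_X (P : MvPolynomial σ ℂ) (i : σ) : dP D (P * X i) = dP D P * X i := by
  classical
  refine MvPolynomial.ext _ _ fun m => ?_
  rw [coeff_dP, coeff_mul_X', coeff_mul_X', coeff_dP]
  split_ifs
  · rfl
  · exact map_zero _

/-- A derivation over `D` of the value of a polynomial. -/
theorem K_aeval [Fintype σ] {S : Type} [CommRing S] [Algebra ℂ S] (K : S → S)
    (ha : ∀ x y, K (x + y) = K x + K y) (hl : ∀ x y, K (x * y) = x * K y + y * K x)
    (hK : ∀ c, K (algebraMap ℂ S c) = algebraMap ℂ S (D c)) (s : σ → S) (P : MvPolynomial σ ℂ) :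
    K (aeval s P) = aeval s (dP D P) + ∑ i, aeval s (pderiv i P) * K (s i) := by
  classical
  induction P using MvPolynomial.induction_on with
  | C a =>
    rw [dP_C, aeval_C, aeval_C, hK]
    simp only [pderiv_C, map_zero, zero_mul, Finset.sum_const_zero, add_zero]
  | add P Q hP hQ =>
    rw [map_add, ha, hP, hQ, dP_add, map_add]
    simp only [map_add, add_mul, Finset.sum_add_distrib]
    ring
  | mul_X P i hP =>
    have key : ∀ x, aeval s (pderiv x (P * X i)) * K (s x) =
        s i * (aeval s (pderiv x P) * K (s x)) + (if x = i then aeval s P * K (s i) else 0) := by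
      intro x
      rw [Derivation.leibniz, smul_eq_mul, smul_eq_mul, map_add, map_mul, map_mul, aeval_X]
      split_ifs with h
      · subst h
        rw [pderiv_X_self, map_one]
        ring
      · rw [pderiv_X_of_ne (fun hc => h hc.symm), map_zero]
        ring
    rw [map_mul, aeval_X, hl, hP, dP_mul_X, map_mul, aeval_X]
    simp only [key, Finset.sum_add_distrib, Finset.sum_ite_eq', Finset.mem_univ, if_true,
      mul_add, Finset.mul_sum]
    ring

end Alg

section Deg

variable {σ : Type}

theorem degreeOf_pderiv_lt {i : σ} {P : MvPolynomial σ ℂ} (h : 0 < degreeOf i P) :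
    degreeOf i (pderiv i P) < degreeOf i P := by
  classical
  rw [degreeOf_lt_iff h]
  intro m hm
  rw [mem_support_iff, coeff_pderiv] at hm
  have h1 : m + Finsupp.single i 1 ∈ P.support := by
    rw [mem_support_iff]
    exact left_ne_zero_of_mul hm
  have h2 := monomial_le_degreeOf i h1
  rw [Finsupp.add_apply, Finsupp.single_eq_same] at h2
  omega

theorem pderiv_ne_zero' {i : σ} {P : MvPolynomial σ ℂ} (h : 0 < degreeOf i P) :
    pderiv i P ≠ 0 := by
  classical
  intro h0
  have h1 : degreeOf i P ≤ 0 := by
    rw [degreeOf_le_iff]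
    intro m hm
    by_contra hc
    have hc' : 1 ≤ m i := by omega
    have h2 : (m - Finsupp.single i 1) + Finsupp.single i 1 = m := by
      refine tsub_add_cancel_of_le ?_
      rw [Finsupp.single_le_iff]
      exact hc'
    have h3 := congrArg (coeff (m - Finsupp.single i 1)) h0
    rw [coeff_pderiv, h2, coeff_zero] at h3
    rcases mul_eq_zero.1 h3 with h4 | h4
    · exact (mem_support_iff.1 hm) h4
    · exact Nat.cast_add_one_ne_zero _ h4
  omega

/-- The value does not depend on a variable of degree `0`. -/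
theorem eval_eq_of_degreeOf [Fintype σ] {i : σ} {P : MvPolynomial σ ℂ} (h : degreeOf i P = 0)
    {x y : σ → ℂ} (hxy : ∀ j, j ≠ i → x j = y j) : eval x P = eval y P := by
  classical
  rw [eval_eq', eval_eq']
  refine Finset.sum_congr rfl fun m hm => ?_
  congr 1
  refine Finset.prod_congr rfl fun j _ => ?_
  by_cases hj : j = i
  · have h1 := monomial_le_degreeOf i hm
    rw [hj]
    have h2 : m i = 0 := by omega
    rw [h2, pow_zero, pow_zero]
  · rw [hxy j hj]

/-- A polynomial which vanishes on a product of a neighbourhood and a line is zero. -/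
theorem eq_zero_of_nhds {N : ℕ} {P : MvPolynomial (Fin (N + 1)) ℂ} {u₀ : Fin N → ℂ}
    (h : ∀ᶠ u in nhds u₀, ∀ t : ℂ, eval (Fin.snoc u t : Fin (N + 1) → ℂ) P = 0) : P = 0 := by
  obtain ⟨r, hr, hr'⟩ := Metric.eventually_nhds_iff_ball.1 h
  refine funext_set (fun i : Fin (N + 1) => Fin.lastCases (motive := fun _ => Set ℂ) Set.univ
    (fun j : Fin N => Metric.ball (u₀ j) r) i) (fun i => ?_) fun x hx => ?_
  · refine Fin.lastCases ?_ (fun j => ?_) i
    · rw [Fin.lastCases_last]
      exact Set.infinite_univ
    · rw [Fin.lastCases_castSucc]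
      exact infinite_of_mem_nhds (u₀ j) (Metric.ball_mem_nhds _ hr)
  · rw [map_zero]
    have h1 : (Fin.snoc (fun j : Fin N => x j.castSucc) (x (Fin.last N)) : Fin (N + 1) → ℂ) = x := by
      funext i
      refine Fin.lastCases ?_ (fun j => ?_) i
      · rw [Fin.snoc_last]
      · rw [Fin.snoc_castSucc]
    rw [← h1]
    refine hr' _ ?_ _
    rw [ball_pi _ hr, Set.mem_pi]
    intro j _
    have h2 := hx j.castSucc (Set.mem_univ _)
    simpa only [Fin.lastCases_castSucc] using h2

end Deg

end Pool.Agent.Lib.MP_5d4057_al.DR
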