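import Pool.Agent.Lib.MP_5d4057_al.DR.Fra
import Pool.Agent.Lib.MP_5d4057_al.DR.RelA
import Pool.Agent.Lib.MP_5d4057_al.DR.QuoT

/-!
# DER, T2 (F2): the pointwise derivation of an algebraic function is analytic and its Taylor series
is the formal derivation
-/

set_option autoImplicit false

namespace Pool.Agent.Lib.MP_5d4057_al.DR

open MvPowerSeries Filter Topology Matrix

variable {N : ℕ} {O : Set (Fin N → ℂ)} {F : Fin N → (Fin N → ℂ) → ℂ} {f : (Fin N → ℂ) → ℂ}

theorem an_eval {ι : Type} [Fintype ι] {G : ι → (Fin N → ℂ) → ℂ} {Q : Fin N → ℂ}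
    (hG : ∀ i, AnalyticAt ℂ (G i) Q) (P : MvPolynomial ι ℂ) :
    AnalyticAt ℂ (fun y => MvPolynomial.eval (fun i => G i y) P) Q := by
  induction P using MvPolynomial.induction_on with
  | C a => simpa using analyticAt_const
  | add P P' h h' =>
    simp only [map_add]
    exact h.add h'
  | mul_X P i h =>
    simp only [map_mul, MvPolynomial.eval_X]
    exact h.mul (hG i)

/-- The frame together with `f`. -/
def Gs (F : Fin N → (Fin N → ℂ) → ℂ) (f : (Fin N → ℂ) → ℂ) (i : Fin (N + 1)) :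
    (Fin N → ℂ) → ℂ :=
  fun y => (Fin.snoc (fun a => F a y) (f y) : Fin (N + 1) → ℂ) i

theorem Gs_castSucc (a : Fin N) : Gs F f a.castSucc = F a := by
  funext y
  unfold Gs
  rw [Fin.snoc_castSucc]

theorem Gs_last : Gs F f (Fin.last N) = f := by
  funext y
  unfold Gs
  rw [Fin.snoc_last]

theorem an_Gs {Q : Fin N → ℂ} (hF : ∀ a, AnalyticAt ℂ (F a) Q) (hf : AnalyticAt ℂ f Q)
    (i : Fin (N + 1)) : AnalyticAt ℂ (Gs F f i) Q := by
  refine Fin.lastCases ?_ (fun a => ?_) i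
  · rw [Gs_last]
    exact hf
  · rw [Gs_castSucc]
    exact hF a

/-- A frame is open at a point where it is nondegenerate. -/
theorem map_nhds_frame {Q : Fin N → ℂ} (hF : ∀ a, AnalyticAt ℂ (F a) Q) (hJ : Jac F Q ≠ 0) :
    Filter.map (fun y a => F a y) (𝓝 Q) = 𝓝 (fun a => F a Q) := by
  have h1 : HasStrictFDerivAt (fun y a => F a y)
      (ContinuousLinearMap.pi fun a => fderiv ℂ (F a) Q) Q :=
    hasStrictFDerivAt_pi.2 fun a => (hF a).hasStrictFDerivAt
  refine h1.map_nhds_eq_of_surj ?_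
  rw [LinearMap.range_eq_top]
  intro u
  refine ⟨(Mj F Q)⁻¹ *ᵥ u, ?_⟩
  have h2 : ∀ w : Fin N → ℂ, (ContinuousLinearMap.pi fun a => fderiv ℂ (F a) Q) w =
      Mj F Q *ᵥ w := by
    intro w
    funext a
    rw [ContinuousLinearMap.pi_apply]
    conv_lhs => rw [← Finset.univ_sum_single w]
    rw [map_sum]
    refine Finset.sum_congr rfl fun j _ => ?_
    have h3 : (Pi.single j (w j) : Fin N → ℂ) = w j • Pi.single j 1 := by
      rw [← Pi.single_smul, smul_eq_mul, mul_one]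
    rw [h3, map_smul, smul_eq_mul, mul_comm]
    rfl
  show (ContinuousLinearMap.pi fun a => fderiv ℂ (F a) Q) ((Mj F Q)⁻¹ *ᵥ u) = u
  rw [h2, mulVec_mulVec, mul_nonsing_inv _ (isUnit_iff_ne_zero.2 hJ), one_mulVec]

/-- A relation of least degree in the last variable: its derivative does not vanish identically. -/
theorem exists_min (hO : IsOpen O) (hc : IsPreconnected O) (hF : ∀ a, AnalyticOnNhd ℂ (F a) O)
    (hf : AnalyticOnNhd ℂ f O) (h : AlgO O F f) (hJ : ∃ y ∈ O, Jac F y ≠ 0) :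
    ∃ P : MvPolynomial (Fin (N + 1)) ℂ,
      (∀ y ∈ O, MvPolynomial.eval (Fin.snoc (fun a => F a y) (f y)) P = 0) ∧
      ∀ Q ∈ O, ¬ ∀ᶠ y in 𝓝 Q, MvPolynomial.eval (Fin.snoc (fun a => F a y) (f y))
        (MvPolynomial.pderiv (Fin.last N) P) = 0 := by
  classical
  have hex : ∃ d, ∃ P : MvPolynomial (Fin (N + 1)) ℂ, P ≠ 0 ∧
      (∀ y ∈ O, MvPolynomial.eval (Fin.snoc (fun a => F a y) (f y)) P = 0) ∧
      MvPolynomial.degreeOf (Fin.last N) P = d := by
    obtain ⟨P, hP, hP'⟩ := h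
    exact ⟨_, P, hP, hP', rfl⟩
  obtain ⟨P, hP0, hP1, hP2⟩ := Nat.find_spec hex
  refine ⟨P, hP1, fun Q hQ hev => ?_⟩
  have h1 : ∀ y ∈ O, MvPolynomial.eval (Fin.snoc (fun a => F a y) (f y))
      (MvPolynomial.pderiv (Fin.last N) P) = 0 := by
    have h2 : AnalyticOnNhd ℂ (fun y => MvPolynomial.eval (Fin.snoc (fun a => F a y) (f y))
        (MvPolynomial.pderiv (Fin.last N) P)) O := fun y hy =>
      an_eval (fun i => an_Gs (fun a => hF a y hy) (hf y hy) i) _
    exact h2.eqOn_zero_of_preconnected_of_eventuallyEq_zero hc hQ hev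
  rcases Nat.eq_zero_or_pos (MvPolynomial.degreeOf (Fin.last N) P) with h0 | h0
  · obtain ⟨y₀, hy₀, hJ₀⟩ := hJ
    refine hP0 (eq_zero_of_nhds (u₀ := fun a => F a y₀) ?_)
    rw [← map_nhds_frame (fun a => hF a y₀ hy₀) hJ₀, Filter.eventually_map]
    filter_upwards [hO.mem_nhds hy₀] with y hy t
    rw [← hP1 y hy]
    refine eval_eq_of_degreeOf h0 fun j hj => ?_
    refine Fin.lastCases (fun hj => absurd rfl hj) (fun a _ => ?_) j hj
    rw [Fin.snoc_castSucc, Fin.snoc_castSucc]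
  · exact Nat.find_min hex (hP2 ▸ degreeOf_pderiv_lt h0)
      ⟨MvPolynomial.pderiv (Fin.last N) P, pderiv_ne_zero' h0, h1, rfl⟩

/-- **(F2)** -/
theorem dlt_spec (D : Derivation ℤ ℂ ℂ) (hO : IsOpen O) (hc : IsPreconnected O)
    (hF : ∀ a, AnalyticOnNhd ℂ (F a) O) (hf : AnalyticOnNhd ℂ f O) (h : AlgO O F f)
    (hJ : ∃ y ∈ O, Jac F y ≠ 0) {Q : Fin N → ℂ} (hQ : Q ∈ O) (hQJ : Jac F Q ≠ 0) :
    AnalyticAt ℂ (dlt D F f) Q ∧ Tay Q (dlt D F f) = Kd D F Q (Tay Q f) := by
  obtain ⟨P, hP, hT⟩ := exists_min hO hc hF hf h hJ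
  -- the open set
  have hJc : ContinuousOn (Jac F) O := fun y hy => (an_Jac fun a => hF a y hy).continuousAt.continuousWithinAt
  have hO' : IsOpen {y ∈ O | Jac F y ≠ 0} := by
    have := hJc.isOpen_inter_preimage hO (isOpen_compl_singleton (x := (0 : ℂ)))
    exact this
  set O' : Set (Fin N → ℂ) := {y ∈ O | Jac F y ≠ 0} with hO'd
  set a : (Fin N → ℂ) → ℂ := fun y => -MvPolynomial.eval (fun i => Gs F f i y) (dP D P) with had
  set b : (Fin N → ℂ) → ℂ := fun y => MvPolynomial.eval (fun i => Gs F f i y)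
    (MvPolynomial.pderiv (Fin.last N) P) with hbd
  have hG : ∀ y ∈ O', ∀ i, AnalyticAt ℂ (Gs F f i) y := fun y hy i =>
    an_Gs (fun a => hF a y hy.1) (hf y hy.1) i
  have haA : ∀ y ∈ O', AnalyticAt ℂ a y := fun y hy => (an_eval (hG y hy) _).neg
  have hbA : ∀ y ∈ O', AnalyticAt ℂ b y := fun y hy => an_eval (hG y hy) _
  -- the formal identity
  have key : ∀ y ∈ O', Tay y a = Tay y b * Kd D F y (Tay y f) := by
    intro y hy
    have h1 := K_aeval D (fun x => Kd D F y x) (fun x x' => map_add _ _ _)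
      (fun x x' => by rw [Derivation.leibniz, smul_eq_mul, smul_eq_mul]) (fun c => by
        rw [MvPowerSeries.algebraMap_apply, MvPowerSeries.algebraMap_apply]
        exact Kd_C D F y c) (fun i => Tay y (Gs F f i)) P
    have h2 : MvPolynomial.aeval (fun i => Tay y (Gs F f i)) P = 0 := by
      rw [← Tay_eval _ (hG y hy), Tay_congr (g := fun _ => (0 : ℂ)), Tay_const, map_zero]
      filter_upwards [hO.mem_nhds hy.1] with v hv
      exact hP v hv
    rw [h2, map_zero, Fin.sum_univ_castSucc, Finset.sum_eq_zero, zero_add, Gs_last] at h1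
    · have h3 : Tay y a = -MvPolynomial.aeval (fun i => Tay y (Gs F f i)) (dP D P) := by
        rw [← Tay_eval _ (hG y hy), ← Tay_neg (an_eval (hG y hy) _)]
      rw [h3, Tay_eval _ (hG y hy)]
      linear_combination h1
    · intro i _
      rw [Gs_castSucc, Kd_frame D (fun a => hF a y hy.1) hy.2, mul_zero]
  have hbne : ∀ y ∈ O', Tay y b ≠ 0 := by
    intro y hy h0
    refine hT y hy.1 ?_
    have h1 := Tay_ext (hbA y hy) analyticAt_const (g := fun _ => (0 : ℂ))
      (by rw [h0, Tay_const, map_zero])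
    exact h1
  obtain ⟨q, hq, hq'⟩ := quo_tay' hO' (fun y hy => (haA y hy).differentiableAt.differentiableWithinAt)
    (fun y hy => (hbA y hy).differentiableAt.differentiableWithinAt)
    (fun y hy => by
      intro hcon
      exact hT y hy.1 (hcon.mono fun v hv => not_not.1 hv)) (fun y hy => ⟨_, key y hy⟩)
  have hqA : ∀ y ∈ O', AnalyticAt ℂ q y := fun y hy => QB.OsgB.analyticOnNhd hO' hq y hy
  have hqT : ∀ y ∈ O', Tay y q = Kd D F y (Tay y f) := by
    intro y hy
    refine mul_left_cancel₀ (hbne y hy) ?_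
    rw [← key y hy, ← Tay_mul (hbA y hy) (hqA y hy)]
    refine Tay_congr ?_
    filter_upwards [hO'.mem_nhds hy] with v hv
    exact (hq' v hv).symm
  have hqd : ∀ y ∈ O', q y = dlt D F f y := by
    intro y hy
    rw [← const_Kd D (fun a => hF a y hy.1) hy.2 (hf y hy.1), ← hqT y hy, Tay_const_coeff]
  have hQ' : Q ∈ O' := ⟨hQ, hQJ⟩
  have hev : q =ᶠ[𝓝 Q] dlt D F f := by
    filter_upwards [hO'.mem_nhds hQ'] with v hv
    exact hqd v hv
  exact ⟨(hqA Q hQ').congr hev, by rw [← Tay_congr hev, hqT Q hQ']⟩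

end Pool.Agent.Lib.MP_5d4057_al.DR
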